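import Pool.Agent.Work.MP_7453a1_nt_sup.Std

set_option autoImplicit false
set_option maxRecDepth 100000

/-! Certificates (type D). -/

namespace Pool.Agent.Work.MP_7453a1_nt_sup

/-- Type D: the point `z_6`. -/
def D6.D : Data :=
  ⟨[none, none, none, some [1, 1, -1], some [0, 0, 1], some [1, 0, 0], some [1, 1, 0], some [1, 0,
    1], some [1, 1, 1], none],
    sup, stdExt, []⟩

/-- Class (0, 0, 0). -/
def D6.T0 : Tree :=
  .split 8 [0, 0, 0, 1] (.alt (.leaf [(0, 2), (9, 2), (11, 3), (13, 3), (19, 1)]) (.alt (.leaf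
    [(0, 2), (9, 6), (11, 9), (13, 9), (19, 3)]) (.alt (.leaf [(0, 2), (2, 1), (20, 2), (45,
    1)]) (.alt (.leaf [(0, 2), (2, 1), (20, 2), (46, 1)]) (.alt (.leaf [(0, 2), (2, 1), (20, 2),
    (47, 1)]) (.alt (.leaf [(0, 2), (2, 1), (20, 2), (48, 1)]) (.alt (.leaf [(1, 2), (14, 2),
    (16, 3), (18, 3), (24, 1)]) (.done))))))))

/-- Class (1, 0, 0). -/
def D6.T1 : Tree :=
  .split 4 [] (.alt (.leaf [(0, 1), (12, 1), (14, 1), (16, 1), (18, 1), (41, 1), (53, 1)]) (.alt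
    (.leaf [(0, 1), (12, 1), (14, 1), (16, 1), (38, 1), (51, 1)]) (.alt (.split 3 [0, 1, -1, 0]
    (.alt (.leaf [(0, 1), (10, 2), (12, 2), (14, 1)]) (.alt (.leaf [(0, 1), (14, 1)]) (.alt
    (.split 2 [0, 1, 0, 0] (.alt (.leaf [(0, 1), (13, 1)]) (.alt (.leaf [(0, 1), (13, 1), (15,
    2)]) (.alt (.split 5 [1, 0, 0, -1] (.alt (.leaf [(0, 2), (12, 3), (14, 5), (16, 6), (22,
    1)]) (.alt (.split 8 [0, 0, 0, 1] (.alt (.leaf [(0, 1), (1, 1), (13, 1), (15, 2), (17, 2)])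
    (.alt (.leaf [(0, 2), (13, 7), (15, 11), (17, 10), (23, 3)]) (.alt (.leaf [(0, 4), (2, 4),
    (12, 4), (14, 3), (16, 3), (18, 3), (20, 3), (22, 1), (24, 2), (25, 1), (42, 2), (45, 3),
    (49, 2)]) (.alt (.split 6 [] (.alt (.leaf [(0, 1), (1, 2), (21, 1), (25, 1), (43, 1), (46,
    1), (51, 1)]) (.alt (.leaf [(0, 1), (3, 1), (4, 1), (13, 1), (15, 2), (17, 2), (19, 2), (21,
    3), (23, 1), (43, 2), (46, 1)]) (.alt (.leaf [(0, 2), (5, 2), (17, 2), (19, 2), (21, 4),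
    (23, 4), (46, 1), (47, 1), (48, 2)]) (.alt (.leaf [(0, 1), (3, 1), (5, 1), (13, 1), (17, 1),
    (19, 1), (21, 2), (23, 1), (29, 1), (43, 1), (46, 1)]) (.done)))))) (.alt (.leaf [(0, 2),
    (2, 1), (4, 1), (12, 1), (14, 1), (16, 2), (18, 2), (20, 2), (24, 1), (42, 1), (43, 1), (45,
    1), (51, 1)]) (.alt (.split 8 [1, 0, 0, -1] (.alt (.leaf [(0, 2), (14, 5), (16, 7), (18, 8),
    (24, 3)]) (.alt (.leaf [(0, 2), (14, 3), (16, 5), (18, 4), (24, 1)]) (.alt (.leaf [(0, 4),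
    (3, 4), (13, 4), (15, 3), (17, 3), (19, 3), (21, 3), (23, 1), (25, 2), (26, 1), (43, 2),
    (46, 3), (51, 2)]) (.alt (.split 6 [] (.alt (.leaf [(0, 1), (1, 2), (22, 1), (26, 1), (44,
    1), (47, 1), (51, 1)]) (.alt (.leaf [(0, 1), (4, 1), (5, 1), (14, 1), (16, 2), (18, 2), (20,
    2), (22, 3), (24, 1), (44, 2), (47, 1)]) (.alt (.leaf [(0, 2), (6, 2), (18, 2), (20, 2),
    (22, 4), (24, 4), (47, 1), (48, 1), (49, 2)]) (.alt (.leaf [(0, 1), (4, 1), (6, 1), (14, 1),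
    (18, 1), (20, 1), (22, 2), (24, 1), (30, 1), (44, 1), (47, 1)]) (.done)))))) (.alt (.leaf
    [(0, 2), (3, 1), (5, 1), (13, 1), (15, 1), (17, 2), (19, 2), (21, 2), (25, 1), (43, 1), (44,
    1), (46, 1), (53, 1)]) (.alt (.leaf [(0, 1), (1, 1), (3, 1), (5, 2), (13, 1), (17, 2), (19,
    1), (21, 1), (29, 1), (37, 1), (43, 1), (46, 1), (48, 1)]) (.alt (.leaf [(0, 1), (7, 1),
    (19, 1), (21, 2), (23, 2)]) (.done))))))))) (.alt (.leaf [(1, 2), (18, 3), (20, 5), (22, 4),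
    (28, 1)]) (.done))))))))) (.alt (.leaf [(0, 4), (1, 2), (11, 2), (13, 1), (15, 1), (17, 5),
    (19, 5), (21, 5), (23, 2), (24, 1), (44, 2), (45, 1), (49, 2)]) (.alt (.leaf [(0, 2), (17,
    1), (19, 1), (21, 1), (23, 1), (33, 1), (48, 1)]) (.alt (.leaf [(0, 2), (1, 1), (3, 1), (11,
    1), (13, 1), (15, 2), (17, 4), (19, 4), (21, 2), (23, 1), (41, 1), (42, 1), (44, 1), (51,
    1)]) (.alt (.leaf [(0, 2), (17, 1), (19, 1), (21, 1), (23, 1), (35, 1), (50, 1)]) (.alt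
    (.leaf [(0, 2), (17, 1), (19, 1), (21, 2), (27, 1)]) (.done))))))))) (.alt (.leaf [(0, 4),
    (1, 1), (10, 4), (12, 5), (14, 5), (16, 5), (18, 5), (20, 3), (39, 2), (44, 3), (53, 1)])
    (.alt (.leaf [(0, 1), (2, 1), (10, 1), (12, 1), (14, 2), (16, 1), (18, 1), (20, 1), (34, 1),
    (45, 1)]) (.alt (.leaf [(0, 2), (2, 2), (10, 2), (12, 1), (14, 3), (16, 3), (18, 3), (20,
    1), (26, 1), (41, 2), (46, 1)]) (.alt (.leaf [(3, 2), (6, 1), (17, 1), (19, 1), (21, 1),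
    (23, 1), (25, 1), (49, 1), (58, 1)]) (.done))))))))) (.alt (.leaf [(0, 1), (11, 1), (13, 1),
    (15, 1), (17, 1), (38, 1), (54, 1)]) (.alt (.leaf [(0, 2), (1, 4), (11, 2), (13, 6), (15,
    4), (17, 4), (19, 4), (33, 2), (42, 1), (43, 1), (44, 2)]) (.alt (.leaf [(0, 1), (1, 1),
    (13, 1), (15, 1), (17, 1), (25, 1), (40, 1)]) (.alt (.leaf [(4, 1), (6, 1), (18, 1), (20,
    1), (22, 1), (24, 1), (49, 1), (62, 1)]) (.done))))))))) (.alt (.leaf [(0, 2), (12, 2), (14,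
    2), (16, 2), (18, 2), (41, 1), (42, 1), (52, 2), (56, 2)]) (.done)))))

/-- Class (0, 1, 0). -/
def D6.T2 : Tree :=
  .split 4 [] (.alt (.leaf [(0, 1), (12, 1), (14, 1), (16, 1), (18, 1), (41, 1), (53, 1)]) (.alt
    (.leaf [(0, 1), (12, 1), (14, 1), (16, 1), (38, 1), (51, 1)]) (.alt (.split 3 [0, 1, -1, 0]
    (.alt (.leaf [(0, 1), (10, 2), (12, 2), (14, 1)]) (.alt (.leaf [(0, 1), (14, 1)]) (.alt
    (.split 2 [0, 1, 0, 0] (.alt (.leaf [(0, 1), (13, 1)]) (.alt (.leaf [(0, 1), (13, 1), (15,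
    2)]) (.alt (.split 5 [] (.alt (.leaf [(0, 2), (1, 2), (11, 2), (13, 1), (15, 1), (17, 3),
    (19, 3), (21, 3), (24, 1), (44, 2), (45, 1)]) (.alt (.split 6 [] (.alt (.leaf [(0, 1), (1,
    1), (18, 1), (20, 2), (22, 1), (42, 1), (45, 1)]) (.alt (.leaf [(0, 1), (2, 1), (3, 1), (12,
    1), (14, 2), (16, 2), (18, 2), (20, 3), (22, 1), (42, 2), (45, 1)]) (.alt (.leaf [(0, 2),
    (4, 2), (16, 2), (18, 2), (20, 4), (22, 4), (45, 1), (46, 1), (47, 2)]) (.alt (.leaf [(0,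
    1), (2, 1), (4, 1), (12, 1), (16, 1), (18, 1), (20, 2), (22, 1), (28, 1), (42, 1), (45, 1)])
    (.done)))))) (.alt (.leaf [(0, 2), (3, 2), (15, 2), (17, 4), (19, 4), (21, 2), (42, 2), (44,
    1), (45, 1)]) (.alt (.split 3 [1, 1, 0, -1] (.alt (.leaf [(0, 2), (13, 2), (15, 1), (17, 2),
    (23, 1)]) (.alt (.split 8 [1, 1, 0, -1] (.alt (.leaf [(0, 2), (14, 4), (16, 5), (18, 6),
    (24, 3)]) (.alt (.leaf [(0, 2), (14, 4), (16, 7), (18, 6), (24, 1)]) (.alt (.leaf [(0, 2),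
    (3, 1), (13, 1), (25, 1), (26, 1), (46, 1), (51, 1)]) (.alt (.leaf [(0, 2), (4, 1), (5, 2),
    (17, 2), (19, 1), (21, 1), (25, 1), (29, 1), (35, 1), (43, 1), (48, 1), (50, 1)]) (.alt
    (.leaf [(0, 2), (2, 1), (3, 2), (5, 1), (13, 2), (15, 2), (17, 3), (19, 4), (21, 4), (23,
    2), (25, 1), (43, 2), (46, 2), (48, 1), (53, 1)]) (.alt (.split 8 [1, 0, 0, 1] (.alt (.leaf
    [(0, 1), (2, 1), (15, 1), (17, 1), (19, 1)]) (.alt (.leaf [(0, 2), (15, 8), (17, 13), (19,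
    12), (25, 3)]) (.alt (.leaf [(0, 2), (4, 1), (14, 1), (26, 1), (27, 1), (47, 1), (51, 1)])
    (.alt (.leaf [(0, 2), (5, 1), (6, 2), (18, 2), (20, 1), (22, 1), (26, 1), (30, 1), (36, 1),
    (44, 1), (49, 1), (52, 1)]) (.alt (.leaf [(0, 2), (3, 1), (4, 2), (6, 1), (14, 2), (16, 2),
    (18, 3), (20, 4), (22, 4), (24, 2), (26, 1), (44, 2), (47, 2), (49, 1), (53, 1)]) (.alt
    (.split 4 [1, 1, 0, -1] (.alt (.leaf [(0, 2), (16, 2), (18, 3), (20, 2), (26, 1)]) (.alt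
    (.split 8 [1, 0, 1, 1] (.alt (.leaf [(0, 1), (1, 1), (19, 1)]) (.alt (.leaf [(0, 2), (17,
    10), (19, 15), (21, 14), (27, 3)]) (.alt (.leaf [(0, 2), (6, 1), (16, 1), (18, 1), (20, 1),
    (22, 1), (24, 1), (26, 1), (28, 1), (49, 2), (53, 1)]) (.alt (.leaf [(0, 2), (6, 1), (8, 2),
    (16, 1), (20, 2), (22, 2), (24, 2), (28, 1), (32, 1), (46, 2), (51, 1), (54, 1)]) (.alt
    (.leaf [(0, 1), (2, 1), (6, 1), (8, 1), (16, 1), (20, 1), (22, 1), (24, 1), (32, 1), (46,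
    1), (49, 1), (51, 1)]) (.alt (.leaf [(0, 2), (6, 2), (8, 3), (16, 2), (18, 1), (20, 4), (22,
    3), (24, 3), (26, 1), (28, 1), (32, 1), (40, 1), (46, 2), (49, 2), (56, 1)]) (.alt (.leaf
    [(5, 1), (8, 1), (11, 1), (13, 2), (21, 1), (25, 2), (27, 1), (29, 1), (37, 1), (45, 1),
    (51, 1), (54, 1)]) (.done))))))))) (.alt (.leaf [(0, 2), (5, 1), (15, 1), (19, 2), (21, 2),
    (23, 2), (25, 2), (27, 1), (28, 1), (48, 1), (53, 1)]) (.alt (.leaf [(0, 2), (1, 1), (2, 1),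
    (6, 2), (7, 1), (17, 1), (19, 4), (21, 3), (23, 3), (27, 1), (31, 1), (39, 1), (45, 3), (48,
    1), (52, 1)]) (.alt (.leaf [(0, 8), (4, 4), (5, 2), (15, 2), (19, 8), (21, 12), (23, 12),
    (25, 10), (27, 4), (30, 2), (45, 2), (48, 3), (49, 1), (50, 2), (55, 4)]) (.alt (.leaf [(0,
    1), (1, 1), (5, 1), (7, 1), (15, 1), (19, 2), (21, 1), (23, 1), (31, 1), (39, 1), (45, 1),
    (48, 1)]) (.alt (.leaf [(4, 2), (9, 1), (12, 1), (24, 1), (26, 2), (28, 2), (30, 2), (32,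
    1), (55, 1), (60, 1)]) (.done))))))))) (.alt (.leaf [(4, 2), (8, 1), (11, 1), (23, 1), (25,
    2), (27, 2), (29, 2), (31, 1), (54, 1), (58, 1)]) (.done))))))))) (.alt (.leaf [(4, 2), (7,
    1), (10, 1), (22, 1), (24, 2), (26, 2), (28, 2), (30, 1), (53, 1), (58, 1)]) (.done)))))))))
    (.alt (.leaf [(0, 2), (2, 1), (12, 1), (14, 2), (16, 2), (18, 2), (20, 2), (22, 2), (24, 1),
    (25, 1), (45, 1), (50, 1)]) (.alt (.leaf [(0, 4), (3, 1), (14, 5), (16, 5), (18, 2), (20,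
    2), (22, 2), (24, 2), (34, 3), (49, 2), (61, 1)]) (.alt (.leaf [(0, 4), (1, 2), (14, 3),
    (16, 3), (18, 5), (20, 5), (22, 5), (24, 2), (27, 1), (45, 1), (46, 1), (47, 1), (52, 2)])
    (.alt (.leaf [(0, 2), (4, 1), (14, 1), (16, 2), (18, 1), (20, 1), (22, 1), (24, 1), (28, 1),
    (36, 1), (51, 1)]) (.alt (.leaf [(4, 2), (6, 1), (9, 1), (21, 1), (23, 2), (25, 2), (27, 2),
    (29, 1), (52, 1), (57, 1)]) (.done))))))))) (.done)))))) (.alt (.leaf [(0, 4), (1, 1), (10,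
    4), (12, 5), (14, 5), (16, 5), (18, 5), (20, 3), (39, 2), (44, 3), (53, 1)]) (.alt (.leaf
    [(0, 1), (2, 1), (10, 1), (12, 1), (14, 2), (16, 1), (18, 1), (20, 1), (34, 1), (45, 1)])
    (.alt (.leaf [(0, 2), (2, 2), (10, 2), (12, 1), (14, 3), (16, 3), (18, 3), (20, 1), (26, 1),
    (41, 2), (46, 1)]) (.alt (.leaf [(3, 2), (6, 1), (7, 2), (19, 2), (21, 2), (23, 2), (25, 2),
    (31, 1), (49, 1), (50, 1), (58, 1)]) (.done))))))))) (.alt (.leaf [(0, 1), (11, 1), (13, 1),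
    (15, 1), (17, 1), (38, 1), (54, 1)]) (.alt (.leaf [(0, 2), (1, 4), (11, 2), (13, 6), (15,
    4), (17, 4), (19, 4), (33, 2), (42, 1), (43, 1), (44, 2)]) (.alt (.leaf [(0, 1), (1, 1),
    (13, 1), (15, 1), (17, 1), (25, 1), (40, 1)]) (.alt (.leaf [(4, 1), (6, 2), (18, 2), (20,
    1), (22, 1), (24, 1), (38, 1), (49, 1)]) (.done))))))))) (.alt (.leaf [(0, 1), (12, 1), (14,
    1), (16, 1), (18, 1), (44, 1), (54, 1)]) (.done)))))

/-- Class (0, 0, 1). -/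
def D6.T3 : Tree :=
  .split 4 [] (.alt (.leaf [(0, 1), (12, 1), (14, 1), (16, 1), (18, 1), (41, 1), (53, 1)]) (.alt
    (.leaf [(0, 1), (12, 1), (14, 1), (16, 1), (38, 1), (51, 1)]) (.alt (.split 3 [0, 1, -1, 0]
    (.alt (.leaf [(0, 1), (10, 2), (12, 2), (14, 1)]) (.alt (.leaf [(0, 1), (14, 1)]) (.alt
    (.split 2 [0, 1, 0, 0] (.alt (.leaf [(0, 1), (13, 1)]) (.alt (.leaf [(0, 1), (13, 1), (15,
    2)]) (.alt (.split 8 [0, 0, 0, 1] (.alt (.leaf [(0, 2), (12, 1), (14, 2), (16, 2), (22, 1)])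
    (.alt (.leaf [(0, 2), (12, 7), (14, 10), (16, 10), (22, 3)]) (.alt (.leaf [(0, 2), (2, 1),
    (13, 1), (15, 1), (17, 1), (19, 1), (23, 1), (41, 1), (44, 1), (48, 1)]) (.alt (.leaf [(0,
    4), (1, 2), (3, 2), (11, 2), (15, 2), (17, 2), (19, 2), (23, 2), (24, 1), (27, 1), (41, 2),
    (44, 1), (46, 1), (49, 2)]) (.alt (.split 8 [0, 0, 1, -1] (.alt (.leaf [(0, 2), (13, 5),
    (15, 8), (17, 8), (23, 3)]) (.alt (.leaf [(0, 2), (13, 3), (15, 4), (17, 4), (23, 1)]) (.alt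
    (.leaf [(0, 2), (3, 1), (14, 1), (16, 1), (18, 1), (20, 1), (24, 1), (42, 1), (45, 1), (50,
    1)]) (.alt (.leaf [(0, 4), (2, 2), (4, 2), (12, 2), (16, 2), (18, 2), (20, 2), (24, 2), (25,
    1), (28, 1), (42, 2), (45, 1), (47, 1), (49, 2)]) (.alt (.leaf [(0, 1), (1, 1), (2, 1), (4,
    1), (12, 1), (16, 1), (18, 1), (20, 1), (28, 1), (42, 1), (45, 1), (47, 1)]) (.alt (.leaf
    [(0, 2), (2, 2), (4, 1), (12, 2), (14, 2), (16, 3), (18, 3), (20, 3), (22, 1), (24, 1), (42,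
    2), (45, 2), (51, 1)]) (.alt (.leaf [(5, 2), (9, 1), (21, 1), (23, 1), (25, 1), (27, 1),
    (29, 1), (56, 1)]) (.done))))))))) (.alt (.leaf [(0, 2), (1, 2), (3, 1), (11, 2), (13, 2),
    (15, 3), (17, 3), (19, 3), (21, 1), (23, 1), (41, 2), (44, 2), (51, 1)]) (.alt (.leaf [(5,
    2), (8, 1), (20, 1), (22, 1), (24, 1), (26, 1), (28, 1), (56, 1)]) (.done))))))))) (.alt
    (.leaf [(0, 4), (1, 1), (10, 4), (12, 5), (14, 5), (16, 5), (18, 5), (20, 3), (39, 2), (44,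
    3), (53, 1)]) (.alt (.leaf [(0, 1), (2, 1), (10, 1), (12, 1), (14, 2), (16, 1), (18, 1),
    (20, 1), (34, 1), (45, 1)]) (.alt (.leaf [(0, 2), (2, 2), (10, 2), (12, 1), (14, 3), (16,
    3), (18, 3), (20, 1), (26, 1), (41, 2), (46, 1)]) (.alt (.leaf [(3, 2), (6, 1), (7, 2), (19,
    2), (21, 2), (23, 2), (25, 2), (31, 1), (49, 1), (50, 1), (58, 1)]) (.done))))))))) (.alt
    (.leaf [(0, 1), (11, 1), (13, 1), (15, 1), (17, 1), (38, 1), (54, 1)]) (.alt (.leaf [(0, 2),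
    (1, 4), (11, 2), (13, 6), (15, 4), (17, 4), (19, 4), (33, 2), (42, 1), (43, 1), (44, 2)])
    (.alt (.leaf [(0, 1), (1, 1), (13, 1), (15, 1), (17, 1), (25, 1), (40, 1)]) (.alt (.leaf
    [(4, 1), (6, 2), (18, 2), (20, 1), (22, 1), (24, 1), (38, 1), (49, 1)]) (.done)))))))))
    (.alt (.leaf [(0, 1), (12, 1), (14, 1), (16, 1), (18, 1), (44, 1), (54, 1)]) (.done)))))

/-- Class (1, 1, 0). -/
def D6.T4 : Tree :=
  .split 4 [] (.alt (.leaf [(0, 1), (12, 1), (14, 1), (16, 1), (18, 1), (41, 1), (53, 1)]) (.alt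
    (.leaf [(0, 1), (12, 1), (14, 1), (16, 1), (38, 1), (51, 1)]) (.alt (.split 3 [0, 1, -1, 0]
    (.alt (.leaf [(0, 1), (10, 2), (12, 2), (14, 1)]) (.alt (.leaf [(0, 1), (14, 1)]) (.alt
    (.split 2 [0, 1, 0, 0] (.alt (.leaf [(0, 1), (13, 1)]) (.alt (.leaf [(0, 1), (13, 1), (15,
    2)]) (.alt (.split 8 [0, 0, 0, 1] (.alt (.leaf [(0, 2), (12, 1), (14, 1), (16, 1), (22, 1)])
    (.alt (.leaf [(0, 2), (12, 7), (14, 11), (16, 11), (22, 3)]) (.alt (.split 5 [] (.alt (.leaf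
    [(0, 2), (2, 2), (12, 2), (14, 1), (16, 1), (18, 3), (20, 3), (22, 3), (25, 1), (45, 2),
    (46, 1)]) (.alt (.leaf [(0, 1), (1, 2), (18, 1), (20, 1), (24, 1), (42, 1), (45, 1), (49,
    1)]) (.alt (.leaf [(0, 1), (2, 1), (4, 1), (12, 1), (14, 1), (16, 2), (18, 3), (20, 3), (22,
    1), (42, 1), (43, 1), (45, 1)]) (.alt (.split 4 [1, 1, 0, -1] (.alt (.leaf [(0, 2), (14, 3),
    (16, 5), (18, 3), (24, 1)]) (.alt (.split 5 [1, 1, 0, -1] (.alt (.leaf [(0, 2), (15, 3),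
    (17, 5), (19, 5), (25, 1)]) (.alt (.split 6 [1, 1, 0, -1] (.alt (.leaf [(0, 2), (16, 5),
    (18, 7), (20, 5), (26, 1)]) (.alt (.split 7 [1, 1, 0, -1] (.alt (.leaf [(0, 2), (17, 5),
    (19, 7), (21, 7), (27, 1)]) (.alt (.split 8 [1, 0, 1, 1] (.alt (.leaf [(0, 1), (1, 1), (22,
    1)]) (.alt (.leaf [(0, 2), (18, 11), (20, 17), (22, 15), (28, 3)]) (.alt (.leaf [(0, 4), (7,
    4), (17, 4), (19, 3), (21, 3), (23, 3), (25, 3), (27, 3), (29, 2), (30, 1), (50, 5), (54,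
    2)]) (.alt (.leaf [(0, 1), (6, 1), (7, 1), (9, 2), (17, 1), (21, 2), (23, 2), (25, 2), (33,
    1), (47, 2), (50, 1), (52, 1)]) (.alt (.leaf [(0, 4), (5, 4), (7, 2), (17, 2), (19, 1), (21,
    1), (23, 5), (25, 5), (27, 3), (29, 2), (33, 1), (47, 2), (50, 2), (52, 3), (56, 2)]) (.alt
    (.leaf [(0, 2), (7, 1), (9, 3), (17, 1), (21, 3), (23, 1), (25, 1), (29, 1), (33, 1), (41,
    2), (47, 1), (50, 1), (57, 1)]) (.alt (.leaf [(1, 2), (23, 7), (25, 11), (27, 9), (33, 1)])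
    (.done))))))))) (.alt (.leaf [(0, 2), (5, 2), (6, 2), (8, 2), (16, 2), (20, 2), (22, 2),
    (24, 2), (26, 2), (29, 1), (32, 1), (46, 2), (49, 3), (51, 1)]) (.alt (.leaf [(0, 2), (6,
    1), (7, 1), (16, 1), (18, 2), (20, 2), (22, 2), (24, 2), (26, 2), (28, 1), (46, 2), (49, 1),
    (53, 1)]) (.alt (.leaf [(0, 2), (6, 1), (8, 1), (16, 1), (18, 1), (20, 2), (22, 2), (24, 2),
    (26, 3), (28, 1), (46, 1), (49, 1), (51, 1), (56, 1)]) (.alt (.leaf [(0, 2), (6, 1), (8, 1),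
    (16, 1), (20, 1), (22, 1), (24, 1), (26, 2), (28, 1), (32, 1), (46, 1), (49, 1), (55, 1)])
    (.alt (.leaf [(0, 1), (6, 1), (22, 2), (24, 3), (26, 2)]) (.done))))))))) (.alt (.leaf [(0,
    2), (4, 2), (5, 2), (15, 2), (17, 1), (19, 1), (21, 1), (23, 3), (25, 1), (28, 1), (45, 2),
    (48, 3)]) (.alt (.leaf [(0, 4), (5, 2), (15, 2), (17, 1), (19, 1), (21, 1), (23, 5), (25,
    3), (27, 2), (29, 1), (45, 2), (48, 1), (52, 2)]) (.alt (.leaf [(0, 2), (5, 1), (7, 1), (15,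
    1), (17, 1), (19, 2), (21, 2), (23, 4), (25, 3), (27, 1), (45, 1), (48, 1), (50, 1), (55,
    1)]) (.alt (.leaf [(0, 2), (5, 1), (7, 1), (15, 1), (19, 1), (21, 1), (23, 3), (25, 2), (27,
    1), (31, 1), (45, 1), (48, 1), (54, 1)]) (.alt (.leaf [(0, 1), (6, 1), (21, 1), (23, 2),
    (25, 2)]) (.done))))))))) (.alt (.leaf [(0, 2), (3, 2), (4, 2), (14, 2), (16, 1), (18, 1),
    (20, 3), (22, 3), (24, 1), (27, 1), (44, 2), (47, 3)]) (.alt (.leaf [(0, 4), (4, 2), (14,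
    2), (16, 1), (18, 1), (20, 5), (22, 5), (24, 3), (26, 2), (28, 1), (44, 2), (47, 1), (51,
    2)]) (.alt (.leaf [(0, 2), (4, 1), (6, 1), (14, 1), (16, 1), (18, 2), (20, 4), (22, 4), (24,
    3), (26, 1), (44, 1), (47, 1), (49, 1), (54, 1)]) (.alt (.leaf [(0, 2), (4, 1), (6, 1), (14,
    1), (18, 1), (20, 3), (22, 3), (24, 2), (26, 1), (30, 1), (44, 1), (47, 1), (53, 1)]) (.alt
    (.leaf [(0, 1), (6, 1), (20, 1), (22, 2), (24, 1)]) (.done))))))))) (.alt (.leaf [(0, 3),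
    (2, 1), (3, 1), (13, 1), (17, 3), (19, 3), (21, 3), (23, 2), (25, 1), (26, 1), (43, 1), (46,
    2), (51, 1)]) (.alt (.leaf [(0, 4), (3, 2), (13, 2), (15, 1), (17, 5), (19, 5), (21, 5),
    (23, 3), (25, 2), (27, 1), (43, 2), (46, 1), (50, 2)]) (.alt (.leaf [(0, 6), (3, 1), (5, 1),
    (13, 1), (17, 7), (19, 7), (21, 7), (23, 6), (25, 3), (28, 1), (43, 1), (46, 1), (48, 2),
    (53, 3)]) (.alt (.leaf [(0, 2), (3, 1), (5, 1), (13, 1), (17, 3), (19, 3), (21, 3), (23, 2),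
    (25, 1), (29, 1), (43, 1), (46, 1), (52, 1)]) (.alt (.leaf [(0, 2), (19, 1), (21, 1), (23,
    1), (29, 1)]) (.done))))))))) (.done)))))) (.alt (.leaf [(0, 2), (1, 1), (2, 1), (11, 1),
    (13, 2), (15, 2), (17, 2), (19, 2), (23, 1), (41, 2), (44, 1), (49, 1)]) (.alt (.leaf [(0,
    2), (1, 1), (3, 1), (11, 1), (13, 1), (15, 2), (17, 2), (19, 2), (21, 1), (23, 1), (41, 1),
    (44, 1), (46, 1), (50, 1)]) (.alt (.leaf [(0, 2), (1, 1), (3, 1), (11, 1), (15, 1), (17, 1),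
    (19, 1), (23, 1), (27, 1), (41, 1), (44, 1), (51, 1)]) (.alt (.leaf [(1, 2), (17, 3), (19,
    5), (21, 5), (27, 1)]) (.done))))))))) (.alt (.leaf [(0, 4), (1, 1), (10, 4), (12, 5), (14,
    5), (16, 5), (18, 5), (20, 3), (39, 2), (44, 3), (53, 1)]) (.alt (.leaf [(0, 1), (10, 1),
    (12, 1), (14, 1), (16, 1), (18, 1), (20, 1), (45, 1), (58, 1)]) (.alt (.leaf [(0, 2), (2,
    2), (10, 2), (12, 1), (14, 3), (16, 3), (18, 3), (20, 1), (26, 1), (41, 2), (46, 1)]) (.alt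
    (.leaf [(3, 2), (6, 1), (17, 1), (19, 1), (21, 1), (23, 1), (25, 1), (49, 1), (58, 1)])
    (.done))))))))) (.alt (.leaf [(0, 1), (11, 1), (13, 1), (15, 1), (17, 1), (38, 1), (54, 1)])
    (.alt (.leaf [(0, 2), (1, 4), (11, 2), (13, 6), (15, 4), (17, 4), (19, 4), (33, 2), (42, 1),
    (43, 1), (44, 2)]) (.alt (.leaf [(0, 1), (1, 1), (13, 1), (15, 1), (17, 1), (25, 1), (40,
    1)]) (.alt (.leaf [(4, 1), (6, 2), (18, 2), (20, 1), (22, 1), (24, 1), (38, 1), (49, 1)])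
    (.done))))))))) (.alt (.leaf [(0, 1), (12, 1), (14, 1), (16, 1), (18, 1), (44, 1), (54, 1)])
    (.done)))))

/-- Class (1, 0, 1). -/
def D6.T5 : Tree :=
  .split 4 [] (.alt (.leaf [(0, 1), (12, 1), (14, 1), (16, 1), (18, 1), (41, 1), (53, 1)]) (.alt
    (.leaf [(0, 1), (12, 1), (14, 1), (16, 1), (38, 1), (51, 1)]) (.alt (.split 3 [0, 1, -1, 0]
    (.alt (.leaf [(0, 1), (10, 2), (12, 2), (14, 1)]) (.alt (.leaf [(0, 1), (14, 1)]) (.alt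
    (.split 2 [0, 1, 0, 0] (.alt (.leaf [(0, 1), (13, 1)]) (.alt (.leaf [(0, 1), (13, 1), (15,
    2)]) (.alt (.split 2 [1, 0, 1, -1] (.alt (.leaf [(0, 2), (14, 2), (16, 3), (22, 1)]) (.alt
    (.split 3 [1, 0, 1, -1] (.alt (.leaf [(0, 2), (13, 2), (15, 2), (17, 3), (23, 1)]) (.alt
    (.split 4 [1, 0, 1, -1] (.alt (.leaf [(0, 2), (14, 2), (16, 4), (18, 3), (24, 1)]) (.alt
    (.split 5 [1, 0, 1, -1] (.alt (.leaf [(0, 2), (15, 2), (17, 4), (19, 5), (25, 1)]) (.alt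
    (.split 6 [1, 0, 1, -1] (.alt (.leaf [(0, 2), (16, 4), (18, 6), (20, 5), (26, 1)]) (.alt
    (.split 7 [1, 0, 1, -1] (.alt (.leaf [(0, 2), (17, 4), (19, 6), (21, 7), (27, 1)]) (.alt
    (.split 8 [0, 0, 0, 1] (.alt (.leaf [(0, 1), (1, 1), (18, 2), (20, 3), (22, 3)]) (.alt
    (.leaf [(0, 2), (18, 8), (20, 12), (22, 11), (28, 3)]) (.alt (.leaf [(0, 2), (7, 2), (17,
    2), (19, 2), (21, 2), (23, 2), (25, 2), (27, 1), (29, 1), (47, 1), (50, 2), (54, 1)]) (.alt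
    (.split 8 [1, 0, 1, -1] (.alt (.leaf [(0, 2), (19, 4), (21, 6), (23, 7), (29, 3)]) (.alt
    (.leaf [(0, 2), (19, 4), (21, 6), (23, 5), (29, 1)]) (.alt (.leaf [(0, 2), (8, 2), (18, 2),
    (20, 2), (22, 2), (24, 2), (26, 2), (28, 1), (30, 1), (48, 1), (51, 2), (56, 1)]) (.alt
    (.leaf [(0, 1), (1, 1), (8, 1), (10, 2), (18, 1), (22, 2), (24, 2), (26, 2), (34, 1), (48,
    2), (51, 1), (53, 1)]) (.alt (.split 5 [] (.alt (.leaf [(0, 2), (9, 2), (19, 2), (21, 1),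
    (23, 1), (25, 3), (27, 3), (29, 3), (32, 1), (52, 2), (53, 1)]) (.alt (.split 6 [] (.alt
    (.leaf [(0, 1), (1, 1), (26, 1), (28, 2), (30, 1), (50, 1), (53, 1)]) (.alt (.leaf [(0, 1),
    (10, 1), (11, 1), (20, 1), (22, 2), (24, 2), (26, 2), (28, 3), (30, 1), (50, 2), (53, 1)])
    (.alt (.leaf [(0, 2), (12, 2), (24, 2), (26, 2), (28, 4), (30, 4), (53, 1), (54, 1), (55,
    2)]) (.alt (.leaf [(0, 1), (10, 1), (12, 1), (20, 1), (24, 1), (26, 1), (28, 2), (30, 1),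
    (36, 1), (50, 1), (53, 1)]) (.done)))))) (.alt (.leaf [(0, 2), (11, 2), (23, 2), (25, 4),
    (27, 4), (29, 2), (50, 2), (52, 1), (53, 1)]) (.alt (.leaf [(0, 2), (1, 4), (9, 2), (19, 2),
    (21, 1), (23, 1), (25, 3), (27, 3), (29, 1), (31, 2), (35, 1), (49, 2), (52, 2), (54, 1),
    (59, 2)]) (.done)))))) (.alt (.leaf [(0, 2), (8, 1), (10, 1), (18, 1), (20, 1), (22, 2),
    (24, 1), (26, 1), (30, 1), (42, 1), (48, 1), (51, 1), (57, 1)]) (.alt (.leaf [(0, 1), (7,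
    1), (24, 2), (26, 3), (28, 3)]) (.done))))))))) (.alt (.split 5 [] (.alt (.leaf [(0, 2), (8,
    2), (18, 2), (20, 1), (22, 1), (24, 3), (26, 3), (28, 3), (31, 1), (51, 2), (52, 1)]) (.alt
    (.split 6 [] (.alt (.leaf [(0, 1), (1, 1), (25, 1), (27, 2), (29, 1), (49, 1), (52, 1)])
    (.alt (.leaf [(0, 1), (9, 1), (10, 1), (19, 1), (21, 2), (23, 2), (25, 2), (27, 3), (29, 1),
    (49, 2), (52, 1)]) (.alt (.leaf [(0, 2), (11, 2), (23, 2), (25, 2), (27, 4), (29, 4), (52,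
    1), (53, 1), (54, 2)]) (.alt (.leaf [(0, 1), (9, 1), (11, 1), (19, 1), (23, 1), (25, 1),
    (27, 2), (29, 1), (35, 1), (49, 1), (52, 1)]) (.done)))))) (.alt (.leaf [(0, 2), (10, 2),
    (22, 2), (24, 4), (26, 4), (28, 2), (49, 2), (51, 1), (52, 1)]) (.alt (.leaf [(0, 2), (1,
    4), (8, 2), (18, 2), (20, 1), (22, 1), (24, 3), (26, 3), (28, 1), (30, 2), (34, 1), (48, 2),
    (51, 2), (53, 1), (57, 2)]) (.done)))))) (.alt (.leaf [(0, 2), (7, 1), (9, 1), (17, 1), (19,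
    1), (21, 2), (23, 1), (25, 1), (29, 1), (41, 1), (47, 1), (50, 1), (57, 1)]) (.alt (.leaf
    [(1, 2), (23, 4), (25, 6), (27, 5), (33, 1)]) (.done))))))))) (.alt (.leaf [(0, 2), (6, 2),
    (16, 2), (18, 2), (20, 2), (22, 2), (24, 2), (26, 3), (28, 1), (46, 1), (49, 2), (54, 1)])
    (.alt (.leaf [(0, 2), (26, 1), (28, 1), (46, 1), (53, 1)]) (.alt (.leaf [(0, 2), (26, 1),
    (28, 1), (47, 1), (56, 1)]) (.alt (.leaf [(0, 2), (6, 1), (8, 1), (16, 1), (18, 1), (20, 2),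
    (22, 1), (24, 1), (26, 2), (28, 1), (40, 1), (46, 1), (49, 1), (55, 1)]) (.alt (.leaf [(0,
    1), (6, 1), (22, 2), (24, 3), (26, 2)]) (.done))))))))) (.alt (.leaf [(0, 4), (5, 2), (15,
    2), (17, 2), (19, 2), (21, 2), (23, 6), (25, 6), (27, 2), (48, 3), (49, 1), (53, 2)]) (.alt
    (.leaf [(0, 2), (23, 2), (25, 1), (27, 1), (45, 1), (52, 1)]) (.alt (.leaf [(0, 2), (23, 2),
    (25, 1), (27, 1), (46, 1), (55, 1)]) (.alt (.leaf [(0, 2), (5, 1), (7, 1), (15, 1), (17, 1),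
    (19, 2), (21, 1), (23, 3), (25, 2), (27, 1), (39, 1), (45, 1), (48, 1), (54, 1)]) (.alt
    (.leaf [(0, 1), (6, 1), (21, 1), (23, 2), (25, 2)]) (.done))))))))) (.alt (.leaf [(0, 4),
    (4, 2), (14, 2), (16, 2), (18, 2), (20, 6), (22, 6), (24, 6), (26, 2), (47, 3), (48, 1),
    (52, 2)]) (.alt (.leaf [(0, 2), (20, 2), (22, 2), (24, 1), (26, 1), (44, 1), (51, 1)]) (.alt
    (.leaf [(0, 2), (20, 2), (22, 2), (24, 1), (26, 1), (45, 1), (54, 1)]) (.alt (.leaf [(0, 2),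
    (4, 1), (6, 1), (14, 1), (16, 1), (18, 2), (20, 3), (22, 3), (24, 2), (26, 1), (38, 1), (44,
    1), (47, 1), (53, 1)]) (.alt (.leaf [(0, 1), (6, 1), (20, 1), (22, 2), (24, 1)])
    (.done))))))))) (.alt (.leaf [(0, 4), (3, 2), (13, 2), (15, 2), (17, 6), (19, 6), (21, 6),
    (23, 6), (25, 2), (46, 3), (47, 1), (51, 2)]) (.alt (.leaf [(0, 2), (17, 2), (19, 2), (21,
    2), (23, 1), (25, 1), (43, 1), (50, 1)]) (.alt (.leaf [(0, 2), (17, 2), (19, 2), (21, 2),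
    (23, 1), (25, 1), (44, 1), (53, 1)]) (.alt (.leaf [(0, 2), (3, 1), (5, 1), (13, 1), (15, 1),
    (17, 4), (19, 3), (21, 3), (23, 2), (25, 1), (37, 1), (43, 1), (46, 1), (52, 1)]) (.alt
    (.leaf [(0, 1), (6, 1), (19, 1), (21, 1), (23, 1)]) (.done))))))))) (.alt (.leaf [(0, 4),
    (2, 2), (12, 2), (14, 6), (16, 6), (18, 6), (20, 6), (22, 6), (24, 2), (45, 3), (46, 1),
    (50, 2)]) (.alt (.leaf [(0, 2), (14, 2), (16, 2), (18, 2), (20, 2), (22, 1), (24, 1), (42,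
    1), (49, 1)]) (.alt (.leaf [(0, 4), (14, 3), (16, 3), (18, 3), (20, 3), (22, 3), (24, 2),
    (28, 1), (47, 1), (52, 2), (56, 2)]) (.alt (.leaf [(0, 2), (2, 1), (4, 1), (12, 1), (14, 3),
    (16, 4), (18, 3), (20, 3), (22, 2), (24, 1), (36, 1), (42, 1), (45, 1), (51, 1)]) (.alt
    (.leaf [(0, 1), (6, 1), (20, 1), (22, 1)]) (.done))))))))) (.alt (.leaf [(0, 4), (1, 2),
    (11, 6), (13, 6), (15, 6), (17, 6), (19, 6), (21, 6), (23, 2), (44, 3), (45, 1), (49, 2)])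
    (.alt (.leaf [(0, 2), (11, 2), (13, 2), (15, 2), (17, 2), (19, 2), (21, 1), (23, 1), (41,
    1), (48, 1)]) (.alt (.leaf [(0, 4), (11, 4), (13, 3), (15, 3), (17, 3), (19, 3), (21, 3),
    (23, 2), (27, 1), (46, 1), (51, 2), (55, 2)]) (.alt (.leaf [(0, 4), (3, 2), (11, 4), (13,
    4), (15, 6), (17, 4), (19, 4), (21, 4), (23, 2), (35, 2), (44, 1), (45, 1), (50, 2)]) (.alt
    (.leaf [(0, 2), (21, 1), (27, 1)]) (.done))))))))) (.alt (.leaf [(0, 4), (1, 1), (10, 4),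
    (12, 5), (14, 5), (16, 5), (18, 5), (20, 3), (39, 2), (44, 3), (53, 1)]) (.alt (.leaf [(0,
    1), (2, 1), (10, 1), (12, 1), (14, 2), (16, 1), (18, 1), (20, 1), (34, 1), (45, 1)]) (.alt
    (.leaf [(0, 2), (10, 2), (12, 1), (14, 1), (16, 1), (18, 1), (20, 1), (26, 1), (46, 1), (54,
    2)]) (.alt (.leaf [(3, 2), (6, 1), (7, 2), (19, 2), (21, 2), (23, 2), (25, 2), (31, 1), (49,
    1), (50, 1), (58, 1)]) (.done))))))))) (.alt (.leaf [(0, 1), (11, 1), (13, 1), (15, 1), (17,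
    1), (38, 1), (54, 1)]) (.alt (.leaf [(0, 2), (1, 4), (11, 2), (13, 6), (15, 4), (17, 4),
    (19, 4), (33, 2), (42, 1), (43, 1), (44, 2)]) (.alt (.leaf [(0, 1), (1, 1), (13, 1), (15,
    1), (17, 1), (25, 1), (40, 1)]) (.alt (.leaf [(4, 1), (6, 2), (18, 2), (20, 1), (22, 1),
    (24, 1), (38, 1), (49, 1)]) (.done))))))))) (.alt (.leaf [(0, 2), (12, 2), (14, 2), (16, 2),
    (18, 2), (41, 1), (42, 1), (52, 2), (56, 2)]) (.done)))))

/-- Class (0, 1, 1). -/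
def D6.T6 : Tree :=
  .split 4 [] (.alt (.leaf [(0, 1), (12, 1), (14, 1), (16, 1), (18, 1), (41, 1), (53, 1)]) (.alt
    (.leaf [(0, 1), (12, 1), (14, 1), (16, 1), (38, 1), (51, 1)]) (.alt (.split 3 [0, 1, -1, 0]
    (.alt (.leaf [(0, 1), (10, 2), (12, 2), (14, 1)]) (.alt (.leaf [(0, 1), (14, 1)]) (.alt
    (.split 2 [0, 1, 0, 0] (.alt (.leaf [(0, 1), (13, 1)]) (.alt (.leaf [(0, 1), (13, 1), (15,
    2)]) (.alt (.split 3 [1, 1, 1, -1] (.alt (.leaf [(0, 2), (12, 1), (16, 1), (22, 1)]) (.alt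
    (.split 8 [1, 0, 0, 1] (.alt (.leaf [(0, 1), (1, 1), (13, 1), (15, 1), (17, 1)]) (.alt
    (.leaf [(0, 2), (13, 9), (15, 14), (17, 13), (23, 3)]) (.alt (.leaf [(0, 4), (2, 2), (12,
    2), (14, 1), (16, 1), (18, 1), (20, 1), (22, 1), (24, 2), (25, 1), (45, 3), (49, 2)]) (.alt
    (.leaf [(0, 2), (3, 1), (4, 2), (16, 2), (18, 2), (20, 2), (24, 1), (28, 1), (42, 2), (47,
    1), (50, 1)]) (.alt (.leaf [(0, 2), (4, 1), (16, 1), (18, 1), (20, 1), (24, 1), (43, 1),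
    (47, 1), (51, 1)]) (.alt (.leaf [(0, 2), (2, 1), (4, 2), (12, 1), (16, 2), (18, 1), (20, 1),
    (24, 1), (28, 1), (36, 1), (42, 1), (45, 1), (52, 1)]) (.alt (.leaf [(1, 2), (18, 5), (20,
    8), (22, 7), (28, 1)]) (.done))))))))) (.alt (.leaf [(0, 4), (1, 2), (11, 2), (13, 5), (15,
    5), (17, 5), (19, 5), (21, 5), (23, 2), (24, 1), (44, 3), (49, 2)]) (.alt (.leaf [(0, 2),
    (2, 1), (13, 3), (15, 3), (17, 3), (19, 3), (21, 1), (23, 1), (41, 2), (48, 1)]) (.alt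
    (.leaf [(0, 2), (3, 1), (13, 2), (15, 3), (17, 3), (19, 3), (21, 2), (23, 1), (42, 1), (46,
    1), (51, 1)]) (.alt (.leaf [(0, 4), (13, 3), (15, 3), (17, 3), (19, 3), (21, 3), (23, 2),
    (27, 1), (47, 1), (50, 2), (59, 2)]) (.done)))))))) (.alt (.leaf [(0, 4), (1, 1), (10, 4),
    (12, 5), (14, 5), (16, 5), (18, 5), (20, 3), (39, 2), (44, 3), (53, 1)]) (.alt (.leaf [(0,
    1), (2, 1), (10, 1), (12, 1), (14, 2), (16, 1), (18, 1), (20, 1), (34, 1), (45, 1)]) (.alt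
    (.leaf [(0, 2), (2, 2), (10, 2), (12, 1), (14, 3), (16, 3), (18, 3), (20, 1), (26, 1), (41,
    2), (46, 1)]) (.alt (.leaf [(3, 2), (6, 1), (7, 2), (19, 2), (21, 2), (23, 2), (25, 2), (31,
    1), (49, 1), (50, 1), (58, 1)]) (.done))))))))) (.alt (.leaf [(0, 1), (11, 1), (13, 1), (15,
    1), (17, 1), (38, 1), (54, 1)]) (.alt (.leaf [(0, 2), (1, 4), (11, 2), (13, 6), (15, 4),
    (17, 4), (19, 4), (33, 2), (42, 1), (43, 1), (44, 2)]) (.alt (.leaf [(0, 1), (1, 1), (13,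
    1), (15, 1), (17, 1), (25, 1), (40, 1)]) (.alt (.leaf [(4, 1), (6, 2), (18, 2), (20, 1),
    (22, 1), (24, 1), (38, 1), (49, 1)]) (.done))))))))) (.alt (.leaf [(0, 1), (12, 1), (14, 1),
    (16, 1), (18, 1), (44, 1), (54, 1)]) (.done)))))

/-- Class (1, 1, 1). -/
def D6.T7 : Tree :=
  .split 4 [] (.alt (.leaf [(0, 1), (12, 1), (14, 1), (16, 1), (18, 1), (41, 1), (53, 1)]) (.alt
    (.leaf [(0, 1), (12, 1), (14, 1), (16, 1), (38, 1), (51, 1)]) (.alt (.split 8 [0, 0, 0, 1]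
    (.alt (.leaf [(0, 2), (20, 1)]) (.alt (.leaf [(0, 2), (10, 8), (12, 12), (14, 12), (20, 3)])
    (.alt (.leaf [(0, 2), (21, 1), (42, 1), (46, 1)]) (.alt (.leaf [(0, 2), (3, 1), (21, 2),
    (47, 1), (58, 1)]) (.alt (.leaf [(0, 2), (21, 1), (44, 1), (48, 1)]) (.alt (.leaf [(0, 2),
    (1, 1), (3, 1), (13, 1), (15, 1), (21, 2), (37, 1), (49, 1)]) (.alt (.leaf [(1, 2), (15, 4),
    (17, 6), (19, 6), (25, 1)]) (.done))))))))) (.alt (.leaf [(0, 1), (12, 1), (14, 1), (16, 1),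
    (18, 1), (44, 1), (54, 1)]) (.done)))))

/-- The eight classes. -/
def D6.T : ℕ → Tree
  | 0 => D6.T0
  | 1 => D6.T1
  | 2 => D6.T2
  | 3 => D6.T3
  | 4 => D6.T4
  | 5 => D6.T5
  | 6 => D6.T6
  | 7 => D6.T7
  | _ => .done

theorem D6.chk : checkCls D6.D 9 [(2, 1, 1)] D6.T = true := by decide +kernel

/-- Type D: the point `z_7`, `M_7 < 2 M_6 + M_1`. -/
def D7.D : Data :=
  ⟨[none, none, none, some [1, 1, -1], some [0, 0, 1], some [1, 0, 0], some [1, 1, 0], some [1, 0,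
    1], some [1, 1, 1], some [2, 1, 1], none],
    sup, stdExt ++ [⟨true, [(2, 9), (1, 4), (-1, 10)], [], [], []⟩], []⟩

/-- Class (0, 0, 0). -/
def D7.T0 : Tree :=
  .split 9 [0, 0, 0, 1] (.alt (.leaf [(0, 2), (9, 3), (11, 5), (13, 4), (21, 1)]) (.alt (.leaf
    [(0, 8), (11, 6), (13, 3), (21, 21), (65, 9)]) (.alt (.leaf [(0, 2), (2, 1), (22, 2), (51,
    1)]) (.alt (.leaf [(0, 2), (2, 1), (22, 2), (52, 1)]) (.alt (.leaf [(0, 2), (2, 1), (22, 2),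
    (53, 1)]) (.alt (.leaf [(0, 2), (2, 1), (22, 2), (54, 1)]) (.alt (.leaf [(1, 2), (14, 3),
    (16, 5), (18, 4), (26, 1)]) (.done))))))))

/-- Class (1, 0, 0). -/
def D7.T1 : Tree :=
  .split 4 [] (.alt (.leaf [(0, 1), (12, 1), (14, 1), (16, 1), (18, 1), (43, 1), (59, 1)]) (.alt
    (.leaf [(0, 1), (12, 1), (14, 1), (16, 1), (40, 1), (57, 1)]) (.alt (.split 3 [0, 1, -1, 0]
    (.alt (.leaf [(0, 5), (10, 6), (12, 4), (22, 1), (66, 1)]) (.alt (.leaf [(0, 1), (14, 1)])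
    (.alt (.split 6 [] (.alt (.split 5 [] (.alt (.leaf [(0, 2), (2, 2), (17, 2), (19, 2), (21,
    2), (23, 2), (25, 2), (26, 2), (54, 1), (55, 1)]) (.alt (.leaf [(0, 1), (1, 1), (17, 1),
    (19, 2), (21, 1), (43, 1), (46, 1)]) (.alt (.leaf [(0, 2), (3, 2), (15, 2), (17, 4), (19,
    4), (21, 2), (23, 2), (25, 2), (44, 2), (54, 1), (55, 1)]) (.alt (.split 2 [0, 1, 0, 0]
    (.alt (.leaf [(0, 1), (15, 1)]) (.alt (.leaf [(0, 1), (15, 1), (17, 2)]) (.alt (.split 8 [1,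
    0, 0, -1] (.alt (.leaf [(0, 2), (16, 1), (18, 1), (26, 3), (70, 2)]) (.alt (.leaf [(0, 2),
    (16, 1), (70, 1)]) (.alt (.leaf [(0, 12), (1, 4), (13, 4), (15, 2), (17, 2), (19, 2), (21,
    2), (23, 2), (25, 14), (27, 12), (28, 2), (52, 2), (56, 3), (57, 9)]) (.alt (.leaf [(0, 2),
    (3, 1), (21, 1), (25, 1), (27, 1), (45, 1), (48, 1), (56, 1)]) (.alt (.leaf [(0, 2), (2, 1),
    (19, 1), (21, 1), (23, 1), (25, 3), (27, 3), (56, 1), (57, 1), (59, 1)]) (.alt (.split 9 []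
    (.alt (.leaf [(0, 2), (1, 4), (2, 2), (6, 2), (14, 2), (18, 2), (28, 2), (29, 1), (32, 1),
    (40, 2), (49, 3), (51, 1), (59, 2)]) (.alt (.leaf [(0, 2), (1, 2), (2, 1), (4, 2), (6, 2),
    (14, 1), (18, 2), (20, 2), (22, 4), (24, 1), (28, 1), (32, 1), (46, 3), (49, 1), (51, 2),
    (56, 1), (59, 1)]) (.alt (.leaf [(0, 2), (3, 2), (20, 2), (22, 2), (24, 2), (28, 2), (51,
    2), (57, 1), (58, 1)]) (.alt (.split 7 [1, 0, 1, -1] (.alt (.leaf [(0, 2), (16, 4), (18, 7),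
    (20, 7), (28, 1)]) (.alt (.split 8 [1, 0, 1, -1] (.alt (.leaf [(0, 4), (19, 4), (21, 3),
    (29, 5), (73, 3)]) (.alt (.leaf [(0, 2), (17, 2), (19, 3), (21, 2), (73, 1)]) (.alt (.leaf
    [(0, 4), (7, 2), (18, 2), (20, 2), (22, 2), (24, 2), (26, 2), (28, 4), (30, 4), (51, 2),
    (59, 1), (60, 3)]) (.alt (.split 4 [2, 1, 1, -1] (.alt (.leaf [(0, 1), (2, 1), (18, 2), (20,
    3), (22, 2)]) (.alt (.leaf [(0, 2), (20, 1), (74, 1)]) (.alt (.leaf [(0, 3), (1, 1), (5, 1),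
    (17, 1), (21, 3), (23, 3), (25, 3), (27, 3), (29, 1), (31, 1), (32, 1), (52, 3), (61, 1)])
    (.alt (.leaf [(0, 6), (3, 1), (5, 2), (9, 2), (17, 2), (21, 8), (23, 7), (25, 7), (27, 7),
    (29, 7), (31, 3), (32, 1), (35, 1), (43, 1), (57, 5), (60, 3)]) (.alt (.leaf [(0, 2), (6,
    1), (21, 2), (23, 3), (25, 3), (27, 3), (29, 1), (31, 1), (54, 2), (63, 1)]) (.alt (.leaf
    [(0, 2), (6, 1), (21, 2), (23, 3), (25, 3), (27, 3), (29, 3), (31, 1), (59, 2), (62, 1)])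
    (.alt (.leaf [(3, 2), (8, 1), (10, 1), (12, 1), (14, 2), (22, 1), (26, 2), (28, 1), (30, 2),
    (36, 1), (40, 1), (48, 1), (54, 2), (65, 1)]) (.done))))))))) (.alt (.leaf [(0, 1), (3, 1),
    (4, 1), (8, 1), (16, 1), (20, 1), (22, 1), (24, 1), (34, 1), (48, 1), (51, 1), (53, 1)])
    (.alt (.leaf [(0, 4), (8, 4), (20, 4), (22, 4), (24, 4), (26, 4), (28, 6), (30, 4), (53, 2),
    (58, 2), (59, 1), (60, 1), (61, 2)]) (.alt (.leaf [(5, 2), (13, 2), (25, 2), (27, 1), (29,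
    1), (31, 1), (33, 1), (35, 1), (47, 1), (66, 1)]) (.done))))))))) (.alt (.leaf [(0, 4), (6,
    2), (17, 2), (19, 2), (21, 2), (23, 2), (25, 6), (27, 4), (29, 4), (50, 2), (58, 1), (59,
    3)]) (.alt (.leaf [(0, 2), (1, 1), (3, 1), (7, 2), (15, 1), (19, 2), (21, 1), (29, 1), (33,
    1), (41, 1), (42, 1), (47, 2), (58, 1)]) (.alt (.leaf [(0, 1), (2, 1), (3, 1), (7, 1), (15,
    1), (19, 1), (21, 1), (23, 1), (25, 1), (33, 1), (47, 1), (50, 1), (52, 1)]) (.alt (.leaf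
    [(0, 4), (7, 4), (19, 4), (21, 4), (23, 4), (25, 8), (27, 6), (29, 4), (52, 2), (57, 2),
    (58, 1), (59, 1), (60, 2)]) (.alt (.leaf [(5, 2), (12, 2), (24, 2), (26, 1), (28, 1), (30,
    1), (32, 1), (34, 1), (46, 1), (65, 1)]) (.done))))))))) (.done)))))) (.alt (.leaf [(4, 2),
    (7, 1), (24, 1), (26, 1), (28, 1), (30, 1), (32, 1), (64, 1)]) (.done))))))))) (.alt (.leaf
    [(0, 4), (3, 4), (12, 4), (14, 6), (16, 6), (18, 6), (20, 6), (22, 6), (24, 6), (26, 6),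
    (27, 2), (55, 3), (56, 3), (67, 2)]) (.alt (.leaf [(0, 1), (4, 1), (12, 1), (14, 1), (16,
    2), (18, 1), (20, 1), (22, 1), (38, 1), (49, 1)]) (.alt (.leaf [(0, 1), (1, 1), (4, 1), (12,
    1), (16, 1), (18, 2), (20, 2), (22, 2), (24, 2), (26, 2), (30, 1), (55, 1), (56, 1)]) (.alt
    (.leaf [(3, 4), (8, 4), (19, 2), (21, 2), (23, 2), (25, 2), (27, 2), (29, 2), (31, 2), (32,
    2), (60, 1), (61, 1), (72, 2)]) (.done))))))))) (.done)))))) (.alt (.leaf [(0, 2), (1, 1),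
    (12, 1), (14, 1), (16, 1), (18, 3), (20, 3), (22, 3), (24, 2), (50, 1), (53, 1), (54, 1)])
    (.alt (.leaf [(0, 2), (2, 2), (14, 2), (16, 2), (18, 4), (20, 4), (22, 2), (24, 2), (47, 2),
    (53, 1), (54, 1)]) (.alt (.leaf [(0, 1), (1, 1), (2, 1), (14, 1), (16, 1), (18, 1), (28, 1),
    (37, 1), (42, 1)]) (.done)))))) (.alt (.leaf [(0, 2), (11, 2), (13, 2), (15, 2), (17, 2),
    (19, 2), (21, 2), (23, 2), (52, 1), (53, 1), (60, 2), (62, 2)]) (.alt (.leaf [(0, 1), (1,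
    2), (11, 1), (13, 3), (15, 3), (17, 3), (19, 3), (21, 1), (46, 2), (51, 1)]) (.alt (.leaf
    [(0, 1), (1, 1), (13, 1), (15, 1), (17, 1), (27, 1), (42, 1)]) (.alt (.leaf [(4, 1), (6, 2),
    (18, 2), (20, 1), (22, 1), (24, 1), (40, 1), (51, 1)]) (.done))))))))) (.alt (.leaf [(0, 2),
    (12, 2), (14, 2), (16, 2), (18, 2), (20, 2), (22, 2), (51, 1), (52, 1), (58, 2), (62, 2)])
    (.done)))))

/-- Class (0, 1, 0). -/
def D7.T2 : Tree :=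
  .split 4 [] (.alt (.leaf [(0, 1), (12, 1), (14, 1), (16, 1), (18, 1), (43, 1), (59, 1)]) (.alt
    (.leaf [(0, 1), (12, 1), (14, 1), (16, 1), (40, 1), (57, 1)]) (.alt (.split 3 [0, 1, -1, 0]
    (.alt (.leaf [(0, 1), (10, 2), (12, 2), (14, 1)]) (.alt (.leaf [(0, 1), (14, 1)]) (.alt
    (.split 2 [0, 1, 0, 0] (.alt (.leaf [(0, 1), (13, 1)]) (.alt (.leaf [(0, 1), (13, 1), (15,
    2)]) (.alt (.split 8 [1, 1, 0, -1] (.alt (.leaf [(0, 2), (12, 7), (14, 11), (16, 9), (24,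
    1)]) (.alt (.leaf [(0, 2), (12, 1), (14, 3), (16, 2), (68, 1)]) (.alt (.leaf [(0, 2), (1,
    1), (11, 1), (23, 1), (25, 1), (26, 1), (46, 1), (55, 1)]) (.alt (.leaf [(0, 2), (2, 1), (3,
    2), (15, 2), (17, 1), (19, 1), (23, 1), (25, 1), (29, 1), (35, 1), (43, 1), (48, 1), (54,
    1)]) (.alt (.leaf [(0, 4), (3, 4), (15, 4), (17, 4), (19, 4), (21, 2), (23, 4), (25, 4),
    (44, 2), (48, 2), (56, 1), (57, 3)]) (.alt (.split 6 [1, 1, 1, -1] (.alt (.leaf [(0, 2),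
    (13, 3), (15, 5), (17, 3), (25, 1)]) (.alt (.leaf [(0, 2), (13, 1), (15, 1), (69, 1)]) (.alt
    (.leaf [(0, 2), (2, 1), (12, 1), (14, 1), (16, 1), (18, 1), (20, 3), (22, 3), (24, 1), (26,
    1), (47, 2), (56, 1)]) (.alt (.leaf [(0, 2), (2, 1), (4, 2), (12, 1), (16, 2), (18, 2), (20,
    4), (22, 2), (24, 1), (26, 1), (30, 1), (44, 2), (49, 1), (55, 1)]) (.alt (.leaf [(0, 1),
    (1, 1), (2, 1), (4, 1), (12, 1), (16, 1), (18, 1), (20, 2), (22, 1), (30, 1), (44, 1), (47,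
    1), (49, 1)]) (.alt (.leaf [(0, 4), (4, 2), (16, 2), (18, 2), (20, 6), (22, 6), (24, 6),
    (26, 4), (54, 2), (57, 3), (58, 1)]) (.done)))))))) (.alt (.leaf [(0, 2), (17, 1), (19, 1),
    (21, 1), (29, 1)]) (.done))))))))) (.alt (.leaf [(0, 4), (1, 2), (10, 4), (12, 6), (14, 6),
    (16, 6), (18, 6), (20, 6), (22, 6), (24, 6), (55, 3), (56, 3), (59, 2), (65, 2)]) (.alt
    (.leaf [(0, 1), (2, 1), (10, 1), (12, 1), (14, 2), (16, 1), (18, 1), (20, 1), (36, 1), (47,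
    1)]) (.alt (.leaf [(0, 2), (2, 4), (10, 2), (14, 4), (16, 4), (18, 4), (20, 2), (22, 2),
    (24, 2), (28, 2), (43, 2), (55, 1), (56, 1)]) (.alt (.leaf [(3, 4), (6, 2), (17, 2), (19,
    2), (21, 2), (23, 2), (25, 2), (27, 2), (29, 2), (60, 1), (61, 1), (64, 2), (70, 2)])
    (.done))))))))) (.alt (.leaf [(0, 2), (11, 2), (13, 2), (15, 2), (17, 2), (19, 2), (21, 2),
    (23, 2), (54, 1), (55, 1), (60, 2), (62, 2)]) (.alt (.leaf [(0, 1), (1, 2), (11, 1), (13,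
    3), (15, 3), (17, 3), (19, 3), (21, 1), (46, 2), (51, 1)]) (.alt (.leaf [(0, 1), (1, 1),
    (13, 1), (15, 1), (17, 1), (27, 1), (42, 1)]) (.alt (.leaf [(4, 1), (6, 2), (18, 2), (20,
    1), (22, 1), (24, 1), (40, 1), (51, 1)]) (.done))))))))) (.alt (.leaf [(0, 2), (12, 2), (14,
    2), (16, 2), (18, 2), (20, 2), (22, 2), (53, 1), (54, 1), (60, 2), (64, 2)]) (.done)))))

/-- Class (0, 0, 1). -/
def D7.T3 : Tree :=
  .split 4 [] (.alt (.leaf [(0, 1), (12, 1), (14, 1), (16, 1), (18, 1), (43, 1), (59, 1)]) (.alt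
    (.leaf [(0, 1), (12, 1), (14, 1), (16, 1), (40, 1), (57, 1)]) (.alt (.split 3 [0, 1, -1, 0]
    (.alt (.leaf [(0, 1), (10, 2), (12, 2), (14, 1)]) (.alt (.leaf [(0, 1), (14, 1)]) (.alt
    (.split 2 [0, 1, 0, 0] (.alt (.leaf [(0, 1), (13, 1)]) (.alt (.leaf [(0, 1), (13, 1), (15,
    2)]) (.alt (.split 8 [0, 0, 1, -1] (.alt (.leaf [(0, 2), (14, 2), (16, 1), (24, 3), (68,
    2)]) (.alt (.leaf [(0, 2), (68, 1)]) (.alt (.leaf [(0, 4), (2, 1), (13, 1), (15, 1), (17,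
    1), (19, 1), (21, 1), (23, 3), (25, 2), (46, 2), (51, 1), (55, 2)]) (.alt (.leaf [(0, 2),
    (1, 1), (3, 2), (11, 1), (15, 2), (17, 2), (19, 1), (23, 1), (25, 1), (29, 1), (38, 1), (43,
    1), (48, 1), (54, 1)]) (.alt (.split 8 [0, 0, 0, 1] (.alt (.split 7 [1, 0, 1, -1] (.alt
    (.leaf [(0, 2), (18, 2), (26, 2), (70, 1)]) (.alt (.leaf [(0, 2), (70, 1)]) (.alt (.leaf
    [(0, 8), (3, 4), (4, 5), (5, 1), (13, 4), (15, 9), (17, 10), (19, 10), (23, 7), (25, 6),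
    (27, 4), (40, 10), (46, 1), (50, 1), (53, 1), (55, 1), (57, 4)]) (.alt (.split 9 [0, 0, 0,
    1] (.alt (.leaf [(0, 2), (15, 2), (17, 4), (19, 3), (27, 1)]) (.alt (.leaf [(0, 4), (17, 2),
    (19, 1), (27, 11), (71, 5)]) (.alt (.leaf [(0, 8), (3, 4), (5, 2), (16, 1), (18, 1), (20,
    1), (22, 1), (24, 1), (28, 6), (32, 1), (49, 4), (51, 1), (54, 2), (57, 4), (60, 2)]) (.alt
    (.leaf [(0, 4), (1, 6), (3, 4), (4, 2), (14, 2), (16, 1), (18, 1), (20, 1), (22, 1), (28,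
    3), (32, 1), (46, 7), (49, 3), (51, 1), (54, 1), (57, 1), (60, 2)]) (.alt (.split 2 [1, 0,
    -1, 0] (.alt (.leaf [(0, 1), (20, 1)]) (.alt (.leaf [(0, 1), (18, 2), (20, 1)]) (.alt (.leaf
    [(0, 2), (5, 2), (15, 4), (17, 2), (19, 2), (30, 2), (40, 1), (41, 1)]) (.alt (.leaf [(0,
    2), (1, 1), (4, 3), (6, 1), (7, 4), (15, 2), (19, 4), (21, 1), (23, 1), (25, 1), (29, 1),
    (33, 3), (39, 3), (50, 1), (52, 3), (61, 1)]) (.alt (.leaf [(0, 3), (1, 2), (4, 2), (6, 4),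
    (7, 1), (15, 3), (17, 7), (19, 8), (21, 8), (27, 2), (42, 8), (55, 4), (65, 3)]) (.alt
    (.split 6 [1, 1, 1, -1] (.alt (.leaf [(0, 10), (17, 8), (19, 12), (29, 8), (73, 3)]) (.alt
    (.leaf [(0, 2), (73, 1)]) (.alt (.leaf [(0, 1), (3, 1), (24, 1), (26, 1), (48, 1), (51, 1)])
    (.alt (.leaf [(0, 4), (6, 2), (16, 2), (18, 2), (20, 2), (22, 2), (24, 6), (26, 6), (28, 6),
    (30, 4), (56, 2), (59, 3), (60, 1)]) (.alt (.leaf [(0, 5), (1, 1), (2, 1), (16, 1), (18, 1),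
    (20, 1), (22, 1), (24, 6), (26, 6), (28, 1), (30, 2), (53, 5), (62, 2), (70, 1)]) (.alt
    (.leaf [(0, 2), (1, 1), (16, 1), (24, 2), (26, 2), (28, 2), (30, 1), (34, 1), (58, 1), (61,
    1)]) (.alt (.leaf [(3, 4), (5, 1), (7, 1), (10, 2), (11, 2), (21, 2), (23, 1), (25, 1), (27,
    1), (29, 1), (31, 1), (33, 3), (35, 2), (39, 1), (61, 2), (64, 2)]) (.done))))))))) (.alt
    (.leaf [(2, 2), (4, 3), (6, 1), (9, 1), (10, 4), (12, 5), (20, 4), (22, 4), (24, 9), (26,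
    9), (28, 3), (32, 1), (47, 6), (53, 3), (60, 2)]) (.done))))))))) (.alt (.leaf [(0, 2), (3,
    2), (4, 1), (14, 1), (16, 1), (18, 1), (20, 1), (26, 1), (28, 2), (41, 1), (49, 1), (54, 1),
    (60, 2)]) (.alt (.leaf [(5, 1), (8, 1), (31, 1), (33, 1), (65, 1)]) (.done))))))))) (.alt
    (.leaf [(0, 1), (2, 1), (25, 1), (27, 1), (46, 1), (59, 1)]) (.alt (.leaf [(0, 1), (2, 1),
    (3, 1), (13, 1), (15, 1), (17, 1), (39, 1), (45, 1), (48, 1)]) (.alt (.leaf [(0, 1), (6, 1),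
    (19, 1), (21, 2), (23, 2)]) (.done))))))))) (.alt (.leaf [(0, 4), (15, 2), (17, 1), (25, 7),
    (69, 5)]) (.alt (.leaf [(0, 6), (3, 2), (14, 2), (16, 2), (18, 1), (24, 4), (26, 3), (36,
    1), (39, 1), (47, 2), (52, 1), (55, 3)]) (.alt (.leaf [(0, 2), (2, 1), (4, 2), (12, 1), (16,
    2), (18, 2), (20, 1), (24, 1), (26, 1), (30, 1), (39, 1), (44, 1), (49, 1), (56, 1)]) (.alt
    (.leaf [(0, 1), (1, 1), (2, 1), (4, 1), (12, 1), (16, 1), (18, 1), (20, 1), (30, 1), (44,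
    1), (47, 1), (49, 1)]) (.alt (.leaf [(0, 2), (1, 2), (2, 1), (12, 1), (14, 1), (16, 1), (18,
    1), (24, 3), (26, 2), (39, 1), (47, 1), (52, 1), (58, 2)]) (.alt (.leaf [(5, 1), (6, 1),
    (29, 1), (31, 1), (63, 1)]) (.done))))))))) (.alt (.leaf [(0, 2), (2, 1), (3, 1), (13, 1),
    (15, 2), (17, 2), (23, 2), (25, 1), (38, 2), (51, 1), (56, 1)]) (.alt (.leaf [(5, 2), (8,
    1), (20, 1), (22, 1), (24, 1), (26, 1), (28, 1), (30, 1), (61, 1)]) (.done))))))))) (.alt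
    (.leaf [(0, 4), (1, 2), (2, 3), (10, 4), (12, 6), (14, 9), (16, 9), (18, 9), (20, 6), (22,
    3), (43, 3), (47, 3), (52, 3), (59, 2), (65, 2)]) (.alt (.leaf [(0, 1), (2, 1), (10, 1),
    (12, 1), (14, 2), (16, 1), (18, 1), (20, 1), (36, 1), (47, 1)]) (.alt (.leaf [(0, 2), (2,
    3), (10, 2), (12, 1), (14, 4), (16, 4), (18, 4), (20, 1), (22, 1), (28, 1), (43, 3), (52,
    1)]) (.alt (.leaf [(3, 2), (6, 1), (17, 1), (19, 1), (21, 1), (23, 1), (25, 1), (27, 1),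
    (55, 1), (64, 2)]) (.done))))))))) (.alt (.leaf [(0, 2), (1, 1), (11, 2), (13, 3), (15, 3),
    (17, 3), (19, 2), (21, 1), (42, 1), (46, 1), (51, 1), (60, 2), (62, 2)]) (.alt (.leaf [(0,
    1), (1, 2), (11, 1), (13, 3), (15, 3), (17, 3), (19, 3), (21, 1), (46, 2), (51, 1)]) (.alt
    (.leaf [(0, 1), (1, 1), (13, 1), (15, 1), (17, 1), (27, 1), (42, 1)]) (.alt (.leaf [(4, 1),
    (6, 2), (18, 2), (20, 1), (22, 1), (24, 1), (40, 1), (51, 1)]) (.done))))))))) (.alt (.leaf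
    [(0, 1), (12, 1), (14, 1), (16, 1), (18, 1), (20, 1), (50, 1), (58, 1), (60, 1)])
    (.done)))))

/-- Class (1, 1, 0). -/
def D7.T4 : Tree :=
  .split 4 [] (.alt (.leaf [(0, 1), (12, 1), (14, 1), (16, 1), (18, 1), (43, 1), (59, 1)]) (.alt
    (.leaf [(0, 1), (12, 1), (14, 1), (16, 1), (40, 1), (57, 1)]) (.alt (.split 3 [0, 1, -1, 0]
    (.alt (.leaf [(0, 5), (10, 6), (12, 4), (22, 1), (66, 1)]) (.alt (.leaf [(0, 1), (14, 1)])
    (.alt (.split 6 [] (.alt (.split 5 [] (.alt (.leaf [(0, 2), (2, 2), (17, 2), (19, 2), (21,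
    2), (23, 2), (25, 2), (26, 2), (54, 1), (55, 1)]) (.alt (.leaf [(0, 1), (1, 1), (17, 1),
    (19, 2), (21, 1), (43, 1), (46, 1)]) (.alt (.leaf [(0, 2), (3, 2), (15, 2), (17, 4), (19,
    4), (21, 2), (23, 2), (25, 2), (44, 2), (54, 1), (55, 1)]) (.alt (.split 2 [0, 1, 0, 0]
    (.alt (.leaf [(0, 1), (15, 1)]) (.alt (.leaf [(0, 1), (15, 1), (17, 2)]) (.alt (.split 8 [1,
    1, 0, -1] (.alt (.leaf [(0, 2), (16, 1), (26, 3), (70, 2)]) (.alt (.leaf [(0, 2), (16, 1),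
    (18, 1), (70, 1)]) (.alt (.split 9 [] (.alt (.leaf [(0, 1), (1, 2), (2, 1), (6, 2), (14, 1),
    (18, 2), (20, 2), (28, 1), (32, 1), (41, 2), (49, 1), (51, 1), (58, 1)]) (.alt (.leaf [(0,
    1), (1, 2), (2, 1), (6, 2), (14, 1), (18, 2), (20, 2), (22, 2), (28, 1), (32, 1), (46, 2),
    (49, 1), (51, 1), (58, 1)]) (.alt (.leaf [(0, 2), (3, 2), (20, 2), (22, 2), (24, 2), (28,
    2), (51, 2), (57, 1), (58, 1)]) (.alt (.split 7 [1, 1, 0, -1] (.alt (.leaf [(0, 2), (16, 6),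
    (18, 9), (20, 8), (28, 1)]) (.alt (.split 2 [2, 1, 1, -1] (.alt (.leaf [(0, 1), (1, 1), (19,
    1), (21, 2)]) (.alt (.split 3 [2, 1, 1, -1] (.alt (.leaf [(0, 1), (1, 1), (18, 1), (20, 2),
    (22, 2)]) (.alt (.split 4 [2, 1, 1, -1] (.alt (.leaf [(0, 1), (1, 1), (19, 2), (21, 3), (23,
    2)]) (.alt (.split 5 [2, 1, 1, -1] (.alt (.leaf [(0, 1), (1, 1), (20, 2), (22, 4), (24, 3)])
    (.alt (.leaf [(0, 2), (22, 1), (24, 1), (76, 1)]) (.alt (.leaf [(0, 4), (10, 1), (21, 1),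
    (23, 1), (25, 5), (27, 5), (29, 5), (31, 5), (33, 2), (58, 3), (63, 2)]) (.alt (.leaf [(0,
    3), (6, 1), (10, 1), (11, 2), (23, 2), (25, 5), (27, 5), (29, 1), (31, 1), (33, 1), (37, 1),
    (51, 4), (56, 1), (62, 1)]) (.alt (.leaf [(0, 4), (5, 3), (7, 1), (8, 1), (19, 1), (25, 5),
    (27, 5), (29, 4), (31, 3), (33, 6), (37, 1), (51, 1), (54, 1), (62, 2), (63, 2), (65, 2)])
    (.alt (.leaf [(0, 2), (11, 1), (23, 1), (25, 2), (27, 2), (29, 2), (31, 2), (33, 1), (45,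
    1), (61, 1), (64, 1)]) (.alt (.leaf [(2, 1), (10, 1), (11, 1), (12, 1), (16, 2), (24, 1),
    (28, 2), (30, 1), (38, 1), (42, 1), (50, 1), (51, 1), (59, 1), (68, 1)]) (.done)))))))))
    (.alt (.leaf [(0, 4), (9, 1), (20, 1), (22, 5), (24, 5), (26, 5), (28, 5), (30, 5), (32, 2),
    (57, 3), (62, 2)]) (.alt (.leaf [(0, 3), (5, 1), (22, 3), (24, 3), (26, 3), (28, 1), (30,
    2), (32, 1), (50, 2), (58, 1), (61, 1)]) (.alt (.leaf [(0, 2), (4, 1), (7, 1), (22, 1), (24,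
    2), (26, 2), (28, 2), (30, 2), (32, 3), (39, 1), (61, 1), (62, 1), (64, 1)]) (.alt (.leaf
    [(0, 2), (10, 1), (22, 3), (24, 2), (26, 2), (28, 2), (30, 2), (32, 1), (44, 1), (60, 1),
    (63, 1)]) (.alt (.leaf [(2, 1), (9, 1), (10, 1), (11, 1), (15, 2), (23, 1), (27, 2), (29,
    1), (37, 1), (41, 1), (49, 1), (50, 1), (58, 1), (67, 1)]) (.done))))))))) (.alt (.leaf [(0,
    4), (8, 1), (19, 5), (21, 5), (23, 5), (25, 5), (27, 5), (29, 5), (31, 2), (56, 3), (61,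
    2)]) (.alt (.leaf [(0, 3), (4, 1), (19, 3), (21, 3), (23, 3), (25, 3), (27, 1), (29, 2),
    (31, 1), (49, 2), (57, 1), (60, 1)]) (.alt (.leaf [(0, 4), (6, 4), (19, 3), (21, 3), (23,
    7), (25, 7), (27, 7), (29, 4), (31, 4), (35, 1), (54, 3), (60, 1), (61, 1), (63, 2)]) (.alt
    (.leaf [(0, 2), (9, 1), (19, 2), (21, 3), (23, 2), (25, 2), (27, 2), (29, 2), (31, 1), (43,
    1), (59, 1), (62, 1)]) (.alt (.leaf [(2, 1), (8, 1), (9, 1), (10, 1), (14, 2), (22, 1), (26,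
    2), (28, 1), (36, 1), (40, 1), (48, 1), (49, 1), (57, 1), (66, 1)]) (.done))))))))) (.alt
    (.leaf [(0, 4), (7, 1), (16, 4), (18, 5), (20, 5), (22, 5), (24, 5), (26, 5), (28, 5), (30,
    2), (55, 3), (60, 2)]) (.alt (.leaf [(0, 3), (3, 1), (16, 3), (18, 3), (20, 3), (22, 3),
    (24, 3), (26, 1), (28, 2), (30, 1), (48, 2), (56, 1), (59, 1)]) (.alt (.leaf [(0, 8), (2,
    6), (5, 2), (16, 8), (18, 6), (20, 6), (22, 8), (24, 8), (26, 8), (28, 8), (30, 14), (34,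
    2), (59, 5), (60, 5), (62, 4)]) (.alt (.leaf [(0, 2), (16, 2), (18, 2), (20, 2), (22, 2),
    (24, 2), (26, 2), (28, 2), (30, 1), (58, 1), (61, 1), (70, 1)]) (.alt (.leaf [(2, 1), (7,
    1), (8, 1), (9, 1), (13, 2), (21, 1), (25, 2), (27, 1), (35, 1), (39, 1), (47, 1), (48, 1),
    (56, 1), (65, 1)]) (.done))))))))) (.alt (.leaf [(0, 2), (1, 1), (3, 1), (7, 2), (15, 1),
    (19, 2), (21, 1), (25, 1), (29, 1), (33, 1), (41, 1), (42, 1), (47, 1), (50, 1), (59, 1)])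
    (.alt (.leaf [(0, 6), (3, 1), (15, 1), (25, 6), (27, 6), (29, 5), (31, 1), (55, 1), (58, 4),
    (59, 1)]) (.alt (.leaf [(0, 4), (7, 2), (19, 2), (21, 2), (23, 2), (25, 6), (27, 4), (29,
    4), (52, 2), (58, 1), (59, 1), (61, 2)]) (.alt (.leaf [(0, 2), (1, 1), (3, 2), (7, 3), (15,
    2), (19, 3), (21, 2), (23, 2), (25, 2), (29, 1), (33, 2), (41, 1), (47, 2), (50, 2), (60,
    1)]) (.alt (.leaf [(3, 1), (7, 1), (8, 1), (12, 2), (20, 1), (24, 2), (26, 2), (28, 2), (30,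
    1), (38, 1), (52, 1), (55, 1), (57, 1)]) (.done))))))))) (.done)))))) (.alt (.leaf [(0, 4),
    (4, 1), (15, 1), (17, 1), (19, 1), (21, 1), (23, 1), (25, 5), (27, 4), (53, 1), (56, 3),
    (57, 1)]) (.alt (.leaf [(0, 4), (5, 2), (17, 2), (19, 2), (21, 2), (23, 2), (25, 4), (27,
    4), (50, 2), (56, 1), (57, 1), (59, 2)]) (.alt (.leaf [(0, 2), (1, 1), (5, 1), (13, 1), (17,
    1), (19, 1), (21, 1), (25, 1), (27, 1), (31, 1), (45, 1), (48, 1), (58, 1)]) (.alt (.leaf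
    [(3, 2), (8, 1), (26, 1), (28, 1), (30, 1), (32, 1), (61, 1)]) (.done))))))))) (.alt (.leaf
    [(0, 4), (3, 4), (12, 4), (14, 6), (16, 6), (18, 6), (20, 6), (22, 6), (24, 6), (26, 6),
    (27, 2), (55, 3), (56, 3), (67, 2)]) (.alt (.leaf [(0, 1), (4, 1), (12, 1), (14, 1), (16,
    2), (18, 1), (20, 1), (22, 1), (38, 1), (49, 1)]) (.alt (.leaf [(0, 1), (1, 1), (4, 1), (12,
    1), (16, 1), (18, 2), (20, 2), (22, 2), (24, 2), (26, 2), (30, 1), (55, 1), (56, 1)]) (.alt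
    (.leaf [(3, 4), (8, 4), (19, 2), (21, 2), (23, 2), (25, 2), (27, 2), (29, 2), (31, 2), (32,
    2), (60, 1), (61, 1), (72, 2)]) (.done))))))))) (.done)))))) (.alt (.leaf [(0, 2), (1, 1),
    (12, 1), (14, 1), (16, 1), (18, 3), (20, 3), (22, 3), (24, 2), (50, 1), (53, 1), (54, 1)])
    (.alt (.leaf [(0, 2), (2, 2), (14, 2), (16, 2), (18, 4), (20, 4), (22, 2), (24, 2), (47, 2),
    (53, 1), (54, 1)]) (.alt (.leaf [(0, 1), (1, 1), (2, 1), (14, 1), (16, 1), (18, 1), (28, 1),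
    (37, 1), (42, 1)]) (.done)))))) (.alt (.leaf [(0, 2), (11, 2), (13, 2), (15, 2), (17, 2),
    (19, 2), (21, 2), (23, 2), (52, 1), (53, 1), (60, 2), (62, 2)]) (.alt (.leaf [(0, 1), (1,
    2), (11, 1), (13, 3), (15, 3), (17, 3), (19, 3), (21, 1), (46, 2), (51, 1)]) (.alt (.leaf
    [(0, 1), (1, 1), (13, 1), (15, 1), (17, 1), (27, 1), (42, 1)]) (.alt (.leaf [(4, 1), (6, 2),
    (18, 2), (20, 1), (22, 1), (24, 1), (40, 1), (51, 1)]) (.done))))))))) (.alt (.leaf [(0, 2),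
    (12, 2), (14, 2), (16, 2), (18, 2), (20, 2), (22, 2), (51, 1), (52, 1), (58, 2), (62, 2)])
    (.done)))))

/-- Class (1, 0, 1). -/
def D7.T5 : Tree :=
  .split 4 [] (.alt (.leaf [(0, 1), (12, 1), (14, 1), (16, 1), (18, 1), (43, 1), (59, 1)]) (.alt
    (.leaf [(0, 1), (12, 1), (14, 1), (16, 1), (40, 1), (57, 1)]) (.alt (.split 3 [0, 1, -1, 0]
    (.alt (.leaf [(0, 5), (10, 6), (12, 4), (22, 1), (66, 1)]) (.alt (.leaf [(0, 1), (14, 1)])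
    (.alt (.split 6 [] (.alt (.split 5 [] (.alt (.leaf [(0, 2), (2, 2), (17, 2), (19, 2), (21,
    2), (23, 2), (25, 2), (26, 2), (54, 1), (55, 1)]) (.alt (.leaf [(0, 1), (1, 1), (17, 1),
    (19, 2), (21, 1), (43, 1), (46, 1)]) (.alt (.leaf [(0, 2), (3, 2), (15, 2), (17, 4), (19,
    4), (21, 2), (23, 2), (25, 2), (44, 2), (54, 1), (55, 1)]) (.alt (.split 2 [0, 1, 0, 0]
    (.alt (.leaf [(0, 1), (15, 1)]) (.alt (.leaf [(0, 1), (15, 1), (17, 2)]) (.alt (.split 6 [1,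
    0, 1, -1] (.alt (.leaf [(0, 10), (14, 1), (16, 4), (26, 11), (70, 6)]) (.alt (.split 7 [1,
    0, 1, -1] (.alt (.leaf [(0, 8), (17, 2), (19, 7), (27, 9), (71, 5)]) (.alt (.split 8 [1, 0,
    1, -1] (.alt (.leaf [(0, 8), (18, 6), (20, 5), (28, 11), (72, 7)]) (.alt (.leaf [(0, 2),
    (16, 1), (18, 2), (20, 1), (72, 1)]) (.alt (.leaf [(0, 4), (6, 1), (17, 1), (19, 1), (21,
    1), (23, 1), (25, 1), (27, 5), (29, 4), (54, 1), (58, 1), (59, 3)]) (.alt (.split 9 [] (.alt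
    (.leaf [(0, 2), (1, 4), (4, 2), (8, 2), (16, 2), (20, 2), (22, 2), (24, 2), (30, 2), (31,
    1), (34, 1), (48, 2), (51, 3), (53, 1), (59, 2)]) (.alt (.leaf [(0, 1), (1, 2), (4, 1), (6,
    1), (8, 2), (16, 1), (20, 2), (22, 2), (24, 3), (30, 1), (34, 1), (48, 3), (51, 1), (53, 1),
    (59, 1)]) (.alt (.leaf [(0, 1), (1, 2), (4, 1), (5, 1), (8, 2), (16, 1), (20, 2), (22, 3),
    (24, 3), (26, 1), (30, 1), (34, 1), (48, 2), (51, 1), (53, 2), (59, 1)]) (.alt (.split 9 [0,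
    0, 0, 1] (.alt (.leaf [(0, 1), (3, 1), (18, 2), (20, 3), (22, 3)]) (.alt (.leaf [(0, 8),
    (20, 6), (22, 1), (30, 23), (74, 11)]) (.alt (.leaf [(0, 4), (8, 1), (19, 1), (21, 1), (23,
    1), (25, 1), (27, 1), (29, 1), (31, 4), (56, 1), (60, 3), (61, 1)]) (.alt (.leaf [(0, 1),
    (2, 1), (6, 1), (23, 1), (25, 1), (49, 1), (54, 1), (59, 1)]) (.alt (.leaf [(0, 2), (2, 2),
    (5, 1), (6, 1), (9, 1), (17, 1), (21, 1), (23, 2), (25, 2), (31, 2), (35, 1), (49, 2), (52,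
    1), (54, 1), (60, 1), (62, 1)]) (.alt (.leaf [(0, 2), (2, 2), (5, 1), (9, 3), (17, 1), (21,
    3), (23, 2), (25, 2), (31, 2), (35, 1), (43, 1), (49, 2), (52, 1), (54, 1), (60, 1), (63,
    1)]) (.alt (.leaf [(2, 2), (6, 1), (10, 1), (14, 2), (22, 1), (26, 2), (28, 1), (30, 1),
    (32, 1), (36, 1), (40, 1), (48, 1), (57, 1), (65, 1)]) (.done))))))))) (.done)))))) (.alt
    (.leaf [(0, 2), (3, 1), (4, 1), (7, 1), (15, 1), (19, 1), (21, 2), (23, 2), (25, 1), (27,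
    1), (29, 1), (33, 1), (47, 1), (50, 1), (52, 1), (61, 1)]) (.alt (.leaf [(0, 2), (7, 1),
    (19, 1), (21, 1), (23, 1), (25, 1), (27, 2), (29, 1), (52, 1), (57, 1), (60, 1)]) (.alt
    (.leaf [(0, 1), (6, 1), (21, 2), (23, 3), (25, 3)]) (.done))))))))) (.alt (.leaf [(0, 4),
    (5, 1), (16, 1), (18, 1), (20, 1), (22, 1), (24, 5), (26, 5), (28, 4), (53, 1), (57, 1),
    (58, 3)]) (.alt (.leaf [(0, 2), (24, 1), (26, 1), (28, 1), (46, 1), (57, 1)]) (.alt (.leaf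
    [(0, 8), (2, 2), (3, 4), (14, 2), (20, 4), (22, 4), (24, 10), (26, 6), (28, 6), (32, 2),
    (46, 2), (49, 2), (51, 2), (57, 1), (58, 1), (60, 4)]) (.alt (.leaf [(0, 2), (6, 1), (18,
    1), (20, 1), (22, 1), (24, 3), (26, 2), (28, 1), (51, 1), (56, 1), (59, 1)]) (.alt (.leaf
    [(0, 1), (6, 1), (20, 2), (22, 3), (24, 2)]) (.done))))))))) (.alt (.leaf [(0, 12), (1, 2),
    (13, 2), (21, 12), (23, 12), (25, 12), (27, 8), (29, 2), (52, 4), (56, 1), (57, 7)]) (.alt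
    (.leaf [(0, 2), (21, 2), (23, 1), (25, 1), (27, 1), (45, 1), (56, 1)]) (.alt (.leaf [(0, 8),
    (1, 2), (2, 4), (13, 2), (19, 4), (21, 12), (23, 10), (25, 6), (27, 6), (31, 2), (45, 2),
    (48, 2), (50, 2), (56, 1), (57, 1), (59, 4)]) (.alt (.leaf [(0, 2), (5, 1), (17, 1), (19,
    1), (21, 3), (23, 3), (25, 2), (27, 1), (50, 1), (55, 1), (58, 1)]) (.alt (.leaf [(0, 2),
    (19, 1), (21, 2), (23, 2), (31, 1)]) (.done))))))))) (.alt (.leaf [(0, 4), (3, 4), (12, 4),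
    (14, 6), (16, 6), (18, 6), (20, 6), (22, 6), (24, 6), (26, 6), (27, 2), (55, 3), (56, 3),
    (67, 2)]) (.alt (.leaf [(0, 1), (4, 1), (12, 1), (14, 1), (16, 2), (18, 1), (20, 1), (22,
    1), (38, 1), (49, 1)]) (.alt (.leaf [(0, 1), (1, 1), (4, 1), (12, 1), (16, 1), (18, 2), (20,
    2), (22, 2), (24, 2), (26, 2), (30, 1), (55, 1), (56, 1)]) (.alt (.leaf [(3, 4), (8, 4),
    (19, 2), (21, 2), (23, 2), (25, 2), (27, 2), (29, 2), (31, 2), (32, 2), (60, 1), (61, 1),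
    (72, 2)]) (.done))))))))) (.done)))))) (.alt (.leaf [(0, 2), (1, 1), (12, 1), (14, 1), (16,
    1), (18, 3), (20, 3), (22, 3), (24, 2), (50, 1), (53, 1), (54, 1)]) (.alt (.leaf [(0, 2),
    (2, 2), (14, 2), (16, 2), (18, 4), (20, 4), (22, 2), (24, 2), (47, 2), (53, 1), (54, 1)])
    (.alt (.leaf [(0, 1), (1, 1), (2, 1), (14, 1), (16, 1), (18, 1), (28, 1), (37, 1), (42, 1)])
    (.done)))))) (.alt (.leaf [(0, 2), (11, 2), (13, 2), (15, 2), (17, 2), (19, 2), (21, 2),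
    (23, 2), (52, 1), (53, 1), (60, 2), (62, 2)]) (.alt (.leaf [(0, 1), (1, 2), (11, 1), (13,
    3), (15, 3), (17, 3), (19, 3), (21, 1), (46, 2), (51, 1)]) (.alt (.leaf [(0, 1), (1, 1),
    (13, 1), (15, 1), (17, 1), (27, 1), (42, 1)]) (.alt (.leaf [(4, 1), (6, 2), (18, 2), (20,
    1), (22, 1), (24, 1), (40, 1), (51, 1)]) (.done))))))))) (.alt (.leaf [(0, 2), (12, 2), (14,
    2), (16, 2), (18, 2), (20, 2), (22, 2), (51, 1), (52, 1), (58, 2), (62, 2)]) (.done)))))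

/-- Class (0, 1, 1). -/
def D7.T6 : Tree :=
  .split 9 [1, 0, 0, 1] (.alt (.leaf [(0, 2), (21, 1)]) (.alt (.leaf [(0, 2), (11, 2), (13, 1),
    (21, 6), (65, 3)]) (.alt (.leaf [(0, 2), (22, 1), (47, 1), (51, 1)]) (.alt (.leaf [(0, 2),
    (22, 1), (48, 1), (52, 1)]) (.alt (.leaf [(0, 2), (22, 1), (49, 1), (53, 1)]) (.alt (.leaf
    [(0, 2), (22, 1), (50, 1), (54, 1)]) (.alt (.leaf [(1, 2), (14, 6), (16, 10), (18, 8), (26,
    1)]) (.done))))))))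

/-- Class (1, 1, 1). -/
def D7.T7 : Tree :=
  .split 4 [] (.alt (.leaf [(0, 1), (12, 1), (14, 1), (16, 1), (18, 1), (43, 1), (59, 1)]) (.alt
    (.leaf [(0, 1), (12, 1), (14, 1), (16, 1), (40, 1), (57, 1)]) (.alt (.split 3 [0, 1, -1, 0]
    (.alt (.leaf [(0, 5), (10, 6), (12, 4), (22, 1), (66, 1)]) (.alt (.leaf [(0, 1), (14, 1)])
    (.alt (.split 2 [0, 1, 0, 0] (.alt (.leaf [(0, 1), (13, 1)]) (.alt (.leaf [(0, 1), (13, 1),
    (15, 2)]) (.alt (.split 5 [1, 1, 1, -1] (.alt (.leaf [(0, 2), (12, 3), (14, 6), (16, 5),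
    (24, 1)]) (.alt (.split 6 [1, 1, 1, -1] (.alt (.leaf [(0, 2), (13, 1), (15, 2), (25, 2),
    (69, 1)]) (.alt (.split 7 [1, 1, 1, -1] (.alt (.leaf [(0, 2), (14, 5), (16, 8), (18, 7),
    (26, 1)]) (.alt (.split 8 [1, 1, 1, -1] (.alt (.leaf [(0, 8), (17, 6), (19, 1), (27, 11),
    (71, 7)]) (.alt (.leaf [(0, 2), (15, 1), (17, 2), (19, 2), (71, 1)]) (.alt (.leaf [(0, 2),
    (26, 1), (28, 1), (49, 1), (58, 1)]) (.alt (.leaf [(0, 4), (4, 2), (6, 4), (14, 2), (18, 4),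
    (20, 4), (22, 4), (24, 2), (26, 4), (28, 4), (32, 2), (46, 2), (51, 2), (57, 3), (58, 1)])
    (.alt (.leaf [(0, 2), (26, 1), (28, 1), (51, 1), (60, 1)]) (.alt (.leaf [(0, 2), (4, 2), (6,
    4), (14, 2), (18, 4), (20, 4), (22, 4), (24, 2), (26, 1), (28, 1), (32, 2), (46, 2), (49,
    2), (51, 1), (59, 1)]) (.alt (.leaf [(0, 1), (6, 1), (20, 2), (22, 3), (24, 3)])
    (.done))))))))) (.alt (.leaf [(0, 2), (23, 2), (25, 1), (27, 1), (48, 1), (57, 1)]) (.alt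
    (.leaf [(0, 6), (3, 2), (5, 2), (13, 2), (17, 2), (19, 2), (21, 2), (23, 8), (25, 7), (27,
    5), (28, 1), (31, 1), (50, 1), (53, 2), (56, 4), (57, 1)]) (.alt (.leaf [(0, 2), (23, 2),
    (25, 1), (27, 1), (50, 1), (59, 1)]) (.alt (.leaf [(0, 2), (3, 2), (5, 4), (13, 2), (17, 4),
    (19, 4), (21, 4), (23, 4), (25, 1), (27, 1), (31, 2), (45, 2), (48, 2), (50, 1), (58, 1)])
    (.alt (.leaf [(0, 1), (6, 1), (19, 2), (21, 3), (23, 2)]) (.done))))))))) (.alt (.leaf [(0,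
    2), (20, 2), (22, 2), (24, 1), (26, 1), (47, 1), (56, 1)]) (.alt (.leaf [(0, 6), (2, 2), (4,
    2), (12, 2), (16, 2), (18, 2), (20, 8), (22, 8), (24, 7), (26, 5), (27, 1), (30, 1), (49,
    1), (52, 2), (55, 4), (56, 1)]) (.alt (.leaf [(0, 2), (20, 2), (22, 2), (24, 1), (26, 1),
    (49, 1), (58, 1)]) (.alt (.leaf [(0, 4), (2, 2), (4, 4), (12, 2), (16, 4), (18, 4), (20, 8),
    (22, 6), (24, 4), (26, 4), (30, 2), (44, 2), (47, 2), (55, 1), (56, 1), (57, 2)]) (.alt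
    (.leaf [(0, 1), (6, 1), (18, 1), (20, 2), (22, 2)]) (.done))))))))) (.alt (.leaf [(0, 2),
    (17, 2), (19, 2), (21, 2), (23, 1), (25, 1), (46, 1), (55, 1)]) (.alt (.leaf [(0, 6), (1,
    2), (3, 2), (11, 2), (15, 2), (17, 8), (19, 8), (21, 8), (23, 7), (25, 5), (26, 1), (29, 1),
    (48, 1), (51, 2), (54, 4), (55, 1)]) (.alt (.leaf [(0, 2), (17, 2), (19, 2), (21, 2), (23,
    1), (25, 1), (48, 1), (57, 1)]) (.alt (.leaf [(0, 4), (1, 2), (3, 4), (11, 2), (15, 4), (17,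
    8), (19, 8), (21, 6), (23, 4), (25, 4), (29, 2), (43, 2), (46, 2), (54, 1), (55, 1), (56,
    2)]) (.alt (.leaf [(0, 2), (17, 1), (19, 2), (21, 1), (29, 1)]) (.done))))))))) (.alt (.leaf
    [(0, 4), (1, 2), (2, 12), (10, 4), (14, 12), (16, 12), (18, 12), (20, 12), (22, 6), (24, 6),
    (28, 6), (47, 6), (53, 3), (54, 3), (59, 2), (65, 2)]) (.alt (.leaf [(0, 1), (2, 1), (10,
    1), (12, 1), (14, 2), (16, 1), (18, 1), (20, 1), (36, 1), (47, 1)]) (.alt (.leaf [(0, 2),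
    (2, 3), (10, 2), (12, 1), (14, 4), (16, 4), (18, 4), (20, 1), (22, 1), (28, 1), (43, 3),
    (52, 1)]) (.alt (.leaf [(3, 4), (6, 2), (17, 2), (19, 2), (21, 2), (23, 2), (25, 2), (27,
    2), (29, 2), (58, 1), (59, 1), (64, 2), (70, 2)]) (.done))))))))) (.alt (.leaf [(0, 2), (11,
    2), (13, 2), (15, 2), (17, 2), (19, 2), (21, 2), (23, 2), (52, 1), (53, 1), (60, 2), (62,
    2)]) (.alt (.leaf [(0, 1), (1, 2), (11, 1), (13, 3), (15, 3), (17, 3), (19, 3), (21, 1),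
    (46, 2), (51, 1)]) (.alt (.leaf [(0, 1), (1, 1), (13, 1), (15, 1), (17, 1), (27, 1), (42,
    1)]) (.alt (.leaf [(4, 1), (6, 2), (18, 2), (20, 1), (22, 1), (24, 1), (40, 1), (51, 1)])
    (.done))))))))) (.alt (.leaf [(0, 2), (12, 2), (14, 2), (16, 2), (18, 2), (20, 2), (22, 2),
    (51, 1), (52, 1), (60, 2), (64, 2)]) (.done)))))

/-- The eight classes. -/
def D7.T : ℕ → Tree
  | 0 => D7.T0
  | 1 => D7.T1
  | 2 => D7.T2
  | 3 => D7.T3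
  | 4 => D7.T4
  | 5 => D7.T5
  | 6 => D7.T6
  | 7 => D7.T7
  | _ => .done

theorem D7.chk : checkCls D7.D 10 [(2, 1, 2)] D7.T = true := by decide +kernel

/-- Type D, `z_7 = z_6 + z_1`: the point `z_8`, `M_8 < 2 M_7 + M_6`. -/
def D8.D : Data :=
  ⟨[none, none, none, some [1, 1, -1], some [0, 0, 1], some [1, 0, 0], some [1, 1, 0], some [1, 0,
    1], some [1, 1, 1], some [2, 1, 1], some [2, 1, 2], none],
    sup, stdExt ++ [⟨true, [(2, 10), (1, 9), (-1, 11)], [], [], []⟩], []⟩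

/-- Class (0, 0, 0). -/
def D8.T0 : Tree :=
  .split 4 [] (.alt (.leaf [(0, 2), (12, 2), (14, 1), (16, 1), (18, 1), (20, 1), (22, 1), (34, 1),
    (53, 1), (65, 1)]) (.alt (.leaf [(0, 2), (12, 2), (14, 2), (16, 1), (18, 1), (20, 1), (22,
    1), (37, 1), (54, 1), (63, 1)]) (.alt (.split 10 [0, 0, 0, 1] (.alt (.leaf [(0, 2), (10, 4),
    (12, 6), (14, 5), (24, 1)]) (.alt (.leaf [(0, 22), (10, 6), (14, 3), (24, 51), (72, 18)])
    (.alt (.leaf [(0, 2), (1, 1), (13, 1), (15, 1), (17, 1), (19, 1), (21, 1), (25, 1), (53, 1),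
    (56, 1), (58, 1)]) (.alt (.leaf [(0, 2), (1, 1), (13, 1), (15, 1), (17, 1), (19, 1), (21,
    1), (25, 1), (53, 1), (56, 1), (59, 1)]) (.alt (.leaf [(0, 2), (1, 1), (13, 1), (15, 1),
    (17, 1), (19, 1), (21, 1), (25, 1), (53, 1), (56, 1), (60, 1)]) (.alt (.leaf [(0, 2), (1,
    1), (13, 1), (15, 1), (17, 1), (19, 1), (21, 1), (25, 1), (53, 1), (56, 1), (61, 1)]) (.alt
    (.leaf [(1, 2), (15, 4), (17, 6), (19, 5), (29, 1)]) (.done))))))))) (.alt (.leaf [(0, 4),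
    (12, 4), (14, 4), (16, 4), (18, 4), (20, 4), (22, 4), (24, 2), (56, 2), (57, 1), (58, 1),
    (64, 2), (66, 2)]) (.done)))))

/-- Class (1, 0, 0). -/
def D8.T1 : Tree :=
  .split 4 [] (.alt (.leaf [(0, 2), (12, 2), (14, 1), (16, 1), (18, 1), (20, 1), (22, 1), (34, 1),
    (53, 1), (65, 1)]) (.alt (.leaf [(0, 2), (12, 2), (14, 2), (16, 1), (18, 1), (20, 1), (22,
    1), (37, 1), (54, 1), (63, 1)]) (.alt (.split 7 [] (.alt (.leaf [(0, 4), (19, 4), (21, 4),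
    (23, 4), (25, 2), (54, 2), (58, 1), (59, 1), (64, 2), (66, 2)]) (.alt (.split 8 [] (.alt
    (.split 3 [0, 1, -1, 0] (.alt (.leaf [(0, 1), (12, 2), (14, 2), (16, 1)]) (.alt (.leaf [(0,
    1), (16, 1)]) (.alt (.split 6 [] (.alt (.split 9 [] (.alt (.leaf [(0, 1), (2, 1), (5, 3),
    (17, 3), (19, 2), (27, 1), (33, 1), (41, 1), (42, 2), (60, 1)]) (.alt (.leaf [(0, 1), (2,
    1), (5, 3), (17, 3), (19, 2), (21, 2), (27, 1), (33, 1), (41, 1), (47, 2), (60, 1)]) (.alt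
    (.leaf [(0, 2), (5, 2), (17, 2), (19, 2), (21, 2), (23, 2), (25, 2), (27, 4), (29, 2), (60,
    2), (62, 1), (63, 1)]) (.alt (.split 2 [0, 1, 0, 0] (.alt (.leaf [(0, 1), (17, 1)]) (.alt
    (.leaf [(0, 1), (17, 1), (19, 2)]) (.alt (.split 7 [1, 0, 1, -1] (.alt (.leaf [(0, 2), (16,
    5), (18, 8), (20, 8), (30, 1)]) (.alt (.split 4 [2, 1, 1, -1] (.alt (.leaf [(0, 1), (1, 1),
    (17, 2), (19, 3), (21, 2)]) (.alt (.split 5 [2, 1, 1, -1] (.alt (.leaf [(0, 1), (1, 1), (18,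
    2), (20, 4), (22, 3)]) (.alt (.split 6 [2, 1, 1, -1] (.alt (.leaf [(0, 1), (1, 1), (19, 3),
    (21, 5), (23, 4)]) (.alt (.split 7 [2, 1, 1, -1] (.alt (.leaf [(0, 1), (1, 1), (20, 4), (22,
    6), (24, 5)]) (.alt (.split 8 [2, 1, 1, -1] (.alt (.leaf [(0, 1), (1, 1), (21, 5), (23, 8),
    (25, 7)]) (.alt (.leaf [(0, 2), (23, 1), (25, 1), (83, 1)]) (.alt (.leaf [(0, 2), (6, 1),
    (7, 1), (12, 2), (20, 1), (24, 2), (26, 1), (34, 1), (36, 1), (40, 1), (48, 1), (49, 1),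
    (57, 2), (70, 1)]) (.alt (.leaf [(0, 4), (8, 2), (28, 2), (30, 2), (32, 6), (34, 6), (36,
    4), (66, 2), (69, 3), (70, 1)]) (.alt (.leaf [(0, 2), (12, 2), (24, 2), (26, 1), (28, 1),
    (30, 1), (32, 3), (34, 3), (36, 1), (48, 1), (67, 2), (72, 1)]) (.alt (.leaf [(0, 2), (6,
    2), (12, 4), (20, 2), (24, 4), (26, 3), (28, 3), (30, 1), (32, 1), (34, 1), (36, 1), (40,
    2), (48, 1), (54, 2), (57, 2), (71, 1)]) (.alt (.leaf [(3, 2), (11, 1), (12, 1), (13, 1),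
    (17, 2), (25, 1), (29, 2), (31, 1), (33, 2), (39, 1), (41, 1), (45, 1), (53, 1), (59, 2),
    (74, 1)]) (.done))))))))) (.alt (.leaf [(0, 2), (5, 1), (6, 1), (11, 2), (19, 1), (23, 2),
    (25, 1), (29, 2), (33, 1), (35, 1), (39, 1), (47, 1), (48, 1), (56, 2), (69, 1)]) (.alt
    (.leaf [(0, 4), (7, 2), (27, 2), (29, 6), (31, 6), (33, 6), (35, 4), (65, 2), (68, 3), (69,
    1)]) (.alt (.leaf [(0, 2), (11, 2), (23, 2), (25, 1), (27, 1), (29, 3), (31, 3), (33, 3),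
    (35, 1), (47, 1), (66, 2), (71, 1)]) (.alt (.leaf [(0, 2), (11, 1), (23, 1), (25, 1), (29,
    2), (31, 2), (33, 1), (35, 1), (51, 1), (63, 1), (70, 1)]) (.alt (.leaf [(3, 2), (10, 1),
    (11, 1), (12, 1), (16, 2), (24, 1), (28, 2), (30, 1), (32, 2), (38, 1), (40, 1), (44, 1),
    (52, 1), (58, 2), (73, 1)]) (.done))))))))) (.alt (.leaf [(0, 2), (4, 1), (5, 1), (10, 2),
    (18, 1), (22, 2), (24, 1), (26, 2), (28, 2), (32, 1), (34, 1), (38, 1), (46, 1), (47, 1),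
    (55, 2), (68, 1)]) (.alt (.leaf [(0, 8), (4, 2), (8, 1), (10, 3), (18, 2), (22, 3), (26, 8),
    (28, 8), (30, 9), (32, 9), (34, 4), (36, 1), (38, 1), (44, 2), (46, 1), (64, 4), (65, 1),
    (67, 4)]) (.alt (.leaf [(0, 2), (10, 2), (22, 2), (24, 1), (26, 3), (28, 3), (30, 3), (32,
    3), (34, 1), (46, 1), (65, 2), (70, 1)]) (.alt (.leaf [(0, 2), (10, 1), (22, 1), (24, 1),
    (26, 2), (28, 2), (30, 2), (32, 1), (34, 1), (50, 1), (62, 1), (69, 1)]) (.alt (.leaf [(3,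
    2), (9, 1), (10, 1), (11, 1), (15, 2), (23, 1), (27, 2), (29, 1), (31, 2), (37, 1), (39, 1),
    (43, 1), (51, 1), (57, 2), (72, 1)]) (.done))))))))) (.alt (.leaf [(0, 2), (3, 1), (4, 1),
    (9, 2), (17, 1), (21, 2), (23, 3), (25, 2), (27, 2), (31, 1), (33, 1), (37, 1), (45, 1),
    (46, 1), (54, 2), (67, 1)]) (.alt (.leaf [(0, 14), (3, 2), (5, 2), (17, 2), (23, 13), (25,
    15), (27, 15), (29, 15), (31, 15), (33, 7), (35, 2), (43, 1), (63, 8), (66, 7)]) (.alt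
    (.leaf [(0, 2), (9, 2), (21, 2), (23, 3), (25, 3), (27, 3), (29, 3), (31, 3), (33, 1), (45,
    1), (64, 2), (69, 1)]) (.alt (.leaf [(0, 2), (9, 1), (21, 1), (23, 3), (25, 2), (27, 2),
    (29, 2), (31, 1), (33, 1), (49, 1), (61, 1), (68, 1)]) (.alt (.leaf [(3, 2), (8, 1), (9, 1),
    (10, 1), (14, 2), (22, 1), (26, 2), (28, 1), (30, 2), (36, 1), (38, 1), (42, 1), (50, 1),
    (56, 2), (71, 1)]) (.done))))))))) (.alt (.leaf [(0, 2), (7, 1), (20, 2), (22, 2), (24, 1),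
    (26, 2), (28, 1), (30, 1), (32, 1), (45, 1), (53, 1), (66, 1)]) (.alt (.leaf [(0, 14), (2,
    2), (4, 2), (16, 2), (20, 14), (22, 13), (24, 15), (26, 15), (28, 15), (30, 15), (32, 7),
    (34, 2), (42, 1), (62, 8), (65, 7)]) (.alt (.leaf [(0, 4), (3, 2), (20, 4), (22, 4), (24,
    4), (26, 4), (28, 4), (30, 6), (32, 4), (63, 2), (65, 1), (66, 1), (68, 2), (76, 2)]) (.alt
    (.leaf [(0, 2), (2, 1), (8, 2), (16, 1), (20, 4), (22, 4), (24, 4), (26, 3), (28, 2), (30,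
    1), (32, 1), (36, 1), (50, 1), (53, 1), (60, 1), (67, 1)]) (.alt (.leaf [(3, 2), (7, 1), (8,
    1), (9, 1), (13, 2), (21, 1), (25, 2), (27, 1), (29, 2), (35, 1), (37, 1), (41, 1), (49, 1),
    (55, 2), (70, 1)]) (.done))))))))) (.alt (.leaf [(0, 6), (4, 2), (17, 2), (19, 2), (21, 1),
    (23, 1), (25, 7), (27, 7), (29, 7), (31, 5), (41, 1), (60, 2), (64, 1), (65, 4)]) (.alt
    (.leaf [(0, 2), (1, 1), (2, 1), (7, 2), (15, 1), (19, 2), (21, 1), (29, 1), (31, 1), (35,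
    1), (43, 1), (44, 1), (49, 2), (64, 1)]) (.alt (.leaf [(0, 2), (1, 1), (2, 1), (15, 1), (25,
    1), (29, 1), (31, 1), (35, 1), (49, 1), (52, 1), (67, 1)]) (.alt (.leaf [(0, 2), (7, 2),
    (19, 2), (21, 1), (23, 1), (25, 3), (27, 3), (29, 3), (31, 3), (43, 1), (64, 1), (65, 1),
    (66, 1)]) (.alt (.leaf [(5, 2), (12, 2), (24, 2), (26, 1), (28, 1), (30, 1), (32, 1), (34,
    1), (36, 1), (48, 1), (71, 1)]) (.done))))))))) (.alt (.leaf [(0, 3), (3, 4), (14, 3), (16,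
    5), (18, 5), (20, 5), (22, 5), (24, 5), (26, 5), (28, 5), (30, 4), (31, 2), (60, 1), (63,
    2), (64, 2)]) (.alt (.leaf [(0, 1), (6, 2), (14, 1), (16, 1), (18, 3), (20, 1), (22, 1),
    (24, 1), (26, 1), (28, 1), (42, 2), (61, 1)]) (.alt (.leaf [(0, 2), (6, 6), (14, 2), (18,
    6), (20, 6), (22, 4), (24, 4), (26, 4), (28, 4), (30, 2), (34, 2), (46, 2), (61, 2), (63,
    1), (64, 1)]) (.alt (.leaf [(3, 6), (8, 8), (21, 4), (23, 4), (25, 4), (27, 4), (29, 4),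
    (31, 4), (33, 4), (35, 2), (36, 4), (65, 2), (68, 1), (69, 1)]) (.done))))))))) (.done))))))
    (.alt (.leaf [(0, 6), (1, 4), (14, 4), (16, 4), (18, 2), (20, 8), (22, 8), (24, 8), (26, 8),
    (28, 6), (38, 2), (58, 2), (61, 3), (62, 3)]) (.alt (.leaf [(0, 2), (4, 4), (16, 4), (18,
    2), (20, 4), (22, 4), (24, 4), (26, 4), (28, 2), (40, 2), (59, 2), (61, 1), (62, 1)]) (.alt
    (.leaf [(0, 1), (1, 1), (4, 1), (16, 1), (18, 1), (20, 1), (32, 1), (41, 1), (46, 1)])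
    (.done)))))) (.alt (.leaf [(0, 4), (13, 4), (15, 4), (17, 4), (19, 4), (21, 4), (23, 4),
    (25, 4), (27, 2), (56, 2), (60, 1), (61, 1), (66, 2), (68, 6)]) (.alt (.leaf [(0, 2), (3,
    6), (13, 2), (15, 8), (17, 4), (19, 4), (21, 4), (23, 4), (25, 4), (27, 2), (39, 4), (58,
    2), (60, 1), (61, 1)]) (.alt (.leaf [(0, 1), (3, 2), (15, 2), (17, 2), (19, 1), (21, 1),
    (23, 1), (25, 1), (31, 1), (43, 1), (58, 1)]) (.alt (.leaf [(3, 1), (6, 1), (7, 2), (8, 2),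
    (20, 2), (22, 1), (24, 1), (26, 3), (28, 4), (30, 2), (42, 1), (60, 2), (63, 2)])
    (.done))))))))) (.alt (.leaf [(0, 2), (1, 2), (20, 2), (22, 4), (24, 4), (26, 2), (56, 2),
    (59, 1), (60, 1)]) (.alt (.leaf [(0, 1), (2, 1), (14, 1), (22, 1), (24, 1), (38, 1), (57,
    1)]) (.alt (.leaf [(0, 2), (2, 2), (14, 2), (16, 2), (22, 2), (24, 2), (26, 2), (42, 2),
    (59, 1), (60, 1)]) (.done)))))) (.alt (.leaf [(0, 1), (1, 1), (13, 1), (15, 1), (19, 1),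
    (21, 1), (23, 1), (41, 1), (56, 1)]) (.alt (.leaf [(0, 1), (1, 1), (13, 1), (15, 1), (17,
    1), (19, 2), (21, 1), (48, 1), (53, 1)]) (.done)))))) (.alt (.leaf [(0, 4), (12, 4), (14,
    4), (16, 4), (18, 4), (20, 4), (22, 4), (24, 2), (56, 2), (57, 1), (58, 1), (64, 2), (66,
    2)]) (.done)))))

/-- Class (0, 1, 0). -/
def D8.T2 : Tree :=
  .split 4 [] (.alt (.leaf [(0, 2), (12, 2), (14, 1), (16, 1), (18, 1), (20, 1), (22, 1), (34, 1),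
    (53, 1), (65, 1)]) (.alt (.leaf [(0, 2), (12, 2), (14, 2), (16, 1), (18, 1), (20, 1), (22,
    1), (37, 1), (54, 1), (63, 1)]) (.alt (.split 7 [] (.alt (.leaf [(0, 2), (1, 1), (13, 1),
    (15, 1), (17, 1), (19, 3), (21, 3), (23, 2), (53, 1), (54, 1), (56, 1), (64, 1), (66, 1)])
    (.alt (.split 3 [0, 1, -1, 0] (.alt (.leaf [(0, 1), (11, 2), (13, 2), (15, 1)]) (.alt (.leaf
    [(0, 1), (15, 1)]) (.alt (.split 9 [] (.alt (.leaf [(0, 1), (1, 1), (3, 3), (15, 3), (17,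
    2), (25, 1), (31, 1), (39, 1), (40, 2), (58, 1)]) (.alt (.leaf [(0, 1), (1, 1), (3, 3), (15,
    3), (17, 2), (19, 2), (25, 1), (31, 1), (39, 1), (45, 2), (58, 1)]) (.alt (.leaf [(0, 6),
    (1, 1), (3, 9), (15, 9), (17, 6), (19, 6), (21, 6), (23, 6), (25, 9), (31, 1), (37, 2), (39,
    1), (52, 3), (57, 2), (58, 7)]) (.alt (.split 2 [0, 1, 0, 0] (.alt (.leaf [(0, 1), (15, 1)])
    (.alt (.leaf [(0, 1), (15, 1), (17, 2)]) (.alt (.split 10 [1, 0, 1, 1] (.alt (.leaf [(0, 2),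
    (28, 1)]) (.alt (.leaf [(0, 22), (14, 8), (18, 4), (28, 57), (76, 24)]) (.alt (.leaf [(0,
    2), (1, 1), (5, 3), (13, 1), (17, 3), (19, 2), (21, 2), (23, 2), (29, 1), (33, 1), (41, 1),
    (50, 2), (60, 1), (62, 1)]) (.alt (.leaf [(0, 2), (1, 1), (5, 3), (13, 1), (17, 3), (19, 2),
    (21, 2), (29, 1), (33, 1), (41, 1), (47, 2), (60, 1), (63, 1)]) (.alt (.leaf [(0, 2), (29,
    1), (60, 1), (64, 1)]) (.alt (.leaf [(0, 2), (5, 2), (17, 2), (19, 2), (21, 2), (23, 2),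
    (25, 2), (29, 1), (57, 2), (60, 1), (65, 1)]) (.alt (.leaf [(1, 2), (19, 8), (21, 12), (23,
    10), (33, 1)]) (.done))))))))) (.alt (.leaf [(0, 1), (2, 1), (4, 6), (12, 1), (16, 6), (18,
    4), (20, 4), (22, 4), (24, 4), (26, 3), (32, 2), (40, 2), (53, 1), (58, 1), (59, 2)]) (.alt
    (.leaf [(0, 1), (4, 5), (12, 1), (16, 5), (18, 2), (20, 2), (22, 2), (24, 2), (26, 2), (32,
    1), (40, 3), (59, 2)]) (.alt (.leaf [(0, 5), (2, 1), (4, 16), (12, 5), (16, 16), (18, 14),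
    (20, 10), (22, 10), (24, 10), (26, 7), (32, 6), (38, 2), (44, 4), (53, 3), (58, 2), (59,
    5)]) (.alt (.leaf [(3, 2), (5, 1), (6, 1), (7, 2), (9, 3), (21, 3), (23, 3), (25, 3), (27,
    3), (29, 3), (31, 2), (37, 2), (58, 2), (63, 2)]) (.done))))))))) (.done)))))) (.alt (.leaf
    [(0, 4), (12, 4), (14, 4), (16, 4), (18, 4), (20, 4), (22, 4), (24, 4), (55, 3), (56, 1),
    (65, 2), (67, 6)]) (.alt (.leaf [(0, 2), (2, 6), (12, 2), (14, 8), (16, 4), (18, 4), (20,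
    4), (22, 4), (24, 4), (26, 2), (38, 4), (57, 2), (59, 1), (60, 1)]) (.alt (.leaf [(0, 1),
    (2, 2), (14, 2), (16, 2), (18, 1), (20, 1), (22, 1), (24, 1), (30, 1), (42, 1), (57, 1)])
    (.alt (.leaf [(3, 2), (6, 4), (25, 4), (27, 4), (29, 2), (31, 2), (57, 2), (64, 1), (65,
    1)]) (.done))))))))) (.alt (.leaf [(0, 1), (1, 1), (13, 1), (15, 1), (19, 1), (21, 1), (23,
    1), (41, 1), (56, 1)]) (.alt (.leaf [(0, 1), (1, 2), (13, 2), (15, 1), (17, 1), (19, 2),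
    (21, 2), (23, 1), (37, 1), (53, 1), (56, 1)]) (.done)))))) (.alt (.leaf [(0, 3), (12, 3),
    (14, 3), (16, 3), (18, 3), (20, 3), (22, 2), (51, 1), (56, 2), (64, 1), (66, 1)])
    (.done)))))

/-- Class (0, 0, 1). -/
def D8.T3 : Tree :=
  .split 4 [] (.alt (.leaf [(0, 2), (12, 2), (14, 1), (16, 1), (18, 1), (20, 1), (22, 1), (34, 1),
    (53, 1), (65, 1)]) (.alt (.leaf [(0, 2), (12, 2), (14, 2), (16, 1), (18, 1), (20, 1), (22,
    1), (37, 1), (54, 1), (63, 1)]) (.alt (.split 7 [] (.alt (.leaf [(0, 4), (19, 4), (21, 4),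
    (23, 4), (25, 2), (54, 2), (58, 1), (59, 1), (64, 2), (66, 2)]) (.alt (.split 8 [] (.alt
    (.split 10 [0, 0, 0, 1] (.alt (.leaf [(0, 2), (12, 3), (14, 5), (16, 4), (26, 1)]) (.alt
    (.leaf [(0, 22), (12, 10), (16, 5), (26, 52), (74, 19)]) (.alt (.leaf [(0, 2), (2, 1), (3,
    1), (15, 1), (21, 1), (23, 1), (27, 1), (37, 1), (55, 1), (58, 1), (60, 1)]) (.alt (.leaf
    [(0, 2), (1, 1), (3, 1), (15, 1), (17, 1), (23, 1), (27, 1), (40, 1), (55, 1), (58, 1), (61,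
    1)]) (.alt (.split 8 [0, 0, 1, -1] (.alt (.leaf [(0, 2), (13, 9), (15, 15), (17, 12), (27,
    1)]) (.alt (.split 3 [0, 1, -1, 0] (.alt (.leaf [(0, 1), (14, 2), (16, 2), (18, 1)]) (.alt
    (.leaf [(0, 1), (18, 1)]) (.alt (.split 9 [] (.alt (.leaf [(0, 1), (1, 1), (6, 3), (18, 3),
    (20, 2), (28, 1), (34, 1), (42, 1), (43, 2), (61, 1)]) (.alt (.leaf [(0, 1), (1, 1), (6, 3),
    (18, 3), (20, 2), (22, 2), (28, 1), (34, 1), (42, 1), (48, 2), (61, 1)]) (.alt (.leaf [(0,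
    6), (1, 1), (6, 9), (18, 9), (20, 6), (22, 6), (24, 6), (26, 6), (28, 9), (34, 1), (40, 2),
    (42, 1), (55, 3), (60, 2), (61, 7)]) (.alt (.split 2 [0, 1, 0, 0] (.alt (.leaf [(0, 1), (18,
    1)]) (.alt (.leaf [(0, 1), (18, 1), (20, 2)]) (.alt (.split 2 [2, 1, 2, -1] (.alt (.leaf
    [(0, 1), (4, 1), (19, 1), (21, 1)]) (.alt (.split 3 [2, 1, 2, -1] (.alt (.leaf [(0, 1), (1,
    1), (18, 1), (20, 2), (22, 2)]) (.alt (.split 4 [2, 1, 2, -1] (.alt (.leaf [(0, 1), (1, 1),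
    (19, 2), (21, 3), (23, 2)]) (.alt (.split 5 [2, 1, 2, -1] (.alt (.leaf [(0, 1), (1, 1), (20,
    2), (22, 4), (24, 3)]) (.alt (.split 6 [2, 1, 2, -1] (.alt (.leaf [(0, 1), (1, 1), (21, 3),
    (23, 5), (25, 4)]) (.alt (.split 7 [2, 1, 2, -1] (.alt (.leaf [(0, 1), (1, 1), (22, 4), (24,
    6), (26, 5)]) (.alt (.leaf [(0, 2), (26, 1), (84, 1)]) (.alt (.leaf [(0, 2), (6, 2), (7, 1),
    (13, 5), (21, 2), (25, 5), (27, 3), (29, 2), (31, 4), (33, 1), (35, 2), (37, 1), (41, 2),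
    (49, 2), (50, 1), (58, 3), (68, 1), (71, 1)]) (.alt (.leaf [(0, 4), (6, 1), (11, 2), (13,
    3), (21, 1), (25, 3), (31, 2), (33, 4), (35, 4), (37, 2), (41, 1), (47, 2), (49, 1), (55,
    2), (67, 1), (68, 1), (70, 2)]) (.alt (.leaf [(0, 2), (13, 1), (25, 1), (27, 1), (29, 1),
    (31, 3), (33, 3), (35, 3), (37, 1), (68, 2), (73, 1)]) (.alt (.leaf [(0, 2), (13, 1), (25,
    1), (27, 1), (29, 1), (31, 3), (33, 3), (35, 1), (37, 1), (65, 2), (72, 1)]) (.done))))))))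
    (.alt (.leaf [(0, 2), (5, 2), (6, 1), (12, 5), (20, 2), (24, 5), (26, 3), (28, 4), (30, 4),
    (32, 1), (34, 2), (36, 1), (40, 2), (48, 2), (49, 1), (57, 3), (67, 1), (70, 1)]) (.alt
    (.leaf [(0, 4), (5, 1), (10, 2), (12, 3), (20, 1), (24, 3), (28, 4), (30, 2), (32, 4), (34,
    4), (36, 2), (40, 1), (46, 2), (48, 1), (54, 2), (66, 1), (67, 1), (69, 2)]) (.alt (.leaf
    [(0, 2), (12, 1), (24, 1), (26, 1), (28, 3), (30, 3), (32, 3), (34, 3), (36, 1), (67, 2),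
    (72, 1)]) (.alt (.leaf [(0, 2), (12, 1), (24, 1), (26, 1), (28, 3), (30, 3), (32, 3), (34,
    1), (36, 1), (64, 2), (71, 1)]) (.done)))))))) (.alt (.leaf [(0, 2), (10, 1), (25, 2), (27,
    2), (29, 3), (31, 2), (33, 1), (35, 1), (56, 1), (60, 1), (69, 1)]) (.alt (.leaf [(0, 2),
    (9, 1), (25, 1), (27, 1), (29, 1), (31, 2), (33, 2), (35, 1), (45, 1), (65, 1), (68, 1)])
    (.alt (.leaf [(0, 2), (11, 1), (23, 1), (25, 3), (27, 3), (29, 3), (31, 3), (33, 3), (35,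
    1), (66, 2), (71, 1)]) (.alt (.leaf [(0, 2), (11, 1), (23, 1), (25, 3), (27, 3), (29, 3),
    (31, 3), (33, 1), (35, 1), (63, 2), (70, 1)]) (.done)))))))) (.alt (.leaf [(0, 2), (9, 1),
    (22, 2), (24, 2), (26, 2), (28, 3), (30, 2), (32, 1), (34, 1), (55, 1), (59, 1), (68, 1)])
    (.alt (.leaf [(0, 2), (8, 1), (22, 2), (24, 1), (26, 1), (28, 1), (30, 2), (32, 2), (34, 1),
    (44, 1), (64, 1), (67, 1)]) (.alt (.leaf [(0, 2), (10, 1), (22, 3), (24, 3), (26, 3), (28,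
    3), (30, 3), (32, 3), (34, 1), (65, 2), (70, 1)]) (.alt (.leaf [(0, 2), (10, 1), (22, 3),
    (24, 3), (26, 3), (28, 3), (30, 3), (32, 1), (34, 1), (62, 2), (69, 1)]) (.done))))))))
    (.alt (.leaf [(0, 2), (8, 1), (9, 6), (21, 6), (23, 4), (25, 4), (27, 5), (29, 4), (31, 3),
    (33, 1), (37, 2), (45, 2), (54, 1), (58, 1), (64, 2), (67, 1)]) (.alt (.leaf [(0, 2), (7,
    1), (9, 6), (21, 6), (23, 3), (25, 3), (27, 3), (29, 4), (31, 4), (33, 1), (37, 2), (43, 1),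
    (45, 2), (63, 1), (64, 2), (66, 1)]) (.alt (.leaf [(0, 2), (9, 7), (21, 7), (23, 5), (25,
    5), (27, 5), (29, 5), (31, 5), (33, 1), (37, 2), (45, 2), (64, 4), (69, 1)]) (.alt (.leaf
    [(0, 6), (4, 1), (9, 18), (21, 18), (23, 9), (25, 9), (27, 9), (29, 9), (31, 6), (33, 3),
    (37, 7), (43, 2), (45, 7), (58, 3), (63, 2), (64, 1), (68, 3)]) (.done)))))))) (.alt (.leaf
    [(0, 2), (7, 1), (8, 6), (16, 2), (20, 6), (22, 4), (24, 4), (26, 5), (28, 4), (30, 3), (32,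
    1), (36, 2), (44, 2), (53, 1), (57, 1), (63, 2), (66, 1)]) (.alt (.leaf [(0, 2), (6, 1), (8,
    6), (16, 2), (20, 6), (22, 3), (24, 3), (26, 3), (28, 4), (30, 4), (32, 1), (36, 2), (42,
    1), (44, 2), (62, 1), (63, 2), (65, 1)]) (.alt (.leaf [(0, 2), (8, 7), (16, 2), (20, 7),
    (22, 5), (24, 5), (26, 5), (28, 5), (30, 5), (32, 1), (36, 2), (44, 2), (63, 4), (68, 1)])
    (.alt (.leaf [(0, 6), (3, 1), (8, 18), (16, 6), (20, 18), (22, 9), (24, 9), (26, 9), (28,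
    9), (30, 6), (32, 3), (36, 7), (42, 2), (44, 7), (57, 3), (62, 2), (63, 1), (67, 3)])
    (.done)))))))) (.alt (.leaf [(0, 1), (2, 1), (7, 6), (15, 1), (19, 6), (21, 4), (23, 4),
    (25, 4), (27, 4), (29, 3), (35, 2), (43, 2), (56, 1), (61, 1), (62, 2)]) (.alt (.leaf [(0,
    1), (7, 5), (15, 1), (19, 5), (21, 2), (23, 2), (25, 2), (27, 2), (29, 2), (35, 1), (43, 3),
    (62, 2)]) (.alt (.leaf [(0, 5), (2, 1), (7, 16), (15, 5), (19, 16), (21, 14), (23, 10), (25,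
    10), (27, 10), (29, 7), (35, 6), (41, 2), (47, 4), (56, 3), (61, 2), (62, 5)]) (.alt (.leaf
    [(3, 2), (5, 1), (6, 1), (7, 2), (12, 3), (24, 3), (26, 3), (28, 3), (30, 3), (32, 3), (34,
    2), (40, 2), (61, 2), (66, 2)]) (.done))))))))) (.done)))))) (.alt (.leaf [(0, 4), (4, 6),
    (15, 2), (17, 2), (19, 2), (21, 2), (23, 8), (25, 8), (27, 8), (29, 6), (31, 2), (59, 2),
    (62, 3), (63, 3)]) (.alt (.leaf [(0, 2), (5, 6), (15, 2), (17, 8), (19, 4), (21, 4), (23,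
    4), (25, 4), (27, 4), (29, 2), (41, 4), (60, 2), (62, 1), (63, 1)]) (.alt (.leaf [(0, 1),
    (5, 2), (17, 2), (19, 2), (21, 1), (23, 1), (25, 1), (27, 1), (33, 1), (45, 1), (60, 1)])
    (.alt (.leaf [(3, 2), (9, 4), (28, 4), (30, 4), (32, 2), (34, 2), (60, 2), (67, 1), (68,
    1)]) (.done))))))))) (.alt (.leaf [(0, 2), (3, 1), (22, 1), (24, 2), (26, 1), (28, 1), (49,
    1), (54, 1), (62, 1)]) (.alt (.leaf [(0, 2), (2, 1), (4, 1), (16, 1), (18, 1), (24, 3), (26,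
    2), (28, 1), (41, 1), (56, 1), (59, 1), (61, 1)]) (.alt (.leaf [(0, 1), (1, 1), (24, 1),
    (56, 1), (59, 1)]) (.alt (.leaf [(0, 2), (4, 1), (16, 1), (18, 1), (20, 1), (22, 1), (24,
    3), (26, 3), (28, 3), (61, 1), (62, 1), (63, 1)]) (.alt (.leaf [(5, 2), (9, 1), (21, 1),
    (23, 1), (25, 1), (27, 1), (29, 1), (31, 1), (33, 1), (68, 1)]) (.done))))))))) (.alt (.leaf
    [(0, 2), (3, 1), (15, 1), (17, 1), (19, 1), (21, 1), (23, 1), (25, 1), (27, 3), (60, 1),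
    (61, 1), (63, 1)]) (.alt (.leaf [(5, 2), (8, 1), (20, 1), (22, 1), (24, 1), (26, 1), (28,
    1), (30, 1), (32, 1), (68, 1)]) (.done))))))))) (.alt (.leaf [(0, 2), (1, 2), (20, 2), (22,
    4), (24, 4), (26, 2), (56, 2), (59, 1), (60, 1)]) (.alt (.leaf [(0, 1), (2, 1), (14, 1),
    (22, 1), (24, 1), (38, 1), (57, 1)]) (.alt (.leaf [(0, 2), (2, 2), (14, 2), (16, 2), (22,
    2), (24, 2), (26, 2), (42, 2), (59, 1), (60, 1)]) (.done)))))) (.alt (.leaf [(0, 1), (1, 1),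
    (13, 1), (15, 1), (19, 1), (21, 1), (23, 1), (41, 1), (56, 1)]) (.alt (.leaf [(0, 2), (1,
    2), (13, 2), (19, 2), (21, 2), (23, 2), (25, 2), (37, 2), (58, 1), (59, 1)]) (.done))))))
    (.alt (.leaf [(0, 3), (12, 3), (14, 3), (16, 3), (18, 3), (20, 3), (22, 2), (51, 1), (56,
    2), (64, 1), (66, 1)]) (.done)))))

/-- Class (1, 1, 0). -/
def D8.T4 : Tree :=
  .split 4 [] (.alt (.leaf [(0, 2), (12, 2), (14, 1), (16, 1), (18, 1), (20, 1), (22, 1), (34, 1),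
    (53, 1), (65, 1)]) (.alt (.leaf [(0, 2), (12, 2), (14, 2), (16, 1), (18, 1), (20, 1), (22,
    1), (37, 1), (54, 1), (63, 1)]) (.alt (.split 7 [] (.alt (.leaf [(0, 4), (19, 4), (21, 4),
    (23, 4), (25, 2), (54, 2), (58, 1), (59, 1), (64, 2), (66, 2)]) (.alt (.split 8 [] (.alt
    (.split 3 [0, 1, -1, 0] (.alt (.leaf [(0, 1), (12, 2), (14, 2), (16, 1)]) (.alt (.leaf [(0,
    1), (16, 1)]) (.alt (.split 6 [] (.alt (.split 9 [] (.alt (.leaf [(0, 1), (2, 1), (5, 3),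
    (17, 3), (19, 2), (27, 1), (33, 1), (41, 1), (42, 2), (60, 1)]) (.alt (.leaf [(0, 1), (2,
    1), (5, 3), (17, 3), (19, 2), (21, 2), (27, 1), (33, 1), (41, 1), (47, 2), (60, 1)]) (.alt
    (.leaf [(0, 2), (5, 2), (17, 2), (19, 2), (21, 2), (23, 2), (25, 2), (27, 4), (29, 2), (60,
    2), (62, 1), (63, 1)]) (.alt (.split 2 [0, 1, 0, 0] (.alt (.leaf [(0, 1), (17, 1)]) (.alt
    (.leaf [(0, 1), (17, 1), (19, 2)]) (.alt (.split 7 [1, 1, 0, -1] (.alt (.leaf [(0, 2), (16,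
    7), (18, 10), (20, 9), (30, 1)]) (.alt (.split 2 [2, 1, 1, -1] (.alt (.leaf [(0, 1), (1, 1),
    (19, 1), (21, 2)]) (.alt (.split 3 [2, 1, 1, -1] (.alt (.leaf [(0, 1), (1, 1), (18, 1), (20,
    2), (22, 2)]) (.alt (.split 4 [2, 1, 1, -1] (.alt (.leaf [(0, 1), (1, 1), (19, 2), (21, 3),
    (23, 2)]) (.alt (.split 5 [2, 1, 1, -1] (.alt (.leaf [(0, 1), (1, 1), (20, 2), (22, 4), (24,
    3)]) (.alt (.split 6 [2, 1, 1, -1] (.alt (.leaf [(0, 1), (1, 1), (21, 3), (23, 5), (25, 4)])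
    (.alt (.split 7 [2, 1, 1, -1] (.alt (.leaf [(0, 1), (1, 1), (22, 4), (24, 6), (26, 5)])
    (.alt (.split 8 [2, 1, 1, -1] (.alt (.leaf [(0, 2), (23, 5), (25, 8), (27, 7), (37, 1)])
    (.alt (.leaf [(0, 2), (25, 1), (85, 1)]) (.alt (.leaf [(0, 4), (8, 1), (22, 1), (24, 1),
    (26, 1), (28, 1), (30, 1), (32, 1), (34, 5), (36, 3), (38, 2), (63, 2), (67, 1), (72, 2)])
    (.alt (.split 10 [1, 0, 1, 1] (.alt (.leaf [(0, 1), (2, 1), (24, 2), (26, 3), (28, 3)])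
    (.alt (.leaf [(0, 6), (24, 2), (26, 1), (38, 16), (86, 7)]) (.alt (.leaf [(0, 2), (1, 2),
    (35, 2), (37, 2), (39, 4), (72, 3), (73, 1)]) (.alt (.leaf [(0, 1), (1, 1), (9, 1), (11, 1),
    (15, 3), (23, 1), (27, 3), (29, 2), (31, 3), (43, 1), (51, 1), (57, 3), (60, 1), (70, 1)])
    (.alt (.leaf [(0, 2), (15, 2), (27, 2), (29, 2), (31, 1), (33, 1), (35, 1), (37, 1), (39,
    1), (55, 1), (70, 2), (74, 1)]) (.alt (.split 10 [1, 1, 0, -1] (.alt (.leaf [(0, 18), (25,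
    8), (27, 1), (39, 40), (87, 13)]) (.alt (.leaf [(0, 2), (25, 5), (27, 8), (29, 7), (39, 1)])
    (.alt (.leaf [(0, 1), (2, 1), (10, 1), (16, 3), (24, 1), (28, 3), (30, 2), (32, 2), (44, 1),
    (52, 1), (58, 2), (61, 1), (71, 1)]) (.alt (.leaf [(0, 4), (10, 2), (16, 6), (24, 2), (28,
    6), (30, 2), (32, 2), (34, 2), (36, 2), (38, 2), (40, 4), (44, 2), (50, 2), (52, 2), (71,
    2), (73, 3), (74, 1)]) (.alt (.leaf [(0, 4), (16, 4), (28, 4), (30, 2), (32, 2), (34, 2),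
    (36, 2), (38, 2), (40, 4), (52, 2), (71, 2), (73, 1), (74, 1), (76, 2)]) (.alt (.leaf [(0,
    1), (1, 1), (2, 2), (10, 2), (12, 1), (16, 5), (24, 2), (28, 5), (30, 3), (32, 4), (40, 1),
    (44, 2), (52, 2), (58, 4), (61, 2), (71, 1), (73, 1)]) (.alt (.leaf [(3, 2), (17, 1), (37,
    1), (39, 1), (41, 1), (43, 1), (45, 1), (78, 1)]) (.done))))))))) (.alt (.leaf [(2, 3), (6,
    1), (14, 2), (15, 2), (20, 4), (28, 2), (32, 4), (34, 2), (36, 1), (38, 1), (42, 2), (44,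
    2), (48, 2), (56, 2), (57, 1), (65, 2), (77, 2)]) (.done))))))))) (.alt (.leaf [(0, 2), (8,
    1), (14, 3), (22, 1), (26, 3), (28, 2), (30, 1), (32, 1), (34, 3), (36, 3), (38, 1), (42,
    1), (48, 1), (51, 1), (69, 2), (74, 1)]) (.alt (.leaf [(0, 2), (8, 1), (14, 3), (22, 1),
    (26, 3), (28, 1), (30, 1), (34, 1), (36, 1), (38, 1), (42, 1), (50, 2), (56, 1), (59, 1),
    (73, 1)]) (.alt (.leaf [(2, 2), (13, 1), (14, 1), (18, 1), (19, 2), (27, 1), (31, 2), (33,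
    1), (37, 1), (41, 1), (43, 1), (47, 1), (55, 1), (56, 1), (64, 1), (77, 1)]) (.done)))))))))
    (.alt (.leaf [(0, 4), (7, 1), (21, 1), (23, 1), (25, 1), (27, 1), (29, 1), (31, 5), (33, 5),
    (35, 3), (37, 2), (62, 2), (66, 1), (71, 2)]) (.alt (.leaf [(0, 2), (9, 1), (29, 1), (31,
    1), (33, 1), (35, 1), (37, 1), (55, 2), (70, 1)]) (.alt (.leaf [(0, 2), (7, 1), (13, 3),
    (21, 1), (25, 3), (27, 2), (29, 1), (31, 3), (33, 3), (35, 3), (37, 1), (41, 1), (47, 1),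
    (50, 1), (68, 2), (73, 1)]) (.alt (.leaf [(0, 2), (7, 1), (13, 3), (21, 1), (25, 3), (27,
    1), (29, 1), (31, 2), (33, 1), (35, 1), (37, 1), (41, 1), (49, 2), (55, 1), (58, 1), (72,
    1)]) (.alt (.leaf [(2, 2), (12, 1), (13, 1), (17, 1), (18, 2), (26, 1), (30, 2), (32, 1),
    (36, 1), (40, 1), (42, 1), (46, 1), (54, 1), (55, 1), (63, 1), (76, 1)]) (.done)))))))))
    (.alt (.leaf [(0, 4), (6, 1), (20, 1), (22, 1), (24, 1), (26, 1), (28, 5), (30, 5), (32, 5),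
    (34, 3), (36, 2), (61, 2), (65, 1), (70, 2)]) (.alt (.leaf [(0, 2), (8, 1), (28, 3), (30,
    1), (32, 1), (34, 1), (36, 1), (54, 2), (69, 1)]) (.alt (.leaf [(0, 2), (12, 2), (24, 2),
    (26, 2), (28, 3), (30, 3), (32, 3), (34, 3), (36, 1), (52, 1), (67, 2), (72, 1)]) (.alt
    (.leaf [(0, 2), (6, 1), (12, 3), (20, 1), (24, 3), (26, 1), (28, 3), (30, 2), (32, 1), (34,
    1), (36, 1), (40, 1), (48, 2), (54, 1), (57, 1), (71, 1)]) (.alt (.leaf [(2, 2), (11, 1),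
    (12, 1), (16, 1), (17, 2), (25, 1), (29, 2), (31, 1), (35, 1), (39, 1), (41, 1), (45, 1),
    (53, 1), (54, 1), (62, 1), (75, 1)]) (.done))))))))) (.alt (.leaf [(0, 4), (5, 1), (19, 1),
    (21, 1), (23, 1), (25, 5), (27, 5), (29, 5), (31, 5), (33, 3), (35, 2), (60, 2), (64, 1),
    (69, 2)]) (.alt (.leaf [(0, 2), (7, 1), (25, 2), (27, 3), (29, 1), (31, 1), (33, 1), (35,
    1), (53, 2), (68, 1)]) (.alt (.leaf [(0, 2), (11, 2), (23, 2), (25, 4), (27, 3), (29, 3),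
    (31, 3), (33, 3), (35, 1), (51, 1), (66, 2), (71, 1)]) (.alt (.leaf [(0, 2), (11, 1), (23,
    1), (25, 2), (27, 2), (29, 2), (31, 2), (33, 1), (35, 1), (47, 1), (63, 1), (70, 1)]) (.alt
    (.leaf [(2, 2), (10, 1), (11, 1), (15, 1), (16, 2), (24, 1), (28, 2), (30, 1), (34, 1), (38,
    1), (40, 1), (44, 1), (52, 1), (53, 1), (61, 1), (74, 1)]) (.done))))))))) (.alt (.leaf [(0,
    10), (4, 1), (9, 2), (18, 1), (22, 10), (24, 10), (26, 10), (28, 12), (30, 12), (32, 5),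
    (34, 5), (36, 1), (59, 7), (68, 5)]) (.alt (.leaf [(0, 2), (6, 1), (22, 2), (24, 2), (26,
    3), (28, 1), (30, 1), (32, 1), (34, 1), (52, 2), (67, 1)]) (.alt (.leaf [(0, 2), (10, 2),
    (22, 4), (24, 4), (26, 3), (28, 3), (30, 3), (32, 3), (34, 1), (50, 1), (65, 2), (70, 1)])
    (.alt (.leaf [(0, 2), (10, 1), (22, 3), (24, 2), (26, 2), (28, 2), (30, 2), (32, 1), (34,
    1), (46, 1), (62, 1), (69, 1)]) (.alt (.leaf [(2, 2), (9, 1), (10, 1), (14, 1), (15, 2),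
    (23, 1), (27, 2), (29, 1), (33, 1), (37, 1), (39, 1), (43, 1), (51, 1), (52, 1), (60, 1),
    (73, 1)]) (.done))))))))) (.alt (.leaf [(0, 10), (3, 1), (8, 2), (17, 1), (19, 10), (21,
    10), (23, 10), (25, 10), (27, 12), (29, 12), (31, 5), (33, 5), (35, 1), (58, 7), (67, 5)])
    (.alt (.leaf [(0, 2), (4, 1), (9, 2), (19, 1), (21, 3), (23, 1), (25, 1), (27, 1), (29, 1),
    (31, 2), (33, 1), (37, 1), (43, 1), (45, 1), (63, 1), (66, 1)]) (.alt (.leaf [(0, 8), (4,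
    8), (19, 6), (21, 6), (23, 6), (25, 6), (27, 6), (29, 6), (31, 14), (33, 14), (37, 2), (66,
    5), (67, 5), (69, 4), (79, 2)]) (.alt (.leaf [(0, 4), (9, 3), (19, 3), (21, 6), (23, 3),
    (25, 3), (27, 3), (29, 3), (31, 3), (33, 2), (37, 1), (45, 3), (65, 1), (68, 2)]) (.alt
    (.leaf [(2, 2), (8, 1), (9, 1), (13, 1), (14, 2), (22, 1), (26, 2), (28, 1), (32, 1), (36,
    1), (38, 1), (42, 1), (50, 1), (51, 1), (59, 1), (72, 1)]) (.done))))))))) (.alt (.leaf [(0,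
    10), (2, 1), (7, 2), (16, 11), (18, 10), (20, 10), (22, 10), (24, 10), (26, 12), (28, 12),
    (30, 5), (32, 5), (34, 1), (57, 7), (66, 5)]) (.alt (.leaf [(0, 2), (3, 1), (8, 2), (16, 2),
    (18, 1), (20, 3), (22, 1), (24, 1), (26, 1), (28, 1), (30, 2), (32, 1), (36, 1), (42, 1),
    (44, 1), (62, 1), (65, 1)]) (.alt (.leaf [(0, 8), (3, 8), (16, 8), (18, 6), (20, 6), (22,
    6), (24, 6), (26, 6), (28, 6), (30, 14), (32, 14), (36, 2), (65, 5), (66, 5), (68, 4), (78,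
    2)]) (.alt (.leaf [(0, 4), (8, 3), (16, 4), (18, 3), (20, 6), (22, 3), (24, 3), (26, 3),
    (28, 3), (30, 3), (32, 2), (36, 1), (44, 3), (64, 1), (67, 2)]) (.alt (.leaf [(2, 2), (7,
    1), (8, 1), (12, 1), (13, 2), (21, 1), (25, 2), (27, 1), (31, 1), (35, 1), (37, 1), (41, 1),
    (49, 1), (50, 1), (58, 1), (71, 1)]) (.done))))))))) (.alt (.leaf [(0, 2), (1, 1), (2, 1),
    (7, 2), (15, 1), (19, 2), (21, 1), (25, 1), (29, 1), (31, 1), (35, 1), (43, 1), (44, 1),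
    (49, 1), (52, 1), (65, 1)]) (.alt (.leaf [(0, 2), (3, 1), (23, 1), (25, 3), (27, 3), (29,
    3), (31, 3), (64, 2), (65, 1)]) (.alt (.leaf [(0, 4), (7, 4), (19, 4), (21, 2), (23, 2),
    (25, 6), (27, 6), (29, 6), (31, 4), (43, 2), (62, 2), (64, 1), (65, 1), (67, 2)]) (.alt
    (.leaf [(0, 2), (1, 1), (7, 1), (15, 1), (19, 1), (21, 1), (23, 1), (25, 2), (27, 1), (29,
    1), (31, 1), (35, 1), (49, 1), (52, 1), (66, 1)]) (.alt (.leaf [(3, 2), (8, 1), (28, 1),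
    (30, 1), (32, 1), (34, 1), (36, 1), (69, 1)]) (.done))))))))) (.alt (.leaf [(0, 3), (3, 4),
    (14, 3), (16, 5), (18, 5), (20, 5), (22, 5), (24, 5), (26, 5), (28, 5), (30, 4), (31, 2),
    (60, 1), (63, 2), (64, 2)]) (.alt (.leaf [(0, 1), (6, 2), (14, 1), (16, 1), (18, 3), (20,
    1), (22, 1), (24, 1), (26, 1), (28, 1), (42, 2), (61, 1)]) (.alt (.leaf [(0, 2), (6, 6),
    (14, 2), (18, 6), (20, 6), (22, 4), (24, 4), (26, 4), (28, 4), (30, 2), (34, 2), (46, 2),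
    (61, 2), (63, 1), (64, 1)]) (.alt (.leaf [(3, 6), (8, 8), (21, 4), (23, 4), (25, 4), (27,
    4), (29, 4), (31, 4), (33, 4), (35, 2), (36, 4), (65, 2), (68, 1), (69, 1)]) (.done)))))))))
    (.done)))))) (.alt (.leaf [(0, 6), (1, 4), (14, 4), (16, 4), (18, 2), (20, 8), (22, 8), (24,
    8), (26, 8), (28, 6), (38, 2), (58, 2), (61, 3), (62, 3)]) (.alt (.leaf [(0, 2), (4, 4),
    (16, 4), (18, 2), (20, 4), (22, 4), (24, 4), (26, 4), (28, 2), (40, 2), (59, 2), (61, 1),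
    (62, 1)]) (.alt (.leaf [(0, 1), (1, 1), (4, 1), (16, 1), (18, 1), (20, 1), (32, 1), (41, 1),
    (46, 1)]) (.done)))))) (.alt (.leaf [(0, 4), (13, 4), (15, 4), (17, 4), (19, 4), (21, 4),
    (23, 4), (25, 4), (27, 2), (56, 2), (60, 1), (61, 1), (66, 2), (68, 6)]) (.alt (.leaf [(0,
    2), (3, 6), (13, 2), (15, 8), (17, 4), (19, 4), (21, 4), (23, 4), (25, 4), (27, 2), (39, 4),
    (58, 2), (60, 1), (61, 1)]) (.alt (.leaf [(0, 1), (3, 2), (15, 2), (17, 2), (19, 1), (21,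
    1), (23, 1), (25, 1), (31, 1), (43, 1), (58, 1)]) (.alt (.leaf [(3, 1), (6, 1), (7, 2), (8,
    2), (20, 2), (22, 1), (24, 1), (26, 3), (28, 4), (30, 2), (42, 1), (60, 2), (63, 2)])
    (.done))))))))) (.alt (.leaf [(0, 2), (1, 2), (20, 2), (22, 4), (24, 4), (26, 2), (56, 2),
    (59, 1), (60, 1)]) (.alt (.leaf [(0, 1), (2, 1), (14, 1), (22, 1), (24, 1), (38, 1), (57,
    1)]) (.alt (.leaf [(0, 2), (2, 2), (14, 2), (16, 2), (22, 2), (24, 2), (26, 2), (42, 2),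
    (59, 1), (60, 1)]) (.done)))))) (.alt (.leaf [(0, 1), (1, 1), (13, 1), (15, 1), (19, 1),
    (21, 1), (23, 1), (41, 1), (56, 1)]) (.alt (.leaf [(0, 1), (1, 1), (13, 1), (15, 1), (17,
    1), (19, 2), (21, 1), (48, 1), (53, 1)]) (.done)))))) (.alt (.leaf [(0, 4), (12, 4), (14,
    4), (16, 4), (18, 4), (20, 4), (22, 4), (24, 2), (56, 2), (57, 1), (58, 1), (64, 2), (66,
    2)]) (.done)))))

/-- Class (1, 0, 1). -/
def D8.T5 : Tree :=
  .split 4 [] (.alt (.leaf [(0, 2), (12, 2), (14, 1), (16, 1), (18, 1), (20, 1), (22, 1), (34, 1),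
    (53, 1), (65, 1)]) (.alt (.leaf [(0, 2), (12, 2), (14, 2), (16, 1), (18, 1), (20, 1), (22,
    1), (37, 1), (54, 1), (63, 1)]) (.alt (.split 7 [] (.alt (.leaf [(0, 2), (1, 1), (13, 1),
    (15, 1), (17, 1), (19, 3), (21, 3), (23, 2), (53, 1), (54, 1), (56, 1), (64, 1), (66, 1)])
    (.alt (.split 8 [] (.alt (.split 3 [0, 1, -1, 0] (.alt (.leaf [(0, 1), (12, 2), (14, 2),
    (16, 1)]) (.alt (.leaf [(0, 1), (16, 1)]) (.alt (.split 6 [] (.alt (.split 9 [] (.alt (.leaf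
    [(0, 1), (2, 1), (5, 3), (17, 3), (19, 2), (27, 1), (33, 1), (41, 1), (42, 2), (60, 1)])
    (.alt (.leaf [(0, 1), (2, 1), (5, 3), (17, 3), (19, 2), (21, 2), (27, 1), (33, 1), (41, 1),
    (47, 2), (60, 1)]) (.alt (.leaf [(0, 2), (5, 2), (17, 2), (19, 2), (21, 2), (23, 2), (25,
    2), (27, 4), (29, 2), (60, 2), (62, 1), (63, 1)]) (.alt (.split 2 [0, 1, 0, 0] (.alt (.leaf
    [(0, 1), (17, 1)]) (.alt (.leaf [(0, 1), (17, 1), (19, 2)]) (.alt (.split 10 [1, 0, 1, -1]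
    (.alt (.leaf [(0, 22), (16, 5), (20, 8), (30, 48), (78, 15)]) (.alt (.leaf [(0, 2), (16, 6),
    (18, 9), (20, 7), (30, 1)]) (.alt (.leaf [(0, 4), (1, 1), (7, 3), (15, 1), (19, 3), (21, 2),
    (23, 2), (25, 2), (27, 2), (29, 2), (31, 4), (35, 1), (43, 1), (60, 1), (62, 1), (64, 1),
    (65, 3)]) (.alt (.split 10 [0, 0, 0, 1] (.alt (.leaf [(0, 2), (17, 2), (19, 3), (21, 3),
    (31, 1)]) (.alt (.leaf [(0, 18), (17, 7), (19, 2), (31, 44), (79, 17)]) (.alt (.leaf [(0,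
    4), (2, 1), (8, 3), (16, 1), (20, 3), (22, 2), (24, 2), (26, 2), (28, 2), (30, 2), (32, 4),
    (36, 1), (44, 1), (61, 1), (63, 1), (65, 3), (66, 1)]) (.alt (.split 9 [1, 0, 1, -1] (.alt
    (.leaf [(0, 22), (18, 5), (22, 8), (32, 26), (80, 15)]) (.alt (.split 9 [2, 1, 1, -1] (.alt
    (.leaf [(0, 2), (19, 1), (33, 2), (81, 1)]) (.alt (.leaf [(0, 2), (19, 1), (21, 2), (23, 2),
    (81, 1)]) (.alt (.leaf [(0, 1), (3, 1), (10, 1), (22, 1), (24, 1), (47, 1), (62, 1), (65,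
    1)]) (.alt (.leaf [(0, 4), (4, 3), (10, 9), (18, 3), (22, 9), (24, 2), (26, 2), (28, 2),
    (30, 2), (32, 6), (34, 2), (38, 3), (44, 4), (46, 3), (64, 1), (65, 3), (67, 2)]) (.alt
    (.leaf [(0, 4), (10, 6), (22, 6), (24, 4), (26, 4), (28, 4), (30, 4), (32, 8), (34, 4), (46,
    2), (65, 4), (67, 1), (68, 1), (70, 2)]) (.alt (.split 7 [2, 1, 2, -1] (.alt (.leaf [(0, 1),
    (2, 1), (20, 4), (22, 6), (24, 5)]) (.alt (.split 8 [2, 1, 2, -1] (.alt (.leaf [(0, 1), (1,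
    1), (21, 5), (23, 8), (25, 7)]) (.alt (.leaf [(0, 2), (21, 1), (23, 2), (25, 2), (83, 1)])
    (.alt (.leaf [(0, 1), (5, 1), (6, 1), (12, 3), (20, 1), (24, 3), (26, 2), (28, 2), (30, 1),
    (40, 1), (48, 1), (54, 1), (57, 2), (67, 1)]) (.alt (.leaf [(0, 4), (6, 1), (12, 3), (20,
    1), (24, 3), (26, 2), (28, 2), (30, 2), (32, 6), (34, 6), (36, 2), (40, 1), (48, 1), (66,
    3), (67, 1), (69, 2)]) (.alt (.leaf [(0, 1), (2, 1), (6, 1), (12, 2), (20, 1), (24, 2), (26,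
    1), (28, 1), (34, 1), (40, 1), (48, 1), (54, 1), (57, 1), (67, 1)]) (.alt (.leaf [(0, 4),
    (12, 4), (24, 4), (26, 4), (28, 2), (30, 2), (32, 6), (34, 4), (36, 4), (52, 2), (64, 2),
    (69, 1), (70, 1), (71, 2)]) (.alt (.leaf [(3, 1), (5, 2), (9, 1), (11, 1), (17, 3), (25, 1),
    (29, 3), (31, 3), (33, 3), (35, 1), (37, 1), (41, 1), (45, 1), (59, 2), (69, 1), (76, 1)])
    (.done))))))))) (.alt (.leaf [(0, 1), (4, 1), (5, 1), (11, 3), (19, 1), (23, 3), (25, 2),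
    (27, 2), (29, 2), (39, 1), (47, 1), (53, 1), (56, 2), (66, 1)]) (.alt (.leaf [(0, 4), (5,
    1), (11, 3), (19, 1), (23, 3), (25, 2), (27, 2), (29, 6), (31, 6), (33, 6), (35, 2), (39,
    1), (47, 1), (65, 3), (66, 1), (68, 2)]) (.alt (.leaf [(0, 1), (1, 1), (5, 1), (11, 2), (19,
    1), (23, 2), (25, 1), (27, 1), (29, 1), (33, 1), (39, 1), (47, 1), (53, 1), (56, 1), (66,
    1)]) (.alt (.leaf [(0, 4), (11, 4), (23, 4), (25, 4), (27, 2), (29, 6), (31, 6), (33, 4),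
    (35, 4), (51, 2), (63, 2), (68, 1), (69, 1), (70, 2)]) (.alt (.leaf [(3, 1), (5, 2), (8, 1),
    (10, 1), (16, 3), (24, 1), (28, 3), (30, 3), (32, 3), (34, 1), (36, 1), (40, 1), (44, 1),
    (58, 2), (68, 1), (75, 1)]) (.done))))))))) (.alt (.leaf [(3, 1), (4, 2), (7, 1), (11, 1),
    (15, 3), (27, 3), (29, 2), (31, 3), (33, 2), (35, 2), (37, 2), (39, 1), (51, 1), (57, 1),
    (70, 2), (75, 1)]) (.done))))))))) (.alt (.leaf [(0, 4), (3, 1), (9, 3), (17, 1), (21, 3),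
    (23, 2), (25, 2), (27, 2), (29, 2), (31, 6), (33, 4), (37, 1), (45, 1), (62, 1), (64, 1),
    (66, 1), (67, 3)]) (.alt (.leaf [(0, 1), (1, 1), (9, 1), (21, 1), (23, 1), (25, 1), (51, 1),
    (61, 1), (64, 1)]) (.alt (.leaf [(0, 2), (3, 1), (9, 2), (17, 1), (21, 2), (23, 2), (25, 2),
    (27, 1), (31, 2), (33, 1), (37, 1), (51, 1), (54, 1), (64, 1), (69, 1)]) (.alt (.leaf [(0,
    2), (3, 1), (9, 4), (17, 1), (21, 4), (23, 2), (25, 2), (27, 1), (31, 2), (33, 1), (37, 1),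
    (45, 2), (51, 1), (54, 1), (64, 1), (68, 1)]) (.alt (.leaf [(2, 1), (7, 1), (8, 1), (14, 3),
    (22, 1), (26, 3), (28, 2), (30, 2), (32, 1), (42, 1), (50, 1), (56, 1), (59, 1), (69, 1)])
    (.done))))))))) (.alt (.leaf [(0, 2), (2, 1), (8, 2), (16, 1), (20, 2), (22, 2), (24, 2),
    (26, 1), (32, 1), (36, 1), (50, 1), (53, 1), (63, 1), (67, 1)]) (.alt (.leaf [(0, 2), (2,
    1), (8, 4), (16, 1), (20, 4), (22, 2), (24, 2), (26, 1), (32, 1), (36, 1), (44, 2), (50, 1),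
    (53, 1), (63, 1), (68, 1)]) (.alt (.leaf [(2, 2), (7, 1), (8, 1), (13, 2), (21, 1), (25, 2),
    (27, 1), (29, 1), (31, 1), (35, 1), (37, 1), (41, 1), (49, 1), (58, 1), (70, 1)])
    (.done))))))))) (.alt (.leaf [(0, 2), (1, 1), (7, 2), (15, 1), (19, 2), (21, 2), (23, 2),
    (25, 1), (31, 1), (35, 1), (49, 1), (52, 1), (62, 1), (67, 1)]) (.alt (.leaf [(0, 2), (1,
    1), (7, 4), (15, 1), (19, 4), (21, 2), (23, 2), (25, 1), (31, 1), (35, 1), (43, 2), (49, 1),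
    (52, 1), (62, 1), (66, 1)]) (.alt (.leaf [(2, 2), (6, 1), (7, 1), (12, 2), (20, 1), (24, 2),
    (26, 1), (28, 1), (30, 1), (34, 1), (36, 1), (40, 1), (48, 1), (57, 1), (70, 1)])
    (.done))))))))) (.alt (.leaf [(0, 3), (3, 4), (14, 3), (16, 5), (18, 5), (20, 5), (22, 5),
    (24, 5), (26, 5), (28, 5), (30, 4), (31, 2), (60, 1), (63, 2), (64, 2)]) (.alt (.leaf [(0,
    1), (6, 2), (14, 1), (16, 1), (18, 3), (20, 1), (22, 1), (24, 1), (26, 1), (28, 1), (42, 2),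
    (61, 1)]) (.alt (.leaf [(0, 2), (6, 6), (14, 2), (18, 6), (20, 6), (22, 4), (24, 4), (26,
    4), (28, 4), (30, 2), (34, 2), (46, 2), (61, 2), (63, 1), (64, 1)]) (.alt (.leaf [(3, 3),
    (5, 1), (8, 4), (11, 4), (23, 4), (25, 4), (27, 4), (29, 4), (31, 4), (33, 4), (35, 2), (36,
    2), (39, 2), (65, 1), (66, 1), (68, 1), (69, 1)]) (.done))))))))) (.done)))))) (.alt (.leaf
    [(0, 6), (1, 4), (14, 4), (16, 4), (18, 2), (20, 8), (22, 8), (24, 8), (26, 8), (28, 6),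
    (38, 2), (58, 2), (61, 3), (62, 3)]) (.alt (.leaf [(0, 2), (4, 4), (16, 4), (18, 2), (20,
    4), (22, 4), (24, 4), (26, 4), (28, 2), (40, 2), (59, 2), (61, 1), (62, 1)]) (.alt (.leaf
    [(0, 1), (1, 1), (4, 1), (16, 1), (18, 1), (20, 1), (32, 1), (41, 1), (46, 1)]) (.done))))))
    (.alt (.leaf [(0, 4), (13, 4), (15, 4), (17, 4), (19, 4), (21, 4), (23, 4), (25, 4), (27,
    2), (56, 2), (60, 1), (61, 1), (66, 2), (68, 6)]) (.alt (.leaf [(0, 2), (3, 6), (13, 2),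
    (15, 8), (17, 4), (19, 4), (21, 4), (23, 4), (25, 4), (27, 2), (39, 4), (58, 2), (60, 1),
    (61, 1)]) (.alt (.leaf [(0, 1), (3, 2), (15, 2), (17, 2), (19, 1), (21, 1), (23, 1), (25,
    1), (31, 1), (43, 1), (58, 1)]) (.alt (.leaf [(3, 1), (6, 1), (7, 2), (8, 2), (20, 2), (22,
    1), (24, 1), (26, 3), (28, 4), (30, 2), (42, 1), (60, 2), (63, 2)]) (.done))))))))) (.alt
    (.leaf [(0, 1), (1, 1), (2, 1), (14, 1), (16, 1), (18, 1), (20, 2), (22, 3), (24, 2), (54,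
    1), (56, 1), (57, 1)]) (.alt (.leaf [(0, 1), (2, 1), (14, 1), (22, 1), (24, 1), (38, 1),
    (57, 1)]) (.alt (.leaf [(0, 2), (2, 2), (14, 2), (16, 2), (22, 2), (24, 2), (26, 2), (42,
    2), (59, 1), (60, 1)]) (.done)))))) (.alt (.leaf [(0, 1), (1, 1), (13, 1), (15, 1), (19, 1),
    (21, 1), (23, 1), (41, 1), (56, 1)]) (.alt (.leaf [(0, 2), (1, 2), (13, 2), (19, 2), (21,
    2), (23, 2), (25, 2), (37, 2), (58, 1), (59, 1)]) (.done)))))) (.alt (.leaf [(0, 4), (12,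
    4), (14, 4), (16, 4), (18, 4), (20, 4), (22, 4), (24, 2), (56, 2), (57, 1), (58, 1), (64,
    2), (66, 2)]) (.done)))))

/-- Class (0, 1, 1). -/
def D8.T6 : Tree :=
  .split 4 [] (.alt (.leaf [(0, 2), (12, 2), (14, 1), (16, 1), (18, 1), (20, 1), (22, 1), (34, 1),
    (53, 1), (65, 1)]) (.alt (.leaf [(0, 2), (12, 2), (14, 2), (16, 1), (18, 1), (20, 1), (22,
    1), (37, 1), (54, 1), (63, 1)]) (.alt (.split 7 [] (.alt (.leaf [(0, 1), (1, 1), (13, 1),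
    (15, 1), (17, 1), (19, 2), (21, 2), (23, 1), (53, 1), (56, 1), (68, 1)]) (.alt (.split 3 [0,
    1, -1, 0] (.alt (.leaf [(0, 1), (11, 2), (13, 2), (15, 1)]) (.alt (.leaf [(0, 1), (15, 1)])
    (.alt (.split 9 [] (.alt (.leaf [(0, 1), (1, 1), (3, 3), (15, 3), (17, 2), (25, 1), (31, 1),
    (39, 1), (40, 2), (58, 1)]) (.alt (.leaf [(0, 1), (1, 1), (3, 3), (15, 3), (17, 2), (19, 2),
    (25, 1), (31, 1), (39, 1), (45, 2), (58, 1)]) (.alt (.leaf [(0, 6), (1, 1), (3, 9), (15, 9),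
    (17, 6), (19, 6), (21, 6), (23, 6), (25, 9), (31, 1), (37, 2), (39, 1), (52, 3), (57, 2),
    (58, 7)]) (.alt (.split 2 [0, 1, 0, 0] (.alt (.leaf [(0, 1), (15, 1)]) (.alt (.leaf [(0, 1),
    (15, 1), (17, 2)]) (.alt (.split 5 [1, 1, 1, -1] (.alt (.leaf [(0, 2), (14, 3), (16, 5),
    (18, 5), (28, 1)]) (.alt (.split 6 [1, 1, 1, -1] (.alt (.leaf [(0, 2), (15, 5), (17, 7),
    (19, 5), (29, 1)]) (.alt (.split 7 [1, 1, 1, -1] (.alt (.leaf [(0, 2), (16, 5), (18, 7),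
    (20, 7), (30, 1)]) (.alt (.split 8 [1, 1, 1, -1] (.alt (.leaf [(0, 2), (17, 7), (19, 11),
    (21, 9), (31, 1)]) (.alt (.split 9 [1, 1, 1, -1] (.alt (.leaf [(0, 2), (18, 9), (20, 13),
    (22, 11), (32, 1)]) (.alt (.leaf [(0, 2), (80, 1)]) (.alt (.leaf [(0, 2), (5, 1), (9, 3),
    (17, 1), (21, 3), (23, 2), (25, 1), (27, 1), (31, 2), (33, 1), (37, 1), (45, 1), (46, 1),
    (54, 1), (64, 1), (67, 1)]) (.alt (.leaf [(0, 4), (5, 1), (9, 3), (17, 1), (21, 3), (31, 4),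
    (33, 2), (37, 1), (43, 2), (45, 1), (63, 1), (64, 1), (66, 2)]) (.alt (.leaf [(0, 2), (9,
    2), (21, 2), (23, 2), (25, 2), (27, 2), (29, 2), (31, 3), (33, 1), (61, 1), (64, 2), (69,
    1)]) (.alt (.leaf [(0, 2), (31, 1), (33, 1), (61, 1), (68, 1)]) (.alt (.leaf [(0, 1), (6,
    1), (23, 3), (25, 5), (27, 4)]) (.done))))))))) (.alt (.leaf [(0, 4), (4, 1), (8, 3), (16,
    1), (20, 3), (22, 2), (28, 4), (30, 4), (32, 2), (36, 1), (44, 1), (45, 2), (61, 1), (63,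
    1), (66, 2)]) (.alt (.leaf [(0, 4), (4, 1), (8, 3), (16, 1), (20, 3), (28, 4), (30, 4), (32,
    2), (36, 1), (42, 2), (44, 1), (62, 1), (63, 1), (65, 2)]) (.alt (.leaf [(0, 12), (6, 1),
    (8, 9), (20, 9), (22, 6), (24, 6), (26, 6), (28, 18), (30, 15), (32, 6), (36, 1), (42, 2),
    (44, 1), (57, 3), (62, 2), (63, 7), (68, 6)]) (.alt (.leaf [(0, 2), (28, 2), (30, 1), (32,
    1), (60, 1), (67, 1)]) (.alt (.leaf [(0, 1), (6, 1), (22, 2), (24, 3), (26, 3)])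
    (.done))))))))) (.alt (.leaf [(0, 4), (3, 2), (7, 3), (15, 2), (19, 3), (21, 2), (23, 2),
    (25, 6), (27, 3), (29, 3), (31, 2), (32, 1), (35, 1), (43, 1), (52, 3), (62, 1), (65, 2)])
    (.alt (.leaf [(0, 6), (5, 1), (7, 3), (19, 3), (25, 6), (27, 6), (29, 6), (31, 3), (35, 1),
    (41, 2), (43, 1), (61, 2), (62, 1), (64, 3)]) (.alt (.leaf [(0, 12), (5, 1), (7, 9), (19,
    9), (21, 6), (23, 6), (25, 18), (27, 18), (29, 15), (31, 6), (35, 1), (41, 2), (43, 1), (56,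
    3), (61, 2), (62, 7), (67, 6)]) (.alt (.leaf [(0, 2), (25, 2), (27, 2), (29, 1), (31, 1),
    (59, 1), (66, 1)]) (.alt (.leaf [(0, 1), (6, 1), (21, 2), (23, 3), (25, 2)]) (.done)))))))))
    (.alt (.leaf [(0, 4), (2, 2), (6, 3), (14, 2), (18, 3), (20, 2), (22, 6), (24, 6), (26, 3),
    (28, 3), (30, 2), (31, 1), (34, 1), (42, 1), (51, 3), (61, 1), (64, 2)]) (.alt (.leaf [(0,
    6), (4, 1), (6, 3), (18, 3), (22, 6), (24, 6), (26, 6), (28, 6), (30, 3), (34, 1), (40, 2),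
    (42, 1), (60, 2), (61, 1), (63, 3)]) (.alt (.leaf [(0, 12), (4, 1), (6, 9), (18, 9), (20,
    6), (22, 18), (24, 18), (26, 18), (28, 15), (30, 6), (34, 1), (40, 2), (42, 1), (55, 3),
    (60, 2), (61, 7), (66, 6)]) (.alt (.leaf [(0, 2), (22, 2), (24, 2), (26, 2), (28, 1), (30,
    1), (58, 1), (65, 1)]) (.alt (.leaf [(0, 1), (6, 1), (20, 1), (22, 2), (24, 2)])
    (.done))))))))) (.alt (.leaf [(0, 6), (1, 1), (13, 1), (19, 6), (21, 5), (23, 5), (25, 5),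
    (27, 5), (29, 3), (30, 1), (42, 1), (58, 2), (63, 3)]) (.alt (.leaf [(0, 6), (3, 1), (5, 3),
    (17, 3), (19, 6), (21, 6), (23, 6), (25, 6), (27, 6), (29, 3), (33, 1), (39, 2), (41, 1),
    (59, 2), (60, 1), (62, 3)]) (.alt (.leaf [(0, 12), (3, 1), (5, 9), (17, 9), (19, 18), (21,
    18), (23, 18), (25, 18), (27, 15), (29, 6), (33, 1), (39, 2), (41, 1), (54, 3), (59, 2),
    (60, 7), (65, 6)]) (.alt (.leaf [(0, 2), (19, 2), (21, 2), (23, 2), (25, 2), (27, 1), (29,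
    1), (57, 1), (64, 1)]) (.alt (.leaf [(0, 2), (19, 1), (21, 1), (23, 1), (33, 1)])
    (.done))))))))) (.alt (.leaf [(0, 1), (2, 1), (4, 6), (12, 1), (16, 6), (18, 4), (20, 4),
    (22, 4), (24, 4), (26, 3), (32, 2), (40, 2), (53, 1), (58, 1), (59, 2)]) (.alt (.leaf [(0,
    1), (4, 5), (12, 1), (16, 5), (18, 2), (20, 2), (22, 2), (24, 2), (26, 2), (32, 1), (40, 3),
    (59, 2)]) (.alt (.leaf [(0, 5), (2, 1), (4, 16), (12, 5), (16, 16), (18, 14), (20, 10), (22,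
    10), (24, 10), (26, 7), (32, 6), (38, 2), (44, 4), (53, 3), (58, 2), (59, 5)]) (.alt (.leaf
    [(3, 2), (5, 1), (6, 1), (7, 2), (9, 3), (21, 3), (23, 3), (25, 3), (27, 3), (29, 3), (31,
    2), (37, 2), (58, 2), (63, 2)]) (.done))))))))) (.done)))))) (.alt (.leaf [(0, 4), (1, 6),
    (12, 2), (14, 2), (16, 2), (18, 2), (20, 8), (22, 8), (24, 8), (26, 6), (28, 2), (56, 2),
    (59, 3), (60, 3)]) (.alt (.leaf [(0, 2), (2, 6), (12, 2), (14, 8), (16, 4), (18, 4), (20,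
    4), (22, 4), (24, 4), (26, 2), (38, 4), (57, 2), (61, 1), (62, 1)]) (.alt (.leaf [(0, 1),
    (2, 2), (14, 2), (16, 2), (18, 1), (20, 1), (22, 1), (24, 1), (30, 1), (42, 1), (57, 1)])
    (.alt (.leaf [(3, 2), (6, 4), (25, 4), (27, 4), (29, 2), (31, 2), (57, 2), (64, 1), (65,
    1)]) (.done))))))))) (.alt (.leaf [(0, 1), (1, 1), (13, 1), (15, 1), (19, 1), (21, 1), (23,
    1), (41, 1), (56, 1)]) (.alt (.leaf [(0, 2), (1, 2), (13, 2), (19, 2), (21, 2), (23, 2),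
    (25, 2), (37, 2), (58, 1), (59, 1)]) (.done)))))) (.alt (.leaf [(0, 3), (12, 3), (14, 3),
    (16, 3), (18, 3), (20, 3), (22, 2), (51, 1), (56, 2), (64, 1), (66, 1)]) (.done)))))

/-- Class (1, 1, 1). -/
def D8.T7 : Tree :=
  .split 4 [] (.alt (.leaf [(0, 2), (12, 2), (14, 1), (16, 1), (18, 1), (20, 1), (22, 1), (34, 1),
    (53, 1), (65, 1)]) (.alt (.leaf [(0, 2), (12, 2), (14, 2), (16, 1), (18, 1), (20, 1), (22,
    1), (37, 1), (54, 1), (63, 1)]) (.alt (.split 7 [] (.alt (.leaf [(0, 2), (1, 1), (13, 1),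
    (15, 1), (17, 1), (19, 3), (21, 3), (23, 2), (53, 1), (54, 1), (56, 1), (64, 1), (66, 1)])
    (.alt (.split 8 [] (.alt (.split 10 [0, 0, 0, 1] (.alt (.leaf [(0, 2), (12, 2), (14, 3),
    (16, 2), (26, 1)]) (.alt (.leaf [(0, 22), (12, 7), (16, 9), (26, 54), (74, 21)]) (.alt
    (.split 3 [0, 1, -1, 0] (.alt (.leaf [(0, 1), (13, 2), (15, 2), (17, 1)]) (.alt (.leaf [(0,
    1), (17, 1)]) (.alt (.split 9 [] (.alt (.leaf [(0, 1), (1, 1), (5, 3), (17, 3), (19, 2),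
    (27, 1), (33, 1), (41, 1), (42, 2), (60, 1)]) (.alt (.leaf [(0, 1), (1, 1), (5, 3), (17, 3),
    (19, 2), (21, 2), (27, 1), (33, 1), (41, 1), (47, 2), (60, 1)]) (.alt (.leaf [(0, 6), (1,
    1), (5, 9), (17, 9), (19, 6), (21, 6), (23, 6), (25, 6), (27, 9), (33, 1), (39, 2), (41, 1),
    (54, 3), (59, 2), (60, 7)]) (.alt (.split 2 [0, 1, 0, 0] (.alt (.leaf [(0, 1), (17, 1)])
    (.alt (.leaf [(0, 1), (17, 1), (19, 2)]) (.alt (.split 9 [1, 1, 1, -1] (.alt (.leaf [(0, 6),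
    (16, 2), (18, 1), (30, 7), (78, 4)]) (.alt (.split 10 [1, 1, 1, -1] (.alt (.leaf [(0, 6),
    (17, 2), (19, 1), (31, 13), (79, 4)]) (.alt (.leaf [(0, 2), (17, 6), (19, 9), (21, 8), (31,
    1)]) (.alt (.split 8 [2, 1, 2, -1] (.alt (.leaf [(0, 1), (2, 1), (18, 5), (20, 8), (22, 7)])
    (.alt (.leaf [(0, 2), (18, 1), (20, 2), (22, 1), (80, 1)]) (.alt (.leaf [(0, 2), (5, 1), (9,
    3), (21, 3), (23, 2), (25, 2), (27, 2), (29, 3), (31, 2), (33, 1), (37, 1), (45, 1), (54,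
    1), (58, 1), (64, 1), (67, 1)]) (.alt (.leaf [(0, 1), (1, 1), (3, 1), (9, 3), (17, 1), (21,
    3), (23, 2), (25, 2), (37, 1), (45, 1), (51, 2), (54, 1), (64, 1)]) (.alt (.leaf [(0, 2),
    (1, 2), (3, 2), (6, 2), (9, 5), (17, 2), (21, 5), (23, 4), (25, 4), (27, 2), (33, 1), (37,
    2), (45, 1), (51, 2), (54, 4), (64, 3), (69, 1)]) (.alt (.leaf [(0, 2), (9, 3), (21, 3),
    (23, 2), (25, 2), (27, 2), (29, 4), (31, 2), (33, 1), (45, 1), (61, 2), (64, 1), (68, 1)])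
    (.alt (.leaf [(2, 1), (8, 1), (11, 1), (14, 3), (22, 1), (26, 3), (28, 2), (30, 2), (32, 2),
    (42, 1), (50, 1), (59, 2), (69, 1)]) (.done))))))))) (.alt (.leaf [(0, 4), (2, 1), (8, 5),
    (16, 1), (20, 5), (22, 4), (24, 4), (26, 4), (28, 4), (30, 2), (32, 2), (36, 1), (44, 1),
    (60, 2), (62, 1), (63, 3), (65, 2)]) (.alt (.leaf [(0, 2), (8, 1), (20, 1), (32, 1), (44,
    1), (63, 1), (68, 1)]) (.alt (.leaf [(0, 2), (2, 1), (8, 3), (16, 1), (20, 3), (22, 2), (24,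
    1), (26, 1), (28, 1), (32, 1), (36, 1), (42, 1), (45, 1), (60, 1), (63, 1), (67, 1)]) (.alt
    (.leaf [(3, 2), (7, 1), (8, 1), (13, 2), (21, 1), (25, 2), (27, 1), (29, 1), (35, 1), (37,
    1), (41, 1), (49, 1), (55, 1), (70, 1)]) (.done))))))))) (.alt (.leaf [(0, 1), (4, 1), (7,
    1), (19, 1), (21, 1), (23, 1), (25, 1), (52, 1), (59, 1), (62, 1)]) (.alt (.leaf [(0, 4),
    (1, 1), (7, 5), (15, 1), (19, 5), (21, 4), (23, 4), (25, 4), (27, 4), (29, 6), (31, 2), (35,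
    1), (43, 1), (59, 2), (61, 1), (62, 3), (64, 2)]) (.alt (.leaf [(0, 2), (7, 1), (19, 1),
    (29, 2), (31, 1), (43, 1), (62, 1), (67, 1)]) (.alt (.leaf [(0, 2), (1, 1), (7, 3), (15, 1),
    (19, 3), (21, 2), (23, 1), (25, 1), (27, 1), (29, 2), (31, 1), (35, 1), (41, 1), (44, 1),
    (59, 1), (62, 1), (66, 1)]) (.alt (.leaf [(3, 2), (6, 1), (7, 1), (12, 2), (20, 1), (24, 2),
    (26, 1), (28, 1), (34, 1), (36, 1), (40, 1), (48, 1), (54, 1), (69, 1)]) (.done)))))))))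
    (.alt (.leaf [(0, 1), (2, 1), (6, 6), (14, 1), (18, 6), (20, 4), (22, 4), (24, 4), (26, 4),
    (28, 3), (34, 2), (42, 2), (55, 1), (60, 1), (61, 2)]) (.alt (.leaf [(0, 1), (6, 5), (14,
    1), (18, 5), (20, 2), (22, 2), (24, 2), (26, 2), (28, 2), (34, 1), (42, 3), (61, 2)]) (.alt
    (.leaf [(0, 5), (2, 1), (6, 16), (14, 5), (18, 16), (20, 14), (22, 10), (24, 10), (26, 10),
    (28, 7), (34, 6), (40, 2), (46, 4), (55, 3), (60, 2), (61, 5)]) (.alt (.leaf [(3, 2), (5,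
    1), (6, 1), (7, 2), (11, 3), (23, 3), (25, 3), (27, 3), (29, 3), (31, 3), (33, 2), (39, 2),
    (60, 2), (65, 2)]) (.done))))))))) (.done)))))) (.alt (.leaf [(0, 4), (14, 4), (16, 4), (18,
    4), (20, 4), (22, 4), (24, 4), (26, 4), (57, 3), (58, 1), (67, 2), (69, 6)]) (.alt (.leaf
    [(0, 2), (4, 6), (14, 2), (16, 8), (18, 4), (20, 4), (22, 4), (24, 4), (26, 4), (28, 2),
    (40, 4), (59, 2), (61, 1), (62, 1)]) (.alt (.leaf [(0, 1), (4, 2), (16, 2), (18, 2), (20,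
    1), (22, 1), (24, 1), (26, 1), (32, 1), (44, 1), (59, 1)]) (.alt (.leaf [(3, 2), (8, 4),
    (27, 4), (29, 4), (31, 2), (33, 2), (59, 2), (68, 1), (69, 1)]) (.done))))))))) (.alt (.leaf
    [(0, 2), (1, 1), (3, 2), (15, 2), (17, 2), (19, 2), (21, 2), (23, 3), (25, 1), (27, 1), (55,
    2), (58, 2), (61, 1)]) (.alt (.leaf [(0, 2), (3, 1), (15, 1), (27, 1), (39, 1), (58, 1),
    (62, 1)]) (.alt (.leaf [(0, 2), (3, 2), (15, 2), (17, 2), (19, 1), (21, 1), (23, 1), (27,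
    1), (43, 1), (55, 1), (58, 1), (63, 1)]) (.alt (.leaf [(1, 2), (17, 6), (19, 9), (21, 8),
    (31, 1)]) (.done))))))))) (.alt (.leaf [(0, 1), (1, 1), (2, 1), (14, 1), (16, 1), (18, 1),
    (20, 2), (22, 3), (24, 2), (54, 1), (56, 1), (57, 1)]) (.alt (.leaf [(0, 1), (2, 1), (14,
    1), (22, 1), (24, 1), (38, 1), (57, 1)]) (.alt (.leaf [(0, 1), (2, 2), (14, 2), (16, 2),
    (18, 1), (20, 1), (22, 2), (24, 1), (42, 1), (54, 1), (57, 1)]) (.done)))))) (.alt (.leaf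
    [(0, 1), (1, 1), (13, 1), (15, 1), (19, 1), (21, 1), (23, 1), (41, 1), (56, 1)]) (.alt
    (.leaf [(0, 1), (1, 2), (13, 2), (15, 1), (17, 1), (19, 2), (21, 2), (23, 1), (37, 1), (53,
    1), (56, 1)]) (.done)))))) (.alt (.leaf [(0, 3), (12, 3), (14, 3), (16, 3), (18, 3), (20,
    3), (22, 2), (51, 1), (56, 2), (64, 1), (66, 1)]) (.done)))))

/-- The eight classes. -/
def D8.T : ℕ → Tree
  | 0 => D8.T0
  | 1 => D8.T1
  | 2 => D8.T2
  | 3 => D8.T3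
  | 4 => D8.T4
  | 5 => D8.T5
  | 6 => D8.T6
  | 7 => D8.T7
  | _ => .done

theorem D8.chk : checkCls D8.D 11 [(4, 2, 3)] D8.T = true := by decide +kernel

/-- Type D, `z_8 = z_7 + z_6`: `M_9 < M_8 + M_4`. -/
def D9.D : Data :=
  ⟨[none, none, none, some [1, 1, -1], some [0, 0, 1], some [1, 0, 0], some [1, 1, 0], some [1, 0,
    1], some [1, 1, 1], some [2, 1, 1], some [2, 1, 2], some [4, 2, 3], none],
    sup, stdExt ++ [⟨true, [(1, 11), (1, 7), (-1, 12)], [], [], []⟩], []⟩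

/-- Class (0, 0, 0). -/
def D9.T0 : Tree :=
  .split 4 [] (.alt (.leaf [(0, 3), (12, 3), (14, 1), (16, 1), (18, 1), (20, 1), (22, 1), (24, 1),
    (36, 2), (59, 1), (71, 2)]) (.alt (.leaf [(0, 3), (12, 3), (14, 3), (16, 1), (18, 1), (20,
    1), (22, 1), (24, 1), (39, 2), (60, 1), (69, 2)]) (.alt (.split 10 [0, 0, 0, 1] (.alt (.leaf
    [(0, 2), (10, 5), (12, 8), (14, 7), (78, 1)]) (.alt (.leaf [(0, 2), (10, 21), (12, 33), (14,
    27), (26, 1)]) (.alt (.leaf [(0, 4), (1, 1), (13, 1), (15, 1), (17, 1), (19, 1), (21, 1),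
    (23, 1), (25, 3), (27, 2), (58, 2), (63, 1), (64, 2)]) (.alt (.leaf [(0, 4), (1, 1), (13,
    1), (15, 1), (17, 1), (19, 1), (21, 1), (23, 1), (25, 3), (27, 2), (58, 2), (63, 1), (65,
    2)]) (.alt (.leaf [(0, 4), (1, 1), (13, 1), (15, 1), (17, 1), (19, 1), (21, 1), (23, 1),
    (25, 3), (27, 2), (58, 2), (63, 1), (66, 2)]) (.alt (.leaf [(0, 4), (1, 1), (13, 1), (15,
    1), (17, 1), (19, 1), (21, 1), (23, 1), (25, 3), (27, 2), (58, 2), (63, 1), (67, 2)]) (.alt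
    (.leaf [(1, 2), (15, 7), (17, 11), (19, 9), (31, 1)]) (.done))))))))) (.alt (.leaf [(0, 3),
    (12, 3), (14, 3), (16, 3), (18, 3), (20, 3), (22, 3), (24, 3), (59, 1), (60, 1), (62, 1),
    (70, 2), (72, 2)]) (.done)))))

/-- Class (1, 0, 0). -/
def D9.T1 : Tree :=
  .split 4 [] (.alt (.leaf [(0, 3), (12, 3), (14, 1), (16, 1), (18, 1), (20, 1), (22, 1), (24, 1),
    (36, 2), (59, 1), (71, 2)]) (.alt (.leaf [(0, 3), (12, 3), (14, 3), (16, 1), (18, 1), (20,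
    1), (22, 1), (24, 1), (39, 2), (60, 1), (69, 2)]) (.alt (.split 7 [] (.alt (.leaf [(0, 3),
    (19, 3), (21, 3), (23, 3), (25, 3), (60, 2), (61, 1), (70, 1), (72, 2)]) (.alt (.split 3 [0,
    1, -1, 0] (.alt (.leaf [(0, 1), (11, 2), (13, 2), (15, 1)]) (.alt (.leaf [(0, 1), (15, 1)])
    (.alt (.split 6 [] (.alt (.split 9 [] (.alt (.leaf [(0, 1), (2, 1), (4, 3), (16, 3), (18,
    2), (26, 1), (34, 1), (42, 1), (43, 2), (61, 1)]) (.alt (.leaf [(0, 5), (2, 1), (4, 4), (16,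
    4), (18, 1), (20, 1), (22, 1), (24, 1), (26, 6), (28, 3), (34, 1), (40, 2), (42, 1), (61,
    3), (64, 2), (66, 1)]) (.alt (.leaf [(0, 2), (4, 1), (16, 1), (18, 1), (20, 1), (22, 1),
    (24, 1), (26, 3), (28, 3), (63, 1), (64, 1), (65, 1)]) (.alt (.split 2 [0, 1, 0, 0] (.alt
    (.leaf [(0, 1), (16, 1)]) (.alt (.leaf [(0, 1), (16, 1), (18, 2)]) (.alt (.split 6 [2, 1, 1,
    -1] (.alt (.leaf [(0, 2), (15, 6), (17, 9), (19, 6), (31, 1)]) (.alt (.leaf [(0, 2), (83,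
    1)]) (.alt (.leaf [(0, 2), (1, 1), (2, 1), (6, 2), (14, 1), (18, 2), (20, 1), (22, 2), (24,
    2), (28, 1), (30, 1), (32, 1), (36, 1), (44, 1), (45, 1), (53, 2), (70, 1)]) (.alt (.leaf
    [(0, 14), (1, 3), (14, 3), (16, 2), (18, 2), (20, 2), (22, 16), (24, 16), (26, 16), (28,
    16), (30, 16), (32, 7), (34, 1), (65, 2), (66, 7), (69, 7)]) (.alt (.leaf [(0, 2), (6, 1),
    (18, 1), (22, 2), (24, 2), (26, 2), (28, 2), (30, 2), (32, 1), (44, 1), (67, 1), (72, 1)])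
    (.alt (.leaf [(0, 4), (6, 1), (18, 1), (20, 1), (22, 3), (24, 3), (26, 3), (28, 3), (30, 3),
    (32, 2), (48, 2), (68, 1), (71, 2)]) (.alt (.leaf [(3, 2), (6, 1), (7, 1), (8, 1), (11, 2),
    (19, 1), (23, 2), (25, 1), (27, 2), (33, 1), (35, 1), (37, 1), (41, 1), (49, 1), (55, 2),
    (74, 1)]) (.done))))))))) (.alt (.leaf [(0, 10), (3, 14), (13, 10), (15, 16), (17, 16), (19,
    16), (21, 16), (23, 16), (25, 16), (27, 16), (29, 16), (32, 8), (64, 7), (65, 9)]) (.alt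
    (.leaf [(0, 2), (5, 3), (13, 2), (15, 2), (17, 5), (19, 1), (21, 1), (23, 1), (25, 1), (27,
    1), (29, 1), (43, 4), (66, 1)]) (.alt (.leaf [(0, 2), (5, 5), (13, 2), (17, 5), (19, 5),
    (21, 3), (23, 3), (25, 3), (27, 3), (29, 3), (35, 2), (47, 2), (64, 1), (65, 1), (66, 1)])
    (.alt (.leaf [(3, 20), (5, 6), (8, 28), (10, 21), (22, 21), (24, 21), (26, 21), (28, 21),
    (30, 21), (32, 21), (34, 21), (37, 16), (40, 12), (69, 7), (70, 11), (71, 3)])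
    (.done))))))))) (.done)))))) (.alt (.leaf [(0, 5), (1, 3), (13, 3), (15, 3), (17, 2), (19,
    7), (21, 7), (23, 7), (25, 7), (27, 7), (39, 1), (62, 3), (63, 4)]) (.alt (.leaf [(0, 2),
    (3, 3), (15, 3), (17, 1), (19, 3), (21, 3), (23, 3), (25, 3), (27, 3), (41, 2), (62, 1),
    (63, 1), (64, 1)]) (.alt (.leaf [(0, 1), (1, 1), (3, 1), (15, 1), (17, 1), (19, 1), (33, 1),
    (42, 1), (47, 1)]) (.done)))))) (.alt (.leaf [(0, 3), (1, 5), (12, 2), (14, 2), (16, 2),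
    (18, 2), (20, 7), (22, 7), (24, 7), (26, 7), (30, 1), (61, 3), (62, 4)]) (.alt (.leaf [(0,
    2), (2, 5), (12, 2), (14, 7), (16, 3), (18, 3), (20, 3), (22, 3), (24, 3), (26, 3), (40, 4),
    (61, 1), (62, 1), (63, 1)]) (.alt (.leaf [(0, 2), (2, 3), (14, 3), (16, 3), (18, 1), (20,
    1), (22, 1), (24, 1), (26, 1), (32, 2), (44, 2), (63, 1)]) (.alt (.leaf [(3, 12), (4, 4),
    (6, 30), (7, 6), (19, 6), (25, 30), (27, 22), (29, 22), (31, 22), (43, 6), (56, 8), (66, 7),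
    (67, 13), (69, 2)]) (.done))))))))) (.alt (.leaf [(0, 1), (1, 1), (13, 1), (15, 1), (19, 1),
    (21, 1), (23, 1), (43, 1), (58, 1)]) (.alt (.leaf [(0, 2), (1, 2), (13, 2), (19, 2), (21,
    2), (23, 2), (25, 2), (39, 2), (60, 1), (61, 1)]) (.done)))))) (.alt (.leaf [(0, 3), (12,
    3), (14, 3), (16, 3), (18, 3), (20, 3), (22, 3), (24, 3), (59, 1), (60, 1), (62, 1), (70,
    2), (72, 2)]) (.done)))))

/-- Class (0, 1, 0). -/
def D9.T2 : Tree :=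
  .split 4 [] (.alt (.leaf [(0, 3), (12, 3), (14, 1), (16, 1), (18, 1), (20, 1), (22, 1), (24, 1),
    (36, 2), (59, 1), (71, 2)]) (.alt (.leaf [(0, 3), (12, 3), (14, 3), (16, 1), (18, 1), (20,
    1), (22, 1), (24, 1), (39, 2), (60, 1), (69, 2)]) (.alt (.split 7 [] (.alt (.leaf [(0, 3),
    (19, 3), (21, 3), (23, 3), (25, 3), (60, 2), (61, 1), (70, 1), (72, 2)]) (.alt (.split 8 []
    (.alt (.split 3 [0, 1, -1, 0] (.alt (.leaf [(0, 1), (12, 2), (14, 2), (16, 1)]) (.alt (.leaf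
    [(0, 1), (16, 1)]) (.alt (.split 9 [] (.alt (.leaf [(0, 1), (1, 1), (4, 3), (16, 3), (18,
    2), (26, 1), (34, 1), (42, 1), (43, 2), (61, 1)]) (.alt (.leaf [(0, 3), (1, 1), (4, 3), (16,
    3), (18, 2), (20, 2), (22, 2), (26, 3), (28, 2), (34, 1), (42, 1), (51, 2), (61, 1), (64,
    2)]) (.alt (.leaf [(0, 2), (4, 1), (16, 1), (18, 1), (20, 1), (22, 1), (24, 1), (26, 3),
    (28, 3), (63, 1), (64, 1), (65, 1)]) (.alt (.split 2 [0, 1, 0, 0] (.alt (.leaf [(0, 1), (16,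
    1)]) (.alt (.leaf [(0, 1), (16, 1), (18, 2)]) (.alt (.split 10 [1, 0, 1, 1] (.alt (.leaf
    [(0, 2), (15, 1), (17, 2), (19, 2), (83, 1)]) (.alt (.leaf [(0, 4), (17, 3), (19, 14), (31,
    27), (83, 25)]) (.alt (.leaf [(0, 2), (1, 1), (6, 3), (14, 1), (18, 3), (20, 2), (22, 2),
    (24, 2), (30, 1), (32, 1), (36, 1), (44, 1), (53, 2), (63, 1), (69, 1)]) (.alt (.leaf [(0,
    6), (1, 1), (6, 3), (14, 1), (18, 3), (20, 2), (30, 5), (32, 3), (36, 1), (44, 1), (45, 2),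
    (63, 1), (66, 2), (70, 3)]) (.alt (.leaf [(0, 2), (30, 1), (32, 1), (63, 1), (71, 1)]) (.alt
    (.leaf [(0, 8), (1, 4), (6, 12), (14, 4), (18, 12), (20, 8), (22, 6), (24, 6), (30, 8), (32,
    6), (36, 4), (44, 4), (45, 2), (53, 6), (66, 2), (69, 1), (70, 1), (72, 4)]) (.alt (.leaf
    [(1, 4), (22, 1), (24, 6), (36, 13), (88, 11)]) (.done))))))))) (.alt (.leaf [(0, 10), (2,
    6), (13, 10), (15, 16), (17, 16), (19, 16), (21, 16), (23, 16), (25, 16), (27, 16), (29,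
    16), (64, 7), (65, 9), (74, 8)]) (.alt (.leaf [(0, 4), (1, 1), (5, 4), (13, 4), (15, 4),
    (17, 8), (19, 1), (27, 1), (29, 1), (43, 7), (46, 1), (66, 1)]) (.alt (.leaf [(0, 2), (5,
    3), (13, 2), (17, 3), (19, 3), (21, 3), (23, 3), (25, 3), (27, 3), (29, 3), (35, 2), (64,
    1), (65, 1), (66, 1), (81, 2)]) (.alt (.leaf [(3, 3), (7, 1), (8, 4), (20, 1), (22, 1), (24,
    1), (26, 1), (28, 1), (30, 5), (32, 5), (34, 5), (69, 3), (70, 2)]) (.done)))))))))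
    (.done)))))) (.alt (.leaf [(0, 3), (2, 5), (13, 2), (15, 2), (17, 2), (19, 2), (21, 7), (23,
    7), (25, 7), (27, 7), (31, 1), (62, 3), (63, 4)]) (.alt (.leaf [(0, 2), (3, 5), (13, 2),
    (15, 7), (17, 3), (19, 3), (21, 3), (23, 3), (25, 3), (27, 3), (41, 4), (62, 1), (63, 1),
    (64, 1)]) (.alt (.leaf [(0, 2), (3, 1), (15, 1), (17, 1), (19, 1), (21, 1), (23, 1), (25,
    1), (27, 1), (33, 2), (64, 1), (79, 2)]) (.alt (.leaf [(3, 12), (4, 4), (7, 30), (8, 6),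
    (20, 6), (26, 30), (28, 22), (30, 22), (32, 22), (44, 6), (57, 8), (67, 7), (68, 13), (70,
    2)]) (.done))))))))) (.alt (.leaf [(0, 2), (1, 1), (20, 1), (22, 3), (24, 3), (26, 3), (61,
    1), (62, 2), (71, 1)]) (.alt (.leaf [(0, 1), (2, 1), (14, 1), (22, 1), (24, 1), (40, 1),
    (59, 1)]) (.alt (.leaf [(0, 2), (22, 2), (24, 2), (26, 2), (61, 1), (62, 1), (78, 2)])
    (.done)))))) (.alt (.leaf [(0, 1), (19, 1), (21, 1), (23, 1), (58, 1), (77, 1)]) (.alt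
    (.leaf [(0, 2), (1, 2), (13, 2), (19, 2), (21, 2), (23, 2), (25, 2), (39, 2), (60, 1), (61,
    1)]) (.done)))))) (.alt (.leaf [(0, 3), (12, 3), (14, 3), (16, 3), (18, 3), (20, 3), (22,
    3), (24, 3), (59, 1), (60, 1), (62, 1), (70, 2), (72, 2)]) (.done)))))

/-- Class (0, 0, 1). -/
def D9.T3 : Tree :=
  .split 4 [] (.alt (.leaf [(0, 3), (12, 3), (14, 1), (16, 1), (18, 1), (20, 1), (22, 1), (24, 1),
    (36, 2), (59, 1), (71, 2)]) (.alt (.leaf [(0, 3), (12, 3), (14, 3), (16, 1), (18, 1), (20,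
    1), (22, 1), (24, 1), (39, 2), (60, 1), (69, 2)]) (.alt (.split 7 [] (.alt (.leaf [(0, 3),
    (19, 3), (21, 3), (23, 3), (25, 3), (60, 2), (61, 1), (70, 1), (72, 2)]) (.alt (.split 3 [0,
    1, -1, 0] (.alt (.leaf [(0, 2), (11, 2), (13, 1), (27, 1), (79, 1)]) (.alt (.leaf [(0, 1),
    (15, 1)]) (.alt (.split 9 [] (.alt (.leaf [(0, 1), (1, 1), (3, 3), (15, 3), (17, 2), (25,
    1), (33, 1), (41, 1), (42, 2), (60, 1)]) (.alt (.leaf [(0, 3), (1, 1), (3, 3), (15, 3), (17,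
    2), (19, 2), (21, 2), (25, 3), (27, 2), (33, 1), (41, 1), (50, 2), (60, 1), (63, 2)]) (.alt
    (.leaf [(0, 2), (3, 1), (15, 1), (17, 1), (19, 1), (21, 1), (23, 1), (25, 3), (27, 3), (62,
    1), (63, 1), (64, 1)]) (.alt (.split 11 [2, 1, 1, 1] (.alt (.leaf [(0, 2), (29, 1)]) (.alt
    (.leaf [(0, 2), (15, 2), (17, 8), (29, 17), (81, 14)]) (.alt (.leaf [(0, 2), (30, 1), (63,
    1), (67, 1)]) (.alt (.leaf [(0, 2), (30, 1), (64, 1), (68, 1)]) (.alt (.leaf [(0, 4), (1,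
    2), (26, 2), (30, 4), (61, 2), (67, 1), (68, 1), (69, 2)]) (.alt (.leaf [(0, 2), (30, 1),
    (66, 1), (70, 1)]) (.alt (.leaf [(1, 2), (20, 1), (22, 4), (34, 8), (86, 7)])
    (.done))))))))) (.done)))))) (.alt (.leaf [(0, 6), (2, 15), (14, 15), (16, 9), (18, 9), (20,
    9), (22, 9), (24, 9), (26, 9), (32, 6), (40, 6), (61, 4), (62, 2), (63, 3), (71, 2), (73,
    10)]) (.alt (.leaf [(0, 2), (2, 10), (14, 10), (16, 4), (18, 4), (20, 4), (22, 4), (24, 4),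
    (26, 4), (32, 2), (40, 6), (61, 1), (62, 1), (63, 2)]) (.alt (.leaf [(0, 2), (2, 3), (14,
    3), (16, 3), (18, 1), (20, 1), (22, 1), (24, 1), (26, 1), (32, 2), (44, 2), (63, 1)]) (.alt
    (.leaf [(3, 12), (4, 4), (6, 30), (7, 6), (19, 6), (25, 30), (27, 22), (29, 22), (31, 22),
    (43, 6), (56, 8), (66, 7), (67, 13), (69, 2)]) (.done))))))))) (.alt (.leaf [(0, 1), (1, 1),
    (13, 1), (15, 1), (19, 1), (21, 1), (23, 1), (43, 1), (58, 1)]) (.alt (.leaf [(0, 2), (1,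
    2), (13, 2), (19, 2), (21, 2), (23, 2), (25, 2), (39, 2), (60, 1), (61, 1)]) (.done))))))
    (.alt (.leaf [(0, 3), (12, 3), (14, 3), (16, 3), (18, 3), (20, 3), (22, 3), (24, 3), (59,
    1), (60, 1), (62, 1), (70, 2), (72, 2)]) (.done)))))

/-- Class (1, 1, 0). -/
def D9.T4 : Tree :=
  .split 4 [] (.alt (.leaf [(0, 3), (12, 3), (14, 1), (16, 1), (18, 1), (20, 1), (22, 1), (24, 1),
    (36, 2), (59, 1), (71, 2)]) (.alt (.leaf [(0, 3), (12, 3), (14, 3), (16, 1), (18, 1), (20,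
    1), (22, 1), (24, 1), (39, 2), (60, 1), (69, 2)]) (.alt (.split 7 [] (.alt (.leaf [(0, 3),
    (19, 3), (21, 3), (23, 3), (25, 3), (60, 2), (61, 1), (70, 1), (72, 2)]) (.alt (.split 3 [0,
    1, -1, 0] (.alt (.leaf [(0, 1), (11, 2), (13, 2), (15, 1)]) (.alt (.leaf [(0, 1), (15, 1)])
    (.alt (.split 6 [] (.alt (.split 9 [] (.alt (.leaf [(0, 1), (2, 1), (4, 3), (16, 3), (18,
    2), (26, 1), (34, 1), (42, 1), (43, 2), (61, 1)]) (.alt (.leaf [(0, 5), (2, 1), (4, 4), (16,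
    4), (18, 1), (20, 1), (22, 1), (24, 1), (26, 6), (28, 3), (34, 1), (40, 2), (42, 1), (61,
    3), (64, 2), (66, 1)]) (.alt (.leaf [(0, 2), (4, 1), (16, 1), (18, 1), (20, 1), (22, 1),
    (24, 1), (26, 3), (28, 3), (63, 1), (64, 1), (65, 1)]) (.alt (.split 2 [0, 1, 0, 0] (.alt
    (.leaf [(0, 1), (16, 1)]) (.alt (.leaf [(0, 1), (16, 1), (18, 2)]) (.alt (.split 8 [1, 1, 1,
    -1] (.alt (.leaf [(0, 2), (15, 10), (17, 17), (19, 13), (31, 1)]) (.alt (.leaf [(0, 2), (19,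
    1), (83, 1)]) (.alt (.leaf [(0, 2), (3, 1), (22, 1), (24, 1), (26, 1), (28, 1), (30, 1),
    (32, 1), (53, 2), (70, 1)]) (.alt (.leaf [(0, 28), (1, 12), (14, 12), (16, 2), (18, 2), (20,
    2), (22, 2), (24, 2), (26, 30), (28, 30), (30, 30), (32, 14), (33, 10), (65, 5), (66, 11),
    (69, 14)]) (.alt (.split 7 [2, 1, 1, -1] (.alt (.leaf [(0, 2), (16, 6), (18, 9), (20, 9),
    (32, 1)]) (.alt (.leaf [(0, 2), (20, 1), (84, 1)]) (.alt (.leaf [(0, 28), (2, 8), (15, 8),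
    (17, 6), (19, 6), (21, 6), (23, 6), (25, 34), (27, 34), (29, 34), (31, 34), (33, 14), (34,
    2), (66, 15), (67, 5), (71, 14)]) (.alt (.leaf [(0, 2), (4, 1), (23, 1), (25, 1), (27, 1),
    (29, 1), (31, 1), (33, 1), (51, 2), (70, 1)]) (.alt (.leaf [(0, 2), (2, 1), (7, 2), (15, 1),
    (19, 2), (21, 1), (25, 2), (27, 2), (29, 2), (31, 2), (33, 1), (37, 1), (43, 1), (46, 1),
    (68, 1), (73, 1)]) (.alt (.leaf [(0, 9), (1, 3), (2, 4), (7, 9), (15, 4), (19, 9), (25, 9),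
    (27, 5), (29, 5), (31, 5), (33, 3), (34, 1), (37, 3), (45, 9), (54, 7), (67, 2), (72, 3)])
    (.alt (.leaf [(2, 2), (7, 1), (8, 1), (11, 1), (12, 2), (20, 1), (24, 2), (26, 1), (30, 1),
    (34, 1), (36, 1), (38, 1), (42, 1), (50, 1), (51, 1), (59, 1), (76, 1)]) (.done)))))))))
    (.alt (.leaf [(0, 2), (6, 2), (18, 2), (20, 2), (22, 1), (24, 1), (26, 3), (28, 3), (30, 3),
    (32, 1), (48, 1), (65, 1), (66, 1), (71, 1)]) (.alt (.leaf [(5, 2), (11, 2), (23, 2), (25,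
    2), (27, 1), (29, 1), (31, 1), (33, 1), (35, 1), (37, 1), (53, 1), (76, 1)]) (.done)))))))))
    (.alt (.leaf [(0, 10), (3, 14), (13, 10), (15, 16), (17, 16), (19, 16), (21, 16), (23, 16),
    (25, 16), (27, 16), (29, 16), (32, 8), (64, 7), (65, 9)]) (.alt (.leaf [(0, 2), (5, 3), (13,
    2), (15, 2), (17, 5), (19, 1), (21, 1), (23, 1), (25, 1), (27, 1), (29, 1), (43, 4), (66,
    1)]) (.alt (.leaf [(0, 2), (5, 5), (13, 2), (17, 5), (19, 5), (21, 3), (23, 3), (25, 3),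
    (27, 3), (29, 3), (35, 2), (47, 2), (64, 1), (65, 1), (66, 1)]) (.alt (.leaf [(3, 20), (5,
    6), (8, 28), (10, 21), (22, 21), (24, 21), (26, 21), (28, 21), (30, 21), (32, 21), (34, 21),
    (37, 16), (40, 12), (69, 7), (70, 11), (71, 3)]) (.done))))))))) (.done)))))) (.alt (.leaf
    [(0, 5), (1, 3), (13, 3), (15, 3), (17, 2), (19, 7), (21, 7), (23, 7), (25, 7), (27, 7),
    (39, 1), (62, 3), (63, 4)]) (.alt (.leaf [(0, 2), (3, 3), (15, 3), (17, 1), (19, 3), (21,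
    3), (23, 3), (25, 3), (27, 3), (41, 2), (62, 1), (63, 1), (64, 1)]) (.alt (.leaf [(0, 1),
    (1, 1), (3, 1), (15, 1), (17, 1), (19, 1), (33, 1), (42, 1), (47, 1)]) (.done)))))) (.alt
    (.leaf [(0, 3), (1, 5), (12, 2), (14, 2), (16, 2), (18, 2), (20, 7), (22, 7), (24, 7), (26,
    7), (30, 1), (61, 3), (62, 4)]) (.alt (.leaf [(0, 2), (2, 5), (12, 2), (14, 7), (16, 3),
    (18, 3), (20, 3), (22, 3), (24, 3), (26, 3), (40, 4), (61, 1), (62, 1), (63, 1)]) (.alt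
    (.leaf [(0, 2), (2, 3), (14, 3), (16, 3), (18, 1), (20, 1), (22, 1), (24, 1), (26, 1), (32,
    2), (44, 2), (63, 1)]) (.alt (.leaf [(3, 12), (4, 4), (6, 30), (7, 6), (19, 6), (25, 30),
    (27, 22), (29, 22), (31, 22), (43, 6), (56, 8), (66, 7), (67, 13), (69, 2)]) (.done)))))))))
    (.alt (.leaf [(0, 1), (1, 1), (13, 1), (15, 1), (19, 1), (21, 1), (23, 1), (43, 1), (58,
    1)]) (.alt (.leaf [(0, 2), (1, 2), (13, 2), (19, 2), (21, 2), (23, 2), (25, 2), (39, 2),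
    (60, 1), (61, 1)]) (.done)))))) (.alt (.leaf [(0, 3), (12, 3), (14, 3), (16, 3), (18, 3),
    (20, 3), (22, 3), (24, 3), (59, 1), (60, 1), (62, 1), (70, 2), (72, 2)]) (.done)))))

/-- Class (1, 0, 1). -/
def D9.T5 : Tree :=
  .split 4 [] (.alt (.leaf [(0, 3), (12, 3), (14, 1), (16, 1), (18, 1), (20, 1), (22, 1), (24, 1),
    (36, 2), (59, 1), (71, 2)]) (.alt (.leaf [(0, 3), (12, 3), (14, 3), (16, 1), (18, 1), (20,
    1), (22, 1), (24, 1), (39, 2), (60, 1), (69, 2)]) (.alt (.split 7 [] (.alt (.leaf [(0, 3),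
    (19, 3), (21, 3), (23, 3), (25, 3), (60, 2), (61, 1), (70, 1), (72, 2)]) (.alt (.split 10
    [0, 0, 0, 1] (.alt (.leaf [(0, 2), (11, 3), (13, 5), (15, 5), (79, 1)]) (.alt (.leaf [(0,
    2), (11, 23), (13, 36), (15, 29), (27, 1)]) (.alt (.leaf [(0, 2), (1, 1), (2, 1), (14, 1),
    (16, 1), (18, 1), (20, 2), (22, 2), (24, 2), (26, 2), (28, 1), (59, 2), (64, 1), (65, 1)])
    (.alt (.split 3 [0, 1, -1, 0] (.alt (.leaf [(0, 1), (12, 2), (14, 2), (16, 1)]) (.alt (.leaf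
    [(0, 1), (16, 1)]) (.alt (.split 9 [] (.alt (.leaf [(0, 1), (1, 1), (4, 3), (16, 3), (18,
    2), (26, 1), (34, 1), (42, 1), (43, 2), (61, 1)]) (.alt (.leaf [(0, 5), (1, 1), (4, 4), (16,
    4), (18, 1), (20, 1), (22, 1), (24, 1), (26, 6), (28, 3), (34, 1), (40, 2), (42, 1), (61,
    3), (64, 2), (66, 1)]) (.alt (.leaf [(0, 2), (4, 1), (16, 1), (18, 1), (20, 1), (22, 1),
    (24, 1), (26, 3), (28, 3), (63, 1), (64, 1), (65, 1)]) (.alt (.split 2 [0, 1, 0, 0] (.alt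
    (.leaf [(0, 1), (16, 1)]) (.alt (.leaf [(0, 1), (16, 1), (18, 2)]) (.alt (.split 9 [1, 0, 1,
    -1] (.alt (.leaf [(0, 2), (15, 13), (17, 20), (19, 17), (31, 1)]) (.alt (.leaf [(0, 2), (15,
    1), (17, 1), (19, 1), (83, 1)]) (.alt (.leaf [(0, 28), (1, 6), (14, 6), (16, 4), (18, 4),
    (20, 4), (22, 4), (24, 4), (26, 4), (28, 32), (30, 32), (32, 14), (34, 2), (65, 11), (66,
    7), (70, 14)]) (.alt (.leaf [(0, 1), (4, 1), (6, 1), (18, 1), (20, 1), (22, 1), (50, 1),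
    (60, 1), (63, 1)]) (.alt (.leaf [(0, 2), (1, 1), (6, 2), (14, 1), (18, 2), (20, 2), (22, 2),
    (24, 1), (28, 2), (30, 1), (32, 1), (36, 1), (50, 1), (53, 1), (63, 1), (72, 1)]) (.alt
    (.leaf [(0, 22), (1, 4), (6, 21), (14, 4), (18, 21), (20, 7), (22, 7), (24, 7), (28, 17),
    (30, 17), (32, 11), (33, 1), (36, 3), (44, 14), (53, 7), (60, 5), (66, 2), (67, 4), (71,
    11)]) (.alt (.leaf [(2, 2), (6, 1), (7, 1), (11, 2), (19, 1), (23, 2), (25, 1), (27, 1),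
    (29, 1), (33, 1), (35, 1), (37, 1), (41, 1), (49, 1), (58, 1), (75, 1)]) (.done)))))))))
    (.alt (.leaf [(0, 10), (2, 14), (13, 10), (15, 16), (17, 16), (19, 16), (21, 16), (23, 16),
    (25, 16), (27, 16), (29, 16), (32, 8), (64, 7), (65, 9)]) (.alt (.leaf [(0, 2), (5, 3), (13,
    2), (15, 2), (17, 5), (19, 1), (21, 1), (23, 1), (25, 1), (27, 1), (29, 1), (43, 4), (66,
    1)]) (.alt (.leaf [(0, 2), (5, 5), (13, 2), (17, 5), (19, 5), (21, 3), (23, 3), (25, 3),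
    (27, 3), (29, 3), (35, 2), (47, 2), (64, 1), (65, 1), (66, 1)]) (.alt (.leaf [(3, 20), (5,
    6), (7, 28), (10, 21), (22, 21), (24, 21), (26, 21), (28, 21), (30, 21), (32, 21), (34, 21),
    (37, 16), (40, 12), (69, 7), (70, 11), (71, 3)]) (.done))))))))) (.done)))))) (.alt (.leaf
    [(0, 3), (2, 5), (13, 2), (15, 2), (17, 2), (19, 2), (21, 7), (23, 7), (25, 7), (27, 7),
    (31, 1), (62, 3), (63, 4)]) (.alt (.leaf [(0, 2), (3, 5), (13, 2), (15, 7), (17, 3), (19,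
    3), (21, 3), (23, 3), (25, 3), (27, 3), (41, 4), (62, 1), (63, 1), (64, 1)]) (.alt (.leaf
    [(0, 2), (3, 3), (15, 3), (17, 3), (19, 1), (21, 1), (23, 1), (25, 1), (27, 1), (33, 2),
    (45, 2), (64, 1)]) (.alt (.leaf [(3, 12), (4, 4), (7, 30), (8, 6), (20, 6), (26, 30), (28,
    22), (30, 22), (32, 22), (44, 6), (57, 8), (67, 7), (68, 13), (70, 2)]) (.done)))))))))
    (.alt (.leaf [(0, 2), (2, 1), (14, 1), (16, 1), (26, 1), (28, 1), (44, 1), (59, 1), (67,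
    1)]) (.alt (.leaf [(0, 4), (2, 3), (14, 3), (16, 1), (18, 1), (20, 1), (22, 1), (24, 1),
    (26, 3), (28, 2), (40, 2), (59, 2), (64, 1), (68, 2)]) (.alt (.leaf [(2, 2), (6, 1), (25,
    1), (27, 1), (29, 1), (31, 1), (33, 1), (70, 1)]) (.done))))))))) (.alt (.leaf [(0, 1), (1,
    1), (13, 1), (15, 1), (19, 1), (21, 1), (23, 1), (43, 1), (58, 1)]) (.alt (.leaf [(0, 2),
    (1, 2), (13, 2), (19, 2), (21, 2), (23, 2), (25, 2), (39, 2), (60, 1), (61, 1)])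
    (.done)))))) (.alt (.leaf [(0, 3), (12, 3), (14, 3), (16, 3), (18, 3), (20, 3), (22, 3),
    (24, 3), (59, 1), (60, 1), (62, 1), (70, 2), (72, 2)]) (.done)))))

/-- Class (0, 1, 1). -/
def D9.T6 : Tree :=
  .split 4 [] (.alt (.leaf [(0, 3), (12, 3), (14, 1), (16, 1), (18, 1), (20, 1), (22, 1), (24, 1),
    (36, 2), (59, 1), (71, 2)]) (.alt (.leaf [(0, 3), (12, 3), (14, 3), (16, 1), (18, 1), (20,
    1), (22, 1), (24, 1), (39, 2), (60, 1), (69, 2)]) (.alt (.split 7 [] (.alt (.leaf [(0, 3),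
    (19, 3), (21, 3), (23, 3), (25, 3), (60, 2), (61, 1), (70, 1), (72, 2)]) (.alt (.split 3 [0,
    1, -1, 0] (.alt (.leaf [(0, 2), (11, 2), (13, 1), (27, 1), (79, 1)]) (.alt (.leaf [(0, 1),
    (15, 1)]) (.alt (.split 9 [] (.alt (.leaf [(0, 1), (1, 1), (3, 3), (15, 3), (17, 2), (25,
    1), (33, 1), (41, 1), (42, 2), (60, 1)]) (.alt (.leaf [(0, 3), (1, 1), (3, 3), (15, 3), (17,
    2), (19, 2), (21, 2), (25, 3), (27, 2), (33, 1), (41, 1), (50, 2), (60, 1), (63, 2)]) (.alt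
    (.leaf [(0, 2), (3, 1), (15, 1), (17, 1), (19, 1), (21, 1), (23, 1), (25, 3), (27, 3), (62,
    1), (63, 1), (64, 1)]) (.alt (.split 2 [0, 1, 0, 0] (.alt (.leaf [(0, 1), (15, 1)]) (.alt
    (.leaf [(0, 1), (15, 1), (17, 2)]) (.alt (.split 10 [1, 0, 0, 1] (.alt (.leaf [(0, 2), (18,
    1), (30, 1), (82, 2)]) (.alt (.leaf [(0, 2), (16, 2), (18, 7), (30, 13), (82, 12)]) (.alt
    (.leaf [(0, 12), (1, 2), (5, 6), (13, 2), (17, 6), (19, 5), (21, 1), (23, 1), (29, 9), (31,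
    6), (35, 2), (43, 1), (44, 4), (54, 1), (62, 3), (64, 2), (67, 1), (68, 6)]) (.alt (.leaf
    [(0, 6), (3, 1), (5, 3), (17, 3), (19, 2), (21, 2), (23, 2), (29, 5), (31, 3), (35, 1), (43,
    1), (52, 2), (62, 1), (65, 2), (69, 3)]) (.alt (.leaf [(0, 2), (1, 1), (5, 3), (13, 1), (17,
    3), (19, 2), (21, 1), (23, 1), (29, 1), (31, 1), (35, 1), (41, 1), (44, 1), (54, 1), (62,
    1), (70, 1)]) (.alt (.split 8 [1, 1, 1, -1] (.alt (.leaf [(0, 2), (17, 1), (19, 3), (31, 6),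
    (83, 5)]) (.alt (.leaf [(0, 2), (17, 1), (19, 1), (83, 1)]) (.alt (.leaf [(0, 16), (2, 4),
    (6, 10), (14, 4), (18, 10), (20, 6), (26, 14), (28, 14), (30, 14), (32, 8), (36, 4), (44,
    4), (45, 6), (53, 2), (65, 3), (66, 1), (67, 2), (70, 8)]) (.alt (.leaf [(0, 12), (4, 2),
    (6, 5), (18, 5), (20, 3), (22, 3), (24, 3), (26, 11), (28, 11), (30, 11), (32, 6), (36, 2),
    (44, 2), (53, 4), (66, 4), (67, 1), (69, 6)]) (.alt (.leaf [(0, 4), (6, 1), (18, 1), (20,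
    1), (22, 1), (24, 1), (26, 5), (28, 5), (30, 5), (32, 2), (65, 1), (66, 1), (67, 1), (72,
    2)]) (.alt (.leaf [(0, 9), (1, 7), (2, 10), (6, 21), (14, 10), (18, 21), (20, 11), (22, 6),
    (24, 6), (30, 7), (32, 1), (36, 10), (44, 10), (45, 5), (53, 15), (66, 5), (67, 1), (71,
    1)]) (.alt (.leaf [(0, 2), (24, 1), (36, 3), (88, 2)]) (.done))))))))) (.alt (.leaf [(4, 2),
    (7, 1), (32, 1), (34, 1), (36, 1), (75, 1)]) (.done))))))))) (.alt (.leaf [(0, 10), (2, 6),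
    (12, 10), (14, 16), (16, 16), (18, 16), (20, 16), (22, 16), (24, 16), (26, 16), (28, 16),
    (63, 7), (64, 9), (73, 8)]) (.alt (.leaf [(0, 2), (4, 3), (12, 2), (14, 2), (16, 5), (18,
    1), (20, 1), (22, 1), (24, 1), (26, 1), (28, 1), (42, 4), (65, 1)]) (.alt (.leaf [(0, 2),
    (4, 3), (12, 2), (16, 3), (18, 3), (20, 3), (22, 3), (24, 3), (26, 3), (28, 3), (34, 2),
    (63, 1), (64, 1), (65, 1), (80, 2)]) (.alt (.leaf [(3, 20), (5, 6), (7, 12), (9, 21), (21,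
    21), (23, 21), (25, 21), (27, 21), (29, 21), (31, 21), (33, 21), (39, 12), (68, 7), (69,
    11), (70, 3), (78, 16)]) (.done))))))))) (.done)))))) (.alt (.leaf [(0, 3), (1, 5), (12, 2),
    (14, 2), (16, 2), (18, 2), (20, 7), (22, 7), (24, 7), (26, 7), (30, 1), (61, 3), (62, 4)])
    (.alt (.leaf [(0, 2), (2, 5), (12, 2), (14, 7), (16, 3), (18, 3), (20, 3), (22, 3), (24, 3),
    (26, 3), (40, 4), (61, 1), (62, 1), (63, 1)]) (.alt (.leaf [(0, 2), (2, 1), (14, 1), (16,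
    1), (18, 1), (20, 1), (22, 1), (24, 1), (26, 1), (32, 2), (63, 1), (78, 2)]) (.alt (.leaf
    [(3, 12), (4, 4), (6, 30), (7, 6), (19, 6), (25, 30), (27, 22), (29, 22), (31, 22), (43, 6),
    (56, 8), (66, 7), (67, 13), (69, 2)]) (.done))))))))) (.alt (.leaf [(0, 1), (19, 1), (21,
    1), (23, 1), (58, 1), (77, 1)]) (.alt (.leaf [(0, 2), (1, 2), (13, 2), (19, 2), (21, 2),
    (23, 2), (25, 2), (39, 2), (60, 1), (61, 1)]) (.done)))))) (.alt (.leaf [(0, 3), (12, 3),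
    (14, 3), (16, 3), (18, 3), (20, 3), (22, 3), (24, 3), (59, 1), (60, 1), (62, 1), (70, 2),
    (72, 2)]) (.done)))))

/-- Class (1, 1, 1). -/
def D9.T7 : Tree :=
  .split 4 [] (.alt (.leaf [(0, 3), (12, 3), (14, 1), (16, 1), (18, 1), (20, 1), (22, 1), (24, 1),
    (36, 2), (59, 1), (71, 2)]) (.alt (.leaf [(0, 3), (12, 3), (14, 3), (16, 1), (18, 1), (20,
    1), (22, 1), (24, 1), (39, 2), (60, 1), (69, 2)]) (.alt (.split 7 [] (.alt (.leaf [(0, 3),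
    (19, 3), (21, 3), (23, 3), (25, 3), (60, 2), (61, 1), (70, 1), (72, 2)]) (.alt (.split 8 []
    (.alt (.split 10 [0, 0, 0, 1] (.alt (.leaf [(0, 4), (14, 1), (16, 2), (28, 3), (80, 5)])
    (.alt (.leaf [(0, 4), (14, 3), (16, 14), (28, 25), (80, 23)]) (.alt (.split 3 [0, 1, -1, 0]
    (.alt (.leaf [(0, 1), (13, 2), (15, 2), (17, 1)]) (.alt (.leaf [(0, 1), (17, 1)]) (.alt
    (.split 9 [] (.alt (.leaf [(0, 1), (1, 1), (5, 3), (17, 3), (19, 2), (27, 1), (35, 1), (43,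
    1), (44, 2), (62, 1)]) (.alt (.leaf [(0, 3), (1, 1), (5, 3), (17, 3), (19, 2), (21, 2), (23,
    2), (27, 3), (29, 2), (35, 1), (43, 1), (52, 2), (62, 1), (65, 2)]) (.alt (.leaf [(0, 2),
    (5, 1), (17, 1), (19, 1), (21, 1), (23, 1), (25, 1), (27, 3), (29, 3), (64, 1), (65, 1),
    (66, 1)]) (.alt (.split 2 [0, 1, 0, 0] (.alt (.leaf [(0, 1), (17, 1)]) (.alt (.leaf [(0, 1),
    (17, 1), (19, 2)]) (.alt (.split 9 [1, 1, 1, -1] (.alt (.leaf [(0, 4), (18, 1), (20, 6),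
    (32, 15), (84, 13)]) (.alt (.leaf [(0, 2), (16, 1), (18, 1), (20, 2), (84, 1)]) (.alt (.leaf
    [(0, 1), (4, 1), (7, 1), (19, 1), (21, 1), (23, 1), (25, 1), (54, 1), (61, 1), (64, 1)])
    (.alt (.leaf [(0, 28), (1, 8), (7, 15), (15, 8), (19, 15), (21, 9), (23, 9), (25, 9), (27,
    9), (29, 37), (31, 37), (33, 14), (34, 2), (37, 6), (45, 6), (66, 8), (67, 12), (68, 3),
    (70, 14)]) (.alt (.leaf [(0, 2), (7, 1), (19, 1), (29, 2), (31, 1), (33, 1), (45, 1), (64,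
    1), (73, 1)]) (.alt (.leaf [(0, 10), (1, 6), (7, 13), (15, 6), (19, 13), (21, 12), (23, 9),
    (25, 9), (29, 9), (31, 9), (33, 5), (37, 6), (45, 1), (46, 3), (54, 9), (61, 1), (67, 3),
    (68, 1), (72, 5)]) (.alt (.leaf [(3, 2), (6, 1), (7, 1), (12, 2), (20, 1), (24, 2), (26, 1),
    (28, 1), (34, 1), (36, 1), (38, 1), (42, 1), (50, 1), (56, 1), (75, 1)]) (.done)))))))))
    (.alt (.leaf [(0, 10), (2, 6), (6, 40), (14, 10), (18, 40), (20, 24), (22, 24), (24, 24),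
    (26, 24), (28, 24), (30, 24), (36, 16), (44, 16), (65, 7), (66, 9), (67, 8), (75, 8)]) (.alt
    (.leaf [(0, 2), (6, 3), (14, 2), (16, 2), (18, 5), (20, 1), (22, 1), (24, 1), (26, 1), (28,
    1), (30, 1), (44, 4), (67, 1)]) (.alt (.leaf [(0, 2), (6, 5), (14, 2), (18, 5), (20, 5),
    (22, 3), (24, 3), (26, 3), (28, 3), (30, 3), (36, 2), (48, 2), (65, 1), (66, 1), (67, 1)])
    (.alt (.leaf [(3, 20), (5, 6), (7, 12), (11, 21), (23, 21), (25, 21), (27, 21), (29, 21),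
    (31, 21), (33, 21), (35, 21), (41, 12), (70, 7), (71, 11), (72, 3), (80, 16)])
    (.done))))))))) (.done)))))) (.alt (.leaf [(0, 6), (4, 15), (16, 15), (18, 9), (20, 9), (22,
    9), (24, 9), (26, 9), (28, 9), (34, 6), (42, 6), (63, 4), (64, 2), (65, 3), (73, 2), (75,
    10)]) (.alt (.leaf [(0, 2), (4, 10), (16, 10), (18, 4), (20, 4), (22, 4), (24, 4), (26, 4),
    (28, 4), (34, 2), (42, 6), (63, 1), (64, 1), (65, 2)]) (.alt (.leaf [(0, 2), (4, 3), (16,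
    3), (18, 3), (20, 1), (22, 1), (24, 1), (26, 1), (28, 1), (34, 2), (46, 2), (65, 1)]) (.alt
    (.leaf [(3, 12), (4, 4), (8, 30), (9, 6), (21, 6), (27, 30), (29, 22), (31, 22), (33, 22),
    (45, 6), (58, 8), (68, 7), (69, 13), (71, 2)]) (.done))))))))) (.alt (.leaf [(0, 4), (2, 1),
    (21, 1), (23, 1), (25, 1), (27, 5), (29, 2), (62, 1), (63, 2), (67, 2), (72, 1)]) (.alt
    (.leaf [(0, 2), (3, 1), (15, 1), (27, 1), (29, 1), (41, 1), (60, 1), (68, 1)]) (.alt (.leaf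
    [(0, 4), (3, 2), (15, 2), (17, 2), (27, 4), (29, 2), (45, 2), (62, 1), (63, 1), (69, 2)])
    (.alt (.leaf [(3, 2), (6, 1), (28, 1), (30, 1), (32, 1), (34, 1), (72, 1)]) (.done)))))))))
    (.alt (.leaf [(0, 2), (1, 1), (20, 1), (22, 3), (24, 3), (26, 3), (61, 1), (62, 2), (71,
    1)]) (.alt (.leaf [(0, 1), (2, 1), (14, 1), (22, 1), (24, 1), (40, 1), (59, 1)]) (.alt
    (.leaf [(0, 2), (2, 2), (14, 2), (16, 2), (22, 2), (24, 2), (26, 2), (44, 2), (61, 1), (62,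
    1)]) (.done)))))) (.alt (.leaf [(0, 1), (1, 1), (13, 1), (15, 1), (19, 1), (21, 1), (23, 1),
    (43, 1), (58, 1)]) (.alt (.leaf [(0, 2), (1, 2), (13, 2), (19, 2), (21, 2), (23, 2), (25,
    2), (39, 2), (60, 1), (61, 1)]) (.done)))))) (.alt (.leaf [(0, 3), (12, 3), (14, 3), (16,
    3), (18, 3), (20, 3), (22, 3), (24, 3), (59, 1), (60, 1), (62, 1), (70, 2), (72, 2)])
    (.done)))))

/-- The eight classes. -/
def D9.T : ℕ → Tree
  | 0 => D9.T0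
  | 1 => D9.T1
  | 2 => D9.T2
  | 3 => D9.T3
  | 4 => D9.T4
  | 5 => D9.T5
  | 6 => D9.T6
  | 7 => D9.T7
  | _ => .done

theorem D9.chk : checkCls D9.D 12 [] D9.T = true := by decide +kernel

end Pool.Agent.Work.MP_7453a1_nt_sup
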