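import Pool.Agent.Work.MP_7453a1_nt_sup.Std

set_option autoImplicit false
set_option maxRecDepth 100000

/-! Certificates (the points z_{-1} and z_{-2}). -/

namespace Pool.Agent.Work.MP_7453a1_nt_sup

/-- Type D: `q(v) < M_{-1}`. -/
def DM.D : Data :=
  ⟨[none, none, none, some [1, 1, -1], some [0, 0, 1], some [1, 0, 0], some [1, 1, 0], some [1, 0,
    1], some [1, 1, 1]],
    sup, stdExt ++ [⟨true, [(1, 2)], [0, -1, 0], [], []⟩], []⟩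

/-- Class (0, 0, 0). -/
def DM.T0 : Tree :=
  .split 1 [0, 0, 0, 1] (.alt (.leaf [(0, 2), (13, 1), (57, 1)]) (.alt (.leaf [(0, 2), (13, 3),
    (57, 3)]) (.alt (.leaf [(0, 4), (6, 4), (8, 2), (10, 2), (12, 2), (14, 2), (16, 2), (18, 2),
    (19, 2), (43, 1), (44, 1)]) (.alt (.leaf [(0, 4), (6, 4), (8, 2), (10, 2), (12, 2), (14, 2),
    (16, 2), (18, 2), (20, 2), (43, 1), (44, 1)]) (.alt (.leaf [(0, 4), (6, 4), (8, 2), (10, 2),
    (12, 2), (14, 2), (16, 2), (18, 2), (21, 2), (43, 1), (44, 1)]) (.alt (.leaf [(0, 4), (6,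
    4), (8, 2), (10, 2), (12, 2), (14, 2), (16, 2), (18, 2), (22, 2), (43, 1), (44, 1)]) (.alt
    (.leaf [(1, 2), (18, 1), (62, 1)]) (.done))))))))

/-- Class (1, 0, 0). -/
def DM.T1 : Tree :=
  .split 4 [] (.alt (.leaf [(0, 1), (12, 1), (14, 1), (16, 1), (18, 1), (43, 1), (51, 1)]) (.alt
    (.leaf [(0, 1), (12, 1), (14, 1), (16, 1), (40, 1), (49, 1)]) (.alt (.split 3 [0, 1, -1, 0]
    (.alt (.leaf [(0, 1), (8, 2), (10, 2), (14, 1), (58, 2)]) (.alt (.leaf [(0, 1), (14, 1)])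
    (.alt (.split 1 [0, 1, 0, 0] (.alt (.leaf [(0, 1), (59, 1)]) (.alt (.leaf [(0, 1), (15, 2),
    (59, 1)]) (.alt (.split 2 [1, 0, 0, -1] (.alt (.split 3 [0, 0, 0, 1] (.alt (.leaf [(0, 1),
    (1, 1), (17, 1)]) (.alt (.leaf [(0, 2), (11, 4), (13, 3), (17, 4), (61, 5)]) (.alt (.leaf
    [(0, 4), (2, 2), (10, 2), (14, 3), (16, 3), (18, 3), (20, 3), (22, 3), (23, 2), (27, 1),
    (47, 2), (48, 1)]) (.alt (.split 6 [] (.alt (.split 6 [0, 1, 1, 1] (.alt (.leaf [(0, 1), (3,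
    1), (13, 1), (63, 1)]) (.alt (.leaf [(0, 2), (13, 10), (15, 7), (19, 10), (63, 11)]) (.alt
    (.leaf [(0, 1), (1, 1), (2, 1), (16, 1), (18, 1), (20, 1), (22, 3), (24, 2), (46, 1), (49,
    2)]) (.alt (.leaf [(0, 2), (2, 4), (4, 3), (5, 1), (12, 3), (16, 5), (18, 5), (20, 5), (22,
    7), (24, 2), (26, 3), (46, 5), (49, 2)]) (.alt (.split 1 [0, 1, -1, 1] (.alt (.leaf [(0, 1),
    (4, 1), (20, 1), (64, 1)]) (.alt (.split 2 [0, 1, -1, 1] (.alt (.leaf [(0, 1), (1, 1), (15,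
    1), (21, 2), (65, 2)]) (.alt (.split 3 [0, 1, -1, 1] (.alt (.leaf [(0, 1), (1, 3), (16, 4),
    (22, 6), (66, 5)]) (.alt (.leaf [(0, 2), (16, 2), (18, 1), (22, 4), (66, 3)]) (.alt (.leaf
    [(0, 2), (5, 2), (19, 3), (21, 3), (23, 3), (25, 3), (27, 1), (32, 1), (49, 2), (52, 1)])
    (.alt (.leaf [(0, 8), (7, 4), (8, 6), (15, 4), (19, 14), (21, 14), (23, 8), (25, 8), (27,
    8), (29, 4), (41, 6), (52, 5), (53, 3)]) (.alt (.leaf [(0, 2), (7, 1), (9, 3), (15, 1), (19,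
    2), (21, 5), (23, 5), (25, 5), (27, 3), (30, 1), (49, 1), (51, 1), (52, 1), (54, 2)]) (.alt
    (.leaf [(0, 1), (3, 1), (25, 1), (27, 1), (35, 1), (54, 1)]) (.alt (.leaf [(3, 2), (4, 2),
    (9, 3), (12, 2), (14, 4), (20, 2), (26, 4), (28, 3), (30, 6), (32, 5), (34, 1), (35, 1),
    (48, 1), (54, 1), (57, 3), (59, 2)]) (.done))))))))) (.alt (.leaf [(0, 1), (4, 3), (18, 3),
    (20, 3), (22, 3), (24, 3), (26, 1), (28, 1), (48, 2), (51, 1)]) (.alt (.leaf [(0, 1), (4,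
    1), (7, 2), (18, 3), (20, 3), (22, 3), (24, 3), (26, 1), (28, 1), (48, 2), (51, 1)]) (.alt
    (.leaf [(0, 4), (4, 4), (8, 6), (18, 3), (20, 9), (22, 9), (24, 9), (26, 5), (28, 2), (29,
    2), (32, 1), (48, 2), (50, 2), (51, 1), (53, 4)]) (.alt (.leaf [(0, 1), (2, 1), (3, 1), (4,
    2), (18, 1), (20, 1), (22, 1), (24, 3), (26, 2), (28, 1), (34, 1), (48, 1), (51, 1), (53,
    1)]) (.alt (.leaf [(3, 2), (4, 2), (8, 3), (11, 2), (13, 4), (19, 2), (25, 4), (27, 3), (29,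
    6), (31, 5), (33, 1), (34, 1), (47, 1), (53, 1), (56, 3), (58, 2)]) (.done))))))))) (.alt
    (.leaf [(0, 1), (3, 3), (13, 1), (17, 3), (19, 3), (21, 3), (23, 3), (25, 1), (27, 1), (47,
    2), (50, 1)]) (.alt (.leaf [(0, 1), (3, 1), (6, 2), (13, 1), (17, 3), (19, 3), (21, 3), (23,
    3), (25, 1), (27, 1), (47, 2), (50, 1)]) (.alt (.leaf [(0, 4), (3, 4), (7, 6), (13, 4), (17,
    3), (19, 9), (21, 9), (23, 9), (25, 5), (27, 2), (28, 2), (31, 1), (47, 2), (49, 2), (50,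
    1), (52, 4)]) (.alt (.leaf [(0, 1), (1, 1), (2, 1), (3, 2), (13, 1), (17, 1), (19, 1), (21,
    1), (23, 3), (25, 2), (27, 1), (33, 1), (47, 1), (50, 1), (52, 1)]) (.alt (.leaf [(3, 2),
    (4, 2), (7, 3), (10, 2), (12, 4), (18, 2), (24, 4), (26, 3), (28, 6), (30, 5), (32, 1), (33,
    1), (46, 1), (52, 1), (55, 3), (57, 2)]) (.done))))))))) (.alt (.leaf [(0, 2), (2, 2), (4,
    2), (5, 1), (6, 5), (12, 2), (16, 1), (18, 6), (20, 6), (22, 8), (24, 3), (26, 1), (28, 1),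
    (32, 2), (46, 4), (47, 1), (49, 3)]) (.alt (.leaf [(3, 2), (5, 2), (7, 2), (9, 3), (11, 5),
    (17, 3), (23, 5), (25, 5), (27, 5), (29, 1), (31, 2), (33, 1), (37, 2), (51, 3), (52, 1),
    (54, 1)]) (.done))))))))) (.alt (.leaf [(0, 2), (1, 2), (3, 1), (4, 3), (11, 1), (15, 5),
    (17, 5), (19, 5), (21, 7), (23, 2), (25, 1), (45, 5), (48, 2)]) (.alt (.leaf [(0, 2), (1,
    2), (3, 1), (4, 1), (5, 2), (11, 1), (15, 3), (17, 5), (19, 5), (21, 7), (23, 4), (25, 1),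
    (45, 3), (48, 2), (50, 2)]) (.alt (.leaf [(0, 2), (1, 2), (3, 1), (4, 1), (5, 2), (11, 1),
    (15, 1), (17, 3), (19, 3), (21, 5), (23, 2), (25, 1), (31, 2), (45, 3), (48, 2)])
    (.done)))))) (.alt (.leaf [(0, 2), (2, 1), (10, 1), (14, 2), (16, 2), (18, 2), (20, 2), (22,
    1), (25, 1), (44, 1), (47, 1), (54, 1)]) (.alt (.split 4 [0, 1, 0, 1] (.alt (.leaf [(0, 1),
    (2, 1), (12, 1), (62, 1)]) (.alt (.leaf [(0, 2), (12, 6), (14, 3), (18, 6), (62, 7)]) (.alt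
    (.split 6 [0, 0, 1, 1] (.alt (.leaf [(0, 2), (13, 2), (15, 1), (63, 1)]) (.alt (.leaf [(0,
    2), (13, 10), (15, 7), (19, 8), (63, 11)]) (.alt (.leaf [(0, 2), (4, 2), (12, 2), (14, 1),
    (16, 1), (18, 1), (22, 2), (24, 2), (25, 1), (38, 1), (49, 2)]) (.alt (.leaf [(0, 1), (1,
    1), (18, 1), (20, 1), (22, 1), (41, 1), (46, 1)]) (.alt (.leaf [(0, 2), (2, 2), (4, 2), (12,
    2), (14, 2), (16, 3), (18, 3), (20, 3), (22, 5), (24, 3), (32, 1), (46, 2), (49, 2), (51,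
    1)]) (.alt (.leaf [(0, 2), (4, 2), (6, 2), (12, 2), (14, 1), (16, 1), (18, 3), (20, 2), (22,
    4), (24, 2), (28, 1), (40, 1), (46, 2), (49, 2)]) (.alt (.leaf [(4, 2), (7, 2), (21, 1),
    (23, 1), (25, 1), (27, 1), (29, 1), (37, 1), (56, 1)]) (.done))))))))) (.alt (.leaf [(0, 4),
    (3, 6), (11, 6), (13, 4), (15, 3), (17, 7), (19, 7), (21, 7), (23, 3), (25, 2), (29, 1),
    (45, 4), (48, 3)]) (.alt (.leaf [(0, 1), (1, 1), (15, 1), (17, 2), (19, 2), (21, 2), (23,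
    1), (47, 1), (50, 1)]) (.alt (.leaf [(0, 1), (1, 1), (3, 1), (5, 1), (11, 1), (17, 2), (19,
    2), (21, 2), (23, 1), (27, 1), (31, 1), (45, 1), (48, 1)]) (.alt (.leaf [(4, 1), (6, 1),
    (10, 1), (20, 1), (22, 2), (24, 1), (26, 1), (28, 1), (44, 1), (55, 1)]) (.done)))))))))
    (.alt (.leaf [(1, 2), (16, 2), (18, 1), (22, 2), (66, 3)]) (.done))))))))) (.alt (.leaf [(0,
    2), (10, 4), (12, 1), (16, 2), (60, 3)]) (.alt (.leaf [(0, 4), (1, 4), (9, 4), (11, 6), (13,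
    5), (15, 5), (17, 5), (19, 5), (21, 3), (23, 2), (26, 1), (43, 2), (46, 3)]) (.alt (.leaf
    [(0, 2), (11, 1), (13, 1), (15, 1), (22, 1), (35, 1)]) (.alt (.leaf [(0, 2), (1, 1), (3, 1),
    (9, 1), (11, 2), (13, 2), (15, 3), (17, 3), (19, 3), (21, 1), (25, 1), (43, 1), (44, 1),
    (46, 1)]) (.alt (.leaf [(0, 2), (11, 1), (13, 1), (15, 1), (24, 1), (37, 1)]) (.alt (.leaf
    [(1, 2), (15, 2), (17, 1), (65, 1)]) (.done))))))))) (.alt (.leaf [(0, 4), (1, 1), (8, 4),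
    (10, 4), (12, 5), (14, 5), (16, 5), (18, 5), (20, 3), (41, 2), (46, 3), (51, 1)]) (.alt
    (.leaf [(0, 1), (8, 1), (10, 1), (12, 1), (14, 1), (16, 1), (18, 1), (20, 1), (47, 1), (56,
    1)]) (.alt (.leaf [(0, 2), (2, 2), (8, 2), (10, 2), (12, 1), (14, 3), (16, 3), (18, 3), (20,
    1), (28, 1), (43, 2), (48, 1)]) (.alt (.leaf [(3, 2), (6, 1), (17, 1), (19, 1), (21, 1),
    (23, 1), (25, 1), (51, 1), (56, 1)]) (.done))))))))) (.alt (.leaf [(0, 1), (11, 1), (13, 1),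
    (15, 1), (17, 1), (40, 1), (52, 1)]) (.alt (.leaf [(0, 1), (1, 1), (11, 1), (13, 2), (15,
    2), (17, 2), (19, 1), (43, 1), (46, 1)]) (.alt (.leaf [(0, 1), (1, 1), (13, 1), (15, 1),
    (17, 1), (27, 1), (42, 1)]) (.alt (.leaf [(4, 1), (6, 1), (18, 1), (20, 1), (22, 1), (24,
    1), (51, 1), (60, 1)]) (.done))))))))) (.alt (.leaf [(0, 1), (12, 1), (14, 1), (16, 1), (18,
    1), (46, 1), (52, 1)]) (.done)))))

/-- Class (0, 1, 0). -/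
def DM.T2 : Tree :=
  .split 4 [] (.alt (.leaf [(0, 1), (12, 1), (14, 1), (16, 1), (18, 1), (43, 1), (51, 1)]) (.alt
    (.leaf [(0, 1), (12, 1), (14, 1), (16, 1), (40, 1), (49, 1)]) (.alt (.split 1 [0, 0, 0, 1]
    (.alt (.leaf [(0, 2), (58, 1)]) (.alt (.leaf [(0, 2), (14, 4), (58, 3)]) (.alt (.split 4 [0,
    1, -1, -1] (.alt (.leaf [(0, 2), (9, 6), (11, 4), (15, 4), (59, 7)]) (.alt (.leaf [(0, 2),
    (9, 2), (59, 1)]) (.alt (.leaf [(0, 2), (1, 2), (8, 2), (10, 2), (12, 1), (14, 3), (16, 3),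
    (18, 3), (20, 1), (25, 1), (42, 2), (45, 1)]) (.alt (.leaf [(0, 1), (1, 3), (8, 3), (10, 1),
    (12, 1), (14, 2), (16, 1), (18, 1), (20, 1), (21, 2), (34, 1), (45, 1)]) (.alt (.leaf [(0,
    2), (1, 4), (2, 3), (8, 4), (10, 1), (12, 1), (14, 6), (16, 5), (18, 5), (20, 3), (21, 2),
    (24, 1), (36, 1), (42, 2), (45, 2), (47, 1)]) (.alt (.split 1 [0, 1, 0, -1] (.alt (.leaf
    [(0, 2), (16, 2), (60, 3)]) (.alt (.leaf [(0, 2), (16, 2), (60, 1)]) (.alt (.leaf [(0, 1),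
    (2, 1), (9, 2), (11, 2), (13, 2), (15, 2), (17, 2), (19, 2), (21, 1), (43, 1), (46, 1)])
    (.alt (.leaf [(0, 2), (2, 2), (9, 4), (11, 2), (13, 2), (15, 2), (17, 2), (19, 2), (21, 2),
    (22, 2), (46, 1), (47, 1)]) (.alt (.leaf [(0, 2), (1, 2), (9, 2), (11, 2), (13, 1), (15, 3),
    (17, 3), (19, 3), (21, 3), (29, 1), (46, 1), (47, 1), (48, 1)]) (.alt (.leaf [(0, 4), (3,
    2), (9, 4), (11, 2), (13, 1), (15, 3), (17, 3), (19, 3), (21, 1), (24, 2), (29, 1), (44, 2),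
    (49, 1)]) (.alt (.leaf [(3, 1), (7, 1), (14, 1), (27, 1)]) (.done))))))))) (.alt (.leaf [(0,
    2), (14, 2), (16, 2), (20, 2), (64, 3)]) (.done))))))))) (.alt (.leaf [(0, 4), (7, 4), (9,
    2), (11, 1), (13, 1), (15, 1), (17, 1), (19, 1), (21, 2), (25, 1), (45, 1), (50, 2)]) (.alt
    (.leaf [(0, 2), (7, 2), (9, 1), (11, 1), (13, 1), (15, 1), (17, 1), (19, 1), (22, 1), (46,
    1), (55, 1)]) (.alt (.leaf [(0, 4), (1, 2), (7, 4), (9, 2), (11, 1), (13, 3), (15, 3), (17,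
    3), (19, 1), (23, 2), (27, 1), (42, 2), (47, 1)]) (.alt (.leaf [(1, 2), (19, 2), (63, 1)])
    (.done))))))))) (.alt (.leaf [(0, 1), (12, 1), (14, 1), (16, 1), (18, 1), (46, 1), (52, 1)])
    (.done)))))

/-- Class (0, 0, 1). -/
def DM.T3 : Tree :=
  .split 4 [] (.alt (.leaf [(0, 1), (12, 1), (14, 1), (16, 1), (18, 1), (43, 1), (51, 1)]) (.alt
    (.leaf [(0, 1), (12, 1), (14, 1), (16, 1), (40, 1), (49, 1)]) (.alt (.split 1 [0, 0, 1, -1]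
    (.alt (.split 2 [0, 0, 1, -1] (.alt (.split 3 [0, 1, -1, 0] (.alt (.leaf [(0, 1), (10, 2),
    (12, 2), (16, 1), (60, 2)]) (.alt (.leaf [(0, 1), (16, 1)]) (.alt (.split 1 [0, 1, 0, 0]
    (.alt (.leaf [(0, 1), (61, 1)]) (.alt (.leaf [(0, 1), (17, 2), (61, 1)]) (.alt (.split 3 [0,
    0, 0, 1] (.alt (.leaf [(0, 1), (3, 1), (12, 1), (18, 1), (62, 1)]) (.alt (.leaf [(0, 2),
    (12, 3), (14, 3), (18, 4), (62, 4)]) (.alt (.leaf [(0, 2), (1, 1), (11, 1), (15, 2), (17,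
    2), (19, 1), (21, 1), (23, 1), (24, 1), (37, 1), (48, 1)]) (.alt (.leaf [(0, 4), (1, 2),
    (11, 2), (15, 3), (17, 3), (19, 3), (21, 3), (23, 1), (25, 2), (28, 1), (45, 2), (48, 1)])
    (.alt (.split 3 [0, 0, 1, -1] (.alt (.leaf [(0, 2), (13, 1), (15, 1), (19, 2), (63, 2)])
    (.alt (.leaf [(0, 2), (13, 3), (15, 3), (19, 2), (63, 2)]) (.alt (.leaf [(0, 2), (2, 1),
    (12, 1), (16, 2), (18, 2), (20, 1), (22, 1), (24, 1), (26, 1), (38, 1), (49, 1)]) (.alt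
    (.leaf [(0, 4), (2, 2), (12, 2), (16, 3), (18, 3), (20, 3), (22, 3), (24, 1), (25, 2), (29,
    1), (46, 2), (49, 1)]) (.alt (.leaf [(0, 2), (1, 2), (16, 3), (18, 3), (20, 3), (22, 3),
    (24, 3), (32, 1), (49, 1), (50, 1), (51, 1)]) (.alt (.leaf [(0, 1), (1, 1), (2, 1), (12, 1),
    (16, 2), (18, 2), (20, 2), (22, 2), (24, 1), (27, 1), (46, 1), (49, 1)]) (.alt (.leaf [(4,
    2), (6, 2), (21, 1), (23, 1), (25, 1), (27, 1), (29, 1), (37, 1), (56, 1)]) (.done)))))))))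
    (.alt (.leaf [(0, 2), (1, 2), (5, 1), (11, 2), (13, 1), (15, 3), (17, 4), (19, 4), (21, 4),
    (23, 2), (27, 1), (45, 2), (48, 2)]) (.alt (.leaf [(1, 2), (17, 1), (19, 1), (23, 2), (67,
    2)]) (.done))))))))) (.alt (.leaf [(0, 4), (1, 1), (10, 4), (12, 4), (14, 5), (16, 5), (18,
    5), (20, 5), (22, 3), (43, 2), (48, 3), (53, 1)]) (.alt (.leaf [(0, 1), (10, 1), (12, 1),
    (14, 1), (16, 1), (18, 1), (20, 1), (22, 1), (49, 1), (58, 1)]) (.alt (.leaf [(0, 2), (4,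
    2), (10, 2), (12, 2), (14, 1), (16, 3), (18, 3), (20, 3), (22, 1), (30, 1), (45, 2), (50,
    1)]) (.alt (.leaf [(3, 2), (6, 1), (9, 2), (21, 2), (23, 2), (25, 2), (27, 2), (35, 1), (53,
    1), (54, 1), (58, 1)]) (.done))))))))) (.alt (.leaf [(0, 1), (13, 1), (15, 1), (17, 1), (19,
    1), (42, 1), (54, 1)]) (.alt (.leaf [(0, 2), (3, 4), (13, 2), (15, 6), (17, 4), (19, 4),
    (21, 4), (37, 2), (46, 1), (47, 1), (48, 2)]) (.alt (.leaf [(0, 1), (3, 1), (15, 1), (17,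
    1), (19, 1), (29, 1), (44, 1)]) (.alt (.leaf [(4, 1), (8, 2), (20, 2), (22, 1), (24, 1),
    (26, 1), (42, 1), (53, 1)]) (.done))))))))) (.alt (.leaf [(0, 2), (9, 3), (11, 1), (15, 2),
    (59, 2)]) (.alt (.leaf [(0, 4), (10, 2), (12, 1), (14, 1), (16, 1), (18, 1), (20, 1), (22,
    2), (26, 1), (45, 1)]) (.alt (.leaf [(0, 4), (10, 2), (12, 1), (14, 1), (16, 1), (18, 1),
    (20, 1), (21, 2), (25, 1), (46, 1)]) (.alt (.leaf [(0, 2), (2, 1), (10, 1), (14, 1), (16,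
    1), (18, 1), (20, 1), (24, 1), (28, 1), (47, 1)]) (.alt (.leaf [(0, 2), (2, 1), (10, 1),
    (12, 1), (14, 2), (16, 2), (18, 2), (20, 2), (23, 1), (45, 1), (46, 1)]) (.alt (.leaf [(1,
    1), (6, 1), (20, 1), (64, 1)]) (.done))))))))) (.alt (.leaf [(0, 2), (8, 1), (10, 1), (14,
    2), (58, 2)]) (.alt (.leaf [(0, 4), (7, 4), (9, 2), (11, 1), (13, 1), (15, 1), (17, 1), (19,
    1), (21, 2), (25, 1), (44, 1)]) (.alt (.leaf [(0, 4), (7, 4), (9, 2), (11, 1), (13, 1), (15,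
    1), (17, 1), (19, 1), (20, 2), (24, 1), (45, 1)]) (.alt (.leaf [(0, 2), (1, 1), (7, 2), (9,
    1), (13, 1), (15, 1), (17, 1), (19, 1), (23, 1), (27, 1), (46, 1)]) (.alt (.leaf [(0, 2),
    (1, 1), (7, 2), (9, 1), (11, 1), (13, 2), (15, 2), (17, 2), (19, 2), (22, 1), (44, 1), (45,
    1)]) (.alt (.leaf [(1, 2), (13, 1), (15, 1)]) (.done))))))))) (.alt (.leaf [(0, 1), (12, 1),
    (14, 1), (16, 1), (18, 1), (46, 1), (52, 1)]) (.done)))))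

/-- Class (1, 1, 0). -/
def DM.T4 : Tree :=
  .split 4 [] (.alt (.leaf [(0, 1), (12, 1), (14, 1), (16, 1), (18, 1), (43, 1), (51, 1)]) (.alt
    (.leaf [(0, 1), (12, 1), (14, 1), (16, 1), (40, 1), (49, 1)]) (.alt (.split 3 [0, 1, -1, 0]
    (.alt (.leaf [(0, 1), (8, 2), (10, 2), (14, 1), (58, 2)]) (.alt (.leaf [(0, 1), (14, 1)])
    (.alt (.split 1 [0, 1, 0, 0] (.alt (.leaf [(0, 1), (59, 1)]) (.alt (.leaf [(0, 1), (15, 2),
    (59, 1)]) (.alt (.split 2 [1, 1, 0, -1] (.alt (.split 3 [1, 1, 0, -1] (.alt (.leaf [(0, 2),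
    (13, 1), (17, 1), (61, 1)]) (.alt (.leaf [(0, 2), (11, 4), (13, 3), (17, 3), (61, 3)]) (.alt
    (.split 4 [0, 0, 0, 1] (.alt (.leaf [(0, 1), (2, 1), (12, 1), (62, 1)]) (.alt (.leaf [(0,
    2), (12, 6), (14, 3), (18, 5), (62, 7)]) (.alt (.leaf [(0, 2), (1, 2), (3, 2), (11, 2), (13,
    2), (15, 3), (17, 5), (19, 5), (21, 5), (23, 3), (28, 1), (45, 2), (48, 3)]) (.alt (.leaf
    [(0, 2), (3, 2), (11, 2), (13, 1), (15, 1), (17, 3), (19, 2), (21, 2), (23, 1), (25, 1),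
    (37, 1), (45, 1), (48, 1)]) (.alt (.leaf [(0, 2), (3, 1), (5, 1), (11, 1), (17, 3), (19, 3),
    (21, 3), (23, 2), (26, 1), (45, 1), (48, 1), (50, 1)]) (.alt (.split 6 [0, 0, 1, 1] (.alt
    (.leaf [(0, 1), (3, 1), (13, 1), (63, 1)]) (.alt (.leaf [(0, 2), (13, 10), (15, 7), (19, 9),
    (63, 11)]) (.alt (.leaf [(0, 2), (2, 2), (16, 2), (18, 2), (20, 2), (22, 4), (24, 4), (49,
    3), (50, 1)]) (.alt (.leaf [(0, 4), (4, 4), (12, 4), (14, 2), (16, 1), (18, 1), (20, 1),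
    (22, 5), (24, 1), (26, 2), (29, 1), (46, 4), (49, 1)]) (.alt (.leaf [(0, 2), (1, 2), (4, 2),
    (12, 2), (14, 2), (16, 1), (18, 3), (20, 3), (22, 5), (24, 3), (32, 1), (46, 2), (49, 2),
    (51, 1)]) (.alt (.leaf [(0, 2), (4, 3), (6, 3), (12, 3), (14, 2), (16, 1), (18, 4), (20, 4),
    (22, 6), (24, 3), (28, 1), (32, 1), (46, 3), (49, 3)]) (.alt (.leaf [(2, 1), (7, 1), (21,
    1), (23, 1), (25, 1), (27, 1), (29, 1), (54, 1)]) (.done))))))))) (.alt (.leaf [(2, 2), (6,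
    2), (10, 2), (22, 2), (24, 2), (26, 2), (28, 2), (33, 1), (36, 1), (53, 1), (55, 1)])
    (.done))))))))) (.alt (.leaf [(0, 4), (2, 2), (10, 2), (14, 4), (16, 4), (18, 2), (20, 2),
    (22, 2), (23, 2), (36, 2), (47, 1), (48, 1)]) (.alt (.leaf [(0, 2), (2, 1), (4, 1), (10, 1),
    (14, 2), (16, 3), (18, 3), (20, 3), (22, 2), (26, 1), (44, 1), (47, 1), (49, 1)]) (.alt
    (.leaf [(0, 2), (2, 1), (4, 1), (10, 1), (14, 1), (16, 2), (18, 2), (20, 2), (22, 1), (25,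
    1), (30, 1), (44, 1), (47, 1)]) (.alt (.leaf [(1, 2), (16, 2), (18, 1), (22, 1), (66, 1)])
    (.done))))))))) (.alt (.leaf [(0, 2), (10, 4), (12, 1), (16, 3), (60, 3)]) (.alt (.leaf [(0,
    4), (3, 2), (11, 2), (15, 2), (17, 2), (19, 2), (21, 2), (23, 2), (26, 1), (29, 1), (46, 1),
    (48, 1)]) (.alt (.leaf [(0, 8), (2, 2), (11, 4), (13, 6), (15, 6), (17, 4), (19, 4), (21,
    4), (22, 4), (35, 2), (46, 1), (47, 3)]) (.alt (.leaf [(0, 2), (1, 1), (3, 1), (9, 1), (11,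
    2), (13, 2), (15, 3), (17, 3), (19, 3), (21, 2), (25, 1), (43, 1), (46, 1), (48, 1)]) (.alt
    (.leaf [(0, 2), (1, 1), (3, 1), (9, 1), (11, 2), (13, 1), (15, 2), (17, 2), (19, 2), (21,
    1), (24, 1), (29, 1), (43, 1), (46, 1)]) (.alt (.leaf [(1, 2), (15, 2), (17, 1), (21, 1),
    (65, 1)]) (.done))))))))) (.alt (.leaf [(0, 4), (1, 1), (8, 4), (10, 4), (12, 5), (14, 5),
    (16, 5), (18, 5), (20, 3), (41, 2), (46, 3), (51, 1)]) (.alt (.leaf [(0, 1), (8, 1), (10,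
    1), (12, 1), (14, 1), (16, 1), (18, 1), (20, 1), (47, 1), (56, 1)]) (.alt (.leaf [(0, 2),
    (2, 2), (8, 2), (10, 2), (12, 1), (14, 3), (16, 3), (18, 3), (20, 1), (28, 1), (43, 2), (48,
    1)]) (.alt (.leaf [(3, 2), (6, 1), (17, 1), (19, 1), (21, 1), (23, 1), (25, 1), (51, 1),
    (56, 1)]) (.done))))))))) (.alt (.leaf [(0, 1), (11, 1), (13, 1), (15, 1), (17, 1), (40, 1),
    (52, 1)]) (.alt (.leaf [(0, 2), (1, 4), (11, 2), (13, 6), (15, 4), (17, 4), (19, 4), (35,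
    2), (44, 1), (45, 1), (46, 2)]) (.alt (.leaf [(0, 1), (1, 1), (13, 1), (15, 1), (17, 1),
    (27, 1), (42, 1)]) (.alt (.leaf [(4, 1), (6, 2), (18, 2), (20, 1), (22, 1), (24, 1), (40,
    1), (51, 1)]) (.done))))))))) (.alt (.leaf [(0, 1), (12, 1), (14, 1), (16, 1), (18, 1), (46,
    1), (52, 1)]) (.done)))))

/-- Class (1, 0, 1). -/
def DM.T5 : Tree :=
  .split 4 [] (.alt (.leaf [(0, 1), (12, 1), (14, 1), (16, 1), (18, 1), (43, 1), (51, 1)]) (.alt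
    (.leaf [(0, 1), (12, 1), (14, 1), (16, 1), (40, 1), (49, 1)]) (.alt (.split 3 [0, 1, -1, 0]
    (.alt (.leaf [(0, 1), (8, 2), (10, 2), (14, 1), (58, 2)]) (.alt (.leaf [(0, 1), (14, 1)])
    (.alt (.split 1 [0, 1, 0, 0] (.alt (.leaf [(0, 1), (59, 1)]) (.alt (.leaf [(0, 1), (15, 2),
    (59, 1)]) (.alt (.split 4 [1, 0, 1, -1] (.alt (.leaf [(0, 2), (10, 1), (16, 1), (60, 2)])
    (.alt (.leaf [(0, 2), (10, 7), (12, 4), (16, 3), (60, 6)]) (.alt (.leaf [(0, 2), (1, 2), (9,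
    2), (11, 1), (13, 1), (15, 3), (17, 3), (19, 3), (21, 2), (23, 1), (43, 1), (46, 2)]) (.alt
    (.split 5 [0, 0, 0, 1] (.alt (.leaf [(0, 2), (11, 1), (17, 1)]) (.alt (.leaf [(0, 2), (11,
    7), (13, 4), (17, 7), (61, 8)]) (.alt (.leaf [(0, 4), (2, 2), (10, 2), (18, 4), (20, 4),
    (22, 4), (23, 2), (47, 3), (48, 1)]) (.alt (.leaf [(0, 1), (1, 1), (2, 1), (10, 1), (12, 1),
    (14, 1), (16, 2), (18, 3), (20, 3), (22, 1), (44, 2), (47, 1)]) (.alt (.split 2 [0, 0, 1,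
    -1] (.alt (.leaf [(0, 2), (12, 3), (18, 3), (62, 4)]) (.alt (.leaf [(0, 2), (12, 1), (18,
    1)]) (.alt (.leaf [(0, 2), (2, 2), (13, 2), (15, 1), (17, 3), (19, 3), (21, 3), (23, 1),
    (29, 1), (45, 2), (48, 1)]) (.alt (.leaf [(0, 4), (3, 2), (11, 2), (13, 4), (15, 2), (17,
    2), (19, 2), (21, 2), (23, 2), (24, 2), (28, 2), (48, 1), (49, 1)]) (.alt (.leaf [(0, 2),
    (1, 2), (13, 2), (15, 1), (17, 1), (19, 3), (21, 3), (23, 3), (31, 1), (48, 1), (49, 1),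
    (50, 1)]) (.alt (.leaf [(0, 2), (5, 1), (13, 1), (15, 1), (17, 2), (19, 2), (21, 2), (23,
    2), (26, 1), (48, 1), (49, 1), (55, 1)]) (.alt (.leaf [(0, 2), (17, 1), (23, 1), (67, 2)])
    (.done))))))))) (.alt (.leaf [(0, 2), (2, 1), (4, 1), (10, 1), (16, 1), (18, 2), (20, 2),
    (22, 1), (26, 1), (38, 1), (44, 1), (47, 1)]) (.alt (.leaf [(3, 1), (6, 1), (21, 1), (23,
    1), (25, 1), (49, 1)]) (.done))))))))) (.alt (.split 5 [] (.alt (.leaf [(0, 2), (2, 2), (10,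
    2), (12, 2), (14, 1), (16, 1), (18, 3), (20, 3), (22, 3), (27, 1), (47, 2), (48, 1)]) (.alt
    (.split 6 [] (.alt (.leaf [(0, 1), (1, 1), (19, 1), (21, 2), (23, 1), (45, 1), (48, 1)])
    (.alt (.leaf [(0, 1), (3, 2), (11, 2), (13, 2), (15, 2), (17, 2), (19, 1), (21, 2), (23, 1),
    (37, 1), (45, 1), (48, 1)]) (.alt (.leaf [(0, 1), (3, 1), (5, 1), (11, 1), (13, 1), (15, 1),
    (17, 2), (19, 2), (21, 3), (23, 2), (45, 1), (48, 1), (50, 1)]) (.alt (.leaf [(0, 1), (3,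
    1), (5, 1), (11, 1), (13, 1), (17, 1), (19, 1), (21, 2), (23, 1), (31, 1), (45, 1), (48,
    1)]) (.done)))))) (.alt (.leaf [(0, 1), (2, 1), (4, 1), (10, 1), (12, 1), (14, 1), (16, 2),
    (18, 3), (20, 3), (22, 1), (44, 1), (45, 1), (47, 1)]) (.alt (.leaf [(0, 1), (1, 2), (2, 1),
    (10, 1), (16, 1), (18, 2), (20, 2), (22, 1), (26, 1), (33, 1), (44, 1), (47, 1)])
    (.done)))))) (.alt (.leaf [(0, 2), (1, 1), (3, 1), (9, 1), (15, 3), (17, 2), (19, 2), (21,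
    1), (24, 1), (37, 1), (43, 1), (46, 1)]) (.alt (.leaf [(1, 2), (15, 3), (17, 2), (21, 1),
    (65, 2)]) (.done))))))))) (.alt (.leaf [(0, 4), (1, 1), (8, 4), (10, 4), (12, 5), (14, 5),
    (16, 5), (18, 5), (20, 3), (41, 2), (46, 3), (51, 1)]) (.alt (.leaf [(0, 1), (2, 1), (8, 1),
    (10, 1), (12, 1), (14, 2), (16, 1), (18, 1), (20, 1), (36, 1), (47, 1)]) (.alt (.leaf [(0,
    2), (8, 2), (10, 2), (12, 1), (14, 1), (16, 1), (18, 1), (20, 1), (28, 1), (48, 1), (52,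
    2)]) (.alt (.leaf [(3, 2), (6, 1), (7, 2), (19, 2), (21, 2), (23, 2), (25, 2), (33, 1), (51,
    1), (52, 1), (56, 1)]) (.done))))))))) (.alt (.leaf [(0, 1), (11, 1), (13, 1), (15, 1), (17,
    1), (40, 1), (52, 1)]) (.alt (.leaf [(0, 2), (1, 4), (11, 2), (13, 6), (15, 4), (17, 4),
    (19, 4), (35, 2), (44, 1), (45, 1), (46, 2)]) (.alt (.leaf [(0, 1), (1, 1), (13, 1), (15,
    1), (17, 1), (27, 1), (42, 1)]) (.alt (.leaf [(4, 1), (6, 2), (18, 2), (20, 1), (22, 1),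
    (24, 1), (40, 1), (51, 1)]) (.done))))))))) (.alt (.leaf [(0, 2), (12, 2), (14, 2), (16, 2),
    (18, 2), (43, 1), (44, 1), (50, 2), (54, 2)]) (.done)))))

/-- Class (0, 1, 1). -/
def DM.T6 : Tree :=
  .split 4 [] (.alt (.leaf [(0, 1), (12, 1), (14, 1), (16, 1), (18, 1), (43, 1), (51, 1)]) (.alt
    (.leaf [(0, 1), (12, 1), (14, 1), (16, 1), (40, 1), (49, 1)]) (.alt (.split 3 [0, 1, -1, 0]
    (.alt (.leaf [(0, 1), (8, 2), (10, 2), (14, 1), (58, 2)]) (.alt (.leaf [(0, 1), (14, 1)])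
    (.alt (.split 1 [0, 1, 0, 0] (.alt (.leaf [(0, 1), (59, 1)]) (.alt (.leaf [(0, 1), (15, 2),
    (59, 1)]) (.alt (.split 5 [] (.alt (.leaf [(0, 2), (1, 2), (9, 2), (11, 2), (13, 1), (15,
    1), (17, 3), (19, 3), (21, 3), (26, 1), (46, 2), (47, 1)]) (.alt (.split 6 [] (.alt (.leaf
    [(0, 1), (1, 1), (18, 1), (20, 2), (22, 1), (44, 1), (47, 1)]) (.alt (.leaf [(0, 1), (2, 2),
    (10, 2), (12, 2), (14, 2), (16, 2), (18, 1), (20, 2), (22, 1), (36, 1), (44, 1), (47, 1)])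
    (.alt (.leaf [(0, 3), (2, 1), (4, 1), (10, 1), (12, 1), (16, 1), (18, 1), (20, 4), (22, 3),
    (29, 1), (44, 1), (47, 1), (49, 2)]) (.alt (.leaf [(0, 1), (2, 1), (4, 1), (10, 1), (12, 1),
    (16, 1), (18, 1), (20, 2), (22, 1), (30, 1), (44, 1), (47, 1)]) (.done)))))) (.alt (.leaf
    [(0, 2), (3, 2), (15, 2), (17, 4), (19, 4), (21, 2), (44, 2), (46, 1), (47, 1)]) (.alt
    (.split 5 [0, 0, 0, 1] (.alt (.leaf [(0, 2), (11, 3), (13, 1), (17, 1), (61, 2)]) (.alt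
    (.leaf [(0, 2), (11, 5), (13, 3), (17, 7), (61, 6)]) (.alt (.split 6 [0, 1, -1, -1] (.alt
    (.leaf [(0, 2), (12, 9), (14, 7), (18, 7), (62, 10)]) (.alt (.leaf [(0, 2), (12, 3), (14,
    1), (18, 1), (62, 2)]) (.alt (.leaf [(0, 1), (1, 1), (19, 1), (21, 1), (40, 1), (45, 1)])
    (.alt (.leaf [(0, 2), (3, 2), (4, 1), (11, 2), (13, 1), (15, 2), (17, 2), (21, 2), (23, 2),
    (24, 1), (37, 2), (48, 2)]) (.alt (.leaf [(0, 2), (3, 1), (5, 4), (11, 1), (17, 4), (19, 3),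
    (21, 5), (23, 4), (27, 1), (39, 1), (45, 1), (48, 2), (49, 1), (50, 1)]) (.alt (.split 3 [0,
    1, 0, -1] (.alt (.leaf [(0, 2), (13, 3), (15, 3), (19, 3), (63, 4)]) (.alt (.leaf [(0, 2),
    (13, 1), (15, 1), (19, 1)]) (.alt (.leaf [(0, 1), (2, 1), (16, 1), (18, 1), (20, 2), (22,
    2), (24, 1), (46, 1), (49, 1)]) (.alt (.leaf [(0, 8), (4, 4), (5, 2), (12, 4), (16, 10),
    (18, 10), (20, 8), (22, 8), (24, 8), (25, 4), (38, 2), (49, 5), (50, 3)]) (.alt (.leaf [(0,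
    4), (1, 2), (4, 3), (12, 3), (14, 2), (16, 6), (18, 6), (20, 5), (22, 7), (24, 4), (28, 1),
    (40, 1), (46, 3), (49, 3), (51, 1)]) (.alt (.leaf [(0, 2), (3, 1), (4, 1), (12, 1), (16, 1),
    (18, 1), (20, 2), (22, 2), (24, 1), (27, 1), (32, 1), (46, 1), (49, 1)]) (.alt (.leaf [(0,
    2), (18, 1), (20, 1), (24, 1), (68, 2)]) (.done))))))))) (.alt (.leaf [(4, 2), (8, 1), (10,
    4), (16, 1), (22, 4), (24, 3), (26, 3), (28, 2), (32, 1), (44, 1), (50, 1), (53, 1), (55,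
    1)]) (.done))))))))) (.alt (.leaf [(0, 4), (2, 6), (10, 6), (12, 4), (14, 3), (16, 3), (18,
    7), (20, 7), (22, 3), (24, 2), (27, 1), (44, 4), (47, 3)]) (.alt (.split 3 [0, 0, 1, -1]
    (.alt (.leaf [(0, 2), (12, 1), (14, 1), (18, 3), (62, 2)]) (.alt (.leaf [(0, 2), (12, 3),
    (14, 3), (18, 1), (62, 2)]) (.alt (.leaf [(0, 8), (3, 4), (4, 2), (11, 4), (15, 10), (17,
    10), (19, 8), (21, 8), (23, 8), (25, 4), (37, 2), (48, 5), (49, 3)]) (.alt (.split 3 [0, 1,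
    0, -1] (.alt (.leaf [(0, 2), (13, 3), (15, 3), (19, 3), (63, 4)]) (.alt (.leaf [(0, 2), (13,
    1), (15, 1), (19, 1)]) (.alt (.leaf [(0, 2), (1, 2), (16, 3), (18, 3), (20, 3), (22, 3),
    (24, 1), (29, 1), (46, 2), (49, 1)]) (.alt (.leaf [(0, 8), (4, 4), (5, 2), (12, 4), (16,
    10), (18, 10), (20, 8), (22, 8), (24, 8), (25, 4), (38, 2), (49, 5), (50, 3)]) (.alt (.leaf
    [(0, 2), (2, 2), (16, 2), (18, 2), (20, 4), (22, 4), (24, 4), (49, 1), (50, 1), (51, 2),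
    (60, 2)]) (.alt (.leaf [(0, 2), (3, 1), (4, 1), (12, 1), (16, 1), (18, 1), (20, 2), (22, 2),
    (24, 1), (27, 1), (32, 1), (46, 1), (49, 1)]) (.alt (.leaf [(4, 1), (7, 1), (11, 1), (23,
    1), (25, 1), (27, 1), (29, 1), (45, 1), (56, 1)]) (.done))))))))) (.alt (.leaf [(0, 3), (1,
    1), (3, 1), (11, 1), (15, 2), (17, 2), (19, 3), (21, 3), (23, 1), (27, 1), (31, 1), (45, 1),
    (46, 1), (48, 1)]) (.alt (.leaf [(0, 2), (3, 1), (5, 2), (11, 1), (15, 2), (17, 4), (19, 3),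
    (21, 3), (23, 2), (26, 1), (39, 1), (45, 1), (48, 1), (50, 1)]) (.alt (.split 6 [] (.alt
    (.leaf [(0, 1), (3, 2), (9, 1), (17, 1), (27, 1), (29, 1), (31, 1), (54, 1)]) (.alt (.leaf
    [(0, 1), (9, 2), (17, 2), (19, 2), (21, 2), (23, 2), (25, 1), (27, 2), (29, 1), (43, 1),
    (51, 1), (54, 1)]) (.alt (.leaf [(0, 3), (9, 1), (11, 1), (17, 1), (19, 1), (23, 1), (25,
    1), (27, 4), (29, 3), (36, 1), (51, 1), (54, 1), (56, 2)]) (.alt (.leaf [(0, 1), (9, 1),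
    (11, 1), (17, 1), (19, 1), (23, 1), (25, 1), (27, 2), (29, 1), (37, 1), (51, 1), (54, 1)])
    (.done)))))) (.done))))))))) (.alt (.leaf [(0, 2), (2, 2), (4, 3), (10, 2), (12, 1), (16,
    3), (18, 5), (20, 5), (22, 2), (26, 1), (30, 1), (44, 2), (45, 1), (47, 2)]) (.alt (.leaf
    [(1, 2), (16, 1), (18, 1), (22, 3), (66, 2)]) (.done))))))))) (.done)))))) (.alt (.leaf [(0,
    4), (1, 1), (8, 4), (10, 4), (12, 5), (14, 5), (16, 5), (18, 5), (20, 3), (41, 2), (46, 3),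
    (51, 1)]) (.alt (.leaf [(0, 1), (8, 1), (10, 1), (12, 1), (14, 1), (16, 1), (18, 1), (20,
    1), (47, 1), (56, 1)]) (.alt (.leaf [(0, 2), (2, 2), (8, 2), (10, 2), (12, 1), (14, 3), (16,
    3), (18, 3), (20, 1), (28, 1), (43, 2), (48, 1)]) (.alt (.leaf [(3, 2), (6, 1), (7, 2), (19,
    2), (21, 2), (23, 2), (25, 2), (33, 1), (51, 1), (52, 1), (56, 1)]) (.done))))))))) (.alt
    (.leaf [(0, 1), (11, 1), (13, 1), (15, 1), (17, 1), (40, 1), (52, 1)]) (.alt (.leaf [(0, 2),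
    (1, 4), (11, 2), (13, 6), (15, 4), (17, 4), (19, 4), (35, 2), (44, 1), (45, 1), (46, 2)])
    (.alt (.leaf [(0, 1), (1, 1), (13, 1), (15, 1), (17, 1), (27, 1), (42, 1)]) (.alt (.leaf
    [(4, 1), (6, 2), (18, 2), (20, 1), (22, 1), (24, 1), (40, 1), (51, 1)]) (.done)))))))))
    (.alt (.leaf [(0, 1), (12, 1), (14, 1), (16, 1), (18, 1), (46, 1), (52, 1)]) (.done)))))

/-- Class (1, 1, 1). -/
def DM.T7 : Tree :=
  .split 4 [] (.alt (.leaf [(0, 1), (12, 1), (14, 1), (16, 1), (18, 1), (43, 1), (51, 1)]) (.alt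
    (.leaf [(0, 1), (12, 1), (14, 1), (16, 1), (40, 1), (49, 1)]) (.alt (.split 2 [0, 0, 1, -1]
    (.alt (.leaf [(0, 2), (8, 3), (14, 4), (58, 4)]) (.alt (.leaf [(0, 2), (8, 1)]) (.alt (.leaf
    [(0, 2), (1, 2), (9, 1), (13, 2), (15, 2), (17, 2), (19, 2), (21, 1), (27, 1), (44, 1), (46,
    1), (52, 2)]) (.alt (.leaf [(0, 2), (9, 1), (20, 1), (24, 1)]) (.alt (.leaf [(0, 2), (9, 1),
    (23, 1), (27, 1)]) (.alt (.leaf [(0, 2), (1, 2), (9, 1), (11, 1), (13, 3), (15, 3), (17, 3),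
    (19, 3), (22, 1), (44, 1), (45, 1), (46, 1)]) (.alt (.leaf [(0, 2), (13, 1), (19, 2), (63,
    2)]) (.done))))))))) (.alt (.leaf [(0, 1), (12, 1), (14, 1), (16, 1), (18, 1), (46, 1), (52,
    1)]) (.done)))))

/-- The eight classes. -/
def DM.T : ℕ → Tree
  | 0 => DM.T0
  | 1 => DM.T1
  | 2 => DM.T2
  | 3 => DM.T3
  | 4 => DM.T4
  | 5 => DM.T5
  | 6 => DM.T6
  | 7 => DM.T7
  | _ => .done

theorem DM.chk : checkCls DM.D 2 [] DM.T = true := by decide +kernel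

/-- Type A: `q(v) < M_{-1}`. -/
def AM.D : Data :=
  ⟨[none, none, none, some [0, -1, 1], some [0, 0, 1], some [1, 0, 0], some [1, 1, 0], some [1, 0,
    1], some [1, 1, 1]],
    sup, stdExt ++ [⟨true, [(1, 2)], [0, -1, 0], [], []⟩], []⟩

/-- Class (0, 0, 0). -/
def AM.T0 : Tree :=
  .split 1 [0, 0, 0, 1] (.alt (.leaf [(0, 2), (9, 1), (57, 1)]) (.alt (.leaf [(0, 2), (9, 3), (57,
    3)]) (.alt (.leaf [(0, 4), (6, 4), (8, 2), (10, 2), (12, 2), (14, 2), (16, 2), (18, 2), (19,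
    2), (43, 1), (44, 1)]) (.alt (.leaf [(0, 4), (6, 4), (8, 2), (10, 2), (12, 2), (14, 2), (16,
    2), (18, 2), (20, 2), (43, 1), (44, 1)]) (.alt (.leaf [(0, 4), (6, 4), (8, 2), (10, 2), (12,
    2), (14, 2), (16, 2), (18, 2), (21, 2), (43, 1), (44, 1)]) (.alt (.leaf [(0, 4), (6, 4), (8,
    2), (10, 2), (12, 2), (14, 2), (16, 2), (18, 2), (22, 2), (43, 1), (44, 1)]) (.alt (.leaf
    [(1, 2), (14, 1), (62, 1)]) (.done))))))))

/-- Class (1, 0, 0). -/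
def AM.T1 : Tree :=
  .split 4 [] (.alt (.leaf [(0, 1), (12, 1), (14, 1), (16, 1), (18, 1), (43, 1), (51, 1)]) (.alt
    (.leaf [(0, 1), (12, 1), (14, 1), (16, 1), (40, 1), (49, 1)]) (.alt (.split 1 [0, 1, 0, 0]
    (.alt (.leaf [(0, 1), (58, 1)]) (.alt (.leaf [(0, 1), (10, 2), (58, 1)]) (.alt (.split 1 [1,
    0, 0, -1] (.alt (.split 2 [1, 0, 0, -1] (.alt (.split 6 [0, 1, 1, 1] (.alt (.leaf [(0, 1),
    (1, 1), (11, 1), (61, 1)]) (.alt (.leaf [(0, 2), (13, 17), (15, 3), (51, 7), (61, 1)]) (.alt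
    (.split 6 [0, 0, 1, 1] (.alt (.leaf [(0, 1), (2, 1), (12, 1), (14, 1), (62, 1)]) (.alt
    (.leaf [(0, 2), (14, 15), (16, 3), (52, 7), (62, 1)]) (.alt (.leaf [(0, 2), (4, 2), (11, 2),
    (13, 1), (15, 1), (17, 1), (21, 2), (23, 2), (24, 1), (37, 1), (48, 2)]) (.alt (.leaf [(0,
    1), (1, 1), (21, 2), (23, 1), (45, 1), (48, 1)]) (.alt (.split 4 [0, 0, 0, 1] (.alt (.leaf
    [(0, 1), (3, 1), (13, 1), (15, 1), (63, 1)]) (.alt (.leaf [(0, 2), (15, 7), (17, 3), (53,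
    3), (63, 1)]) (.alt (.leaf [(0, 4), (5, 4), (12, 4), (14, 2), (18, 4), (20, 4), (22, 4),
    (24, 4), (25, 2), (30, 2), (49, 3), (50, 1)]) (.alt (.leaf [(0, 1), (2, 1), (18, 1), (22,
    1), (24, 1), (38, 1), (49, 1)]) (.alt (.leaf [(0, 2), (5, 2), (6, 1), (12, 2), (14, 1), (18,
    3), (20, 2), (22, 2), (24, 1), (27, 1), (30, 1), (38, 1), (47, 1), (49, 1)]) (.alt (.leaf
    [(0, 2), (1, 2), (5, 1), (12, 1), (14, 1), (18, 2), (20, 1), (22, 3), (24, 2), (31, 1), (40,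
    1), (46, 1), (49, 1), (51, 1)]) (.alt (.leaf [(1, 2), (20, 3), (22, 1), (58, 1), (68, 1)])
    (.done))))))))) (.alt (.leaf [(0, 2), (4, 2), (5, 2), (11, 2), (13, 1), (15, 1), (17, 3),
    (19, 2), (21, 4), (23, 2), (27, 1), (39, 1), (45, 2), (48, 2)]) (.alt (.leaf [(1, 2), (19,
    7), (21, 1), (57, 3), (67, 1)]) (.done))))))))) (.alt (.leaf [(0, 2), (3, 8), (10, 8), (12,
    7), (14, 3), (16, 3), (20, 2), (22, 2), (24, 1), (28, 4), (36, 3), (47, 2)]) (.alt (.split 6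
    [] (.alt (.leaf [(0, 1), (4, 1), (11, 1), (13, 1), (21, 1), (23, 1), (29, 1), (48, 1)])
    (.alt (.leaf [(0, 1), (4, 3), (11, 3), (13, 3), (15, 2), (17, 2), (21, 1), (23, 1), (29, 1),
    (37, 2), (48, 1)]) (.alt (.leaf [(0, 1), (4, 2), (5, 1), (11, 2), (13, 2), (15, 1), (17, 2),
    (19, 1), (21, 2), (23, 2), (29, 1), (37, 1), (48, 1), (50, 1)]) (.alt (.split 4 [0, 1, 0, 1]
    (.alt (.leaf [(0, 1), (3, 1), (13, 1), (63, 1)]) (.alt (.leaf [(0, 2), (15, 9), (17, 3),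
    (53, 3), (63, 1)]) (.alt (.split 4 [0, 0, 0, 1] (.alt (.leaf [(0, 1), (4, 1), (14, 1), (16,
    1), (64, 1)]) (.alt (.leaf [(0, 2), (16, 7), (18, 3), (54, 3), (64, 1)]) (.alt (.leaf [(0,
    4), (6, 4), (13, 4), (15, 2), (19, 4), (21, 4), (23, 4), (25, 4), (26, 2), (31, 2), (50, 3),
    (51, 1)]) (.alt (.leaf [(0, 1), (1, 1), (6, 1), (13, 1), (15, 1), (19, 2), (21, 1), (23, 1),
    (25, 1), (31, 1), (39, 1), (50, 1)]) (.alt (.leaf [(0, 2), (2, 1), (6, 4), (7, 1), (13, 4),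
    (15, 3), (19, 3), (21, 1), (23, 2), (25, 2), (28, 1), (31, 2), (32, 1), (39, 2), (50, 2)])
    (.alt (.leaf [(0, 1), (2, 1), (3, 1), (6, 1), (13, 1), (15, 1), (17, 1), (19, 1), (23, 2),
    (25, 1), (36, 1), (41, 1), (47, 1), (50, 1)]) (.alt (.leaf [(1, 2), (21, 3), (23, 1), (59,
    1), (69, 1)]) (.done))))))))) (.alt (.leaf [(0, 2), (5, 1), (12, 1), (18, 2), (20, 2), (22,
    2), (24, 2), (26, 1), (49, 1), (50, 1), (57, 1)]) (.alt (.leaf [(0, 2), (1, 2), (5, 4), (12,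
    4), (14, 3), (16, 1), (18, 3), (22, 2), (24, 2), (27, 1), (30, 2), (38, 2), (40, 1), (49,
    2)]) (.alt (.leaf [(0, 1), (2, 1), (5, 2), (12, 2), (14, 2), (16, 1), (18, 1), (22, 1), (24,
    1), (30, 1), (35, 1), (38, 1), (49, 1)]) (.alt (.leaf [(3, 2), (10, 2), (17, 2), (19, 1),
    (21, 1), (23, 1), (31, 1), (43, 1)]) (.done))))))))) (.done)))))) (.alt (.leaf [(0, 2), (3,
    4), (4, 3), (10, 4), (12, 3), (16, 3), (18, 1), (20, 2), (22, 2), (26, 1), (28, 2), (29, 1),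
    (36, 2), (42, 1), (47, 2)]) (.alt (.leaf [(3, 2), (8, 4), (15, 4), (17, 3), (19, 1), (21,
    1), (29, 1), (33, 2), (41, 1)]) (.done))))))))) (.alt (.leaf [(0, 3), (1, 1), (12, 5), (14,
    1), (50, 4)]) (.alt (.leaf [(0, 4), (2, 4), (9, 4), (11, 6), (13, 4), (15, 4), (17, 4), (19,
    4), (21, 4), (23, 2), (27, 2), (46, 3), (47, 1)]) (.alt (.leaf [(0, 2), (11, 1), (13, 1),
    (15, 1), (22, 1), (35, 1)]) (.alt (.leaf [(0, 2), (2, 2), (3, 1), (9, 2), (11, 3), (13, 2),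
    (15, 3), (17, 2), (19, 2), (21, 1), (25, 1), (27, 1), (35, 1), (44, 1), (46, 1)]) (.alt
    (.leaf [(0, 2), (11, 1), (13, 1), (15, 1), (24, 1), (37, 1)]) (.alt (.leaf [(1, 2), (15, 1),
    (17, 1), (19, 1)]) (.done))))))))) (.alt (.leaf [(0, 2), (11, 3), (13, 1), (49, 1), (59,
    1)]) (.alt (.leaf [(0, 4), (1, 4), (8, 8), (10, 6), (12, 4), (14, 4), (16, 4), (18, 4), (20,
    4), (22, 2), (26, 2), (45, 3), (46, 1)]) (.alt (.leaf [(0, 2), (8, 2), (10, 1), (12, 1),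
    (14, 1), (21, 1), (34, 1)]) (.alt (.leaf [(0, 2), (1, 2), (2, 1), (8, 4), (10, 3), (12, 2),
    (14, 3), (16, 2), (18, 2), (20, 1), (24, 1), (26, 1), (34, 1), (43, 1), (45, 1)]) (.alt
    (.leaf [(0, 2), (8, 2), (10, 1), (12, 1), (14, 1), (23, 1), (36, 1)]) (.alt (.leaf [(1, 2),
    (14, 1), (16, 1), (18, 1)]) (.done))))))))) (.alt (.leaf [(0, 1), (7, 1), (9, 1), (11, 1),
    (13, 1), (15, 1), (17, 1), (19, 1), (45, 1), (54, 1)]) (.alt (.leaf [(0, 1), (1, 1), (7, 1),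
    (9, 1), (11, 1), (13, 2), (15, 1), (17, 1), (19, 1), (35, 1), (46, 1)]) (.alt (.leaf [(0,
    2), (7, 2), (9, 2), (11, 1), (13, 1), (15, 1), (17, 1), (19, 1), (26, 1), (47, 1), (51, 1)])
    (.alt (.leaf [(1, 1), (15, 1)]) (.done))))))))) (.alt (.leaf [(0, 2), (12, 2), (14, 2), (16,
    2), (18, 2), (43, 1), (44, 1), (50, 2), (54, 2)]) (.done)))))

/-- Class (0, 1, 0). -/
def AM.T2 : Tree :=
  .split 4 [] (.alt (.leaf [(0, 1), (12, 1), (14, 1), (16, 1), (18, 1), (43, 1), (51, 1)]) (.alt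
    (.leaf [(0, 1), (12, 1), (14, 1), (16, 1), (40, 1), (49, 1)]) (.alt (.split 1 [0, 0, 0, 1]
    (.alt (.leaf [(0, 2), (58, 1)]) (.alt (.leaf [(0, 2), (10, 4), (58, 3)]) (.alt (.split 6 [0,
    1, -1, -1] (.alt (.leaf [(0, 2), (9, 6), (11, 12), (13, 2), (59, 7)]) (.alt (.leaf [(0, 2),
    (9, 2), (11, 4), (13, 2), (59, 1)]) (.alt (.leaf [(0, 1), (1, 5), (8, 5), (10, 3), (12, 1),
    (14, 1), (18, 1), (20, 1), (21, 2), (26, 2), (34, 1), (45, 1)]) (.alt (.leaf [(0, 1), (1,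
    3), (8, 3), (10, 1), (12, 1), (14, 1), (18, 1), (20, 1), (21, 2), (34, 1), (45, 1)]) (.alt
    (.leaf [(0, 2), (1, 8), (2, 3), (8, 8), (10, 3), (12, 1), (14, 4), (16, 1), (18, 3), (20,
    3), (21, 4), (24, 1), (26, 2), (34, 2), (36, 1), (45, 2), (47, 1)]) (.alt (.split 1 [0, 1,
    0, -1] (.alt (.leaf [(0, 2), (12, 2), (60, 3)]) (.alt (.leaf [(0, 2), (12, 2), (60, 1)])
    (.alt (.leaf [(0, 6), (1, 4), (2, 6), (9, 12), (11, 10), (13, 4), (15, 4), (19, 4), (21, 4),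
    (24, 2), (27, 3), (28, 3), (35, 3), (37, 1), (46, 3), (48, 1)]) (.alt (.leaf [(0, 18), (1,
    4), (2, 6), (9, 24), (11, 10), (13, 4), (15, 4), (19, 4), (21, 4), (22, 12), (24, 2), (26,
    3), (28, 3), (34, 3), (37, 1), (47, 3), (48, 1)]) (.alt (.leaf [(0, 2), (1, 2), (2, 4), (9,
    6), (11, 4), (13, 2), (15, 2), (19, 2), (21, 2), (22, 2), (27, 1), (28, 1), (35, 1), (37,
    1), (46, 1), (48, 1)]) (.alt (.leaf [(0, 2), (2, 4), (3, 1), (9, 6), (11, 3), (13, 1), (15,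
    2), (17, 1), (19, 1), (21, 1), (22, 2), (24, 1), (27, 1), (28, 1), (35, 1), (46, 1)]) (.alt
    (.leaf [(3, 1), (7, 1), (14, 1), (27, 1)]) (.done))))))))) (.alt (.leaf [(0, 2), (14, 2),
    (16, 4), (64, 3)]) (.done))))))))) (.alt (.leaf [(0, 4), (7, 4), (9, 2), (11, 1), (13, 1),
    (15, 1), (17, 1), (19, 1), (21, 2), (24, 1), (45, 1), (50, 1)]) (.alt (.leaf [(0, 2), (1,
    1), (7, 2), (9, 1), (11, 1), (13, 2), (15, 1), (17, 1), (19, 1), (22, 1), (35, 1), (46, 1)])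
    (.alt (.leaf [(0, 4), (1, 1), (7, 4), (9, 2), (11, 1), (13, 2), (15, 2), (17, 2), (19, 1),
    (23, 2), (26, 1), (42, 1), (47, 1)]) (.alt (.leaf [(1, 2), (15, 2), (63, 1)])
    (.done))))))))) (.alt (.leaf [(0, 1), (12, 1), (14, 1), (16, 1), (18, 1), (46, 1), (52, 1)])
    (.done)))))

/-- Class (0, 0, 1). -/
def AM.T3 : Tree :=
  .split 4 [] (.alt (.leaf [(0, 1), (12, 1), (14, 1), (16, 1), (18, 1), (43, 1), (51, 1)]) (.alt
    (.leaf [(0, 1), (12, 1), (14, 1), (16, 1), (40, 1), (49, 1)]) (.alt (.split 1 [0, 0, 1, -1]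
    (.alt (.split 2 [0, 0, 0, 1] (.alt (.leaf [(0, 1), (1, 1), (59, 1)]) (.alt (.leaf [(0, 2),
    (11, 5), (49, 3), (59, 1)]) (.alt (.leaf [(0, 2), (10, 1), (12, 1), (14, 1), (16, 1), (18,
    1), (20, 1), (21, 1), (45, 1), (53, 1)]) (.alt (.leaf [(0, 4), (2, 1), (10, 2), (12, 1),
    (14, 2), (16, 2), (18, 1), (20, 1), (22, 2), (26, 1), (40, 1), (47, 1), (51, 1), (57, 1)])
    (.alt (.leaf [(0, 2), (10, 1), (12, 1), (23, 1), (31, 1)]) (.alt (.leaf [(0, 2), (2, 1),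
    (10, 1), (12, 1), (14, 2), (16, 2), (18, 2), (20, 2), (24, 1), (45, 1), (46, 1)]) (.alt
    (.leaf [(1, 2), (16, 3), (54, 1), (64, 1)]) (.done))))))))) (.alt (.leaf [(0, 2), (10, 3),
    (48, 1), (58, 1)]) (.alt (.leaf [(0, 2), (7, 2), (9, 1), (11, 1), (13, 1), (15, 1), (17, 1),
    (19, 1), (21, 1), (44, 1), (52, 1)]) (.alt (.leaf [(0, 4), (7, 4), (9, 2), (11, 1), (13, 1),
    (15, 1), (17, 1), (19, 1), (20, 2), (25, 1), (45, 1), (50, 1)]) (.alt (.leaf [(0, 2), (7,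
    2), (9, 1), (11, 1), (23, 1), (30, 1)]) (.alt (.leaf [(0, 2), (1, 1), (7, 2), (9, 1), (11,
    1), (13, 2), (15, 2), (17, 2), (19, 2), (22, 1), (44, 1), (45, 1)]) (.alt (.leaf [(1, 2),
    (13, 1), (15, 1)]) (.done))))))))) (.alt (.leaf [(0, 1), (12, 1), (14, 1), (16, 1), (18, 1),
    (46, 1), (52, 1)]) (.done)))))

/-- Class (1, 1, 0). -/
def AM.T4 : Tree :=
  .split 4 [] (.alt (.leaf [(0, 1), (12, 1), (14, 1), (16, 1), (18, 1), (43, 1), (51, 1)]) (.alt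
    (.leaf [(0, 1), (12, 1), (14, 1), (16, 1), (40, 1), (49, 1)]) (.alt (.split 1 [0, 1, 0, 0]
    (.alt (.leaf [(0, 1), (58, 1)]) (.alt (.leaf [(0, 1), (10, 2), (58, 1)]) (.alt (.split 2 [1,
    1, 0, -1] (.alt (.split 6 [0, 0, 1, 1] (.alt (.leaf [(0, 1), (1, 1), (10, 1), (60, 1)])
    (.alt (.leaf [(0, 2), (12, 16), (14, 3), (50, 7), (60, 1)]) (.alt (.split 6 [0, 1, -1, -1]
    (.alt (.leaf [(0, 2), (13, 14), (15, 3), (51, 7), (61, 1)]) (.alt (.leaf [(0, 2), (11, 1),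
    (13, 2), (15, 1)]) (.alt (.leaf [(0, 1), (1, 1), (20, 2), (22, 1), (44, 1), (47, 1)]) (.alt
    (.leaf [(0, 4), (3, 6), (10, 6), (12, 4), (14, 4), (16, 4), (18, 2), (20, 6), (22, 6), (23,
    2), (36, 2), (47, 5), (48, 1)]) (.alt (.leaf [(0, 2), (3, 2), (4, 3), (10, 2), (12, 1), (16,
    3), (20, 2), (22, 2), (26, 1), (28, 1), (36, 1), (38, 2), (47, 1), (49, 1)]) (.alt (.split 4
    [0, 0, 0, 1] (.alt (.leaf [(0, 1), (3, 1), (12, 1), (62, 1)]) (.alt (.leaf [(0, 2), (14, 8),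
    (16, 3), (52, 3), (62, 1)]) (.alt (.split 4 [0, 1, 0, -1] (.alt (.leaf [(0, 2), (15, 6),
    (17, 3), (53, 3), (63, 1)]) (.alt (.leaf [(0, 2), (13, 1), (15, 2), (17, 1)]) (.alt (.leaf
    [(0, 1), (1, 1), (18, 2), (20, 2), (22, 2), (24, 1), (46, 1), (49, 1)]) (.alt (.leaf [(0,
    2), (5, 3), (12, 3), (14, 2), (16, 1), (18, 3), (20, 3), (22, 3), (24, 3), (25, 1), (30, 1),
    (49, 2), (50, 1)]) (.alt (.leaf [(0, 2), (2, 2), (5, 2), (12, 2), (14, 2), (18, 2), (22, 2),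
    (24, 2), (30, 1), (31, 1), (38, 1), (40, 1), (49, 1), (51, 1)]) (.alt (.split 6 [] (.alt
    (.leaf [(0, 1), (6, 1), (13, 1), (15, 1), (23, 1), (25, 1), (31, 1), (50, 1)]) (.alt (.leaf
    [(0, 1), (6, 3), (13, 3), (15, 3), (17, 2), (19, 2), (23, 1), (25, 1), (31, 1), (39, 2),
    (50, 1)]) (.alt (.leaf [(0, 1), (1, 2), (6, 4), (7, 2), (13, 4), (15, 3), (17, 1), (19, 5),
    (21, 3), (23, 4), (25, 2), (28, 1), (31, 2), (39, 2), (48, 2), (50, 2)]) (.alt (.split 2 [0,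
    0, 1, -1] (.alt (.leaf [(0, 2), (17, 2), (19, 1), (55, 1), (65, 1)]) (.alt (.split 3 [0, 0,
    1, -1] (.alt (.leaf [(0, 1), (1, 1), (18, 3), (56, 2)]) (.alt (.split 4 [0, 0, 1, -1] (.alt
    (.leaf [(0, 1), (1, 3), (17, 1), (19, 8), (57, 4)]) (.alt (.leaf [(0, 1), (1, 1), (17, 1),
    (19, 4), (57, 2)]) (.alt (.leaf [(0, 2), (5, 2), (9, 2), (16, 2), (18, 2), (20, 2), (22, 6),
    (24, 4), (26, 4), (28, 4), (42, 2), (53, 3), (54, 1)]) (.alt (.split 1 [0, 0, 2, -1] (.alt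
    (.leaf [(0, 1), (2, 1), (20, 1), (68, 1)]) (.alt (.split 2 [0, 0, 2, -1] (.alt (.leaf [(0,
    1), (1, 1), (21, 2), (59, 1), (69, 1)]) (.alt (.split 4 [0, 1, 1, -1] (.alt (.leaf [(0, 1),
    (1, 3), (20, 1), (22, 10), (60, 7)]) (.alt (.leaf [(0, 1), (1, 1), (20, 1), (22, 6), (60,
    3)]) (.alt (.leaf [(0, 1), (3, 1), (25, 2), (27, 2), (29, 2), (31, 1), (53, 1), (56, 1)])
    (.alt (.leaf [(0, 2), (12, 5), (19, 5), (21, 4), (23, 1), (25, 3), (27, 3), (29, 3), (31,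
    3), (32, 1), (37, 3), (56, 2), (57, 1)]) (.alt (.leaf [(0, 6), (7, 10), (12, 6), (19, 6),
    (21, 4), (25, 16), (27, 16), (29, 16), (31, 10), (34, 2), (38, 4), (53, 6), (56, 7), (57,
    1), (58, 2)]) (.alt (.leaf [(0, 2), (6, 1), (12, 8), (13, 4), (19, 8), (21, 7), (23, 1),
    (25, 7), (27, 3), (29, 4), (31, 4), (34, 1), (37, 4), (38, 2), (45, 4), (56, 4)]) (.alt
    (.leaf [(3, 2), (11, 1), (12, 2), (17, 7), (18, 2), (24, 7), (26, 5), (30, 4), (32, 4), (34,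
    5), (36, 3), (37, 1), (39, 1), (42, 3), (43, 2), (58, 2), (61, 3)]) (.done))))))))) (.alt
    (.leaf [(0, 3), (2, 5), (20, 2), (22, 2), (24, 7), (26, 7), (28, 7), (30, 7), (31, 1), (55,
    4), (56, 3)]) (.alt (.leaf [(0, 2), (6, 2), (11, 4), (12, 2), (18, 4), (20, 4), (24, 4),
    (26, 4), (28, 2), (31, 1), (33, 1), (36, 3), (37, 1), (47, 2), (52, 1), (53, 1)]) (.alt
    (.leaf [(0, 1), (6, 1), (20, 1), (37, 1), (41, 1)]) (.alt (.leaf [(0, 4), (12, 10), (20, 2),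
    (22, 2), (24, 12), (26, 12), (28, 12), (30, 12), (33, 2), (55, 5), (56, 5), (57, 2)]) (.alt
    (.leaf [(2, 4), (5, 2), (10, 1), (12, 4), (16, 8), (17, 4), (23, 8), (25, 7), (27, 7), (29,
    15), (31, 7), (33, 8), (35, 8), (38, 1), (49, 8), (60, 8)]) (.done))))))))) (.alt (.leaf
    [(0, 3), (1, 5), (17, 3), (19, 2), (21, 2), (23, 7), (25, 7), (27, 7), (29, 7), (30, 1),
    (54, 4), (55, 3)]) (.alt (.leaf [(0, 2), (10, 5), (17, 7), (19, 6), (21, 1), (23, 1), (25,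
    1), (27, 1), (29, 1), (30, 1), (35, 5), (54, 1)]) (.alt (.leaf [(0, 1), (5, 1), (17, 1),
    (19, 1), (36, 1), (40, 1)]) (.alt (.leaf [(0, 2), (4, 1), (10, 12), (11, 4), (17, 14), (19,
    13), (21, 7), (23, 11), (25, 5), (27, 6), (29, 6), (32, 1), (35, 6), (43, 6), (54, 6)])
    (.alt (.leaf [(2, 4), (5, 2), (9, 1), (11, 4), (15, 8), (16, 4), (22, 8), (24, 7), (26, 7),
    (28, 15), (30, 7), (32, 8), (34, 8), (37, 1), (48, 8), (59, 8)]) (.done))))))))) (.alt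
    (.leaf [(0, 1), (4, 1), (9, 2), (16, 2), (18, 2), (22, 2), (24, 1), (26, 1), (28, 1), (34,
    1), (35, 1), (42, 1), (53, 1)]) (.alt (.leaf [(0, 2), (3, 1), (9, 8), (10, 2), (16, 8), (18,
    7), (20, 3), (22, 7), (24, 3), (26, 4), (28, 4), (31, 1), (34, 4), (42, 4), (53, 4)]) (.alt
    (.leaf [(5, 2), (8, 1), (14, 2), (15, 2), (21, 2), (23, 1), (25, 1), (27, 3), (29, 3), (31,
    4), (33, 2), (36, 1), (55, 2), (58, 2)]) (.done))))))))) (.alt (.leaf [(0, 2), (4, 2), (8,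
    2), (15, 2), (17, 2), (19, 4), (21, 6), (23, 4), (25, 4), (27, 4), (41, 2), (52, 3), (53,
    1)]) (.alt (.leaf [(0, 2), (8, 3), (15, 3), (17, 2), (19, 1), (21, 1), (23, 1), (25, 1),
    (27, 1), (28, 1), (33, 3), (52, 1)]) (.alt (.leaf [(0, 1), (2, 1), (3, 3), (8, 6), (9, 2),
    (15, 6), (17, 5), (21, 5), (23, 2), (25, 3), (27, 3), (30, 1), (33, 3), (34, 3), (41, 3),
    (52, 3)]) (.alt (.leaf [(0, 8), (8, 4), (9, 12), (15, 4), (19, 6), (21, 18), (23, 16), (25,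
    16), (27, 16), (30, 4), (33, 2), (41, 2), (52, 7), (53, 5), (54, 4)]) (.alt (.leaf [(5, 2),
    (7, 1), (13, 2), (14, 2), (20, 2), (22, 1), (24, 1), (26, 3), (28, 3), (30, 4), (32, 2),
    (35, 1), (54, 2), (57, 2)]) (.done))))))))) (.alt (.leaf [(0, 2), (3, 2), (7, 2), (14, 2),
    (16, 4), (18, 4), (20, 6), (22, 4), (24, 4), (26, 4), (40, 2), (51, 3), (52, 1)]) (.alt
    (.leaf [(0, 2), (7, 3), (14, 3), (16, 4), (18, 1), (20, 1), (22, 1), (24, 1), (26, 1), (27,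
    1), (32, 3), (51, 1)]) (.alt (.leaf [(0, 1), (1, 1), (2, 3), (7, 6), (8, 2), (14, 6), (16,
    6), (20, 5), (22, 2), (24, 3), (26, 3), (29, 1), (32, 3), (33, 3), (40, 3), (51, 3)]) (.alt
    (.leaf [(0, 4), (8, 6), (16, 2), (18, 2), (20, 8), (22, 8), (24, 8), (26, 8), (29, 2), (51,
    3), (52, 3), (53, 2)]) (.alt (.leaf [(5, 2), (6, 1), (12, 2), (13, 2), (19, 2), (21, 1),
    (23, 1), (25, 3), (27, 3), (29, 4), (31, 2), (34, 1), (53, 2), (56, 2)]) (.done)))))))))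
    (.done)))))) (.alt (.leaf [(3, 2), (10, 3), (17, 3), (19, 2), (21, 1), (23, 1), (25, 1),
    (27, 1), (29, 1), (30, 1), (35, 1), (54, 1)]) (.done))))))))) (.alt (.leaf [(0, 2), (2, 2),
    (4, 2), (11, 2), (13, 2), (15, 2), (17, 4), (19, 2), (21, 4), (23, 4), (37, 2), (48, 3),
    (49, 1)]) (.alt (.leaf [(0, 2), (4, 2), (5, 1), (11, 2), (13, 1), (17, 3), (19, 2), (21, 2),
    (23, 2), (26, 1), (29, 1), (37, 1), (48, 1), (50, 1)]) (.alt (.leaf [(0, 1), (1, 1), (4, 2),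
    (11, 2), (13, 2), (17, 1), (21, 1), (23, 1), (29, 1), (30, 1), (37, 1), (48, 1)]) (.alt
    (.leaf [(3, 1), (7, 1), (9, 1), (16, 1), (18, 1), (20, 1), (22, 1), (26, 1), (28, 1), (42,
    1), (53, 1)]) (.done))))))))) (.alt (.leaf [(0, 2), (18, 6), (20, 1), (56, 3), (66, 1)])
    (.done))))))))) (.alt (.leaf [(0, 2), (2, 4), (9, 4), (11, 3), (13, 1), (15, 1), (19, 2),
    (21, 1), (23, 1), (27, 2), (35, 1), (43, 1), (46, 1)]) (.alt (.split 4 [0, 0, 0, 1] (.alt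
    (.leaf [(0, 1), (2, 1), (11, 1), (61, 1)]) (.alt (.leaf [(0, 2), (13, 8), (15, 3), (51, 3),
    (61, 1)]) (.alt (.split 2 [0, 0, 1, -1] (.alt (.leaf [(0, 2), (14, 2), (16, 1), (52, 1),
    (62, 1)]) (.alt (.split 3 [0, 0, 1, -1] (.alt (.leaf [(0, 1), (1, 1), (15, 3), (53, 2)])
    (.alt (.split 4 [0, 1, 0, -1] (.alt (.leaf [(0, 1), (1, 3), (14, 1), (16, 9), (54, 5)])
    (.alt (.leaf [(0, 1), (1, 1), (14, 1), (16, 3), (54, 1)]) (.alt (.leaf [(0, 1), (3, 1), (19,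
    2), (21, 2), (23, 2), (25, 1), (47, 1), (50, 1)]) (.alt (.leaf [(0, 2), (6, 3), (13, 3),
    (15, 2), (17, 1), (19, 3), (21, 3), (23, 3), (25, 3), (26, 1), (31, 1), (50, 2), (51, 1)])
    (.alt (.leaf [(0, 1), (4, 1), (19, 1), (23, 1), (25, 1), (41, 1), (52, 1)]) (.alt (.split 6
    [] (.alt (.leaf [(0, 1), (7, 1), (14, 1), (16, 1), (24, 1), (26, 1), (32, 1), (51, 1)])
    (.alt (.leaf [(0, 1), (7, 3), (14, 3), (16, 3), (18, 2), (20, 2), (24, 1), (26, 1), (32, 1),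
    (40, 2), (51, 1)]) (.alt (.leaf [(0, 1), (1, 2), (7, 4), (14, 4), (16, 3), (18, 1), (20, 3),
    (22, 1), (24, 2), (26, 2), (29, 1), (32, 2), (40, 2), (51, 2), (58, 2)]) (.alt (.split 4 [0,
    0, 1, -1] (.alt (.leaf [(0, 1), (3, 3), (16, 1), (18, 8), (56, 4)]) (.alt (.leaf [(0, 1),
    (3, 1), (16, 1), (18, 4), (56, 2)]) (.alt (.leaf [(0, 2), (5, 2), (8, 2), (15, 2), (17, 2),
    (19, 2), (21, 6), (23, 4), (25, 4), (27, 4), (41, 2), (52, 3), (53, 1)]) (.alt (.split 1 [0,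
    0, 2, -1] (.alt (.leaf [(0, 1), (4, 1), (19, 1), (67, 1)]) (.alt (.split 2 [0, 0, 2, -1]
    (.alt (.leaf [(0, 1), (1, 1), (20, 2), (58, 1), (68, 1)]) (.alt (.split 4 [0, 1, 1, -1]
    (.alt (.leaf [(0, 1), (1, 3), (19, 1), (21, 10), (59, 7)]) (.alt (.leaf [(0, 1), (1, 1),
    (19, 1), (21, 6), (59, 3)]) (.alt (.leaf [(0, 1), (3, 1), (24, 2), (26, 2), (28, 2), (30,
    1), (52, 1), (55, 1)]) (.alt (.leaf [(0, 2), (11, 5), (18, 5), (20, 4), (22, 1), (24, 3),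
    (26, 3), (28, 3), (30, 3), (31, 1), (36, 3), (55, 2), (56, 1)]) (.alt (.leaf [(0, 6), (5,
    10), (11, 12), (18, 12), (20, 10), (24, 16), (26, 10), (28, 10), (30, 10), (33, 2), (36, 6),
    (37, 4), (44, 6), (55, 7), (56, 1), (57, 2)]) (.alt (.leaf [(0, 2), (3, 2), (11, 7), (12,
    1), (18, 7), (20, 5), (24, 5), (26, 3), (28, 3), (30, 3), (31, 1), (33, 1), (36, 5), (44,
    2), (55, 3), (62, 2), (68, 1)]) (.alt (.leaf [(3, 2), (16, 5), (23, 5), (25, 4), (27, 1),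
    (29, 1), (31, 1), (33, 1), (35, 1), (36, 1), (41, 3), (60, 1)]) (.done))))))))) (.alt (.leaf
    [(0, 3), (2, 5), (19, 2), (21, 2), (23, 7), (25, 7), (27, 7), (29, 7), (30, 1), (54, 4),
    (55, 3)]) (.alt (.leaf [(0, 2), (4, 2), (10, 4), (11, 2), (17, 4), (19, 4), (23, 4), (25,
    4), (27, 2), (30, 1), (32, 1), (35, 3), (36, 1), (46, 2), (51, 1), (52, 1)]) (.alt (.leaf
    [(0, 1), (4, 1), (19, 1), (36, 1), (40, 1)]) (.alt (.leaf [(0, 4), (11, 10), (19, 2), (21,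
    2), (23, 12), (25, 12), (27, 12), (29, 12), (32, 2), (54, 5), (55, 5), (56, 2)]) (.alt
    (.leaf [(2, 4), (5, 2), (8, 3), (12, 4), (13, 4), (15, 8), (22, 8), (24, 5), (26, 5), (28,
    9), (30, 1), (32, 8), (34, 8), (37, 3), (48, 8), (59, 8)]) (.done))))))))) (.alt (.leaf [(0,
    3), (1, 5), (16, 3), (18, 2), (20, 2), (22, 7), (24, 7), (26, 7), (28, 7), (29, 1), (53, 4),
    (54, 3)]) (.alt (.leaf [(0, 2), (9, 5), (16, 7), (18, 6), (20, 1), (22, 1), (24, 1), (26,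
    1), (28, 1), (29, 1), (34, 5), (53, 1)]) (.alt (.leaf [(0, 1), (3, 1), (16, 1), (18, 1),
    (35, 1), (39, 1)]) (.alt (.leaf [(0, 4), (10, 10), (16, 4), (18, 2), (20, 2), (22, 12), (24,
    12), (26, 12), (28, 12), (31, 2), (53, 5), (54, 5), (55, 2)]) (.alt (.leaf [(2, 4), (5, 2),
    (7, 3), (11, 4), (12, 4), (14, 8), (21, 8), (23, 5), (25, 5), (27, 9), (29, 1), (31, 8),
    (33, 8), (36, 3), (47, 8), (58, 8)]) (.done))))))))) (.alt (.leaf [(0, 1), (2, 1), (8, 2),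
    (15, 2), (17, 2), (21, 2), (23, 1), (25, 1), (27, 1), (33, 1), (34, 1), (41, 1), (52, 1)])
    (.alt (.leaf [(0, 2), (8, 2), (9, 3), (15, 2), (17, 1), (21, 5), (23, 4), (25, 4), (27, 4),
    (30, 1), (33, 1), (41, 1), (52, 2), (53, 1), (54, 1)]) (.alt (.leaf [(2, 1), (10, 1), (13,
    1), (20, 1), (22, 1), (24, 1), (26, 2), (28, 1), (30, 1), (32, 1), (46, 1), (57, 1)])
    (.done))))))))) (.done)))))) (.alt (.leaf [(3, 2), (11, 3), (18, 3), (20, 2), (22, 1), (24,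
    1), (26, 1), (28, 1), (30, 1), (31, 1), (36, 1), (55, 1)]) (.done))))))))) (.alt (.leaf [(0,
    2), (2, 2), (5, 2), (12, 2), (14, 2), (16, 4), (18, 6), (20, 4), (22, 4), (24, 4), (38, 2),
    (49, 3), (50, 1)]) (.alt (.leaf [(0, 2), (5, 3), (12, 3), (14, 2), (16, 1), (18, 1), (20,
    1), (22, 1), (24, 1), (25, 1), (30, 3), (49, 1)]) (.alt (.leaf [(0, 1), (2, 2), (3, 1), (5,
    1), (12, 1), (22, 1), (24, 1), (25, 1), (30, 1), (35, 2), (49, 1)]) (.alt (.leaf [(0, 8),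
    (5, 4), (6, 12), (12, 4), (16, 6), (18, 18), (20, 16), (22, 16), (24, 16), (27, 4), (30, 2),
    (38, 2), (49, 7), (50, 5), (51, 4)]) (.alt (.leaf [(2, 1), (7, 1), (10, 1), (17, 1), (19,
    1), (21, 1), (23, 2), (25, 1), (27, 1), (29, 1), (43, 1), (54, 1)]) (.done))))))))) (.alt
    (.leaf [(0, 2), (1, 2), (4, 2), (11, 2), (13, 4), (15, 4), (17, 6), (19, 4), (21, 4), (23,
    4), (37, 2), (48, 3), (49, 1)]) (.alt (.leaf [(0, 2), (4, 3), (11, 3), (13, 4), (15, 1),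
    (17, 1), (19, 1), (21, 1), (23, 1), (24, 1), (29, 3), (48, 1)]) (.alt (.leaf [(0, 1), (1,
    2), (2, 1), (4, 1), (11, 1), (13, 1), (21, 1), (23, 1), (24, 1), (29, 1), (34, 2), (48, 1)])
    (.alt (.leaf [(0, 4), (5, 6), (13, 2), (15, 2), (17, 8), (19, 8), (21, 8), (23, 8), (26, 2),
    (48, 3), (49, 3), (50, 2)]) (.alt (.leaf [(2, 1), (6, 1), (9, 1), (16, 1), (18, 1), (20, 1),
    (22, 2), (24, 1), (26, 1), (28, 1), (42, 1), (53, 1)]) (.done))))))))) (.alt (.leaf [(0, 2),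
    (3, 3), (10, 3), (12, 2), (14, 1), (16, 3), (18, 1), (20, 1), (22, 1), (24, 1), (28, 1),
    (36, 2), (47, 1)]) (.alt (.leaf [(0, 2), (3, 2), (4, 1), (10, 2), (12, 1), (16, 3), (18, 2),
    (20, 2), (22, 2), (25, 1), (28, 1), (36, 1), (47, 1), (49, 1)]) (.alt (.leaf [(0, 2), (1,
    2), (3, 2), (10, 2), (12, 2), (16, 2), (20, 2), (22, 2), (28, 1), (29, 1), (36, 1), (38, 1),
    (47, 1), (49, 1)]) (.alt (.leaf [(1, 2), (18, 4), (20, 1), (56, 1), (66, 1)])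
    (.done))))))))) (.alt (.leaf [(0, 2), (2, 4), (3, 2), (9, 4), (11, 3), (13, 1), (15, 3),
    (17, 1), (19, 2), (21, 2), (25, 1), (27, 2), (35, 2), (41, 1), (46, 2)]) (.alt (.leaf [(1,
    2), (17, 8), (19, 1), (55, 3), (65, 1)]) (.done))))))))) (.alt (.leaf [(0, 2), (9, 1), (11,
    4), (13, 1), (49, 2)]) (.alt (.leaf [(0, 2), (1, 1), (8, 1), (10, 2), (12, 1), (14, 1), (16,
    1), (18, 1), (20, 1), (22, 1), (26, 1), (45, 1)]) (.alt (.leaf [(0, 4), (1, 2), (8, 2), (10,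
    4), (12, 4), (14, 4), (16, 2), (18, 2), (20, 2), (21, 2), (34, 2), (45, 1), (46, 1)]) (.alt
    (.leaf [(0, 2), (1, 2), (2, 1), (8, 2), (10, 3), (12, 2), (14, 3), (16, 2), (18, 2), (20,
    2), (24, 1), (26, 1), (34, 1), (45, 1), (47, 1)]) (.alt (.leaf [(0, 2), (10, 1), (12, 1),
    (14, 1), (16, 1), (23, 1), (40, 1)]) (.alt (.leaf [(1, 2), (14, 1), (16, 2), (18, 1)])
    (.done))))))))) (.alt (.leaf [(0, 1), (7, 1), (9, 1), (11, 1), (13, 1), (15, 1), (17, 1),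
    (19, 1), (45, 1), (54, 1)]) (.alt (.leaf [(0, 1), (1, 1), (7, 1), (9, 1), (11, 1), (13, 2),
    (15, 1), (17, 1), (19, 1), (35, 1), (46, 1)]) (.alt (.leaf [(0, 2), (1, 1), (7, 2), (9, 2),
    (11, 1), (13, 2), (15, 2), (17, 2), (19, 1), (26, 1), (42, 1), (47, 1)]) (.alt (.leaf [(1,
    1), (15, 1)]) (.done))))))))) (.alt (.leaf [(0, 1), (12, 1), (14, 1), (16, 1), (18, 1), (46,
    1), (52, 1)]) (.done)))))

/-- Class (1, 0, 1). -/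
def AM.T5 : Tree :=
  .split 4 [] (.alt (.leaf [(0, 1), (12, 1), (14, 1), (16, 1), (18, 1), (43, 1), (51, 1)]) (.alt
    (.leaf [(0, 1), (12, 1), (14, 1), (16, 1), (40, 1), (49, 1)]) (.alt (.split 1 [0, 1, 0, 0]
    (.alt (.leaf [(0, 1), (58, 1)]) (.alt (.leaf [(0, 1), (10, 2), (58, 1)]) (.alt (.split 4 [1,
    0, 0, -1] (.alt (.leaf [(0, 2), (11, 5), (13, 1), (49, 2), (59, 1)]) (.alt (.leaf [(0, 2),
    (9, 1), (11, 3), (13, 3), (49, 1)]) (.alt (.leaf [(0, 4), (1, 6), (8, 6), (10, 4), (14, 4),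
    (16, 4), (18, 4), (20, 4), (22, 2), (26, 4), (45, 3), (46, 1)]) (.alt (.split 6 [0, 0, 0, 1]
    (.alt (.leaf [(0, 2), (10, 1), (12, 3), (14, 1), (50, 1)]) (.alt (.leaf [(0, 2), (12, 13),
    (14, 3), (50, 6), (60, 1)]) (.alt (.leaf [(0, 2), (2, 3), (9, 3), (11, 2), (13, 1), (15, 1),
    (19, 2), (21, 2), (22, 1), (27, 1), (35, 1), (46, 2)]) (.alt (.leaf [(0, 1), (1, 1), (2, 2),
    (9, 2), (11, 2), (13, 1), (15, 2), (19, 1), (21, 1), (27, 1), (35, 2), (46, 1)]) (.alt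
    (.split 1 [0, 0, 1, -1] (.alt (.leaf [(0, 2), (13, 3), (15, 1), (61, 3)]) (.alt (.split 5
    [0, 0, 0, 1] (.alt (.leaf [(0, 1), (1, 1), (14, 1)]) (.alt (.leaf [(0, 2), (14, 11), (16,
    3), (52, 4), (62, 1)]) (.alt (.leaf [(0, 4), (4, 2), (11, 2), (19, 4), (21, 4), (23, 4),
    (24, 2), (48, 3), (49, 1)]) (.alt (.leaf [(0, 2), (3, 2), (17, 2), (19, 2), (21, 2), (23,
    2), (37, 2), (48, 1), (49, 1)]) (.alt (.split 2 [0, 0, 1, -1] (.alt (.leaf [(0, 2), (15, 3),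
    (17, 1), (53, 2), (63, 1)]) (.alt (.split 4 [0, 0, 0, 1] (.alt (.leaf [(0, 1), (1, 1), (14,
    1)]) (.alt (.leaf [(0, 2), (16, 9), (18, 3), (54, 4), (64, 1)]) (.alt (.leaf [(0, 4), (6,
    2), (13, 2), (19, 4), (21, 4), (23, 4), (25, 4), (26, 2), (50, 3), (51, 1)]) (.alt (.leaf
    [(0, 2), (5, 2), (19, 4), (21, 2), (23, 2), (25, 2), (39, 2), (50, 1), (51, 1)]) (.alt
    (.split 3 [0, 0, 1, -1] (.alt (.leaf [(0, 2), (17, 5), (19, 1), (55, 2), (65, 1)]) (.alt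
    (.split 4 [0, 0, 1, -1] (.alt (.leaf [(0, 1), (1, 3), (16, 1), (18, 7), (56, 3)]) (.alt
    (.leaf [(0, 1), (1, 1), (16, 1), (18, 3), (56, 1)]) (.alt (.leaf [(0, 2), (2, 2), (7, 2),
    (8, 2), (9, 1), (15, 2), (17, 1), (21, 7), (23, 3), (25, 3), (27, 3), (30, 1), (34, 1), (41,
    4), (52, 2), (54, 1)]) (.alt (.leaf [(0, 1), (7, 1), (8, 1), (15, 1), (21, 2), (23, 2), (25,
    2), (27, 1), (28, 1), (49, 1), (52, 1)]) (.alt (.leaf [(0, 1), (2, 1), (21, 2), (23, 2),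
    (25, 1), (27, 1), (47, 1), (54, 1)]) (.alt (.leaf [(0, 2), (8, 2), (9, 3), (15, 2), (17, 1),
    (21, 5), (23, 5), (25, 5), (27, 3), (30, 1), (34, 1), (49, 2), (52, 2), (54, 1)]) (.alt
    (.leaf [(0, 1), (6, 1), (23, 2), (61, 1)]) (.done))))))))) (.alt (.leaf [(0, 1), (1, 2), (6,
    1), (7, 1), (8, 1), (14, 1), (20, 4), (22, 2), (24, 2), (26, 2), (29, 1), (33, 1), (40, 2),
    (51, 1), (53, 1)]) (.alt (.leaf [(0, 4), (1, 4), (7, 6), (8, 2), (14, 6), (16, 2), (20, 6),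
    (22, 6), (24, 6), (26, 6), (27, 2), (29, 2), (32, 4), (33, 2), (51, 3), (52, 1), (53, 2)])
    (.alt (.leaf [(0, 4), (1, 8), (7, 2), (14, 2), (20, 8), (22, 6), (24, 6), (26, 6), (29, 2),
    (32, 1), (33, 3), (40, 1), (42, 1), (51, 2), (52, 1), (53, 3)]) (.alt (.leaf [(0, 3), (1,
    1), (7, 2), (8, 5), (14, 2), (20, 6), (22, 5), (24, 5), (26, 5), (29, 2), (32, 1), (33, 2),
    (40, 1), (51, 2), (52, 1), (53, 2)]) (.alt (.leaf [(0, 2), (22, 1), (24, 1), (70, 1)])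
    (.done))))))))) (.alt (.leaf [(0, 1), (2, 1), (19, 1), (21, 2), (23, 2), (25, 2), (50, 1),
    (51, 1)]) (.alt (.leaf [(5, 2), (7, 2), (26, 2), (28, 2), (30, 2), (55, 1), (56, 1)])
    (.done))))))))) (.alt (.leaf [(0, 1), (1, 2), (4, 1), (5, 1), (6, 1), (12, 1), (14, 1), (18,
    2), (20, 2), (22, 2), (24, 2), (27, 1), (31, 1), (38, 2), (49, 1), (51, 1)]) (.alt (.leaf
    [(0, 4), (1, 4), (5, 6), (6, 2), (12, 6), (14, 6), (18, 2), (20, 6), (22, 6), (24, 6), (25,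
    2), (27, 2), (30, 4), (31, 2), (49, 3), (50, 1), (51, 2)]) (.alt (.leaf [(0, 3), (1, 5),
    (14, 2), (20, 4), (22, 4), (24, 4), (27, 1), (31, 2), (40, 1), (49, 1), (50, 1), (51, 2)])
    (.alt (.leaf [(0, 2), (6, 3), (14, 1), (18, 3), (20, 3), (22, 3), (24, 3), (27, 1), (31, 1),
    (49, 1), (50, 1), (51, 1)]) (.alt (.leaf [(0, 2), (20, 1), (22, 1), (68, 1)])
    (.done))))))))) (.alt (.leaf [(0, 1), (2, 1), (19, 1), (21, 2), (23, 2), (48, 1), (49, 1)])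
    (.alt (.leaf [(5, 1), (7, 1), (9, 2), (16, 2), (18, 2), (20, 1), (22, 1), (26, 1), (28, 1),
    (34, 1), (42, 1), (53, 1)]) (.done))))))))) (.alt (.leaf [(0, 1), (2, 1), (3, 1), (10, 2),
    (12, 2), (14, 2), (16, 3), (18, 1), (20, 1), (22, 1), (36, 2), (47, 1)]) (.alt (.leaf [(0,
    2), (3, 1), (10, 3), (12, 2), (14, 1), (16, 1), (23, 1), (28, 1), (35, 1)]) (.alt (.leaf
    [(0, 4), (1, 4), (10, 4), (12, 4), (14, 2), (16, 2), (20, 4), (22, 4), (29, 2), (38, 2),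
    (47, 1), (48, 1), (49, 2)]) (.alt (.leaf [(0, 10), (4, 3), (10, 10), (12, 5), (14, 4), (16,
    7), (18, 1), (20, 1), (22, 1), (25, 5), (30, 1), (37, 6), (50, 1)]) (.alt (.leaf [(0, 2),
    (18, 1), (20, 1), (66, 1)]) (.done))))))))) (.alt (.leaf [(0, 2), (2, 1), (3, 1), (9, 1),
    (15, 1), (19, 2), (21, 1), (25, 1), (37, 1), (43, 1), (46, 1)]) (.alt (.leaf [(1, 2), (17,
    5), (19, 1), (55, 2), (65, 1)]) (.done))))))))) (.alt (.leaf [(0, 2), (1, 4), (2, 3), (8,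
    4), (10, 3), (14, 5), (16, 3), (18, 3), (20, 3), (24, 1), (26, 2), (27, 1), (34, 2), (45,
    2), (47, 1)]) (.alt (.split 4 [0, 1, -1, 1] (.alt (.leaf [(0, 2), (10, 1), (12, 1), (14, 1),
    (50, 1)]) (.alt (.leaf [(0, 2), (12, 7), (14, 3), (50, 2), (60, 1)]) (.alt (.split 6 [0, 0,
    0, 1] (.alt (.leaf [(0, 2), (11, 1), (13, 3), (15, 1), (51, 1)]) (.alt (.leaf [(0, 2), (13,
    13), (15, 3), (51, 6), (61, 1)]) (.alt (.leaf [(0, 2), (3, 3), (10, 3), (12, 2), (14, 1),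
    (16, 1), (20, 2), (22, 2), (23, 1), (28, 1), (36, 1), (47, 2)]) (.alt (.leaf [(0, 1), (1,
    1), (3, 2), (10, 2), (12, 2), (16, 1), (20, 1), (22, 1), (28, 2), (36, 1), (47, 1)]) (.alt
    (.split 1 [0, 0, 1, -1] (.alt (.leaf [(0, 2), (14, 3), (16, 1), (62, 3)]) (.alt (.split 5
    [0, 0, 0, 1] (.alt (.leaf [(0, 1), (1, 1), (15, 1)]) (.alt (.leaf [(0, 2), (15, 11), (17,
    3), (53, 4), (63, 1)]) (.alt (.leaf [(0, 4), (5, 2), (12, 2), (20, 4), (22, 4), (24, 4),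
    (25, 2), (49, 3), (50, 1)]) (.alt (.leaf [(0, 1), (3, 1), (5, 2), (12, 2), (14, 2), (18, 1),
    (20, 1), (22, 1), (24, 1), (30, 2), (38, 1), (49, 1)]) (.alt (.split 2 [0, 0, 1, -1] (.alt
    (.leaf [(0, 2), (16, 3), (18, 1), (54, 2), (64, 1)]) (.alt (.split 4 [0, 0, 0, 1] (.alt
    (.leaf [(0, 1), (1, 1), (15, 1)]) (.alt (.leaf [(0, 2), (17, 9), (19, 3), (55, 4), (65, 1)])
    (.alt (.leaf [(0, 4), (7, 2), (14, 2), (20, 4), (22, 4), (24, 4), (26, 4), (27, 2), (51, 3),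
    (52, 1)]) (.alt (.leaf [(0, 1), (5, 1), (7, 2), (14, 2), (16, 2), (20, 2), (22, 1), (24, 1),
    (26, 1), (32, 2), (40, 1), (51, 1)]) (.alt (.split 3 [0, 0, 1, -1] (.alt (.leaf [(0, 2),
    (18, 5), (20, 1), (56, 2), (66, 1)]) (.alt (.split 4 [0, 0, 1, -1] (.alt (.leaf [(0, 1), (1,
    3), (17, 1), (19, 7), (57, 3)]) (.alt (.leaf [(0, 1), (1, 1), (17, 1), (19, 3), (57, 1)])
    (.alt (.leaf [(0, 1), (7, 1), (9, 1), (16, 1), (18, 1), (22, 2), (24, 1), (26, 1), (28, 1),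
    (34, 1), (42, 1), (53, 1)]) (.alt (.leaf [(0, 4), (9, 6), (16, 6), (18, 4), (22, 4), (24,
    4), (26, 4), (28, 4), (29, 2), (34, 4), (53, 3), (54, 1)]) (.alt (.leaf [(0, 2), (2, 4), (9,
    4), (16, 4), (18, 3), (22, 5), (24, 3), (26, 3), (28, 3), (31, 1), (34, 2), (35, 1), (39,
    1), (42, 2), (53, 2), (55, 1)]) (.alt (.leaf [(0, 1), (8, 1), (9, 2), (16, 2), (18, 1), (22,
    2), (24, 1), (26, 1), (28, 1), (31, 1), (34, 1), (42, 1), (53, 1)]) (.alt (.leaf [(0, 1),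
    (6, 1), (24, 2), (62, 1)]) (.done))))))))) (.alt (.leaf [(0, 3), (1, 3), (6, 3), (7, 1), (8,
    3), (15, 3), (17, 1), (21, 7), (23, 4), (25, 4), (27, 4), (30, 2), (33, 3), (34, 1), (41,
    3), (52, 3), (54, 1)]) (.alt (.leaf [(0, 12), (1, 12), (7, 4), (8, 18), (15, 18), (17, 4),
    (21, 16), (23, 16), (25, 16), (27, 16), (28, 6), (30, 8), (33, 12), (34, 4), (52, 9), (53,
    3), (54, 4)]) (.alt (.leaf [(0, 4), (1, 8), (8, 2), (15, 2), (21, 8), (23, 6), (25, 6), (27,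
    6), (30, 2), (33, 1), (34, 3), (41, 1), (43, 1), (52, 2), (53, 1), (54, 3)]) (.alt (.leaf
    [(0, 3), (1, 3), (7, 4), (8, 6), (15, 6), (17, 1), (21, 7), (23, 4), (25, 4), (27, 4), (30,
    5), (33, 3), (34, 1), (41, 3), (52, 3), (54, 1)]) (.alt (.leaf [(0, 2), (23, 1), (25, 1),
    (71, 1)]) (.done))))))))) (.alt (.leaf [(0, 1), (2, 1), (20, 1), (22, 2), (24, 2), (26, 2),
    (51, 1), (52, 1)]) (.alt (.leaf [(5, 1), (7, 1), (12, 2), (19, 2), (21, 2), (23, 1), (25,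
    1), (27, 1), (29, 1), (31, 1), (37, 1), (45, 1), (56, 1)]) (.done))))))))) (.alt (.leaf [(0,
    4), (4, 4), (15, 4), (17, 2), (19, 6), (21, 4), (23, 4), (25, 4), (31, 2), (39, 2), (50, 3),
    (51, 1)]) (.alt (.leaf [(0, 12), (1, 12), (5, 4), (6, 18), (13, 18), (15, 16), (19, 4), (21,
    16), (23, 16), (25, 16), (26, 6), (28, 8), (31, 12), (32, 4), (50, 9), (51, 3), (52, 4)])
    (.alt (.leaf [(0, 4), (1, 4), (15, 4), (17, 2), (19, 2), (21, 4), (23, 4), (25, 4), (32, 2),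
    (41, 2), (50, 1), (51, 1), (52, 2)]) (.alt (.leaf [(0, 2), (7, 2), (15, 1), (17, 1), (19,
    3), (21, 3), (23, 3), (25, 2), (28, 1), (48, 1), (50, 1), (51, 1)]) (.alt (.leaf [(0, 2),
    (21, 1), (23, 1), (69, 1)]) (.done))))))))) (.alt (.leaf [(0, 1), (2, 1), (5, 4), (12, 4),
    (14, 4), (16, 2), (18, 2), (20, 1), (22, 2), (24, 2), (30, 2), (38, 2), (49, 2)]) (.alt
    (.leaf [(5, 1), (7, 1), (10, 2), (17, 2), (19, 2), (21, 1), (23, 1), (27, 1), (29, 1), (35,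
    1), (43, 1), (54, 1)]) (.done))))))))) (.alt (.leaf [(0, 1), (2, 1), (11, 1), (13, 1), (15,
    1), (17, 2), (19, 2), (21, 2), (23, 1), (45, 1), (48, 1)]) (.alt (.leaf [(0, 2), (4, 1),
    (11, 3), (13, 2), (15, 1), (17, 1), (24, 1), (29, 1), (36, 1)]) (.alt (.leaf [(0, 4), (1,
    4), (11, 4), (13, 4), (15, 2), (17, 2), (21, 4), (23, 4), (30, 2), (39, 2), (48, 1), (49,
    1), (50, 2)]) (.alt (.leaf [(0, 16), (3, 8), (11, 16), (13, 4), (17, 8), (19, 2), (21, 2),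
    (23, 2), (26, 12), (28, 1), (29, 1), (31, 2), (38, 6), (51, 2)]) (.alt (.leaf [(0, 2), (19,
    1), (21, 1), (67, 1)]) (.done))))))))) (.alt (.leaf [(0, 1), (2, 1), (3, 2), (10, 2), (12,
    2), (14, 1), (16, 2), (20, 1), (22, 1), (28, 1), (36, 1), (38, 1), (47, 1)]) (.alt (.leaf
    [(1, 2), (18, 5), (20, 1), (56, 2), (66, 1)]) (.done))))))))) (.alt (.leaf [(0, 2), (2, 5),
    (9, 5), (11, 4), (13, 3), (15, 5), (17, 2), (19, 2), (21, 2), (23, 1), (27, 1), (35, 3),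
    (46, 2)]) (.alt (.leaf [(0, 2), (2, 2), (3, 3), (9, 2), (11, 1), (15, 5), (17, 3), (19, 3),
    (21, 3), (24, 1), (27, 1), (35, 1), (37, 1), (46, 1), (48, 2)]) (.alt (.leaf [(0, 1), (1,
    1), (15, 1), (17, 1), (32, 1), (41, 1)]) (.alt (.leaf [(1, 2), (17, 3), (19, 1), (65, 1)])
    (.done))))))))) (.done)))))))) (.alt (.leaf [(0, 1), (7, 1), (9, 1), (11, 1), (13, 1), (15,
    1), (17, 1), (19, 1), (45, 1), (54, 1)]) (.alt (.leaf [(0, 1), (1, 1), (7, 1), (9, 1), (11,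
    1), (13, 2), (15, 1), (17, 1), (19, 1), (35, 1), (46, 1)]) (.alt (.leaf [(0, 2), (1, 2), (7,
    2), (9, 2), (13, 2), (15, 2), (17, 2), (19, 2), (26, 2), (44, 1), (45, 1)]) (.alt (.leaf
    [(1, 1), (15, 1)]) (.done))))))))) (.alt (.leaf [(0, 1), (12, 1), (14, 1), (16, 1), (18, 1),
    (46, 1), (52, 1)]) (.done)))))

/-- Class (0, 1, 1). -/
def AM.T6 : Tree :=
  .split 4 [] (.alt (.leaf [(0, 1), (12, 1), (14, 1), (16, 1), (18, 1), (43, 1), (51, 1)]) (.alt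
    (.leaf [(0, 1), (12, 1), (14, 1), (16, 1), (40, 1), (49, 1)]) (.alt (.split 1 [0, 0, 1, -1]
    (.alt (.split 2 [0, 0, 1, -1] (.alt (.leaf [(0, 1), (1, 1), (11, 2), (59, 2)]) (.alt (.leaf
    [(0, 1), (1, 3), (11, 4), (59, 4)]) (.alt (.leaf [(0, 4), (10, 2), (12, 2), (14, 2), (16,
    2), (18, 2), (20, 2), (22, 2), (45, 1), (46, 1), (53, 2), (55, 2)]) (.alt (.leaf [(0, 2),
    (10, 1), (21, 1), (26, 1)]) (.alt (.leaf [(0, 2), (10, 1), (24, 1), (27, 1)]) (.alt (.leaf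
    [(0, 4), (2, 4), (10, 2), (12, 2), (14, 6), (16, 4), (18, 4), (20, 4), (23, 2), (36, 2),
    (45, 1), (46, 1), (47, 2)]) (.alt (.leaf [(1, 1), (6, 1), (16, 1), (64, 1)]) (.done)))))))))
    (.alt (.leaf [(0, 2), (10, 2), (48, 1), (58, 1)]) (.alt (.leaf [(0, 4), (7, 4), (9, 2), (11,
    2), (13, 2), (15, 2), (17, 2), (19, 2), (21, 2), (44, 1), (45, 1), (52, 2), (54, 2)]) (.alt
    (.leaf [(0, 2), (7, 2), (9, 1), (20, 1), (25, 1)]) (.alt (.leaf [(0, 2), (7, 2), (9, 1),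
    (23, 1), (26, 1)]) (.alt (.leaf [(0, 4), (1, 4), (7, 4), (9, 2), (11, 2), (13, 6), (15, 4),
    (17, 4), (19, 4), (22, 2), (35, 2), (44, 1), (45, 1), (46, 2)]) (.alt (.leaf [(1, 2), (13,
    1)]) (.done))))))))) (.alt (.leaf [(0, 1), (12, 1), (14, 1), (16, 1), (18, 1), (46, 1), (52,
    1)]) (.done)))))

/-- Class (1, 1, 1). -/
def AM.T7 : Tree :=
  .split 4 [] (.alt (.leaf [(0, 1), (12, 1), (14, 1), (16, 1), (18, 1), (43, 1), (51, 1)]) (.alt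
    (.leaf [(0, 1), (12, 1), (14, 1), (16, 1), (40, 1), (49, 1)]) (.alt (.split 1 [0, 1, 0, 0]
    (.alt (.leaf [(0, 1), (58, 1)]) (.alt (.leaf [(0, 1), (10, 2), (58, 1)]) (.alt (.split 6 [0,
    0, 0, 1] (.alt (.leaf [(0, 2), (9, 2), (11, 2), (13, 1), (59, 1)]) (.alt (.leaf [(0, 2), (9,
    6), (11, 14), (13, 3), (59, 7)]) (.alt (.split 4 [1, 1, 0, -1] (.alt (.leaf [(0, 2), (10,
    2), (12, 4), (14, 1), (60, 3)]) (.alt (.leaf [(0, 2), (10, 2), (12, 4), (14, 3), (60, 1)])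
    (.alt (.leaf [(0, 1), (1, 1), (2, 3), (9, 3), (11, 3), (13, 1), (15, 2), (17, 1), (19, 2),
    (21, 2), (27, 2), (35, 1), (46, 2)]) (.alt (.leaf [(0, 2), (2, 2), (9, 2), (11, 1), (13, 1),
    (15, 3), (17, 1), (19, 1), (21, 1), (22, 1), (35, 2), (46, 1)]) (.alt (.leaf [(0, 2), (2,
    4), (3, 2), (9, 4), (11, 3), (13, 1), (15, 5), (17, 3), (19, 3), (21, 3), (25, 1), (27, 2),
    (35, 2), (46, 2), (48, 1)]) (.alt (.split 3 [0, 0, 1, -1] (.alt (.leaf [(0, 2), (11, 2),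
    (13, 6), (15, 1), (61, 3)]) (.alt (.split 4 [0, 0, 1, -1] (.alt (.leaf [(0, 2), (12, 2),
    (14, 6), (16, 3), (62, 3)]) (.alt (.leaf [(0, 2), (12, 2), (14, 2), (16, 1), (62, 1)]) (.alt
    (.leaf [(0, 1), (3, 1), (4, 2), (11, 2), (13, 2), (15, 2), (17, 3), (19, 2), (21, 3), (23,
    2), (37, 1), (45, 1), (48, 2)]) (.alt (.split 4 [0, 1, 0, -1] (.alt (.leaf [(0, 2), (13, 4),
    (15, 8), (17, 3), (63, 5)]) (.alt (.leaf [(0, 1), (2, 1), (13, 1), (15, 1)]) (.alt (.leaf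
    [(0, 1), (1, 1), (5, 2), (12, 2), (14, 2), (18, 2), (20, 1), (22, 1), (24, 1), (30, 2), (38,
    1), (49, 1)]) (.alt (.leaf [(0, 2), (5, 2), (12, 2), (14, 1), (16, 1), (18, 3), (20, 3),
    (22, 3), (24, 3), (25, 1), (49, 2), (50, 1)]) (.alt (.leaf [(0, 2), (3, 2), (18, 4), (20,
    2), (22, 2), (24, 2), (40, 2), (49, 1), (50, 1)]) (.alt (.split 1 [0, 0, 2, -1] (.alt (.leaf
    [(0, 1), (3, 1), (16, 1), (64, 1)]) (.alt (.split 2 [0, 0, 2, -1] (.alt (.leaf [(0, 1), (1,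
    1), (15, 1), (17, 2), (65, 2)]) (.alt (.split 4 [0, 1, 1, -1] (.alt (.leaf [(0, 2), (16, 2),
    (18, 4), (20, 3), (66, 3)]) (.alt (.leaf [(0, 1), (1, 1), (16, 3), (18, 4), (66, 2)]) (.alt
    (.leaf [(0, 1), (4, 1), (21, 2), (23, 2), (25, 2), (27, 1), (49, 1), (52, 1)]) (.alt (.leaf
    [(0, 2), (8, 4), (15, 4), (17, 3), (19, 1), (21, 3), (23, 3), (25, 3), (27, 3), (28, 1),
    (33, 2), (52, 2), (53, 1)]) (.alt (.leaf [(0, 3), (3, 5), (8, 6), (15, 6), (17, 5), (21, 7),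
    (23, 4), (25, 4), (27, 4), (30, 1), (33, 3), (34, 2), (38, 1), (41, 3), (52, 3), (54, 1)])
    (.alt (.leaf [(0, 2), (8, 4), (9, 3), (15, 4), (17, 3), (21, 5), (23, 3), (25, 3), (27, 2),
    (30, 1), (33, 2), (34, 1), (41, 2), (50, 1), (52, 2)]) (.alt (.leaf [(3, 2), (13, 4), (20,
    4), (22, 3), (24, 1), (26, 1), (28, 1), (30, 1), (32, 1), (33, 1), (38, 2), (57, 1)])
    (.done))))))))) (.alt (.leaf [(0, 2), (3, 4), (16, 1), (18, 1), (20, 5), (22, 5), (24, 5),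
    (26, 5), (27, 1), (51, 3), (52, 2)]) (.alt (.leaf [(0, 4), (2, 1), (5, 1), (7, 8), (14, 8),
    (16, 9), (20, 2), (22, 2), (24, 2), (26, 2), (27, 2), (29, 1), (32, 8), (33, 1), (51, 2)])
    (.alt (.leaf [(0, 1), (2, 1), (16, 1), (33, 1), (37, 1)]) (.alt (.leaf [(0, 2), (3, 10), (7,
    18), (8, 4), (14, 18), (16, 14), (20, 14), (22, 10), (24, 10), (26, 10), (27, 5), (29, 1),
    (32, 14), (40, 4), (51, 9), (53, 1)]) (.alt (.leaf [(2, 2), (8, 4), (12, 2), (19, 2), (21,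
    1), (23, 1), (25, 5), (27, 5), (29, 5), (31, 3), (32, 1), (53, 2), (56, 3)]) (.done)))))))))
    (.alt (.leaf [(0, 2), (2, 4), (13, 2), (15, 1), (17, 1), (19, 5), (21, 5), (23, 5), (25, 5),
    (26, 1), (50, 3), (51, 2)]) (.alt (.leaf [(0, 2), (6, 4), (13, 6), (15, 5), (17, 1), (19,
    1), (21, 1), (23, 1), (25, 1), (26, 1), (31, 4), (50, 1)]) (.alt (.leaf [(0, 1), (1, 1),
    (13, 1), (15, 1), (32, 1), (36, 1)]) (.alt (.leaf [(0, 2), (2, 10), (6, 18), (7, 4), (13,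
    20), (15, 14), (19, 14), (21, 10), (23, 10), (25, 10), (26, 5), (28, 1), (31, 14), (39, 4),
    (50, 9), (52, 1)]) (.alt (.leaf [(2, 2), (7, 4), (11, 2), (18, 2), (20, 1), (22, 1), (24,
    5), (26, 5), (28, 5), (30, 3), (31, 1), (52, 2), (55, 3)]) (.done))))))))) (.alt (.leaf [(3,
    2), (10, 2), (17, 2), (19, 1), (21, 1), (23, 1), (25, 1), (27, 1), (29, 1), (30, 1), (54,
    1)]) (.done))))))))) (.alt (.leaf [(0, 1), (2, 1), (17, 1), (19, 1), (34, 1), (43, 1)])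
    (.alt (.leaf [(0, 2), (4, 4), (5, 2), (11, 4), (13, 3), (15, 1), (17, 5), (19, 3), (21, 3),
    (23, 3), (26, 1), (29, 2), (37, 2), (48, 2), (50, 1)]) (.alt (.leaf [(2, 1), (8, 1), (9, 1),
    (16, 1), (18, 1), (20, 1), (22, 1), (26, 1), (28, 1), (42, 1), (53, 1)]) (.done)))))))))
    (.alt (.leaf [(0, 2), (3, 2), (10, 2), (12, 1), (14, 3), (16, 3), (18, 1), (20, 1), (22, 1),
    (24, 1), (36, 2), (47, 1)]) (.alt (.leaf [(0, 2), (3, 2), (10, 2), (12, 1), (14, 1), (16,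
    1), (18, 1), (20, 1), (22, 1), (23, 1), (28, 2), (47, 1)]) (.alt (.leaf [(0, 1), (1, 1),
    (14, 1), (16, 1), (18, 1), (33, 1), (42, 1)]) (.alt (.leaf [(0, 2), (3, 4), (4, 2), (10, 4),
    (12, 3), (14, 3), (16, 5), (18, 3), (20, 3), (22, 3), (25, 1), (28, 2), (36, 2), (47, 2),
    (49, 1)]) (.alt (.leaf [(2, 1), (7, 1), (8, 1), (15, 1), (17, 1), (19, 1), (21, 1), (25, 1),
    (27, 1), (41, 1), (52, 1)]) (.done))))))))) (.alt (.leaf [(2, 1), (6, 1), (7, 1), (14, 1),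
    (16, 1), (24, 1), (26, 1), (32, 1), (51, 1)]) (.done))))))))) (.alt (.leaf [(0, 2), (1, 3),
    (8, 3), (10, 2), (12, 1), (14, 1), (18, 2), (20, 1), (22, 1), (26, 1), (34, 1), (42, 1),
    (45, 1)]) (.alt (.split 6 [] (.alt (.leaf [(0, 1), (2, 1), (9, 1), (11, 1), (19, 1), (21,
    1), (27, 1), (46, 1)]) (.alt (.leaf [(0, 1), (2, 3), (9, 3), (11, 3), (13, 2), (15, 2), (19,
    1), (21, 1), (27, 1), (35, 2), (46, 1)]) (.alt (.leaf [(0, 1), (2, 2), (3, 1), (9, 2), (11,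
    2), (13, 1), (15, 2), (17, 1), (19, 2), (21, 2), (27, 1), (35, 1), (46, 1), (48, 1)]) (.alt
    (.split 3 [0, 0, 1, -1] (.alt (.leaf [(0, 2), (11, 2), (13, 6), (15, 1), (61, 3)]) (.alt
    (.split 4 [0, 0, 0, 1] (.alt (.leaf [(0, 1), (1, 1), (12, 1)]) (.alt (.leaf [(0, 2), (12,
    4), (14, 10), (16, 3), (62, 5)]) (.alt (.split 4 [0, 0, 1, -1] (.alt (.leaf [(0, 2), (13,
    2), (15, 6), (17, 3), (63, 3)]) (.alt (.leaf [(0, 2), (13, 2), (15, 2), (17, 1), (63, 1)])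
    (.alt (.leaf [(0, 2), (1, 2), (5, 2), (12, 2), (14, 2), (16, 2), (18, 6), (20, 4), (22, 4),
    (24, 4), (38, 2), (49, 3), (50, 1)]) (.alt (.split 1 [0, 0, 2, -1] (.alt (.leaf [(0, 1), (3,
    1), (16, 1), (64, 1)]) (.alt (.split 2 [0, 0, 2, -1] (.alt (.leaf [(0, 1), (1, 1), (15, 1),
    (17, 2), (65, 2)]) (.alt (.split 3 [0, 0, 2, -1] (.alt (.leaf [(0, 1), (1, 1), (16, 2), (18,
    3), (66, 2)]) (.alt (.split 4 [0, 1, 1, -1] (.alt (.leaf [(0, 1), (1, 3), (17, 7), (19, 11),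
    (67, 6)]) (.alt (.leaf [(0, 1), (1, 1), (17, 3), (19, 5), (67, 2)]) (.alt (.leaf [(0, 1),
    (4, 1), (22, 2), (24, 2), (26, 2), (28, 1), (50, 1), (53, 1)]) (.alt (.leaf [(0, 2), (9, 4),
    (16, 4), (18, 3), (20, 1), (22, 3), (24, 3), (26, 3), (28, 3), (29, 1), (34, 2), (53, 2),
    (54, 1)]) (.alt (.leaf [(0, 1), (5, 2), (7, 1), (8, 1), (9, 2), (16, 2), (18, 1), (22, 2),
    (26, 2), (28, 2), (29, 1), (34, 1), (39, 1), (42, 1), (44, 1), (53, 2)]) (.alt (.leaf [(0,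
    2), (7, 1), (9, 6), (10, 3), (16, 6), (18, 5), (22, 5), (24, 2), (26, 3), (28, 3), (31, 1),
    (34, 3), (35, 2), (42, 3), (53, 3)]) (.alt (.leaf [(3, 2), (14, 4), (21, 4), (23, 3), (25,
    1), (27, 1), (29, 1), (31, 1), (33, 1), (34, 1), (39, 2), (58, 1)]) (.done))))))))) (.alt
    (.leaf [(0, 6), (3, 10), (8, 2), (15, 2), (19, 6), (21, 16), (23, 14), (25, 14), (27, 14),
    (28, 2), (41, 2), (52, 9), (53, 5)]) (.alt (.leaf [(0, 2), (8, 4), (15, 4), (17, 3), (19,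
    1), (21, 1), (23, 1), (25, 1), (27, 1), (28, 1), (33, 4), (52, 1)]) (.alt (.leaf [(0, 1),
    (3, 2), (7, 1), (8, 2), (15, 2), (17, 1), (25, 1), (27, 1), (28, 1), (33, 2), (38, 2), (52,
    1)]) (.alt (.leaf [(0, 8), (8, 4), (9, 16), (15, 4), (19, 6), (21, 22), (23, 20), (25, 20),
    (27, 20), (30, 4), (33, 2), (41, 2), (52, 9), (53, 7), (54, 4)]) (.alt (.leaf [(2, 3), (5,
    1), (9, 3), (11, 2), (12, 3), (13, 6), (20, 6), (22, 4), (24, 4), (26, 7), (28, 1), (30, 6),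
    (32, 6), (35, 2), (46, 6), (57, 6)]) (.done))))))))) (.alt (.leaf [(0, 2), (2, 4), (16, 1),
    (18, 1), (20, 5), (22, 5), (24, 5), (26, 5), (27, 1), (51, 3), (52, 2)]) (.alt (.leaf [(0,
    2), (7, 4), (14, 4), (16, 5), (18, 1), (20, 1), (22, 1), (24, 1), (26, 1), (27, 1), (32, 4),
    (51, 1)]) (.alt (.leaf [(0, 1), (2, 2), (6, 1), (7, 2), (14, 2), (16, 2), (24, 1), (26, 1),
    (27, 1), (32, 2), (37, 2), (51, 1)]) (.alt (.leaf [(0, 2), (8, 4), (16, 1), (18, 1), (20,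
    5), (22, 5), (24, 5), (26, 5), (29, 1), (51, 2), (52, 2), (53, 1)]) (.alt (.leaf [(2, 3),
    (5, 1), (8, 3), (10, 2), (11, 3), (12, 6), (19, 6), (21, 4), (23, 4), (25, 7), (27, 1), (29,
    6), (31, 6), (34, 2), (45, 6), (56, 6)]) (.done))))))))) (.alt (.leaf [(0, 2), (1, 4), (13,
    2), (15, 1), (17, 1), (19, 5), (21, 5), (23, 5), (25, 5), (26, 1), (50, 3), (51, 2)]) (.alt
    (.leaf [(0, 2), (6, 4), (13, 6), (15, 5), (17, 1), (19, 1), (21, 1), (23, 1), (25, 1), (26,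
    1), (31, 4), (50, 1)]) (.alt (.leaf [(0, 1), (1, 2), (5, 1), (6, 2), (13, 3), (15, 2), (23,
    1), (25, 1), (26, 1), (31, 2), (36, 2), (50, 1)]) (.alt (.leaf [(0, 2), (7, 4), (13, 2),
    (15, 1), (17, 1), (19, 5), (21, 5), (23, 5), (25, 5), (28, 1), (50, 2), (51, 2), (52, 1)])
    (.alt (.leaf [(2, 3), (5, 1), (7, 3), (9, 2), (10, 3), (11, 6), (18, 6), (20, 4), (22, 4),
    (24, 7), (26, 1), (28, 6), (30, 6), (33, 2), (44, 6), (55, 6)]) (.done))))))))) (.alt (.leaf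
    [(0, 2), (4, 2), (5, 2), (12, 2), (14, 2), (18, 2), (22, 2), (24, 2), (30, 1), (31, 1), (38,
    1), (40, 1), (49, 1), (51, 1)]) (.alt (.leaf [(0, 4), (5, 4), (6, 4), (12, 4), (14, 2), (18,
    8), (20, 6), (22, 6), (24, 6), (27, 2), (30, 2), (38, 2), (49, 3), (50, 1), (51, 2)]) (.alt
    (.leaf [(2, 1), (6, 1), (10, 1), (17, 1), (19, 1), (21, 1), (23, 2), (25, 1), (27, 1), (29,
    1), (43, 1), (54, 1)]) (.done))))))))) (.alt (.leaf [(0, 2), (4, 4), (11, 4), (13, 3), (15,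
    1), (17, 3), (19, 1), (21, 1), (23, 1), (25, 1), (29, 2), (37, 2), (48, 1)]) (.alt (.leaf
    [(0, 2), (2, 1), (4, 2), (11, 2), (13, 1), (17, 1), (21, 1), (23, 1), (26, 1), (29, 1), (34,
    1), (37, 1), (48, 1)]) (.alt (.leaf [(0, 1), (3, 1), (4, 4), (11, 4), (13, 4), (15, 2), (17,
    3), (19, 1), (21, 2), (23, 2), (29, 2), (37, 2), (48, 2)]) (.alt (.leaf [(5, 1), (8, 1), (9,
    2), (16, 2), (18, 2), (20, 1), (22, 1), (26, 1), (28, 1), (34, 1), (42, 1), (53, 1)])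
    (.done))))))))) (.alt (.leaf [(0, 2), (3, 2), (10, 2), (12, 1), (14, 3), (16, 3), (18, 1),
    (20, 1), (22, 1), (24, 1), (36, 2), (47, 1)]) (.alt (.leaf [(0, 2), (3, 2), (10, 2), (12,
    1), (14, 1), (16, 1), (18, 1), (20, 1), (22, 1), (23, 1), (28, 2), (47, 1)]) (.alt (.leaf
    [(0, 2), (2, 2), (3, 2), (10, 2), (12, 2), (14, 2), (16, 2), (20, 2), (22, 2), (28, 1), (29,
    1), (36, 1), (38, 1), (47, 1), (49, 1)]) (.alt (.leaf [(0, 8), (3, 4), (4, 8), (10, 4), (14,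
    6), (16, 14), (18, 12), (20, 12), (22, 12), (25, 4), (28, 2), (36, 2), (47, 5), (48, 3),
    (49, 4)]) (.alt (.leaf [(5, 2), (6, 1), (8, 2), (9, 1), (15, 2), (17, 1), (21, 1), (25, 1),
    (27, 1), (30, 1), (33, 1), (41, 1), (52, 1)]) (.done))))))))) (.done)))))) (.alt (.leaf [(0,
    2), (1, 2), (2, 1), (8, 2), (10, 1), (14, 1), (18, 1), (20, 1), (24, 1), (26, 1), (34, 1),
    (40, 1), (45, 1)]) (.alt (.leaf [(1, 2), (14, 2), (16, 6), (18, 1), (64, 3)])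
    (.done))))))))) (.alt (.leaf [(0, 1), (7, 1), (9, 1), (11, 1), (13, 1), (15, 1), (17, 1),
    (19, 1), (45, 1), (54, 1)]) (.alt (.leaf [(0, 1), (1, 1), (7, 1), (9, 1), (11, 1), (13, 2),
    (15, 1), (17, 1), (19, 1), (35, 1), (46, 1)]) (.alt (.leaf [(0, 2), (1, 2), (7, 2), (9, 2),
    (13, 2), (15, 2), (17, 2), (19, 2), (26, 2), (44, 1), (45, 1)]) (.alt (.leaf [(1, 1), (15,
    1)]) (.done))))))))) (.alt (.leaf [(0, 1), (12, 1), (14, 1), (16, 1), (18, 1), (46, 1), (52,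
    1)]) (.done)))))

/-- The eight classes. -/
def AM.T : ℕ → Tree
  | 0 => AM.T0
  | 1 => AM.T1
  | 2 => AM.T2
  | 3 => AM.T3
  | 4 => AM.T4
  | 5 => AM.T5
  | 6 => AM.T6
  | 7 => AM.T7
  | _ => .done

theorem AM.chk : checkCls AM.D 2 [(1, 0, -1)] AM.T = true := by decide +kernel

/-- Type A, `z_{-1} = u - w`: `q(v) < M_{-2}`. -/
def AN.D : Data :=
  ⟨[none, none, some [1, 0, -1], some [0, -1, 1], some [0, 0, 1], some [1, 0, 0], some [1, 1, 0],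
    some [1, 0, 1], some [1, 1, 1]],
    sup, stdExt ++ [⟨true, [(1, 1)], [0, -1, 0], [], []⟩], []⟩

/-- Class (0, 0, 0). -/
def AN.T0 : Tree :=
  .split 0 [0, 0, 0, 1] (.alt (.leaf [(0, 2), (1, 1), (3, 1)]) (.alt (.leaf [(0, 2), (1, 3), (3,
    3)]) (.alt (.leaf [(0, 4), (4, 4), (6, 2), (8, 2), (10, 2), (12, 2), (14, 2), (16, 2), (18,
    2), (19, 2), (47, 1), (48, 1)]) (.alt (.leaf [(0, 4), (4, 4), (6, 2), (8, 2), (10, 2), (12,
    2), (14, 2), (16, 2), (18, 2), (20, 2), (47, 1), (48, 1)]) (.alt (.leaf [(0, 4), (4, 4), (6,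
    2), (8, 2), (10, 2), (12, 2), (14, 2), (16, 2), (18, 2), (21, 2), (47, 1), (48, 1)]) (.alt
    (.leaf [(0, 4), (4, 4), (6, 2), (8, 2), (10, 2), (12, 2), (14, 2), (16, 2), (18, 2), (22,
    2), (47, 1), (48, 1)]) (.alt (.leaf [(1, 2), (6, 1), (8, 1)]) (.done))))))))

/-- Class (1, 0, 0). -/
def AN.T1 : Tree :=
  .split 4 [] (.alt (.leaf [(0, 1), (12, 1), (14, 1), (16, 1), (18, 1), (47, 1), (55, 1)]) (.alt
    (.leaf [(0, 1), (12, 1), (14, 1), (16, 1), (44, 1), (53, 1)]) (.alt (.split 0 [0, 1, 0, 0]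
    (.alt (.leaf [(0, 1), (62, 1)]) (.alt (.leaf [(0, 1), (2, 1), (4, 1), (10, 1)]) (.alt
    (.split 6 [] (.alt (.leaf [(0, 1), (1, 1), (6, 1), (8, 1), (10, 1), (18, 1), (20, 1), (30,
    1), (49, 1)]) (.alt (.leaf [(0, 1), (1, 3), (6, 3), (8, 3), (10, 3), (12, 2), (14, 2), (18,
    1), (20, 1), (30, 1), (38, 2), (49, 1)]) (.alt (.leaf [(0, 1), (1, 2), (2, 1), (6, 2), (8,
    2), (10, 2), (12, 1), (14, 2), (16, 1), (18, 2), (20, 2), (30, 1), (38, 1), (49, 1), (51,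
    1)]) (.alt (.split 2 [1, -1, 0, -1] (.alt (.leaf [(0, 2), (4, 1), (6, 1), (10, 1), (12, 1)])
    (.alt (.leaf [(0, 2), (4, 2), (6, 2), (8, 4), (10, 3), (64, 1)]) (.alt (.leaf [(0, 4), (2,
    8), (7, 8), (9, 6), (11, 10), (13, 8), (15, 8), (17, 8), (19, 8), (21, 8), (23, 2), (31, 2),
    (50, 5), (51, 3)]) (.alt (.split 2 [1, 0, 0, -1] (.alt (.leaf [(0, 2), (11, 1), (65, 1)])
    (.alt (.leaf [(0, 2), (5, 3), (7, 3), (9, 4), (11, 3), (13, 1)]) (.alt (.leaf [(0, 3), (1,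
    3), (12, 5), (14, 3), (16, 3), (18, 3), (20, 3), (22, 3), (28, 1), (32, 2), (51, 2), (52,
    1)]) (.alt (.leaf [(0, 2), (2, 1), (3, 1), (4, 2), (8, 1), (12, 1), (16, 2), (18, 1), (20,
    2), (22, 1), (23, 1), (30, 1), (33, 1), (40, 1), (48, 1), (51, 1)]) (.alt (.leaf [(0, 8),
    (3, 4), (8, 4), (12, 8), (14, 6), (16, 6), (18, 4), (20, 4), (22, 4), (26, 4), (32, 2), (40,
    2), (51, 3), (52, 1), (58, 4)]) (.alt (.leaf [(0, 8), (3, 4), (8, 4), (12, 5), (14, 3), (16,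
    3), (18, 3), (20, 3), (22, 2), (25, 4), (28, 1), (30, 2), (32, 2), (48, 1), (51, 2), (62,
    2)]) (.alt (.leaf [(1, 2), (10, 1), (12, 1), (14, 2), (16, 1), (18, 1)]) (.done)))))))))
    (.alt (.leaf [(0, 2), (1, 1), (2, 4), (3, 3), (7, 4), (9, 3), (11, 5), (15, 3), (17, 1),
    (19, 2), (21, 2), (25, 1), (31, 2), (32, 3), (39, 2), (50, 2)]) (.alt (.leaf [(0, 4), (1,
    4), (2, 5), (7, 5), (9, 3), (11, 4), (13, 2), (15, 2), (19, 4), (21, 3), (24, 2), (29, 3),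
    (31, 2), (39, 2), (47, 1), (50, 3), (61, 3)]) (.alt (.leaf [(2, 4), (7, 8), (12, 8), (14,
    6), (16, 6), (18, 4), (20, 4), (22, 4), (24, 4), (26, 4), (28, 2), (36, 2), (55, 3), (56,
    1)]) (.done))))))))) (.done)))))) (.alt (.leaf [(0, 1), (5, 1), (7, 1), (9, 1), (11, 1),
    (13, 1), (15, 1), (17, 1), (19, 1), (49, 1), (58, 1)]) (.alt (.leaf [(0, 1), (5, 1), (7, 1),
    (9, 1), (11, 1), (13, 1), (15, 1), (17, 1), (19, 1), (50, 1), (59, 1)]) (.alt (.leaf [(0,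
    2), (5, 2), (7, 2), (9, 2), (11, 1), (13, 1), (15, 1), (17, 1), (19, 1), (30, 1), (51, 1),
    (55, 1)]) (.alt (.leaf [(1, 1), (15, 1)]) (.done))))))))) (.alt (.leaf [(0, 2), (12, 2),
    (14, 2), (16, 2), (18, 2), (47, 1), (48, 1), (54, 2), (58, 2)]) (.done)))))

/-- Class (0, 1, 0). -/
def AN.T2 : Tree :=
  .split 4 [] (.alt (.leaf [(0, 1), (12, 1), (14, 1), (16, 1), (18, 1), (47, 1), (55, 1)]) (.alt
    (.leaf [(0, 1), (12, 1), (14, 1), (16, 1), (44, 1), (53, 1)]) (.alt (.split 0 [0, 0, 0, 1]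
    (.alt (.leaf [(0, 2), (62, 1)]) (.alt (.leaf [(0, 2), (2, 3), (4, 3), (10, 1)]) (.alt
    (.split 6 [] (.alt (.leaf [(0, 1), (1, 2), (6, 2), (8, 1), (10, 1), (18, 1), (20, 1), (21,
    1), (30, 1), (49, 1)]) (.alt (.leaf [(0, 2), (1, 8), (6, 8), (8, 4), (10, 3), (12, 3), (14,
    3), (16, 3), (18, 5), (20, 2), (21, 4), (26, 1), (46, 3), (49, 2)]) (.alt (.leaf [(0, 1),
    (1, 2), (2, 1), (6, 2), (8, 1), (10, 1), (12, 1), (14, 2), (16, 2), (18, 3), (20, 2), (21,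
    1), (46, 1), (49, 1), (51, 1)]) (.alt (.split 7 [] (.alt (.leaf [(0, 2), (1, 1), (2, 22),
    (3, 2), (7, 22), (9, 11), (11, 7), (15, 2), (17, 2), (19, 3), (21, 5), (22, 11), (27, 3),
    (29, 1), (31, 6), (32, 1), (50, 5)]) (.alt (.split 4 [0, 1, -1, -1] (.alt (.leaf [(0, 2),
    (5, 7), (7, 7), (9, 6), (11, 4), (13, 3)]) (.alt (.leaf [(0, 2), (5, 1), (7, 1), (9, 2),
    (13, 1)]) (.alt (.leaf [(0, 3), (3, 3), (8, 3), (10, 3), (12, 3), (14, 1), (16, 4), (18, 3),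
    (20, 1), (22, 1), (32, 2), (40, 1), (43, 2), (52, 1)]) (.alt (.leaf [(0, 4), (3, 8), (8, 8),
    (10, 2), (16, 4), (18, 4), (20, 4), (22, 4), (23, 6), (28, 2), (51, 3), (52, 1)]) (.alt
    (.leaf [(0, 2), (2, 1), (3, 8), (4, 3), (8, 8), (10, 3), (12, 2), (14, 2), (16, 7), (18, 7),
    (20, 8), (22, 4), (23, 4), (26, 1), (30, 1), (48, 4), (51, 4)]) (.alt (.split 2 [0, 0, 1,
    -1] (.alt (.leaf [(0, 2), (66, 1)]) (.alt (.leaf [(0, 2), (6, 3), (8, 3), (10, 4), (12, 4),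
    (14, 1)]) (.alt (.leaf [(0, 10), (4, 6), (9, 6), (11, 4), (13, 9), (15, 9), (17, 9), (19,
    9), (21, 9), (23, 2), (25, 2), (29, 5), (48, 7), (53, 2)]) (.alt (.leaf [(0, 1), (4, 1), (9,
    1), (13, 1), (24, 1), (33, 1)]) (.alt (.leaf [(0, 1), (1, 1), (13, 1), (34, 1), (38, 1)])
    (.alt (.leaf [(0, 2), (3, 1), (4, 8), (5, 3), (9, 8), (11, 3), (13, 2), (15, 2), (17, 5),
    (19, 5), (21, 2), (24, 4), (26, 1), (29, 2), (31, 1), (44, 4), (49, 2)]) (.alt (.leaf [(2,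
    8), (6, 4), (7, 3), (9, 8), (14, 8), (16, 6), (22, 4), (24, 4), (26, 4), (28, 2), (31, 2),
    (34, 4), (36, 2), (53, 1), (55, 4), (60, 2)]) (.done))))))))) (.alt (.leaf [(4, 2), (7, 1),
    (8, 4), (9, 3), (13, 4), (15, 1), (21, 3), (23, 3), (25, 4), (27, 2), (28, 2), (31, 1), (35,
    1), (53, 2), (56, 2)]) (.done))))))))) (.alt (.leaf [(0, 1), (1, 1), (2, 2), (7, 2), (9, 1),
    (11, 1), (19, 1), (21, 1), (22, 1), (32, 1), (47, 1), (50, 1)]) (.alt (.leaf [(0, 1), (2,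
    4), (3, 2), (7, 4), (9, 2), (11, 1), (13, 1), (15, 3), (17, 3), (19, 3), (21, 2), (22, 2),
    (29, 1), (47, 2), (50, 2)]) (.done)))))) (.done)))))) (.alt (.leaf [(0, 4), (5, 4), (7, 2),
    (9, 2), (11, 2), (13, 2), (15, 2), (17, 2), (19, 1), (21, 2), (44, 1), (49, 1), (54, 1),
    (56, 1)]) (.alt (.leaf [(0, 4), (1, 1), (5, 4), (7, 2), (9, 1), (13, 1), (15, 1), (17, 1),
    (19, 1), (22, 2), (27, 1), (31, 1), (50, 1)]) (.alt (.leaf [(0, 4), (1, 1), (5, 4), (7, 2),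
    (9, 2), (11, 1), (13, 2), (15, 2), (17, 2), (19, 1), (23, 2), (30, 1), (46, 1), (51, 1)])
    (.alt (.leaf [(1, 2), (7, 1), (9, 1), (15, 1)]) (.done))))))))) (.alt (.leaf [(0, 1), (12,
    1), (14, 1), (16, 1), (18, 1), (50, 1), (56, 1)]) (.done)))))

/-- Class (0, 0, 1). -/
def AN.T3 : Tree :=
  .split 4 [] (.alt (.leaf [(0, 1), (12, 1), (14, 1), (16, 1), (18, 1), (47, 1), (55, 1)]) (.alt
    (.leaf [(0, 1), (12, 1), (14, 1), (16, 1), (44, 1), (53, 1)]) (.alt (.split 0 [0, 0, 1, -1]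
    (.alt (.split 0 [0, 1, 0, 0] (.alt (.leaf [(0, 1), (63, 1)]) (.alt (.leaf [(0, 1), (3, 1),
    (5, 1), (11, 1)]) (.alt (.split 6 [] (.alt (.leaf [(0, 1), (1, 1), (7, 1), (9, 1), (11, 1),
    (19, 1), (21, 1), (31, 1), (50, 1)]) (.alt (.leaf [(0, 1), (1, 3), (7, 3), (9, 3), (11, 3),
    (13, 2), (15, 2), (19, 1), (21, 1), (31, 1), (39, 2), (50, 1)]) (.alt (.leaf [(0, 1), (1,
    2), (3, 1), (7, 2), (9, 2), (11, 2), (13, 1), (15, 2), (17, 1), (19, 2), (21, 2), (31, 1),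
    (39, 1), (50, 1), (52, 1)]) (.alt (.split 2 [0, 0, 0, 1] (.alt (.leaf [(0, 1), (3, 1), (65,
    1)]) (.alt (.leaf [(0, 2), (3, 4), (5, 7), (7, 7), (55, 1)]) (.alt (.leaf [(0, 12), (2, 6),
    (8, 6), (12, 8), (14, 6), (16, 6), (18, 6), (20, 6), (22, 6), (23, 6), (28, 4), (32, 2),
    (51, 5), (52, 1)]) (.alt (.leaf [(0, 2), (2, 3), (8, 3), (10, 2), (12, 4), (14, 2), (16, 2),
    (18, 1), (20, 1), (22, 1), (24, 1), (32, 2), (40, 1), (51, 1)]) (.alt (.leaf [(0, 2), (1,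
    1), (2, 2), (4, 1), (8, 2), (10, 1), (12, 2), (16, 1), (20, 1), (22, 1), (25, 1), (30, 1),
    (32, 1), (33, 1), (40, 1), (51, 1)]) (.alt (.leaf [(0, 2), (2, 4), (4, 1), (8, 4), (10, 3),
    (12, 5), (14, 3), (16, 4), (18, 2), (20, 2), (22, 2), (26, 1), (32, 2), (40, 2), (51, 2)])
    (.alt (.leaf [(1, 1), (8, 1), (10, 2), (12, 2)]) (.done))))))))) (.done)))))) (.alt (.leaf
    [(0, 1), (6, 1), (8, 1), (10, 1), (12, 1), (14, 1), (16, 1), (18, 1), (20, 1), (50, 1), (59,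
    1)]) (.alt (.leaf [(0, 2), (2, 4), (6, 2), (8, 2), (14, 4), (16, 4), (18, 4), (20, 4), (28,
    2), (49, 1), (50, 1), (51, 2)]) (.alt (.leaf [(0, 2), (2, 1), (6, 2), (8, 2), (10, 2), (12,
    1), (14, 2), (16, 2), (18, 2), (20, 1), (31, 1), (47, 1), (52, 1)]) (.alt (.leaf [(1, 1),
    (16, 1)]) (.done))))))))) (.alt (.leaf [(0, 2), (2, 2), (4, 2), (6, 1), (8, 1), (10, 1)])
    (.alt (.leaf [(0, 6), (5, 6), (7, 3), (9, 2), (11, 1), (13, 1), (15, 1), (17, 1), (19, 1),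
    (21, 3), (25, 1), (28, 1), (48, 1)]) (.alt (.leaf [(0, 6), (5, 6), (7, 3), (9, 2), (11, 1),
    (13, 1), (15, 1), (17, 1), (19, 1), (20, 3), (24, 1), (29, 1), (49, 1)]) (.alt (.leaf [(0,
    6), (5, 6), (7, 3), (9, 2), (11, 1), (13, 1), (15, 1), (17, 1), (19, 1), (23, 3), (27, 1),
    (30, 1), (50, 1)]) (.alt (.leaf [(0, 2), (1, 1), (5, 2), (7, 1), (9, 1), (11, 1), (13, 2),
    (15, 2), (17, 2), (19, 2), (22, 1), (48, 1), (49, 1)]) (.alt (.leaf [(1, 2), (11, 1), (13,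
    1), (15, 1)]) (.done))))))))) (.alt (.leaf [(0, 1), (12, 1), (14, 1), (16, 1), (18, 1), (50,
    1), (56, 1)]) (.done)))))

/-- Class (1, 1, 0). -/
def AN.T4 : Tree :=
  .split 4 [] (.alt (.leaf [(0, 1), (12, 1), (14, 1), (16, 1), (18, 1), (47, 1), (55, 1)]) (.alt
    (.leaf [(0, 1), (12, 1), (14, 1), (16, 1), (44, 1), (53, 1)]) (.alt (.split 0 [0, 1, 0, 0]
    (.alt (.leaf [(0, 1), (62, 1)]) (.alt (.leaf [(0, 1), (2, 1), (4, 1), (10, 1)]) (.alt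
    (.split 6 [] (.alt (.leaf [(0, 1), (1, 1), (6, 1), (8, 1), (10, 1), (18, 1), (20, 1), (30,
    1), (49, 1)]) (.alt (.leaf [(0, 2), (1, 2), (6, 2), (8, 2), (10, 2), (12, 2), (14, 2), (18,
    2), (20, 2), (38, 2), (49, 1), (50, 1)]) (.alt (.leaf [(0, 1), (1, 3), (2, 1), (6, 3), (8,
    3), (10, 2), (14, 1), (16, 1), (18, 2), (20, 2), (26, 1), (30, 2), (49, 1), (51, 1)]) (.alt
    (.split 2 [1, 0, 0, -1] (.alt (.leaf [(0, 2), (4, 1), (6, 1), (10, 1)]) (.alt (.leaf [(0,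
    2), (4, 3), (6, 3), (8, 4), (10, 3)]) (.alt (.leaf [(0, 6), (2, 3), (7, 3), (11, 5), (13,
    4), (15, 4), (17, 4), (19, 4), (21, 1), (23, 3), (26, 1), (31, 1), (46, 3), (51, 1)]) (.alt
    (.split 3 [0, 1, 0, -1] (.alt (.leaf [(0, 2), (5, 5), (7, 5), (9, 4), (11, 3), (13, 2)])
    (.alt (.split 1 [1, 0, 0, -1] (.alt (.leaf [(0, 1), (1, 1), (14, 1)]) (.alt (.leaf [(0, 2),
    (6, 3), (8, 3), (10, 4), (12, 1)]) (.alt (.leaf [(0, 1), (2, 1), (11, 1), (13, 2), (15, 2),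
    (17, 2), (19, 2), (21, 2), (23, 2), (52, 1), (53, 1)]) (.alt (.split 0 [1, 1, -1, -1] (.alt
    (.leaf [(0, 2), (7, 3), (9, 3), (13, 1)]) (.alt (.leaf [(0, 1), (2, 1), (15, 1)]) (.alt
    (.leaf [(0, 2), (1, 2), (10, 2), (12, 4), (14, 4), (16, 2), (18, 2), (20, 2), (22, 2), (24,
    2), (34, 2), (53, 1), (54, 1)]) (.alt (.leaf [(0, 8), (5, 6), (10, 14), (12, 10), (14, 4),
    (16, 4), (18, 4), (20, 4), (22, 4), (24, 4), (25, 4), (30, 6), (53, 3), (54, 1)]) (.alt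
    (.leaf [(0, 4), (6, 6), (10, 4), (12, 2), (14, 2), (16, 2), (18, 8), (20, 8), (22, 8), (24,
    8), (28, 2), (53, 3), (54, 3), (55, 2)]) (.alt (.split 4 [0, 0, 0, 1] (.alt (.leaf [(0, 2),
    (8, 1), (10, 1), (12, 2), (14, 1)]) (.alt (.leaf [(0, 2), (8, 7), (10, 7), (12, 6), (14, 3),
    (16, 4)]) (.alt (.split 0 [0, 0, 1, -1] (.alt (.leaf [(0, 1), (4, 1), (9, 1), (11, 1), (17,
    1)]) (.alt (.leaf [(0, 2), (9, 1), (11, 1), (15, 1)]) (.alt (.leaf [(0, 4), (1, 4), (7, 2),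
    (12, 6), (14, 6), (16, 4), (18, 4), (20, 8), (22, 8), (24, 8), (26, 8), (32, 2), (55, 5),
    (56, 3)]) (.alt (.leaf [(0, 2), (7, 3), (12, 5), (14, 4), (16, 4), (18, 1), (20, 1), (22,
    1), (24, 1), (26, 1), (27, 1), (36, 3), (55, 1)]) (.alt (.leaf [(0, 1), (2, 1), (12, 2),
    (14, 2), (16, 1), (34, 1), (37, 1)]) (.alt (.leaf [(0, 2), (2, 2), (12, 4), (14, 2), (16,
    2), (18, 2), (20, 2), (22, 2), (24, 2), (26, 2), (29, 2), (55, 1), (56, 1)]) (.alt (.leaf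
    [(2, 4), (6, 8), (12, 2), (17, 2), (25, 8), (27, 6), (29, 6), (31, 6), (32, 2), (49, 2),
    (60, 5), (61, 1)]) (.done))))))))) (.alt (.leaf [(0, 3), (2, 3), (13, 3), (15, 1), (19, 3),
    (21, 3), (23, 3), (25, 3), (31, 2), (35, 1), (54, 1), (55, 2)]) (.alt (.leaf [(0, 2), (6,
    1), (7, 1), (11, 1), (19, 3), (21, 3), (23, 3), (25, 2), (28, 1), (51, 1), (54, 1), (56,
    1)]) (.alt (.leaf [(0, 3), (1, 3), (6, 1), (11, 4), (13, 4), (15, 2), (19, 3), (21, 3), (23,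
    3), (25, 2), (33, 2), (36, 2), (51, 1), (54, 1), (57, 1)]) (.alt (.leaf [(3, 2), (7, 2),
    (18, 2), (20, 1), (22, 1), (24, 1), (26, 1), (28, 1), (36, 1), (56, 1)]) (.done)))))))))
    (.alt (.leaf [(2, 2), (4, 6), (6, 6), (9, 3), (11, 6), (17, 1), (19, 1), (21, 1), (23, 7),
    (25, 7), (27, 10), (29, 4), (30, 2), (33, 3), (55, 6), (58, 4)]) (.done))))))))) (.alt
    (.leaf [(0, 2), (3, 1), (4, 2), (5, 2), (9, 2), (11, 3), (13, 3), (15, 1), (17, 3), (19, 3),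
    (21, 4), (23, 2), (27, 1), (34, 2), (49, 2), (52, 2)]) (.alt (.leaf [(0, 2), (3, 1), (4, 1),
    (9, 1), (11, 2), (13, 1), (15, 1), (17, 1), (19, 1), (21, 2), (23, 1), (26, 1), (31, 1),
    (49, 1), (52, 1), (63, 1)]) (.alt (.leaf [(2, 2), (7, 2), (18, 2), (20, 2), (22, 2), (24,
    2), (26, 2), (28, 2), (57, 1), (58, 1)]) (.done))))))))) (.alt (.leaf [(0, 1), (1, 1), (2,
    1), (4, 2), (16, 2), (18, 1), (20, 2), (22, 1), (30, 1), (33, 1), (40, 1), (48, 1), (51,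
    1)]) (.alt (.leaf [(0, 11), (1, 1), (3, 6), (8, 6), (14, 8), (16, 8), (18, 8), (20, 8), (22,
    2), (23, 6), (27, 1), (32, 3), (47, 6), (52, 2)]) (.alt (.leaf [(0, 2), (2, 1), (3, 4), (4,
    2), (8, 4), (10, 3), (16, 2), (18, 2), (20, 3), (22, 2), (26, 1), (28, 1), (30, 2), (32, 2),
    (48, 1), (51, 2)]) (.alt (.leaf [(0, 8), (3, 4), (4, 7), (8, 4), (14, 3), (16, 10), (18, 8),
    (20, 8), (22, 3), (25, 4), (32, 2), (33, 3), (40, 2), (49, 5), (51, 2), (54, 1)]) (.alt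
    (.leaf [(3, 2), (8, 3), (13, 3), (15, 2), (17, 2), (19, 1), (21, 1), (23, 1), (25, 1), (27,
    1), (28, 1), (37, 1), (56, 1)]) (.done))))))))) (.alt (.leaf [(0, 6), (2, 3), (3, 5), (7,
    3), (11, 5), (13, 1), (15, 6), (17, 6), (19, 6), (21, 2), (25, 3), (27, 1), (31, 2), (32,
    2), (48, 4), (50, 1), (53, 1)]) (.alt (.leaf [(0, 2), (1, 1), (2, 3), (7, 3), (9, 2), (11,
    2), (19, 1), (21, 1), (24, 1), (27, 1), (29, 1), (31, 2), (50, 1), (61, 1)]) (.alt (.leaf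
    [(2, 2), (7, 3), (12, 3), (14, 2), (16, 2), (18, 1), (20, 1), (22, 1), (24, 1), (26, 1),
    (28, 1), (36, 1), (55, 1)]) (.done))))))))) (.done)))))) (.alt (.leaf [(0, 2), (5, 2), (7,
    2), (9, 2), (11, 2), (13, 2), (15, 2), (17, 2), (19, 1), (44, 1), (49, 1), (54, 1), (56,
    1)]) (.alt (.leaf [(0, 1), (5, 1), (7, 1), (9, 1), (11, 1), (13, 1), (15, 1), (17, 1), (19,
    1), (50, 1), (59, 1)]) (.alt (.leaf [(0, 2), (1, 1), (5, 2), (7, 2), (9, 2), (11, 1), (13,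
    2), (15, 2), (17, 2), (19, 1), (30, 1), (46, 1), (51, 1)]) (.alt (.leaf [(1, 1), (15, 1)])
    (.done))))))))) (.alt (.leaf [(0, 1), (12, 1), (14, 1), (16, 1), (18, 1), (50, 1), (56, 1)])
    (.done)))))

/-- Class (1, 0, 1). -/
def AN.T5 : Tree :=
  .split 4 [] (.alt (.leaf [(0, 1), (12, 1), (14, 1), (16, 1), (18, 1), (47, 1), (55, 1)]) (.alt
    (.leaf [(0, 1), (12, 1), (14, 1), (16, 1), (44, 1), (53, 1)]) (.alt (.split 1 [0, 0, 1, -1]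
    (.alt (.leaf [(0, 2), (2, 4), (4, 4), (6, 3)]) (.alt (.leaf [(0, 2), (6, 1)]) (.alt (.leaf
    [(0, 2), (7, 1), (21, 1), (25, 1)]) (.alt (.leaf [(0, 8), (1, 3), (7, 4), (9, 3), (13, 3),
    (15, 3), (17, 3), (19, 3), (20, 4), (27, 1), (29, 2), (30, 1), (49, 2), (50, 1), (54, 6)])
    (.alt (.leaf [(0, 2), (7, 1), (23, 1), (27, 1)]) (.alt (.leaf [(0, 2), (1, 2), (7, 1), (9,
    1), (11, 1), (13, 3), (15, 3), (17, 3), (19, 2), (22, 1), (46, 1), (48, 1), (49, 1)]) (.alt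
    (.leaf [(0, 2), (7, 2), (9, 2), (11, 1)]) (.done))))))))) (.alt (.leaf [(0, 1), (12, 1),
    (14, 1), (16, 1), (18, 1), (50, 1), (56, 1)]) (.done)))))

/-- Class (0, 1, 1). -/
def AN.T6 : Tree :=
  .split 4 [] (.alt (.leaf [(0, 1), (12, 1), (14, 1), (16, 1), (18, 1), (47, 1), (55, 1)]) (.alt
    (.leaf [(0, 1), (12, 1), (14, 1), (16, 1), (44, 1), (53, 1)]) (.alt (.split 0 [0, 0, 1, -1]
    (.alt (.split 1 [0, 0, 1, -1] (.alt (.split 0 [0, 1, 0, 0] (.alt (.leaf [(0, 1), (64, 1)])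
    (.alt (.leaf [(0, 1), (4, 1), (6, 1), (12, 1)]) (.alt (.split 6 [] (.alt (.leaf [(0, 1), (1,
    1), (8, 1), (10, 1), (12, 1), (20, 1), (22, 1), (32, 1), (51, 1)]) (.alt (.leaf [(0, 1), (1,
    5), (8, 5), (10, 5), (12, 3), (20, 1), (22, 1), (28, 2), (32, 3), (51, 1)]) (.alt (.leaf
    [(0, 1), (1, 3), (4, 1), (8, 3), (10, 3), (12, 2), (16, 1), (18, 1), (20, 2), (22, 2), (28,
    1), (32, 2), (51, 1), (53, 1)]) (.alt (.split 2 [0, 0, 0, 1] (.alt (.leaf [(0, 1), (3, 1),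
    (10, 1), (66, 1)]) (.alt (.leaf [(0, 2), (6, 4), (8, 4), (10, 3), (12, 3), (14, 2)]) (.alt
    (.split 2 [0, 1, 0, -1] (.alt (.leaf [(0, 2), (7, 4), (9, 4), (11, 3), (13, 3)]) (.alt
    (.leaf [(0, 1), (4, 1), (7, 1), (9, 1), (11, 1)]) (.alt (.leaf [(0, 3), (1, 3), (14, 5),
    (16, 3), (18, 3), (20, 3), (22, 3), (24, 3), (30, 1), (34, 2), (53, 2), (54, 1)]) (.alt
    (.leaf [(0, 3), (1, 1), (3, 2), (10, 2), (14, 3), (16, 3), (18, 3), (20, 3), (22, 3), (24,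
    3), (25, 2), (30, 1), (53, 2), (54, 1)]) (.alt (.leaf [(0, 12), (3, 6), (6, 18), (10, 6),
    (14, 4), (18, 18), (20, 18), (22, 18), (24, 18), (28, 6), (30, 2), (32, 6), (34, 4), (53,
    7), (54, 5), (55, 6)]) (.alt (.split 2 [0, 1, 1, -1] (.alt (.leaf [(0, 2), (12, 1), (14, 1),
    (68, 2)]) (.alt (.leaf [(0, 2), (8, 2), (10, 2), (12, 3), (14, 3), (16, 2)]) (.alt (.leaf
    [(0, 6), (2, 6), (15, 8), (17, 6), (19, 6), (21, 6), (23, 6), (25, 6), (31, 4), (35, 2),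
    (54, 5), (55, 1)]) (.alt (.leaf [(0, 6), (2, 2), (4, 4), (11, 4), (15, 8), (17, 6), (19, 6),
    (21, 6), (23, 6), (25, 6), (26, 4), (35, 2), (54, 3), (55, 3)]) (.alt (.leaf [(0, 6), (1,
    6), (15, 10), (17, 8), (19, 8), (21, 8), (23, 8), (25, 8), (33, 2), (36, 2), (54, 3), (55,
    3), (56, 2)]) (.alt (.leaf [(0, 8), (2, 4), (4, 6), (7, 8), (11, 6), (15, 11), (17, 7), (19,
    15), (21, 15), (23, 15), (25, 8), (26, 2), (28, 4), (31, 1), (36, 4), (51, 7), (54, 8)])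
    (.alt (.leaf [(4, 2), (6, 2), (8, 1), (9, 1), (16, 1), (18, 1), (20, 2), (22, 1), (24, 1),
    (26, 1), (28, 2), (30, 1), (38, 1), (41, 1), (56, 1), (59, 1)]) (.done))))))))) (.alt (.leaf
    [(0, 1), (9, 1), (12, 2), (14, 2), (16, 1)]) (.done))))))))) (.alt (.leaf [(0, 2), (2, 8),
    (9, 8), (11, 7), (13, 7), (15, 2), (17, 2), (19, 2), (21, 2), (23, 2), (25, 1), (29, 2),
    (33, 5), (52, 2)]) (.alt (.leaf [(0, 2), (1, 1), (2, 3), (9, 3), (11, 2), (13, 2), (21, 1),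
    (23, 1), (26, 1), (29, 1), (31, 1), (33, 2), (52, 1)]) (.alt (.leaf [(0, 2), (2, 6), (5, 2),
    (9, 6), (11, 5), (13, 5), (17, 2), (19, 2), (21, 2), (23, 2), (27, 1), (29, 2), (33, 4),
    (34, 1), (52, 2)]) (.alt (.leaf [(1, 2), (11, 2), (13, 2), (15, 1), (17, 1), (19, 2)])
    (.done))))))))) (.done)))))) (.alt (.leaf [(0, 2), (7, 2), (9, 2), (11, 2), (13, 1), (15,
    1), (17, 1), (19, 1), (21, 1), (30, 1), (51, 1), (56, 1)]) (.alt (.leaf [(0, 2), (3, 4), (7,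
    2), (9, 2), (15, 4), (17, 4), (19, 4), (21, 4), (29, 2), (50, 1), (51, 1), (52, 2)]) (.alt
    (.leaf [(0, 2), (7, 2), (9, 2), (11, 2), (13, 1), (15, 1), (17, 1), (19, 1), (21, 1), (32,
    1), (53, 1), (57, 1)]) (.alt (.leaf [(1, 1), (17, 1)]) (.done))))))))) (.alt (.leaf [(0, 2),
    (3, 2), (5, 2), (7, 3), (9, 1)]) (.alt (.leaf [(0, 2), (8, 1), (10, 1), (12, 1), (14, 1),
    (16, 1), (18, 1), (20, 1), (22, 1), (49, 1), (55, 1), (57, 2)]) (.alt (.leaf [(0, 2), (8,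
    1), (10, 1), (21, 1), (30, 1)]) (.alt (.leaf [(0, 2), (8, 1), (10, 1), (24, 1), (31, 1)])
    (.alt (.leaf [(0, 2), (2, 3), (8, 1), (14, 3), (16, 3), (18, 3), (20, 3), (23, 1), (28, 1),
    (49, 1), (50, 1), (51, 1)]) (.alt (.leaf [(1, 1), (6, 1), (8, 1), (10, 1)]) (.done)))))))))
    (.alt (.leaf [(0, 2), (2, 2), (4, 2), (6, 1), (8, 1)]) (.alt (.leaf [(0, 2), (5, 2), (7, 1),
    (9, 1), (11, 1), (13, 1), (15, 1), (17, 1), (19, 1), (21, 1), (48, 1), (54, 1), (56, 2)])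
    (.alt (.leaf [(0, 2), (5, 2), (7, 1), (9, 1), (20, 1), (29, 1)]) (.alt (.leaf [(0, 2), (5,
    2), (7, 1), (9, 1), (23, 1), (30, 1)]) (.alt (.leaf [(0, 2), (1, 3), (5, 2), (7, 1), (13,
    3), (15, 3), (17, 3), (19, 3), (22, 1), (27, 1), (48, 1), (49, 1), (50, 1)]) (.alt (.leaf
    [(1, 2), (11, 1), (13, 1)]) (.done))))))))) (.alt (.leaf [(0, 1), (12, 1), (14, 1), (16, 1),
    (18, 1), (50, 1), (56, 1)]) (.done)))))

/-- Class (1, 1, 1). -/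
def AN.T7 : Tree :=
  .split 4 [] (.alt (.leaf [(0, 1), (12, 1), (14, 1), (16, 1), (18, 1), (47, 1), (55, 1)]) (.alt
    (.leaf [(0, 1), (12, 1), (14, 1), (16, 1), (44, 1), (53, 1)]) (.alt (.split 0 [0, 1, 0, 0]
    (.alt (.leaf [(0, 1), (62, 1)]) (.alt (.leaf [(0, 1), (2, 1), (4, 1), (10, 1)]) (.alt
    (.split 6 [] (.alt (.leaf [(0, 1), (1, 1), (6, 1), (8, 1), (10, 1), (18, 1), (20, 1), (30,
    1), (49, 1)]) (.alt (.leaf [(0, 1), (1, 3), (6, 3), (8, 3), (10, 3), (12, 2), (14, 2), (18,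
    1), (20, 1), (30, 1), (38, 2), (49, 1)]) (.alt (.leaf [(0, 1), (1, 2), (2, 1), (6, 2), (8,
    2), (10, 2), (12, 1), (14, 2), (16, 1), (18, 2), (20, 2), (30, 1), (38, 1), (49, 1), (51,
    1)]) (.alt (.split 1 [1, 0, 0, -1] (.alt (.leaf [(0, 2), (4, 2), (6, 2), (8, 1), (12, 1)])
    (.alt (.leaf [(0, 2), (4, 1), (6, 1), (8, 3), (64, 1)]) (.alt (.leaf [(0, 2), (2, 4), (7,
    4), (9, 5), (11, 5), (13, 3), (15, 3), (17, 3), (19, 3), (21, 3), (23, 1), (31, 2), (50, 2),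
    (51, 1)]) (.alt (.split 1 [0, 1, 1, -1] (.alt (.leaf [(0, 2), (5, 3), (7, 3), (9, 3), (65,
    1)]) (.alt (.leaf [(0, 2), (9, 1), (13, 1)]) (.alt (.leaf [(0, 1), (1, 1), (2, 1), (4, 2),
    (10, 2), (12, 1), (16, 2), (20, 1), (22, 1), (30, 1), (33, 1), (40, 2), (51, 1)]) (.alt
    (.leaf [(0, 2), (1, 2), (10, 2), (12, 2), (14, 2), (16, 2), (18, 2), (20, 2), (22, 2), (23,
    2), (51, 1), (52, 1)]) (.alt (.leaf [(0, 2), (2, 1), (3, 2), (4, 1), (8, 2), (10, 3), (12,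
    1), (16, 1), (20, 1), (22, 1), (26, 1), (30, 2), (32, 1), (40, 1), (51, 1)]) (.alt (.leaf
    [(0, 2), (10, 1), (12, 1), (14, 1), (16, 1), (18, 1), (20, 1), (22, 1), (25, 1), (54, 1),
    (58, 2)]) (.alt (.leaf [(3, 2), (8, 4), (13, 4), (15, 3), (17, 3), (19, 1), (21, 1), (23,
    1), (25, 1), (27, 1), (28, 1), (37, 2), (56, 1)]) (.done))))))))) (.alt (.leaf [(0, 2), (1,
    1), (2, 6), (3, 3), (7, 6), (9, 7), (11, 7), (13, 2), (15, 5), (17, 2), (19, 3), (21, 3),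
    (25, 1), (31, 3), (32, 2), (39, 3), (50, 3)]) (.alt (.leaf [(0, 2), (1, 1), (2, 2), (3, 1),
    (7, 2), (9, 3), (11, 1), (15, 1), (19, 1), (21, 1), (24, 1), (29, 2), (31, 1), (39, 1), (50,
    1)]) (.alt (.leaf [(2, 2), (7, 4), (12, 4), (14, 3), (16, 3), (18, 1), (20, 1), (22, 1),
    (24, 1), (26, 1), (28, 1), (36, 2), (55, 1)]) (.done))))))))) (.done)))))) (.alt (.leaf [(0,
    1), (5, 1), (7, 1), (9, 1), (11, 1), (13, 1), (15, 1), (17, 1), (19, 1), (49, 1), (58, 1)])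
    (.alt (.leaf [(0, 2), (1, 4), (5, 2), (7, 2), (13, 4), (15, 4), (17, 4), (19, 4), (27, 2),
    (48, 1), (49, 1), (50, 2)]) (.alt (.leaf [(0, 2), (1, 1), (5, 2), (7, 2), (9, 2), (11, 1),
    (13, 2), (15, 2), (17, 2), (19, 1), (30, 1), (46, 1), (51, 1)]) (.alt (.leaf [(1, 1), (15,
    1)]) (.done))))))))) (.alt (.leaf [(0, 1), (12, 1), (14, 1), (16, 1), (18, 1), (50, 1), (56,
    1)]) (.done)))))

/-- The eight classes. -/
def AN.T : ℕ → Tree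
  | 0 => AN.T0
  | 1 => AN.T1
  | 2 => AN.T2
  | 3 => AN.T3
  | 4 => AN.T4
  | 5 => AN.T5
  | 6 => AN.T6
  | 7 => AN.T7
  | _ => .done

theorem AN.chk : checkCls AN.D 1 [] AN.T = true := by decide +kernel

/-- Type E: `q(v) < M_{-1}`. -/
def EM.D : Data :=
  ⟨[none, none, none, some [1, 0, -1], some [0, 0, 1], some [1, 0, 0], some [1, 1, 0], some [1, 0,
    1], some [1, 1, 1]],
    sup, stdExt ++ [⟨true, [(1, 2)], [0, -1, 0], [], []⟩], []⟩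

/-- Class (0, 0, 0). -/
def EM.T0 : Tree :=
  .split 1 [0, 0, 0, 1] (.alt (.leaf [(0, 2), (13, 1), (57, 1)]) (.alt (.leaf [(0, 2), (13, 3),
    (57, 3)]) (.alt (.leaf [(0, 12), (6, 12), (8, 6), (10, 5), (12, 5), (14, 5), (16, 3), (18,
    2), (19, 6), (26, 1), (37, 2), (41, 1), (46, 2)]) (.alt (.leaf [(0, 12), (6, 12), (8, 6),
    (10, 5), (12, 5), (14, 5), (16, 3), (18, 2), (20, 6), (26, 1), (37, 2), (41, 1), (46, 2)])
    (.alt (.leaf [(0, 12), (6, 12), (8, 6), (10, 5), (12, 5), (14, 5), (16, 3), (18, 2), (21,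
    6), (26, 1), (37, 2), (41, 1), (46, 2)]) (.alt (.leaf [(0, 12), (6, 12), (8, 6), (10, 5),
    (12, 5), (14, 5), (16, 3), (18, 2), (22, 6), (26, 1), (37, 2), (41, 1), (46, 2)]) (.alt
    (.leaf [(1, 2), (18, 1), (62, 1)]) (.done))))))))

/-- Class (1, 0, 0). -/
def EM.T1 : Tree :=
  .split 4 [] (.alt (.leaf [(0, 1), (12, 1), (14, 1), (16, 1), (18, 1), (43, 1), (51, 1)]) (.alt
    (.leaf [(0, 1), (12, 1), (14, 1), (16, 1), (40, 1), (49, 1)]) (.alt (.split 1 [0, 1, 0, 0]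
    (.alt (.leaf [(0, 1), (58, 1)]) (.alt (.leaf [(0, 1), (14, 2), (58, 1)]) (.alt (.split 5 []
    (.alt (.leaf [(0, 1), (1, 2), (8, 2), (10, 2), (12, 2), (14, 2), (16, 3), (18, 2), (20, 1),
    (37, 1), (42, 1), (45, 1)]) (.alt (.split 3 [1, 0, 0, -1] (.alt (.leaf [(0, 2), (12, 1),
    (16, 1), (60, 1)]) (.alt (.leaf [(0, 2), (10, 1), (12, 3), (14, 3)]) (.alt (.leaf [(0, 2),
    (1, 1), (2, 2), (9, 2), (11, 1), (13, 3), (15, 3), (17, 4), (19, 4), (21, 2), (23, 1), (43,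
    2), (46, 2)]) (.alt (.split 4 [0, 0, 0, 1] (.alt (.leaf [(0, 2), (11, 2), (13, 1), (17, 1),
    (61, 1)]) (.alt (.leaf [(0, 2), (13, 3), (15, 6), (17, 1), (61, 1)]) (.alt (.leaf [(0, 1),
    (1, 1), (3, 1), (10, 1), (14, 1), (16, 2), (18, 2), (20, 2), (22, 1), (23, 1), (44, 1), (47,
    1)]) (.alt (.leaf [(0, 2), (1, 2), (14, 1), (16, 3), (18, 3), (20, 3), (22, 2), (28, 1),
    (44, 1), (47, 1), (48, 1)]) (.alt (.leaf [(0, 2), (3, 1), (4, 1), (10, 1), (16, 3), (18, 3),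
    (20, 3), (22, 1), (25, 1), (44, 1), (45, 1), (47, 1)]) (.alt (.split 6 [0, 0, 1, 1] (.alt
    (.leaf [(0, 2), (12, 2), (14, 1), (18, 1), (62, 1)]) (.alt (.leaf [(0, 2), (14, 7), (16,
    10), (18, 1), (62, 1)]) (.alt (.leaf [(0, 4), (4, 4), (11, 4), (13, 2), (15, 1), (17, 1),
    (19, 1), (21, 5), (23, 4), (24, 2), (29, 1), (45, 1), (48, 4)]) (.alt (.leaf [(0, 1), (2,
    1), (4, 1), (11, 1), (13, 1), (15, 2), (17, 2), (19, 2), (21, 3), (23, 1), (45, 2), (48,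
    1)]) (.alt (.leaf [(0, 2), (1, 2), (4, 2), (11, 2), (13, 2), (15, 1), (17, 3), (19, 3), (21,
    5), (23, 2), (31, 1), (45, 2), (46, 1), (48, 2)]) (.alt (.leaf [(0, 2), (4, 3), (5, 3), (11,
    3), (13, 2), (15, 1), (17, 4), (19, 4), (21, 6), (23, 3), (27, 1), (31, 1), (45, 3), (48,
    3)]) (.alt (.leaf [(3, 1), (7, 1), (20, 1), (22, 1), (24, 1), (26, 1), (50, 1)])
    (.done))))))))) (.alt (.leaf [(3, 2), (6, 2), (19, 1), (21, 1), (23, 1), (25, 1), (33, 1),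
    (49, 1)]) (.done))))))))) (.alt (.leaf [(0, 2), (2, 1), (3, 1), (9, 1), (13, 2), (15, 3),
    (17, 3), (19, 3), (21, 1), (25, 1), (43, 1), (44, 1), (46, 1)]) (.alt (.leaf [(0, 2), (2,
    1), (3, 1), (9, 1), (13, 1), (15, 2), (17, 2), (19, 2), (21, 1), (24, 1), (29, 1), (43, 1),
    (46, 1)]) (.alt (.leaf [(1, 2), (15, 2), (17, 1), (21, 1), (65, 1)]) (.done))))))))) (.alt
    (.leaf [(0, 1), (1, 1), (2, 1), (8, 1), (10, 1), (12, 1), (14, 2), (16, 3), (18, 3), (20,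
    1), (42, 1), (43, 1), (45, 1)]) (.alt (.leaf [(0, 1), (1, 1), (2, 1), (8, 1), (10, 1), (14,
    1), (16, 2), (18, 2), (20, 1), (28, 1), (42, 1), (45, 1)]) (.done)))))) (.alt (.leaf [(0,
    1), (7, 1), (9, 1), (11, 1), (13, 1), (15, 1), (17, 1), (19, 1), (45, 1), (54, 1)]) (.alt
    (.leaf [(0, 2), (1, 2), (7, 2), (9, 2), (11, 1), (13, 3), (15, 3), (17, 3), (19, 2), (27,
    1), (43, 1), (46, 2)]) (.alt (.leaf [(0, 1), (1, 1), (7, 1), (9, 1), (11, 1), (13, 2), (15,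
    2), (17, 1), (39, 1), (42, 1)]) (.alt (.leaf [(1, 1), (19, 1)]) (.done))))))))) (.alt (.leaf
    [(0, 1), (12, 1), (14, 1), (16, 1), (18, 1), (46, 1), (52, 1)]) (.done)))))

/-- Class (0, 1, 0). -/
def EM.T2 : Tree :=
  .split 4 [] (.alt (.leaf [(0, 1), (12, 1), (14, 1), (16, 1), (18, 1), (43, 1), (51, 1)]) (.alt
    (.leaf [(0, 1), (12, 1), (14, 1), (16, 1), (40, 1), (49, 1)]) (.alt (.split 1 [0, 0, 0, 1]
    (.alt (.leaf [(0, 2), (58, 1)]) (.alt (.leaf [(0, 2), (14, 4), (58, 3)]) (.alt (.split 5 []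
    (.alt (.leaf [(0, 1), (1, 4), (8, 4), (10, 2), (12, 2), (14, 2), (16, 3), (18, 2), (20, 1),
    (21, 2), (37, 1), (42, 1), (45, 1)]) (.alt (.split 4 [0, 1, -1, -1] (.alt (.leaf [(0, 2),
    (12, 4), (14, 6), (60, 1)]) (.alt (.leaf [(0, 2), (10, 2), (16, 2), (60, 1)]) (.alt (.leaf
    [(0, 1), (1, 1), (2, 1), (9, 1), (11, 1), (13, 1), (15, 2), (17, 3), (19, 3), (21, 1), (43,
    2), (46, 1)]) (.alt (.leaf [(0, 4), (2, 8), (9, 8), (11, 2), (15, 4), (17, 4), (19, 4), (21,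
    4), (22, 6), (27, 2), (46, 3), (47, 1)]) (.alt (.leaf [(0, 2), (2, 6), (3, 4), (9, 6), (11,
    2), (13, 1), (15, 7), (17, 7), (19, 7), (21, 4), (22, 3), (25, 1), (29, 1), (43, 3), (46,
    3), (48, 1)]) (.alt (.split 1 [0, 1, 0, -1] (.alt (.leaf [(0, 2), (17, 2), (61, 3)]) (.alt
    (.leaf [(0, 2), (17, 2), (61, 1)]) (.alt (.leaf [(0, 1), (3, 1), (10, 2), (12, 2), (14, 2),
    (16, 2), (18, 2), (20, 2), (22, 1), (44, 1), (47, 1)]) (.alt (.leaf [(0, 2), (3, 2), (10,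
    4), (12, 2), (14, 2), (16, 2), (18, 2), (20, 2), (22, 2), (23, 2), (47, 1), (48, 1)]) (.alt
    (.leaf [(0, 2), (1, 2), (10, 2), (12, 2), (14, 1), (16, 3), (18, 3), (20, 3), (22, 2), (30,
    1), (45, 1), (47, 1), (48, 1)]) (.alt (.leaf [(0, 2), (4, 1), (10, 2), (12, 1), (14, 1),
    (16, 2), (18, 2), (20, 1), (25, 1), (42, 1), (45, 1)]) (.alt (.leaf [(3, 1), (8, 1), (15,
    1), (28, 1)]) (.done))))))))) (.alt (.leaf [(0, 2), (17, 2), (19, 2), (65, 1)])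
    (.done))))))))) (.alt (.leaf [(0, 1), (1, 2), (2, 1), (8, 2), (10, 1), (12, 1), (14, 2),
    (16, 3), (18, 3), (20, 1), (21, 1), (42, 1), (43, 1), (45, 1)]) (.alt (.leaf [(0, 1), (1,
    2), (2, 1), (8, 2), (10, 1), (14, 1), (16, 2), (18, 2), (20, 1), (21, 1), (28, 1), (42, 1),
    (45, 1)]) (.done)))))) (.alt (.leaf [(0, 4), (7, 4), (9, 2), (11, 2), (13, 2), (15, 2), (17,
    2), (19, 1), (21, 2), (40, 1), (45, 1), (50, 1), (52, 1)]) (.alt (.leaf [(0, 4), (1, 4), (7,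
    4), (9, 2), (13, 4), (15, 4), (17, 4), (19, 4), (22, 2), (27, 2), (44, 1), (45, 1), (46,
    2)]) (.alt (.leaf [(0, 2), (1, 1), (7, 2), (9, 1), (11, 1), (13, 2), (15, 2), (17, 1), (23,
    1), (39, 1), (42, 1)]) (.alt (.leaf [(1, 2), (19, 2), (63, 1)]) (.done))))))))) (.alt (.leaf
    [(0, 1), (12, 1), (14, 1), (16, 1), (18, 1), (46, 1), (52, 1)]) (.done)))))

/-- Class (0, 0, 1). -/
def EM.T3 : Tree :=
  .split 4 [] (.alt (.leaf [(0, 1), (12, 1), (14, 1), (16, 1), (18, 1), (43, 1), (51, 1)]) (.alt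
    (.leaf [(0, 1), (12, 1), (14, 1), (16, 1), (40, 1), (49, 1)]) (.alt (.split 1 [0, 0, 1, -1]
    (.alt (.split 2 [0, 0, 1, -1] (.alt (.split 1 [0, 1, 0, 0] (.alt (.leaf [(0, 1), (60, 1)])
    (.alt (.leaf [(0, 1), (16, 2), (60, 1)]) (.alt (.split 5 [] (.alt (.leaf [(0, 1), (1, 2),
    (10, 2), (12, 2), (14, 2), (16, 2), (18, 3), (20, 2), (22, 1), (39, 1), (44, 1), (47, 1)])
    (.alt (.split 3 [0, 0, 0, 1] (.alt (.leaf [(0, 1), (3, 1), (12, 1), (18, 1), (62, 1)]) (.alt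
    (.leaf [(0, 2), (12, 3), (14, 3), (18, 4), (62, 4)]) (.alt (.leaf [(0, 4), (2, 2), (11, 2),
    (15, 3), (17, 3), (19, 3), (21, 3), (23, 2), (24, 2), (29, 1), (45, 1), (48, 2)]) (.alt
    (.leaf [(0, 2), (1, 1), (2, 1), (11, 1), (15, 2), (17, 2), (19, 3), (21, 3), (23, 1), (25,
    1), (45, 2), (48, 1)]) (.alt (.split 3 [0, 0, 1, -1] (.alt (.leaf [(0, 2), (13, 1), (15, 1),
    (19, 2), (63, 2)]) (.alt (.leaf [(0, 2), (13, 3), (15, 3), (19, 2), (63, 2)]) (.alt (.leaf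
    [(0, 4), (3, 2), (12, 2), (16, 3), (18, 3), (20, 3), (22, 3), (24, 2), (26, 2), (30, 1),
    (46, 1), (49, 2)]) (.alt (.leaf [(0, 2), (2, 1), (3, 1), (12, 1), (16, 2), (18, 2), (20, 3),
    (22, 3), (24, 1), (25, 1), (46, 2), (49, 1)]) (.alt (.leaf [(0, 2), (1, 2), (16, 3), (18,
    3), (20, 3), (22, 3), (24, 2), (32, 1), (47, 1), (49, 1), (50, 1)]) (.alt (.leaf [(0, 1),
    (1, 1), (3, 1), (12, 1), (16, 2), (18, 2), (20, 2), (22, 2), (24, 1), (27, 1), (46, 1), (49,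
    1)]) (.alt (.leaf [(4, 2), (6, 2), (21, 1), (23, 1), (25, 1), (27, 1), (37, 1), (52, 1)])
    (.done))))))))) (.alt (.leaf [(0, 2), (2, 2), (5, 1), (11, 2), (13, 1), (15, 3), (17, 4),
    (19, 4), (21, 4), (23, 2), (27, 1), (45, 2), (48, 2)]) (.alt (.leaf [(1, 2), (17, 1), (19,
    1), (23, 2), (67, 2)]) (.done))))))))) (.alt (.leaf [(0, 1), (1, 1), (4, 1), (10, 1), (12,
    1), (14, 1), (16, 2), (18, 3), (20, 3), (22, 1), (44, 1), (45, 1), (47, 1)]) (.alt (.leaf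
    [(0, 1), (1, 1), (4, 1), (10, 1), (12, 1), (16, 1), (18, 2), (20, 2), (22, 1), (30, 1), (44,
    1), (47, 1)]) (.done)))))) (.alt (.leaf [(0, 1), (9, 1), (11, 1), (13, 1), (15, 1), (17, 1),
    (19, 1), (21, 1), (47, 1), (56, 1)]) (.alt (.leaf [(0, 2), (3, 4), (9, 2), (11, 2), (15, 4),
    (17, 4), (19, 4), (21, 4), (29, 2), (46, 1), (47, 1), (48, 2)]) (.alt (.leaf [(0, 1), (3,
    1), (9, 1), (11, 1), (13, 1), (15, 2), (17, 2), (19, 1), (41, 1), (44, 1)]) (.alt (.leaf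
    [(1, 1), (21, 1)]) (.done))))))))) (.alt (.leaf [(0, 2), (9, 3), (11, 1), (15, 2), (59, 2)])
    (.alt (.leaf [(0, 8), (10, 4), (12, 2), (14, 2), (16, 2), (18, 2), (20, 2), (22, 4), (26,
    2), (45, 1), (46, 1), (55, 2)]) (.alt (.leaf [(0, 4), (10, 2), (12, 1), (14, 1), (16, 1),
    (18, 1), (21, 2), (25, 1), (42, 1)]) (.alt (.leaf [(0, 2), (2, 1), (10, 1), (14, 1), (16,
    1), (18, 1), (24, 1), (28, 1), (43, 1)]) (.alt (.leaf [(0, 2), (2, 1), (10, 1), (12, 1),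
    (14, 2), (16, 2), (18, 2), (20, 2), (23, 1), (45, 1), (46, 1)]) (.alt (.leaf [(1, 1), (6,
    1), (20, 1), (64, 1)]) (.done))))))))) (.alt (.leaf [(0, 2), (8, 1), (10, 1), (14, 2), (58,
    2)]) (.alt (.leaf [(0, 8), (7, 8), (9, 4), (11, 2), (13, 2), (15, 2), (17, 2), (19, 2), (21,
    4), (25, 2), (44, 1), (45, 1), (54, 2)]) (.alt (.leaf [(0, 4), (7, 4), (9, 2), (11, 1), (13,
    1), (15, 1), (17, 1), (20, 2), (24, 1), (41, 1)]) (.alt (.leaf [(0, 2), (1, 1), (7, 2), (9,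
    1), (13, 1), (15, 1), (17, 1), (23, 1), (27, 1), (42, 1)]) (.alt (.leaf [(0, 2), (1, 1), (7,
    2), (9, 1), (11, 1), (13, 2), (15, 2), (17, 2), (19, 2), (22, 1), (44, 1), (45, 1)]) (.alt
    (.leaf [(1, 2), (13, 1), (15, 1)]) (.done))))))))) (.alt (.leaf [(0, 1), (12, 1), (14, 1),
    (16, 1), (18, 1), (46, 1), (52, 1)]) (.done)))))

/-- Class (1, 1, 0). -/
def EM.T4 : Tree :=
  .split 4 [] (.alt (.leaf [(0, 1), (12, 1), (14, 1), (16, 1), (18, 1), (43, 1), (51, 1)]) (.alt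
    (.leaf [(0, 1), (12, 1), (14, 1), (16, 1), (40, 1), (49, 1)]) (.alt (.split 1 [0, 1, 0, 0]
    (.alt (.leaf [(0, 1), (58, 1)]) (.alt (.leaf [(0, 1), (14, 2), (58, 1)]) (.alt (.split 5 []
    (.alt (.leaf [(0, 1), (1, 2), (8, 2), (10, 2), (12, 2), (14, 2), (16, 3), (18, 2), (20, 1),
    (37, 1), (42, 1), (45, 1)]) (.alt (.split 6 [0, 0, 1, 1] (.alt (.leaf [(0, 2), (10, 2), (12,
    1), (60, 1)]) (.alt (.leaf [(0, 2), (10, 10), (12, 7), (16, 12), (60, 11)]) (.alt (.split 6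
    [0, 1, -1, -1] (.alt (.leaf [(0, 2), (11, 10), (13, 7), (17, 10), (61, 11)]) (.alt (.leaf
    [(0, 2), (11, 2), (13, 1), (17, 2), (61, 1)]) (.alt (.leaf [(0, 1), (1, 1), (20, 2), (22,
    1), (44, 1), (47, 1)]) (.alt (.leaf [(0, 8), (3, 10), (10, 10), (12, 6), (14, 4), (16, 4),
    (18, 4), (20, 12), (22, 12), (23, 4), (28, 2), (47, 9), (48, 3)]) (.alt (.leaf [(0, 2), (3,
    3), (4, 5), (10, 3), (12, 2), (16, 5), (18, 5), (20, 7), (22, 4), (26, 1), (30, 2), (44, 3),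
    (47, 3), (49, 1)]) (.alt (.split 4 [0, 0, 0, 1] (.alt (.leaf [(0, 2), (12, 2), (14, 1), (62,
    1)]) (.alt (.leaf [(0, 2), (12, 6), (14, 3), (18, 8), (62, 7)]) (.alt (.split 4 [0, 1, 0,
    -1] (.alt (.leaf [(0, 2), (13, 6), (15, 3), (19, 6), (63, 7)]) (.alt (.leaf [(0, 2), (13,
    2), (15, 1), (19, 2), (63, 1)]) (.alt (.leaf [(0, 1), (1, 1), (18, 2), (20, 2), (22, 2),
    (24, 1), (46, 1), (49, 1)]) (.alt (.leaf [(0, 8), (5, 6), (12, 6), (14, 2), (18, 8), (20,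
    8), (22, 8), (24, 8), (25, 4), (29, 2), (49, 5), (50, 3)]) (.alt (.leaf [(0, 5), (2, 3), (5,
    4), (12, 4), (14, 3), (16, 1), (18, 6), (20, 6), (22, 9), (24, 5), (28, 1), (32, 2), (46,
    4), (49, 4), (51, 1)]) (.alt (.split 1 [0, 0, 1, -1] (.alt (.split 3 [0, 0, 0, 1] (.alt
    (.leaf [(0, 1), (1, 1), (21, 1), (65, 1)]) (.alt (.leaf [(0, 2), (15, 4), (17, 3), (21, 6),
    (65, 5)]) (.alt (.split 2 [0, 0, 1, -1] (.alt (.split 3 [0, 0, 1, -1] (.alt (.leaf [(0, 2),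
    (17, 2), (19, 1), (23, 4), (67, 3)]) (.alt (.leaf [(0, 2), (17, 2), (19, 3), (67, 1)]) (.alt
    (.leaf [(0, 6), (2, 10), (9, 2), (16, 2), (20, 14), (22, 14), (24, 14), (26, 14), (28, 14),
    (29, 2), (34, 2), (53, 9), (54, 5)]) (.alt (.split 3 [0, 1, 0, -1] (.alt (.leaf [(0, 2),
    (18, 4), (20, 3), (24, 4), (68, 5)]) (.alt (.leaf [(0, 1), (2, 1), (18, 1), (24, 2), (68,
    1)]) (.alt (.leaf [(0, 2), (1, 1), (8, 1), (21, 3), (23, 3), (25, 3), (27, 4), (29, 2), (51,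
    2), (54, 2)]) (.alt (.leaf [(0, 8), (10, 6), (17, 6), (19, 2), (21, 8), (23, 8), (25, 8),
    (27, 8), (29, 8), (30, 4), (34, 2), (54, 5), (55, 3)]) (.alt (.leaf [(0, 1), (5, 1), (21,
    1), (23, 2), (25, 2), (27, 2), (29, 2), (54, 1), (55, 1)]) (.alt (.split 3 [0, 1, 1, -1]
    (.alt (.leaf [(0, 1), (3, 1), (19, 2), (25, 3), (69, 3)]) (.alt (.leaf [(0, 1), (3, 3), (19,
    4), (25, 7), (69, 5)]) (.alt (.leaf [(0, 1), (2, 1), (22, 2), (24, 2), (26, 2), (28, 2),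
    (30, 1), (52, 1), (55, 1)]) (.alt (.leaf [(0, 2), (10, 3), (11, 4), (18, 4), (20, 3), (22,
    5), (24, 5), (26, 8), (28, 8), (30, 3), (31, 1), (52, 5), (55, 3)]) (.alt (.leaf [(0, 2),
    (1, 2), (22, 3), (24, 3), (26, 3), (28, 3), (30, 2), (38, 1), (53, 1), (55, 1), (56, 1)])
    (.alt (.leaf [(0, 2), (11, 1), (12, 3), (18, 1), (22, 2), (24, 5), (26, 5), (28, 5), (30,
    2), (33, 1), (52, 1), (53, 2), (55, 1), (58, 1)]) (.alt (.leaf [(3, 2), (4, 2), (6, 4), (15,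
    3), (16, 2), (23, 2), (27, 4), (29, 4), (31, 7), (33, 6), (35, 1), (36, 1), (38, 1), (55,
    1), (57, 3), (58, 2), (60, 1)]) (.done))))))))) (.alt (.leaf [(4, 1), (10, 1), (15, 1), (22,
    1), (24, 1), (26, 1), (28, 2), (30, 2), (32, 2), (34, 1), (56, 1), (59, 1)]) (.done)))))))))
    (.alt (.leaf [(0, 1), (4, 1), (20, 1), (22, 2), (24, 2), (26, 1), (48, 1), (51, 1)]) (.alt
    (.leaf [(0, 2), (9, 1), (10, 3), (16, 1), (20, 2), (22, 5), (24, 5), (26, 5), (28, 4), (31,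
    1), (50, 1), (53, 2), (54, 1), (55, 1)]) (.alt (.leaf [(5, 2), (14, 1), (15, 3), (21, 1),
    (27, 3), (29, 3), (31, 3), (33, 2), (36, 1), (55, 1), (58, 1), (60, 1)]) (.done)))))))))
    (.alt (.leaf [(0, 1), (2, 1), (16, 1), (22, 2), (66, 2)]) (.alt (.leaf [(0, 4), (1, 4), (8,
    2), (15, 2), (17, 6), (19, 8), (21, 8), (23, 8), (25, 8), (27, 8), (33, 2), (52, 5), (53,
    3)]) (.alt (.leaf [(0, 2), (7, 3), (17, 1), (19, 1), (21, 1), (23, 4), (25, 4), (27, 1),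
    (28, 1), (49, 3), (52, 1)]) (.alt (.leaf [(0, 1), (3, 1), (17, 1), (19, 1), (21, 2), (23,
    2), (25, 1), (47, 1), (50, 1)]) (.alt (.leaf [(0, 4), (9, 6), (17, 2), (19, 2), (21, 8),
    (23, 8), (25, 8), (27, 8), (30, 2), (52, 3), (53, 3), (54, 2)]) (.alt (.leaf [(5, 2), (13,
    1), (14, 3), (20, 1), (26, 3), (28, 3), (30, 3), (32, 2), (35, 1), (54, 1), (57, 1), (59,
    1)]) (.done))))))))) (.alt (.leaf [(0, 4), (5, 4), (7, 2), (14, 2), (16, 2), (18, 4), (20,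
    4), (22, 4), (24, 8), (26, 8), (32, 2), (51, 5), (52, 3)]) (.alt (.leaf [(0, 2), (7, 1), (8,
    1), (14, 1), (18, 2), (20, 3), (22, 3), (24, 3), (26, 2), (29, 1), (48, 1), (51, 1), (53,
    1)]) (.alt (.leaf [(0, 1), (2, 1), (18, 1), (20, 2), (22, 2), (24, 2), (26, 1), (49, 1),
    (54, 1)]) (.alt (.leaf [(3, 4), (10, 4), (12, 2), (19, 2), (21, 2), (29, 4), (31, 4), (37,
    2), (56, 3), (57, 1)]) (.done))))))))) (.alt (.leaf [(0, 2), (16, 1), (64, 1)]) (.alt (.leaf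
    [(0, 4), (2, 4), (6, 2), (13, 6), (15, 6), (17, 4), (19, 8), (21, 8), (23, 8), (25, 8), (31,
    2), (50, 5), (51, 3)]) (.alt (.leaf [(0, 2), (5, 3), (13, 2), (15, 1), (17, 1), (19, 1),
    (21, 4), (23, 4), (25, 1), (26, 1), (47, 3), (50, 1)]) (.alt (.leaf [(0, 1), (1, 1), (13,
    1), (15, 1), (17, 1), (19, 2), (21, 2), (23, 1), (45, 1), (48, 1)]) (.alt (.leaf [(0, 4),
    (7, 6), (13, 4), (15, 2), (17, 2), (19, 8), (21, 8), (23, 8), (25, 8), (28, 2), (50, 3),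
    (51, 3), (52, 2)]) (.alt (.leaf [(5, 2), (11, 1), (12, 3), (18, 1), (24, 3), (26, 3), (28,
    3), (30, 2), (33, 1), (52, 1), (55, 1), (57, 1)]) (.done))))))))) (.alt (.leaf [(3, 2), (9,
    1), (10, 2), (17, 2), (19, 1), (21, 1), (23, 1), (25, 2), (27, 2), (29, 1), (30, 1), (51,
    1), (54, 1)]) (.done))))))))) (.alt (.leaf [(0, 4), (2, 4), (4, 2), (11, 2), (13, 2), (17,
    4), (19, 4), (21, 8), (23, 8), (29, 2), (48, 5), (49, 3)]) (.alt (.leaf [(0, 2), (4, 1), (5,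
    1), (11, 1), (17, 3), (19, 3), (21, 3), (23, 2), (26, 1), (45, 1), (48, 1), (50, 1)]) (.alt
    (.leaf [(0, 1), (1, 1), (17, 1), (19, 1), (21, 1), (43, 1), (46, 1)]) (.alt (.leaf [(3, 4),
    (7, 4), (9, 2), (16, 2), (18, 2), (26, 4), (28, 4), (34, 2), (53, 3), (54, 1)])
    (.done))))))))) (.alt (.leaf [(3, 2), (7, 1), (8, 2), (15, 2), (17, 1), (23, 1), (25, 1),
    (27, 1), (28, 1), (33, 1), (52, 1)]) (.done))))))))) (.alt (.leaf [(0, 2), (1, 1), (2, 2),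
    (9, 2), (11, 1), (13, 1), (15, 1), (17, 2), (19, 4), (21, 1), (23, 1), (43, 3), (46, 1)])
    (.alt (.split 4 [0, 0, 0, 1] (.alt (.leaf [(0, 2), (11, 2), (13, 1), (61, 1)]) (.alt (.leaf
    [(0, 2), (11, 6), (13, 3), (17, 8), (61, 7)]) (.alt (.split 1 [0, 0, 1, -1] (.alt (.split 3
    [0, 0, 0, 1] (.alt (.leaf [(0, 1), (1, 1), (19, 1), (63, 1)]) (.alt (.leaf [(0, 2), (13, 4),
    (15, 3), (19, 6), (63, 5)]) (.alt (.split 2 [0, 0, 1, -1] (.alt (.split 3 [0, 0, 1, -1]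
    (.alt (.leaf [(0, 2), (15, 2), (17, 1), (21, 4), (65, 3)]) (.alt (.leaf [(0, 2), (15, 2),
    (17, 3), (65, 1)]) (.alt (.leaf [(0, 6), (2, 10), (7, 2), (14, 2), (18, 14), (20, 14), (22,
    14), (24, 14), (26, 14), (27, 2), (32, 2), (51, 9), (52, 5)]) (.alt (.split 3 [0, 1, 0, -1]
    (.alt (.leaf [(0, 2), (16, 4), (18, 3), (22, 4), (66, 5)]) (.alt (.leaf [(0, 1), (2, 1),
    (16, 1), (22, 2), (66, 1)]) (.alt (.leaf [(0, 1), (1, 1), (7, 1), (19, 2), (21, 2), (23, 3),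
    (25, 3), (27, 1), (49, 2), (52, 1)]) (.alt (.leaf [(0, 8), (8, 6), (15, 6), (17, 2), (19,
    8), (21, 8), (23, 8), (25, 8), (27, 8), (28, 4), (32, 2), (52, 5), (53, 3)]) (.alt (.leaf
    [(0, 2), (6, 2), (8, 1), (15, 1), (17, 1), (19, 2), (21, 2), (23, 2), (25, 4), (27, 3), (35,
    1), (49, 1), (52, 1), (54, 2), (63, 1)]) (.alt (.split 3 [0, 1, 1, -1] (.alt (.leaf [(0, 1),
    (3, 1), (17, 2), (23, 3), (67, 3)]) (.alt (.leaf [(0, 1), (3, 3), (17, 4), (23, 7), (67,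
    5)]) (.alt (.leaf [(0, 1), (2, 1), (20, 2), (22, 2), (24, 2), (26, 2), (28, 1), (50, 1),
    (53, 1)]) (.alt (.leaf [(0, 2), (8, 3), (9, 4), (16, 4), (18, 3), (20, 5), (22, 5), (24, 8),
    (26, 8), (28, 3), (29, 1), (50, 5), (53, 3)]) (.alt (.leaf [(0, 2), (1, 2), (20, 3), (22,
    3), (24, 3), (26, 3), (28, 2), (36, 1), (51, 1), (53, 1), (54, 1)]) (.alt (.leaf [(0, 2),
    (9, 1), (10, 3), (16, 1), (20, 2), (22, 5), (24, 5), (26, 5), (28, 2), (31, 1), (50, 1),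
    (51, 2), (53, 1), (56, 1)]) (.alt (.leaf [(3, 4), (4, 1), (6, 3), (13, 6), (14, 3), (21, 3),
    (25, 3), (27, 3), (29, 9), (31, 9), (33, 2), (34, 2), (36, 1), (55, 5), (56, 2), (58, 1),
    (61, 1)]) (.done))))))))) (.alt (.leaf [(3, 2), (12, 1), (13, 2), (20, 2), (22, 1), (24, 1),
    (26, 1), (28, 2), (30, 2), (32, 1), (33, 1), (54, 1), (57, 1)]) (.done))))))))) (.alt (.leaf
    [(0, 1), (5, 1), (24, 1), (34, 1), (49, 1)]) (.alt (.leaf [(0, 2), (7, 1), (8, 3), (14, 1),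
    (18, 2), (20, 5), (22, 5), (24, 5), (26, 4), (29, 1), (48, 1), (51, 2), (52, 1), (53, 1)])
    (.alt (.leaf [(2, 2), (7, 2), (12, 2), (19, 2), (21, 2), (23, 3), (25, 3), (27, 3), (29, 3),
    (31, 2), (37, 1), (53, 1), (56, 2)]) (.done))))))))) (.alt (.leaf [(0, 1), (2, 1), (14, 1),
    (20, 2), (64, 2)]) (.alt (.leaf [(0, 4), (1, 4), (6, 2), (13, 2), (15, 6), (17, 8), (19, 8),
    (21, 8), (23, 8), (25, 8), (31, 2), (50, 5), (51, 3)]) (.alt (.leaf [(0, 2), (5, 3), (15,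
    1), (17, 1), (19, 1), (21, 4), (23, 4), (25, 1), (26, 1), (47, 3), (50, 1)]) (.alt (.leaf
    [(0, 1), (1, 2), (4, 1), (5, 1), (17, 1), (19, 1), (21, 2), (23, 3), (25, 1), (26, 1), (33,
    1), (47, 1), (48, 1), (50, 1)]) (.alt (.leaf [(0, 4), (7, 6), (15, 2), (17, 2), (19, 8),
    (21, 8), (23, 8), (25, 8), (28, 2), (50, 3), (51, 3), (52, 2)]) (.alt (.leaf [(2, 2), (6,
    2), (11, 2), (18, 2), (20, 2), (22, 3), (24, 3), (26, 3), (28, 3), (30, 2), (36, 1), (52,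
    1), (55, 2)]) (.done))))))))) (.alt (.leaf [(0, 4), (5, 4), (12, 4), (14, 2), (16, 5), (18,
    5), (20, 5), (22, 5), (24, 2), (26, 2), (30, 1), (46, 3), (49, 2)]) (.alt (.leaf [(0, 2),
    (5, 1), (12, 1), (16, 2), (18, 2), (20, 2), (22, 2), (24, 1), (27, 1), (46, 1), (49, 1),
    (58, 1)]) (.alt (.leaf [(0, 2), (3, 2), (5, 2), (12, 2), (14, 2), (16, 3), (18, 3), (20, 3),
    (22, 5), (24, 2), (32, 1), (46, 2), (47, 1), (49, 2)]) (.alt (.leaf [(3, 1), (7, 1), (10,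
    1), (17, 1), (19, 1), (21, 1), (23, 2), (25, 2), (27, 2), (29, 1), (51, 1), (54, 1)])
    (.done))))))))) (.alt (.leaf [(0, 2), (14, 1), (62, 1)]) (.alt (.leaf [(0, 4), (1, 4), (4,
    2), (11, 6), (13, 6), (15, 4), (17, 8), (19, 8), (21, 8), (23, 8), (29, 2), (48, 5), (49,
    3)]) (.alt (.leaf [(0, 2), (3, 3), (11, 2), (13, 1), (15, 1), (17, 1), (19, 4), (21, 4),
    (23, 1), (24, 1), (45, 3), (48, 1)]) (.alt (.leaf [(0, 1), (2, 1), (11, 1), (13, 1), (21,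
    1), (31, 1), (46, 1)]) (.alt (.leaf [(0, 4), (5, 6), (11, 4), (13, 2), (15, 2), (17, 8),
    (19, 8), (21, 8), (23, 8), (26, 2), (48, 3), (49, 3), (50, 2)]) (.alt (.leaf [(2, 2), (6,
    2), (9, 2), (16, 2), (18, 2), (20, 1), (22, 3), (24, 3), (26, 3), (28, 2), (34, 1), (50, 1),
    (53, 2)]) (.done))))))))) (.alt (.leaf [(0, 4), (3, 4), (10, 4), (12, 2), (14, 1), (16, 5),
    (18, 5), (20, 5), (22, 2), (24, 2), (28, 1), (44, 3), (47, 2)]) (.alt (.leaf [(0, 2), (3,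
    1), (4, 1), (10, 1), (16, 3), (18, 3), (20, 3), (22, 2), (25, 1), (44, 1), (47, 1), (49,
    1)]) (.alt (.leaf [(0, 2), (1, 2), (3, 2), (10, 2), (12, 2), (14, 1), (16, 3), (18, 3), (20,
    5), (22, 2), (30, 1), (44, 2), (45, 1), (47, 2)]) (.alt (.leaf [(1, 2), (16, 2), (18, 1),
    (22, 4), (66, 3)]) (.done))))))))) (.alt (.leaf [(0, 2), (2, 2), (3, 2), (9, 2), (11, 1),
    (13, 1), (15, 3), (17, 3), (19, 4), (21, 2), (25, 1), (41, 1), (43, 2), (46, 2)]) (.alt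
    (.leaf [(1, 2), (15, 4), (17, 3), (21, 6), (65, 5)]) (.done))))))))) (.alt (.leaf [(0, 1),
    (1, 1), (2, 1), (8, 1), (10, 1), (12, 1), (14, 2), (16, 3), (18, 3), (20, 1), (42, 1), (43,
    1), (45, 1)]) (.alt (.leaf [(0, 1), (1, 1), (2, 1), (8, 1), (10, 1), (14, 1), (16, 2), (18,
    2), (20, 1), (28, 1), (42, 1), (45, 1)]) (.done)))))) (.alt (.leaf [(0, 2), (7, 2), (9, 2),
    (11, 2), (13, 2), (15, 2), (17, 2), (19, 1), (40, 1), (45, 1), (50, 1), (52, 1)]) (.alt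
    (.leaf [(0, 1), (7, 1), (9, 1), (11, 1), (13, 1), (15, 1), (17, 1), (19, 1), (46, 1), (55,
    1)]) (.alt (.leaf [(0, 1), (1, 1), (7, 1), (9, 1), (11, 1), (13, 2), (15, 2), (17, 1), (39,
    1), (42, 1)]) (.alt (.leaf [(1, 1), (19, 1)]) (.done))))))))) (.alt (.leaf [(0, 1), (12, 1),
    (14, 1), (16, 1), (18, 1), (46, 1), (52, 1)]) (.done)))))

/-- Class (1, 0, 1). -/
def EM.T5 : Tree :=
  .split 4 [] (.alt (.leaf [(0, 1), (12, 1), (14, 1), (16, 1), (18, 1), (43, 1), (51, 1)]) (.alt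
    (.leaf [(0, 1), (12, 1), (14, 1), (16, 1), (40, 1), (49, 1)]) (.alt (.split 2 [0, 0, 1, -1]
    (.alt (.leaf [(0, 2), (12, 3), (14, 1), (58, 1)]) (.alt (.leaf [(0, 2), (8, 1)]) (.alt
    (.leaf [(0, 2), (9, 1), (21, 1), (25, 1)]) (.alt (.leaf [(0, 2), (1, 2), (9, 1), (13, 2),
    (15, 2), (17, 2), (20, 1), (27, 1), (41, 1), (42, 1), (50, 2)]) (.alt (.leaf [(0, 2), (9,
    1), (23, 1), (27, 1)]) (.alt (.leaf [(0, 2), (1, 2), (9, 1), (11, 1), (13, 3), (15, 3), (17,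
    3), (19, 2), (22, 1), (42, 1), (44, 1), (45, 1)]) (.alt (.leaf [(0, 2), (13, 1), (19, 2),
    (63, 2)]) (.done))))))))) (.alt (.leaf [(0, 1), (12, 1), (14, 1), (16, 1), (18, 1), (46, 1),
    (52, 1)]) (.done)))))

/-- Class (0, 1, 1). -/
def EM.T6 : Tree :=
  .split 4 [] (.alt (.leaf [(0, 1), (12, 1), (14, 1), (16, 1), (18, 1), (43, 1), (51, 1)]) (.alt
    (.leaf [(0, 1), (12, 1), (14, 1), (16, 1), (40, 1), (49, 1)]) (.alt (.split 1 [0, 1, 0, 0]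
    (.alt (.leaf [(0, 1), (58, 1)]) (.alt (.leaf [(0, 1), (14, 2), (58, 1)]) (.alt (.split 5 []
    (.alt (.leaf [(0, 1), (1, 2), (8, 2), (10, 2), (12, 2), (14, 2), (16, 2), (34, 1), (37, 2)])
    (.alt (.split 4 [0, 0, 0, 1] (.alt (.leaf [(0, 2), (10, 2), (12, 1), (14, 1), (60, 1)])
    (.alt (.leaf [(0, 2), (12, 3), (14, 5), (16, 2), (60, 1)]) (.alt (.split 3 [0, 1, 0, -1]
    (.alt (.leaf [(0, 2), (13, 3), (15, 3), (61, 1)]) (.alt (.leaf [(0, 2), (11, 1), (13, 1),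
    (17, 1)]) (.alt (.leaf [(0, 1), (1, 1), (14, 1), (16, 2), (18, 1), (36, 1), (39, 1)]) (.alt
    (.leaf [(0, 6), (3, 7), (10, 7), (12, 4), (14, 6), (16, 6), (18, 6), (20, 1), (22, 1), (23,
    3), (28, 4), (39, 5), (48, 1)]) (.alt (.leaf [(0, 2), (3, 2), (4, 3), (10, 2), (12, 1), (14,
    2), (16, 5), (18, 3), (20, 1), (22, 1), (26, 1), (30, 1), (36, 2), (39, 2), (49, 1)]) (.alt
    (.split 1 [0, 1, 1, -1] (.alt (.split 3 [0, 1, 1, -1] (.alt (.leaf [(0, 2), (13, 1), (15,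
    1), (19, 1), (63, 2)]) (.alt (.leaf [(0, 3), (1, 1), (15, 4), (17, 4), (19, 1)]) (.alt
    (.leaf [(0, 2), (3, 2), (16, 1), (18, 3), (20, 3), (22, 3), (24, 2), (30, 1), (46, 1), (49,
    2)]) (.alt (.leaf [(0, 4), (5, 4), (12, 4), (14, 2), (16, 5), (18, 5), (20, 5), (22, 5),
    (24, 2), (25, 2), (29, 1), (46, 3), (49, 2)]) (.alt (.leaf [(0, 6), (2, 6), (5, 2), (12, 2),
    (14, 2), (16, 9), (18, 9), (20, 5), (22, 5), (24, 2), (29, 2), (32, 3), (38, 4), (47, 3),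
    (49, 2)]) (.alt (.leaf [(0, 2), (5, 1), (6, 2), (12, 1), (16, 2), (18, 4), (20, 4), (22, 3),
    (24, 1), (27, 1), (44, 1), (46, 1), (47, 1), (49, 1)]) (.alt (.leaf [(4, 2), (7, 2), (21,
    1), (23, 1), (25, 1), (27, 1), (37, 1), (52, 1)]) (.done))))))))) (.alt (.leaf [(0, 2), (14,
    1), (16, 1), (18, 2), (62, 1)]) (.alt (.leaf [(0, 2), (2, 2), (11, 2), (13, 2), (15, 1),
    (17, 3), (19, 3), (21, 3), (23, 2), (29, 1), (45, 1), (48, 2)]) (.alt (.leaf [(0, 4), (4,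
    1), (11, 5), (13, 3), (24, 2), (28, 2), (29, 1), (60, 1)]) (.alt (.leaf [(0, 6), (1, 6), (4,
    2), (11, 8), (13, 8), (15, 9), (17, 9), (19, 5), (21, 5), (23, 2), (28, 2), (31, 3), (37,
    4), (46, 3), (48, 2)]) (.alt (.leaf [(0, 2), (5, 1), (11, 2), (13, 1), (15, 1), (17, 2),
    (19, 2), (21, 2), (23, 1), (26, 1), (46, 1), (51, 1)]) (.alt (.leaf [(4, 2), (6, 2), (20,
    1), (22, 1), (24, 1), (26, 1), (36, 1), (51, 1)]) (.done))))))))) (.alt (.leaf [(0, 2), (16,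
    1), (18, 1), (22, 1), (66, 2)]) (.done))))))))) (.alt (.leaf [(0, 2), (2, 3), (9, 3), (11,
    2), (13, 2), (15, 4), (17, 3), (19, 1), (23, 1), (35, 1), (38, 2), (43, 1)]) (.alt (.split 6
    [] (.alt (.leaf [(0, 1), (2, 1), (18, 1), (20, 2), (22, 1), (44, 1), (47, 1)]) (.alt (.leaf
    [(0, 1), (3, 2), (10, 2), (12, 2), (14, 2), (16, 2), (36, 2), (39, 1)]) (.alt (.leaf [(0,
    1), (3, 1), (4, 1), (10, 1), (12, 1), (14, 1), (16, 2), (18, 1), (20, 1), (22, 1), (36, 1),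
    (39, 1), (49, 1)]) (.alt (.split 3 [0, 0, 1, -1] (.alt (.leaf [(0, 2), (14, 1), (16, 1),
    (18, 2), (62, 1)]) (.alt (.leaf [(0, 2), (12, 2), (14, 3), (16, 1), (62, 1)]) (.alt (.leaf
    [(0, 6), (4, 3), (11, 3), (15, 4), (17, 4), (19, 4), (21, 3), (23, 1), (25, 3), (29, 2),
    (40, 1), (44, 2), (49, 1)]) (.alt (.split 1 [0, 1, 1, -1] (.alt (.split 3 [0, 1, 1, -1]
    (.alt (.leaf [(0, 2), (14, 1), (16, 1), (20, 1), (64, 2)]) (.alt (.leaf [(0, 3), (1, 1),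
    (16, 4), (18, 4), (20, 1)]) (.alt (.leaf [(0, 1), (2, 1), (17, 2), (19, 2), (21, 1), (39,
    1), (42, 1)]) (.alt (.leaf [(0, 2), (6, 3), (13, 3), (15, 2), (17, 4), (19, 4), (21, 3),
    (23, 1), (26, 1), (39, 1), (42, 2), (47, 1)]) (.alt (.leaf [(0, 3), (3, 3), (4, 3), (6, 3),
    (13, 3), (15, 3), (17, 2), (19, 5), (30, 1), (33, 3), (39, 5), (42, 3), (60, 1)]) (.alt
    (.leaf [(0, 1), (4, 1), (6, 1), (13, 1), (17, 1), (19, 2), (21, 1), (28, 1), (39, 1), (42,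
    1)]) (.alt (.leaf [(4, 1), (8, 1), (9, 1), (11, 1), (18, 1), (20, 1), (24, 1), (26, 1), (28,
    2), (30, 1), (38, 1), (52, 1), (55, 1)]) (.done))))))))) (.alt (.leaf [(0, 2), (15, 1), (17,
    1), (19, 2), (63, 1)]) (.alt (.leaf [(0, 1), (1, 1), (12, 1), (14, 1), (16, 2), (18, 2),
    (20, 1), (38, 1), (41, 1)]) (.alt (.leaf [(0, 4), (5, 1), (12, 5), (14, 3), (25, 2), (29,
    2), (30, 1), (61, 1)]) (.alt (.leaf [(0, 9), (2, 7), (3, 9), (5, 5), (12, 14), (14, 14),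
    (16, 1), (18, 10), (22, 7), (24, 7), (29, 5), (32, 8), (38, 10), (49, 5), (51, 2), (60, 1)])
    (.alt (.leaf [(0, 2), (6, 1), (12, 2), (14, 1), (16, 1), (18, 2), (20, 2), (22, 2), (24, 1),
    (27, 1), (47, 1), (52, 1)]) (.alt (.leaf [(4, 1), (7, 1), (8, 1), (10, 1), (17, 1), (19, 1),
    (23, 1), (25, 1), (27, 2), (29, 1), (37, 1), (51, 1), (54, 1)]) (.done))))))))) (.alt (.leaf
    [(0, 6), (2, 6), (4, 2), (11, 2), (13, 2), (15, 3), (17, 9), (19, 5), (21, 5), (23, 2), (28,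
    2), (31, 3), (37, 4), (46, 3), (48, 2)]) (.alt (.leaf [(0, 2), (1, 1), (4, 3), (5, 2), (11,
    3), (13, 2), (15, 3), (17, 5), (19, 2), (26, 1), (31, 1), (37, 3), (40, 3)]) (.done))))))))
    (.done)))))) (.alt (.leaf [(0, 2), (2, 1), (3, 2), (9, 1), (15, 4), (17, 3), (19, 1), (25,
    1), (35, 1), (38, 1), (41, 1), (44, 1)]) (.alt (.leaf [(1, 2), (17, 1), (19, 1), (21, 2),
    (65, 1)]) (.done))))))))) (.alt (.leaf [(0, 1), (1, 1), (2, 1), (8, 1), (10, 1), (12, 1),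
    (14, 2), (16, 2), (18, 1), (34, 1), (37, 1), (43, 1)]) (.alt (.leaf [(0, 1), (1, 1), (2, 1),
    (8, 1), (10, 1), (14, 1), (16, 1), (28, 1), (34, 1), (37, 1)]) (.done)))))) (.alt (.leaf
    [(0, 3), (7, 3), (9, 3), (11, 2), (13, 2), (15, 2), (24, 1), (37, 2), (54, 2), (56, 1)])
    (.alt (.leaf [(0, 2), (7, 2), (9, 2), (11, 1), (13, 1), (15, 1), (27, 1), (38, 1), (53, 1),
    (55, 1)]) (.alt (.leaf [(0, 1), (1, 1), (7, 1), (9, 1), (11, 1), (13, 2), (15, 2), (17, 1),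
    (39, 1), (42, 1)]) (.alt (.leaf [(1, 1), (19, 1)]) (.done))))))))) (.alt (.leaf [(0, 2),
    (12, 2), (14, 2), (16, 2), (18, 2), (43, 1), (44, 1), (50, 2), (54, 2)]) (.done)))))

/-- Class (1, 1, 1). -/
def EM.T7 : Tree :=
  .split 4 [] (.alt (.leaf [(0, 1), (12, 1), (14, 1), (16, 1), (18, 1), (43, 1), (51, 1)]) (.alt
    (.leaf [(0, 1), (12, 1), (14, 1), (16, 1), (40, 1), (49, 1)]) (.alt (.split 1 [0, 1, 0, 0]
    (.alt (.leaf [(0, 1), (58, 1)]) (.alt (.leaf [(0, 1), (14, 2), (58, 1)]) (.alt (.split 5 []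
    (.alt (.leaf [(0, 1), (1, 2), (8, 2), (10, 2), (12, 2), (14, 2), (16, 3), (18, 2), (20, 1),
    (37, 1), (42, 1), (45, 1)]) (.alt (.split 2 [1, 1, 0, -1] (.alt (.leaf [(0, 2), (10, 1),
    (16, 1), (60, 2)]) (.alt (.leaf [(0, 2), (10, 3), (16, 3), (60, 2)]) (.alt (.leaf [(0, 2),
    (1, 2), (11, 1), (13, 1), (15, 1), (17, 3), (19, 3), (21, 1), (23, 1), (43, 2), (46, 1)])
    (.alt (.leaf [(0, 4), (2, 2), (9, 2), (11, 4), (13, 2), (15, 2), (17, 2), (19, 2), (21, 2),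
    (22, 2), (27, 2), (46, 1), (47, 1)]) (.alt (.leaf [(0, 2), (2, 2), (3, 2), (9, 2), (11, 3),
    (13, 3), (15, 5), (17, 5), (19, 5), (21, 3), (25, 1), (43, 2), (46, 2), (48, 1)]) (.alt
    (.split 4 [0, 0, 1, -1] (.alt (.leaf [(0, 2), (11, 5), (13, 2), (17, 7), (61, 6)]) (.alt
    (.leaf [(0, 2), (11, 3), (13, 2), (17, 1), (61, 2)]) (.alt (.leaf [(0, 2), (3, 2), (10, 2),
    (12, 1), (16, 2), (18, 2), (20, 2), (22, 1), (24, 1), (28, 1), (44, 1), (47, 1)]) (.alt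
    (.split 2 [0, 1, 1, -1] (.alt (.leaf [(0, 2), (12, 3), (18, 3), (62, 4)]) (.alt (.leaf [(0,
    2), (12, 1), (18, 1)]) (.alt (.leaf [(0, 1), (1, 1), (13, 1), (15, 1), (17, 2), (19, 2),
    (21, 2), (23, 1), (45, 1), (48, 1)]) (.alt (.leaf [(0, 4), (4, 2), (11, 2), (13, 4), (15,
    2), (17, 2), (19, 2), (21, 2), (23, 2), (24, 2), (28, 2), (48, 1), (49, 1)]) (.alt (.leaf
    [(0, 2), (2, 2), (13, 4), (15, 2), (17, 2), (19, 2), (21, 2), (23, 2), (31, 2), (48, 1),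
    (49, 1)]) (.alt (.leaf [(0, 2), (5, 2), (13, 1), (15, 1), (17, 3), (19, 3), (21, 3), (23,
    1), (26, 1), (46, 2), (51, 1)]) (.alt (.leaf [(3, 2), (8, 2), (9, 2), (16, 2), (18, 1), (20,
    1), (22, 1), (24, 3), (26, 3), (28, 1), (29, 1), (50, 2), (53, 1)]) (.done))))))))) (.alt
    (.leaf [(0, 2), (1, 2), (12, 2), (14, 1), (16, 3), (18, 3), (20, 1), (30, 1), (42, 2), (45,
    1)]) (.alt (.leaf [(0, 2), (3, 2), (4, 2), (10, 2), (12, 1), (14, 1), (16, 5), (18, 5), (20,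
    5), (22, 3), (25, 1), (44, 2), (47, 2), (49, 1)]) (.alt (.leaf [(0, 2), (16, 1), (22, 3),
    (66, 2)]) (.done))))))))) (.alt (.leaf [(1, 2), (15, 1), (21, 1)]) (.done))))))))) (.alt
    (.leaf [(0, 1), (1, 1), (2, 1), (8, 1), (10, 1), (12, 1), (14, 2), (16, 3), (18, 3), (20,
    1), (42, 1), (43, 1), (45, 1)]) (.alt (.leaf [(0, 1), (1, 1), (2, 1), (8, 1), (10, 1), (14,
    1), (16, 2), (18, 2), (20, 1), (28, 1), (42, 1), (45, 1)]) (.done)))))) (.alt (.leaf [(0,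
    1), (7, 1), (9, 1), (11, 1), (13, 1), (15, 1), (17, 1), (19, 1), (45, 1), (54, 1)]) (.alt
    (.leaf [(0, 4), (7, 4), (9, 4), (11, 2), (13, 2), (15, 2), (17, 2), (19, 2), (27, 2), (44,
    1), (45, 1), (53, 4), (55, 2)]) (.alt (.leaf [(0, 1), (1, 1), (7, 1), (9, 1), (11, 1), (13,
    2), (15, 2), (17, 1), (39, 1), (42, 1)]) (.alt (.leaf [(1, 1), (19, 1)]) (.done)))))))))
    (.alt (.leaf [(0, 1), (12, 1), (14, 1), (16, 1), (18, 1), (46, 1), (52, 1)]) (.done)))))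

/-- The eight classes. -/
def EM.T : ℕ → Tree
  | 0 => EM.T0
  | 1 => EM.T1
  | 2 => EM.T2
  | 3 => EM.T3
  | 4 => EM.T4
  | 5 => EM.T5
  | 6 => EM.T6
  | 7 => EM.T7
  | _ => .done

theorem EM.chk : checkCls EM.D 2 [(0, -1, 1)] EM.T = true := by decide +kernel

/-- Type E, `z_{-1} = w - v`: `q(v) < M_{-2}`. -/
def EN.D : Data :=
  ⟨[none, none, some [0, -1, 1], some [1, 0, -1], some [0, 0, 1], some [1, 0, 0], some [1, 1, 0],
    some [1, 0, 1], some [1, 1, 1]],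
    sup, stdExt ++ [⟨true, [(1, 1)], [0, -1, 0], [], []⟩], []⟩

/-- Class (0, 0, 0). -/
def EN.T0 : Tree :=
  .split 0 [0, 0, 0, 1] (.alt (.leaf [(0, 2), (7, 1), (9, 1), (61, 1)]) (.alt (.leaf [(0, 2), (1,
    3), (3, 3)]) (.alt (.leaf [(0, 4), (4, 4), (6, 2), (8, 2), (10, 2), (12, 2), (14, 2), (16,
    2), (18, 2), (19, 2), (47, 1), (48, 1)]) (.alt (.leaf [(0, 4), (4, 4), (6, 2), (8, 2), (10,
    2), (12, 2), (14, 2), (16, 2), (18, 2), (20, 2), (47, 1), (48, 1)]) (.alt (.leaf [(0, 4),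
    (4, 4), (6, 2), (8, 2), (10, 2), (12, 2), (14, 2), (16, 2), (18, 2), (21, 2), (47, 1), (48,
    1)]) (.alt (.leaf [(0, 4), (4, 4), (6, 2), (8, 2), (10, 2), (12, 2), (14, 2), (16, 2), (18,
    2), (22, 2), (47, 1), (48, 1)]) (.alt (.leaf [(1, 2), (12, 1), (14, 1), (66, 1)])
    (.done))))))))

/-- Class (1, 0, 0). -/
def EN.T1 : Tree :=
  .split 4 [] (.alt (.leaf [(0, 1), (12, 1), (14, 1), (16, 1), (18, 1), (47, 1), (55, 1)]) (.alt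
    (.leaf [(0, 1), (12, 1), (14, 1), (16, 1), (44, 1), (53, 1)]) (.alt (.split 0 [0, 1, 0, 0]
    (.alt (.leaf [(0, 1), (62, 1)]) (.alt (.leaf [(0, 1), (2, 1), (4, 1), (8, 1), (10, 1)])
    (.alt (.split 6 [] (.alt (.leaf [(0, 1), (1, 1), (6, 1), (8, 1), (18, 1), (20, 1), (26, 1),
    (49, 1)]) (.alt (.leaf [(0, 1), (1, 3), (6, 3), (8, 3), (10, 2), (12, 2), (14, 2), (18, 1),
    (20, 1), (26, 1), (38, 2), (49, 1)]) (.alt (.leaf [(0, 1), (1, 2), (2, 1), (6, 2), (8, 2),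
    (10, 1), (12, 1), (14, 2), (16, 1), (18, 2), (20, 2), (26, 1), (38, 1), (49, 1), (51, 1)])
    (.alt (.split 1 [1, -1, 0, -1] (.alt (.leaf [(0, 2), (4, 1), (6, 1), (12, 1)]) (.alt (.leaf
    [(0, 2), (4, 2), (6, 2), (8, 4), (10, 1), (64, 1)]) (.alt (.leaf [(0, 4), (2, 8), (7, 8),
    (9, 10), (11, 8), (13, 8), (15, 8), (17, 8), (19, 8), (21, 8), (23, 2), (27, 2), (50, 5),
    (51, 3)]) (.alt (.split 0 [0, 0, 1, -1] (.alt (.leaf [(0, 2), (5, 2), (7, 2), (11, 1), (65,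
    1)]) (.alt (.leaf [(0, 2), (5, 1), (7, 1), (13, 1)]) (.alt (.leaf [(0, 1), (1, 1), (2, 1),
    (4, 2), (8, 1), (10, 2), (12, 1), (16, 2), (20, 1), (22, 1), (29, 1), (34, 1), (40, 2), (51,
    1)]) (.alt (.leaf [(0, 4), (3, 8), (8, 12), (10, 10), (12, 4), (14, 4), (16, 4), (18, 4),
    (20, 4), (22, 4), (23, 2), (28, 6), (51, 3), (52, 1)]) (.alt (.split 6 [0, 1, 1, 1] (.alt
    (.leaf [(0, 2), (10, 2), (12, 1), (66, 1)]) (.alt (.leaf [(0, 2), (6, 11), (8, 11), (10,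
    10), (12, 12), (14, 9)]) (.alt (.split 4 [0, 0, 0, 1] (.alt (.leaf [(0, 2), (7, 1), (9, 1),
    (11, 2), (13, 2), (15, 1)]) (.alt (.leaf [(0, 2), (7, 7), (9, 7), (11, 6), (13, 6), (15,
    3)]) (.alt (.leaf [(0, 4), (5, 4), (10, 4), (12, 2), (18, 4), (20, 4), (22, 4), (24, 4),
    (25, 2), (30, 2), (53, 3), (54, 1)]) (.alt (.leaf [(0, 1), (1, 1), (18, 1), (22, 1), (24,
    1), (42, 1), (53, 1)]) (.alt (.leaf [(0, 3), (2, 3), (5, 3), (10, 6), (12, 6), (14, 5), (16,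
    4), (18, 7), (20, 7), (22, 7), (24, 4), (31, 1), (36, 1), (50, 3), (53, 3), (55, 1)]) (.alt
    (.split 6 [0, 0, 1, 1] (.alt (.leaf [(0, 2), (8, 1), (10, 1), (12, 2), (14, 2), (16, 1)])
    (.alt (.leaf [(0, 2), (8, 11), (10, 11), (12, 10), (14, 10), (16, 7)]) (.alt (.leaf [(0, 8),
    (6, 6), (11, 6), (13, 2), (15, 2), (23, 8), (25, 8), (26, 4), (35, 2), (54, 7), (55, 1)])
    (.alt (.leaf [(0, 1), (2, 1), (23, 2), (25, 1), (51, 1), (54, 1)]) (.alt (.leaf [(0, 3), (1,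
    3), (6, 3), (11, 3), (13, 3), (15, 2), (17, 1), (19, 4), (21, 4), (23, 7), (25, 4), (32, 1),
    (37, 1), (51, 3), (54, 3), (56, 1)]) (.alt (.leaf [(0, 2), (6, 3), (7, 3), (11, 3), (13, 2),
    (15, 2), (17, 1), (19, 4), (21, 4), (23, 6), (25, 3), (29, 1), (37, 1), (51, 3), (54, 3)])
    (.alt (.leaf [(1, 2), (17, 4), (19, 9), (21, 8), (73, 5)]) (.done))))))))) (.alt (.leaf [(4,
    1), (7, 1), (9, 1), (10, 2), (11, 1), (15, 3), (17, 3), (19, 1), (23, 1), (27, 1), (29, 1),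
    (35, 1), (36, 1), (41, 1), (47, 1), (58, 1)]) (.done))))))))) (.alt (.leaf [(0, 2), (2, 2),
    (11, 2), (13, 2), (15, 2), (17, 2), (19, 2), (21, 4), (23, 2), (49, 2), (52, 1), (53, 1)])
    (.alt (.leaf [(0, 2), (1, 2), (3, 3), (4, 3), (9, 5), (11, 5), (13, 4), (15, 1), (17, 1),
    (19, 1), (21, 6), (23, 3), (30, 1), (35, 3), (49, 3), (52, 3)]) (.alt (.leaf [(0, 2), (4,
    2), (5, 3), (9, 2), (11, 1), (17, 3), (19, 3), (21, 4), (23, 2), (27, 1), (30, 1), (47, 1),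
    (49, 2), (52, 2)]) (.alt (.leaf [(3, 1), (7, 1), (16, 1), (18, 1), (20, 1), (22, 1), (24,
    1), (26, 1), (54, 1)]) (.done))))))))) (.alt (.leaf [(0, 4), (4, 6), (8, 4), (10, 2), (12,
    2), (14, 2), (16, 8), (18, 8), (20, 8), (22, 6), (25, 2), (49, 2), (51, 3), (52, 3)]) (.alt
    (.leaf [(5, 2), (8, 1), (9, 3), (13, 1), (21, 3), (23, 3), (25, 3), (27, 1), (30, 1), (53,
    1), (54, 1), (56, 1)]) (.done))))))))) (.alt (.leaf [(0, 2), (1, 1), (2, 4), (3, 3), (7, 4),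
    (9, 5), (15, 3), (17, 1), (19, 2), (21, 2), (25, 1), (27, 2), (28, 3), (39, 2), (50, 2)])
    (.alt (.leaf [(0, 2), (1, 2), (2, 6), (3, 3), (7, 6), (9, 7), (11, 4), (13, 1), (15, 4),
    (17, 1), (19, 3), (21, 3), (24, 1), (27, 3), (33, 3), (39, 3), (50, 3)]) (.alt (.leaf [(2,
    4), (7, 8), (12, 8), (14, 6), (16, 4), (18, 4), (20, 4), (22, 4), (24, 4), (26, 4), (28, 2),
    (32, 2), (55, 3), (56, 1)]) (.done))))))))) (.done)))))) (.alt (.leaf [(0, 1), (5, 1), (7,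
    1), (9, 1), (11, 1), (13, 1), (15, 1), (17, 1), (19, 1), (49, 1), (58, 1)]) (.alt (.leaf
    [(0, 1), (5, 1), (7, 1), (9, 1), (11, 1), (13, 1), (15, 1), (17, 1), (19, 1), (50, 1), (59,
    1)]) (.alt (.leaf [(0, 2), (5, 2), (7, 2), (9, 1), (11, 1), (13, 1), (15, 1), (17, 1), (19,
    1), (26, 1), (51, 1), (55, 1)]) (.alt (.leaf [(1, 1), (13, 1), (15, 1)]) (.done)))))))))
    (.alt (.leaf [(0, 2), (12, 2), (14, 2), (16, 2), (18, 2), (47, 1), (48, 1), (54, 2), (58,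
    2)]) (.done)))))

/-- Class (0, 1, 0). -/
def EN.T2 : Tree :=
  .split 4 [] (.alt (.leaf [(0, 1), (12, 1), (14, 1), (16, 1), (18, 1), (47, 1), (55, 1)]) (.alt
    (.leaf [(0, 1), (12, 1), (14, 1), (16, 1), (44, 1), (53, 1)]) (.alt (.split 0 [0, 0, 0, 1]
    (.alt (.leaf [(0, 2), (62, 1)]) (.alt (.leaf [(0, 2), (2, 3), (4, 3), (8, 1), (10, 1)])
    (.alt (.split 6 [] (.alt (.leaf [(0, 1), (1, 2), (6, 2), (8, 1), (18, 1), (20, 1), (21, 1),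
    (26, 1), (49, 1)]) (.alt (.leaf [(0, 1), (1, 4), (6, 4), (8, 2), (10, 2), (12, 1), (14, 1),
    (16, 1), (18, 1), (21, 2), (30, 1), (41, 1), (46, 1)]) (.alt (.leaf [(0, 2), (1, 4), (2, 2),
    (6, 4), (8, 2), (10, 2), (12, 1), (14, 3), (16, 3), (18, 3), (20, 2), (21, 2), (30, 1), (41,
    2), (46, 1), (51, 2)]) (.alt (.split 4 [0, 1, -1, -1] (.alt (.leaf [(0, 2), (4, 7), (6, 7),
    (8, 6), (10, 5), (12, 3)]) (.alt (.leaf [(0, 2), (4, 1), (6, 1), (8, 2), (10, 3), (12, 1)])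
    (.alt (.leaf [(0, 1), (2, 1), (7, 1), (9, 1), (11, 1), (13, 1), (15, 2), (17, 2), (19, 1),
    (42, 1), (47, 1)]) (.alt (.leaf [(0, 4), (2, 8), (7, 8), (9, 2), (11, 2), (15, 4), (17, 4),
    (19, 4), (21, 4), (22, 6), (31, 2), (50, 3), (51, 1)]) (.alt (.leaf [(0, 2), (1, 1), (2, 8),
    (3, 3), (7, 8), (9, 3), (11, 3), (15, 5), (17, 5), (19, 2), (22, 4), (25, 1), (31, 2), (33,
    1), (42, 4), (47, 2)]) (.alt (.split 1 [0, 0, 1, -1] (.alt (.leaf [(0, 2), (65, 1)]) (.alt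
    (.leaf [(0, 2), (5, 3), (7, 3), (9, 4), (11, 1), (13, 1)]) (.alt (.leaf [(0, 10), (3, 6),
    (8, 6), (10, 14), (12, 14), (14, 9), (16, 9), (18, 9), (20, 9), (22, 2), (24, 2), (32, 5),
    (47, 7), (52, 2)]) (.alt (.leaf [(0, 1), (3, 1), (8, 1), (10, 1), (23, 1), (28, 1)]) (.alt
    (.leaf [(0, 1), (1, 1), (10, 1), (29, 1), (37, 1)]) (.alt (.leaf [(0, 2), (2, 1), (3, 8),
    (4, 3), (8, 8), (10, 5), (12, 5), (14, 2), (16, 5), (18, 5), (20, 2), (23, 4), (25, 1), (32,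
    2), (34, 1), (43, 4), (48, 2)]) (.alt (.leaf [(2, 2), (8, 2), (13, 2), (15, 2), (17, 2),
    (19, 1), (21, 1), (23, 1), (25, 1), (37, 1), (52, 1)]) (.done))))))))) (.alt (.leaf [(2, 2),
    (4, 2), (6, 1), (7, 2), (8, 3), (12, 2), (14, 1), (16, 1), (20, 3), (22, 3), (24, 2), (30,
    1), (38, 1), (47, 2), (52, 2)]) (.done))))))))) (.done)))))) (.alt (.leaf [(0, 4), (5, 4),
    (7, 2), (9, 2), (11, 2), (13, 2), (15, 2), (17, 2), (19, 1), (21, 2), (44, 1), (49, 1), (54,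
    1), (56, 1)]) (.alt (.leaf [(0, 4), (1, 1), (5, 4), (7, 2), (9, 1), (13, 1), (15, 1), (17,
    1), (19, 1), (22, 2), (27, 1), (31, 1), (50, 1)]) (.alt (.leaf [(0, 4), (1, 1), (5, 4), (7,
    2), (9, 1), (11, 1), (13, 2), (15, 2), (17, 2), (19, 1), (23, 2), (26, 1), (46, 1), (51,
    1)]) (.alt (.leaf [(1, 2), (7, 1), (9, 1), (13, 1), (15, 1)]) (.done))))))))) (.alt (.leaf
    [(0, 1), (12, 1), (14, 1), (16, 1), (18, 1), (50, 1), (56, 1)]) (.done)))))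

/-- Class (0, 0, 1). -/
def EN.T3 : Tree :=
  .split 4 [] (.alt (.leaf [(0, 1), (12, 1), (14, 1), (16, 1), (18, 1), (47, 1), (55, 1)]) (.alt
    (.leaf [(0, 1), (12, 1), (14, 1), (16, 1), (44, 1), (53, 1)]) (.alt (.split 0 [0, 0, 1, -1]
    (.alt (.split 1 [0, 0, 0, 1] (.alt (.leaf [(0, 1), (1, 1), (63, 1)]) (.alt (.leaf [(0, 1),
    (1, 3), (3, 4), (5, 4), (63, 1)]) (.alt (.leaf [(0, 6), (8, 3), (10, 2), (12, 1), (14, 1),
    (16, 1), (18, 1), (20, 1), (21, 3), (25, 1), (30, 1), (49, 1)]) (.alt (.leaf [(0, 6), (8,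
    3), (10, 2), (12, 1), (14, 1), (16, 1), (18, 1), (20, 1), (22, 3), (26, 1), (29, 1), (50,
    1)]) (.alt (.leaf [(0, 6), (8, 3), (10, 2), (12, 1), (14, 1), (16, 1), (18, 1), (20, 1),
    (23, 3), (27, 1), (32, 1), (51, 1)]) (.alt (.leaf [(0, 2), (2, 1), (8, 1), (10, 1), (12, 1),
    (14, 2), (16, 2), (18, 2), (20, 2), (24, 1), (49, 1), (50, 1)]) (.alt (.leaf [(1, 1), (6,
    1), (8, 2), (10, 2)]) (.done))))))))) (.alt (.leaf [(0, 2), (2, 2), (4, 2), (6, 1), (8, 1),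
    (10, 1)]) (.alt (.leaf [(0, 6), (5, 6), (7, 3), (9, 2), (11, 1), (13, 1), (15, 1), (17, 1),
    (19, 1), (21, 3), (24, 1), (29, 1), (48, 1)]) (.alt (.leaf [(0, 6), (5, 6), (7, 3), (9, 2),
    (11, 1), (13, 1), (15, 1), (17, 1), (19, 1), (20, 3), (25, 1), (28, 1), (49, 1)]) (.alt
    (.leaf [(0, 6), (5, 6), (7, 3), (9, 2), (11, 1), (13, 1), (15, 1), (17, 1), (19, 1), (23,
    3), (26, 1), (31, 1), (50, 1)]) (.alt (.leaf [(0, 2), (1, 1), (5, 2), (7, 1), (9, 1), (11,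
    1), (13, 2), (15, 2), (17, 2), (19, 2), (22, 1), (48, 1), (49, 1)]) (.alt (.leaf [(1, 2),
    (11, 1), (13, 1), (15, 1)]) (.done))))))))) (.alt (.leaf [(0, 1), (12, 1), (14, 1), (16, 1),
    (18, 1), (50, 1), (56, 1)]) (.done)))))

/-- Class (1, 1, 0). -/
def EN.T4 : Tree :=
  .split 4 [] (.alt (.leaf [(0, 1), (12, 1), (14, 1), (16, 1), (18, 1), (47, 1), (55, 1)]) (.alt
    (.leaf [(0, 1), (12, 1), (14, 1), (16, 1), (44, 1), (53, 1)]) (.alt (.split 0 [0, 1, 0, 0]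
    (.alt (.leaf [(0, 1), (62, 1)]) (.alt (.leaf [(0, 1), (2, 1), (4, 1), (8, 1), (10, 1)])
    (.alt (.split 6 [] (.alt (.leaf [(0, 1), (1, 1), (6, 1), (8, 1), (18, 1), (20, 1), (26, 1),
    (49, 1)]) (.alt (.leaf [(0, 1), (1, 5), (6, 5), (8, 5), (10, 2), (18, 1), (20, 1), (26, 3),
    (30, 2), (49, 1)]) (.alt (.leaf [(0, 1), (1, 3), (2, 1), (6, 3), (8, 3), (10, 1), (14, 1),
    (16, 1), (18, 2), (20, 2), (26, 2), (30, 1), (49, 1), (51, 1)]) (.alt (.split 1 [1, 0, 0,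
    -1] (.alt (.leaf [(0, 2), (12, 1), (64, 1)]) (.alt (.leaf [(0, 2), (4, 3), (6, 3), (8, 4),
    (10, 1)]) (.alt (.leaf [(0, 6), (2, 5), (7, 5), (9, 8), (11, 5), (13, 5), (15, 5), (17, 5),
    (19, 5), (21, 1), (23, 3), (27, 3), (46, 4), (51, 1)]) (.alt (.split 0 [1, 1, -1, -1] (.alt
    (.leaf [(0, 2), (5, 2), (7, 2), (13, 1), (65, 1)]) (.alt (.leaf [(0, 2), (5, 1), (7, 1),
    (11, 1)]) (.alt (.leaf [(0, 2), (1, 2), (8, 2), (10, 4), (12, 2), (14, 2), (16, 2), (18, 2),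
    (20, 2), (22, 2), (28, 2), (51, 1), (52, 1)]) (.alt (.leaf [(0, 8), (3, 6), (8, 14), (10,
    10), (12, 10), (14, 4), (16, 4), (18, 4), (20, 4), (22, 4), (23, 4), (32, 6), (51, 3), (52,
    1)]) (.alt (.leaf [(0, 4), (4, 6), (8, 4), (10, 2), (12, 2), (14, 2), (16, 8), (18, 8), (20,
    8), (22, 8), (26, 2), (51, 3), (52, 3), (53, 2)]) (.alt (.split 0 [0, 0, 1, -1] (.alt (.leaf
    [(0, 2), (6, 3), (8, 3), (12, 1)]) (.alt (.leaf [(0, 2), (14, 1), (66, 1)]) (.alt (.leaf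
    [(0, 2), (2, 2), (9, 2), (11, 4), (13, 4), (15, 2), (17, 2), (19, 2), (21, 2), (23, 2), (33,
    2), (52, 1), (53, 1)]) (.alt (.leaf [(0, 2), (4, 3), (9, 5), (11, 4), (13, 1), (15, 1), (17,
    1), (19, 1), (21, 1), (23, 1), (24, 1), (29, 3), (52, 1)]) (.alt (.leaf [(0, 1), (1, 1), (9,
    2), (11, 2), (13, 1), (30, 1), (35, 1)]) (.alt (.leaf [(0, 2), (1, 2), (9, 4), (11, 2), (13,
    2), (15, 2), (17, 2), (19, 2), (21, 2), (23, 2), (26, 2), (52, 1), (53, 1)]) (.alt (.leaf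
    [(5, 2), (8, 1), (9, 2), (10, 2), (14, 2), (16, 1), (18, 1), (20, 1), (22, 3), (24, 3), (26,
    4), (28, 2), (31, 1), (54, 2), (57, 2)]) (.done))))))))) (.alt (.leaf [(2, 2), (4, 6), (6,
    6), (7, 3), (9, 6), (15, 1), (17, 1), (19, 1), (21, 7), (23, 7), (25, 10), (27, 4), (28, 2),
    (31, 3), (53, 6), (56, 4)]) (.done))))))))) (.alt (.leaf [(0, 4), (3, 3), (9, 2), (11, 1),
    (13, 1), (15, 4), (17, 4), (19, 4), (21, 1), (25, 2), (28, 1), (48, 3), (53, 1)]) (.alt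
    (.leaf [(0, 2), (1, 1), (2, 1), (7, 1), (9, 2), (11, 2), (13, 1), (15, 1), (17, 1), (19, 2),
    (21, 1), (24, 1), (33, 1), (47, 1), (50, 1), (61, 1)]) (.alt (.leaf [(2, 2), (7, 3), (12,
    3), (14, 2), (16, 1), (18, 1), (20, 1), (22, 1), (24, 1), (26, 1), (28, 1), (32, 1), (55,
    1)]) (.done))))))))) (.done)))))) (.alt (.leaf [(0, 2), (5, 2), (7, 2), (9, 2), (11, 2),
    (13, 2), (15, 2), (17, 2), (19, 1), (44, 1), (49, 1), (54, 1), (56, 1)]) (.alt (.leaf [(0,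
    1), (5, 1), (7, 1), (9, 1), (11, 1), (13, 1), (15, 1), (17, 1), (19, 1), (50, 1), (59, 1)])
    (.alt (.leaf [(0, 2), (1, 1), (5, 2), (7, 2), (9, 1), (11, 1), (13, 2), (15, 2), (17, 2),
    (19, 1), (26, 1), (46, 1), (51, 1)]) (.alt (.leaf [(1, 1), (13, 1), (15, 1)])
    (.done))))))))) (.alt (.leaf [(0, 1), (12, 1), (14, 1), (16, 1), (18, 1), (50, 1), (56, 1)])
    (.done)))))

/-- Class (1, 0, 1). -/
def EN.T5 : Tree :=
  .split 4 [] (.alt (.leaf [(0, 1), (12, 1), (14, 1), (16, 1), (18, 1), (47, 1), (55, 1)]) (.alt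
    (.leaf [(0, 1), (12, 1), (14, 1), (16, 1), (44, 1), (53, 1)]) (.alt (.split 0 [0, 1, 0, 0]
    (.alt (.leaf [(0, 1), (62, 1)]) (.alt (.leaf [(0, 1), (2, 1), (4, 1), (8, 1), (10, 1)])
    (.alt (.split 6 [] (.alt (.leaf [(0, 1), (1, 1), (6, 1), (8, 1), (18, 1), (20, 1), (26, 1),
    (49, 1)]) (.alt (.leaf [(0, 2), (1, 4), (6, 4), (8, 4), (10, 4), (12, 3), (14, 3), (16, 3),
    (18, 5), (20, 2), (30, 1), (46, 3), (49, 2)]) (.alt (.leaf [(0, 2), (2, 2), (14, 2), (16,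
    2), (18, 4), (20, 4), (49, 1), (50, 1), (51, 2)]) (.alt (.split 1 [1, -1, 0, -1] (.alt
    (.leaf [(0, 2), (4, 2), (6, 2), (8, 1), (10, 1), (12, 2)]) (.alt (.leaf [(0, 2), (8, 3),
    (10, 1), (64, 2)]) (.alt (.leaf [(0, 4), (2, 10), (7, 10), (9, 12), (11, 8), (13, 8), (15,
    8), (17, 8), (19, 8), (21, 8), (23, 2), (27, 4), (50, 5), (51, 3)]) (.alt (.split 0 [1, 0,
    0, -1] (.alt (.split 1 [0, 0, 1, -1] (.alt (.leaf [(0, 2), (6, 4), (8, 4), (10, 3), (12,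
    1)]) (.alt (.leaf [(0, 1), (1, 1), (14, 1), (66, 1)]) (.alt (.leaf [(0, 1), (2, 1), (3, 1),
    (5, 2), (11, 2), (13, 1), (17, 2), (21, 1), (23, 1), (30, 1), (35, 1), (41, 2), (52, 1)])
    (.alt (.leaf [(0, 4), (4, 6), (9, 6), (11, 8), (13, 4), (15, 4), (17, 4), (19, 4), (21, 4),
    (23, 4), (24, 2), (29, 4), (52, 3), (53, 1)]) (.alt (.leaf [(0, 2), (11, 1), (13, 1), (27,
    1), (35, 1)]) (.alt (.leaf [(0, 2), (5, 2), (11, 1), (13, 1), (15, 1), (17, 3), (19, 3),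
    (21, 3), (23, 2), (26, 1), (50, 1), (52, 1), (53, 1)]) (.alt (.leaf [(0, 2), (11, 2), (13,
    2), (15, 1), (17, 1)]) (.done))))))))) (.alt (.leaf [(0, 2), (5, 2), (7, 2), (9, 1), (11,
    1)]) (.alt (.leaf [(0, 5), (1, 3), (8, 5), (10, 7), (12, 5), (14, 5), (16, 5), (18, 5), (20,
    5), (22, 5), (24, 1), (28, 2), (51, 3), (52, 2)]) (.alt (.leaf [(0, 2), (2, 1), (3, 1), (4,
    2), (8, 3), (10, 2), (12, 1), (16, 2), (20, 1), (22, 1), (23, 1), (29, 1), (34, 1), (40, 2),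
    (51, 1)]) (.alt (.leaf [(0, 2), (4, 2), (8, 2), (10, 1), (12, 1), (14, 1), (16, 3), (18, 3),
    (20, 3), (22, 2), (26, 1), (49, 1), (51, 1), (52, 1)]) (.alt (.leaf [(0, 2), (8, 2), (10,
    1), (12, 1), (25, 1), (34, 1)]) (.alt (.leaf [(1, 2), (14, 1), (16, 1)]) (.done)))))))))
    (.alt (.leaf [(0, 2), (1, 1), (2, 3), (3, 4), (7, 3), (9, 4), (11, 1), (13, 1), (15, 5),
    (17, 5), (19, 6), (21, 3), (25, 1), (28, 3), (47, 3), (50, 3)]) (.alt (.leaf [(0, 2), (1,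
    2), (2, 4), (3, 2), (7, 4), (9, 5), (11, 3), (15, 2), (19, 2), (21, 2), (24, 1), (27, 2),
    (33, 3), (39, 2), (50, 2)]) (.alt (.leaf [(2, 4), (7, 10), (12, 10), (14, 8), (16, 4), (18,
    4), (20, 4), (22, 4), (24, 4), (26, 4), (28, 2), (32, 4), (55, 3), (56, 1)]) (.done)))))))))
    (.done)))))) (.alt (.leaf [(0, 1), (5, 1), (7, 1), (9, 1), (11, 1), (13, 1), (15, 1), (17,
    1), (19, 1), (49, 1), (58, 1)]) (.alt (.leaf [(0, 2), (1, 4), (5, 2), (7, 2), (9, 2), (13,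
    4), (15, 4), (17, 4), (19, 4), (31, 2), (48, 1), (49, 1), (50, 2)]) (.alt (.leaf [(0, 2),
    (1, 1), (5, 2), (7, 2), (9, 1), (11, 1), (13, 2), (15, 2), (17, 2), (19, 1), (26, 1), (46,
    1), (51, 1)]) (.alt (.leaf [(1, 1), (13, 1), (15, 1)]) (.done))))))))) (.alt (.leaf [(0, 1),
    (12, 1), (14, 1), (16, 1), (18, 1), (50, 1), (56, 1)]) (.done)))))

/-- Class (0, 1, 1). -/
def EN.T6 : Tree :=
  .split 4 [] (.alt (.leaf [(0, 1), (12, 1), (14, 1), (16, 1), (18, 1), (47, 1), (55, 1)]) (.alt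
    (.leaf [(0, 1), (12, 1), (14, 1), (16, 1), (44, 1), (53, 1)]) (.alt (.split 0 [0, 0, 1, -1]
    (.alt (.split 1 [0, 0, 0, 1] (.alt (.leaf [(0, 1), (1, 1), (63, 1)]) (.alt (.leaf [(0, 2),
    (3, 4), (5, 4), (7, 3), (9, 2), (11, 2)]) (.alt (.split 1 [0, 0, 1, -1] (.alt (.leaf [(0,
    2), (4, 2), (6, 2), (8, 1)]) (.alt (.leaf [(0, 2), (4, 2), (6, 2), (8, 3)]) (.alt (.leaf
    [(0, 2), (1, 2), (9, 4), (11, 4), (13, 3), (15, 3), (17, 3), (19, 3), (21, 2), (31, 1), (46,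
    1), (50, 1), (51, 1)]) (.alt (.leaf [(0, 2), (9, 1), (22, 1), (27, 1)]) (.alt (.leaf [(0,
    2), (9, 1), (25, 1), (28, 1)]) (.alt (.leaf [(0, 2), (3, 3), (9, 1), (11, 1), (15, 3), (17,
    3), (19, 3), (21, 3), (24, 1), (33, 1), (50, 1), (51, 1), (52, 1)]) (.alt (.leaf [(2, 1),
    (6, 3), (14, 2), (16, 2), (18, 1), (20, 1), (22, 1), (24, 1), (26, 1), (27, 1), (36, 1),
    (55, 1)]) (.done))))))))) (.alt (.leaf [(0, 2), (8, 1), (10, 1), (12, 1), (14, 1), (16, 1),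
    (18, 1), (20, 1), (22, 1), (50, 1), (55, 1)]) (.alt (.leaf [(0, 2), (2, 1), (8, 1), (10, 1),
    (14, 1), (16, 1), (18, 1), (20, 1), (23, 1), (32, 1), (51, 1)]) (.alt (.leaf [(0, 2), (8,
    1), (10, 1), (12, 1), (14, 1), (16, 1), (18, 1), (20, 1), (24, 1), (52, 1), (56, 1)]) (.alt
    (.leaf [(1, 2), (8, 2), (10, 2), (12, 1), (14, 2), (16, 2)]) (.done))))))))) (.alt (.leaf
    [(0, 2), (2, 2), (4, 2), (6, 1)]) (.alt (.leaf [(0, 2), (5, 2), (7, 1), (9, 1), (11, 1),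
    (13, 1), (15, 1), (17, 1), (21, 1), (44, 1), (56, 1)]) (.alt (.leaf [(0, 2), (5, 2), (7, 1),
    (20, 1), (25, 1)]) (.alt (.leaf [(0, 2), (5, 2), (7, 1), (23, 1), (26, 1)]) (.alt (.leaf
    [(0, 2), (1, 3), (5, 2), (7, 1), (9, 1), (13, 3), (15, 3), (17, 3), (19, 3), (22, 1), (31,
    1), (48, 1), (49, 1), (50, 1)]) (.alt (.leaf [(1, 2), (11, 1)]) (.done))))))))) (.alt (.leaf
    [(0, 1), (12, 1), (14, 1), (16, 1), (18, 1), (50, 1), (56, 1)]) (.done)))))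

/-- Class (1, 1, 1). -/
def EN.T7 : Tree :=
  .split 4 [] (.alt (.leaf [(0, 1), (12, 1), (14, 1), (16, 1), (18, 1), (47, 1), (55, 1)]) (.alt
    (.leaf [(0, 1), (12, 1), (14, 1), (16, 1), (44, 1), (53, 1)]) (.alt (.split 0 [0, 1, 0, 0]
    (.alt (.leaf [(0, 1), (62, 1)]) (.alt (.leaf [(0, 1), (8, 2), (10, 2), (62, 1)]) (.alt
    (.split 6 [] (.alt (.leaf [(0, 1), (1, 1), (6, 1), (8, 1), (18, 1), (20, 1), (26, 1), (49,
    1)]) (.alt (.leaf [(0, 1), (1, 3), (6, 3), (8, 3), (10, 2), (12, 2), (14, 2), (18, 1), (20,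
    1), (26, 1), (38, 2), (49, 1)]) (.alt (.leaf [(0, 2), (2, 2), (14, 2), (16, 2), (18, 4),
    (20, 4), (49, 1), (50, 1), (51, 2)]) (.alt (.split 1 [1, 0, 0, -1] (.alt (.leaf [(0, 2), (8,
    1), (10, 2), (12, 3), (64, 2)]) (.alt (.leaf [(0, 2), (8, 3), (10, 2), (12, 1), (64, 2)])
    (.alt (.leaf [(0, 2), (2, 4), (7, 4), (9, 5), (11, 3), (13, 3), (15, 3), (17, 3), (19, 3),
    (21, 3), (23, 1), (27, 2), (50, 2), (51, 1)]) (.alt (.split 1 [0, 1, 1, -1] (.alt (.leaf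
    [(0, 2), (9, 3), (11, 4), (13, 3), (65, 4)]) (.alt (.leaf [(0, 2), (9, 1), (13, 1)]) (.alt
    (.leaf [(0, 1), (1, 1), (2, 1), (4, 2), (10, 2), (12, 1), (16, 2), (20, 1), (22, 1), (29,
    1), (34, 1), (40, 2), (51, 1)]) (.alt (.leaf [(0, 2), (1, 2), (10, 2), (12, 2), (14, 2),
    (16, 2), (18, 2), (20, 2), (22, 2), (23, 2), (51, 1), (52, 1)]) (.alt (.leaf [(0, 2), (2,
    1), (3, 1), (4, 1), (8, 1), (10, 2), (12, 2), (16, 1), (18, 1), (20, 2), (22, 1), (26, 1),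
    (34, 2), (48, 1), (51, 1)]) (.alt (.leaf [(0, 2), (10, 1), (12, 1), (14, 1), (16, 1), (18,
    1), (20, 1), (22, 1), (25, 1), (54, 1), (58, 2)]) (.alt (.leaf [(3, 2), (8, 4), (13, 4),
    (15, 3), (17, 1), (19, 1), (21, 1), (23, 1), (25, 1), (27, 1), (28, 1), (33, 2), (56, 1)])
    (.done))))))))) (.alt (.leaf [(0, 2), (3, 2), (9, 1), (11, 1), (13, 1), (15, 3), (17, 3),
    (19, 3), (21, 1), (25, 1), (48, 2), (53, 1)]) (.alt (.leaf [(0, 4), (1, 2), (2, 1), (7, 1),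
    (9, 3), (11, 3), (19, 2), (21, 1), (24, 2), (33, 3), (47, 1), (50, 1), (61, 1)]) (.alt
    (.leaf [(2, 2), (7, 4), (12, 4), (14, 3), (16, 1), (18, 1), (20, 1), (22, 1), (24, 1), (26,
    1), (28, 1), (32, 2), (55, 1)]) (.done))))))))) (.done)))))) (.alt (.leaf [(0, 1), (5, 1),
    (7, 1), (9, 1), (11, 1), (13, 1), (15, 1), (17, 1), (19, 1), (49, 1), (58, 1)]) (.alt (.leaf
    [(0, 2), (1, 4), (5, 2), (7, 2), (9, 2), (13, 4), (15, 4), (17, 4), (19, 4), (31, 2), (48,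
    1), (49, 1), (50, 2)]) (.alt (.leaf [(0, 2), (1, 1), (5, 2), (7, 2), (9, 1), (11, 1), (13,
    2), (15, 2), (17, 2), (19, 1), (26, 1), (46, 1), (51, 1)]) (.alt (.leaf [(1, 1), (13, 1),
    (15, 1)]) (.done))))))))) (.alt (.leaf [(0, 1), (12, 1), (14, 1), (16, 1), (18, 1), (50, 1),
    (56, 1)]) (.done)))))

/-- The eight classes. -/
def EN.T : ℕ → Tree
  | 0 => EN.T0
  | 1 => EN.T1
  | 2 => EN.T2
  | 3 => EN.T3
  | 4 => EN.T4
  | 5 => EN.T5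
  | 6 => EN.T6
  | 7 => EN.T7
  | _ => .done

theorem EN.chk : checkCls EN.D 1 [] EN.T = true := by decide +kernel

end Pool.Agent.Work.MP_7453a1_nt_sup
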