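import Pool.Agent.Work.MP_7453a1_nt_sup.Std

set_option autoImplicit false
set_option maxRecDepth 100000

/-! Certificates (normalisation and independence). -/

namespace Pool.Agent.Work.MP_7453a1_nt_sup

/-- `X z_5 < 0`. -/
def N1.D : Data :=
  ⟨[none, none, none, none, none, some [1, 0, 0], some [1, 1, 0], some [1, 0, 1], some [1, 1, 1]],
    sup, excExt ++ (negExt ++ [⟨true, [], [], [-1, -1, -1], []⟩]), []⟩

/-- Certificate. -/
def N1.T : Tree :=
  .split 4 [0, 0, 1] (.alt (.leaf [(0, 1), (36, 1)]) (.alt (.leaf [(0, 1), (13, 2), (15, 2), (36,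
    1)]) (.alt (.leaf [(0, 1), (12, 1), (14, 1), (24, 1), (39, 1)]) (.alt (.leaf [(0, 1), (12,
    1), (14, 1), (16, 1), (28, 1), (37, 1)]) (.alt (.split 3 [0, 1, 0] (.alt (.leaf [(0, 1),
    (10, 1), (36, 1)]) (.alt (.leaf [(0, 1), (10, 1), (14, 2), (36, 1)]) (.alt (.leaf [(0, 1),
    (11, 1), (13, 1), (15, 1), (17, 1), (29, 1), (40, 1)]) (.alt (.leaf [(0, 1), (11, 1), (13,
    1), (15, 1), (25, 1), (38, 1)]) (.alt (.leaf [(0, 1), (1, 1), (11, 1), (13, 2), (15, 1),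
    (17, 1), (19, 1), (23, 1), (34, 1)]) (.alt (.leaf [(0, 1), (1, 1), (11, 1), (13, 2), (15,
    2), (17, 1), (27, 1), (30, 1)]) (.alt (.leaf [(1, 1), (19, 1)]) (.done))))))))) (.alt (.leaf
    [(0, 1), (12, 1), (14, 1), (16, 1), (30, 1), (38, 1)]) (.alt (.leaf [(1, 1), (18, 1), (20,
    1)]) (.done))))))))

theorem N1.chk : check N1.D.clause N1.T N1.D.base none = true := by decide +kernel

/-- `Y z_5 < 0`. -/
def N2.D : Data :=
  ⟨[none, none, none, none, none, some [1, 0, 0], some [1, 1, 0], some [1, 0, 1], some [1, 1, 1]],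
    sup, excExt ++ (negExt ++ [⟨true, [], [], [], [-1, -1, -1]⟩]), []⟩

/-- Certificate. -/
def N2.T : Tree :=
  .split 4 [0, 0, 1] (.alt (.leaf [(0, 1), (36, 1)]) (.alt (.leaf [(0, 1), (13, 2), (15, 2), (36,
    1)]) (.alt (.split 3 [0, 1, 0] (.alt (.leaf [(0, 1), (10, 1), (36, 1)]) (.alt (.leaf [(0,
    1), (10, 1), (14, 2), (36, 1)]) (.alt (.leaf [(0, 1), (1, 1), (11, 1), (13, 2), (15, 1),
    (17, 1), (19, 1), (21, 1), (32, 1)]) (.alt (.leaf [(0, 1), (1, 1), (11, 1), (13, 2), (15,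
    2), (17, 1), (25, 1), (28, 1)]) (.alt (.leaf [(0, 1), (11, 1), (13, 1), (15, 1), (17, 1),
    (31, 1), (40, 1)]) (.alt (.leaf [(0, 1), (11, 1), (13, 1), (15, 1), (27, 1), (39, 1)]) (.alt
    (.leaf [(1, 1), (19, 1)]) (.done))))))))) (.alt (.leaf [(0, 1), (12, 1), (14, 1), (16, 1),
    (28, 1), (37, 1)]) (.alt (.leaf [(0, 1), (12, 1), (14, 1), (26, 1), (39, 1)]) (.alt (.leaf
    [(0, 1), (12, 1), (14, 1), (16, 1), (30, 1), (38, 1)]) (.alt (.leaf [(1, 1), (18, 1), (20,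
    1)]) (.done))))))))

theorem N2.chk : check N2.D.clause N2.T N2.D.base none = true := by decide +kernel

/-- `X z_3, Y z_3 > 0`. -/
def N3.D : Data :=
  ⟨[none, none, none, none, none, some [1, 0, 0], some [1, 1, 0], some [1, 0, 1], some [1, 1, 1]],
    sup, excExt ++ (negExt ++ [⟨true, [], [], [1, 1, 0], []⟩, ⟨true, [], [], [], [1, 1, 0]⟩]), []⟩

/-- Certificate. -/
def N3.T : Tree :=
  .split 4 [0, 0, 1] (.alt (.leaf [(0, 1), (36, 1)]) (.alt (.leaf [(0, 1), (13, 2), (15, 2), (36,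
    1)]) (.alt (.leaf [(0, 1), (12, 1), (14, 1), (16, 1), (18, 1), (31, 1), (39, 1)]) (.alt
    (.leaf [(0, 1), (12, 1), (14, 1), (16, 1), (28, 1), (37, 1)]) (.alt (.leaf [(0, 1), (12, 1),
    (14, 1), (16, 1), (18, 1), (33, 1), (40, 1)]) (.alt (.leaf [(0, 1), (12, 1), (14, 1), (16,
    1), (30, 1), (38, 1)]) (.alt (.leaf [(1, 1), (18, 1), (20, 1)]) (.done))))))))

theorem N3.chk : check N3.D.clause N3.T N3.D.base none = true := by decide +kernel

/-- `X z_3, Y z_3 < 0`. -/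
def N4.D : Data :=
  ⟨[none, none, none, none, none, some [1, 0, 0], some [1, 1, 0], some [1, 0, 1], some [1, 1, 1]],
    sup, excExt ++ (negExt ++ [⟨true, [], [], [-1, -1, 0], []⟩, ⟨true, [], [], [], [-1, -1, 0]⟩]), []⟩

/-- Certificate. -/
def N4.T : Tree :=
  .split 3 [0, 1, 0] (.alt (.leaf [(0, 1), (9, 1), (35, 1)]) (.alt (.leaf [(0, 1), (9, 1), (13,
    2), (35, 1)]) (.alt (.leaf [(0, 1), (10, 1), (12, 1), (20, 1), (39, 1)]) (.alt (.leaf [(0,
    1), (10, 1), (12, 1), (14, 1), (24, 1), (37, 1)]) (.alt (.leaf [(0, 1), (10, 1), (12, 1),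
    (22, 1), (40, 1)]) (.alt (.leaf [(0, 1), (10, 1), (12, 1), (14, 1), (26, 1), (38, 1)]) (.alt
    (.leaf [(1, 1), (18, 1)]) (.done))))))))

theorem N4.chk : check N4.D.clause N4.T N4.D.base none = true := by decide +kernel

/-- `X z_4, Y z_4 > 0`. -/
def N5.D : Data :=
  ⟨[none, none, none, none, none, some [1, 0, 0], some [1, 1, 0], some [1, 0, 1], some [1, 1, 1]],
    sup, excExt ++ (negExt ++ [⟨true, [], [], [1, 0, 1], []⟩, ⟨true, [], [], [], [1, 0, 1]⟩]), []⟩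

/-- Certificate. -/
def N5.T : Tree :=
  .split 3 [0, 1, 0] (.alt (.leaf [(0, 1), (9, 1), (35, 1)]) (.alt (.leaf [(0, 1), (9, 1), (13,
    2), (35, 1)]) (.alt (.leaf [(0, 1), (10, 1), (12, 1), (14, 1), (16, 1), (18, 1), (31, 1),
    (39, 1)]) (.alt (.leaf [(0, 1), (10, 1), (12, 1), (14, 1), (24, 1), (37, 1)]) (.alt (.leaf
    [(0, 1), (10, 1), (12, 1), (14, 1), (16, 1), (18, 1), (33, 1), (40, 1)]) (.alt (.leaf [(0,
    1), (10, 1), (12, 1), (14, 1), (26, 1), (38, 1)]) (.alt (.leaf [(1, 1), (18, 1)])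
    (.done))))))))

theorem N5.chk : check N5.D.clause N5.T N5.D.base none = true := by decide +kernel

/-- `X z_4, Y z_4 < 0`. -/
def N6.D : Data :=
  ⟨[none, none, none, none, none, some [1, 0, 0], some [1, 1, 0], some [1, 0, 1], some [1, 1, 1]],
    sup, excExt ++ (negExt ++ [⟨true, [], [], [-1, 0, -1], []⟩, ⟨true, [], [], [], [-1, 0, -1]⟩]), []⟩

/-- Certificate. -/
def N6.T : Tree :=
  .split 4 [0, 0, 1] (.alt (.leaf [(0, 1), (36, 1)]) (.alt (.leaf [(0, 1), (13, 2), (15, 2), (36,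
    1)]) (.alt (.leaf [(0, 1), (12, 1), (20, 1), (39, 1)]) (.alt (.leaf [(0, 1), (12, 1), (14,
    1), (16, 1), (28, 1), (37, 1)]) (.alt (.leaf [(0, 1), (12, 1), (22, 1), (40, 1)]) (.alt
    (.leaf [(0, 1), (12, 1), (14, 1), (16, 1), (30, 1), (38, 1)]) (.alt (.leaf [(1, 1), (18, 1),
    (20, 1)]) (.done))))))))

theorem N6.chk : check N6.D.clause N6.T N6.D.base none = true := by decide +kernel

/-- `z_3, z_4` in the same quadrant. -/
def N7.D : Data :=
  ⟨[none, none, none, none, none, some [1, 0, 0], some [1, 1, 0], some [1, 0, 1], some [1, 1, 1]],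
    sup, excExt ++ (negExt ++ [⟨false, [], [], [1, 1, 0], []⟩, ⟨false, [], [], [], [-1, -1, 0]⟩, ⟨false, [], [], [1, 0, 1], []⟩, ⟨false, [], [], [], [-1, 0, -1]⟩]), []⟩

/-- Certificate. -/
def N7.T : Tree :=
  .split 5 [] (.alt (.leaf [(0, 2), (14, 2), (16, 2), (18, 2), (31, 1), (32, 1), (37, 2)]) (.alt
    (.leaf [(0, 1), (14, 1), (16, 1), (18, 1), (31, 1), (39, 1), (41, 1)]) (.alt (.leaf [(0, 2),
    (14, 2), (16, 2), (18, 2), (31, 1), (32, 1), (38, 2)]) (.alt (.split 4 [0, 0, 1] (.alt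
    (.leaf [(0, 1), (37, 1)]) (.alt (.leaf [(0, 1), (14, 2), (16, 2), (37, 1)]) (.alt (.leaf
    [(0, 1), (13, 1), (15, 1), (17, 1), (19, 1), (32, 1), (40, 1)]) (.alt (.leaf [(0, 2), (13,
    2), (15, 2), (17, 2), (19, 2), (32, 1), (33, 1), (38, 2), (42, 2)]) (.alt (.leaf [(0, 1),
    (13, 1), (23, 1), (43, 1)]) (.alt (.leaf [(0, 2), (1, 2), (13, 2), (15, 4), (17, 4), (19,
    2), (31, 2), (32, 1), (33, 1)]) (.alt (.leaf [(1, 1), (19, 1), (21, 1)]) (.done)))))))))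
    (.done)))))

theorem N7.chk : check N7.D.clause N7.T N7.D.base none = true := by decide +kernel

/-- `z_3, z_4` in the same quadrant. -/
def N8.D : Data :=
  ⟨[none, none, none, none, none, some [1, 0, 0], some [1, 1, 0], some [1, 0, 1], some [1, 1, 1]],
    sup, excExt ++ (negExt ++ [⟨false, [], [], [-1, -1, 0], []⟩, ⟨false, [], [], [], [1, 1, 0]⟩, ⟨false, [], [], [-1, 0, -1], []⟩, ⟨false, [], [], [], [1, 0, 1]⟩]), []⟩

/-- Certificate. -/
def N8.T : Tree :=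
  .split 5 [] (.alt (.leaf [(0, 2), (14, 2), (16, 2), (18, 2), (31, 1), (32, 1), (37, 2)]) (.alt
    (.split 4 [0, 0, 1] (.alt (.leaf [(0, 1), (37, 1)]) (.alt (.leaf [(0, 1), (14, 2), (16, 2),
    (37, 1)]) (.alt (.leaf [(0, 1), (13, 1), (21, 1), (42, 1)]) (.alt (.leaf [(0, 2), (1, 2),
    (13, 2), (15, 4), (17, 4), (19, 2), (29, 2), (32, 1), (33, 1)]) (.alt (.leaf [(0, 1), (13,
    1), (15, 1), (17, 1), (19, 1), (34, 1), (41, 1)]) (.alt (.leaf [(0, 2), (13, 2), (15, 2),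
    (17, 2), (19, 2), (32, 1), (33, 1), (39, 2), (43, 2)]) (.alt (.leaf [(1, 1), (19, 1), (21,
    1)]) (.done))))))))) (.alt (.leaf [(0, 2), (14, 2), (16, 2), (18, 2), (31, 1), (32, 1), (38,
    2)]) (.alt (.leaf [(0, 1), (14, 1), (16, 1), (18, 1), (33, 1), (40, 1), (42, 1)])
    (.done)))))

theorem N8.chk : check N8.D.clause N8.T N8.D.base none = true := by decide +kernel

/-- `u = 2 s`; generators `s, v, w`. -/
def I1.D : Data :=
  ⟨[none, none, none, none, none, some [2, 0, 0], some [2, 1, 0], some [2, 0, 1], some [2, 1, 1]],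
    sup, excExt, []⟩

/-- Certificate. -/
def I1.T : Tree :=
  .split 4 [1, 0, 0] (.alt (.leaf [(0, 2), (9, 1), (11, 1), (13, 1), (35, 1)]) (.alt (.leaf [(0,
    2), (9, 3), (11, 3), (13, 3), (35, 3)]) (.alt (.leaf [(0, 4), (12, 4), (14, 2), (16, 2),
    (18, 2), (19, 2), (31, 1), (32, 1)]) (.alt (.leaf [(0, 4), (12, 4), (14, 2), (16, 2), (18,
    2), (20, 2), (31, 1), (32, 1)]) (.alt (.leaf [(0, 4), (12, 4), (14, 2), (16, 2), (18, 2),
    (21, 2), (31, 1), (32, 1)]) (.alt (.leaf [(0, 4), (12, 4), (14, 2), (16, 2), (18, 2), (22,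
    2), (31, 1), (32, 1)]) (.alt (.leaf [(1, 2), (14, 1), (16, 1), (18, 1), (40, 1)])
    (.done))))))))

theorem I1.chk : check I1.D.clause I1.T I1.D.base none = true := by decide +kernel

/-- `v = 2 s`; generators `u, s, w`. -/
def I2.D : Data :=
  ⟨[none, none, none, none, none, some [1, 0, 0], some [1, 2, 0], some [1, 0, 1], some [1, 2, 1]],
    sup, excExt, []⟩

/-- Certificate. -/
def I2.T : Tree :=
  .split 3 [0, 1, 0] (.alt (.leaf [(0, 2), (9, 2), (13, 1), (35, 2)]) (.alt (.leaf [(0, 2), (9,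
    2), (13, 3), (35, 2)]) (.alt (.leaf [(0, 2), (10, 2), (12, 2), (14, 2), (16, 2), (18, 1),
    (28, 1), (31, 1)]) (.alt (.leaf [(0, 2), (10, 2), (12, 2), (14, 2), (16, 2), (18, 1), (27,
    1), (32, 1)]) (.alt (.leaf [(0, 2), (10, 2), (12, 2), (14, 2), (16, 2), (18, 1), (30, 1),
    (33, 1)]) (.alt (.leaf [(0, 2), (10, 2), (12, 2), (14, 2), (16, 2), (18, 1), (29, 1), (34,
    1)]) (.alt (.leaf [(1, 2), (18, 1)]) (.done))))))))

theorem I2.chk : check I2.D.clause I2.T I2.D.base none = true := by decide +kernel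

/-- `w = 2 s`; generators `u, v, s`. -/
def I3.D : Data :=
  ⟨[none, none, none, none, none, some [1, 0, 0], some [1, 1, 0], some [1, 0, 2], some [1, 1, 2]],
    sup, excExt, []⟩

/-- Certificate. -/
def I3.T : Tree :=
  .split 3 [0, 0, 1] (.alt (.split 4 [0, 0, 1] (.alt (.leaf [(0, 1), (1, 1), (10, 1), (14, 1),
    (36, 1), (37, 1)]) (.alt (.leaf [(0, 2), (14, 3), (16, 3), (37, 2)]) (.alt (.leaf [(0, 2),
    (13, 2), (15, 2), (17, 1), (19, 1), (25, 1), (32, 1)]) (.alt (.leaf [(0, 2), (13, 2), (15,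
    2), (17, 1), (19, 1), (24, 1), (33, 1)]) (.alt (.leaf [(0, 2), (13, 2), (15, 2), (17, 1),
    (19, 1), (27, 1), (34, 1)]) (.alt (.leaf [(0, 2), (13, 2), (15, 2), (17, 1), (19, 1), (26,
    1), (35, 1)]) (.alt (.leaf [(1, 1), (6, 1), (15, 1), (19, 1), (41, 1)]) (.done)))))))))
    (.alt (.leaf [(0, 2), (9, 2), (13, 3), (15, 1), (35, 2)]) (.alt (.leaf [(0, 2), (10, 2),
    (12, 2), (14, 2), (16, 1), (18, 1), (24, 1), (31, 1)]) (.alt (.leaf [(0, 2), (10, 2), (12,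
    2), (14, 2), (16, 1), (18, 1), (23, 1), (32, 1)]) (.alt (.leaf [(0, 2), (10, 2), (12, 2),
    (14, 2), (16, 1), (18, 1), (26, 1), (33, 1)]) (.alt (.leaf [(0, 2), (10, 2), (12, 2), (14,
    2), (16, 1), (18, 1), (25, 1), (34, 1)]) (.alt (.leaf [(1, 2), (18, 1), (20, 1)])
    (.done))))))))

theorem I3.chk : check I3.D.clause I3.T I3.D.base none = true := by decide +kernel

/-- `u + v = 2 s`; generators `u, s, w`. -/
def I4.D : Data :=
  ⟨[none, none, none, none, none, some [1, 0, 0], some [0, 2, 0], some [1, 0, 1], some [0, 2, 1]],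
    sup, excExt, []⟩

/-- Certificate. -/
def I4.T : Tree :=
  .split 4 [0, 1, 0] (.alt (.leaf [(0, 2), (9, 1), (11, 1), (35, 1)]) (.alt (.leaf [(0, 2), (13,
    4), (15, 3), (36, 3)]) (.alt (.leaf [(0, 4), (12, 4), (14, 4), (16, 2), (18, 2), (23, 2),
    (31, 1), (32, 1)]) (.alt (.leaf [(0, 4), (12, 4), (14, 3), (16, 2), (18, 1), (20, 1), (24,
    1), (27, 1), (32, 1)]) (.alt (.leaf [(0, 4), (12, 4), (14, 4), (16, 2), (18, 2), (25, 2),
    (31, 1), (32, 1)]) (.alt (.leaf [(0, 4), (12, 4), (14, 3), (16, 2), (18, 1), (22, 1), (26,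
    1), (29, 1), (34, 1)]) (.alt (.leaf [(1, 2), (18, 2), (20, 1), (41, 1)]) (.done))))))))

theorem I4.chk : check I4.D.clause I4.T I4.D.base none = true := by decide +kernel

/-- `u + w = 2 s`; generators `u, v, s`. -/
def I5.D : Data :=
  ⟨[none, none, none, none, none, some [1, 0, 0], some [1, 1, 0], some [0, 0, 2], some [0, 1, 2]],
    sup, excExt, []⟩

/-- Certificate. -/
def I5.T : Tree :=
  .split 4 [0, 0, 1] (.alt (.leaf [(0, 2), (36, 1)]) (.alt (.leaf [(0, 2), (13, 4), (15, 4), (36,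
    3)]) (.alt (.leaf [(0, 4), (12, 4), (14, 4), (16, 4), (18, 2), (27, 2), (31, 1), (32, 1)])
    (.alt (.leaf [(0, 4), (12, 4), (14, 4), (16, 4), (18, 2), (28, 2), (31, 1), (32, 1)]) (.alt
    (.leaf [(0, 4), (12, 4), (14, 4), (16, 4), (18, 2), (29, 2), (31, 1), (32, 1)]) (.alt (.leaf
    [(0, 4), (12, 4), (14, 4), (16, 4), (18, 2), (30, 2), (31, 1), (32, 1)]) (.alt (.leaf [(1,
    2), (18, 2), (20, 2), (41, 1)]) (.done))))))))

theorem I5.chk : check I5.D.clause I5.T I5.D.base none = true := by decide +kernel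

/-- `v + w = 2 s`; generators `u, v, s`. -/
def I6.D : Data :=
  ⟨[none, none, none, none, none, some [1, 0, 0], some [1, 1, 0], some [1, -1, 2], some [1, 0, 2]],
    sup, excExt, []⟩

/-- Certificate. -/
def I6.T : Tree :=
  .split 3 [0, 0, 1] (.alt (.split 4 [0, 0, 1] (.alt (.leaf [(0, 1), (1, 1), (10, 1), (36, 1),
    (37, 1)]) (.alt (.leaf [(0, 2), (14, 4), (16, 3), (37, 2)]) (.alt (.leaf [(0, 2), (13, 2),
    (15, 1), (17, 1), (19, 1), (21, 1), (32, 1)]) (.alt (.leaf [(0, 2), (13, 2), (15, 1), (17,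
    1), (19, 1), (20, 1), (33, 1)]) (.alt (.leaf [(0, 2), (13, 2), (15, 1), (17, 1), (19, 1),
    (23, 1), (34, 1)]) (.alt (.leaf [(0, 2), (13, 2), (15, 1), (17, 1), (19, 1), (22, 1), (35,
    1)]) (.alt (.leaf [(1, 1), (6, 1), (15, 1), (19, 1), (41, 1)]) (.done))))))))) (.alt (.leaf
    [(0, 2), (9, 2), (13, 4), (15, 1), (35, 2)]) (.alt (.leaf [(0, 2), (10, 2), (12, 2), (14,
    1), (16, 1), (18, 1), (20, 1), (31, 1)]) (.alt (.leaf [(0, 2), (10, 2), (12, 2), (14, 1),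
    (16, 1), (18, 1), (19, 1), (32, 1)]) (.alt (.leaf [(0, 2), (10, 2), (12, 2), (14, 1), (16,
    1), (18, 1), (22, 1), (33, 1)]) (.alt (.leaf [(0, 2), (10, 2), (12, 2), (14, 1), (16, 1),
    (18, 1), (21, 1), (34, 1)]) (.alt (.leaf [(1, 2), (18, 2), (20, 1)]) (.done))))))))

theorem I6.chk : check I6.D.clause I6.T I6.D.base none = true := by decide +kernel

/-- `u + v + w = 2 s`; generators `u, v, s`. -/
def I7.D : Data :=
  ⟨[none, none, none, none, none, some [1, 0, 0], some [1, 1, 0], some [0, -1, 2], some [0, 0, 2]],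
    sup, excExt, []⟩

/-- Certificate. -/
def I7.T : Tree :=
  .split 5 [0, 0, 1] (.alt (.leaf [(0, 2), (13, 1), (36, 1)]) (.alt (.leaf [(0, 2), (13, 7), (15,
    4), (36, 3)]) (.alt (.leaf [(0, 4), (14, 4), (16, 4), (18, 4), (31, 3), (32, 1)]) (.alt
    (.leaf [(0, 4), (14, 4), (16, 4), (18, 4), (31, 1), (32, 3)]) (.alt (.leaf [(0, 4), (14, 4),
    (16, 4), (18, 4), (31, 1), (32, 1), (33, 2)]) (.alt (.leaf [(0, 4), (14, 4), (16, 4), (18,
    4), (31, 1), (32, 1), (34, 2)]) (.alt (.leaf [(1, 2), (18, 3), (20, 2), (41, 1)])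
    (.done))))))))

theorem I7.chk : check I7.D.clause I7.T I7.D.base none = true := by decide +kernel

end Pool.Agent.Work.MP_7453a1_nt_sup
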