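import Pool.Agent.Work.MP_7453a1_nt_sup.Std

set_option autoImplicit false
set_option maxRecDepth 100000

/-! Certificates (the point z_6). -/

namespace Pool.Agent.Work.MP_7453a1_nt_sup

/-- Type A: `M_6 < M_5 + M_2`. -/
def A6.D : Data :=
  ⟨[none, none, none, some [0, -1, 1], some [0, 0, 1], some [1, 0, 0], some [1, 1, 0], some [1, 0,
    1], some [1, 1, 1], none],
    sup, stdExt ++ [⟨true, [(1, 8), (1, 5), (-1, 9)], [], [], []⟩], []⟩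

/-- Class (0, 0, 0). -/
def A6.T0 : Tree :=
  .split 6 [0, 0, 0, 1] (.alt (.leaf [(0, 2), (9, 1), (49, 1), (59, 1)]) (.alt (.leaf [(0, 2), (9,
    13), (11, 3), (19, 1), (49, 6)]) (.alt (.leaf [(0, 4), (16, 4), (18, 4), (20, 2), (41, 1),
    (42, 1), (45, 2)]) (.alt (.leaf [(0, 4), (16, 4), (18, 4), (20, 2), (41, 1), (42, 1), (46,
    2)]) (.alt (.leaf [(0, 4), (16, 4), (18, 4), (20, 2), (41, 1), (42, 1), (47, 2)]) (.alt
    (.leaf [(0, 4), (16, 4), (18, 4), (20, 2), (41, 1), (42, 1), (48, 2)]) (.alt (.leaf [(1, 2),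
    (14, 5), (16, 1), (24, 1), (54, 2)]) (.done))))))))

/-- Class (1, 0, 0). -/
def A6.T1 : Tree :=
  .split 4 [] (.alt (.leaf [(0, 1), (12, 1), (14, 1), (16, 1), (18, 1), (41, 1), (53, 1)]) (.alt
    (.leaf [(0, 1), (12, 1), (14, 1), (16, 1), (38, 1), (51, 1)]) (.alt (.split 2 [0, 1, 0, 0]
    (.alt (.leaf [(0, 1), (50, 1)]) (.alt (.leaf [(0, 1), (10, 2), (50, 1)]) (.alt (.split 5 [1,
    0, 0, -1] (.alt (.leaf [(0, 2), (11, 9), (13, 2), (21, 1), (51, 3)]) (.alt (.leaf [(0, 2),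
    (11, 1), (13, 1), (61, 1)]) (.alt (.leaf [(0, 4), (1, 4), (10, 4), (12, 2), (14, 2), (16,
    6), (18, 6), (20, 6), (22, 2), (24, 2), (43, 3), (44, 1), (48, 2)]) (.alt (.leaf [(0, 2),
    (16, 1), (18, 1), (20, 1), (22, 1), (32, 1), (47, 1)]) (.alt (.leaf [(0, 2), (1, 1), (2, 1),
    (10, 1), (12, 1), (14, 2), (16, 4), (18, 4), (20, 2), (22, 1), (40, 1), (41, 1), (43, 1),
    (50, 1)]) (.alt (.leaf [(0, 2), (16, 1), (18, 1), (20, 1), (22, 1), (34, 1), (49, 1)]) (.alt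
    (.leaf [(0, 2), (16, 3), (26, 1), (56, 1)]) (.done))))))))) (.alt (.leaf [(0, 1), (9, 1),
    (11, 1), (13, 1), (15, 1), (17, 1), (19, 1), (43, 1), (56, 1)]) (.alt (.leaf [(0, 1), (1,
    1), (9, 1), (11, 1), (13, 2), (15, 1), (17, 1), (19, 1), (33, 1), (44, 1)]) (.alt (.leaf
    [(0, 2), (9, 2), (11, 1), (13, 1), (15, 1), (17, 1), (19, 1), (24, 1), (45, 1), (53, 1)])
    (.alt (.leaf [(1, 1), (15, 1)]) (.done))))))))) (.alt (.leaf [(0, 1), (12, 1), (14, 1), (16,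
    1), (18, 1), (44, 1), (54, 1)]) (.done)))))

/-- Class (0, 1, 0). -/
def A6.T2 : Tree :=
  .split 4 [] (.alt (.leaf [(0, 1), (12, 1), (14, 1), (16, 1), (18, 1), (41, 1), (53, 1)]) (.alt
    (.leaf [(0, 1), (12, 1), (14, 1), (16, 1), (38, 1), (51, 1)]) (.alt (.split 6 [0, 0, 0, 1]
    (.alt (.leaf [(0, 2), (50, 1), (60, 1)]) (.alt (.leaf [(0, 2), (10, 14), (12, 3), (20, 1),
    (50, 6)]) (.alt (.split 6 [0, 1, 0, -1] (.alt (.leaf [(0, 2), (11, 12), (13, 3), (21, 1),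
    (51, 6)]) (.alt (.leaf [(0, 2), (11, 2), (51, 1), (61, 1)]) (.alt (.leaf [(0, 1), (1, 1),
    (18, 2), (20, 1), (40, 1), (43, 1)]) (.alt (.leaf [(0, 4), (18, 4), (20, 4), (22, 2), (43,
    1), (44, 1), (47, 2), (53, 2), (55, 2)]) (.alt (.leaf [(0, 2), (2, 1), (14, 1), (18, 2),
    (20, 2), (22, 1), (34, 1), (45, 1), (50, 1)]) (.alt (.leaf [(0, 2), (2, 1), (14, 1), (16,
    1), (18, 2), (20, 1), (22, 1), (38, 1), (41, 1), (49, 1)]) (.alt (.leaf [(0, 2), (16, 4),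
    (18, 1), (26, 1), (56, 2)]) (.done))))))))) (.alt (.leaf [(0, 4), (17, 4), (19, 4), (21, 2),
    (42, 1), (43, 1), (47, 2), (52, 2), (54, 2)]) (.alt (.leaf [(0, 2), (1, 1), (13, 1), (17,
    2), (19, 2), (21, 1), (33, 1), (44, 1), (48, 1)]) (.alt (.leaf [(0, 2), (1, 1), (13, 1),
    (15, 1), (17, 2), (19, 1), (21, 1), (37, 1), (40, 1), (49, 1)]) (.alt (.leaf [(1, 2), (15,
    6), (17, 1), (25, 1), (55, 2)]) (.done))))))))) (.alt (.leaf [(0, 1), (12, 1), (14, 1), (16,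
    1), (18, 1), (44, 1), (54, 1)]) (.done)))))

/-- Class (0, 0, 1). -/
def A6.T3 : Tree :=
  .split 4 [] (.alt (.leaf [(0, 1), (12, 1), (14, 1), (16, 1), (18, 1), (41, 1), (53, 1)]) (.alt
    (.leaf [(0, 1), (12, 1), (14, 1), (16, 1), (38, 1), (51, 1)]) (.alt (.split 7 [0, 0, 0, 1]
    (.alt (.leaf [(0, 2), (10, 1), (60, 1)]) (.alt (.leaf [(0, 2), (10, 17), (12, 3), (20, 1),
    (50, 7)]) (.alt (.leaf [(0, 2), (19, 2), (21, 1), (42, 1), (46, 1), (54, 1)]) (.alt (.leaf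
    [(0, 2), (19, 1), (21, 1), (39, 1), (47, 1), (52, 1)]) (.alt (.split 5 [0, 0, 1, -1] (.alt
    (.leaf [(0, 2), (11, 9), (13, 3), (21, 1), (51, 3)]) (.alt (.leaf [(0, 2), (11, 1), (61,
    1)]) (.alt (.leaf [(0, 2), (16, 2), (18, 2), (20, 2), (22, 1), (43, 1), (48, 1), (55, 1)])
    (.alt (.leaf [(0, 2), (16, 2), (18, 2), (20, 1), (22, 1), (40, 1), (47, 1), (53, 1)]) (.alt
    (.leaf [(0, 1), (1, 1), (16, 1), (20, 1), (38, 1), (45, 1)]) (.alt (.leaf [(0, 2), (2, 1),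
    (14, 1), (16, 3), (18, 3), (20, 3), (22, 1), (43, 1), (44, 1), (49, 1)]) (.alt (.leaf [(5,
    2), (7, 1), (19, 1), (21, 1), (23, 1), (25, 1), (27, 1), (54, 1)]) (.done))))))))) (.alt
    (.leaf [(0, 2), (1, 1), (13, 1), (15, 1), (17, 1), (19, 3), (21, 1), (42, 1), (43, 1), (49,
    1)]) (.alt (.leaf [(5, 2), (6, 1), (18, 1), (20, 1), (22, 1), (24, 1), (26, 1), (54, 1)])
    (.done))))))))) (.alt (.leaf [(0, 1), (12, 1), (14, 1), (16, 1), (18, 1), (44, 1), (54, 1)])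
    (.done)))))

/-- Class (1, 1, 0). -/
def A6.T4 : Tree :=
  .split 4 [] (.alt (.leaf [(0, 1), (12, 1), (14, 1), (16, 1), (18, 1), (41, 1), (53, 1)]) (.alt
    (.leaf [(0, 1), (12, 1), (14, 1), (16, 1), (38, 1), (51, 1)]) (.alt (.split 2 [0, 1, 0, 0]
    (.alt (.leaf [(0, 1), (50, 1)]) (.alt (.leaf [(0, 1), (10, 2), (50, 1)]) (.alt (.split 4 [1,
    1, 0, -1] (.alt (.leaf [(0, 2), (11, 6), (13, 2), (21, 1), (51, 3)]) (.alt (.leaf [(0, 2),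
    (13, 1), (61, 1)]) (.alt (.leaf [(0, 2), (1, 1), (10, 1), (14, 2), (16, 2), (18, 2), (20,
    2), (22, 1), (24, 1), (43, 1), (48, 1)]) (.alt (.leaf [(0, 4), (1, 2), (10, 2), (12, 2),
    (14, 6), (16, 4), (18, 4), (20, 4), (22, 2), (32, 2), (43, 1), (44, 1), (47, 2)]) (.alt
    (.leaf [(0, 2), (1, 1), (2, 1), (10, 1), (12, 1), (14, 4), (16, 4), (18, 4), (20, 3), (22,
    1), (40, 1), (43, 1), (45, 1), (50, 1)]) (.alt (.leaf [(0, 2), (14, 2), (16, 2), (18, 1),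
    (20, 1), (22, 1), (38, 1), (49, 1)]) (.alt (.leaf [(0, 2), (16, 2), (26, 1), (56, 1)])
    (.done))))))))) (.alt (.leaf [(0, 1), (9, 1), (11, 1), (13, 1), (15, 1), (17, 1), (19, 1),
    (43, 1), (56, 1)]) (.alt (.leaf [(0, 1), (1, 1), (9, 1), (11, 1), (13, 2), (15, 1), (17, 1),
    (19, 1), (33, 1), (44, 1)]) (.alt (.leaf [(0, 2), (1, 1), (9, 2), (11, 1), (13, 2), (15, 2),
    (17, 2), (19, 1), (24, 1), (40, 1), (45, 1)]) (.alt (.leaf [(1, 1), (15, 1)])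
    (.done))))))))) (.alt (.leaf [(0, 1), (12, 1), (14, 1), (16, 1), (18, 1), (44, 1), (54, 1)])
    (.done)))))

/-- Class (1, 0, 1). -/
def A6.T5 : Tree :=
  .split 4 [] (.alt (.leaf [(0, 1), (12, 1), (14, 1), (16, 1), (18, 1), (41, 1), (53, 1)]) (.alt
    (.leaf [(0, 1), (12, 1), (14, 1), (16, 1), (38, 1), (51, 1)]) (.alt (.split 2 [0, 1, 0, 0]
    (.alt (.leaf [(0, 1), (50, 1)]) (.alt (.leaf [(0, 1), (10, 2), (50, 1)]) (.alt (.split 2 [1,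
    0, 1, -1] (.alt (.leaf [(0, 2), (11, 3), (21, 1), (51, 2)]) (.alt (.split 3 [1, 0, 1, -1]
    (.alt (.leaf [(0, 2), (12, 5), (22, 1), (52, 2)]) (.alt (.split 4 [1, 0, 1, -1] (.alt (.leaf
    [(0, 2), (13, 5), (15, 2), (23, 1), (53, 2)]) (.alt (.leaf [(0, 2), (13, 1), (15, 1), (53,
    1), (63, 1)]) (.alt (.leaf [(0, 4), (3, 2), (12, 2), (14, 2), (16, 6), (18, 6), (20, 6),
    (22, 6), (24, 2), (45, 3), (46, 1), (50, 2)]) (.alt (.leaf [(0, 2), (16, 2), (18, 2), (20,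
    2), (22, 1), (24, 1), (42, 1), (49, 1)]) (.alt (.leaf [(0, 2), (16, 2), (18, 2), (20, 2),
    (22, 1), (24, 1), (43, 1), (52, 1)]) (.alt (.leaf [(0, 2), (3, 1), (4, 1), (12, 1), (14, 1),
    (16, 4), (18, 3), (20, 3), (22, 2), (24, 1), (36, 1), (42, 1), (45, 1), (51, 1)]) (.alt
    (.leaf [(0, 1), (6, 1), (18, 2), (58, 1)]) (.done))))))))) (.alt (.leaf [(0, 4), (2, 2),
    (11, 2), (13, 6), (15, 6), (17, 6), (19, 6), (21, 6), (23, 2), (44, 3), (45, 1), (49, 2)])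
    (.alt (.leaf [(0, 2), (13, 2), (15, 2), (17, 2), (19, 2), (21, 1), (23, 1), (41, 1), (48,
    1)]) (.alt (.leaf [(0, 2), (13, 2), (15, 2), (17, 2), (19, 2), (21, 1), (23, 1), (42, 1),
    (51, 1)]) (.alt (.leaf [(0, 2), (2, 1), (3, 1), (11, 1), (13, 3), (15, 4), (17, 3), (19, 3),
    (21, 2), (23, 1), (35, 1), (41, 1), (44, 1), (50, 1)]) (.alt (.leaf [(0, 1), (6, 1), (17,
    1), (57, 1)]) (.done))))))))) (.alt (.leaf [(0, 4), (1, 2), (10, 6), (12, 6), (14, 6), (16,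
    6), (18, 6), (20, 6), (22, 2), (43, 3), (44, 1), (48, 2)]) (.alt (.leaf [(0, 2), (10, 2),
    (12, 2), (14, 2), (16, 2), (18, 2), (20, 1), (22, 1), (40, 1), (47, 1)]) (.alt (.leaf [(0,
    2), (10, 2), (12, 2), (14, 2), (16, 2), (18, 2), (20, 1), (22, 1), (41, 1), (50, 1)]) (.alt
    (.leaf [(0, 4), (2, 2), (10, 4), (12, 4), (14, 6), (16, 4), (18, 4), (20, 4), (22, 2), (34,
    2), (43, 1), (44, 1), (49, 2)]) (.alt (.leaf [(0, 2), (16, 1), (26, 1)]) (.done)))))))))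
    (.alt (.leaf [(0, 1), (9, 1), (11, 1), (13, 1), (15, 1), (17, 1), (19, 1), (43, 1), (56,
    1)]) (.alt (.leaf [(0, 1), (1, 1), (9, 1), (11, 1), (13, 2), (15, 1), (17, 1), (19, 1), (33,
    1), (44, 1)]) (.alt (.leaf [(0, 2), (1, 2), (9, 2), (13, 2), (15, 2), (17, 2), (19, 2), (24,
    2), (42, 1), (43, 1)]) (.alt (.leaf [(1, 1), (15, 1)]) (.done))))))))) (.alt (.leaf [(0, 1),
    (12, 1), (14, 1), (16, 1), (18, 1), (44, 1), (54, 1)]) (.done)))))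

/-- Class (0, 1, 1). -/
def A6.T6 : Tree :=
  .split 4 [] (.alt (.leaf [(0, 1), (12, 1), (14, 1), (16, 1), (18, 1), (41, 1), (53, 1)]) (.alt
    (.leaf [(0, 1), (12, 1), (14, 1), (16, 1), (38, 1), (51, 1)]) (.alt (.split 2 [0, 1, 0, 0]
    (.alt (.leaf [(0, 1), (50, 1)]) (.alt (.leaf [(0, 1), (10, 2), (50, 1)]) (.alt (.split 2 [1,
    1, 1, -1] (.alt (.split 3 [1, 1, 1, -1] (.alt (.split 4 [1, 1, 1, -1] (.alt (.leaf [(0, 2),
    (13, 2), (15, 1), (23, 1), (53, 1)]) (.alt (.leaf [(0, 2), (13, 4), (15, 2), (53, 2), (63,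
    1)]) (.alt (.leaf [(0, 2), (3, 2), (12, 2), (14, 1), (16, 3), (18, 3), (20, 3), (22, 3),
    (24, 1), (26, 1), (45, 2), (50, 1)]) (.alt (.leaf [(0, 2), (16, 2), (18, 2), (20, 2), (22,
    1), (24, 1), (42, 1), (49, 1), (57, 1)]) (.alt (.leaf [(0, 2), (4, 1), (16, 3), (18, 3),
    (20, 3), (22, 2), (24, 1), (43, 1), (47, 1), (52, 1)]) (.alt (.leaf [(0, 2), (16, 2), (18,
    2), (20, 1), (22, 1), (24, 1), (40, 1), (51, 1), (60, 1)]) (.alt (.leaf [(1, 1), (6, 1),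
    (18, 2), (58, 1)]) (.done))))))))) (.alt (.leaf [(0, 2), (12, 4), (52, 2), (62, 1)]) (.alt
    (.leaf [(0, 2), (2, 2), (11, 2), (13, 3), (15, 3), (17, 3), (19, 3), (21, 3), (23, 1), (25,
    1), (44, 2), (49, 1)]) (.alt (.leaf [(0, 2), (13, 2), (15, 2), (17, 1), (19, 1), (21, 1),
    (23, 1), (33, 1), (48, 1), (60, 1)]) (.alt (.leaf [(0, 2), (3, 1), (13, 2), (15, 3), (17,
    3), (19, 3), (21, 2), (23, 1), (42, 1), (46, 1), (51, 1)]) (.alt (.leaf [(0, 2), (3, 1),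
    (13, 2), (15, 3), (17, 2), (19, 1), (21, 1), (23, 1), (35, 1), (39, 1), (50, 1)]) (.alt
    (.leaf [(1, 1), (6, 1), (17, 1), (57, 1)]) (.done))))))))) (.alt (.leaf [(0, 2), (11, 2),
    (51, 2), (61, 1)]) (.alt (.leaf [(0, 2), (1, 2), (10, 4), (12, 3), (14, 3), (16, 3), (18,
    3), (20, 3), (22, 1), (24, 1), (43, 2), (48, 1)]) (.alt (.leaf [(0, 2), (10, 2), (12, 2),
    (14, 2), (16, 1), (18, 1), (20, 1), (22, 1), (32, 1), (47, 1), (59, 1)]) (.alt (.leaf [(0,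
    2), (2, 1), (10, 2), (12, 2), (14, 3), (16, 3), (18, 3), (20, 2), (22, 1), (41, 1), (45, 1),
    (50, 1)]) (.alt (.leaf [(0, 2), (2, 1), (10, 2), (12, 2), (14, 3), (16, 2), (18, 1), (20,
    1), (22, 1), (34, 1), (38, 1), (49, 1)]) (.alt (.leaf [(1, 2), (66, 1)]) (.done)))))))))
    (.alt (.leaf [(0, 1), (9, 1), (11, 1), (13, 1), (15, 1), (17, 1), (19, 1), (43, 1), (56,
    1)]) (.alt (.leaf [(0, 1), (1, 1), (9, 1), (11, 1), (13, 2), (15, 1), (17, 1), (19, 1), (33,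
    1), (44, 1)]) (.alt (.leaf [(0, 2), (1, 2), (9, 2), (13, 2), (15, 2), (17, 2), (19, 2), (24,
    2), (42, 1), (43, 1)]) (.alt (.leaf [(1, 1), (15, 1)]) (.done))))))))) (.alt (.leaf [(0, 1),
    (12, 1), (14, 1), (16, 1), (18, 1), (44, 1), (54, 1)]) (.done)))))

/-- Class (1, 1, 1). -/
def A6.T7 : Tree :=
  .split 4 [] (.alt (.leaf [(0, 1), (12, 1), (14, 1), (16, 1), (18, 1), (41, 1), (53, 1)]) (.alt
    (.leaf [(0, 1), (12, 1), (14, 1), (16, 1), (38, 1), (51, 1)]) (.alt (.split 8 [0, 0, 0, 1]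
    (.alt (.leaf [(0, 2), (20, 1)]) (.alt (.leaf [(0, 2), (10, 20), (12, 4), (20, 3), (50, 8)])
    (.alt (.leaf [(0, 2), (21, 1), (42, 1), (46, 1)]) (.alt (.leaf [(0, 2), (3, 1), (21, 2),
    (47, 1), (58, 1)]) (.alt (.leaf [(0, 2), (21, 1), (44, 1), (48, 1)]) (.alt (.leaf [(0, 2),
    (1, 1), (3, 1), (13, 1), (15, 1), (21, 2), (37, 1), (49, 1)]) (.alt (.leaf [(1, 2), (15,
    10), (17, 2), (25, 1), (55, 4)]) (.done))))))))) (.alt (.leaf [(0, 1), (12, 1), (14, 1),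
    (16, 1), (18, 1), (44, 1), (54, 1)]) (.done)))))

/-- The eight classes. -/
def A6.T : ℕ → Tree
  | 0 => A6.T0
  | 1 => A6.T1
  | 2 => A6.T2
  | 3 => A6.T3
  | 4 => A6.T4
  | 5 => A6.T5
  | 6 => A6.T6
  | 7 => A6.T7
  | _ => .done

theorem A6.chk : checkCls A6.D 9 [] A6.T = true := by decide +kernel

/-- Type E: `M_6 < M_5 + M_2`. -/
def E6.D : Data :=
  ⟨[none, none, none, some [1, 0, -1], some [0, 0, 1], some [1, 0, 0], some [1, 1, 0], some [1, 0,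
    1], some [1, 1, 1], none],
    sup, stdExt ++ [⟨true, [(1, 8), (1, 5), (-1, 9)], [], [], []⟩], []⟩

/-- Class (0, 0, 0). -/
def E6.T0 : Tree :=
  .split 6 [0, 0, 0, 1] (.alt (.leaf [(0, 2), (9, 1), (49, 1), (59, 1)]) (.alt (.leaf [(0, 4), (9,
    3), (13, 2), (19, 11), (59, 9)]) (.alt (.leaf [(0, 4), (16, 4), (18, 4), (20, 2), (41, 1),
    (42, 1), (45, 2)]) (.alt (.leaf [(0, 4), (16, 4), (18, 4), (20, 2), (41, 1), (42, 1), (46,
    2)]) (.alt (.leaf [(0, 4), (16, 4), (18, 4), (20, 2), (41, 1), (42, 1), (47, 2)]) (.alt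
    (.leaf [(0, 4), (16, 4), (18, 4), (20, 2), (41, 1), (42, 1), (48, 2)]) (.alt (.leaf [(1, 4),
    (14, 1), (18, 2), (24, 5), (64, 3)]) (.done))))))))

/-- Class (1, 0, 0). -/
def E6.T1 : Tree :=
  .split 4 [] (.alt (.leaf [(0, 1), (12, 1), (14, 1), (16, 1), (18, 1), (41, 1), (53, 1)]) (.alt
    (.leaf [(0, 1), (12, 1), (14, 1), (16, 1), (38, 1), (51, 1)]) (.alt (.split 2 [0, 1, 0, 0]
    (.alt (.leaf [(0, 1), (50, 1)]) (.alt (.leaf [(0, 1), (14, 2), (50, 1)]) (.alt (.split 5 []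
    (.alt (.leaf [(0, 1), (1, 2), (10, 2), (12, 2), (14, 2), (16, 3), (18, 2), (20, 1), (35, 1),
    (40, 1), (43, 1)]) (.alt (.split 8 [0, 0, 0, 1] (.alt (.leaf [(0, 4), (12, 1), (16, 2), (22,
    3), (62, 1)]) (.alt (.leaf [(0, 4), (12, 3), (16, 6), (22, 17), (62, 11)]) (.alt (.leaf [(0,
    2), (1, 1), (2, 2), (11, 2), (13, 2), (15, 2), (17, 3), (19, 3), (21, 1), (23, 1), (41, 2),
    (44, 2), (48, 1)]) (.alt (.split 4 [1, 0, 0, -1] (.alt (.leaf [(0, 4), (13, 1), (17, 2),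
    (23, 7), (63, 5)]) (.alt (.leaf [(0, 2), (53, 1), (63, 1)]) (.alt (.leaf [(0, 2), (2, 1),
    (3, 2), (12, 2), (14, 2), (16, 4), (18, 5), (20, 5), (22, 3), (24, 1), (42, 2), (45, 2),
    (50, 1)]) (.alt (.leaf [(0, 3), (1, 1), (3, 1), (12, 1), (16, 3), (18, 3), (20, 3), (22, 1),
    (24, 1), (26, 1), (42, 2), (45, 1), (49, 1)]) (.alt (.leaf [(0, 6), (3, 1), (4, 1), (12, 1),
    (16, 7), (18, 7), (20, 7), (22, 4), (24, 3), (27, 1), (42, 1), (43, 2), (45, 1), (52, 3)])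
    (.alt (.leaf [(0, 2), (3, 1), (4, 1), (12, 1), (16, 3), (18, 3), (20, 3), (22, 2), (24, 1),
    (28, 1), (42, 1), (45, 1), (51, 1)]) (.alt (.leaf [(2, 2), (7, 1), (23, 1), (25, 1), (27,
    1), (29, 1), (55, 1)]) (.done))))))))) (.alt (.leaf [(0, 2), (2, 1), (3, 1), (11, 1), (13,
    1), (15, 2), (17, 2), (19, 2), (23, 1), (41, 1), (42, 1), (44, 1), (50, 1)]) (.alt (.leaf
    [(0, 2), (2, 1), (3, 1), (11, 1), (15, 1), (17, 1), (19, 1), (23, 1), (27, 1), (41, 1), (44,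
    1), (51, 1)]) (.alt (.leaf [(2, 2), (6, 1), (22, 1), (24, 1), (26, 1), (28, 1), (53, 1)])
    (.done))))))))) (.alt (.leaf [(0, 2), (2, 2), (14, 2), (16, 4), (18, 4), (20, 2), (41, 2),
    (43, 1), (44, 1)]) (.alt (.leaf [(0, 1), (1, 1), (2, 1), (10, 1), (14, 1), (16, 2), (18, 2),
    (20, 1), (26, 1), (40, 1), (43, 1)]) (.done)))))) (.alt (.leaf [(0, 1), (9, 1), (11, 1),
    (13, 1), (15, 1), (17, 1), (19, 1), (43, 1), (56, 1)]) (.alt (.leaf [(0, 2), (1, 2), (9, 2),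
    (11, 1), (13, 3), (15, 3), (17, 3), (19, 2), (25, 1), (41, 1), (44, 2)]) (.alt (.leaf [(0,
    1), (1, 1), (9, 1), (11, 1), (13, 2), (15, 2), (17, 1), (37, 1), (40, 1)]) (.alt (.leaf [(1,
    1), (19, 1)]) (.done))))))))) (.alt (.leaf [(0, 1), (12, 1), (14, 1), (16, 1), (18, 1), (44,
    1), (54, 1)]) (.done)))))

/-- Class (0, 1, 0). -/
def E6.T2 : Tree :=
  .split 4 [] (.alt (.leaf [(0, 1), (12, 1), (14, 1), (16, 1), (18, 1), (41, 1), (53, 1)]) (.alt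
    (.leaf [(0, 1), (12, 1), (14, 1), (16, 1), (38, 1), (51, 1)]) (.alt (.split 7 [0, 0, 0, 1]
    (.alt (.leaf [(0, 2), (10, 1), (14, 1), (50, 1), (60, 1)]) (.alt (.leaf [(0, 2), (10, 6),
    (14, 13), (20, 1), (50, 9)]) (.alt (.split 5 [0, 1, 0, -1] (.alt (.leaf [(0, 2), (11, 4),
    (15, 9), (21, 1), (51, 7)]) (.alt (.split 6 [0, 0, 0, 1] (.alt (.leaf [(0, 1), (1, 1), (62,
    1)]) (.alt (.leaf [(0, 2), (12, 6), (16, 11), (22, 1), (52, 9)]) (.alt (.split 6 [0, 1, 0,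
    -1] (.alt (.leaf [(0, 2), (13, 6), (17, 9), (23, 1), (53, 9)]) (.alt (.leaf [(0, 2), (13,
    1), (17, 1), (53, 1), (63, 1)]) (.alt (.leaf [(0, 1), (1, 1), (20, 2), (22, 1), (42, 1),
    (45, 1)]) (.alt (.leaf [(0, 4), (20, 4), (22, 4), (24, 2), (45, 1), (46, 1), (49, 2), (55,
    2), (57, 2)]) (.alt (.leaf [(0, 2), (4, 1), (16, 1), (20, 2), (22, 2), (24, 1), (36, 1),
    (47, 1), (52, 1)]) (.alt (.leaf [(0, 2), (4, 1), (16, 1), (18, 1), (20, 2), (22, 1), (24,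
    1), (40, 1), (43, 1), (51, 1)]) (.alt (.leaf [(0, 2), (18, 2), (22, 3), (28, 1), (58, 3)])
    (.done))))))))) (.alt (.leaf [(0, 4), (19, 4), (21, 4), (23, 2), (44, 1), (45, 1), (49, 2),
    (54, 2), (56, 2)]) (.alt (.leaf [(0, 2), (3, 1), (15, 1), (19, 2), (21, 2), (23, 1), (35,
    1), (46, 1), (50, 1)]) (.alt (.leaf [(0, 2), (3, 1), (15, 1), (17, 1), (19, 2), (21, 1),
    (23, 1), (39, 1), (42, 1), (51, 1)]) (.alt (.leaf [(1, 2), (17, 2), (21, 5), (27, 1), (57,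
    3)]) (.done))))))))) (.alt (.leaf [(0, 1), (1, 1), (16, 1), (18, 1), (20, 1), (40, 1), (43,
    1)]) (.alt (.leaf [(0, 4), (16, 4), (18, 4), (20, 4), (22, 2), (43, 1), (44, 1), (47, 2),
    (53, 2), (55, 2)]) (.alt (.leaf [(0, 2), (2, 1), (14, 1), (16, 2), (18, 2), (20, 2), (22,
    1), (34, 1), (45, 1), (50, 1)]) (.alt (.leaf [(0, 2), (2, 1), (14, 1), (16, 3), (18, 2),
    (20, 1), (22, 1), (38, 1), (41, 1), (49, 1)]) (.alt (.leaf [(0, 2), (16, 2), (20, 3), (26,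
    1), (56, 3)]) (.done))))))))) (.alt (.leaf [(0, 2), (3, 1), (19, 2), (21, 2), (47, 1), (52,
    1), (54, 1)]) (.alt (.leaf [(0, 2), (1, 1), (13, 1), (19, 2), (21, 1), (33, 1), (44, 1),
    (48, 1)]) (.alt (.leaf [(0, 2), (1, 1), (13, 1), (15, 1), (19, 1), (21, 1), (37, 1), (40,
    1), (49, 1)]) (.alt (.leaf [(1, 2), (15, 2), (19, 5), (25, 1), (55, 3)]) (.done)))))))))
    (.alt (.leaf [(0, 1), (12, 1), (14, 1), (16, 1), (18, 1), (44, 1), (54, 1)]) (.done)))))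

/-- Class (0, 0, 1). -/
def E6.T3 : Tree :=
  .split 4 [] (.alt (.leaf [(0, 1), (12, 1), (14, 1), (16, 1), (18, 1), (41, 1), (53, 1)]) (.alt
    (.leaf [(0, 1), (12, 1), (14, 1), (16, 1), (38, 1), (51, 1)]) (.alt (.split 7 [0, 0, 0, 1]
    (.alt (.leaf [(0, 2), (14, 1), (60, 1)]) (.alt (.leaf [(0, 2), (10, 2), (14, 3), (20, 6),
    (60, 5)]) (.alt (.leaf [(0, 2), (19, 2), (21, 1), (42, 1), (46, 1), (54, 1)]) (.alt (.leaf
    [(0, 2), (19, 1), (21, 1), (39, 1), (47, 1), (52, 1)]) (.alt (.split 5 [0, 0, 1, -1] (.alt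
    (.leaf [(0, 2), (15, 3), (21, 4), (61, 3)]) (.alt (.leaf [(0, 2), (15, 1), (61, 1)]) (.alt
    (.leaf [(0, 2), (16, 2), (18, 2), (20, 2), (22, 1), (43, 1), (48, 1), (55, 1)]) (.alt (.leaf
    [(0, 2), (16, 2), (18, 2), (20, 1), (22, 1), (40, 1), (47, 1), (53, 1)]) (.alt (.leaf [(0,
    1), (1, 1), (16, 1), (20, 1), (38, 1), (45, 1)]) (.alt (.leaf [(0, 2), (2, 1), (14, 1), (16,
    3), (18, 3), (20, 3), (22, 1), (43, 1), (44, 1), (49, 1)]) (.alt (.leaf [(5, 2), (7, 1),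
    (19, 1), (21, 1), (23, 1), (25, 1), (27, 1), (54, 1)]) (.done))))))))) (.alt (.leaf [(0, 2),
    (1, 1), (13, 1), (15, 1), (17, 1), (19, 3), (21, 1), (42, 1), (43, 1), (49, 1)]) (.alt
    (.leaf [(5, 2), (6, 1), (18, 1), (20, 1), (22, 1), (24, 1), (26, 1), (54, 1)])
    (.done))))))))) (.alt (.leaf [(0, 1), (12, 1), (14, 1), (16, 1), (18, 1), (44, 1), (54, 1)])
    (.done)))))

/-- Class (1, 1, 0). -/
def E6.T4 : Tree :=
  .split 4 [] (.alt (.leaf [(0, 1), (12, 1), (14, 1), (16, 1), (18, 1), (41, 1), (53, 1)]) (.alt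
    (.leaf [(0, 1), (12, 1), (14, 1), (16, 1), (38, 1), (51, 1)]) (.alt (.split 2 [0, 1, 0, 0]
    (.alt (.leaf [(0, 1), (50, 1)]) (.alt (.leaf [(0, 1), (14, 2), (50, 1)]) (.alt (.split 5 []
    (.alt (.leaf [(0, 1), (1, 2), (10, 2), (12, 2), (14, 2), (16, 3), (18, 2), (20, 1), (35, 1),
    (40, 1), (43, 1)]) (.alt (.split 4 [1, 1, 0, -1] (.alt (.leaf [(0, 4), (12, 1), (22, 7),
    (62, 5)]) (.alt (.leaf [(0, 2), (16, 1), (52, 1), (62, 1)]) (.alt (.leaf [(0, 2), (1, 1),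
    (15, 2), (17, 3), (19, 3), (21, 2), (23, 1), (41, 1), (44, 1), (49, 1)]) (.alt (.leaf [(0,
    8), (2, 2), (11, 2), (15, 8), (17, 8), (19, 8), (21, 8), (23, 4), (25, 2), (44, 1), (45, 3),
    (48, 4)]) (.alt (.leaf [(0, 4), (3, 2), (15, 6), (17, 6), (19, 6), (21, 6), (23, 2), (44,
    1), (45, 1), (46, 2), (51, 2)]) (.alt (.leaf [(0, 2), (15, 2), (17, 2), (19, 1), (21, 1),
    (23, 1), (39, 1), (50, 1)]) (.alt (.leaf [(0, 2), (17, 1), (21, 1), (27, 1), (57, 1)])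
    (.done))))))))) (.alt (.leaf [(0, 1), (1, 1), (2, 1), (10, 1), (12, 1), (14, 2), (16, 3),
    (18, 3), (20, 1), (40, 1), (41, 1), (43, 1)]) (.alt (.leaf [(0, 1), (1, 1), (2, 1), (10, 1),
    (14, 1), (16, 2), (18, 2), (20, 1), (26, 1), (40, 1), (43, 1)]) (.done)))))) (.alt (.leaf
    [(0, 2), (9, 2), (11, 2), (13, 2), (15, 2), (17, 2), (19, 1), (38, 1), (43, 1), (52, 1),
    (54, 1)]) (.alt (.leaf [(0, 1), (9, 1), (11, 1), (13, 1), (15, 1), (17, 1), (19, 1), (44,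
    1), (57, 1)]) (.alt (.leaf [(0, 1), (1, 1), (9, 1), (11, 1), (13, 2), (15, 2), (17, 1), (37,
    1), (40, 1)]) (.alt (.leaf [(1, 1), (19, 1)]) (.done))))))))) (.alt (.leaf [(0, 2), (12, 2),
    (14, 2), (16, 2), (18, 2), (41, 1), (42, 1), (52, 2), (56, 2)]) (.done)))))

/-- Class (1, 0, 1). -/
def E6.T5 : Tree :=
  .split 4 [] (.alt (.leaf [(0, 1), (12, 1), (14, 1), (16, 1), (18, 1), (41, 1), (53, 1)]) (.alt
    (.leaf [(0, 1), (12, 1), (14, 1), (16, 1), (38, 1), (51, 1)]) (.alt (.split 2 [0, 1, 0, 0]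
    (.alt (.leaf [(0, 1), (50, 1)]) (.alt (.leaf [(0, 1), (14, 2), (50, 1)]) (.alt (.split 3 [1,
    0, 1, -1] (.alt (.leaf [(0, 2), (11, 1), (15, 1), (21, 2), (61, 1)]) (.alt (.split 4 [1, 0,
    1, -1] (.alt (.leaf [(0, 2), (16, 1), (22, 3), (62, 2)]) (.alt (.leaf [(0, 2), (12, 1), (16,
    1), (52, 2), (62, 1)]) (.alt (.leaf [(0, 2), (2, 2), (11, 2), (13, 2), (15, 4), (17, 4),
    (19, 4), (21, 3), (23, 1), (41, 1), (44, 2), (49, 1)]) (.alt (.leaf [(0, 2), (15, 2), (17,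
    2), (19, 2), (21, 1), (23, 1), (41, 1), (48, 1)]) (.alt (.leaf [(0, 2), (15, 2), (17, 2),
    (19, 2), (21, 1), (23, 1), (42, 1), (51, 1)]) (.alt (.leaf [(0, 4), (2, 2), (3, 4), (11, 2),
    (15, 8), (17, 8), (19, 8), (21, 6), (23, 2), (27, 2), (41, 2), (44, 3), (45, 1), (50, 2)])
    (.alt (.leaf [(0, 1), (6, 1), (17, 1), (21, 1), (57, 1)]) (.done))))))))) (.alt (.leaf [(0,
    2), (1, 2), (10, 2), (12, 4), (14, 4), (16, 4), (18, 4), (20, 3), (22, 1), (40, 1), (43, 2),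
    (48, 1)]) (.alt (.leaf [(0, 2), (12, 2), (14, 2), (16, 2), (18, 2), (20, 1), (22, 1), (40,
    1), (47, 1)]) (.alt (.leaf [(0, 2), (12, 2), (14, 2), (16, 2), (18, 2), (20, 1), (22, 1),
    (41, 1), (50, 1)]) (.alt (.leaf [(0, 10), (12, 9), (14, 9), (16, 9), (18, 7), (20, 7), (22,
    5), (26, 1), (37, 2), (46, 2), (49, 5), (58, 4)]) (.alt (.leaf [(0, 2), (20, 1), (26, 1)])
    (.done))))))))) (.alt (.leaf [(0, 1), (9, 1), (11, 1), (13, 1), (15, 1), (17, 1), (19, 1),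
    (43, 1), (56, 1)]) (.alt (.leaf [(0, 2), (1, 4), (9, 2), (13, 4), (15, 4), (17, 4), (19, 4),
    (25, 2), (42, 1), (43, 1), (44, 2)]) (.alt (.leaf [(0, 1), (1, 1), (9, 1), (11, 1), (13, 2),
    (15, 2), (17, 1), (37, 1), (40, 1)]) (.alt (.leaf [(1, 1), (19, 1)]) (.done))))))))) (.alt
    (.leaf [(0, 1), (12, 1), (14, 1), (16, 1), (18, 1), (44, 1), (54, 1)]) (.done)))))

/-- Class (0, 1, 1). -/
def E6.T6 : Tree :=
  .split 4 [] (.alt (.leaf [(0, 1), (12, 1), (14, 1), (16, 1), (18, 1), (41, 1), (53, 1)]) (.alt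
    (.leaf [(0, 1), (12, 1), (14, 1), (16, 1), (38, 1), (51, 1)]) (.alt (.split 2 [0, 1, 0, 0]
    (.alt (.leaf [(0, 1), (50, 1)]) (.alt (.leaf [(0, 1), (14, 2), (50, 1)]) (.alt (.split 5 []
    (.alt (.leaf [(0, 2), (1, 2), (10, 2), (12, 2), (14, 2), (16, 4), (35, 3), (36, 1)]) (.alt
    (.split 3 [1, 1, 0, -1] (.alt (.leaf [(0, 2), (12, 2), (22, 2), (62, 1)]) (.alt (.leaf [(0,
    2), (62, 1)]) (.alt (.leaf [(0, 2), (1, 1), (2, 1), (11, 1), (13, 3), (15, 3), (17, 4), (19,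
    2), (21, 1), (23, 1), (36, 2), (41, 1), (49, 1)]) (.alt (.leaf [(0, 4), (2, 2), (11, 2),
    (13, 3), (15, 3), (17, 3), (19, 3), (21, 2), (23, 2), (25, 3), (41, 1), (48, 2)]) (.alt
    (.leaf [(0, 6), (3, 5), (13, 6), (15, 11), (17, 11), (19, 7), (21, 4), (23, 3), (38, 4),
    (42, 3), (47, 1), (51, 3)]) (.alt (.split 7 [0, 0, 0, 1] (.alt (.leaf [(0, 2), (63, 1)])
    (.alt (.leaf [(0, 2), (13, 2), (17, 4), (23, 6), (63, 5)]) (.alt (.split 5 [0, 0, 1, -1]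
    (.alt (.leaf [(0, 2), (18, 4), (24, 4), (64, 3)]) (.alt (.leaf [(0, 2), (64, 1)]) (.alt
    (.leaf [(0, 8), (4, 6), (13, 6), (15, 4), (17, 4), (19, 12), (21, 12), (23, 12), (25, 4),
    (27, 2), (46, 5), (47, 3), (51, 4)]) (.alt (.split 4 [0, 1, 1, -1] (.alt (.leaf [(0, 2),
    (25, 4), (65, 3)]) (.alt (.leaf [(0, 2), (65, 1)]) (.alt (.leaf [(0, 1), (1, 1), (18, 1),
    (20, 2), (22, 2), (24, 1), (44, 1), (47, 1)]) (.alt (.leaf [(0, 2), (4, 1), (5, 3), (14, 3),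
    (16, 3), (18, 5), (20, 6), (22, 6), (24, 3), (26, 1), (44, 3), (47, 2), (51, 1)]) (.alt
    (.leaf [(0, 1), (3, 1), (5, 1), (14, 1), (16, 1), (18, 2), (20, 2), (22, 2), (24, 1), (30,
    1), (44, 1), (47, 1)]) (.alt (.leaf [(0, 3), (3, 1), (16, 1), (18, 4), (20, 4), (22, 4),
    (24, 3), (26, 2), (45, 1), (50, 1), (53, 2), (64, 1)]) (.alt (.leaf [(3, 2), (9, 1), (10,
    1), (19, 1), (21, 1), (23, 1), (25, 2), (27, 2), (29, 1), (31, 1), (49, 1), (56, 1)])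
    (.done))))))))) (.alt (.leaf [(0, 2), (2, 2), (15, 1), (17, 1), (19, 3), (21, 1), (29, 1),
    (41, 2), (44, 1)]) (.alt (.leaf [(0, 3), (2, 1), (4, 1), (13, 1), (15, 2), (17, 2), (19, 5),
    (21, 5), (23, 4), (25, 2), (43, 1), (46, 1), (48, 1), (52, 2), (61, 2)]) (.alt (.leaf [(2,
    3), (6, 1), (9, 2), (18, 2), (20, 1), (22, 1), (24, 1), (26, 1), (28, 2), (30, 1), (32, 1),
    (51, 1), (56, 1)]) (.done))))))))) (.alt (.leaf [(0, 2), (2, 1), (3, 3), (12, 3), (14, 3),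
    (16, 3), (18, 4), (20, 4), (22, 3), (24, 1), (42, 3), (45, 2), (50, 1)]) (.alt (.leaf [(0,
    1), (1, 1), (22, 1), (24, 1), (28, 1), (51, 1)]) (.alt (.leaf [(0, 3), (1, 1), (3, 2), (12,
    2), (14, 3), (16, 3), (18, 3), (20, 3), (22, 3), (24, 1), (42, 2), (43, 1), (45, 2), (52,
    1), (62, 2)]) (.alt (.leaf [(3, 2), (7, 1), (8, 1), (17, 1), (19, 1), (21, 1), (23, 2), (25,
    2), (27, 1), (29, 1), (47, 1), (55, 1)]) (.done))))))))) (.alt (.leaf [(4, 2), (8, 3), (20,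
    3), (22, 3), (24, 3), (26, 2), (28, 1), (47, 1), (51, 1), (56, 1)]) (.done))))))))) (.alt
    (.leaf [(0, 3), (2, 2), (14, 2), (16, 5), (18, 4), (20, 1), (37, 1), (41, 3), (46, 1)])
    (.alt (.leaf [(0, 1), (1, 1), (2, 1), (10, 1), (14, 1), (16, 2), (18, 2), (20, 1), (26, 1),
    (40, 1), (43, 1)]) (.done)))))) (.alt (.leaf [(0, 3), (9, 3), (11, 2), (13, 2), (15, 2),
    (22, 1), (35, 2), (56, 2), (58, 1)]) (.alt (.leaf [(0, 1), (1, 1), (9, 1), (11, 1), (13, 2),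
    (15, 1), (17, 1), (19, 1), (33, 1), (44, 1)]) (.alt (.leaf [(0, 1), (1, 1), (9, 1), (11, 1),
    (13, 2), (15, 2), (17, 1), (37, 1), (40, 1)]) (.alt (.leaf [(1, 1), (19, 1)])
    (.done))))))))) (.alt (.leaf [(0, 2), (12, 2), (14, 2), (16, 1), (18, 1), (35, 1), (44, 1),
    (52, 1), (56, 1)]) (.done)))))

/-- Class (1, 1, 1). -/
def E6.T7 : Tree :=
  .split 4 [] (.alt (.leaf [(0, 1), (12, 1), (14, 1), (16, 1), (18, 1), (41, 1), (53, 1)]) (.alt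
    (.leaf [(0, 1), (12, 1), (14, 1), (16, 1), (38, 1), (51, 1)]) (.alt (.split 8 [0, 0, 0, 1]
    (.alt (.leaf [(0, 2), (20, 1)]) (.alt (.leaf [(0, 2), (10, 2), (14, 4), (20, 9), (60, 6)])
    (.alt (.leaf [(0, 2), (21, 1), (42, 1), (46, 1)]) (.alt (.leaf [(0, 2), (3, 1), (21, 2),
    (47, 1), (58, 1)]) (.alt (.leaf [(0, 2), (21, 1), (44, 1), (48, 1)]) (.alt (.leaf [(0, 2),
    (1, 1), (3, 1), (13, 1), (15, 1), (21, 2), (37, 1), (49, 1)]) (.alt (.leaf [(1, 2), (15, 1),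
    (19, 2), (25, 4), (65, 3)]) (.done))))))))) (.alt (.leaf [(0, 1), (12, 1), (14, 1), (16, 1),
    (18, 1), (44, 1), (54, 1)]) (.done)))))

/-- The eight classes. -/
def E6.T : ℕ → Tree
  | 0 => E6.T0
  | 1 => E6.T1
  | 2 => E6.T2
  | 3 => E6.T3
  | 4 => E6.T4
  | 5 => E6.T5
  | 6 => E6.T6
  | 7 => E6.T7
  | _ => .done

theorem E6.chk : checkCls E6.D 9 [] E6.T = true := by decide +kernel

end Pool.Agent.Work.MP_7453a1_nt_sup
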