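import Pool.Agent.Work.MP_7453a1_nt_sup.Std

set_option autoImplicit false
set_option maxRecDepth 100000

/-! Certificates (the points z_1 and z_0). -/

namespace Pool.Agent.Work.MP_7453a1_nt_sup

/-- The point `z_1`. -/
def Z1.D : Data :=
  ⟨[none, none, none, none, none, some [1, 0, 0], some [1, 1, 0], some [1, 0, 1], some [1, 1, 1]],
    sup, stdExt, []⟩

/-- Class (0, 0, 0). -/
def Z1.T0 : Tree :=
  .split 3 [0, 0, 0, 1] (.alt (.leaf [(0, 2), (9, 1), (13, 1), (39, 1)]) (.alt (.leaf [(0, 2), (9,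
    3), (13, 3), (39, 3)]) (.alt (.leaf [(0, 4), (10, 4), (12, 2), (14, 2), (16, 2), (18, 2),
    (19, 2), (35, 1), (36, 1)]) (.alt (.leaf [(0, 4), (10, 4), (12, 2), (14, 2), (16, 2), (18,
    2), (20, 2), (35, 1), (36, 1)]) (.alt (.leaf [(0, 4), (10, 4), (12, 2), (14, 2), (16, 2),
    (18, 2), (21, 2), (35, 1), (36, 1)]) (.alt (.leaf [(0, 4), (10, 4), (12, 2), (14, 2), (16,
    2), (18, 2), (22, 2), (35, 1), (36, 1)]) (.alt (.leaf [(1, 2), (14, 1), (18, 1), (44, 1)])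
    (.done))))))))

/-- Class (1, 0, 0). -/
def Z1.T1 : Tree :=
  .split 4 [0, 0, 0, 1] (.alt (.leaf [(0, 2), (11, 1)]) (.alt (.leaf [(0, 2), (9, 1), (13, 4),
    (15, 3), (39, 1), (40, 3)]) (.alt (.leaf [(0, 4), (12, 2), (14, 2), (16, 2), (18, 2), (19,
    2), (35, 1), (36, 1), (41, 2)]) (.alt (.leaf [(0, 2), (12, 1), (20, 1), (24, 1)]) (.alt
    (.leaf [(0, 4), (12, 2), (14, 2), (16, 2), (18, 2), (21, 2), (35, 1), (36, 1), (42, 2)])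
    (.alt (.leaf [(0, 2), (12, 1), (22, 1), (26, 1)]) (.alt (.leaf [(1, 2), (14, 1), (18, 2),
    (20, 1), (44, 1), (45, 1)]) (.done))))))))

/-- Class (0, 1, 0). -/
def Z1.T2 : Tree :=
  .split 3 [0, 0, 0, 1] (.alt (.leaf [(0, 2), (9, 1), (39, 1)]) (.alt (.leaf [(0, 2), (9, 3), (13,
    4), (39, 3)]) (.alt (.split 4 [0, 0, 1, 0] (.alt (.leaf [(0, 1), (41, 1)]) (.alt (.leaf [(0,
    1), (14, 2), (16, 2), (41, 1)]) (.alt (.leaf [(0, 1), (1, 2), (11, 2), (13, 2), (15, 1),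
    (17, 1), (19, 1), (20, 1), (25, 1), (36, 1)]) (.alt (.leaf [(0, 1), (1, 2), (11, 2), (13,
    2), (15, 2), (17, 1), (20, 1), (28, 1), (33, 1)]) (.alt (.split 6 [0, 1, -1, -1] (.alt
    (.leaf [(0, 2), (11, 1), (15, 6), (17, 6), (41, 1), (42, 2)]) (.alt (.leaf [(0, 2), (13, 1),
    (15, 2), (17, 1), (42, 1)]) (.alt (.leaf [(0, 1), (2, 1), (12, 1), (14, 1), (16, 1), (18,
    1), (29, 1), (34, 1)]) (.alt (.leaf [(0, 1), (2, 3), (12, 3), (14, 1), (18, 1), (20, 1),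
    (21, 2), (26, 1), (37, 1)]) (.alt (.leaf [(0, 2), (1, 3), (2, 4), (12, 4), (14, 4), (16, 3),
    (18, 5), (20, 3), (21, 2), (24, 1), (28, 1), (34, 2), (37, 2), (39, 1)]) (.alt (.split 3 [0,
    1, 0, -1] (.alt (.leaf [(0, 2), (12, 3), (16, 2), (42, 3)]) (.alt (.leaf [(0, 2), (12, 1),
    (16, 2), (42, 1)]) (.alt (.leaf [(0, 1), (3, 1), (13, 2), (15, 2), (17, 2), (19, 2), (21,
    1), (35, 1), (38, 1)]) (.alt (.leaf [(0, 4), (3, 4), (13, 8), (15, 4), (17, 3), (19, 2),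
    (21, 1), (22, 4), (29, 1), (32, 1), (36, 1), (41, 1)]) (.alt (.leaf [(0, 3), (1, 1), (3, 2),
    (13, 5), (15, 3), (17, 2), (19, 3), (21, 2), (22, 1), (25, 1), (29, 1), (35, 1), (38, 1),
    (40, 1)]) (.alt (.leaf [(0, 2), (2, 1), (13, 2), (15, 2), (17, 2), (19, 1), (24, 1), (33,
    1), (36, 1)]) (.alt (.leaf [(3, 1), (8, 1), (18, 1), (27, 1)]) (.done))))))))) (.alt (.leaf
    [(4, 2), (6, 3), (19, 2), (21, 1), (23, 1), (25, 1), (29, 1), (33, 1), (44, 1)])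
    (.done))))))))) (.alt (.leaf [(0, 1), (1, 2), (11, 2), (13, 2), (15, 2), (17, 2), (19, 1),
    (20, 1), (33, 1), (36, 1), (43, 1), (47, 1)]) (.alt (.leaf [(1, 1), (19, 1), (21, 1)])
    (.done))))))))) (.alt (.leaf [(0, 4), (10, 4), (12, 2), (14, 2), (16, 2), (18, 1), (20, 2),
    (31, 1), (36, 1), (41, 1), (43, 1)]) (.alt (.leaf [(0, 2), (10, 2), (12, 1), (14, 1), (16,
    1), (18, 1), (21, 1), (37, 1), (46, 1)]) (.alt (.leaf [(0, 2), (10, 2), (12, 1), (14, 1),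
    (16, 1), (22, 1), (33, 1), (48, 1)]) (.alt (.leaf [(1, 2), (14, 1), (18, 2), (44, 1)])
    (.done))))))))

/-- Class (0, 0, 1). -/
def Z1.T3 : Tree :=
  .split 4 [0, 0, 0, 1] (.alt (.leaf [(0, 2), (11, 1), (40, 1)]) (.alt (.leaf [(0, 2), (9, 1),
    (13, 4), (15, 3), (39, 1), (40, 2)]) (.alt (.leaf [(0, 2), (12, 1), (14, 1), (16, 1), (18,
    1), (19, 1), (35, 1), (43, 1)]) (.alt (.leaf [(0, 2), (12, 1), (14, 1), (16, 1), (20, 1),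
    (32, 1), (41, 1)]) (.alt (.split 3 [0, 0, 1, -1] (.alt (.split 4 [0, 0, 1, -1] (.alt (.leaf
    [(0, 1), (1, 1), (11, 2), (15, 2), (41, 2), (42, 1)]) (.alt (.leaf [(0, 3), (1, 1), (15, 4),
    (17, 4), (42, 3)]) (.alt (.leaf [(0, 2), (14, 1), (16, 1), (18, 1), (20, 1), (22, 1), (37,
    1), (45, 1)]) (.alt (.leaf [(0, 2), (14, 1), (16, 1), (18, 1), (21, 1), (34, 1), (43, 1)])
    (.alt (.leaf [(0, 1), (2, 1), (14, 2), (16, 2), (18, 1), (20, 1), (32, 1), (39, 1)]) (.alt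
    (.leaf [(0, 2), (2, 2), (14, 2), (16, 2), (18, 2), (20, 2), (23, 2), (37, 1), (38, 1)])
    (.done)))))))) (.alt (.leaf [(0, 2), (10, 1), (14, 2), (16, 1), (40, 1)]) (.alt (.leaf [(0,
    2), (11, 2), (13, 1), (15, 1), (17, 1), (19, 1), (21, 1), (36, 1), (44, 1)]) (.alt (.leaf
    [(0, 2), (11, 2), (13, 1), (15, 1), (17, 1), (20, 1), (33, 1), (42, 1)]) (.alt (.leaf [(0,
    1), (1, 1), (11, 1), (13, 2), (15, 2), (17, 1), (19, 1), (31, 1), (38, 1)]) (.alt (.leaf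
    [(0, 2), (1, 2), (11, 2), (13, 2), (15, 2), (17, 2), (19, 2), (22, 2), (36, 1), (37, 1)])
    (.done)))))))) (.alt (.leaf [(0, 2), (12, 1), (14, 1), (16, 1), (18, 1), (22, 1), (38, 1),
    (44, 1)]) (.alt (.leaf [(1, 2), (14, 1), (18, 2), (20, 1), (44, 1)]) (.done))))))))

/-- Class (1, 1, 0). -/
def Z1.T4 : Tree :=
  .split 4 [0, 0, 1, 0] (.alt (.leaf [(0, 1), (40, 1)]) (.alt (.leaf [(0, 1), (13, 2), (15, 2),
    (40, 1)]) (.alt (.leaf [(0, 1), (12, 1), (14, 1), (16, 1), (18, 1), (35, 1), (43, 1)]) (.alt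
    (.leaf [(0, 1), (12, 1), (14, 1), (16, 1), (32, 1), (41, 1)]) (.alt (.split 3 [0, 1, 0, 0]
    (.alt (.leaf [(0, 1), (10, 1), (40, 1)]) (.alt (.leaf [(0, 1), (10, 1), (14, 2), (40, 1)])
    (.alt (.split 3 [1, 1, 0, -1] (.alt (.split 4 [0, 0, 0, 1] (.alt (.leaf [(0, 1), (1, 1),
    (12, 1), (42, 1)]) (.alt (.leaf [(0, 2), (12, 1), (16, 5), (18, 3), (42, 1), (43, 3)]) (.alt
    (.leaf [(0, 2), (15, 1), (17, 1), (22, 1), (30, 1)]) (.alt (.leaf [(0, 2), (2, 2), (13, 2),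
    (15, 3), (17, 2), (19, 2), (21, 1), (23, 1), (27, 1), (35, 1), (38, 1)]) (.alt (.leaf [(0,
    4), (3, 2), (15, 4), (17, 4), (19, 4), (21, 4), (24, 2), (38, 1), (39, 1), (40, 2)]) (.alt
    (.leaf [(0, 2), (15, 1), (17, 1), (25, 1), (33, 1)]) (.alt (.leaf [(1, 2), (17, 1), (21, 3),
    (23, 1), (47, 1), (48, 1)]) (.done))))))))) (.alt (.leaf [(0, 2), (11, 1), (15, 3), (17, 1),
    (41, 1), (42, 1)]) (.alt (.leaf [(0, 2), (12, 2), (14, 1), (16, 1), (22, 1), (29, 1)]) (.alt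
    (.leaf [(0, 8), (1, 4), (12, 12), (14, 8), (16, 3), (18, 2), (20, 1), (21, 4), (26, 4), (28,
    1), (31, 1), (35, 1), (40, 1)]) (.alt (.leaf [(0, 4), (2, 2), (12, 4), (14, 4), (16, 4),
    (18, 4), (20, 4), (24, 2), (37, 1), (38, 1), (39, 2)]) (.alt (.leaf [(0, 2), (12, 2), (14,
    1), (16, 1), (23, 1), (32, 1)]) (.alt (.leaf [(1, 2), (18, 1), (20, 1)]) (.done)))))))))
    (.alt (.leaf [(0, 2), (11, 2), (13, 2), (15, 2), (17, 2), (19, 1), (32, 1), (37, 1), (42,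
    1), (44, 1)]) (.alt (.leaf [(0, 1), (1, 1), (11, 1), (13, 2), (15, 1), (17, 1), (19, 1),
    (27, 1), (38, 1)]) (.alt (.leaf [(0, 1), (1, 1), (11, 1), (13, 2), (15, 2), (17, 1), (31,
    1), (34, 1)]) (.alt (.leaf [(1, 1), (19, 1)]) (.done))))))))) (.alt (.leaf [(0, 2), (12, 2),
    (14, 2), (16, 1), (18, 1), (29, 1), (38, 1), (42, 1), (46, 1)]) (.alt (.leaf [(1, 1), (18,
    1), (20, 1)]) (.done))))))))

/-- Class (1, 0, 1). -/
def Z1.T5 : Tree :=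
  .split 4 [0, 0, 1, 0] (.alt (.leaf [(0, 1), (40, 1)]) (.alt (.leaf [(0, 1), (13, 2), (15, 2),
    (40, 1)]) (.alt (.leaf [(0, 1), (12, 1), (14, 1), (16, 1), (18, 1), (35, 1), (43, 1)]) (.alt
    (.leaf [(0, 1), (12, 1), (14, 1), (16, 1), (32, 1), (41, 1)]) (.alt (.split 3 [0, 1, 0, 0]
    (.alt (.leaf [(0, 1), (10, 1), (40, 1)]) (.alt (.leaf [(0, 1), (10, 1), (14, 2), (40, 1)])
    (.alt (.split 3 [1, 0, 1, -1] (.alt (.split 4 [1, 0, 1, -1] (.alt (.leaf [(0, 2), (12, 1),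
    (16, 1), (42, 1), (43, 1)]) (.alt (.leaf [(0, 3), (1, 1), (16, 5), (18, 5), (43, 4)]) (.alt
    (.leaf [(0, 4), (2, 2), (13, 2), (15, 4), (17, 4), (19, 4), (21, 4), (23, 2), (38, 3), (39,
    1)]) (.alt (.leaf [(0, 2), (15, 1), (17, 1), (19, 1), (22, 1), (35, 1)]) (.alt (.leaf [(0,
    2), (15, 1), (17, 1), (19, 1), (25, 1), (36, 1)]) (.alt (.leaf [(0, 4), (15, 2), (17, 2),
    (19, 2), (21, 2), (24, 2), (38, 1), (39, 1), (49, 2)]) (.alt (.leaf [(1, 1), (6, 1), (17,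
    1), (21, 1), (47, 1)]) (.done))))))))) (.alt (.leaf [(0, 2), (11, 1), (15, 3), (17, 2), (41,
    1), (42, 1)]) (.alt (.leaf [(0, 4), (1, 2), (12, 6), (14, 4), (16, 4), (18, 4), (20, 4),
    (22, 2), (37, 3), (38, 1)]) (.alt (.leaf [(0, 2), (12, 2), (14, 1), (16, 1), (18, 1), (21,
    1), (34, 1)]) (.alt (.leaf [(0, 2), (12, 2), (14, 1), (16, 1), (18, 1), (24, 1), (35, 1)])
    (.alt (.leaf [(0, 2), (12, 2), (14, 1), (16, 1), (18, 1), (23, 1), (36, 1)]) (.alt (.leaf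
    [(1, 2), (18, 1), (20, 1), (22, 1)]) (.done))))))))) (.alt (.leaf [(0, 2), (11, 2), (13, 2),
    (15, 2), (17, 2), (19, 2), (36, 1), (37, 1), (42, 2), (44, 2)]) (.alt (.leaf [(0, 1), (1,
    1), (11, 1), (13, 2), (15, 1), (17, 1), (19, 1), (27, 1), (38, 1)]) (.alt (.leaf [(0, 1),
    (11, 1), (13, 1), (15, 1), (17, 1), (34, 1), (49, 1)]) (.alt (.leaf [(1, 1), (19, 1)])
    (.done))))))))) (.alt (.leaf [(0, 1), (12, 1), (14, 1), (16, 1), (18, 1), (38, 1), (44, 1)])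
    (.alt (.leaf [(1, 1), (18, 1), (20, 1)]) (.done))))))))

/-- Class (0, 1, 1). -/
def Z1.T6 : Tree :=
  .split 4 [0, 0, 1, 0] (.alt (.leaf [(0, 1), (40, 1)]) (.alt (.leaf [(0, 1), (13, 2), (15, 2),
    (40, 1)]) (.alt (.leaf [(0, 1), (12, 1), (14, 1), (16, 1), (18, 1), (35, 1), (43, 1)]) (.alt
    (.leaf [(0, 1), (12, 1), (14, 1), (16, 1), (32, 1), (41, 1)]) (.alt (.split 3 [0, 1, 0, 0]
    (.alt (.leaf [(0, 1), (10, 1), (40, 1)]) (.alt (.leaf [(0, 1), (10, 1), (14, 2), (40, 1)])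
    (.alt (.split 5 [1, 1, 1, -1] (.alt (.split 5 [] (.alt (.leaf [(0, 2), (2, 2), (13, 2), (15,
    2), (17, 4), (19, 2), (21, 2), (30, 2), (38, 1), (39, 1)]) (.alt (.split 4 [0, 0, 0, 1]
    (.alt (.leaf [(0, 1), (2, 1), (44, 1)]) (.alt (.leaf [(0, 2), (13, 1), (17, 5), (19, 3),
    (43, 1), (44, 2)]) (.alt (.split 4 [0, 1, 0, -1] (.alt (.leaf [(0, 2), (14, 1), (18, 3),
    (20, 3), (44, 1), (45, 2)]) (.alt (.leaf [(0, 2), (16, 1), (18, 1), (45, 1)]) (.alt (.leaf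
    [(0, 1), (1, 1), (17, 2), (19, 2), (21, 2), (23, 1), (37, 1), (40, 1)]) (.alt (.leaf [(0,
    4), (4, 4), (15, 4), (17, 6), (19, 4), (21, 4), (23, 4), (24, 2), (29, 2), (40, 3), (41,
    1)]) (.alt (.leaf [(0, 4), (5, 4), (17, 6), (19, 4), (21, 4), (23, 4), (27, 2), (31, 2),
    (40, 1), (41, 1), (42, 2)]) (.alt (.split 4 [0, 0, 1, -1] (.alt (.leaf [(0, 2), (15, 1),
    (19, 3), (21, 1), (45, 1), (46, 2)]) (.alt (.leaf [(0, 2), (17, 1), (19, 1), (21, 2), (46,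
    1)]) (.alt (.leaf [(0, 3), (1, 2), (2, 3), (18, 7), (20, 6), (22, 6), (24, 4), (27, 1), (32,
    1), (39, 2), (41, 3), (44, 1), (49, 3)]) (.alt (.split 3 [0, 1, 1, -1] (.alt (.split 4 [0,
    1, 1, -1] (.alt (.leaf [(0, 1), (1, 1), (17, 2), (21, 1), (47, 2), (48, 1)]) (.alt (.leaf
    [(0, 3), (1, 1), (21, 5), (23, 4), (48, 3)]) (.alt (.leaf [(0, 1), (2, 1), (20, 2), (22, 2),
    (24, 2), (26, 1), (40, 1), (43, 1)]) (.alt (.leaf [(0, 6), (3, 2), (5, 3), (20, 4), (22, 6),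
    (24, 6), (26, 4), (27, 3), (29, 1), (34, 1), (41, 2), (44, 3), (46, 1)]) (.alt (.leaf [(0,
    1), (3, 1), (20, 2), (22, 1), (24, 1), (34, 1), (41, 1)]) (.alt (.leaf [(0, 2), (8, 1), (20,
    2), (22, 2), (24, 2), (26, 1), (29, 1), (41, 1), (46, 1)]) (.done)))))))) (.alt (.leaf [(0,
    2), (16, 1), (20, 3), (22, 1), (46, 1)]) (.alt (.leaf [(0, 1), (1, 1), (17, 1), (19, 2),
    (21, 2), (23, 2), (25, 1), (39, 1), (42, 1)]) (.alt (.leaf [(0, 6), (2, 2), (4, 3), (17, 6),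
    (19, 4), (21, 6), (23, 6), (25, 4), (26, 3), (28, 1), (33, 1), (40, 2), (43, 3), (45, 1)])
    (.alt (.leaf [(0, 1), (2, 1), (17, 1), (19, 2), (21, 1), (23, 1), (33, 1), (40, 1)]) (.alt
    (.leaf [(0, 2), (7, 1), (17, 2), (19, 2), (21, 2), (23, 2), (25, 1), (28, 1), (40, 1), (45,
    1)]) (.done)))))))) (.alt (.leaf [(0, 1), (1, 1), (18, 2), (20, 2), (22, 1), (36, 1), (39,
    1)]) (.alt (.leaf [(0, 4), (6, 4), (18, 6), (20, 4), (22, 4), (24, 4), (27, 2), (32, 2),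
    (41, 1), (42, 1), (43, 2)]) (.done)))))))) (.alt (.leaf [(0, 2), (19, 1), (23, 1), (25, 1),
    (49, 1)]) (.done))))))))) (.alt (.leaf [(0, 4), (1, 2), (16, 2), (18, 4), (20, 4), (22, 4),
    (24, 2), (39, 1), (40, 3)]) (.alt (.split 4 [0, 0, 1, -1] (.alt (.leaf [(0, 2), (14, 1),
    (18, 3), (20, 1), (44, 1), (45, 2)]) (.alt (.leaf [(0, 2), (16, 1), (18, 1), (20, 2), (45,
    1)]) (.alt (.leaf [(0, 4), (4, 4), (15, 4), (17, 6), (19, 4), (21, 4), (23, 4), (25, 2),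
    (29, 2), (40, 3), (41, 1)]) (.alt (.split 3 [0, 1, 1, -1] (.alt (.split 4 [0, 1, 1, -1]
    (.alt (.leaf [(0, 1), (1, 1), (16, 2), (20, 1), (46, 2), (47, 1)]) (.alt (.leaf [(0, 3), (1,
    1), (20, 5), (22, 4), (47, 3)]) (.alt (.leaf [(0, 1), (2, 1), (19, 2), (21, 2), (23, 2),
    (25, 1), (39, 1), (42, 1)]) (.alt (.leaf [(0, 4), (4, 2), (19, 2), (21, 4), (23, 4), (25,
    4), (26, 2), (42, 1), (43, 3)]) (.alt (.leaf [(0, 1), (3, 1), (19, 2), (21, 1), (23, 1),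
    (25, 1), (33, 1), (44, 1)]) (.alt (.leaf [(0, 1), (2, 2), (3, 1), (4, 1), (19, 2), (21, 3),
    (23, 3), (25, 1), (26, 1), (28, 1), (39, 2), (42, 1)]) (.done)))))))) (.alt (.leaf [(0, 2),
    (15, 1), (19, 3), (21, 1), (45, 1)]) (.alt (.leaf [(0, 1), (1, 1), (16, 1), (18, 2), (20,
    2), (22, 2), (24, 1), (38, 1), (41, 1)]) (.alt (.leaf [(0, 4), (3, 2), (16, 4), (18, 2),
    (20, 4), (22, 4), (24, 4), (25, 2), (41, 1), (42, 3)]) (.alt (.leaf [(0, 1), (2, 1), (16,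
    1), (18, 2), (20, 1), (22, 1), (24, 1), (32, 1), (43, 1)]) (.alt (.leaf [(0, 2), (2, 2),
    (16, 2), (18, 2), (20, 2), (22, 2), (24, 2), (27, 2), (41, 1), (42, 1)]) (.done))))))))
    (.alt (.leaf [(0, 1), (1, 1), (17, 2), (19, 2), (21, 1), (23, 1), (35, 1), (42, 1)]) (.alt
    (.leaf [(0, 1), (1, 1), (17, 1), (19, 1), (21, 1), (23, 1), (26, 1), (42, 1), (51, 1)])
    (.done)))))))) (.alt (.leaf [(0, 2), (4, 1), (16, 2), (18, 2), (20, 2), (22, 1), (26, 1),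
    (37, 1), (42, 1)]) (.alt (.leaf [(1, 2), (18, 1), (22, 3), (24, 1), (48, 1)])
    (.done))))))))) (.alt (.leaf [(0, 2), (3, 2), (15, 2), (17, 4), (19, 4), (21, 2), (36, 2),
    (38, 1), (39, 1)]) (.alt (.split 4 [0, 0, 0, 1] (.alt (.leaf [(0, 1), (2, 1), (44, 1)])
    (.alt (.leaf [(0, 2), (13, 1), (17, 5), (19, 3), (43, 1), (44, 2)]) (.alt (.split 4 [0, 1,
    0, -1] (.alt (.leaf [(0, 2), (14, 1), (18, 3), (20, 3), (44, 1), (45, 2)]) (.alt (.leaf [(0,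
    2), (16, 1), (18, 1), (45, 1)]) (.alt (.leaf [(0, 1), (1, 1), (17, 2), (19, 2), (21, 2),
    (23, 1), (37, 1), (40, 1)]) (.alt (.leaf [(0, 2), (4, 1), (15, 1), (17, 2), (19, 1), (21,
    1), (24, 1), (29, 1), (36, 1)]) (.alt (.leaf [(0, 4), (5, 4), (17, 6), (19, 4), (21, 4),
    (23, 4), (27, 2), (31, 2), (40, 1), (41, 1), (42, 2)]) (.alt (.split 3 [0, 1, 1, -1] (.alt
    (.split 4 [0, 1, 1, -1] (.alt (.leaf [(0, 1), (1, 1), (16, 2), (20, 1), (46, 2), (47, 1)])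
    (.alt (.leaf [(0, 3), (1, 1), (20, 5), (22, 4), (47, 3)]) (.alt (.leaf [(0, 1), (3, 1), (19,
    2), (21, 1), (23, 1), (25, 1), (31, 1), (42, 1)]) (.alt (.leaf [(0, 1), (3, 1), (6, 1), (17,
    1), (19, 2), (21, 2), (23, 2), (25, 1), (26, 1), (39, 1), (42, 1)]) (.alt (.leaf [(0, 1),
    (2, 1), (19, 2), (21, 2), (23, 1), (25, 1), (37, 1), (44, 1)]) (.alt (.leaf [(0, 4), (4, 2),
    (19, 2), (21, 4), (23, 4), (25, 4), (28, 2), (42, 1), (43, 1), (45, 2)]) (.done))))))))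
    (.alt (.leaf [(0, 2), (15, 1), (19, 3), (21, 1), (45, 1)]) (.alt (.leaf [(0, 1), (2, 1),
    (16, 1), (18, 2), (20, 1), (22, 1), (24, 1), (30, 1), (41, 1)]) (.alt (.leaf [(0, 2), (2,
    2), (16, 2), (18, 2), (20, 2), (22, 2), (24, 2), (25, 2), (41, 1), (42, 1)]) (.alt (.leaf
    [(0, 1), (1, 1), (16, 1), (18, 2), (20, 2), (22, 1), (24, 1), (36, 1), (43, 1)]) (.alt
    (.leaf [(0, 4), (3, 2), (16, 4), (18, 2), (20, 4), (22, 4), (24, 4), (27, 2), (41, 1), (42,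
    1), (44, 2)]) (.done)))))))) (.alt (.leaf [(0, 2), (19, 1), (23, 1), (25, 1), (49, 1)])
    (.done))))))))) (.alt (.leaf [(0, 2), (3, 3), (14, 3), (16, 4), (18, 4), (20, 3), (22, 1),
    (24, 1), (31, 1), (36, 2), (39, 1)]) (.alt (.split 4 [0, 0, 1, -1] (.alt (.leaf [(0, 2),
    (14, 1), (18, 3), (20, 1), (44, 1), (45, 2)]) (.alt (.leaf [(0, 2), (16, 1), (18, 1), (20,
    2), (45, 1)]) (.alt (.leaf [(0, 4), (4, 4), (15, 4), (17, 6), (19, 4), (21, 4), (23, 4),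
    (25, 2), (29, 2), (40, 3), (41, 1)]) (.alt (.split 4 [0, 1, 0, -1] (.alt (.leaf [(0, 2),
    (15, 1), (19, 3), (21, 3), (45, 1), (46, 2)]) (.alt (.leaf [(0, 2), (17, 1), (19, 1), (46,
    1)]) (.alt (.leaf [(0, 1), (1, 1), (18, 2), (20, 2), (22, 1), (33, 1), (38, 1)]) (.alt
    (.leaf [(0, 4), (5, 4), (16, 4), (18, 6), (20, 4), (22, 4), (24, 4), (25, 2), (30, 2), (41,
    3), (42, 1)]) (.alt (.leaf [(0, 2), (2, 2), (6, 2), (18, 6), (20, 4), (22, 4), (24, 4), (32,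
    2), (41, 1), (42, 1), (43, 2)]) (.alt (.split 3 [0, 1, 1, -1] (.alt (.split 4 [0, 1, 1, -1]
    (.alt (.leaf [(0, 1), (1, 1), (17, 2), (21, 1), (47, 2), (48, 1)]) (.alt (.leaf [(0, 3), (1,
    1), (21, 5), (23, 4), (48, 3)]) (.alt (.leaf [(0, 1), (3, 1), (20, 2), (22, 2), (24, 2),
    (26, 1), (40, 1), (43, 1)]) (.alt (.leaf [(0, 2), (7, 1), (18, 1), (20, 2), (22, 2), (24,
    1), (26, 1), (27, 1), (35, 1), (44, 1)]) (.alt (.leaf [(0, 1), (2, 1), (20, 2), (22, 2),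
    (24, 1), (26, 1), (38, 1), (45, 1)]) (.alt (.leaf [(0, 4), (5, 2), (20, 2), (22, 4), (24,
    4), (26, 4), (29, 2), (43, 1), (44, 1), (46, 2)]) (.done)))))))) (.alt (.leaf [(0, 2), (16,
    1), (20, 3), (22, 1), (46, 1)]) (.alt (.leaf [(0, 1), (2, 1), (17, 1), (19, 2), (21, 2),
    (23, 2), (25, 1), (39, 1), (42, 1)]) (.alt (.leaf [(0, 2), (6, 1), (17, 3), (19, 2), (21,
    2), (23, 1), (25, 1), (26, 1), (34, 1), (43, 1)]) (.alt (.leaf [(0, 1), (1, 1), (17, 1),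
    (19, 2), (21, 2), (23, 1), (25, 1), (37, 1), (44, 1)]) (.alt (.leaf [(0, 4), (4, 2), (17,
    4), (19, 2), (21, 4), (23, 4), (25, 4), (28, 2), (42, 1), (43, 1), (45, 2)]) (.done))))))))
    (.alt (.leaf [(4, 1), (7, 1), (11, 1), (23, 2), (25, 1), (27, 1), (29, 1), (37, 1), (48,
    1)]) (.done))))))))) (.alt (.leaf [(0, 1), (1, 1), (17, 2), (19, 2), (21, 1), (23, 1), (35,
    1), (42, 1)]) (.alt (.leaf [(0, 4), (5, 4), (17, 6), (19, 4), (21, 4), (23, 4), (26, 2),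
    (31, 2), (40, 1), (41, 1), (42, 2)]) (.done)))))))) (.alt (.leaf [(0, 2), (1, 1), (3, 2),
    (4, 1), (14, 2), (16, 4), (18, 5), (20, 4), (22, 2), (26, 1), (34, 1), (36, 2), (39, 2)])
    (.alt (.leaf [(1, 2), (18, 1), (22, 3), (24, 1), (48, 1)]) (.done))))))))) (.done))))))
    (.alt (.leaf [(0, 2), (13, 1), (15, 7), (17, 4), (42, 3)]) (.alt (.leaf [(0, 2), (1, 1),
    (12, 1), (16, 2), (18, 1), (20, 1), (22, 1), (29, 1), (37, 1)]) (.alt (.leaf [(0, 2), (1,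
    1), (12, 1), (16, 1), (18, 1), (21, 1), (26, 1), (34, 1)]) (.alt (.leaf [(0, 2), (2, 1),
    (16, 2), (18, 2), (20, 1), (24, 1), (35, 1), (39, 1)]) (.alt (.leaf [(0, 2), (2, 1), (16,
    1), (23, 1), (28, 1), (32, 1)]) (.alt (.leaf [(1, 2), (18, 1), (20, 3), (22, 2), (47, 1)])
    (.done))))))))) (.alt (.leaf [(0, 2), (11, 2), (13, 2), (15, 2), (17, 2), (19, 1), (32, 1),
    (37, 1), (42, 1), (44, 1)]) (.alt (.leaf [(0, 1), (1, 1), (11, 1), (13, 2), (15, 1), (17,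
    1), (19, 1), (27, 1), (38, 1)]) (.alt (.leaf [(0, 1), (1, 1), (11, 1), (13, 2), (15, 2),
    (17, 1), (31, 1), (34, 1)]) (.alt (.leaf [(1, 1), (19, 1)]) (.done))))))))) (.alt (.leaf
    [(0, 2), (12, 2), (14, 2), (16, 2), (18, 2), (35, 1), (36, 1), (42, 2), (46, 2)]) (.alt
    (.leaf [(1, 1), (18, 1), (20, 1)]) (.done))))))))

/-- Class (1, 1, 1). -/
def Z1.T7 : Tree :=
  .split 3 [1, 1, 1, -1] (.alt (.split 4 [1, 1, 1, -1] (.alt (.leaf [(0, 2), (10, 1), (40, 1),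
    (41, 1)]) (.alt (.leaf [(0, 3), (1, 1), (14, 6), (16, 5), (41, 4)]) (.alt (.leaf [(0, 2),
    (13, 1), (15, 1), (17, 1), (19, 1), (21, 1), (36, 1)]) (.alt (.leaf [(0, 2), (13, 1), (15,
    1), (17, 1), (19, 1), (20, 1), (37, 1)]) (.alt (.leaf [(0, 2), (13, 1), (15, 1), (17, 1),
    (19, 1), (23, 1), (38, 1)]) (.alt (.leaf [(0, 2), (13, 1), (15, 1), (17, 1), (19, 1), (22,
    1), (39, 1)]) (.alt (.leaf [(1, 1), (6, 1), (15, 1), (19, 1), (45, 1)]) (.done)))))))))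
    (.alt (.leaf [(0, 2), (9, 1), (13, 4), (15, 2), (39, 1), (40, 1)]) (.alt (.leaf [(0, 2),
    (10, 2), (12, 1), (14, 1), (16, 1), (18, 1), (20, 1), (35, 1)]) (.alt (.leaf [(0, 2), (10,
    2), (12, 1), (14, 1), (16, 1), (18, 1), (19, 1), (36, 1)]) (.alt (.leaf [(0, 2), (10, 2),
    (12, 1), (14, 1), (16, 1), (18, 1), (22, 1), (37, 1)]) (.alt (.leaf [(0, 2), (10, 2), (12,
    1), (14, 1), (16, 1), (18, 1), (21, 1), (38, 1)]) (.alt (.leaf [(1, 2), (16, 1), (18, 2),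
    (20, 1)]) (.done))))))))

/-- The eight classes. -/
def Z1.T : ℕ → Tree
  | 0 => Z1.T0
  | 1 => Z1.T1
  | 2 => Z1.T2
  | 3 => Z1.T3
  | 4 => Z1.T4
  | 5 => Z1.T5
  | 6 => Z1.T6
  | 7 => Z1.T7
  | _ => .done

theorem Z1.chk : checkCls Z1.D 4 [(0, 0, 1), (0, 1, 1), (0, -1, 1)] Z1.T = true := by decide +kernel

/-- `z_1 = v + w`. -/
def Z1b.D : Data :=
  ⟨[none, none, none, none, some [0, 1, 1], some [1, 0, 0], some [1, 1, 0], some [1, 0, 1], some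
    [1, 1, 1]],
    sup, stdExt, []⟩

/-- Certificate. -/
def Z1b.T : Tree :=
  .split 3 [0, 0, 1] (.alt (.leaf [(0, 1), (13, 1)]) (.alt (.leaf [(0, 1), (13, 3), (15, 2)])
    (.alt (.leaf [(0, 1), (10, 1), (12, 1), (14, 1), (16, 1), (18, 1), (35, 1), (43, 1)]) (.alt
    (.leaf [(0, 1), (10, 1), (12, 1), (14, 1), (16, 1), (32, 1), (41, 1)]) (.alt (.split 5 []
    (.alt (.leaf [(0, 1), (1, 2), (11, 2), (13, 1), (15, 2), (17, 1), (22, 1), (31, 1), (34, 1),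
    (42, 1)]) (.alt (.split 3 [0, 1, 0] (.alt (.leaf [(0, 1), (15, 1), (17, 1)]) (.alt (.leaf
    [(0, 1), (15, 3), (17, 1)]) (.alt (.leaf [(0, 1), (1, 1), (12, 1), (16, 1), (18, 1), (21,
    1), (34, 1)]) (.alt (.leaf [(0, 1), (1, 1), (12, 1), (14, 1), (16, 2), (18, 2), (20, 2),
    (37, 1), (38, 1), (45, 1)]) (.alt (.leaf [(0, 1), (2, 1), (12, 2), (14, 2), (16, 1), (18,
    1), (20, 1), (28, 1), (39, 1)]) (.alt (.leaf [(0, 1), (2, 1), (12, 2), (14, 2), (16, 2),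
    (18, 1), (32, 1), (35, 1)]) (.alt (.leaf [(3, 1), (6, 1), (7, 2), (17, 2), (19, 1), (21, 2),
    (23, 1), (28, 1), (37, 1), (40, 1), (50, 1)]) (.done))))))))) (.alt (.leaf [(0, 2), (1, 2),
    (11, 2), (13, 2), (15, 4), (17, 4), (19, 2), (34, 2), (36, 1), (37, 1)]) (.alt (.leaf [(0,
    1), (1, 1), (11, 1), (15, 1), (22, 1), (31, 1)]) (.done)))))) (.alt (.leaf [(0, 2), (10, 2),
    (12, 2), (14, 2), (16, 2), (18, 2), (35, 1), (36, 1), (42, 2), (46, 2)]) (.alt (.leaf [(1,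
    1), (18, 1), (20, 1)]) (.done))))))))

theorem Z1b.chk : check Z1b.D.clause Z1b.T Z1b.D.base none = true := by decide +kernel

/-- `z_1 = w - v`; the point `z_0`. -/
def Z1c.D : Data :=
  ⟨[none, none, none, none, some [0, -1, 1], some [1, 0, 0], some [1, 1, 0], some [1, 0, 1], some
    [1, 1, 1]],
    sup, stdExt, []⟩

/-- Class (0, 0, 0). -/
def Z1c.T0 : Tree :=
  .split 2 [0, 0, 0, 1] (.alt (.leaf [(0, 2), (13, 1), (43, 1)]) (.alt (.leaf [(0, 2), (13, 3),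
    (43, 3)]) (.alt (.leaf [(0, 4), (8, 4), (10, 2), (12, 2), (14, 2), (16, 2), (18, 2), (19,
    2), (39, 1), (40, 1)]) (.alt (.leaf [(0, 4), (8, 4), (10, 2), (12, 2), (14, 2), (16, 2),
    (18, 2), (20, 2), (39, 1), (40, 1)]) (.alt (.leaf [(0, 4), (8, 4), (10, 2), (12, 2), (14,
    2), (16, 2), (18, 2), (21, 2), (39, 1), (40, 1)]) (.alt (.leaf [(0, 4), (8, 4), (10, 2),
    (12, 2), (14, 2), (16, 2), (18, 2), (22, 2), (39, 1), (40, 1)]) (.alt (.leaf [(1, 2), (18,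
    1), (48, 1)]) (.done))))))))

/-- Class (1, 0, 0). -/
def Z1c.T1 : Tree :=
  .split 4 [0, 0, 1, 0] (.alt (.leaf [(0, 1), (44, 1)]) (.alt (.leaf [(0, 1), (9, 2), (11, 1),
    (13, 3), (43, 2)]) (.alt (.leaf [(0, 1), (12, 1), (14, 1), (16, 1), (18, 1), (39, 1), (47,
    1)]) (.alt (.leaf [(0, 2), (12, 1), (14, 1), (16, 1), (18, 1), (24, 1), (40, 1), (45, 1)])
    (.alt (.split 2 [0, 1, 0, 0] (.alt (.leaf [(0, 1), (44, 1)]) (.alt (.leaf [(0, 1), (14, 2),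
    (44, 1)]) (.alt (.split 3 [1, 0, 0, -1] (.alt (.split 6 [0, 1, 1, 1] (.alt (.leaf [(0, 1),
    (1, 1), (12, 1), (46, 1)]) (.alt (.leaf [(0, 2), (12, 7), (14, 3), (16, 14), (46, 8)]) (.alt
    (.split 6 [0, 0, 1, 1] (.alt (.leaf [(0, 1), (2, 1), (13, 1), (17, 1), (47, 1)]) (.alt
    (.leaf [(0, 2), (13, 7), (15, 3), (17, 12), (47, 8)]) (.alt (.leaf [(0, 2), (3, 2), (12, 2),
    (14, 1), (16, 1), (20, 2), (22, 2), (23, 1), (32, 1), (43, 2)]) (.alt (.leaf [(0, 1), (1,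
    1), (20, 2), (22, 1), (40, 1), (43, 1)]) (.alt (.split 4 [0, 0, 0, 1] (.alt (.leaf [(0, 1),
    (3, 1), (14, 1), (18, 1), (48, 1)]) (.alt (.leaf [(0, 2), (14, 3), (16, 3), (18, 4), (48,
    4)]) (.alt (.leaf [(0, 4), (4, 4), (13, 4), (15, 2), (17, 4), (19, 4), (21, 4), (23, 4),
    (24, 2), (29, 2), (44, 3), (45, 1)]) (.alt (.leaf [(0, 1), (2, 1), (17, 1), (21, 1), (23,
    1), (33, 1), (44, 1)]) (.alt (.leaf [(0, 8), (4, 4), (5, 8), (13, 4), (17, 10), (19, 8),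
    (21, 8), (23, 8), (26, 4), (29, 2), (30, 4), (33, 2), (44, 3), (45, 1), (46, 4)]) (.alt
    (.leaf [(0, 2), (1, 2), (4, 1), (13, 1), (15, 1), (17, 2), (19, 1), (21, 3), (23, 2), (30,
    1), (35, 1), (41, 1), (44, 1), (46, 1)]) (.alt (.leaf [(1, 2), (19, 1), (21, 1), (23, 2),
    (53, 2)]) (.done))))))))) (.alt (.leaf [(0, 2), (3, 2), (4, 2), (12, 2), (14, 1), (16, 3),
    (18, 2), (20, 4), (22, 2), (26, 1), (34, 1), (40, 2), (43, 2)]) (.alt (.leaf [(1, 2), (18,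
    3), (20, 1), (22, 6), (52, 4)]) (.done))))))))) (.alt (.leaf [(0, 2), (2, 8), (11, 8), (13,
    7), (15, 3), (19, 2), (21, 2), (23, 1), (27, 4), (31, 3), (42, 2)]) (.alt (.split 6 [] (.alt
    (.leaf [(0, 1), (3, 1), (12, 1), (14, 1), (20, 1), (22, 1), (28, 1), (43, 1)]) (.alt (.leaf
    [(0, 2), (3, 2), (12, 2), (14, 2), (16, 2), (20, 2), (22, 2), (32, 2), (43, 1), (44, 1)])
    (.alt (.leaf [(0, 1), (3, 2), (4, 1), (12, 2), (14, 2), (16, 2), (18, 1), (20, 2), (22, 2),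
    (28, 1), (32, 1), (43, 1), (45, 1)]) (.alt (.split 4 [0, 1, 0, 1] (.alt (.leaf [(0, 1), (3,
    1), (14, 1), (48, 1)]) (.alt (.leaf [(0, 2), (14, 3), (16, 3), (18, 6), (48, 4)]) (.alt
    (.split 4 [0, 0, 0, 1] (.alt (.leaf [(0, 1), (4, 1), (15, 1), (19, 1), (49, 1)]) (.alt
    (.leaf [(0, 2), (15, 3), (17, 3), (19, 4), (49, 4)]) (.alt (.leaf [(0, 4), (5, 4), (14, 4),
    (16, 2), (18, 4), (20, 4), (22, 4), (24, 4), (25, 2), (30, 2), (45, 3), (46, 1)]) (.alt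
    (.leaf [(0, 4), (1, 4), (18, 6), (20, 4), (22, 4), (24, 4), (30, 2), (34, 2), (45, 3), (46,
    1)]) (.alt (.leaf [(0, 8), (5, 4), (6, 8), (14, 4), (18, 10), (20, 8), (22, 8), (24, 8),
    (27, 4), (30, 2), (31, 4), (34, 2), (45, 3), (46, 1), (47, 4)]) (.alt (.leaf [(0, 1), (3,
    1), (18, 1), (22, 1), (24, 1), (36, 1), (47, 1)]) (.alt (.leaf [(1, 2), (20, 1), (22, 1),
    (24, 2), (54, 2)]) (.done))))))))) (.alt (.leaf [(0, 2), (4, 1), (13, 1), (17, 2), (19, 2),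
    (21, 2), (23, 2), (25, 1), (44, 1), (45, 1), (52, 1)]) (.alt (.leaf [(0, 2), (1, 2), (4, 4),
    (13, 4), (15, 3), (17, 3), (21, 2), (23, 2), (26, 1), (29, 2), (33, 2), (35, 1), (44, 2)])
    (.alt (.leaf [(0, 4), (2, 2), (4, 4), (13, 4), (15, 3), (17, 3), (21, 2), (23, 2), (27, 1),
    (29, 2), (30, 2), (33, 2), (35, 1), (44, 2)]) (.alt (.leaf [(1, 2), (19, 1), (21, 1), (23,
    4), (53, 2)]) (.done))))))))) (.done)))))) (.alt (.leaf [(0, 2), (2, 4), (3, 3), (11, 4),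
    (13, 3), (15, 3), (17, 1), (19, 2), (21, 2), (25, 1), (27, 2), (28, 1), (31, 2), (37, 1),
    (42, 2)]) (.alt (.leaf [(3, 2), (7, 4), (16, 4), (18, 3), (20, 1), (28, 1), (32, 2), (36,
    1)]) (.done))))))))) (.alt (.leaf [(0, 2), (11, 3), (13, 1), (15, 2), (45, 2)]) (.alt (.leaf
    [(0, 4), (1, 4), (10, 4), (12, 6), (14, 4), (16, 4), (18, 4), (20, 4), (22, 2), (26, 2),
    (41, 3), (42, 1)]) (.alt (.leaf [(0, 2), (12, 1), (14, 1), (21, 1), (30, 1)]) (.alt (.leaf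
    [(0, 2), (1, 2), (2, 2), (10, 2), (12, 3), (14, 3), (16, 2), (18, 2), (20, 2), (24, 1), (26,
    1), (27, 1), (30, 1), (41, 1), (43, 1)]) (.alt (.leaf [(0, 2), (12, 1), (14, 1), (23, 1),
    (32, 1)]) (.alt (.leaf [(1, 2), (16, 1), (20, 1), (51, 1)]) (.done))))))))) (.alt (.leaf
    [(0, 1), (9, 1), (11, 1), (13, 1), (15, 1), (17, 1), (19, 1), (41, 1), (50, 1)]) (.alt
    (.leaf [(0, 1), (1, 1), (9, 1), (11, 1), (13, 2), (15, 1), (17, 1), (19, 1), (31, 1), (42,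
    1)]) (.alt (.leaf [(0, 2), (9, 2), (11, 2), (13, 1), (15, 1), (17, 1), (19, 1), (26, 1),
    (43, 1), (47, 1)]) (.alt (.leaf [(1, 1), (19, 1)]) (.done))))))))) (.alt (.leaf [(0, 2),
    (12, 2), (14, 2), (16, 2), (18, 2), (39, 1), (40, 1), (46, 2), (50, 2)]) (.alt (.leaf [(1,
    1), (14, 1), (18, 2), (48, 1)]) (.done))))))))

/-- Class (0, 1, 0). -/
def Z1c.T2 : Tree :=
  .split 2 [0, 0, 0, 1] (.alt (.leaf [(0, 2), (43, 1)]) (.alt (.leaf [(0, 2), (13, 4), (43, 3)])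
    (.alt (.split 6 [] (.alt (.leaf [(0, 1), (1, 2), (9, 2), (11, 1), (17, 1), (19, 1), (20, 1),
    (25, 1), (40, 1)]) (.alt (.leaf [(0, 1), (1, 6), (9, 6), (11, 3), (13, 2), (17, 1), (19, 1),
    (20, 3), (25, 1), (29, 2), (40, 1)]) (.alt (.leaf [(0, 1), (1, 4), (9, 4), (11, 2), (13, 1),
    (17, 1), (19, 1), (20, 2), (25, 1), (29, 1), (40, 1), (49, 1)]) (.alt (.split 7 [] (.alt
    (.leaf [(0, 1), (2, 6), (10, 6), (12, 3), (14, 2), (16, 1), (18, 1), (20, 2), (21, 3), (26,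
    1), (30, 1), (41, 2)]) (.alt (.split 4 [0, 0, 1, 0] (.alt (.leaf [(0, 1), (47, 1)]) (.alt
    (.leaf [(0, 1), (12, 2), (14, 1), (16, 3), (46, 2)]) (.alt (.leaf [(0, 1), (3, 2), (11, 2),
    (13, 1), (15, 2), (17, 1), (19, 1), (21, 1), (22, 1), (31, 1), (42, 1)]) (.alt (.leaf [(0,
    1), (1, 1), (3, 8), (11, 8), (13, 4), (15, 2), (21, 1), (22, 4), (27, 3), (31, 2), (42, 1)])
    (.alt (.split 6 [0, 1, -1, -1] (.alt (.leaf [(0, 2), (13, 6), (15, 2), (17, 10), (47, 7)])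
    (.alt (.leaf [(0, 2), (13, 2), (15, 2), (17, 2), (47, 1)]) (.alt (.leaf [(0, 2), (4, 2),
    (12, 2), (14, 2), (20, 2), (22, 2), (28, 2), (43, 1), (44, 1)]) (.alt (.leaf [(0, 1), (4,
    3), (12, 3), (14, 1), (16, 1), (20, 1), (22, 1), (23, 2), (32, 1), (43, 1)]) (.alt (.leaf
    [(0, 2), (1, 2), (3, 1), (4, 12), (12, 12), (14, 5), (16, 4), (20, 3), (22, 3), (23, 6),
    (26, 1), (28, 3), (32, 3), (34, 1), (43, 3)]) (.alt (.split 2 [0, 1, 0, -1] (.alt (.leaf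
    [(0, 2), (18, 2), (48, 3)]) (.alt (.leaf [(0, 2), (18, 2), (48, 1)]) (.alt (.leaf [(0, 3),
    (3, 1), (5, 3), (13, 6), (15, 6), (17, 4), (23, 1), (29, 2), (32, 1), (33, 3), (44, 1)])
    (.alt (.leaf [(0, 24), (1, 4), (3, 6), (13, 24), (15, 10), (17, 4), (21, 4), (23, 10), (24,
    12), (26, 2), (28, 3), (30, 3), (32, 3), (35, 1), (45, 9), (46, 1)]) (.alt (.leaf [(0, 2),
    (4, 1), (5, 4), (13, 6), (15, 3), (17, 2), (21, 1), (23, 1), (24, 2), (27, 1), (29, 1), (33,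
    1), (35, 1), (44, 1)]) (.alt (.leaf [(0, 2), (2, 1), (3, 1), (5, 6), (13, 8), (15, 4), (17,
    2), (23, 1), (24, 3), (26, 1), (29, 2), (30, 1), (33, 2), (44, 1)]) (.alt (.leaf [(3, 1),
    (10, 1), (18, 1), (29, 1)]) (.done))))))))) (.alt (.leaf [(4, 2), (6, 2), (8, 1), (9, 4),
    (17, 4), (19, 1), (21, 2), (25, 1), (27, 1), (28, 2), (31, 1), (33, 1), (37, 1), (39, 1),
    (48, 1)]) (.done))))))))) (.alt (.leaf [(0, 1), (1, 1), (2, 1), (3, 6), (11, 6), (13, 3),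
    (15, 2), (19, 1), (21, 2), (22, 3), (27, 2), (31, 2), (42, 1), (45, 1)]) (.alt (.leaf [(5,
    1), (7, 1), (8, 4), (16, 4), (18, 2), (20, 1), (24, 1), (26, 1), (27, 2), (32, 1), (36, 1),
    (47, 1), (60, 1)]) (.done))))))))) (.alt (.leaf [(0, 1), (1, 1), (2, 2), (10, 2), (12, 1),
    (18, 1), (20, 1), (21, 1), (27, 1), (38, 1), (41, 1)]) (.alt (.leaf [(0, 1), (2, 4), (10,
    4), (12, 2), (14, 1), (20, 1), (21, 2), (26, 1), (30, 1), (41, 1), (52, 1)]) (.done))))))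
    (.done)))))) (.alt (.leaf [(0, 4), (8, 4), (10, 2), (12, 1), (14, 1), (16, 1), (18, 1), (20,
    2), (23, 1), (40, 1), (45, 1)]) (.alt (.leaf [(0, 2), (8, 2), (10, 1), (12, 1), (14, 1),
    (16, 1), (18, 1), (21, 1), (41, 1), (50, 1)]) (.alt (.leaf [(0, 4), (8, 4), (10, 2), (12,
    1), (14, 1), (16, 1), (18, 1), (22, 2), (25, 1), (42, 1), (46, 1)]) (.alt (.leaf [(1, 2),
    (18, 2), (48, 1)]) (.done))))))))

/-- Class (0, 0, 1). -/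
def Z1c.T3 : Tree :=
  .split 3 [0, 0, 1, -1] (.alt (.leaf [(0, 2), (9, 1), (13, 1), (43, 2)]) (.alt (.leaf [(0, 2),
    (9, 3), (13, 3), (43, 2)]) (.alt (.leaf [(0, 2), (10, 1), (12, 1), (14, 1), (16, 1), (18,
    1), (20, 1), (39, 1), (47, 1)]) (.alt (.leaf [(0, 4), (10, 2), (12, 1), (14, 1), (16, 1),
    (18, 1), (19, 2), (24, 1), (40, 1), (45, 1)]) (.alt (.split 7 [] (.alt (.leaf [(0, 1), (1,
    4), (11, 2), (13, 1), (19, 1), (23, 2), (26, 1), (31, 1), (42, 1), (50, 1)]) (.alt (.split 4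
    [0, 0, 0, 1] (.alt (.leaf [(0, 2), (11, 1), (15, 1), (46, 2)]) (.alt (.leaf [(0, 2), (13,
    2), (15, 2), (17, 3), (45, 1)]) (.alt (.leaf [(0, 2), (1, 1), (2, 4), (12, 1), (14, 2), (20,
    1), (21, 1), (24, 2), (27, 1), (30, 1), (32, 1), (43, 1)]) (.alt (.leaf [(0, 4), (2, 4),
    (14, 2), (16, 1), (18, 1), (20, 1), (22, 2), (24, 2), (26, 1), (27, 1), (32, 1), (43, 1),
    (47, 1), (53, 1)]) (.alt (.leaf [(0, 4), (2, 4), (12, 4), (14, 6), (16, 4), (18, 4), (20,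
    4), (27, 2), (32, 2), (41, 1), (42, 1), (43, 2)]) (.alt (.leaf [(0, 2), (2, 2), (14, 2),
    (16, 2), (18, 2), (20, 2), (24, 2), (41, 1), (42, 1)]) (.alt (.leaf [(1, 2), (16, 1), (20,
    3), (50, 2)]) (.done))))))))) (.alt (.leaf [(0, 1), (1, 2), (11, 1), (19, 1), (23, 1), (26,
    1), (42, 1)]) (.alt (.leaf [(0, 1), (1, 6), (11, 3), (13, 2), (19, 1), (23, 3), (26, 1),
    (31, 2), (42, 1)]) (.done)))))) (.alt (.leaf [(0, 2), (10, 1), (12, 1), (14, 1), (16, 1),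
    (18, 1), (21, 1), (42, 1), (48, 1)]) (.alt (.leaf [(1, 2), (14, 1), (18, 1)]) (.done))))))))

/-- Class (1, 1, 0). -/
def Z1c.T4 : Tree :=
  .split 4 [0, 0, 1, 0] (.alt (.leaf [(0, 1), (44, 1)]) (.alt (.leaf [(0, 1), (9, 2), (11, 1),
    (13, 3), (43, 2)]) (.alt (.leaf [(0, 1), (12, 1), (14, 1), (16, 1), (18, 1), (39, 1), (47,
    1)]) (.alt (.leaf [(0, 2), (12, 1), (14, 1), (16, 1), (18, 1), (24, 1), (40, 1), (45, 1)])
    (.alt (.split 2 [0, 1, 0, 0] (.alt (.leaf [(0, 1), (44, 1)]) (.alt (.leaf [(0, 1), (14, 2),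
    (44, 1)]) (.alt (.split 4 [0, 0, 0, 1] (.alt (.leaf [(0, 2), (11, 1), (46, 1)]) (.alt (.leaf
    [(0, 2), (11, 3), (13, 3), (15, 5), (45, 4)]) (.alt (.leaf [(0, 2), (1, 1), (10, 1), (14,
    1), (16, 1), (18, 1), (20, 1), (21, 1), (26, 1), (41, 1)]) (.alt (.leaf [(0, 2), (1, 3),
    (10, 3), (12, 2), (14, 3), (16, 1), (18, 1), (20, 1), (22, 1), (26, 1), (30, 2), (41, 1)])
    (.alt (.leaf [(0, 8), (1, 4), (2, 4), (10, 4), (14, 10), (16, 8), (18, 8), (20, 8), (23, 4),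
    (26, 2), (30, 2), (41, 3), (42, 1), (43, 4)]) (.alt (.split 7 [] (.alt (.leaf [(0, 8), (2,
    4), (11, 4), (13, 4), (15, 2), (21, 8), (26, 2), (30, 2), (42, 7), (43, 1)]) (.alt (.split 6
    [0, 0, 1, 1] (.alt (.leaf [(0, 2), (13, 1), (48, 1)]) (.alt (.leaf [(0, 2), (13, 7), (15,
    3), (17, 13), (47, 8)]) (.alt (.split 6 [0, 1, -1, -1] (.alt (.leaf [(0, 2), (14, 7), (16,
    3), (18, 11), (48, 8)]) (.alt (.leaf [(0, 2), (14, 1), (16, 1), (18, 1)]) (.alt (.leaf [(0,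
    1), (1, 1), (21, 2), (23, 1), (41, 1), (44, 1)]) (.alt (.leaf [(0, 4), (4, 6), (13, 6), (15,
    4), (17, 4), (19, 2), (21, 6), (23, 6), (24, 2), (33, 2), (44, 5), (45, 1)]) (.alt (.leaf
    [(0, 2), (4, 2), (5, 3), (13, 2), (15, 1), (17, 3), (21, 2), (23, 2), (27, 1), (29, 1), (33,
    1), (35, 2), (44, 1), (46, 1)]) (.alt (.leaf [(0, 1), (3, 1), (4, 2), (13, 2), (15, 2), (17,
    1), (21, 1), (23, 1), (29, 1), (30, 1), (33, 1), (44, 1)]) (.alt (.leaf [(3, 2), (7, 1), (9,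
    2), (18, 2), (20, 1), (22, 1), (28, 1), (29, 1), (38, 1), (49, 1)]) (.done))))))))) (.alt
    (.leaf [(0, 2), (3, 4), (12, 4), (14, 3), (16, 1), (20, 2), (22, 1), (24, 1), (28, 2), (32,
    1), (40, 1), (43, 1)]) (.alt (.leaf [(0, 2), (2, 2), (3, 2), (12, 2), (14, 2), (16, 2), (20,
    2), (22, 2), (28, 1), (29, 1), (32, 1), (34, 1), (43, 1), (45, 1)]) (.alt (.leaf [(0, 2),
    (3, 4), (4, 2), (12, 4), (14, 3), (16, 3), (18, 1), (20, 2), (22, 2), (26, 1), (28, 2), (32,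
    2), (38, 1), (43, 2)]) (.alt (.leaf [(1, 2), (18, 3), (20, 1), (22, 7), (52, 4)])
    (.done))))))))) (.alt (.leaf [(0, 1), (1, 2), (2, 2), (11, 2), (13, 1), (15, 1), (21, 1),
    (25, 1), (27, 1), (28, 1), (31, 1), (42, 1)]) (.alt (.leaf [(0, 1), (2, 2), (3, 1), (11, 2),
    (13, 2), (15, 2), (21, 1), (27, 1), (31, 1), (33, 1), (42, 1)]) (.done)))))) (.alt (.leaf
    [(1, 2), (16, 1), (18, 1), (20, 3), (50, 2)]) (.done))))))))) (.alt (.leaf [(0, 1), (9, 1),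
    (11, 1), (13, 1), (15, 1), (17, 1), (19, 1), (41, 1), (50, 1)]) (.alt (.leaf [(0, 1), (1,
    1), (9, 1), (11, 1), (13, 2), (15, 1), (17, 1), (19, 1), (31, 1), (42, 1)]) (.alt (.leaf
    [(0, 2), (1, 2), (9, 2), (11, 2), (13, 2), (15, 2), (17, 2), (19, 2), (26, 2), (40, 1), (41,
    1)]) (.alt (.leaf [(1, 1), (19, 1)]) (.done))))))))) (.alt (.leaf [(0, 1), (12, 1), (14, 1),
    (16, 1), (18, 1), (42, 1), (48, 1)]) (.alt (.leaf [(1, 1), (14, 1), (18, 2), (48, 1)])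
    (.done))))))))

/-- Class (1, 0, 1). -/
def Z1c.T5 : Tree :=
  .split 4 [0, 0, 1, 0] (.alt (.leaf [(0, 1), (44, 1)]) (.alt (.leaf [(0, 1), (9, 2), (11, 1),
    (13, 3), (43, 2)]) (.alt (.leaf [(0, 1), (12, 1), (14, 1), (16, 1), (18, 1), (39, 1), (47,
    1)]) (.alt (.leaf [(0, 2), (12, 1), (14, 1), (16, 1), (18, 1), (24, 1), (40, 1), (45, 1)])
    (.alt (.split 2 [0, 1, 0, 0] (.alt (.leaf [(0, 1), (44, 1)]) (.alt (.leaf [(0, 1), (14, 2),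
    (44, 1)]) (.alt (.split 4 [1, 0, 1, -1] (.alt (.leaf [(0, 2), (15, 1), (45, 1), (46, 1)])
    (.alt (.leaf [(0, 2), (11, 4), (13, 3), (15, 4), (45, 3)]) (.alt (.leaf [(0, 2), (1, 3),
    (10, 3), (12, 2), (14, 3), (16, 2), (18, 2), (20, 2), (22, 1), (26, 1), (30, 1), (41, 2)])
    (.alt (.leaf [(0, 2), (1, 1), (10, 1), (14, 1), (21, 1), (26, 1), (30, 1)]) (.alt (.split 6
    [] (.alt (.leaf [(0, 1), (2, 1), (11, 1), (13, 1), (19, 1), (21, 1), (27, 1), (42, 1)])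
    (.alt (.leaf [(0, 1), (2, 3), (11, 3), (13, 3), (15, 2), (19, 1), (21, 1), (27, 1), (31, 2),
    (42, 1)]) (.alt (.leaf [(0, 2), (3, 2), (15, 2), (17, 2), (19, 4), (21, 4), (42, 1), (43,
    1), (44, 2)]) (.alt (.leaf [(0, 1), (1, 2), (2, 2), (11, 2), (13, 1), (15, 1), (19, 1), (21,
    1), (25, 1), (27, 1), (28, 1), (31, 1), (42, 1)]) (.done)))))) (.alt (.leaf [(0, 2), (1, 2),
    (2, 1), (10, 2), (12, 1), (14, 3), (16, 1), (18, 1), (20, 1), (23, 1), (26, 1), (30, 1),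
    (32, 1), (41, 1)]) (.alt (.leaf [(1, 2), (16, 2), (18, 1), (20, 2), (50, 1)])
    (.done))))))))) (.alt (.leaf [(0, 1), (9, 1), (11, 1), (13, 1), (15, 1), (17, 1), (19, 1),
    (41, 1), (50, 1)]) (.alt (.leaf [(0, 1), (1, 1), (9, 1), (11, 1), (13, 2), (15, 1), (17, 1),
    (19, 1), (31, 1), (42, 1)]) (.alt (.leaf [(0, 2), (1, 2), (9, 2), (11, 2), (13, 2), (15, 2),
    (17, 2), (19, 2), (26, 2), (40, 1), (41, 1)]) (.alt (.leaf [(1, 1), (19, 1)])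
    (.done))))))))) (.alt (.leaf [(0, 1), (12, 1), (14, 1), (16, 1), (18, 1), (42, 1), (48, 1)])
    (.alt (.leaf [(1, 1), (14, 1), (18, 2), (48, 1)]) (.done))))))))

/-- Class (0, 1, 1). -/
def Z1c.T6 : Tree :=
  .split 2 [0, 0, 1, -1] (.alt (.split 3 [0, 0, 1, -1] (.alt (.leaf [(0, 2), (10, 1), (14, 2),
    (44, 2)]) (.alt (.leaf [(0, 2), (10, 3), (14, 2), (44, 2)]) (.alt (.leaf [(0, 4), (11, 2),
    (13, 2), (15, 2), (17, 2), (19, 2), (21, 2), (40, 1), (41, 1), (48, 2), (50, 2)]) (.alt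
    (.leaf [(0, 2), (11, 1), (20, 1), (25, 1)]) (.alt (.leaf [(0, 2), (11, 1), (23, 1), (26,
    1)]) (.alt (.leaf [(0, 4), (11, 2), (13, 2), (15, 2), (17, 2), (19, 2), (22, 2), (40, 1),
    (41, 1), (49, 2), (51, 2)]) (.alt (.leaf [(1, 1), (6, 1), (19, 1), (49, 1)]) (.done)))))))))
    (.alt (.leaf [(0, 2), (9, 1), (13, 2), (43, 2)]) (.alt (.leaf [(0, 4), (8, 4), (10, 2), (12,
    2), (14, 2), (16, 2), (18, 2), (20, 2), (39, 1), (40, 1), (47, 2), (49, 2)]) (.alt (.leaf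
    [(0, 2), (8, 2), (10, 1), (19, 1), (24, 1)]) (.alt (.leaf [(0, 2), (8, 2), (10, 1), (22, 1),
    (25, 1)]) (.alt (.leaf [(0, 4), (8, 4), (10, 2), (12, 2), (14, 2), (16, 2), (18, 2), (21,
    2), (39, 1), (40, 1), (48, 2), (50, 2)]) (.alt (.leaf [(1, 2), (14, 1)]) (.done))))))))

/-- Class (1, 1, 1). -/
def Z1c.T7 : Tree :=
  .split 4 [0, 0, 1, 0] (.alt (.leaf [(0, 1), (44, 1)]) (.alt (.leaf [(0, 1), (9, 2), (13, 4),
    (43, 2), (44, 1)]) (.alt (.leaf [(0, 1), (12, 1), (14, 1), (16, 1), (18, 1), (39, 1), (47,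
    1)]) (.alt (.leaf [(0, 2), (12, 1), (14, 1), (16, 1), (18, 1), (24, 1), (40, 1), (45, 1)])
    (.alt (.split 2 [0, 1, 0, 0] (.alt (.leaf [(0, 1), (44, 1)]) (.alt (.leaf [(0, 1), (14, 2),
    (44, 1)]) (.alt (.split 6 [0, 0, 0, 1] (.alt (.leaf [(0, 2), (11, 2), (15, 2), (45, 1), (46,
    1)]) (.alt (.leaf [(0, 2), (11, 6), (15, 14), (45, 7), (46, 3)]) (.alt (.split 4 [1, 1, 0,
    -1] (.alt (.leaf [(0, 2), (12, 2), (16, 4), (46, 3), (47, 1)]) (.alt (.leaf [(0, 2), (12,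
    2), (16, 4), (46, 1), (47, 3)]) (.alt (.leaf [(0, 1), (1, 1), (2, 3), (11, 3), (13, 3), (15,
    2), (17, 1), (19, 2), (21, 2), (27, 2), (31, 1), (42, 2)]) (.alt (.leaf [(0, 2), (2, 2),
    (11, 2), (13, 1), (15, 3), (17, 1), (19, 1), (21, 1), (22, 1), (31, 2), (42, 1)]) (.alt
    (.leaf [(0, 8), (2, 4), (3, 8), (11, 4), (15, 14), (17, 12), (19, 12), (21, 12), (25, 4),
    (27, 2), (31, 2), (42, 5), (43, 3), (44, 4)]) (.alt (.split 4 [0, 0, 1, -1] (.alt (.leaf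
    [(0, 2), (13, 2), (17, 6), (47, 3), (48, 3)]) (.alt (.leaf [(0, 2), (13, 2), (17, 2), (47,
    1), (48, 1)]) (.alt (.leaf [(0, 1), (2, 1), (3, 2), (12, 2), (14, 2), (16, 3), (18, 2), (20,
    3), (22, 2), (32, 1), (40, 1), (43, 2)]) (.alt (.leaf [(0, 2), (3, 2), (12, 2), (14, 1),
    (16, 1), (18, 1), (20, 1), (22, 1), (23, 1), (28, 2), (43, 1)]) (.alt (.leaf [(0, 1), (1,
    1), (16, 1), (29, 1), (34, 1)]) (.alt (.leaf [(0, 8), (3, 4), (4, 8), (12, 4), (16, 14),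
    (18, 12), (20, 12), (22, 12), (25, 4), (28, 2), (32, 2), (43, 5), (44, 3), (45, 4)]) (.alt
    (.leaf [(2, 1), (7, 1), (8, 1), (17, 1), (19, 1), (21, 1), (25, 1), (27, 1), (37, 1), (48,
    1)]) (.done))))))))) (.alt (.leaf [(2, 1), (6, 1), (7, 1), (16, 1), (18, 1), (24, 1), (26,
    1), (32, 1), (47, 1)]) (.done))))))))) (.alt (.leaf [(0, 2), (1, 3), (10, 3), (12, 2), (14,
    1), (18, 2), (20, 1), (22, 1), (26, 1), (30, 1), (38, 1), (41, 1)]) (.alt (.split 6 [] (.alt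
    (.leaf [(0, 1), (2, 1), (11, 1), (13, 1), (19, 1), (21, 1), (27, 1), (42, 1)]) (.alt (.leaf
    [(0, 1), (2, 3), (11, 3), (13, 3), (15, 2), (19, 1), (21, 1), (27, 1), (31, 2), (42, 1)])
    (.alt (.leaf [(0, 2), (3, 2), (15, 2), (17, 2), (19, 4), (21, 4), (42, 1), (43, 1), (44,
    2)]) (.alt (.split 4 [0, 0, 1, -1] (.alt (.leaf [(0, 2), (13, 2), (17, 6), (47, 3), (48,
    3)]) (.alt (.leaf [(0, 2), (13, 2), (17, 2), (47, 1), (48, 1)]) (.alt (.leaf [(0, 2), (3,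
    2), (12, 2), (14, 1), (16, 3), (18, 1), (20, 1), (22, 1), (24, 1), (32, 2), (43, 1)]) (.alt
    (.leaf [(0, 2), (3, 2), (12, 2), (14, 1), (16, 1), (18, 1), (20, 1), (22, 1), (23, 1), (28,
    2), (43, 1)]) (.alt (.leaf [(0, 2), (2, 2), (3, 2), (12, 2), (14, 2), (16, 2), (20, 2), (22,
    2), (28, 1), (29, 1), (32, 1), (34, 1), (43, 1), (45, 1)]) (.alt (.leaf [(0, 8), (3, 4), (4,
    8), (12, 4), (16, 14), (18, 12), (20, 12), (22, 12), (25, 4), (28, 2), (32, 2), (43, 5),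
    (44, 3), (45, 4)]) (.alt (.leaf [(5, 2), (6, 1), (8, 2), (9, 1), (17, 2), (19, 1), (21, 1),
    (25, 1), (27, 1), (30, 1), (33, 1), (37, 1), (48, 1)]) (.done))))))))) (.done)))))) (.alt
    (.leaf [(0, 2), (1, 2), (2, 1), (10, 2), (12, 1), (14, 1), (18, 1), (20, 1), (24, 1), (26,
    1), (30, 1), (36, 1), (41, 1)]) (.alt (.leaf [(1, 2), (16, 2), (20, 6), (50, 3), (51, 1)])
    (.done))))))))) (.alt (.leaf [(0, 1), (9, 1), (11, 1), (13, 1), (15, 1), (17, 1), (19, 1),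
    (41, 1), (50, 1)]) (.alt (.leaf [(0, 1), (1, 1), (9, 1), (11, 1), (13, 2), (15, 1), (17, 1),
    (19, 1), (31, 1), (42, 1)]) (.alt (.leaf [(0, 2), (1, 2), (9, 2), (11, 2), (13, 2), (15, 2),
    (17, 2), (19, 2), (26, 2), (40, 1), (41, 1)]) (.alt (.leaf [(1, 1), (19, 1)])
    (.done))))))))) (.alt (.leaf [(0, 1), (12, 1), (14, 1), (16, 1), (18, 1), (42, 1), (48, 1)])
    (.alt (.leaf [(1, 1), (14, 1), (18, 2), (48, 1)]) (.done))))))))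

/-- The eight classes. -/
def Z1c.T : ℕ → Tree
  | 0 => Z1c.T0
  | 1 => Z1c.T1
  | 2 => Z1c.T2
  | 3 => Z1c.T3
  | 4 => Z1c.T4
  | 5 => Z1c.T5
  | 6 => Z1c.T6
  | 7 => Z1c.T7
  | _ => .done

theorem Z1c.chk : checkCls Z1c.D 3 [] Z1c.T = true := by decide +kernel

/-- The point `z_0`. -/
def Z0.D : Data :=
  ⟨[none, none, none, none, some [0, 0, 1], some [1, 0, 0], some [1, 1, 0], some [1, 0, 1], some
    [1, 1, 1]],
    sup, stdExt, []⟩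

/-- Class (0, 0, 0). -/
def Z0.T0 : Tree :=
  .split 2 [0, 0, 0, 1] (.alt (.leaf [(0, 2), (13, 1), (43, 1)]) (.alt (.leaf [(0, 2), (13, 3),
    (43, 3)]) (.alt (.leaf [(0, 6), (8, 6), (10, 3), (12, 2), (14, 2), (16, 1), (18, 1), (19,
    3), (23, 1), (31, 1), (40, 1)]) (.alt (.leaf [(0, 4), (8, 4), (10, 2), (12, 2), (14, 2),
    (16, 2), (18, 2), (20, 2), (39, 1), (40, 1)]) (.alt (.leaf [(0, 6), (8, 6), (10, 3), (12,
    2), (14, 2), (16, 1), (18, 1), (21, 3), (23, 1), (31, 1), (40, 1)]) (.alt (.leaf [(0, 4),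
    (8, 4), (10, 2), (12, 2), (14, 2), (16, 2), (18, 2), (22, 2), (39, 1), (40, 1)]) (.alt
    (.leaf [(1, 2), (18, 1), (48, 1)]) (.done))))))))

/-- Class (1, 0, 0). -/
def Z0.T1 : Tree :=
  .split 4 [] (.alt (.leaf [(0, 1), (12, 1), (14, 1), (16, 1), (18, 1), (39, 1), (47, 1)]) (.alt
    (.leaf [(0, 1), (12, 1), (14, 1), (16, 1), (36, 1), (45, 1)]) (.alt (.split 2 [0, 1, 0, 0]
    (.alt (.leaf [(0, 1), (44, 1)]) (.alt (.leaf [(0, 1), (14, 2), (44, 1)]) (.alt (.split 2 [1,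
    0, 0, -1] (.alt (.split 3 [1, 0, 0, -1] (.alt (.split 6 [0, 1, 1, 1] (.alt (.leaf [(0, 1),
    (1, 1), (13, 1), (47, 1)]) (.alt (.leaf [(0, 2), (15, 3), (17, 10), (19, 7), (47, 1)]) (.alt
    (.split 5 [0, 0, 1, 1] (.alt (.leaf [(0, 1), (2, 1), (18, 1)]) (.alt (.leaf [(0, 2), (16,
    3), (18, 8), (20, 5), (48, 1)]) (.alt (.leaf [(0, 2), (4, 2), (13, 2), (15, 1), (17, 1),
    (19, 2), (21, 2), (23, 2), (24, 1), (33, 1), (44, 2)]) (.alt (.leaf [(0, 1), (1, 1), (19,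
    1), (21, 2), (23, 1), (41, 1), (44, 1)]) (.alt (.split 4 [0, 0, 0, 1] (.alt (.leaf [(0, 1),
    (4, 1), (19, 1), (49, 1)]) (.alt (.leaf [(0, 2), (17, 3), (19, 4), (21, 3), (49, 1)]) (.alt
    (.leaf [(0, 4), (5, 2), (14, 2), (18, 4), (20, 4), (22, 2), (24, 2), (25, 2), (37, 2), (45,
    1), (46, 1)]) (.alt (.leaf [(0, 1), (2, 1), (18, 1), (22, 1), (24, 1), (34, 1), (45, 1)])
    (.alt (.leaf [(0, 2), (5, 1), (6, 1), (14, 1), (18, 3), (20, 3), (22, 3), (24, 1), (27, 1),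
    (42, 1), (43, 1), (45, 1)]) (.alt (.leaf [(0, 1), (1, 1), (5, 1), (14, 1), (16, 1), (18, 1),
    (20, 2), (22, 2), (24, 1), (31, 1), (42, 1), (45, 1)]) (.alt (.leaf [(1, 2), (22, 1), (24,
    2), (26, 1), (54, 1)]) (.done))))))))) (.alt (.leaf [(0, 2), (4, 2), (5, 2), (13, 2), (15,
    1), (17, 3), (19, 4), (21, 4), (23, 2), (27, 1), (35, 1), (41, 2), (44, 2)]) (.alt (.leaf
    [(1, 2), (21, 1), (23, 4), (25, 3), (53, 1)]) (.done))))))))) (.alt (.leaf [(0, 2), (3, 4),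
    (12, 4), (14, 3), (16, 3), (18, 3), (20, 4), (22, 1), (24, 1), (35, 1), (40, 3), (43, 1)])
    (.alt (.split 4 [0, 0, 0, 1] (.alt (.leaf [(0, 1), (3, 1), (18, 1), (48, 1)]) (.alt (.leaf
    [(0, 2), (16, 3), (18, 4), (20, 3), (48, 1)]) (.alt (.leaf [(0, 4), (4, 2), (13, 2), (17,
    4), (19, 4), (21, 2), (23, 2), (24, 2), (36, 2), (44, 1), (45, 1)]) (.alt (.split 4 [0, 1,
    0, 1] (.alt (.leaf [(0, 1), (3, 1), (15, 1), (49, 1)]) (.alt (.leaf [(0, 2), (17, 3), (19,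
    6), (21, 3), (49, 1)]) (.alt (.leaf [(0, 1), (1, 1), (18, 2), (20, 2), (22, 2), (24, 1),
    (42, 1), (45, 1)]) (.alt (.leaf [(0, 2), (5, 4), (14, 4), (16, 3), (18, 5), (20, 4), (22,
    4), (24, 2), (26, 1), (34, 1), (42, 2), (45, 2)]) (.alt (.split 6 [] (.alt (.split 3 [0, 0,
    1, -1] (.alt (.leaf [(0, 2), (19, 1), (21, 2), (23, 1), (51, 1)]) (.alt (.split 3 [0, 1, -2,
    1] (.alt (.split 4 [0, 1, -1, 1] (.alt (.leaf [(0, 2), (1, 1), (8, 1), (23, 2), (25, 5)])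
    (.alt (.leaf [(0, 2), (1, 5), (8, 1), (23, 10), (25, 13)]) (.alt (.leaf [(0, 1), (5, 1),
    (22, 2), (24, 2), (26, 1), (41, 1), (46, 1)]) (.alt (.leaf [(0, 4), (3, 6), (4, 6), (9, 5),
    (10, 3), (18, 5), (22, 13), (24, 13), (26, 19), (28, 13), (30, 2), (31, 3), (46, 3), (48,
    3), (49, 7), (51, 6)]) (.alt (.leaf [(0, 2), (9, 1), (10, 3), (18, 1), (22, 5), (24, 5),
    (26, 5), (28, 3), (31, 1), (46, 1), (48, 1), (49, 1), (51, 2)]) (.alt (.leaf [(0, 3), (4,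
    7), (9, 2), (18, 2), (22, 10), (24, 9), (26, 9), (28, 6), (31, 2), (40, 1), (46, 2), (48,
    1), (49, 2), (51, 4)]) (.alt (.leaf [(3, 2), (8, 3), (9, 2), (14, 2), (15, 2), (23, 2), (27,
    4), (29, 3), (31, 6), (33, 5), (35, 1), (36, 1), (45, 1), (51, 1), (54, 3), (56, 2)])
    (.done))))))))) (.alt (.leaf [(0, 1), (1, 1), (22, 2), (24, 1)]) (.alt (.leaf [(0, 1), (4,
    3), (21, 3), (23, 3), (25, 2), (29, 1), (40, 1), (45, 2)]) (.alt (.leaf [(0, 2), (2, 2), (3,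
    10), (8, 4), (9, 10), (17, 4), (21, 20), (23, 12), (25, 14), (27, 14), (29, 1), (30, 5),
    (37, 3), (39, 5), (48, 4), (50, 10)]) (.alt (.leaf [(0, 4), (9, 10), (19, 2), (21, 12), (23,
    12), (25, 12), (27, 10), (30, 2), (47, 2), (48, 3), (49, 3), (50, 4)]) (.alt (.leaf [(0, 1),
    (3, 3), (21, 3), (23, 2), (25, 2), (27, 2), (30, 1), (39, 1), (50, 2)]) (.alt (.leaf [(2,
    1), (4, 6), (9, 5), (13, 5), (14, 18), (22, 5), (26, 23), (28, 20), (30, 20), (32, 12), (34,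
    2), (35, 3), (44, 3), (50, 8), (53, 6), (55, 6)]) (.done))))))))) (.alt (.leaf [(0, 2), (1,
    3), (2, 2), (8, 2), (20, 4), (22, 3), (24, 6), (26, 5), (28, 1), (29, 1), (38, 1), (44, 1),
    (47, 3), (49, 2)]) (.alt (.leaf [(0, 1), (3, 1), (18, 1), (20, 2), (22, 2), (24, 1), (26,
    1), (39, 1), (48, 1)]) (.alt (.leaf [(0, 1), (2, 1), (18, 1), (20, 2), (22, 1), (24, 1),
    (26, 1), (38, 1), (49, 1)]) (.alt (.leaf [(0, 4), (8, 6), (18, 2), (20, 8), (22, 8), (24,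
    8), (26, 6), (29, 2), (45, 2), (47, 3), (48, 3)]) (.alt (.leaf [(5, 1), (7, 1), (12, 1),
    (13, 2), (21, 1), (25, 3), (27, 3), (29, 3), (31, 2), (34, 1), (49, 1), (52, 1), (54, 1)])
    (.done))))))))) (.alt (.leaf [(0, 1), (1, 2), (6, 1), (7, 1), (15, 1), (19, 3), (21, 2),
    (23, 3), (25, 2), (28, 1), (35, 1), (45, 1), (48, 2)]) (.alt (.leaf [(0, 2), (1, 2), (6, 1),
    (7, 3), (15, 1), (19, 5), (21, 5), (23, 7), (25, 5), (28, 1), (43, 1), (45, 1), (46, 1),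
    (48, 4)]) (.alt (.leaf [(0, 1), (1, 2), (6, 1), (7, 1), (15, 1), (19, 3), (21, 2), (23, 3),
    (25, 2), (28, 1), (37, 1), (43, 1), (46, 1), (48, 1)]) (.done)))))) (.alt (.leaf [(0, 1),
    (2, 1), (5, 1), (14, 1), (16, 1), (18, 1), (20, 1), (22, 2), (24, 1), (31, 1), (42, 1), (45,
    1)]) (.alt (.leaf [(3, 2), (10, 2), (19, 2), (21, 1), (23, 1), (31, 1), (39, 1)])
    (.done))))))))) (.alt (.leaf [(0, 2), (4, 1), (5, 1), (13, 1), (17, 3), (19, 3), (21, 3),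
    (23, 1), (26, 1), (41, 1), (42, 1), (44, 1)]) (.alt (.leaf [(0, 1), (1, 1), (17, 1), (21,
    1), (23, 1), (35, 1), (46, 1)]) (.alt (.leaf [(1, 2), (21, 1), (23, 2), (25, 1), (53, 1)])
    (.done))))))))) (.alt (.leaf [(0, 2), (3, 1), (4, 3), (12, 1), (16, 3), (18, 3), (20, 3),
    (22, 1), (26, 1), (38, 2), (40, 1), (41, 1), (43, 1)]) (.alt (.leaf [(1, 2), (20, 1), (22,
    6), (24, 3), (52, 1)]) (.done))))))))) (.alt (.leaf [(0, 3), (1, 1), (14, 1), (16, 4), (18,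
    4)]) (.alt (.leaf [(0, 2), (2, 2), (11, 2), (13, 3), (15, 3), (17, 3), (19, 2), (21, 1),
    (23, 1), (34, 1), (39, 1), (42, 1)]) (.alt (.leaf [(0, 2), (13, 1), (15, 1), (22, 1), (31,
    1)]) (.alt (.leaf [(0, 2), (2, 1), (3, 1), (11, 1), (13, 2), (15, 3), (17, 3), (19, 3), (21,
    1), (25, 1), (39, 1), (40, 1), (42, 1)]) (.alt (.leaf [(0, 2), (13, 1), (15, 1), (24, 1),
    (33, 1)]) (.alt (.leaf [(1, 1), (6, 1), (21, 1), (51, 1)]) (.done))))))))) (.alt (.leaf [(0,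
    2), (13, 1), (15, 2), (17, 1), (45, 1)]) (.alt (.leaf [(0, 4), (1, 2), (10, 6), (12, 4),
    (14, 4), (16, 4), (18, 2), (20, 2), (22, 2), (33, 2), (41, 1), (42, 1)]) (.alt (.leaf [(0,
    2), (10, 2), (12, 1), (14, 1), (21, 1), (30, 1)]) (.alt (.leaf [(0, 4), (2, 2), (10, 4),
    (12, 2), (14, 4), (16, 4), (18, 4), (20, 2), (24, 2), (39, 2), (41, 1), (42, 1)]) (.alt
    (.leaf [(0, 2), (10, 2), (12, 1), (14, 1), (23, 1), (32, 1)]) (.alt (.leaf [(1, 2), (16, 1),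
    (18, 1)]) (.done))))))))) (.alt (.leaf [(0, 1), (9, 1), (11, 1), (13, 1), (15, 1), (17, 1),
    (19, 1), (41, 1), (50, 1)]) (.alt (.leaf [(0, 1), (1, 1), (9, 1), (11, 1), (13, 2), (15, 1),
    (17, 1), (19, 1), (31, 1), (42, 1)]) (.alt (.leaf [(0, 1), (1, 1), (9, 1), (11, 1), (13, 2),
    (15, 2), (17, 1), (35, 1), (38, 1)]) (.alt (.leaf [(1, 1), (19, 1)]) (.done))))))))) (.alt
    (.leaf [(0, 1), (12, 1), (14, 1), (16, 1), (18, 1), (42, 1), (48, 1)]) (.done)))))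

/-- Class (0, 1, 0). -/
def Z0.T2 : Tree :=
  .split 4 [] (.alt (.leaf [(0, 1), (12, 1), (14, 1), (16, 1), (18, 1), (39, 1), (47, 1)]) (.alt
    (.leaf [(0, 1), (12, 1), (14, 1), (16, 1), (36, 1), (45, 1)]) (.alt (.split 2 [0, 0, 0, 1]
    (.alt (.leaf [(0, 2), (44, 1)]) (.alt (.leaf [(0, 2), (14, 4), (44, 3)]) (.alt (.split 6 [0,
    1, -1, -1] (.alt (.leaf [(0, 2), (11, 6), (13, 2), (15, 6), (45, 7)]) (.alt (.leaf [(0, 2),
    (11, 2), (13, 2), (15, 2), (45, 1)]) (.alt (.leaf [(0, 1), (1, 1), (10, 1), (12, 1), (14,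
    1), (16, 1), (18, 1), (33, 1), (38, 1)]) (.alt (.leaf [(0, 1), (1, 3), (10, 3), (12, 1),
    (14, 1), (18, 1), (20, 1), (21, 2), (30, 1), (41, 1)]) (.alt (.leaf [(0, 2), (1, 4), (2, 3),
    (10, 4), (12, 1), (14, 4), (16, 3), (18, 5), (20, 3), (21, 2), (24, 1), (32, 1), (38, 2),
    (41, 2), (43, 1)]) (.alt (.split 2 [0, 1, 0, -1] (.alt (.leaf [(0, 2), (16, 2), (46, 3)])
    (.alt (.leaf [(0, 2), (16, 2), (46, 1)]) (.alt (.leaf [(0, 1), (2, 1), (11, 2), (13, 2),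
    (15, 2), (17, 2), (19, 2), (21, 1), (39, 1), (42, 1)]) (.alt (.leaf [(0, 2), (11, 2), (13,
    1), (15, 1), (22, 1), (30, 1), (50, 1)]) (.alt (.leaf [(0, 6), (1, 2), (11, 6), (13, 4),
    (15, 4), (17, 2), (19, 4), (21, 4), (25, 2), (33, 2), (42, 1), (43, 1), (44, 2)]) (.alt
    (.leaf [(0, 2), (3, 1), (11, 2), (13, 1), (15, 2), (17, 2), (19, 1), (24, 1), (37, 1), (40,
    1)]) (.alt (.leaf [(3, 1), (7, 1), (16, 1), (27, 1)]) (.done))))))))) (.alt (.leaf [(0, 2),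
    (16, 2), (20, 2), (50, 3)]) (.done))))))))) (.alt (.leaf [(0, 4), (9, 4), (11, 2), (13, 2),
    (15, 2), (17, 2), (19, 2), (21, 2), (40, 1), (41, 1), (46, 2), (48, 2)]) (.alt (.leaf [(0,
    2), (1, 1), (9, 2), (11, 1), (13, 2), (15, 1), (17, 1), (19, 1), (22, 1), (31, 1), (42, 1)])
    (.alt (.leaf [(0, 2), (1, 1), (9, 2), (11, 1), (13, 2), (15, 2), (17, 1), (23, 1), (35, 1),
    (38, 1)]) (.alt (.leaf [(1, 2), (19, 2), (49, 1)]) (.done))))))))) (.alt (.leaf [(0, 1),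
    (12, 1), (14, 1), (16, 1), (18, 1), (42, 1), (48, 1)]) (.done)))))

/-- Class (0, 0, 1). -/
def Z0.T3 : Tree :=
  .split 4 [] (.alt (.leaf [(0, 1), (12, 1), (14, 1), (16, 1), (18, 1), (39, 1), (47, 1)]) (.alt
    (.leaf [(0, 1), (12, 1), (14, 1), (16, 1), (36, 1), (45, 1)]) (.alt (.split 3 [0, 0, 0, 1]
    (.alt (.leaf [(0, 2), (10, 1)]) (.alt (.leaf [(0, 2), (14, 4), (16, 3), (44, 1)]) (.alt
    (.leaf [(0, 2), (11, 1), (13, 1), (15, 1), (17, 1), (19, 1), (20, 1), (40, 1), (48, 1)])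
    (.alt (.leaf [(0, 2), (11, 1), (13, 1), (15, 1), (17, 1), (21, 1), (37, 1), (46, 1)]) (.alt
    (.leaf [(0, 2), (11, 1), (22, 1), (26, 1)]) (.alt (.leaf [(0, 2), (1, 1), (11, 1), (13, 2),
    (15, 2), (17, 2), (19, 2), (23, 1), (40, 1), (41, 1)]) (.alt (.leaf [(1, 2), (19, 2), (21,
    1), (49, 1)]) (.done))))))))) (.alt (.leaf [(0, 1), (12, 1), (14, 1), (16, 1), (18, 1), (42,
    1), (48, 1)]) (.done)))))

/-- Class (1, 1, 0). -/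
def Z0.T4 : Tree :=
  .split 4 [] (.alt (.leaf [(0, 1), (12, 1), (14, 1), (16, 1), (18, 1), (39, 1), (47, 1)]) (.alt
    (.leaf [(0, 1), (12, 1), (14, 1), (16, 1), (36, 1), (45, 1)]) (.alt (.split 2 [0, 1, 0, 0]
    (.alt (.leaf [(0, 1), (44, 1)]) (.alt (.leaf [(0, 1), (14, 2), (44, 1)]) (.alt (.split 3 [1,
    1, 0, -1] (.alt (.split 5 [] (.alt (.leaf [(0, 2), (2, 2), (11, 2), (13, 2), (15, 2), (17,
    4), (19, 2), (21, 2), (34, 2), (42, 1), (43, 1)]) (.alt (.split 4 [0, 0, 0, 1] (.alt (.leaf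
    [(0, 1), (2, 1), (13, 1), (47, 1)]) (.alt (.leaf [(0, 2), (13, 3), (15, 3), (17, 5), (47,
    4)]) (.alt (.split 5 [0, 1, -1, -1] (.alt (.leaf [(0, 2), (14, 5), (16, 3), (18, 7), (48,
    6)]) (.alt (.leaf [(0, 1), (3, 1), (18, 1)]) (.alt (.leaf [(0, 1), (1, 1), (2, 1), (17, 1),
    (19, 3), (21, 3), (23, 1), (41, 2), (44, 1)]) (.alt (.leaf [(0, 4), (4, 6), (13, 6), (15,
    4), (17, 4), (19, 6), (21, 6), (23, 6), (24, 2), (33, 2), (44, 5), (45, 1)]) (.alt (.leaf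
    [(0, 2), (4, 1), (5, 3), (13, 1), (17, 3), (19, 3), (21, 3), (23, 2), (27, 1), (35, 2), (41,
    1), (44, 1), (46, 1)]) (.alt (.split 4 [0, 1, 0, -1] (.alt (.leaf [(0, 2), (15, 3), (17, 3),
    (19, 3), (49, 4)]) (.alt (.leaf [(0, 1), (4, 1), (15, 1), (19, 1), (49, 1)]) (.alt (.leaf
    [(0, 1), (2, 1), (18, 2), (20, 2), (22, 2), (24, 1), (42, 1), (45, 1)]) (.alt (.leaf [(0,
    4), (3, 2), (5, 2), (14, 2), (18, 4), (20, 6), (22, 6), (24, 6), (25, 2), (45, 3), (46, 3)])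
    (.alt (.leaf [(0, 1), (1, 1), (2, 2), (3, 1), (5, 1), (14, 1), (18, 2), (20, 4), (22, 4),
    (24, 2), (25, 1), (31, 1), (42, 2), (45, 2)]) (.alt (.split 4 [0, 0, 1, -1] (.alt (.leaf
    [(0, 2), (16, 1), (18, 3), (20, 3), (50, 2)]) (.alt (.leaf [(0, 2), (16, 3), (18, 1), (20,
    1), (50, 2)]) (.alt (.leaf [(0, 4), (3, 8), (6, 2), (15, 2), (19, 12), (21, 10), (23, 10),
    (25, 10), (26, 2), (35, 2), (46, 7), (47, 3)]) (.alt (.split 4 [0, 1, 1, -1] (.alt (.leaf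
    [(0, 2), (17, 1), (19, 3), (21, 1), (51, 2)]) (.alt (.leaf [(0, 2), (17, 3), (19, 1), (21,
    3), (51, 2)]) (.alt (.leaf [(0, 1), (1, 1), (20, 2), (22, 2), (24, 2), (26, 1), (44, 1),
    (47, 1)]) (.alt (.leaf [(0, 4), (5, 6), (7, 2), (16, 2), (20, 4), (22, 10), (24, 10), (26,
    6), (27, 2), (44, 4), (47, 3), (48, 3)]) (.alt (.leaf [(0, 3), (2, 7), (7, 2), (16, 2), (20,
    10), (22, 10), (24, 9), (26, 3), (29, 2), (42, 1), (44, 2), (45, 4), (47, 2), (50, 1)])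
    (.alt (.leaf [(0, 2), (7, 1), (8, 3), (16, 1), (20, 5), (22, 5), (24, 5), (26, 2), (29, 1),
    (44, 1), (45, 2), (47, 1), (50, 1)]) (.alt (.leaf [(3, 2), (7, 2), (10, 3), (12, 2), (13,
    2), (21, 2), (25, 4), (27, 7), (29, 6), (31, 1), (32, 1), (34, 1), (47, 1), (49, 3), (50,
    2), (52, 1)]) (.done))))))))) (.alt (.leaf [(0, 1), (1, 1), (19, 2), (21, 2), (23, 1), (41,
    1), (44, 1)]) (.alt (.leaf [(0, 2), (6, 1), (7, 3), (15, 1), (19, 5), (21, 5), (23, 5), (25,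
    4), (28, 1), (43, 1), (46, 2), (47, 1), (48, 1)]) (.alt (.leaf [(5, 2), (11, 1), (12, 3),
    (20, 1), (24, 3), (26, 3), (28, 3), (30, 2), (33, 1), (48, 1), (51, 1), (53, 1)])
    (.done))))))))) (.alt (.leaf [(3, 1), (7, 1), (8, 1), (10, 1), (19, 1), (23, 1), (25, 2),
    (27, 2), (29, 1), (30, 1), (47, 1), (50, 1)]) (.done))))))))) (.alt (.leaf [(3, 1), (6, 1),
    (9, 1), (18, 1), (22, 1), (24, 1), (26, 1), (28, 1), (29, 1), (49, 1)]) (.done)))))))))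
    (.alt (.leaf [(0, 2), (3, 2), (12, 2), (14, 1), (16, 3), (18, 2), (20, 2), (22, 1), (24, 1),
    (32, 1), (40, 1), (43, 1)]) (.alt (.leaf [(0, 2), (3, 1), (4, 1), (12, 1), (16, 3), (18, 3),
    (20, 3), (22, 2), (25, 1), (40, 1), (43, 1), (45, 1)]) (.alt (.split 6 [0, 0, 1, 1] (.alt
    (.leaf [(0, 1), (3, 1), (14, 1), (48, 1)]) (.alt (.leaf [(0, 2), (14, 7), (16, 3), (18, 9),
    (48, 8)]) (.alt (.split 5 [0, 1, -1, -1] (.alt (.leaf [(0, 2), (15, 5), (17, 3), (19, 7),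
    (49, 6)]) (.alt (.leaf [(0, 1), (4, 1), (19, 1)]) (.alt (.leaf [(0, 1), (1, 1), (20, 1),
    (22, 2), (24, 1), (42, 1), (45, 1)]) (.alt (.leaf [(0, 4), (5, 6), (14, 6), (16, 4), (18,
    4), (20, 6), (22, 6), (24, 6), (25, 2), (34, 2), (45, 5), (46, 1)]) (.alt (.leaf [(0, 2),
    (5, 1), (6, 3), (14, 1), (18, 3), (20, 3), (22, 3), (24, 2), (28, 1), (36, 2), (42, 1), (45,
    1), (47, 1)]) (.alt (.leaf [(0, 1), (2, 1), (18, 1), (20, 2), (22, 1), (40, 1), (43, 1)])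
    (.alt (.leaf [(0, 2), (20, 3), (22, 1), (24, 3), (54, 4)]) (.done))))))))) (.alt (.leaf [(0,
    2), (2, 1), (4, 2), (13, 2), (15, 1), (17, 1), (19, 2), (21, 4), (23, 1), (25, 1), (41, 3),
    (44, 1)]) (.alt (.leaf [(0, 1), (1, 1), (4, 1), (13, 1), (15, 1), (17, 1), (19, 1), (21, 2),
    (23, 1), (30, 1), (41, 1), (44, 1)]) (.alt (.leaf [(0, 2), (4, 2), (5, 2), (13, 2), (15, 1),
    (17, 3), (19, 3), (21, 4), (23, 2), (27, 1), (39, 1), (41, 2), (44, 2)]) (.alt (.leaf [(1,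
    2), (19, 3), (21, 1), (23, 5), (53, 4)]) (.done))))))))) (.alt (.leaf [(1, 2), (18, 1), (20,
    1), (22, 3), (52, 2)]) (.done))))))))) (.alt (.leaf [(0, 2), (3, 2), (15, 2), (17, 4), (19,
    4), (21, 2), (40, 2), (42, 1), (43, 1)]) (.alt (.split 4 [0, 0, 0, 1] (.alt (.leaf [(0, 1),
    (2, 1), (13, 1), (47, 1)]) (.alt (.leaf [(0, 2), (13, 3), (15, 3), (17, 5), (47, 4)]) (.alt
    (.split 5 [0, 1, -1, -1] (.alt (.leaf [(0, 2), (14, 5), (16, 3), (18, 7), (48, 6)]) (.alt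
    (.leaf [(0, 1), (3, 1), (18, 1)]) (.alt (.leaf [(0, 1), (1, 1), (17, 1), (19, 2), (21, 1),
    (36, 1), (41, 1)]) (.alt (.leaf [(0, 4), (4, 6), (13, 6), (15, 4), (17, 4), (19, 6), (21,
    6), (23, 6), (24, 2), (33, 2), (44, 5), (45, 1)]) (.alt (.leaf [(0, 2), (4, 1), (5, 3), (13,
    1), (17, 3), (19, 3), (21, 3), (23, 2), (27, 1), (35, 2), (41, 1), (44, 1), (46, 1)]) (.alt
    (.split 4 [0, 1, 0, -1] (.alt (.leaf [(0, 2), (15, 3), (17, 3), (19, 3), (49, 4)]) (.alt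
    (.leaf [(0, 1), (4, 1), (15, 1), (19, 1), (49, 1)]) (.alt (.leaf [(0, 1), (2, 1), (18, 2),
    (20, 2), (22, 2), (24, 1), (42, 1), (45, 1)]) (.alt (.leaf [(0, 16), (1, 12), (3, 12), (5,
    16), (14, 16), (16, 2), (20, 24), (22, 16), (24, 16), (25, 8), (27, 6), (31, 18), (37, 8),
    (45, 5), (46, 5), (48, 6)]) (.alt (.leaf [(0, 5), (1, 7), (3, 2), (5, 4), (14, 4), (16, 3),
    (20, 9), (22, 9), (24, 5), (27, 1), (31, 8), (42, 4), (45, 4), (48, 1)]) (.alt (.leaf [(0,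
    3), (1, 1), (3, 4), (5, 2), (14, 2), (20, 5), (22, 5), (24, 3), (27, 2), (31, 3), (42, 2),
    (45, 2), (48, 1), (58, 1)]) (.alt (.leaf [(3, 8), (6, 2), (8, 2), (10, 8), (19, 8), (21, 3),
    (25, 4), (30, 4), (32, 1), (36, 3), (42, 4), (63, 1)]) (.done))))))))) (.alt (.leaf [(3, 1),
    (6, 1), (9, 1), (18, 1), (22, 1), (24, 1), (26, 1), (28, 1), (29, 1), (49, 1)])
    (.done))))))))) (.alt (.leaf [(0, 2), (3, 2), (12, 2), (14, 1), (16, 3), (18, 2), (20, 2),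
    (22, 1), (24, 1), (32, 1), (40, 1), (43, 1)]) (.alt (.leaf [(0, 2), (3, 1), (4, 1), (12, 1),
    (16, 3), (18, 3), (20, 3), (22, 2), (25, 1), (40, 1), (43, 1), (45, 1)]) (.alt (.split 6 [0,
    0, 1, 1] (.alt (.leaf [(0, 1), (3, 1), (14, 1), (48, 1)]) (.alt (.leaf [(0, 2), (14, 7),
    (16, 3), (18, 9), (48, 8)]) (.alt (.split 5 [0, 1, -1, -1] (.alt (.leaf [(0, 2), (15, 5),
    (17, 3), (19, 7), (49, 6)]) (.alt (.leaf [(0, 1), (4, 1), (19, 1)]) (.alt (.leaf [(0, 1),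
    (1, 1), (20, 1), (22, 2), (24, 1), (42, 1), (45, 1)]) (.alt (.leaf [(0, 4), (5, 6), (14, 6),
    (16, 4), (18, 4), (20, 6), (22, 6), (24, 6), (25, 2), (34, 2), (45, 5), (46, 1)]) (.alt
    (.leaf [(0, 2), (5, 1), (6, 3), (14, 1), (18, 3), (20, 3), (22, 3), (24, 2), (28, 1), (36,
    2), (42, 1), (45, 1), (47, 1)]) (.alt (.leaf [(0, 2), (2, 2), (3, 2), (5, 1), (14, 1), (16,
    1), (20, 4), (22, 3), (24, 2), (31, 3), (40, 1), (42, 1), (45, 1), (48, 1)]) (.alt (.leaf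
    [(0, 2), (20, 3), (22, 1), (24, 3), (54, 4)]) (.done))))))))) (.alt (.leaf [(0, 2), (4, 2),
    (13, 2), (15, 1), (17, 1), (19, 1), (21, 2), (25, 1), (36, 1), (41, 2)]) (.alt (.leaf [(0,
    1), (1, 1), (4, 1), (13, 1), (15, 1), (17, 1), (19, 1), (21, 2), (23, 1), (30, 1), (41, 1),
    (44, 1)]) (.alt (.leaf [(0, 2), (4, 2), (5, 2), (13, 2), (15, 1), (17, 3), (19, 3), (21, 4),
    (23, 2), (27, 1), (39, 1), (41, 2), (44, 2)]) (.alt (.leaf [(1, 2), (19, 3), (21, 1), (23,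
    5), (53, 4)]) (.done))))))))) (.alt (.leaf [(1, 2), (18, 1), (20, 1), (22, 3), (52, 2)])
    (.done))))))))) (.done)))))) (.alt (.leaf [(0, 2), (11, 3), (13, 1), (15, 3), (45, 2)])
    (.alt (.leaf [(0, 2), (12, 1), (14, 1), (16, 1), (22, 1), (33, 1)]) (.alt (.leaf [(0, 4),
    (1, 2), (10, 2), (12, 4), (14, 4), (16, 2), (18, 2), (20, 2), (21, 2), (30, 2), (41, 1),
    (42, 1)]) (.alt (.leaf [(0, 2), (1, 1), (2, 1), (10, 1), (12, 2), (14, 3), (16, 3), (18, 3),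
    (20, 2), (24, 1), (38, 1), (41, 1), (43, 1)]) (.alt (.leaf [(0, 2), (12, 1), (14, 1), (16,
    1), (23, 1), (36, 1)]) (.alt (.leaf [(1, 2), (16, 1), (18, 1), (20, 1)]) (.done)))))))))
    (.alt (.leaf [(0, 1), (9, 1), (11, 1), (13, 1), (15, 1), (17, 1), (19, 1), (41, 1), (50,
    1)]) (.alt (.leaf [(0, 1), (1, 1), (9, 1), (11, 1), (13, 2), (15, 1), (17, 1), (19, 1), (31,
    1), (42, 1)]) (.alt (.leaf [(0, 1), (1, 1), (9, 1), (11, 1), (13, 2), (15, 2), (17, 1), (35,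
    1), (38, 1)]) (.alt (.leaf [(1, 1), (19, 1)]) (.done))))))))) (.alt (.leaf [(0, 1), (12, 1),
    (14, 1), (16, 1), (18, 1), (42, 1), (48, 1)]) (.done)))))

/-- Class (1, 0, 1). -/
def Z0.T5 : Tree :=
  .split 4 [] (.alt (.leaf [(0, 1), (12, 1), (14, 1), (16, 1), (18, 1), (39, 1), (47, 1)]) (.alt
    (.leaf [(0, 1), (12, 1), (14, 1), (16, 1), (36, 1), (45, 1)]) (.alt (.split 2 [0, 1, 0, 0]
    (.alt (.leaf [(0, 1), (44, 1)]) (.alt (.leaf [(0, 1), (14, 2), (44, 1)]) (.alt (.split 3 [1,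
    0, 1, -1] (.alt (.split 4 [1, 0, 0, -1] (.alt (.leaf [(0, 2), (12, 2), (14, 1), (16, 3),
    (46, 3)]) (.alt (.leaf [(0, 2), (12, 2), (14, 3), (16, 1), (46, 1)]) (.alt (.leaf [(0, 2),
    (2, 2), (11, 2), (13, 1), (15, 3), (17, 3), (19, 1), (23, 1), (34, 2), (39, 1)]) (.alt
    (.split 5 [0, 0, 0, 1] (.alt (.leaf [(0, 1), (2, 1), (17, 1)]) (.alt (.leaf [(0, 2), (13,
    4), (15, 3), (17, 7), (47, 5)]) (.alt (.leaf [(0, 2), (3, 2), (12, 2), (14, 1), (16, 1),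
    (18, 3), (20, 3), (22, 2), (23, 1), (40, 1), (43, 2)]) (.alt (.leaf [(0, 1), (1, 1), (16,
    1), (18, 2), (20, 2), (22, 1), (40, 1), (43, 1), (51, 1)]) (.alt (.split 3 [0, 0, 1, -1]
    (.alt (.leaf [(0, 2), (14, 2), (16, 1), (18, 3), (48, 3)]) (.alt (.split 4 [0, 0, 0, 1]
    (.alt (.leaf [(0, 1), (1, 1), (15, 1)]) (.alt (.leaf [(0, 2), (15, 4), (17, 3), (19, 5),
    (49, 5)]) (.alt (.leaf [(0, 2), (5, 2), (14, 2), (16, 1), (18, 3), (20, 3), (22, 3), (24,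
    2), (25, 1), (42, 1), (45, 2)]) (.alt (.leaf [(0, 1), (3, 1), (18, 2), (20, 2), (22, 2),
    (24, 1), (42, 1), (45, 1), (53, 1)]) (.alt (.split 5 [] (.alt (.leaf [(0, 4), (4, 4), (6,
    2), (15, 2), (19, 4), (21, 8), (23, 8), (25, 8), (26, 2), (46, 5), (47, 3)]) (.alt (.split 4
    [0, 0, 1, -1] (.alt (.leaf [(0, 2), (17, 2), (19, 3), (21, 3), (51, 3)]) (.alt (.leaf [(0,
    2), (17, 2), (19, 1), (21, 1), (51, 1)]) (.alt (.leaf [(0, 1), (5, 1), (7, 1), (16, 1), (18,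
    1), (20, 3), (22, 1), (24, 1), (26, 1), (36, 2), (47, 1)]) (.alt (.leaf [(0, 4), (1, 4), (7,
    2), (16, 2), (20, 4), (22, 8), (24, 8), (26, 4), (27, 2), (44, 4), (47, 3), (48, 1)]) (.alt
    (.leaf [(0, 1), (2, 1), (20, 2), (22, 2), (24, 1), (26, 1), (42, 1), (49, 1)]) (.alt (.leaf
    [(0, 2), (7, 2), (8, 1), (16, 2), (18, 1), (20, 4), (22, 4), (24, 4), (26, 2), (29, 1), (44,
    2), (47, 2), (54, 1)]) (.alt (.leaf [(0, 1), (8, 1), (22, 1), (26, 1), (56, 1)])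
    (.done))))))))) (.alt (.leaf [(0, 1), (6, 1), (15, 1), (17, 1), (19, 1), (21, 2), (23, 2),
    (25, 1), (43, 1), (46, 1), (53, 1)]) (.alt (.leaf [(0, 1), (1, 2), (6, 1), (15, 1), (19, 1),
    (21, 2), (23, 2), (25, 1), (28, 1), (32, 1), (43, 1), (46, 1)]) (.done)))))) (.alt (.leaf
    [(0, 1), (2, 1), (18, 1), (20, 2), (22, 2), (24, 2), (45, 1), (46, 1)]) (.alt (.leaf [(5,
    1), (7, 1), (10, 1), (19, 1), (21, 1), (23, 1), (25, 2), (27, 2), (29, 1), (47, 1), (50,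
    1)]) (.done))))))))) (.alt (.leaf [(0, 1), (2, 1), (4, 1), (13, 1), (15, 2), (17, 3), (19,
    1), (21, 1), (23, 1), (33, 2), (44, 1)]) (.alt (.leaf [(0, 1), (2, 1), (4, 1), (13, 1), (15,
    1), (17, 2), (19, 2), (21, 2), (23, 1), (24, 1), (41, 1), (44, 1)]) (.alt (.leaf [(0, 1),
    (1, 1), (15, 1), (17, 1), (19, 2), (21, 1), (23, 1), (39, 1), (46, 1)]) (.alt (.leaf [(0,
    2), (5, 1), (15, 1), (17, 2), (19, 2), (21, 2), (23, 2), (26, 1), (44, 1), (45, 1), (51,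
    1)]) (.alt (.leaf [(0, 2), (21, 1), (23, 1), (53, 1)]) (.done))))))))) (.alt (.leaf [(0, 2),
    (3, 1), (4, 1), (12, 1), (16, 1), (18, 2), (20, 2), (22, 1), (26, 1), (34, 1), (40, 1), (43,
    1)]) (.alt (.leaf [(1, 2), (18, 2), (20, 1), (22, 3), (52, 3)]) (.done))))))))) (.alt (.leaf
    [(0, 2), (2, 2), (3, 2), (11, 2), (13, 1), (15, 5), (17, 5), (19, 5), (21, 2), (25, 1), (39,
    2), (40, 1), (42, 2)]) (.alt (.split 4 [0, 0, 1, -1] (.alt (.leaf [(0, 2), (13, 2), (15, 3),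
    (17, 3), (47, 3)]) (.alt (.leaf [(0, 2), (13, 2), (15, 1), (17, 1), (47, 1)]) (.alt (.split
    4 [0, 1, -1, 1] (.alt (.leaf [(0, 1), (3, 1), (14, 1), (48, 1)]) (.alt (.leaf [(0, 2), (14,
    2), (16, 3), (18, 5), (48, 3)]) (.alt (.leaf [(0, 1), (1, 1), (17, 2), (19, 2), (21, 2),
    (23, 1), (41, 1), (44, 1)]) (.alt (.leaf [(0, 4), (4, 6), (13, 6), (15, 4), (17, 8), (19,
    4), (21, 4), (23, 4), (25, 2), (33, 4), (44, 3), (45, 1)]) (.alt (.leaf [(0, 2), (4, 1), (5,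
    3), (13, 1), (17, 5), (19, 4), (21, 4), (23, 3), (26, 1), (35, 1), (41, 1), (44, 1), (46,
    2)]) (.alt (.leaf [(0, 1), (2, 1), (17, 1), (19, 1), (30, 1), (39, 1)]) (.alt (.leaf [(1,
    2), (21, 1), (23, 3), (53, 1)]) (.done))))))))) (.alt (.leaf [(0, 2), (3, 2), (12, 2), (14,
    1), (16, 3), (18, 3), (20, 1), (23, 1), (35, 2), (40, 1)]) (.alt (.leaf [(0, 1), (1, 1),
    (16, 1), (29, 1), (34, 1)]) (.alt (.leaf [(0, 2), (3, 2), (4, 2), (12, 2), (14, 1), (16, 5),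
    (18, 5), (20, 5), (22, 2), (25, 1), (40, 2), (41, 1), (43, 2)]) (.alt (.leaf [(0, 2), (20,
    1), (22, 1), (52, 1)]) (.done))))))))) (.done)))))))) (.alt (.leaf [(0, 2), (11, 4), (13,
    1), (15, 3), (45, 3)]) (.alt (.leaf [(0, 4), (1, 2), (10, 2), (12, 4), (14, 4), (16, 4),
    (18, 4), (20, 4), (22, 2), (41, 3), (42, 1)]) (.alt (.leaf [(0, 2), (12, 1), (14, 1), (16,
    1), (18, 1), (21, 1), (38, 1)]) (.alt (.leaf [(0, 2), (12, 1), (14, 1), (16, 1), (18, 1),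
    (24, 1), (39, 1)]) (.alt (.leaf [(0, 4), (2, 2), (12, 2), (14, 4), (16, 2), (18, 2), (20,
    2), (23, 2), (32, 2), (41, 1), (42, 1)]) (.alt (.leaf [(1, 2), (16, 2), (18, 1), (20, 1),
    (50, 1)]) (.done))))))))) (.alt (.leaf [(0, 1), (9, 1), (11, 1), (13, 1), (15, 1), (17, 1),
    (19, 1), (41, 1), (50, 1)]) (.alt (.leaf [(0, 1), (1, 1), (9, 1), (11, 1), (13, 2), (15, 1),
    (17, 1), (19, 1), (31, 1), (42, 1)]) (.alt (.leaf [(0, 1), (9, 1), (11, 1), (13, 1), (15,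
    1), (17, 1), (38, 1), (53, 1)]) (.alt (.leaf [(1, 1), (19, 1)]) (.done))))))))) (.alt (.leaf
    [(0, 1), (12, 1), (14, 1), (16, 1), (18, 1), (42, 1), (48, 1)]) (.done)))))

/-- Class (0, 1, 1). -/
def Z0.T6 : Tree :=
  .split 4 [] (.alt (.leaf [(0, 1), (12, 1), (14, 1), (16, 1), (18, 1), (39, 1), (47, 1)]) (.alt
    (.leaf [(0, 1), (12, 1), (14, 1), (16, 1), (36, 1), (45, 1)]) (.alt (.split 2 [0, 1, 0, 0]
    (.alt (.leaf [(0, 1), (44, 1)]) (.alt (.leaf [(0, 1), (14, 2), (44, 1)]) (.alt (.split 5 []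
    (.alt (.leaf [(0, 2), (1, 2), (10, 2), (12, 2), (14, 2), (16, 4), (18, 2), (20, 2), (33, 2),
    (41, 1), (42, 1)]) (.alt (.split 5 [0, 0, 0, 1] (.alt (.leaf [(0, 2), (12, 1), (14, 2), (16,
    1)]) (.alt (.leaf [(0, 2), (12, 3), (14, 2), (16, 7), (46, 4)]) (.alt (.split 3 [0, 1, 0,
    -1] (.alt (.leaf [(0, 2), (13, 3), (17, 3), (47, 4)]) (.alt (.leaf [(0, 2), (13, 1), (17,
    1)]) (.alt (.leaf [(0, 1), (1, 1), (14, 1), (16, 1), (18, 2), (20, 2), (22, 1), (40, 1),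
    (43, 1)]) (.alt (.leaf [(0, 2), (2, 1), (6, 1), (14, 1), (16, 1), (18, 2), (20, 2), (22, 2),
    (23, 1), (43, 1), (51, 2)]) (.alt (.leaf [(0, 4), (4, 4), (14, 2), (16, 6), (18, 4), (20,
    4), (22, 4), (26, 2), (34, 2), (43, 1), (44, 1), (45, 2)]) (.alt (.split 3 [0, 0, 1, -1]
    (.alt (.leaf [(0, 2), (14, 1), (18, 3), (48, 2)]) (.alt (.leaf [(0, 2), (14, 3), (18, 1),
    (48, 2)]) (.alt (.leaf [(0, 1), (2, 1), (4, 1), (7, 1), (13, 1), (15, 2), (17, 2), (19, 2),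
    (21, 2), (23, 2), (33, 1), (44, 1)]) (.alt (.split 3 [0, 1, 1, -1] (.alt (.leaf [(0, 2),
    (15, 1), (19, 1), (49, 2)]) (.alt (.leaf [(0, 2), (15, 3), (19, 3), (49, 2)]) (.alt (.leaf
    [(0, 1), (1, 1), (16, 2), (18, 2), (20, 2), (22, 2), (24, 1), (42, 1), (45, 1)]) (.alt
    (.leaf [(0, 2), (4, 1), (8, 1), (16, 1), (18, 1), (20, 2), (22, 2), (24, 2), (25, 1), (46,
    1)]) (.alt (.leaf [(0, 1), (2, 1), (16, 2), (18, 2), (20, 2), (22, 1), (24, 1), (40, 1),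
    (47, 1)]) (.alt (.leaf [(0, 2), (6, 1), (16, 1), (18, 2), (20, 2), (22, 2), (24, 1), (27,
    1), (43, 1), (48, 1)]) (.alt (.leaf [(3, 1), (6, 1), (9, 1), (25, 1), (27, 1), (30, 1), (47,
    1)]) (.done))))))))) (.alt (.leaf [(0, 1), (1, 1), (15, 2), (17, 2), (19, 2), (21, 1), (39,
    1), (42, 1)]) (.alt (.leaf [(0, 4), (5, 4), (15, 2), (17, 6), (19, 4), (21, 4), (23, 4),
    (26, 2), (35, 2), (44, 1), (45, 1), (46, 2)]) (.done)))))))) (.alt (.leaf [(0, 2), (18, 1),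
    (22, 1), (52, 2)]) (.done))))))))) (.alt (.leaf [(0, 2), (1, 1), (2, 3), (11, 3), (13, 2),
    (15, 2), (17, 5), (19, 5), (21, 2), (23, 1), (39, 3), (42, 2)]) (.alt (.split 3 [0, 0, 1,
    -1] (.alt (.leaf [(0, 2), (13, 1), (17, 3), (47, 2)]) (.alt (.leaf [(0, 2), (13, 3), (17,
    1), (47, 2)]) (.alt (.leaf [(0, 4), (3, 4), (12, 4), (14, 6), (16, 6), (18, 4), (20, 4),
    (22, 4), (24, 2), (32, 2), (43, 3), (44, 1)]) (.alt (.split 3 [0, 1, 1, -1] (.alt (.leaf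
    [(0, 2), (14, 1), (18, 1), (48, 2)]) (.alt (.leaf [(0, 2), (14, 3), (18, 3), (48, 2)]) (.alt
    (.leaf [(0, 1), (1, 1), (15, 2), (17, 2), (19, 2), (21, 2), (23, 1), (41, 1), (44, 1)])
    (.alt (.leaf [(0, 4), (3, 2), (15, 2), (17, 2), (19, 4), (21, 4), (23, 4), (24, 2), (44, 1),
    (45, 3)]) (.alt (.leaf [(0, 1), (2, 1), (15, 1), (17, 1), (19, 1), (21, 1), (23, 1), (35,
    1), (46, 1)]) (.alt (.leaf [(0, 2), (5, 1), (15, 1), (17, 2), (19, 2), (21, 2), (23, 1),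
    (26, 1), (42, 1), (47, 1)]) (.alt (.leaf [(3, 1), (6, 1), (8, 1), (24, 1), (26, 1), (29, 1),
    (46, 1)]) (.done))))))))) (.alt (.leaf [(0, 1), (1, 1), (14, 1), (16, 1), (18, 2), (20, 1),
    (22, 1), (38, 1), (45, 1)]) (.alt (.leaf [(0, 4), (4, 4), (14, 2), (16, 6), (18, 4), (20,
    4), (22, 4), (25, 2), (34, 2), (43, 1), (44, 1), (45, 2)]) (.done)))))))) (.alt (.leaf [(0,
    2), (2, 1), (3, 2), (11, 1), (15, 2), (17, 4), (19, 3), (21, 1), (25, 1), (37, 1), (39, 1),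
    (40, 1), (42, 1)]) (.alt (.leaf [(1, 2), (17, 1), (21, 3), (51, 2)]) (.done))))))))) (.alt
    (.leaf [(0, 1), (1, 1), (2, 1), (10, 1), (12, 1), (14, 2), (16, 3), (18, 3), (20, 1), (38,
    1), (39, 1), (41, 1)]) (.alt (.split 3 [0, 0, 1, -1] (.alt (.leaf [(0, 2), (12, 1), (16, 3),
    (46, 2)]) (.alt (.leaf [(0, 2), (12, 3), (16, 1), (46, 2)]) (.alt (.leaf [(0, 4), (2, 4),
    (11, 4), (13, 6), (15, 6), (17, 4), (19, 4), (21, 4), (23, 2), (31, 2), (42, 3), (43, 1)])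
    (.alt (.split 3 [0, 1, 0, -1] (.alt (.leaf [(0, 2), (13, 3), (17, 3), (47, 4)]) (.alt (.leaf
    [(0, 2), (13, 1), (17, 1)]) (.alt (.leaf [(0, 1), (1, 1), (14, 2), (16, 2), (18, 2), (20,
    1), (35, 1), (40, 1)]) (.alt (.leaf [(0, 4), (3, 4), (12, 4), (14, 6), (16, 6), (18, 4),
    (20, 4), (22, 4), (23, 2), (32, 2), (43, 3), (44, 1)]) (.alt (.leaf [(0, 2), (3, 1), (4, 2),
    (12, 1), (14, 2), (16, 4), (18, 3), (20, 3), (22, 2), (26, 1), (34, 1), (40, 1), (43, 1),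
    (45, 1)]) (.alt (.leaf [(0, 2), (2, 1), (14, 1), (18, 1), (25, 1), (29, 1), (38, 1)]) (.alt
    (.leaf [(0, 2), (18, 1), (22, 1), (52, 2)]) (.done))))))))) (.alt (.leaf [(0, 2), (1, 1),
    (13, 1), (17, 1), (25, 1), (28, 1), (37, 1)]) (.alt (.leaf [(0, 2), (2, 1), (3, 2), (11, 1),
    (13, 2), (15, 4), (17, 3), (19, 3), (21, 2), (24, 1), (33, 1), (39, 1), (42, 1), (44, 1)])
    (.done)))))))) (.done)))))) (.alt (.leaf [(0, 2), (9, 2), (11, 2), (13, 2), (15, 2), (17,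
    2), (19, 1), (36, 1), (41, 1), (46, 1), (48, 1)]) (.alt (.leaf [(0, 1), (9, 1), (11, 1),
    (13, 1), (15, 1), (17, 1), (19, 1), (42, 1), (51, 1)]) (.alt (.leaf [(0, 1), (1, 1), (9, 1),
    (11, 1), (13, 2), (15, 2), (17, 1), (35, 1), (38, 1)]) (.alt (.leaf [(1, 1), (19, 1)])
    (.done))))))))) (.alt (.leaf [(0, 1), (12, 1), (14, 1), (16, 1), (18, 1), (42, 1), (48, 1)])
    (.done)))))

/-- Class (1, 1, 1). -/
def Z0.T7 : Tree :=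
  .split 4 [] (.alt (.leaf [(0, 1), (12, 1), (14, 1), (16, 1), (18, 1), (39, 1), (47, 1)]) (.alt
    (.leaf [(0, 1), (12, 1), (14, 1), (16, 1), (36, 1), (45, 1)]) (.alt (.split 2 [0, 1, 0, 0]
    (.alt (.leaf [(0, 1), (44, 1)]) (.alt (.leaf [(0, 1), (14, 2), (44, 1)]) (.alt (.split 5 []
    (.alt (.leaf [(0, 2), (1, 2), (10, 2), (12, 2), (14, 2), (16, 4), (18, 2), (20, 2), (33, 2),
    (41, 1), (42, 1)]) (.alt (.split 6 [0, 0, 0, 1] (.alt (.leaf [(0, 2), (12, 2), (14, 1), (46,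
    1)]) (.alt (.leaf [(0, 2), (12, 6), (14, 3), (16, 8), (46, 7)]) (.alt (.split 4 [1, 1, 0,
    -1] (.alt (.leaf [(0, 2), (13, 2), (15, 1), (17, 2), (47, 3)]) (.alt (.leaf [(0, 2), (13,
    2), (15, 3), (17, 2), (47, 1)]) (.alt (.leaf [(0, 2), (1, 2), (2, 2), (16, 2), (18, 4), (20,
    6), (22, 4), (40, 2), (43, 3), (44, 1)]) (.alt (.leaf [(0, 2), (3, 2), (12, 2), (14, 1),
    (16, 3), (18, 1), (20, 1), (22, 1), (23, 1), (32, 2), (43, 1)]) (.alt (.leaf [(0, 4), (3,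
    2), (4, 4), (12, 2), (16, 8), (18, 8), (20, 8), (22, 6), (26, 2), (40, 2), (43, 3), (44, 1),
    (45, 2)]) (.alt (.split 3 [0, 0, 1, -1] (.alt (.leaf [(0, 2), (14, 2), (16, 1), (18, 4),
    (48, 3)]) (.alt (.split 4 [0, 0, 1, -1] (.alt (.leaf [(0, 2), (15, 2), (17, 3), (19, 4),
    (49, 3)]) (.alt (.leaf [(0, 2), (15, 2), (17, 1), (49, 1)]) (.alt (.leaf [(0, 2), (3, 2),
    (5, 2), (14, 2), (16, 2), (18, 4), (20, 2), (22, 4), (24, 4), (34, 2), (45, 3), (46, 1)])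
    (.alt (.split 4 [0, 1, 0, -1] (.alt (.leaf [(0, 2), (16, 4), (18, 3), (20, 4), (50, 5)])
    (.alt (.leaf [(0, 1), (2, 1), (16, 1)]) (.alt (.leaf [(0, 1), (1, 1), (5, 1), (19, 2), (21,
    3), (23, 3), (25, 1), (43, 2), (46, 1)]) (.alt (.leaf [(0, 3), (1, 1), (5, 1), (6, 2), (15,
    2), (19, 4), (21, 5), (23, 5), (25, 5), (26, 2), (46, 3), (47, 2)]) (.alt (.leaf [(0, 2),
    (3, 2), (19, 4), (21, 2), (23, 2), (25, 2), (37, 2), (46, 1), (47, 1)]) (.alt (.split 4 [0,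
    1, 1, -1] (.alt (.leaf [(0, 2), (17, 2), (19, 3), (21, 2), (51, 3)]) (.alt (.leaf [(0, 2),
    (17, 2), (19, 1), (21, 2), (51, 1)]) (.alt (.leaf [(0, 1), (2, 1), (20, 2), (22, 2), (24,
    2), (26, 1), (44, 1), (47, 1)]) (.alt (.leaf [(0, 4), (6, 4), (7, 2), (16, 2), (20, 4), (22,
    8), (24, 8), (26, 6), (27, 2), (44, 2), (47, 3), (48, 3)]) (.alt (.leaf [(0, 2), (1, 4), (7,
    1), (16, 1), (20, 5), (22, 5), (24, 4), (26, 1), (29, 1), (33, 1), (42, 1), (44, 1), (45,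
    2), (47, 1)]) (.alt (.leaf [(0, 2), (7, 1), (8, 3), (16, 1), (20, 5), (22, 5), (24, 4), (26,
    1), (29, 1), (42, 1), (44, 1), (45, 2), (47, 1)]) (.alt (.leaf [(3, 1), (7, 1), (11, 2),
    (12, 1), (21, 1), (25, 1), (27, 3), (29, 3), (31, 1), (32, 1), (49, 2), (52, 1)])
    (.done))))))))) (.alt (.leaf [(3, 1), (6, 1), (10, 1), (11, 1), (20, 1), (24, 1), (26, 2),
    (28, 2), (30, 1), (31, 1), (48, 1), (51, 1)]) (.done))))))))) (.alt (.leaf [(0, 1), (2, 1),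
    (18, 1), (20, 1), (31, 1), (40, 1)]) (.alt (.leaf [(0, 4), (5, 2), (6, 4), (14, 2), (18, 8),
    (20, 8), (22, 8), (24, 6), (27, 2), (42, 2), (45, 3), (46, 1), (47, 2)]) (.alt (.leaf [(2,
    1), (8, 1), (10, 1), (19, 1), (21, 1), (23, 1), (27, 1), (29, 1), (39, 1), (50, 1)])
    (.done))))))))) (.alt (.leaf [(0, 2), (2, 2), (4, 2), (13, 2), (15, 4), (17, 4), (19, 2),
    (21, 4), (23, 4), (33, 2), (44, 3), (45, 1)]) (.alt (.leaf [(0, 2), (3, 2), (15, 1), (17,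
    1), (19, 3), (21, 3), (23, 1), (24, 1), (41, 2), (44, 1)]) (.alt (.leaf [(0, 1), (1, 1),
    (15, 1), (17, 1), (19, 1), (30, 1), (39, 1)]) (.alt (.leaf [(0, 2), (5, 2), (15, 1), (17,
    3), (19, 3), (21, 3), (23, 3), (26, 1), (44, 1), (45, 1), (46, 1)]) (.alt (.leaf [(2, 1),
    (7, 1), (9, 1), (18, 1), (20, 1), (22, 1), (26, 1), (28, 1), (38, 1), (49, 1)])
    (.done))))))))) (.done)))))))) (.alt (.leaf [(0, 2), (2, 2), (11, 2), (13, 1), (15, 1), (17,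
    1), (19, 3), (21, 1), (23, 1), (39, 2), (42, 1)]) (.alt (.split 6 [] (.alt (.leaf [(0, 1),
    (2, 1), (18, 1), (20, 2), (22, 1), (40, 1), (43, 1)]) (.alt (.leaf [(0, 1), (3, 2), (12, 2),
    (14, 2), (16, 2), (18, 1), (20, 2), (22, 1), (32, 1), (40, 1), (43, 1)]) (.alt (.leaf [(0,
    2), (4, 2), (16, 2), (18, 2), (20, 4), (22, 4), (43, 1), (44, 1), (45, 2)]) (.alt (.split 3
    [0, 0, 1, -1] (.alt (.leaf [(0, 2), (14, 2), (16, 1), (18, 4), (48, 3)]) (.alt (.split 4 [0,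
    0, 1, -1] (.alt (.leaf [(0, 2), (15, 2), (17, 3), (19, 4), (49, 3)]) (.alt (.leaf [(0, 2),
    (15, 2), (17, 1), (49, 1)]) (.alt (.leaf [(0, 2), (5, 2), (14, 2), (16, 1), (18, 3), (20,
    1), (22, 1), (24, 1), (26, 1), (34, 2), (45, 1)]) (.alt (.split 2 [0, 0, 2, -1] (.alt (.leaf
    [(0, 1), (2, 1), (20, 1), (50, 1)]) (.alt (.split 3 [0, 0, 2, -1] (.alt (.leaf [(0, 1), (1,
    1), (17, 1), (21, 2), (51, 2)]) (.alt (.split 4 [0, 1, 1, -1] (.alt (.leaf [(0, 2), (18, 2),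
    (20, 3), (22, 2), (52, 3)]) (.alt (.leaf [(0, 1), (1, 1), (18, 3), (22, 2), (52, 2)]) (.alt
    (.leaf [(0, 1), (3, 1), (21, 2), (23, 2), (25, 2), (27, 1), (45, 1), (48, 1)]) (.alt (.leaf
    [(0, 4), (7, 4), (8, 2), (17, 2), (21, 4), (23, 8), (25, 8), (27, 6), (28, 2), (45, 2), (48,
    3), (49, 3)]) (.alt (.leaf [(0, 1), (3, 2), (5, 1), (6, 1), (7, 2), (8, 1), (17, 1), (21,
    2), (23, 3), (25, 5), (27, 2), (28, 1), (34, 1), (39, 1), (45, 3), (48, 2)]) (.alt (.leaf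
    [(0, 2), (8, 1), (9, 3), (17, 1), (21, 5), (23, 5), (25, 4), (27, 1), (30, 1), (43, 1), (45,
    1), (46, 2), (48, 1)]) (.alt (.leaf [(3, 1), (8, 1), (12, 2), (13, 1), (22, 1), (26, 1),
    (28, 3), (30, 3), (32, 1), (33, 1), (50, 2), (53, 1)]) (.done))))))))) (.alt (.leaf [(0, 2),
    (2, 4), (18, 1), (20, 5), (22, 5), (24, 5), (26, 5), (27, 1), (47, 3), (48, 2)]) (.alt
    (.leaf [(0, 1), (2, 1), (6, 3), (20, 1), (22, 4), (24, 4), (26, 1), (27, 1), (44, 3), (47,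
    1)]) (.alt (.leaf [(0, 1), (2, 2), (5, 1), (6, 2), (22, 2), (24, 3), (26, 1), (27, 1), (33,
    2), (44, 2), (47, 1)]) (.alt (.leaf [(0, 2), (8, 4), (18, 1), (20, 5), (22, 5), (24, 5),
    (26, 5), (29, 1), (47, 2), (48, 2), (49, 1)]) (.alt (.leaf [(5, 4), (12, 2), (13, 8), (21,
    2), (25, 8), (27, 8), (29, 8), (31, 6), (34, 2), (49, 2), (52, 3), (53, 1), (54, 2)])
    (.done))))))))) (.alt (.leaf [(0, 2), (1, 4), (15, 2), (17, 1), (19, 5), (21, 5), (23, 5),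
    (25, 5), (26, 1), (46, 3), (47, 2)]) (.alt (.leaf [(0, 2), (5, 4), (15, 2), (17, 1), (19,
    1), (21, 5), (23, 5), (25, 1), (26, 1), (43, 4), (46, 1)]) (.alt (.leaf [(0, 1), (1, 2), (4,
    1), (5, 2), (15, 1), (21, 2), (23, 3), (25, 1), (26, 1), (32, 2), (43, 2), (46, 1)]) (.alt
    (.leaf [(0, 2), (7, 4), (15, 2), (17, 1), (19, 5), (21, 5), (23, 5), (25, 5), (28, 1), (46,
    2), (47, 2), (48, 1)]) (.alt (.leaf [(5, 4), (11, 2), (12, 8), (20, 2), (24, 8), (26, 8),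
    (28, 8), (30, 6), (33, 2), (48, 2), (51, 3), (52, 1), (53, 2)]) (.done))))))))) (.alt (.leaf
    [(0, 1), (3, 1), (5, 1), (14, 1), (16, 1), (18, 1), (20, 1), (22, 2), (24, 1), (31, 1), (42,
    1), (45, 1)]) (.alt (.leaf [(0, 4), (5, 2), (6, 4), (14, 2), (18, 8), (20, 8), (22, 8), (24,
    6), (27, 2), (42, 2), (45, 3), (46, 1), (47, 2)]) (.alt (.leaf [(5, 2), (7, 1), (10, 1),
    (11, 1), (19, 1), (23, 1), (25, 1), (27, 2), (29, 1), (32, 1), (47, 1), (50, 1)])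
    (.done))))))))) (.alt (.leaf [(0, 2), (4, 2), (13, 2), (15, 3), (17, 3), (19, 1), (21, 1),
    (23, 1), (25, 1), (33, 2), (44, 1)]) (.alt (.leaf [(0, 2), (3, 2), (15, 1), (17, 1), (19,
    3), (21, 3), (23, 1), (24, 1), (41, 2), (44, 1)]) (.alt (.leaf [(0, 1), (2, 1), (4, 1), (13,
    1), (15, 2), (17, 1), (19, 1), (21, 2), (23, 1), (30, 1), (41, 1), (44, 1)]) (.alt (.leaf
    [(0, 2), (5, 2), (15, 1), (17, 3), (19, 3), (21, 3), (23, 3), (26, 1), (44, 1), (45, 1),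
    (46, 1)]) (.alt (.leaf [(5, 2), (6, 1), (9, 1), (10, 1), (18, 1), (22, 1), (24, 1), (26, 2),
    (28, 1), (31, 1), (46, 1), (49, 1)]) (.done))))))))) (.done)))))) (.alt (.leaf [(0, 2), (2,
    1), (3, 1), (11, 1), (15, 1), (17, 1), (19, 2), (21, 1), (25, 1), (37, 1), (39, 1), (42,
    1)]) (.alt (.leaf [(1, 2), (17, 2), (19, 1), (21, 4), (51, 3)]) (.done))))))))) (.alt (.leaf
    [(0, 1), (1, 1), (2, 1), (10, 1), (12, 1), (14, 2), (16, 3), (18, 3), (20, 1), (38, 1), (39,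
    1), (41, 1)]) (.alt (.split 6 [0, 0, 0, 1] (.alt (.leaf [(0, 2), (12, 2), (14, 1), (46, 1)])
    (.alt (.leaf [(0, 2), (12, 6), (14, 3), (16, 8), (46, 7)]) (.alt (.split 4 [1, 1, 0, -1]
    (.alt (.leaf [(0, 2), (13, 2), (15, 1), (17, 2), (47, 3)]) (.alt (.leaf [(0, 2), (13, 2),
    (15, 3), (17, 2), (47, 1)]) (.alt (.leaf [(0, 1), (1, 1), (3, 1), (12, 1), (14, 1), (16, 2),
    (18, 2), (20, 2), (22, 1), (35, 1), (40, 1), (43, 1)]) (.alt (.leaf [(0, 2), (3, 2), (12,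
    2), (14, 1), (16, 3), (18, 1), (20, 1), (22, 1), (23, 1), (32, 2), (43, 1)]) (.alt (.leaf
    [(0, 2), (3, 2), (4, 2), (12, 2), (14, 1), (16, 5), (18, 5), (20, 5), (22, 3), (26, 1), (40,
    2), (43, 2), (45, 1)]) (.alt (.split 4 [0, 0, 1, -1] (.alt (.leaf [(0, 2), (14, 2), (16, 3),
    (18, 4), (48, 3)]) (.alt (.leaf [(0, 2), (14, 2), (16, 1), (48, 1)]) (.alt (.leaf [(0, 1),
    (2, 1), (4, 2), (13, 2), (15, 2), (17, 3), (19, 2), (21, 3), (23, 2), (33, 1), (41, 1), (44,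
    2)]) (.alt (.split 6 [0, 1, 0, -1] (.alt (.leaf [(0, 2), (15, 6), (17, 3), (19, 6), (49,
    7)]) (.alt (.leaf [(0, 2), (15, 2), (17, 1), (19, 2), (49, 1)]) (.alt (.leaf [(0, 1), (1,
    1), (18, 1), (20, 1), (22, 1), (37, 1), (42, 1)]) (.alt (.leaf [(0, 2), (5, 2), (14, 2),
    (16, 1), (18, 1), (20, 1), (22, 3), (24, 3), (25, 1), (45, 2), (46, 1)]) (.alt (.leaf [(0,
    1), (2, 1), (5, 1), (14, 1), (16, 1), (18, 2), (20, 1), (22, 2), (24, 1), (36, 1), (42, 1),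
    (45, 1)]) (.alt (.split 3 [0, 0, 1, -1] (.alt (.leaf [(0, 2), (16, 2), (18, 1), (20, 4),
    (50, 3)]) (.alt (.split 4 [0, 1, 0, -1] (.alt (.leaf [(0, 2), (17, 4), (19, 3), (21, 4),
    (51, 5)]) (.alt (.leaf [(0, 1), (1, 1), (17, 1)]) (.alt (.leaf [(0, 1), (3, 1), (20, 2),
    (22, 2), (24, 1), (39, 1), (44, 1)]) (.alt (.leaf [(0, 2), (7, 2), (16, 2), (18, 1), (20,
    3), (22, 3), (24, 3), (26, 3), (27, 1), (47, 2), (48, 1)]) (.alt (.leaf [(0, 1), (2, 1),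
    (20, 1), (22, 1), (24, 2), (26, 2), (47, 1), (48, 1)]) (.alt (.leaf [(0, 2), (6, 2), (7, 1),
    (16, 1), (20, 1), (22, 3), (24, 2), (26, 1), (29, 1), (33, 1), (42, 1), (44, 1), (47, 1)])
    (.alt (.leaf [(3, 2), (12, 2), (21, 2), (23, 1), (25, 1), (27, 1), (29, 1), (31, 1), (32,
    1), (52, 1)]) (.done))))))))) (.alt (.leaf [(0, 1), (2, 1), (17, 1), (19, 2), (21, 2), (23,
    2), (25, 2), (46, 1), (47, 1)]) (.alt (.leaf [(0, 2), (1, 2), (5, 2), (6, 1), (15, 1), (17,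
    1), (21, 2), (23, 1), (26, 1), (28, 1), (32, 1), (38, 2), (41, 1), (43, 1)]) (.alt (.leaf
    [(0, 1), (1, 1), (5, 1), (17, 1), (19, 1), (21, 2), (23, 1), (25, 1), (41, 2), (48, 1)])
    (.alt (.leaf [(0, 1), (1, 1), (5, 1), (21, 1), (23, 2), (25, 2), (28, 1), (46, 1), (47, 1)])
    (.alt (.leaf [(2, 1), (7, 1), (11, 1), (20, 1), (22, 1), (24, 2), (26, 2), (28, 2), (30, 1),
    (48, 1), (51, 1)]) (.done))))))))) (.alt (.leaf [(3, 2), (10, 2), (19, 2), (21, 1), (23, 1),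
    (25, 1), (27, 1), (29, 1), (30, 1), (50, 1)]) (.done))))))))) (.alt (.leaf [(0, 1), (1, 1),
    (17, 1), (19, 1), (30, 1), (39, 1)]) (.alt (.leaf [(0, 2), (4, 2), (5, 2), (13, 2), (15, 1),
    (17, 5), (19, 5), (21, 5), (23, 3), (26, 1), (41, 2), (44, 2), (46, 1)]) (.alt (.leaf [(2,
    1), (7, 1), (9, 1), (18, 1), (20, 1), (22, 1), (26, 1), (28, 1), (38, 1), (49, 1)])
    (.done))))))))) (.done)))))))) (.alt (.leaf [(0, 2), (2, 2), (11, 2), (13, 1), (15, 1), (17,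
    1), (19, 3), (21, 1), (23, 1), (39, 2), (42, 1)]) (.alt (.split 4 [0, 0, 1, -1] (.alt (.leaf
    [(0, 2), (13, 2), (15, 3), (17, 4), (47, 3)]) (.alt (.leaf [(0, 2), (13, 2), (15, 1), (47,
    1)]) (.alt (.leaf [(0, 2), (3, 2), (12, 2), (14, 1), (16, 3), (18, 1), (20, 1), (22, 1),
    (24, 1), (32, 2), (43, 1)]) (.alt (.split 6 [0, 1, 0, -1] (.alt (.leaf [(0, 2), (14, 6),
    (16, 3), (18, 6), (48, 7)]) (.alt (.leaf [(0, 2), (14, 2), (16, 1), (18, 2), (48, 1)]) (.alt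
    (.leaf [(0, 1), (1, 1), (17, 1), (19, 1), (21, 1), (36, 1), (41, 1)]) (.alt (.leaf [(0, 2),
    (4, 2), (13, 2), (15, 1), (17, 1), (19, 1), (21, 3), (23, 3), (24, 1), (44, 2), (45, 1)])
    (.alt (.leaf [(0, 1), (2, 1), (4, 1), (5, 1), (13, 1), (15, 1), (17, 2), (19, 1), (21, 3),
    (23, 2), (35, 1), (41, 1), (44, 1), (46, 1)]) (.alt (.split 3 [0, 0, 1, -1] (.alt (.leaf
    [(0, 2), (15, 2), (17, 1), (19, 4), (49, 3)]) (.alt (.split 4 [0, 1, 0, -1] (.alt (.leaf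
    [(0, 2), (16, 4), (18, 3), (20, 4), (50, 5)]) (.alt (.leaf [(0, 1), (1, 1), (16, 1)]) (.alt
    (.leaf [(0, 1), (3, 1), (19, 2), (21, 2), (23, 1), (38, 1), (43, 1)]) (.alt (.leaf [(0, 2),
    (6, 2), (15, 2), (17, 1), (19, 3), (21, 3), (23, 3), (25, 3), (26, 1), (46, 2), (47, 1)])
    (.alt (.leaf [(0, 1), (2, 1), (19, 1), (21, 1), (23, 2), (25, 2), (46, 1), (47, 1)]) (.alt
    (.leaf [(0, 2), (5, 2), (6, 1), (15, 1), (19, 1), (21, 3), (23, 2), (25, 1), (28, 1), (32,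
    1), (41, 1), (43, 1), (46, 1)]) (.alt (.leaf [(3, 2), (11, 2), (20, 2), (22, 1), (24, 1),
    (26, 1), (28, 1), (30, 1), (31, 1), (51, 1)]) (.done))))))))) (.alt (.leaf [(0, 1), (2, 1),
    (16, 1), (18, 2), (20, 2), (22, 2), (24, 2), (45, 1), (46, 1)]) (.alt (.leaf [(0, 2), (1,
    2), (4, 2), (5, 1), (14, 1), (16, 1), (20, 2), (22, 1), (25, 1), (27, 1), (31, 1), (37, 2),
    (40, 1), (42, 1)]) (.alt (.leaf [(0, 1), (1, 1), (4, 1), (16, 1), (18, 1), (20, 2), (22, 1),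
    (24, 1), (40, 2), (47, 1)]) (.alt (.leaf [(0, 1), (1, 1), (4, 1), (20, 1), (22, 2), (24, 2),
    (27, 1), (45, 1), (46, 1)]) (.alt (.leaf [(2, 1), (7, 1), (10, 1), (19, 1), (21, 1), (23,
    2), (25, 2), (27, 2), (29, 1), (47, 1), (50, 1)]) (.done))))))))) (.alt (.leaf [(3, 2), (9,
    2), (18, 2), (20, 1), (22, 1), (24, 1), (26, 1), (28, 1), (29, 1), (49, 1)]) (.done)))))))))
    (.alt (.leaf [(0, 1), (1, 1), (3, 1), (12, 1), (14, 1), (16, 1), (18, 1), (20, 2), (22, 1),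
    (29, 1), (40, 1), (43, 1)]) (.alt (.leaf [(0, 2), (3, 2), (4, 2), (12, 2), (14, 1), (16, 5),
    (18, 5), (20, 5), (22, 3), (25, 1), (40, 2), (43, 2), (45, 1)]) (.alt (.leaf [(0, 2), (20,
    1), (22, 2), (52, 1)]) (.done))))))))) (.alt (.leaf [(0, 2), (2, 1), (3, 1), (11, 1), (15,
    1), (17, 1), (19, 2), (21, 1), (25, 1), (37, 1), (39, 1), (42, 1)]) (.alt (.leaf [(1, 2),
    (17, 2), (19, 1), (21, 4), (51, 3)]) (.done))))))))) (.done)))))) (.alt (.leaf [(0, 1), (9,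
    1), (11, 1), (13, 1), (15, 1), (17, 1), (19, 1), (41, 1), (50, 1)]) (.alt (.leaf [(0, 1),
    (9, 1), (11, 1), (13, 1), (15, 1), (17, 1), (19, 1), (42, 1), (51, 1)]) (.alt (.leaf [(0,
    1), (1, 1), (9, 1), (11, 1), (13, 2), (15, 2), (17, 1), (35, 1), (38, 1)]) (.alt (.leaf [(1,
    1), (19, 1)]) (.done))))))))) (.alt (.leaf [(0, 1), (12, 1), (14, 1), (16, 1), (18, 1), (42,
    1), (48, 1)]) (.done)))))

/-- The eight classes. -/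
def Z0.T : ℕ → Tree
  | 0 => Z0.T0
  | 1 => Z0.T1
  | 2 => Z0.T2
  | 3 => Z0.T3
  | 4 => Z0.T4
  | 5 => Z0.T5
  | 6 => Z0.T6
  | 7 => Z0.T7
  | _ => .done

theorem Z0.chk : checkCls Z0.D 3 [(0, -1, 1), (1, 1, -1), (1, 0, -1)] Z0.T = true := by decide +kernel

end Pool.Agent.Work.MP_7453a1_nt_sup
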