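import Mathlib

set_option autoImplicit false

/-!
A verified checker for infeasibility trees: systems of linear inequalities together with clauses
(disjunctions of systems of linear inequalities) are refuted by case trees with Farkas
certificates at the leaves.
-/

namespace Pool.Agent.Work.MP_7453a1_nt_sup

/-- Linear form with the given coefficients. -/
noncomputable def dot : List ℤ → (ℕ → ℝ) → ℝ
  | [], _ => 0
  | a :: l, f => a * f 0 + dot l (fun i => f (i + 1))

/-- Sum of coefficient lists. -/
def ladd : List ℤ → List ℤ → List ℤ
  | [], l => l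
  | a :: l, [] => a :: l
  | a :: l, b :: m => (a + b) :: ladd l m

/-- Multiple of a coefficient list. -/
def lmul (a : ℤ) : List ℤ → List ℤ
  | [] => []
  | b :: l => (a * b) :: lmul a l

/-- All coefficients vanish. -/
def lzero : List ℤ → Bool
  | [] => true
  | a :: l => (a == 0) && lzero l

lemma dot_ladd (l m : List ℤ) (f : ℕ → ℝ) : dot (ladd l m) f = dot l f + dot m f := by
  induction l generalizing m f with
  | nil => simp [ladd, dot]
  | cons a l ih =>
    cases m with
    | nil => simp [ladd, dot]
    | cons b m => simp only [ladd, dot, ih]; push_cast; ring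

lemma dot_lmul (a : ℤ) (l : List ℤ) (f : ℕ → ℝ) : dot (lmul a l) f = a * dot l f := by
  induction l generalizing f with
  | nil => simp [lmul, dot]
  | cons b l ih => simp only [lmul, dot, ih]; push_cast; ring

lemma dot_lzero (l : List ℤ) (f : ℕ → ℝ) (h : lzero l = true) : dot l f = 0 := by
  induction l generalizing f with
  | nil => simp [dot]
  | cons a l ih =>
    simp only [lzero, Bool.and_eq_true, beq_iff_eq] at h
    simp [dot, ih _ h.2, h.1]

/-- Unit coefficient list. -/
def unit : ℕ → List ℤ
  | 0 => [1]
  | t + 1 => 0 :: unit t

lemma dot_unit (t : ℕ) (f : ℕ → ℝ) : dot (unit t) f = f t := by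
  induction t generalizing f with
  | zero => simp [unit, dot]
  | succ t ih => simp [unit, dot, ih]

/-- A linear form in five blocks of variables. -/
structure Form where
  q : List ℤ
  x : List ℤ
  y : List ℤ
  r : List ℤ
  m : List ℤ

/-- Values of the variables. -/
structure Env where
  q : ℕ → ℝ
  x : ℕ → ℝ
  y : ℕ → ℝ
  r : ℕ → ℝ
  m : ℕ → ℝ

/-- Value of a form. -/
noncomputable def Form.val (F : Form) (E : Env) : ℝ :=
  dot F.q E.q + dot F.x E.x + dot F.y E.y + dot F.r E.r + dot F.m E.m

/-- Sum of forms. -/
def Form.add (F H : Form) : Form :=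
  ⟨ladd F.q H.q, ladd F.x H.x, ladd F.y H.y, ladd F.r H.r, ladd F.m H.m⟩

/-- Multiple of a form. -/
def Form.mul (a : ℤ) (F : Form) : Form :=
  ⟨lmul a F.q, lmul a F.x, lmul a F.y, lmul a F.r, lmul a F.m⟩

/-- The form is zero. -/
def Form.isZero (F : Form) : Bool :=
  lzero F.q && (lzero F.x && (lzero F.y && (lzero F.r && lzero F.m)))

/-- `F - H`. -/
def Form.sub (F H : Form) : Form := F.add (H.mul (-1))

lemma Form.val_add (F H : Form) (E : Env) : (F.add H).val E = F.val E + H.val E := by
  simp only [Form.val, Form.add, dot_ladd]; ring

lemma Form.val_mul (a : ℤ) (F : Form) (E : Env) : (F.mul a).val E = a * F.val E := by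
  simp only [Form.val, Form.mul, dot_lmul]; ring

lemma Form.val_sub (F H : Form) (E : Env) : (F.sub H).val E = F.val E - H.val E := by
  rw [Form.sub, Form.val_add, Form.val_mul]; push_cast; ring

lemma Form.val_isZero (F : Form) (E : Env) (h : F.isZero = true) : F.val E = 0 := by
  simp only [Form.isZero, Bool.and_eq_true] at h
  simp [Form.val, dot_lzero _ _ h.1, dot_lzero _ _ h.2.1, dot_lzero _ _ h.2.2.1,
    dot_lzero _ _ h.2.2.2.1, dot_lzero _ _ h.2.2.2.2]

/-- A constraint: the form is `≥ 0`, or `> 0` if `strict`. -/
structure Con where
  form : Form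
  strict : Bool

/-- The constraint holds. -/
def Con.holds (E : Env) (c : Con) : Prop :=
  if c.strict then 0 < c.form.val E else 0 ≤ c.form.val E

lemma Con.holds.nonneg {E : Env} {c : Con} (h : c.holds E) : 0 ≤ c.form.val E := by
  unfold Con.holds at h
  split_ifs at h
  · exact h.le
  · exact h

/-- Combination of the constraints with the given positions and multipliers, starting from an
accumulated constraint. -/
def gather (ctx : List Con) : List (ℕ × ℕ) → Con → Con
  | [], acc => acc
  | (i, a) :: l, acc =>
    match ctx[i]? with
    | some c => gather ctx l ⟨acc.form.add (c.form.mul (a : ℤ)), acc.strict || (c.strict && (a != 0))⟩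
    | none => gather ctx l acc

lemma gather_holds {E : Env} {ctx : List Con} (h : ∀ c ∈ ctx, c.holds E) (l : List (ℕ × ℕ))
    (acc : Con) (hacc : acc.holds E) : (gather ctx l acc).holds E := by
  induction l generalizing acc with
  | nil => exact hacc
  | cons p l ih =>
    obtain ⟨i, a⟩ := p
    unfold gather
    split
    · next c hc =>
      apply ih
      have h1 : c.holds E := h c (List.mem_of_getElem? hc)
      have h2 := h1.nonneg
      have h3 := hacc.nonneg
      have ha : (0 : ℝ) ≤ ((a : ℤ) : ℝ) := by positivity
      unfold Con.holds
      simp only [Form.val_add, Form.val_mul]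
      split_ifs with hs
      · simp only [Bool.or_eq_true, Bool.and_eq_true, bne_iff_ne, ne_eq] at hs
        rcases hs with hs | ⟨hs, hs'⟩
        · unfold Con.holds at hacc
          rw [if_pos hs] at hacc
          nlinarith [mul_nonneg ha h2]
        · unfold Con.holds at h1
          rw [if_pos hs] at h1
          have : (0 : ℝ) < ((a : ℤ) : ℝ) := by
            have : 0 < a := Nat.pos_of_ne_zero hs'
            exact_mod_cast this
          nlinarith [mul_pos this h1]
      · nlinarith [mul_nonneg ha h2]
    · exact ih acc hacc

/-- Farkas certificate. -/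
def farkas (ctx : List Con) (l : List (ℕ × ℕ)) : Bool :=
  let c := gather ctx l ⟨⟨[], [], [], [], []⟩, false⟩
  c.strict && c.form.isZero

lemma farkas_false {E : Env} {ctx : List Con} (h : ∀ c ∈ ctx, c.holds E) (l : List (ℕ × ℕ))
    (hl : farkas ctx l = true) : False := by
  have h1 := gather_holds h l ⟨⟨[], [], [], [], []⟩, false⟩ (by simp [Con.holds, Form.val, dot])
  simp only [farkas, Bool.and_eq_true] at hl
  unfold Con.holds at h1
  rw [if_pos hl.1, Form.val_isZero _ _ hl.2] at h1
  exact lt_irrefl _ h1

/-- Case trees. -/
inductive Tree : Type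
  | leaf (l : List (ℕ × ℕ)) : Tree
  | split (t : ℕ) (c : List ℤ) (alts : Tree) : Tree
  | alt (t rest : Tree) : Tree
  | done : Tree

/-- The checker; `C` is the table of clauses. -/
def check (C : ℕ → List ℤ → List (List Con)) :
    Tree → List Con → Option (List (List Con)) → Bool
  | Tree.leaf l, ctx, none => farkas ctx l
  | Tree.split t c a, ctx, none => check C a ctx (some (C t c))
  | Tree.alt t r, ctx, some (L :: Ls) => check C t (L ++ ctx) none && check C r ctx (some Ls)
  | Tree.done, _, some [] => true
  | _, _, _ => false

/-- Some system of the list holds. -/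
def someHolds (E : Env) (Ls : List (List Con)) : Prop := ∃ L ∈ Ls, ∀ c ∈ L, c.holds E

lemma check_false {C : ℕ → List ℤ → List (List Con)} {E : Env} (hC : ∀ t c, someHolds E (C t c))
    (T : Tree) (ctx : List Con) (cl : Option (List (List Con)))
    (h : check C T ctx cl = true) (hctx : ∀ c ∈ ctx, c.holds E)
    (hcl : ∀ Ls, cl = some Ls → someHolds E Ls) : False := by
  induction T generalizing ctx cl with
  | leaf l =>
    cases cl with
    | none => exact farkas_false hctx l h
    | some Ls => simp [check] at h
  | split t c a ih =>
    cases cl with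
    | none => exact ih ctx (some (C t c)) h hctx (fun Ls hLs => by
        rw [Option.some.injEq] at hLs; rw [← hLs]; exact hC t c)
    | some Ls => simp [check] at h
  | alt t r iht ihr =>
    cases cl with
    | none => simp [check] at h
    | some Ls =>
      cases Ls with
      | nil => simp [check] at h
      | cons L Ls =>
        simp only [check, Bool.and_eq_true] at h
        obtain ⟨K, hK, hK'⟩ := hcl _ rfl
        rcases List.mem_cons.mp hK with rfl | hK
        · exact iht _ none h.1 (fun c hc => by
            rcases List.mem_append.mp hc with hc | hc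
            · exact hK' c hc
            · exact hctx c hc) (fun _ h0 => by simp at h0)
        · exact ihr ctx (some Ls) h.2 hctx (fun Ls' h0 => by
            rw [Option.some.injEq] at h0; rw [← h0]; exact ⟨K, hK, hK'⟩)
  | done =>
    cases cl with
    | none => simp [check] at h
    | some Ls =>
      cases Ls with
      | nil =>
        obtain ⟨K, hK, _⟩ := hcl _ rfl
        simp at hK
      | cons L Ls => simp [check] at h

end Pool.Agent.Work.MP_7453a1_nt_sup
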