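import Pool.Agent.Work.MP_7453a1_nt_sup.Geom

set_option autoImplicit false

/-!
Refutation by the classes modulo 2 of one unknown point of the sequence.
-/

namespace Pool.Agent.Work.MP_7453a1_nt_sup

open Pool.Agent.Work.MP_7453a1_nt_norm

/-- The list of the coordinates. -/
def tl (s : ℤ × ℤ × ℤ) : List ℤ := [s.1, s.2.1, s.2.2]

/-- Four generators. -/
def gen4 (u v w s : Pt 2) : ℕ → Pt 2
  | 0 => u
  | 1 => v
  | 2 => w
  | 3 => s
  | _ => 0

/-- The coordinates of the point `s - h` in the generators, if it is integral. -/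
def nzOf (c s : ℤ × ℤ × ℤ) : Option (List ℤ) :=
  if (s.1 + c.1) % 2 = 0 ∧ (s.2.1 + c.2.1) % 2 = 0 ∧ (s.2.2 + c.2.2) % 2 = 0 then
    some [(s.1 + c.1) / 2, (s.2.1 + c.2.1) / 2, (s.2.2 + c.2.2) / 2, -1]
  else none

/-- The refutation problem for the class `c`. -/
def Data.cl (D : Data) (U : ℕ) (tg : List (ℤ × ℤ × ℤ)) (c : ℤ × ℤ × ℤ) : Data :=
  ⟨D.known.set U (some [-c.1, -c.2.1, -c.2.2, 2]), D.F, D.ext, tg.filterMap (nzOf c)⟩

/-- The check for one class. -/
def checkOne (D : Data) (U : ℕ) (tg : List (ℤ × ℤ × ℤ)) (c : ℤ × ℤ × ℤ) (T : Tree) : Bool :=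
  check (D.cl U tg c).clause T (D.cl U tg c).base none

variable {F : List (ℤ × ℤ)} {X Y : Pt 2 →+ ℝ} {z : ℕ → Pt 2} {r : ℕ → ℝ}

lemma one_class (h : Mod F X Y z r) (D : Data) (hF : D.F = F) (p U : ℕ) (u v w : Pt 2)
    (hk : ∀ s t c, D.known[t]? = some (some c) → z (p + t) = lc c (gen4 u v w s))
    (hx : ∀ s, ∀ e ∈ D.ext, e.holds X Y z p (gen4 u v w s))
    (tg : List (ℤ × ℤ × ℤ)) (htg : ∀ s ∈ tg, z (p + U) ≠ lc (tl s) (gen4 u v w 0))
    (c : ℤ × ℤ × ℤ) (s : Pt 2)
    (hz : z (p + U) = lc [-c.1, -c.2.1, -c.2.2, 2] (gen4 u v w s)) (T : Tree)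
    (hT : checkOne D U tg c T = true) : False := by
  refine refute h (D.cl U tg c) hF p (gen4 u v w s) ?_ (hx s) ?_ T hT
  · intro t c' hc'
    simp only [Data.cl] at hc'
    rw [List.getElem?_set] at hc'
    split_ifs at hc' with h1 h2
    · simp only [Option.some.injEq] at hc'
      rw [← h1, ← hc']; exact hz
    · exact hk s t c' hc'
  · intro c' hc' h0
    simp only [Data.cl] at hc'
    obtain ⟨s', hs', hs''⟩ := List.mem_filterMap.mp hc'
    unfold nzOf at hs''
    split_ifs at hs'' with h1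
    obtain ⟨h1, h2, h3⟩ := h1
    simp only [Option.some.injEq] at hs''
    have e1 : 2 * ((s'.1 + c.1) / 2) = s'.1 + c.1 := by omega
    have e2 : 2 * ((s'.2.1 + c.2.1) / 2) = s'.2.1 + c.2.1 := by omega
    have e3 : 2 * ((s'.2.2 + c.2.2) / 2) = s'.2.2 + c.2.2 := by omega
    set a := (s'.1 + c.1) / 2
    set b := (s'.2.1 + c.2.1) / 2
    set d := (s'.2.2 + c.2.2) / 2
    apply htg s' hs'
    rw [hz]
    rw [← hs''] at h0
    simp only [lc, gen4, tl] at h0 ⊢
    have hs : s = a • u + b • v + d • w := by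
      rw [← sub_eq_zero, ← neg_eq_zero, ← h0]; module
    have f1 : s'.1 = 2 * a - c.1 := by omega
    have f2 : s'.2.1 = 2 * b - c.2.1 := by omega
    have f3 : s'.2.2 = 2 * d - c.2.2 := by omega
    rw [f1, f2, f3, hs]
    module

/-- The check for all classes. -/
def checkCls (D : Data) (U : ℕ) (tg : List (ℤ × ℤ × ℤ)) (T : ℕ → Tree) : Bool :=
  checkOne D U tg (0, 0, 0) (T 0) && (checkOne D U tg (1, 0, 0) (T 1) &&
  (checkOne D U tg (0, 1, 0) (T 2) && (checkOne D U tg (0, 0, 1) (T 3) &&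
  (checkOne D U tg (1, 1, 0) (T 4) && (checkOne D U tg (1, 0, 1) (T 5) &&
  (checkOne D U tg (0, 1, 1) (T 6) && checkOne D U tg (1, 1, 1) (T 7)))))))

/-- Every point is in one of the eight classes of the combinations of `a`, `b`, `c`. -/
def Classes (a b c : Pt 2) : Prop := ∀ w : Pt 2,
    ∃ v, w = v + v ∨ w = a + (v + v) ∨ w = b + (v + v) ∨ w = c + (v + v) ∨
      w = a + b + (v + v) ∨ w = a + c + (v + v) ∨ w = b + c + (v + v) ∨
      w = a + b + c + (v + v)

theorem class_refute (h : Mod F X Y z r) (D : Data) (hF : D.F = F) (p U : ℕ) (u v w : Pt 2)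
    (hcl : Classes u v w)
    (hk : ∀ s t c, D.known[t]? = some (some c) → z (p + t) = lc c (gen4 u v w s))
    (hx : ∀ s, ∀ e ∈ D.ext, e.holds X Y z p (gen4 u v w s))
    (tg : List (ℤ × ℤ × ℤ)) (htg : ∀ s ∈ tg, z (p + U) ≠ lc (tl s) (gen4 u v w 0))
    (T : ℕ → Tree) (hT : checkCls D U tg T = true) : False := by
  simp only [checkCls, Bool.and_eq_true] at hT
  obtain ⟨h0, h1, h2, h3, h4, h5, h6, h7⟩ := hT
  obtain ⟨s, hs | hs | hs | hs | hs | hs | hs | hs⟩ := hcl (z (p + U))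
  · exact one_class h D hF p U u v w hk hx tg htg (0, 0, 0) s
      (by rw [hs]; simp only [lc, gen4]; module) _ h0
  · exact one_class h D hF p U u v w hk hx tg htg (1, 0, 0) (s + u)
      (by rw [hs]; simp only [lc, gen4]; module) _ h1
  · exact one_class h D hF p U u v w hk hx tg htg (0, 1, 0) (s + v)
      (by rw [hs]; simp only [lc, gen4]; module) _ h2
  · exact one_class h D hF p U u v w hk hx tg htg (0, 0, 1) (s + w)
      (by rw [hs]; simp only [lc, gen4]; module) _ h3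
  · exact one_class h D hF p U u v w hk hx tg htg (1, 1, 0) (s + u + v)
      (by rw [hs]; simp only [lc, gen4]; module) _ h4
  · exact one_class h D hF p U u v w hk hx tg htg (1, 0, 1) (s + u + w)
      (by rw [hs]; simp only [lc, gen4]; module) _ h5
  · exact one_class h D hF p U u v w hk hx tg htg (0, 1, 1) (s + v + w)
      (by rw [hs]; simp only [lc, gen4]; module) _ h6
  · exact one_class h D hF p U u v w hk hx tg htg (1, 1, 1) (s + u + v + w)
      (by rw [hs]; simp only [lc, gen4]; module) _ h7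

end Pool.Agent.Work.MP_7453a1_nt_sup
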