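import Pool.Agent.Work.MP_7453a1_nt_sup.CertN
import Pool.Agent.Work.MP_7453a1_nt_sup.CertZ
import Pool.Agent.Work.MP_7453a1_nt_sup.CertM
import Pool.Agent.Work.MP_7453a1_nt_sup.CertD
import Pool.Agent.Work.MP_7453a1_nt_sup.CertS

set_option autoImplicit false

/-!
The structure of an exceptional window for the sup norm.
-/

namespace Pool.Agent.Work.MP_7453a1_nt_sup

open Pool.Agent.Work.MP_7453a1_nt_norm

/-- The listed coordinates are correct. -/
def Known (z : ℕ → Pt 2) (p : ℕ) (g : ℕ → Pt 2) : ℕ → List (Option (List ℤ)) → Prop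
  | _, [] => True
  | t, none :: l => Known z p g (t + 1) l
  | t, some c :: l => z (p + t) = lc c g ∧ Known z p g (t + 1) l

lemma known_get {z : ℕ → Pt 2} {p : ℕ} {g : ℕ → Pt 2} {t₀ : ℕ} {l : List (Option (List ℤ))}
    (h : Known z p g t₀ l) {t : ℕ} {c : List ℤ} (hc : l[t]? = some (some c)) :
    z (p + (t₀ + t)) = lc c g := by
  induction l generalizing t₀ t with
  | nil => simp at hc
  | cons a l ih =>
    cases t with
    | zero =>
      simp only [List.getElem?_cons_zero, Option.some.injEq] at hc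
      subst hc
      exact h.1
    | succ t =>
      simp only [List.getElem?_cons_succ] at hc
      have h' : Known z p g (t₀ + 1) l := by
        cases a with
        | none => exact h
        | some c => exact h.2
      have := ih h' hc
      rwa [show t₀ + 1 + t = t₀ + (t + 1) by ring] at this

lemma known_get0 {z : ℕ → Pt 2} {p : ℕ} {g : ℕ → Pt 2} {l : List (Option (List ℤ))}
    (h : Known z p g 0 l) (t : ℕ) (c : List ℤ) (hc : l[t]? = some (some c)) :
    z (p + t) = lc c g := by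
  have := known_get h hc
  rwa [Nat.zero_add] at this

/-- An exceptional window. -/
structure Exc (z : ℕ → Pt 2) (p : ℕ) (u v w : Pt 2) : Prop where
  e1 : (z (p + 8)).1 < (z (p + 7)).1 + (z (p + 3)).1
  e2 : (z (p + 8)).1 < (z (p + 6)).1 + (z (p + 5)).1
  z5 : z (p + 5) = u
  z6 : z (p + 6) = u + v
  z7 : z (p + 7) = u + w
  z8 : z (p + 8) = u + v + w

variable {X Y : Pt 2 →+ ℝ} {z : ℕ → Pt 2} {r : ℕ → ℝ} {p : ℕ} {u v w : Pt 2}

lemma Exc.ext (H : Exc z p u v w) (g : ℕ → Pt 2) :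
    ∀ e ∈ excExt, e.holds X Y z p g := by
  intro e he
  have h1 : ((z (p + 8)).1 : ℝ) < ((z (p + 7)).1 : ℝ) + ((z (p + 3)).1 : ℝ) := by
    exact_mod_cast H.e1
  have h2 : ((z (p + 8)).1 : ℝ) < ((z (p + 6)).1 : ℝ) + ((z (p + 5)).1 : ℝ) := by
    exact_mod_cast H.e2
  simp only [excExt, List.mem_cons, List.not_mem_nil, or_false] at he
  rcases he with rfl | rfl
  · simp only [Ext.holds, Ext.value, lc, List.foldr_cons, List.foldr_nil, map_zero, den_apply]
    push_cast
    linarith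
  · simp only [Ext.holds, Ext.value, lc, List.foldr_cons, List.foldr_nil, map_zero, den_apply]
    push_cast
    linarith

/-- Independence modulo 2. -/
lemma Exc.classes (H : Exc z p u v w) (h : Mod sup X Y z r) : Classes u v w := by
  have hx : ∀ g, ∀ e ∈ excExt, e.holds X Y z p g := H.ext
  obtain ⟨_, _, z5, z6, z7, z8⟩ := H
  refine Pool.Agent.Work.MP_7453a1_nt_h45.classes ?_ ?_ ?_ ?_ ?_ ?_ ?_
  · intro s hs
    refine refute h I1.D rfl p (gen4 s v w 0) (known_get0 ?_) (hx _) (by simp [I1.D]) _ I1.chk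
    simp only [I1.D, Known, lc, gen4, Nat.zero_add, Nat.reduceAdd, and_true, z5, z6, z7, z8, hs]
    refine ⟨?_, ?_, ?_, ?_⟩ <;> module
  · intro s hs
    refine refute h I2.D rfl p (gen4 u s w 0) (known_get0 ?_) (hx _) (by simp [I2.D]) _ I2.chk
    simp only [I2.D, Known, lc, gen4, Nat.zero_add, Nat.reduceAdd, and_true, z5, z6, z7, z8, hs]
    refine ⟨?_, ?_, ?_, ?_⟩ <;> module
  · intro s hs
    refine refute h I3.D rfl p (gen4 u v s 0) (known_get0 ?_) (hx _) (by simp [I3.D]) _ I3.chk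
    simp only [I3.D, Known, lc, gen4, Nat.zero_add, Nat.reduceAdd, and_true, z5, z6, z7, z8, hs]
    refine ⟨?_, ?_, ?_, ?_⟩ <;> module
  · intro s hs
    have hv : v = s + s - u := by rw [← hs]; abel
    refine refute h I4.D rfl p (gen4 u s w 0) (known_get0 ?_) (hx _) (by simp [I4.D]) _ I4.chk
    simp only [I4.D, Known, lc, gen4, Nat.zero_add, Nat.reduceAdd, and_true, z5, z6, z7, z8, hv]
    refine ⟨?_, ?_, ?_, ?_⟩ <;> module
  · intro s hs
    have hw : w = s + s - u := by rw [← hs]; abel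
    refine refute h I5.D rfl p (gen4 u v s 0) (known_get0 ?_) (hx _) (by simp [I5.D]) _ I5.chk
    simp only [I5.D, Known, lc, gen4, Nat.zero_add, Nat.reduceAdd, and_true, z5, z6, z7, z8, hw]
    refine ⟨?_, ?_, ?_, ?_⟩ <;> module
  · intro s hs
    have hw : w = s + s - v := by rw [← hs]; abel
    refine refute h I6.D rfl p (gen4 u v s 0) (known_get0 ?_) (hx _) (by simp [I6.D]) _ I6.chk
    simp only [I6.D, Known, lc, gen4, Nat.zero_add, Nat.reduceAdd, and_true, z5, z6, z7, z8, hw]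
    refine ⟨?_, ?_, ?_, ?_⟩ <;> module
  · intro s hs
    have hw : w = s + s - u - v := by rw [← hs]; abel
    refine refute h I7.D rfl p (gen4 u v s 0) (known_get0 ?_) (hx _) (by simp [I7.D]) _ I7.chk
    simp only [I7.D, Known, lc, gen4, Nat.zero_add, Nat.reduceAdd, and_true, z5, z6, z7, z8, hw]
    refine ⟨?_, ?_, ?_, ?_⟩ <;> module


lemma fn_one (X Y : Pt 2 →+ ℝ) (w : Pt 2) : fn X Y (1, 0) w = X w := by simp [fn_apply]

lemma fn_two (X Y : Pt 2 →+ ℝ) (w : Pt 2) : fn X Y (0, 1) w = Y w := by simp [fn_apply]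

/-- The conditions of `Mod` for the sup norm. -/
lemma mod_sup (pos : ∀ k, 0 < (z k).1) (mono : ∀ k, (z k).1 < (z (k + 1)).1)
    (rpos : ∀ k, 0 < r k) (anti : ∀ k, r (k + 1) < r k)
    (up : ∀ k, |X (z k)| ≤ r k ∧ |Y (z k)| ≤ r k)
    (att : ∀ k, r k ≤ |X (z k)| ∨ r k ≤ |Y (z k)|)
    (excl : ∀ (k : ℕ) (w : Pt 2), w ≠ 0 → |w.1| < (z (k + 1)).1 → r k ≤ |X w| ∨ r k ≤ |Y w|) :
    Mod sup X Y z r := by
  refine ⟨pos, mono, rpos, anti, ?_, ?_, ?_⟩
  · intro k f hf
    simp only [sup, List.mem_cons, List.not_mem_nil, or_false] at hf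
    rcases hf with rfl | rfl
    · rw [fn_one]; exact (up k).1
    · rw [fn_two]; exact (up k).2
  · intro k
    rcases att k with h | h
    · exact ⟨(1, 0), by simp [sup], by rw [fn_one]; exact h⟩
    · exact ⟨(0, 1), by simp [sup], by rw [fn_two]; exact h⟩
  · intro k w h1 h2
    rcases excl k w h1 h2 with h | h
    · exact ⟨(1, 0), by simp [sup], by rw [fn_one]; exact h⟩
    · exact ⟨(0, 1), by simp [sup], by rw [fn_two]; exact h⟩

lemma Mod.up' (h : Mod sup X Y z r) (k : ℕ) : |X (z k)| ≤ r k ∧ |Y (z k)| ≤ r k := by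
  refine ⟨?_, ?_⟩
  · have := h.up k (1, 0) (by simp [sup])
    rwa [fn_one] at this
  · have := h.up k (0, 1) (by simp [sup])
    rwa [fn_two] at this

lemma Mod.att' (h : Mod sup X Y z r) (k : ℕ) : r k ≤ |X (z k)| ∨ r k ≤ |Y (z k)| := by
  obtain ⟨f, hf, h1⟩ := h.att k
  simp only [sup, List.mem_cons, List.not_mem_nil, or_false] at hf
  rcases hf with rfl | rfl
  · rw [fn_one] at h1; exact Or.inl h1
  · rw [fn_two] at h1; exact Or.inr h1

lemma Mod.excl' (h : Mod sup X Y z r) (k : ℕ) (w : Pt 2) (h1 : w ≠ 0)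
    (h2 : |w.1| < (z (k + 1)).1) : r k ≤ |X w| ∨ r k ≤ |Y w| := by
  obtain ⟨f, hf, h1⟩ := h.excl k w h1 h2
  simp only [sup, List.mem_cons, List.not_mem_nil, or_false] at hf
  rcases hf with rfl | rfl
  · rw [fn_one] at h1; exact Or.inl h1
  · rw [fn_two] at h1; exact Or.inr h1

lemma Mod.swap (h : Mod sup X Y z r) : Mod sup Y X z r :=
  mod_sup h.pos h.mono h.rpos h.anti (fun k => ⟨(h.up' k).2, (h.up' k).1⟩)
    (fun k => (h.att' k).symm) (fun k w h1 h2 => (h.excl' k w h1 h2).symm)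

lemma Mod.negX (h : Mod sup X Y z r) : Mod sup (-X) Y z r :=
  mod_sup h.pos h.mono h.rpos h.anti
    (fun k => by simpa using h.up' k)
    (fun k => by simpa using h.att' k)
    (fun k w h1 h2 => by simpa using h.excl' k w h1 h2)

/-- Signs. -/
structure Signs (X Y : Pt 2 →+ ℝ) (u v w : Pt 2) : Prop where
  x2 : X u ≤ 0
  y2 : Y u ≤ 0
  x3 : 0 ≤ X (u + v)
  y3 : Y (u + v) ≤ 0
  x4 : X (u + w) ≤ 0
  y4 : 0 ≤ Y (u + w)
  x5 : 0 ≤ X (u + v + w)
  y5 : 0 ≤ Y (u + v + w)

lemma append_holds {P : Ext → Prop} {A B : List Ext} (hA : ∀ e ∈ A, P e) (hB : ∀ e ∈ B, P e) :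
    ∀ e ∈ A ++ B, P e := by
  intro e he
  rcases List.mem_append.mp he with h | h
  · exact hA e h
  · exact hB e h

lemma singleton_holds {P : Ext → Prop} {a : Ext} (h : P a) : ∀ e ∈ [a], P e := by
  intro e he
  rw [List.mem_singleton] at he
  rw [he]; exact h

lemma cons_holds {P : Ext → Prop} {a : Ext} {l : List Ext} (h : P a) (hl : ∀ e ∈ l, P e) :
    ∀ e ∈ a :: l, P e := by
  intro e he
  rcases List.mem_cons.mp he with rfl | he
  · exact h
  · exact hl e he

lemma signs_aux (H : Exc z p u v w) (h : Mod sup X Y z r) (x2 : X u ≤ 0) (y2 : Y u ≤ 0) :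
    Signs X Y u v w ∨ Signs Y X u v w := by
  have hx : ∀ g, ∀ e ∈ excExt, e.holds X Y z p g := H.ext
  have hn : ∀ e ∈ negExt, e.holds X Y z p (gen4 u v w 0) := by
    refine cons_holds ?_ (singleton_holds ?_) <;>
    · simp only [Ext.holds, Ext.value, lc, gen4, List.foldr_nil, map_zero, map_add, map_zsmul,
        zsmul_eq_mul]
      push_cast
      simp
      assumption
  obtain ⟨_, _, z5, z6, z7, z8⟩ := H
  have n1 : 0 ≤ X (u + v + w) := by
    by_contra hc1
    push Not at hc1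
    refine refute h N1.D rfl p (gen4 u v w 0) (known_get0 ?_)
      (append_holds (hx _) (append_holds hn (singleton_holds ?_))) (by simp [N1.D]) _ N1.chk
    · simp only [N1.D, Known, lc, gen4, Nat.zero_add, Nat.reduceAdd, and_true, z5, z6, z7, z8]
      refine ⟨?_, ?_, ?_, ?_⟩ <;> module
    all_goals
      simp only [Ext.holds, Ext.value, lc, gen4, List.foldr_nil, map_zero, map_add,
        zsmul_eq_mul] at hc1 ⊢
      push_cast
      simp
      linarith
  have n2 : 0 ≤ Y (u + v + w) := by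
    by_contra hc1
    push Not at hc1
    refine refute h N2.D rfl p (gen4 u v w 0) (known_get0 ?_)
      (append_holds (hx _) (append_holds hn (singleton_holds ?_))) (by simp [N2.D]) _ N2.chk
    · simp only [N2.D, Known, lc, gen4, Nat.zero_add, Nat.reduceAdd, and_true, z5, z6, z7, z8]
      refine ⟨?_, ?_, ?_, ?_⟩ <;> module
    all_goals
      simp only [Ext.holds, Ext.value, lc, gen4, List.foldr_nil, map_zero, map_add,
        zsmul_eq_mul] at hc1 ⊢
      push_cast
      simp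
      linarith
  have n3 : ¬ (0 < X (u + v) ∧ 0 < Y (u + v)) := by
    rintro ⟨hc1, hc2⟩
    refine refute h N3.D rfl p (gen4 u v w 0) (known_get0 ?_)
      (append_holds (hx _) (append_holds hn (cons_holds ?_ (singleton_holds ?_)))) (by simp [N3.D]) _ N3.chk
    · simp only [N3.D, Known, lc, gen4, Nat.zero_add, Nat.reduceAdd, and_true, z5, z6, z7, z8]
      refine ⟨?_, ?_, ?_, ?_⟩ <;> module
    all_goals
      simp only [Ext.holds, Ext.value, lc, gen4, List.foldr_nil, map_zero, map_add,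
        zsmul_eq_mul] at hc1 hc2 ⊢
      push_cast
      simp
      linarith
  have n4 : ¬ (X (u + v) < 0 ∧ Y (u + v) < 0) := by
    rintro ⟨hc1, hc2⟩
    refine refute h N4.D rfl p (gen4 u v w 0) (known_get0 ?_)
      (append_holds (hx _) (append_holds hn (cons_holds ?_ (singleton_holds ?_)))) (by simp [N4.D]) _ N4.chk
    · simp only [N4.D, Known, lc, gen4, Nat.zero_add, Nat.reduceAdd, and_true, z5, z6, z7, z8]
      refine ⟨?_, ?_, ?_, ?_⟩ <;> module
    all_goals
      simp only [Ext.holds, Ext.value, lc, gen4, List.foldr_nil, map_zero, map_add,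
        zsmul_eq_mul] at hc1 hc2 ⊢
      push_cast
      simp
      linarith
  have n5 : ¬ (0 < X (u + w) ∧ 0 < Y (u + w)) := by
    rintro ⟨hc1, hc2⟩
    refine refute h N5.D rfl p (gen4 u v w 0) (known_get0 ?_)
      (append_holds (hx _) (append_holds hn (cons_holds ?_ (singleton_holds ?_)))) (by simp [N5.D]) _ N5.chk
    · simp only [N5.D, Known, lc, gen4, Nat.zero_add, Nat.reduceAdd, and_true, z5, z6, z7, z8]
      refine ⟨?_, ?_, ?_, ?_⟩ <;> module
    all_goals
      simp only [Ext.holds, Ext.value, lc, gen4, List.foldr_nil, map_zero, map_add,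
        zsmul_eq_mul] at hc1 hc2 ⊢
      push_cast
      simp
      linarith
  have n6 : ¬ (X (u + w) < 0 ∧ Y (u + w) < 0) := by
    rintro ⟨hc1, hc2⟩
    refine refute h N6.D rfl p (gen4 u v w 0) (known_get0 ?_)
      (append_holds (hx _) (append_holds hn (cons_holds ?_ (singleton_holds ?_)))) (by simp [N6.D]) _ N6.chk
    · simp only [N6.D, Known, lc, gen4, Nat.zero_add, Nat.reduceAdd, and_true, z5, z6, z7, z8]
      refine ⟨?_, ?_, ?_, ?_⟩ <;> module
    all_goals
      simp only [Ext.holds, Ext.value, lc, gen4, List.foldr_nil, map_zero, map_add,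
        zsmul_eq_mul] at hc1 hc2 ⊢
      push_cast
      simp
      linarith
  have n7 : ¬ (0 ≤ X (u + v) ∧ Y (u + v) ≤ 0 ∧ 0 ≤ X (u + w) ∧ Y (u + w) ≤ 0) := by
    rintro ⟨hc1, hc2, hc3, hc4⟩
    refine refute h N7.D rfl p (gen4 u v w 0) (known_get0 ?_)
      (append_holds (hx _) (append_holds hn (cons_holds ?_ (cons_holds ?_ (cons_holds ?_ (singleton_holds ?_)))))) (by simp [N7.D]) _ N7.chk
    · simp only [N7.D, Known, lc, gen4, Nat.zero_add, Nat.reduceAdd, and_true, z5, z6, z7, z8]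
      refine ⟨?_, ?_, ?_, ?_⟩ <;> module
    all_goals
      simp only [Ext.holds, Ext.value, lc, gen4, List.foldr_nil, map_zero, map_add,
        zsmul_eq_mul] at hc1 hc2 hc3 hc4 ⊢
      push_cast
      simp
      linarith
  have n8 : ¬ (X (u + v) ≤ 0 ∧ 0 ≤ Y (u + v) ∧ X (u + w) ≤ 0 ∧ 0 ≤ Y (u + w)) := by
    rintro ⟨hc1, hc2, hc3, hc4⟩
    refine refute h N8.D rfl p (gen4 u v w 0) (known_get0 ?_)
      (append_holds (hx _) (append_holds hn (cons_holds ?_ (cons_holds ?_ (cons_holds ?_ (singleton_holds ?_)))))) (by simp [N8.D]) _ N8.chk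
    · simp only [N8.D, Known, lc, gen4, Nat.zero_add, Nat.reduceAdd, and_true, z5, z6, z7, z8]
      refine ⟨?_, ?_, ?_, ?_⟩ <;> module
    all_goals
      simp only [Ext.holds, Ext.value, lc, gen4, List.foldr_nil, map_zero, map_add,
        zsmul_eq_mul] at hc1 hc2 hc3 hc4 ⊢
      push_cast
      simp
      linarith
  have aux : ∀ a b : ℝ, ¬ (0 < a ∧ 0 < b) → ¬ (a < 0 ∧ b < 0) →
      (0 ≤ a ∧ b ≤ 0) ∨ (a ≤ 0 ∧ 0 ≤ b) := by
    intro a b h1 h2
    rcases le_or_gt a 0 with ha | ha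
    · rcases le_or_gt 0 b with hb | hb
      · exact Or.inr ⟨ha, hb⟩
      · exact Or.inl ⟨by by_contra hcon; exact h2 ⟨not_le.mp hcon, hb⟩, hb.le⟩
    · exact Or.inl ⟨ha.le, by by_contra hcon; exact h1 ⟨ha, not_le.mp hcon⟩⟩
  rcases aux _ _ n3 n4 with ⟨a1, a2⟩ | ⟨a1, a2⟩ <;> rcases aux _ _ n5 n6 with ⟨b1, b2⟩ | ⟨b1, b2⟩
  · exact absurd ⟨a1, a2, b1, b2⟩ n7
  · exact Or.inl ⟨x2, y2, a1, a2, b1, b2, n1, n2⟩
  · exact Or.inr ⟨y2, x2, a2, a1, b2, b1, n2, n1⟩
  · exact absurd ⟨a1, a2, b1, b2⟩ n8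

/-- Normalisation of the signs. -/
lemma Exc.normalise (H : Exc z p u v w) (h : Mod sup X Y z r) :
    ∃ X' Y' : Pt 2 →+ ℝ, Mod sup X' Y' z r ∧ Signs X' Y' u v w := by
  have key : ∀ X Y : Pt 2 →+ ℝ, Mod sup X Y z r → X u ≤ 0 → Y u ≤ 0 →
      ∃ X' Y' : Pt 2 →+ ℝ, Mod sup X' Y' z r ∧ Signs X' Y' u v w := by
    intro X Y h x2 y2
    rcases signs_aux H h x2 y2 with h1 | h1
    · exact ⟨X, Y, h, h1⟩
    · exact ⟨Y, X, h.swap, h1⟩
  rcases le_total (X u) 0 with hX | hX <;> rcases le_total (Y u) 0 with hY | hY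
  · exact key X Y h hX hY
  · exact key X (-Y) h.swap.negX.swap hX (by simpa using hY)
  · exact key (-X) Y h.negX (by simpa using hX) hY
  · exact key (-X) (-Y) h.negX.swap.negX.swap (by simpa using hX) (by simpa using hY)

lemma std_ext (H : Exc z p u v w) (S : Signs X Y u v w) (s : Pt 2) :
    ∀ e ∈ stdExt, e.holds X Y z p (gen4 u v w s) := by
  have h1 : ((z (p + 8)).1 : ℝ) < ((z (p + 7)).1 : ℝ) + ((z (p + 3)).1 : ℝ) := by
    exact_mod_cast H.e1
  have h2 : ((z (p + 8)).1 : ℝ) < ((z (p + 6)).1 : ℝ) + ((z (p + 5)).1 : ℝ) := by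
    exact_mod_cast H.e2
  obtain ⟨x2, y2, x3, y3, x4, y4, x5, y5⟩ := S
  simp only [map_add] at x3 y3 x4 y4 x5 y5
  refine cons_holds ?_ (cons_holds ?_ (cons_holds ?_ (cons_holds ?_ (cons_holds ?_
    (cons_holds ?_ (cons_holds ?_ (cons_holds ?_ (cons_holds ?_ (singleton_holds ?_))))))))) <;>
  · simp only [Ext.holds, Ext.value, lc, gen4, List.foldr_nil, List.foldr_cons, map_zero, map_add,
        zsmul_eq_mul, den_apply]
    push_cast
    simp
    linarith

end Pool.Agent.Work.MP_7453a1_nt_sup
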