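import Pool.Agent.Work.MP_7453a1_nt_sup.Check
import Pool.Agent.Work.MP_7453a1_nt_norm.Frame
import Pool.Agent.Work.MP_7453a1_nt_h45.Cmp

set_option autoImplicit false

/-!
The clauses satisfied by a sequence of best approximations for a polygonal norm, in the format
of the checker.
-/

namespace Pool.Agent.Work.MP_7453a1_nt_sup

open Pool.Agent.Work.MP_7453a1_nt_norm

/-- Integer combination of points. -/
def lc : List ℤ → (ℕ → Pt 2) → Pt 2
  | [], _ => 0
  | a :: l, g => a • g 0 + lc l (fun i => g (i + 1))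

lemma map_lc (φ : Pt 2 →+ ℝ) (l : List ℤ) (g : ℕ → Pt 2) :
    φ (lc l g) = dot l (fun i => φ (g i)) := by
  induction l generalizing g with
  | nil => simp [lc, dot]
  | cons a l ih =>
    rw [lc, map_add, map_zsmul, ih, zsmul_eq_mul]; rfl

/-- The denominator as a real number. -/
noncomputable def den : Pt 2 →+ ℝ := (Int.castAddHom ℝ).comp (AddMonoidHom.fst ℤ (Fin 2 → ℤ))

lemma den_apply (w : Pt 2) : den w = (w.1 : ℝ) := rfl

/-- The functional `f.1 X + f.2 Y`. -/
noncomputable def fn (X Y : Pt 2 →+ ℝ) (f : ℤ × ℤ) : Pt 2 →+ ℝ := f.1 • X + f.2 • Y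

lemma fn_apply (X Y : Pt 2 →+ ℝ) (f : ℤ × ℤ) (w : Pt 2) :
    fn X Y f w = f.1 * X w + f.2 * Y w := by
  simp [fn]

/-- A sequence `z` of points with errors `r`, minimal for the polygonal norm given by the
functionals `F`. -/
structure Mod (F : List (ℤ × ℤ)) (X Y : Pt 2 →+ ℝ) (z : ℕ → Pt 2) (r : ℕ → ℝ) : Prop where
  pos : ∀ k, 0 < (z k).1
  mono : ∀ k, (z k).1 < (z (k + 1)).1
  rpos : ∀ k, 0 < r k
  anti : ∀ k, r (k + 1) < r k
  up : ∀ k, ∀ f ∈ F, |fn X Y f (z k)| ≤ r k
  att : ∀ k, ∃ f ∈ F, r k ≤ |fn X Y f (z k)|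
  excl : ∀ (k : ℕ) (w : Pt 2), w ≠ 0 → |w.1| < (z (k + 1)).1 → ∃ f ∈ F, r k ≤ |fn X Y f w|

/-- An additional inequality: a combination of denominators of the sequence and of values of the
denominator and of `X`, `Y` at combinations of the generators. -/
structure Ext where
  strict : Bool
  ms : List (ℤ × ℕ)
  qc : List ℤ
  xc : List ℤ
  yc : List ℤ

/-- A refutation problem. -/
structure Data where
  known : List (Option (List ℤ))
  F : List (ℤ × ℤ)
  ext : List Ext
  nz : List (List ℤ)

/-- The values of the variables. -/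
noncomputable def env (X Y : Pt 2 →+ ℝ) (z : ℕ → Pt 2) (r : ℕ → ℝ) (p : ℕ) (g : ℕ → Pt 2) : Env :=
  ⟨fun i => den (g i), fun i => X (g i), fun i => Y (g i), fun t => r (p + t),
    fun t => den (z (p + t))⟩

/-- Form of the denominator of a combination. -/
def qf (c : List ℤ) : Form := ⟨c, [], [], [], []⟩

/-- Form of `X` at a combination. -/
def xf (c : List ℤ) : Form := ⟨[], c, [], [], []⟩

/-- Form of `Y` at a combination. -/
def yf (c : List ℤ) : Form := ⟨[], [], c, [], []⟩

/-- Form of an error. -/
def rf (t : ℕ) : Form := ⟨[], [], [], unit t, []⟩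

/-- Form of a denominator of the sequence. -/
def mv (t : ℕ) : Form := ⟨[], [], [], [], unit t⟩

/-- Form of a functional at a combination. -/
def ff (f : ℤ × ℤ) (c : List ℤ) : Form := ⟨[], lmul f.1 c, lmul f.2 c, [], []⟩

section
variable (X Y : Pt 2 →+ ℝ) (z : ℕ → Pt 2) (r : ℕ → ℝ) (p : ℕ) (g : ℕ → Pt 2)

lemma val_qf (c : List ℤ) : (qf c).val (env X Y z r p g) = den (lc c g) := by
  rw [map_lc]; simp [Form.val, qf, env, dot]

lemma val_xf (c : List ℤ) : (xf c).val (env X Y z r p g) = X (lc c g) := by
  rw [map_lc]; simp [Form.val, xf, env, dot]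

lemma val_yf (c : List ℤ) : (yf c).val (env X Y z r p g) = Y (lc c g) := by
  rw [map_lc]; simp [Form.val, yf, env, dot]

lemma val_rf (t : ℕ) : (rf t).val (env X Y z r p g) = r (p + t) := by
  simp [Form.val, rf, env, dot, dot_unit]

lemma val_mv (t : ℕ) : (mv t).val (env X Y z r p g) = den (z (p + t)) := by
  simp [Form.val, mv, env, dot, dot_unit]

lemma val_ff (f : ℤ × ℤ) (c : List ℤ) : (ff f c).val (env X Y z r p g) = fn X Y f (lc c g) := by
  rw [fn_apply, map_lc, map_lc]; simp [Form.val, ff, env, dot, dot_lmul]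

end

/-- Form of the denominator at a position. -/
def Data.mf (D : Data) (t : ℕ) : Form :=
  match D.known[t]? with
  | some (some c) => qf c
  | _ => mv t

/-- Form of an additional inequality. -/
def Ext.form (D : Data) (e : Ext) : Form :=
  ((e.ms.foldr (fun a H => ((D.mf a.2).mul a.1).add H) (qf e.qc)).add (xf e.xc)).add (yf e.yc)

/-- Value of an additional inequality. -/
noncomputable def Ext.value (X Y : Pt 2 →+ ℝ) (z : ℕ → Pt 2) (p : ℕ) (g : ℕ → Pt 2) (e : Ext) :
    ℝ :=
  e.ms.foldr (fun a s => (a.1 : ℝ) * den (z (p + a.2)) + s) (den (lc e.qc g)) + X (lc e.xc g)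
    + Y (lc e.yc g)

/-- The additional inequality holds. -/
def Ext.holds (X Y : Pt 2 →+ ℝ) (z : ℕ → Pt 2) (p : ℕ) (g : ℕ → Pt 2) (e : Ext) : Prop :=
  if e.strict then 0 < e.value X Y z p g else 0 ≤ e.value X Y z p g

/-- Monotonicity constraints. -/
def Data.cMono (D : Data) : List Con :=
  (List.range (D.known.length - 1)).flatMap fun t =>
    [⟨(D.mf (t + 1)).sub (D.mf t), true⟩, ⟨(rf t).sub (rf (t + 1)), true⟩]

/-- Norm bounds for the known points. -/
def Data.cUp (D : Data) : List Con :=
  (List.range D.known.length).flatMap fun t =>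
    match D.known[t]? with
    | some (some c) => D.F.flatMap fun f =>
        [⟨(rf t).sub (ff f c), false⟩, ⟨(rf t).add (ff f c), false⟩]
    | _ => []

/-- The initial constraints. -/
def Data.base (D : Data) : List Con :=
  ⟨D.mf 0, true⟩ :: ⟨rf (D.known.length - 1), true⟩ ::
    (D.cMono ++ (D.cUp ++ D.ext.map fun e => ⟨e.form D, e.strict⟩))

/-- Equality test. -/
def leq : List ℤ → List ℤ → Bool
  | [], [] => true
  | a :: l, b :: m => (a == b) && leq l m
  | _, _ => false

lemma leq_eq {l m : List ℤ} (h : leq l m = true) : l = m := by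
  induction l generalizing m with
  | nil => cases m with
    | nil => rfl
    | cons b m => simp [leq] at h
  | cons a l ih => cases m with
    | nil => simp [leq] at h
    | cons b m =>
      simp only [leq, Bool.and_eq_true, beq_iff_eq] at h
      rw [h.1, ih h.2]

/-- The clause of the point with coordinates `c` at level `t`; for `c = []` the clause that the
error of the known point at position `t` is attained. -/
def Data.clause (D : Data) (t : ℕ) : List ℤ → List (List Con)
  | [] =>
    match D.known[t]? with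
    | some (some c) => D.F.flatMap fun f =>
        [[⟨(ff f c).sub (rf t), false⟩], [⟨((ff f c).mul (-1)).sub (rf t), false⟩]]
    | _ => [[]]
  | a :: l =>
    let c := a :: l
    [⟨(qf c).sub (D.mf (t + 1)), false⟩] :: [⟨((qf c).mul (-1)).sub (D.mf (t + 1)), false⟩] ::
    ((D.F.flatMap fun f =>
        [[⟨(ff f c).sub (rf t), false⟩], [⟨((ff f c).mul (-1)).sub (rf t), false⟩]]) ++
      (if D.nz.any (fun e => leq e c || leq (lmul (-1) e) c) then [] else
        [[⟨qf c, false⟩, ⟨(qf c).mul (-1), false⟩, ⟨xf c, false⟩, ⟨(xf c).mul (-1), false⟩,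
          ⟨yf c, false⟩, ⟨(yf c).mul (-1), false⟩]]))

lemma lc_lmul (a : ℤ) (l : List ℤ) (g : ℕ → Pt 2) : lc (lmul a l) g = a • lc l g := by
  induction l generalizing g with
  | nil => simp [lc, lmul]
  | cons b l ih => simp only [lmul, lc, ih, smul_add, smul_smul]

lemma holds_nonneg {E : Env} {F : Form} (h : 0 ≤ F.val E) : Con.holds E ⟨F, false⟩ := by
  simpa [Con.holds] using h

lemma holds_pos {E : Env} {F : Form} (h : 0 < F.val E) : Con.holds E ⟨F, true⟩ := by
  simpa [Con.holds] using h

lemma abs_cases' {a b : ℝ} (h : a ≤ |b|) : 0 ≤ b - a ∨ 0 ≤ -b - a := by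
  rcases le_abs.mp h with h | h
  · left; linarith
  · right; linarith

section
variable {F : List (ℤ × ℤ)} {X Y : Pt 2 →+ ℝ} {z : ℕ → Pt 2} {r : ℕ → ℝ}

lemma mf_val {D : Data} {p : ℕ} {g : ℕ → Pt 2}
    (hk : ∀ t c, D.known[t]? = some (some c) → z (p + t) = lc c g) (t : ℕ) :
    (D.mf t).val (env X Y z r p g) = den (z (p + t)) := by
  unfold Data.mf
  split
  · next c hc => rw [val_qf, hk t c hc]
  · exact val_mv X Y z r p g t

lemma flat_holds {E : Env} {G : List (ℤ × ℤ)} {c : List ℤ} {t : ℕ} {f : ℤ × ℤ} (hf : f ∈ G)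
    (h : 0 ≤ ((ff f c).sub (rf t)).val E ∨ 0 ≤ (((ff f c).mul (-1)).sub (rf t)).val E) :
    someHolds E (G.flatMap fun f =>
        [[⟨(ff f c).sub (rf t), false⟩], [⟨((ff f c).mul (-1)).sub (rf t), false⟩]]) := by
  rcases h with h | h
  · refine ⟨[⟨(ff f c).sub (rf t), false⟩], ?_, ?_⟩
    · exact List.mem_flatMap.mpr ⟨f, hf, by simp⟩
    · intro k hk
      rw [List.mem_singleton] at hk
      rw [hk]
      exact holds_nonneg h
  · refine ⟨[⟨((ff f c).mul (-1)).sub (rf t), false⟩], ?_, ?_⟩
    · exact List.mem_flatMap.mpr ⟨f, hf, by simp⟩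
    · intro k hk
      rw [List.mem_singleton] at hk
      rw [hk]
      exact holds_nonneg h

lemma clause_holds (h : Mod F X Y z r) {D : Data} (hF : D.F = F) {p : ℕ} {g : ℕ → Pt 2}
    (hk : ∀ t c, D.known[t]? = some (some c) → z (p + t) = lc c g)
    (hnz : ∀ c ∈ D.nz, lc c g ≠ 0) (t : ℕ) (c : List ℤ) :
    someHolds (env X Y z r p g) (D.clause t c) := by
  cases c with
  | nil =>
    simp only [Data.clause]
    split
    · next c hc =>
      obtain ⟨f, hf, hf'⟩ := h.att (p + t)
      rw [hk t c hc] at hf'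
      rw [← hF] at hf
      refine flat_holds hf ?_
      rw [Form.val_sub, Form.val_sub, Form.val_mul, val_ff, val_rf]
      push_cast
      rcases abs_cases' hf' with h1 | h1
      · left; linarith
      · right; linarith
    · exact ⟨[], by simp, by simp⟩
  | cons a l =>
    set c := a :: l with hc
    have hcl : D.clause t c = [⟨(qf c).sub (D.mf (t + 1)), false⟩] ::
      [⟨((qf c).mul (-1)).sub (D.mf (t + 1)), false⟩] ::
      ((D.F.flatMap fun f =>
        [[⟨(ff f c).sub (rf t), false⟩], [⟨((ff f c).mul (-1)).sub (rf t), false⟩]]) ++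
      (if D.nz.any (fun e => leq e c || leq (lmul (-1) e) c) then [] else
        [[⟨qf c, false⟩, ⟨(qf c).mul (-1), false⟩, ⟨xf c, false⟩, ⟨(xf c).mul (-1), false⟩,
          ⟨yf c, false⟩, ⟨(yf c).mul (-1), false⟩]])) := rfl
    rw [hcl]
    have sub_right : ∀ Ls : List (List Con), someHolds (env X Y z r p g) Ls → ∀ A B : List Con,
        ∀ Ls', someHolds (env X Y z r p g) (A :: B :: (Ls ++ Ls')) := by
      rintro Ls ⟨L, hL, hL'⟩ A B Ls'
      exact ⟨L, by simp [hL], hL'⟩
    by_cases h0 : lc c g = 0
    · have hno : D.nz.any (fun e => leq e c || leq (lmul (-1) e) c) = false := by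
        rw [Bool.eq_false_iff]
        intro hany
        obtain ⟨e, he, he'⟩ := List.any_eq_true.mp hany
        rcases (Bool.or_eq_true _ _).mp he' with h1 | h1
        · rw [leq_eq h1] at he
          exact hnz _ he h0
        · have h2 := leq_eq h1
          apply hnz e he
          have h3 := lc_lmul (-1) e g
          rw [h2, h0] at h3
          simpa using h3.symm
      rw [hno]
      refine ⟨[⟨qf c, false⟩, ⟨(qf c).mul (-1), false⟩, ⟨xf c, false⟩, ⟨(xf c).mul (-1), false⟩,
          ⟨yf c, false⟩, ⟨(yf c).mul (-1), false⟩], by simp, ?_⟩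
      intro k hk'
      simp only [List.mem_cons, List.not_mem_nil, or_false] at hk'
      rcases hk' with rfl | rfl | rfl | rfl | rfl | rfl <;> apply holds_nonneg
      · rw [val_qf, h0]; simp
      · rw [Form.val_mul, val_qf, h0]; simp
      · rw [val_xf, h0]; simp
      · rw [Form.val_mul, val_xf, h0]; simp
      · rw [val_yf, h0]; simp
      · rw [Form.val_mul, val_yf, h0]; simp
    · by_cases h1 : |(lc c g).1| < (z (p + t + 1)).1
      · obtain ⟨f, hf, hf'⟩ := h.excl (p + t) (lc c g) h0 h1
        rw [← hF] at hf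
        apply sub_right
        refine flat_holds hf ?_
        rw [Form.val_sub, Form.val_sub, Form.val_mul, val_ff, val_rf]
        push_cast
        rcases abs_cases' hf' with h1 | h1
        · left; linarith
        · right; linarith
      · push Not at h1
        have h2 : ((z (p + t + 1)).1 : ℝ) ≤ |((lc c g).1 : ℝ)| := by exact_mod_cast h1
        have h3 : (D.mf (t + 1)).val (env X Y z r p g) = ((z (p + t + 1)).1 : ℝ) := by
          rw [mf_val hk]; rfl
        rcases abs_cases' h2 with h4 | h4
        · refine ⟨[⟨(qf c).sub (D.mf (t + 1)), false⟩], by simp, ?_⟩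
          intro k hk'
          rw [List.mem_singleton] at hk'
          rw [hk']
          apply holds_nonneg
          rw [Form.val_sub, val_qf, h3, den_apply]; exact h4
        · refine ⟨[⟨((qf c).mul (-1)).sub (D.mf (t + 1)), false⟩], by simp, ?_⟩
          intro k hk'
          rw [List.mem_singleton] at hk'
          rw [hk']
          apply holds_nonneg
          rw [Form.val_sub, Form.val_mul, val_qf, h3, den_apply]; push_cast; linarith

lemma ext_val {D : Data} {p : ℕ} {g : ℕ → Pt 2}
    (hk : ∀ t c, D.known[t]? = some (some c) → z (p + t) = lc c g) (e : Ext) :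
    (e.form D).val (env X Y z r p g) = e.value X Y z p g := by
  unfold Ext.form Ext.value
  rw [Form.val_add, Form.val_add, val_xf, val_yf]
  congr 2
  induction e.ms with
  | nil => simp [val_qf]
  | cons a l ih =>
    simp only [List.foldr_cons, Form.val_add, Form.val_mul, ih, mf_val hk]

lemma base_holds (h : Mod F X Y z r) {D : Data} (hF : D.F = F) {p : ℕ} {g : ℕ → Pt 2}
    (hk : ∀ t c, D.known[t]? = some (some c) → z (p + t) = lc c g)
    (hx : ∀ e ∈ D.ext, e.holds X Y z p g) : ∀ c ∈ D.base, c.holds (env X Y z r p g) := by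
  intro c hc
  simp only [Data.base, List.mem_cons, List.mem_append, List.mem_map] at hc
  rcases hc with rfl | rfl | hc | hc | ⟨e, he, rfl⟩
  · apply holds_pos
    rw [mf_val hk, den_apply]
    exact_mod_cast h.pos _
  · apply holds_pos
    rw [val_rf]
    exact h.rpos _
  · obtain ⟨t, _, ht⟩ := List.mem_flatMap.mp hc
    simp only [List.mem_cons, List.not_mem_nil, or_false] at ht
    rcases ht with rfl | rfl
    · apply holds_pos
      rw [Form.val_sub, mf_val hk, mf_val hk, den_apply, den_apply]
      have := h.mono (p + t)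
      have h2 : ((z (p + t)).1 : ℝ) < ((z (p + t + 1)).1 : ℝ) := by exact_mod_cast this
      rw [← add_assoc]
      linarith
    · apply holds_pos
      rw [Form.val_sub, val_rf, val_rf, ← add_assoc]
      have := h.anti (p + t)
      linarith
  · obtain ⟨t, _, ht⟩ := List.mem_flatMap.mp hc
    split at ht
    · next c' hc' =>
      obtain ⟨f, hf, ht⟩ := List.mem_flatMap.mp ht
      rw [hF] at hf
      have h1 := h.up (p + t) f hf
      rw [hk t c' hc'] at h1
      have h2 := abs_le.mp h1
      simp only [List.mem_cons, List.not_mem_nil, or_false] at ht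
      rcases ht with rfl | rfl
      · apply holds_nonneg
        rw [Form.val_sub, val_rf, val_ff]
        linarith
      · apply holds_nonneg
        rw [Form.val_add, val_rf, val_ff]
        linarith
    · simp at ht
  · have h1 := hx e he
    unfold Ext.holds at h1
    unfold Con.holds
    rw [ext_val hk]
    exact h1

/-- The refutation theorem. -/
theorem refute (h : Mod F X Y z r) (D : Data) (hF : D.F = F) (p : ℕ) (g : ℕ → Pt 2)
    (hk : ∀ t c, D.known[t]? = some (some c) → z (p + t) = lc c g)
    (hx : ∀ e ∈ D.ext, e.holds X Y z p g) (hnz : ∀ c ∈ D.nz, lc c g ≠ 0) (T : Tree)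
    (hT : check D.clause T D.base none = true) : False :=
  check_false (clause_holds h hF hk hnz) T D.base none hT (base_holds h hF hk hx)
    (fun _ h0 => by simp at h0)

end

end Pool.Agent.Work.MP_7453a1_nt_sup
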