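import Pool.Agent.Work.MP_7453a1_nt_sup.Window
import Pool.Agent.Work.MP_7453a1_nt_sup.CertG

set_option autoImplicit false

/-!
Growth of the denominators from the window relations.
-/

namespace Pool.Agent.Work.MP_7453a1_nt_sup

/-- The values for the checker: denominators from index `K` on, scale `S`. -/
noncomputable def menv (M : ℕ → ℤ) (K : ℕ) (S : ℝ) : Env :=
  ⟨fun _ => 0, fun _ => 0, fun _ => 0, fun _ => S, fun t => (M (K + t) : ℝ)⟩

section
variable (M : ℕ → ℤ) (K : ℕ) (S : ℝ)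

lemma mval_mv (t : ℕ) : (mv t).val (menv M K S) = (M (K + t) : ℝ) := by
  simp [Form.val, mv, menv, dot, dot_unit]

lemma mval_sc : sc.val (menv M K S) = S := by
  simp [Form.val, sc, rf, menv, dot, dot_unit]

lemma mval_nil : (lin []).val (menv M K S) = 0 := by
  simp [Form.val, lin, dot]

lemma mval_cons (a : ℤ × ℕ) (l : List (ℤ × ℕ)) :
    (lin (a :: l)).val (menv M K S) = a.1 * (M (K + a.2) : ℝ) + (lin l).val (menv M K S) := by
  simp only [lin, Form.val_add, Form.val_mul, mval_mv]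

end

variable {M : ℕ → ℤ} {K : ℕ} {S : ℝ}

lemma append_con {E : Env} {A B : List Con} (hA : ∀ c ∈ A, c.holds E) (hB : ∀ c ∈ B, c.holds E) :
    ∀ c ∈ A ++ B, c.holds E := by
  intro c hc
  rcases List.mem_append.mp hc with h | h
  · exact hA c h
  · exact hB c h

lemma geC_holds {l : List (ℤ × ℕ)} (h : 0 ≤ (lin l).val (menv M K S)) :
    ∀ c ∈ [geC l], c.holds (menv M K S) := by
  intro c hc
  rw [List.mem_singleton] at hc
  rw [hc]
  exact holds_nonneg h

lemma eqC_holds {l : List (ℤ × ℕ)} (h : (lin l).val (menv M K S) = 0) :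
    ∀ c ∈ eqC l, c.holds (menv M K S) := by
  intro c hc
  simp only [eqC, List.mem_cons, List.not_mem_nil, or_false] at hc
  rcases hc with rfl | rfl
  · exact holds_nonneg h.ge
  · apply holds_nonneg
    rw [Form.val_mul, h]; simp

/-- Common relations of exceptional windows. -/
lemma common_holds {p : ℕ} (h1 : M (K + p + 7) = M (K + p + 5) + M (K + p + 4))
    (h2 : M (K + p + 8) = M (K + p + 6) + M (K + p + 4))
    (h3 : M (K + p + 8) + M (K + p + 5) ≤ M (K + p + 9)) :
    ∀ c ∈ cCommon p, c.holds (menv M K S) := by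
  have h1' : (M (K + p + 7) : ℝ) = M (K + p + 5) + M (K + p + 4) := by exact_mod_cast h1
  have h2' : (M (K + p + 8) : ℝ) = M (K + p + 6) + M (K + p + 4) := by exact_mod_cast h2
  have h3' : (M (K + p + 8) : ℝ) + M (K + p + 5) ≤ M (K + p + 9) := by exact_mod_cast h3
  refine append_con (eqC_holds ?_) (append_con (eqC_holds ?_) (geC_holds ?_)) <;>
  · simp only [mval_cons, mval_nil, ← add_assoc]
    push_cast
    linarith

/-- Type D relations. -/
def DRel (M : ℕ → ℤ) (p : ℕ) : Prop :=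
  M (p + 7) = M (p + 5) + M (p + 4) ∧ M (p + 8) = M (p + 6) + M (p + 4) ∧
    M (p + 8) + M (p + 5) ≤ M (p + 9) ∧
    M (p + 3) = M (p + 6) - M (p + 4) ∧ M (p + 2) ≤ M (p + 6) - M (p + 5) ∧
        M (p + 9) = M (p + 5) + M (p + 6) + M (p + 4) ∧
        (2 * M (p + 9) + M (p + 4) ≤ M (p + 10) ∨ (M (p + 10) = M (p + 9) + M (p + 4) ∧
          (2 * M (p + 10) + M (p + 9) ≤ M (p + 11) ∨ (M (p + 11) = M (p + 10) + M (p + 9) ∧
            M (p + 11) + M (p + 7) ≤ M (p + 12)))))

/-- Window relations other than type D. -/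
def NRel (M : ℕ → ℤ) (p : ℕ) : Prop :=
  M (p + 6) + M (p + 5) ≤ M (p + 8) ∨ M (p + 7) + M (p + 3) ≤ M (p + 8) ∨
  (M (p + 7) = M (p + 5) + M (p + 4) ∧ M (p + 8) = M (p + 6) + M (p + 4) ∧
    M (p + 8) + M (p + 5) ≤ M (p + 9) ∧
    ((M (p + 3) = M (p + 7) - M (p + 6) ∧ (M (p + 2) ≤ M (p + 6) - M (p + 5) ∨
        (M (p + 2) = M (p + 5) - M (p + 4) ∧ M (p + 1) ≤ M (p + 6) - M (p + 5)))) ∨
      (M (p + 3) = M (p + 5) - M (p + 4) ∧ (M (p + 2) ≤ M (p + 6) - M (p + 5) ∨
        (M (p + 2) = M (p + 7) - M (p + 6) ∧ M (p + 1) ≤ M (p + 6) - M (p + 5))))))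

lemma WF.cases {p : ℕ} (h : WF M p) : NRel M p ∨ DRel M p := by
  rcases h with h | h | ⟨h1, h2, h3, h | h | ⟨h4, h5, h6, h7⟩⟩
  · exact Or.inl (Or.inl h)
  · exact Or.inl (Or.inr (Or.inl h))
  · exact Or.inl (Or.inr (Or.inr ⟨h1, h2, h3, Or.inl h⟩))
  · exact Or.inl (Or.inr (Or.inr ⟨h1, h2, h3, Or.inr h⟩))
  · exact Or.inr ⟨h1, h2, h3, h4, h5, h6, h7⟩

lemma d_holds {p : ℕ} (h : DRel M (K + p)) :
    (∀ c ∈ cD1 p, c.holds (menv M K S)) ∨ (∀ c ∈ cD2 p, c.holds (menv M K S)) ∨
      ∀ c ∈ cD3 p, c.holds (menv M K S) := by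
  obtain ⟨h1, h2, h3, h4, h5, h6, h7⟩ := h
  have hc := common_holds (S := S) h1 h2 h3
  have h4' : (M (K + p + 3) : ℝ) = M (K + p + 6) - M (K + p + 4) := by exact_mod_cast h4
  have h5' : (M (K + p + 2) : ℝ) ≤ M (K + p + 6) - M (K + p + 5) := by exact_mod_cast h5
  have h6' : (M (K + p + 9) : ℝ) = M (K + p + 5) + M (K + p + 6) + M (K + p + 4) := by
    exact_mod_cast h6
  have hD : ∀ c ∈ cD p, c.holds (menv M K S) := by
    refine append_con hc (append_con (eqC_holds ?_) (append_con (geC_holds ?_) (eqC_holds ?_))) <;>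
    · simp only [mval_cons, mval_nil, ← add_assoc]
      push_cast
      linarith
  rcases h7 with h7 | ⟨h7, h8 | ⟨h8, h9⟩⟩
  · have h7' : 2 * (M (K + p + 9) : ℝ) + M (K + p + 4) ≤ M (K + p + 10) := by exact_mod_cast h7
    left
    refine append_con hD (geC_holds ?_)
    simp only [mval_cons, mval_nil, ← add_assoc]
    push_cast
    linarith
  · have h7' : (M (K + p + 10) : ℝ) = M (K + p + 9) + M (K + p + 4) := by exact_mod_cast h7
    have h8' : 2 * (M (K + p + 10) : ℝ) + M (K + p + 9) ≤ M (K + p + 11) := by exact_mod_cast h8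
    right; left
    refine append_con hD (append_con (eqC_holds ?_) (geC_holds ?_)) <;>
    · simp only [mval_cons, mval_nil, ← add_assoc]
      push_cast
      linarith
  · have h7' : (M (K + p + 10) : ℝ) = M (K + p + 9) + M (K + p + 4) := by exact_mod_cast h7
    have h8' : (M (K + p + 11) : ℝ) = M (K + p + 10) + M (K + p + 9) := by exact_mod_cast h8
    have h9' : (M (K + p + 11) : ℝ) + M (K + p + 7) ≤ M (K + p + 12) := by exact_mod_cast h9
    right; right
    refine append_con hD (append_con (eqC_holds ?_) (append_con (eqC_holds ?_) (geC_holds ?_))) <;>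
    · simp only [mval_cons, mval_nil, ← add_assoc]
      push_cast
      linarith

lemma n_holds {p : ℕ} (h : NRel M (K + p)) : someHolds (menv M K S) (wc p []) := by
  rcases h with h | h | ⟨h1, h2, h3, h⟩
  · have h' : (M (K + p + 6) : ℝ) + M (K + p + 5) ≤ M (K + p + 8) := by exact_mod_cast h
    refine ⟨[geC [(1, p + 8), (-1, p + 6), (-1, p + 5)]], by simp [wc], geC_holds ?_⟩
    simp only [mval_cons, mval_nil, ← add_assoc]
    push_cast
    linarith
  · have h' : (M (K + p + 7) : ℝ) + M (K + p + 3) ≤ M (K + p + 8) := by exact_mod_cast h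
    refine ⟨[geC [(1, p + 8), (-1, p + 7), (-1, p + 3)]], by simp [wc], geC_holds ?_⟩
    simp only [mval_cons, mval_nil, ← add_assoc]
    push_cast
    linarith
  have hc := common_holds (S := S) h1 h2 h3
  rcases h with ⟨h4, h5 | ⟨h5, h6⟩⟩ | ⟨h4, h5 | ⟨h5, h6⟩⟩
  · have h4' : (M (K + p + 3) : ℝ) = M (K + p + 7) - M (K + p + 6) := by exact_mod_cast h4
    have h5' : (M (K + p + 2) : ℝ) ≤ M (K + p + 6) - M (K + p + 5) := by exact_mod_cast h5
    refine ⟨cA1 p, by simp [wc], append_con hc (append_con (eqC_holds ?_) (geC_holds ?_))⟩ <;>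
    · simp only [mval_cons, mval_nil, ← add_assoc]
      push_cast
      linarith
  · have h4' : (M (K + p + 3) : ℝ) = M (K + p + 7) - M (K + p + 6) := by exact_mod_cast h4
    have h5' : (M (K + p + 2) : ℝ) = M (K + p + 5) - M (K + p + 4) := by exact_mod_cast h5
    have h6' : (M (K + p + 1) : ℝ) ≤ M (K + p + 6) - M (K + p + 5) := by exact_mod_cast h6
    refine ⟨cA2 p, by simp [wc], append_con hc (append_con (eqC_holds ?_)
      (append_con (eqC_holds ?_) (geC_holds ?_)))⟩ <;>
    · simp only [mval_cons, mval_nil, ← add_assoc]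
      push_cast
      linarith
  · have h4' : (M (K + p + 3) : ℝ) = M (K + p + 5) - M (K + p + 4) := by exact_mod_cast h4
    have h5' : (M (K + p + 2) : ℝ) ≤ M (K + p + 6) - M (K + p + 5) := by exact_mod_cast h5
    refine ⟨cE1 p, by simp [wc], append_con hc (append_con (eqC_holds ?_) (geC_holds ?_))⟩ <;>
    · simp only [mval_cons, mval_nil, ← add_assoc]
      push_cast
      linarith
  · have h4' : (M (K + p + 3) : ℝ) = M (K + p + 5) - M (K + p + 4) := by exact_mod_cast h4
    have h5' : (M (K + p + 2) : ℝ) = M (K + p + 7) - M (K + p + 6) := by exact_mod_cast h5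
    have h6' : (M (K + p + 1) : ℝ) ≤ M (K + p + 6) - M (K + p + 5) := by exact_mod_cast h6
    refine ⟨cE2 p, by simp [wc], append_con hc (append_con (eqC_holds ?_)
      (append_con (eqC_holds ?_) (geC_holds ?_)))⟩ <;>
    · simp only [mval_cons, mval_nil, ← add_assoc]
      push_cast
      linarith

lemma wc_holds (hW : ∀ p, WF M p) (hD : DRel M K) (t : ℕ) (c : List ℤ) :
    someHolds (menv M K S) (wc t c) := by
  cases c with
  | nil =>
    rcases (hW (K + t)).cases with h | h
    · exact n_holds h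
    · rcases d_holds (S := S) h with h | h | h
      · exact ⟨_, by simp [wc], h⟩
      · exact ⟨_, by simp [wc], h⟩
      · exact ⟨_, by simp [wc], h⟩
  | cons a l =>
    simp only [wc]
    split_ifs with h0
    · rcases d_holds (S := S) (p := 0) hD with h | h | h
      · exact ⟨_, by simp, h⟩
      · exact ⟨_, by simp, h⟩
      · exact ⟨_, by simp, h⟩
    · exact ⟨[], by simp, by simp⟩

lemma bnd_step (hpos : ∀ k, 0 < M k) (hmono : ∀ k, M k < M (k + 1)) (hS : 0 < S)
    (hW : ∀ p, WF M p) (hD : DRel M K) (t : ℕ)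
    (hs : ∀ s < t, (bnd s : ℝ) * S ≤ 1000 * (M (K + s) : ℝ)) (T : Tree)
    (hT : check wc T (mbase t) none = true) : (bnd t : ℝ) * S ≤ 1000 * (M (K + t) : ℝ) := by
  by_contra hcon
  push Not at hcon
  refine check_false (E := menv M K S) (wc_holds hW hD) T (mbase t) none hT ?_
    (fun _ h0 => by simp at h0)
  intro c hc
  simp only [mbase, List.mem_cons, List.mem_append, List.mem_map, List.mem_range,
    List.not_mem_nil, or_false] at hc
  rcases hc with rfl | rfl | ⟨s, _, rfl⟩ | ⟨s, hs', rfl⟩ | rfl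
  · apply holds_pos
    rw [mval_mv]
    exact_mod_cast hpos _
  · apply holds_pos
    rw [mval_sc]; exact hS
  · apply holds_pos
    rw [Form.val_sub, mval_mv, mval_mv, ← add_assoc]
    have : (M (K + s) : ℝ) < (M (K + s + 1) : ℝ) := by exact_mod_cast hmono (K + s)
    linarith
  · apply holds_nonneg
    rw [Form.val_add, Form.val_mul, Form.val_mul, mval_mv, mval_sc]
    have := hs s hs'
    push_cast
    linarith
  · apply holds_pos
    rw [Form.val_add, Form.val_mul, Form.val_mul, mval_mv, mval_sc]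
    push_cast
    linarith

/-- The lower bounds after a window of type D. -/
theorem bounds (hpos : ∀ k, 0 < M k) (hmono : ∀ k, M k < M (k + 1)) (hS : 0 < S)
    (hW : ∀ p, WF M p) (hD : DRel M K)
    (h8 : ∀ s < 8, (bnd s : ℝ) * S ≤ 1000 * (M (K + s) : ℝ)) :
    ∀ t < 20, (bnd t : ℝ) * S ≤ 1000 * (M (K + t) : ℝ) := by
  have next : ∀ t, (∀ s < t, (bnd s : ℝ) * S ≤ 1000 * (M (K + s) : ℝ)) → (T : Tree) →
      check wc T (mbase t) none = true →
      ∀ s < t + 1, (bnd s : ℝ) * S ≤ 1000 * (M (K + s) : ℝ) := by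
    intro t hs T hT s hst
    rcases Nat.lt_succ_iff_lt_or_eq.mp hst with h | rfl
    · exact hs s h
    · exact bnd_step hpos hmono hS hW hD s hs T hT
  have h9 := next 8 h8 _ G8.chk
  have h10 := next 9 h9 _ G9.chk
  have h11 := next 10 h10 _ G10.chk
  have h12 := next 11 h11 _ G11.chk
  have h13 := next 12 h12 _ G12.chk
  have h14 := next 13 h13 _ G13.chk
  have h15 := next 14 h14 _ G14.chk
  have h16 := next 15 h15 _ G15.chk
  have h17 := next 16 h16 _ G16.chk
  have h18 := next 17 h17 _ G17.chk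
  have h19 := next 18 h18 _ G18.chk
  exact next 19 h19 _ G19.chk

end Pool.Agent.Work.MP_7453a1_nt_sup
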