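import Pool.Agent.Work.MP_7453a1_nt_sup.Geom

set_option autoImplicit false

/-!
The relations between the denominators in a window, as clauses for the checker.
-/

namespace Pool.Agent.Work.MP_7453a1_nt_sup

/-- Linear form in the denominators. -/
def lin : List (ℤ × ℕ) → Form
  | [] => ⟨[], [], [], [], []⟩
  | a :: l => ((mv a.2).mul a.1).add (lin l)

/-- The form is `≥ 0`. -/
def geC (l : List (ℤ × ℕ)) : Con := ⟨lin l, false⟩

/-- The form is `0`. -/
def eqC (l : List (ℤ × ℕ)) : List Con := [⟨lin l, false⟩, ⟨(lin l).mul (-1), false⟩]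

/-- Exceptional window. -/
def cCommon (p : ℕ) : List Con :=
  eqC [(1, p + 7), (-1, p + 5), (-1, p + 4)] ++ (eqC [(1, p + 8), (-1, p + 6), (-1, p + 4)] ++
    [geC [(1, p + 9), (-1, p + 8), (-1, p + 5)]])

/-- Type A, first case. -/
def cA1 (p : ℕ) : List Con :=
  cCommon p ++ (eqC [(1, p + 3), (-1, p + 7), (1, p + 6)] ++
    [geC [(1, p + 6), (-1, p + 5), (-1, p + 2)]])

/-- Type A, second case. -/
def cA2 (p : ℕ) : List Con :=
  cCommon p ++ (eqC [(1, p + 3), (-1, p + 7), (1, p + 6)] ++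
    (eqC [(1, p + 2), (-1, p + 5), (1, p + 4)] ++ [geC [(1, p + 6), (-1, p + 5), (-1, p + 1)]]))

/-- Type E, first case. -/
def cE1 (p : ℕ) : List Con :=
  cCommon p ++ (eqC [(1, p + 3), (-1, p + 5), (1, p + 4)] ++
    [geC [(1, p + 6), (-1, p + 5), (-1, p + 2)]])

/-- Type E, second case. -/
def cE2 (p : ℕ) : List Con :=
  cCommon p ++ (eqC [(1, p + 3), (-1, p + 5), (1, p + 4)] ++
    (eqC [(1, p + 2), (-1, p + 7), (1, p + 6)] ++ [geC [(1, p + 6), (-1, p + 5), (-1, p + 1)]]))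

/-- Type D. -/
def cD (p : ℕ) : List Con :=
  cCommon p ++ (eqC [(1, p + 3), (-1, p + 6), (1, p + 4)] ++
    (geC [(1, p + 6), (-1, p + 5), (-1, p + 2)] ::
      eqC [(1, p + 9), (-1, p + 5), (-1, p + 6), (-1, p + 4)]))

/-- Type D, first case. -/
def cD1 (p : ℕ) : List Con := cD p ++ [geC [(1, p + 10), (-2, p + 9), (-1, p + 4)]]

/-- Type D, second case. -/
def cD2 (p : ℕ) : List Con :=
  cD p ++ (eqC [(1, p + 10), (-1, p + 9), (-1, p + 4)] ++
    [geC [(1, p + 11), (-2, p + 10), (-1, p + 9)]])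

/-- Type D, third case. -/
def cD3 (p : ℕ) : List Con :=
  cD p ++ (eqC [(1, p + 10), (-1, p + 9), (-1, p + 4)] ++
    (eqC [(1, p + 11), (-1, p + 10), (-1, p + 9)] ++
      [geC [(1, p + 12), (-1, p + 11), (-1, p + 7)]]))

/-- The clauses: a window; for a nonempty list the first window, which is of type D. -/
def wc (t : ℕ) : List ℤ → List (List Con)
  | [] => [[geC [(1, t + 8), (-1, t + 6), (-1, t + 5)]],
      [geC [(1, t + 8), (-1, t + 7), (-1, t + 3)]],
      cA1 t, cA2 t, cE1 t, cE2 t, cD1 t, cD2 t, cD3 t]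
  | _ :: _ => if t = 0 then [cD1 0, cD2 0, cD3 0] else [[]]

/-- Lower bounds, times 1000. -/
def bnd (t : ℕ) : ℤ :=
  [1000, 1324, 1754, 2324, 3079, 4079, 5404, 7159, 8882, 12952, 16020, 28996, 36128, 44950,
    52130, 73844, 96897, 125728, 164613, 215243].getD t 0

/-- The scale. -/
def sc : Form := rf 0

/-- The constraints for the lower bound of the denominator at position `t`. -/
def mbase (t : ℕ) : List Con :=
  ⟨mv 0, true⟩ :: ⟨sc, true⟩ ::
    ((List.range 19).map (fun s => ⟨(mv (s + 1)).sub (mv s), true⟩) ++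
      ((List.range t).map (fun s => ⟨((mv s).mul 1000).add (sc.mul (-(bnd s))), false⟩) ++
        [⟨(sc.mul (bnd t)).add ((mv t).mul (-1000)), true⟩]))

end Pool.Agent.Work.MP_7453a1_nt_sup
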