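import Pool.Agent.Work.MP_7453a1_nt_sup.Grow
import Pool.Agent.Work.MP_7453a1_nt_h45.FTwo

set_option autoImplicit false

/-!
The growth of the denominators of best approximations for parallelogram norms.
-/

namespace Pool.Agent.Work.MP_7453a1_nt_sup

open Pool.Agent.Work.MP_7453a1_nt_norm Pool.Agent.Work.MP_7453a1_nt_h45 Filter

lemma rho_bounds {ρ : ℝ} (h : ρ ^ 3 = ρ + 1) : 1.3247 < ρ ∧ ρ < 1.3248 := by
  constructor
  · by_contra hcon
    push Not at hcon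
    nlinarith [mul_nonneg (sub_nonneg.mpr hcon)
      (by nlinarith [sq_nonneg (ρ + 0.66235)] : (0 : ℝ) ≤ ρ ^ 2 + 1.3247 * ρ + 0.7548)]
  · by_contra hcon
    push Not at hcon
    nlinarith [mul_nonneg (sub_nonneg.mpr hcon)
      (by nlinarith [sq_nonneg (ρ + 0.6624)] : (0 : ℝ) ≤ ρ ^ 2 + 1.3248 * ρ + 0.7550)]

variable {M : ℕ → ℤ} {ρ S : ℝ}

/-- Eight consecutive good indices. -/
def Good (M : ℕ → ℤ) (ρ S : ℝ) (K : ℕ) : Prop := ∀ t < 8, S * ρ ^ (K + t) ≤ (M (K + t) : ℝ)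

lemma good_next (hρ : ρ ^ 3 = ρ + 1) (hS : 0 < S) {K : ℕ} (hG : Good M ρ S K)
    (hN : NRel M K) : S * ρ ^ (K + 8) ≤ (M (K + 8) : ℝ) := by
  obtain ⟨r1, r2⟩ := rho_bounds hρ
  have hρ0 : 0 < ρ := by linarith
  set A := S * ρ ^ K with hA
  have hA0 : 0 < A := by positivity
  have g : ∀ t < 8, A * ρ ^ t ≤ (M (K + t) : ℝ) := by
    intro t ht
    have := hG t ht
    rw [pow_add, ← mul_assoc] at this
    exact this
  have g1 := g 1 (by norm_num)
  have g2 := g 2 (by norm_num)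
  have g3 := g 3 (by norm_num)
  have g4 := g 4 (by norm_num)
  have g5 := g 5 (by norm_num)
  have g6 := g 6 (by norm_num)
  have g7 := g 7 (by norm_num)
  have p4 : ρ ^ 4 = ρ ^ 2 + ρ := by linear_combination ρ * hρ
  have p5 : ρ ^ 5 = ρ ^ 2 + ρ + 1 := by linear_combination (ρ ^ 2 + 1) * hρ
  have p6 : ρ ^ 6 = ρ ^ 2 + 2 * ρ + 1 := by linear_combination (ρ ^ 3 + ρ + 1) * hρ
  have p7 : ρ ^ 7 = 2 * ρ ^ 2 + 2 * ρ + 1 := by
    linear_combination (ρ ^ 4 + ρ ^ 2 + ρ + 1) * hρ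
  have p8 : ρ ^ 8 = 2 * ρ ^ 2 + 3 * ρ + 2 := by
    linear_combination (ρ ^ 5 + ρ ^ 3 + ρ ^ 2 + ρ + 2) * hρ
  rw [pow_add, ← mul_assoc, ← hA, p8]
  rw [p7] at g7
  rw [p6] at g6
  rw [p5] at g5
  rw [p4] at g4
  rw [hρ] at g3
  rw [pow_one] at g1
  have s1 : 0 ≤ A * (ρ - 1) := by apply mul_nonneg hA0.le; linarith
  have s2 : 0 ≤ A * (ρ ^ 2 - 1) := by apply mul_nonneg hA0.le; nlinarith
  have s3 : 0 ≤ A * (2 * ρ - ρ ^ 2) := by apply mul_nonneg hA0.le; nlinarith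
  rcases hN with h | h | ⟨h1, h2, h3, ⟨h4, h5 | ⟨h5, h6⟩⟩ | ⟨h4, h5 | ⟨h5, h6⟩⟩⟩
  · have h' : (M (K + 6) : ℝ) + M (K + 5) ≤ M (K + 8) := by exact_mod_cast h
    linarith
  · have h' : (M (K + 7) : ℝ) + M (K + 3) ≤ M (K + 8) := by exact_mod_cast h
    linarith
  · have h' : (M (K + 6) : ℝ) + M (K + 3) + M (K + 2) ≤ M (K + 8) := by
      have : M (K + 6) + M (K + 3) + M (K + 2) ≤ M (K + 8) := by omega
      exact_mod_cast this
    linarith
  · have h' : 2 * (M (K + 3) : ℝ) + 3 * M (K + 1) + M (K + 2) ≤ M (K + 8) := by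
      have : 2 * M (K + 3) + 3 * M (K + 1) + M (K + 2) ≤ M (K + 8) := by omega
      exact_mod_cast this
    linarith
  · have h' : 2 * (M (K + 4) : ℝ) + M (K + 3) + M (K + 2) ≤ M (K + 8) := by
      have : 2 * M (K + 4) + M (K + 3) + M (K + 2) ≤ M (K + 8) := by omega
      exact_mod_cast this
    linarith
  · have h' : 2 * (M (K + 4) : ℝ) + M (K + 3) + M (K + 1) ≤ M (K + 8) := by
      have : 2 * M (K + 4) + M (K + 3) + M (K + 1) ≤ M (K + 8) := by omega
      exact_mod_cast this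
    linarith

lemma bnd_low (hρ : ρ ^ 3 = ρ + 1) : ∀ s < 8, (bnd s : ℝ) ≤ 1000 * ρ ^ s := by
  obtain ⟨r1, r2⟩ := rho_bounds hρ
  have q2 : 1.75483 ≤ ρ ^ 2 := by nlinarith
  have p4 : ρ ^ 4 = ρ ^ 2 + ρ := by linear_combination ρ * hρ
  have p5 : ρ ^ 5 = ρ ^ 2 + ρ + 1 := by linear_combination (ρ ^ 2 + 1) * hρ
  have p6 : ρ ^ 6 = ρ ^ 2 + 2 * ρ + 1 := by linear_combination (ρ ^ 3 + ρ + 1) * hρ
  have p7 : ρ ^ 7 = 2 * ρ ^ 2 + 2 * ρ + 1 := by
    linear_combination (ρ ^ 4 + ρ ^ 2 + ρ + 1) * hρ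
  intro s hs
  interval_cases s
  · norm_num [bnd]
  · norm_num [bnd]; linarith
  · norm_num [bnd]; linarith
  · norm_num [bnd]; rw [hρ]; linarith
  · norm_num [bnd]; rw [p4]; linarith
  · norm_num [bnd]; rw [p5]; linarith
  · norm_num [bnd]; rw [p6]; linarith
  · norm_num [bnd]; rw [p7]; linarith

lemma bnd_high (hρ : ρ ^ 3 = ρ + 1) {t : ℕ} (h1 : 12 ≤ t) (h2 : t < 20) :
    1000 * ρ ^ t ≤ (bnd t : ℝ) := by
  obtain ⟨r1, r2⟩ := rho_bounds hρ
  have h3 : ρ ^ t ≤ (1.3248 : ℝ) ^ t := pow_le_pow_left₀ (by linarith) r2.le t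
  have h4 : 1000 * (1.3248 : ℝ) ^ t ≤ (bnd t : ℝ) := by
    interval_cases t <;> norm_num [bnd]
  linarith

lemma bnd_mid (hρ : ρ ^ 3 = ρ + 1) {t : ℕ} (h1 : 8 ≤ t) (h2 : t < 12) :
    900 * ρ ^ t ≤ (bnd t : ℝ) := by
  obtain ⟨r1, r2⟩ := rho_bounds hρ
  have h3 : ρ ^ t ≤ (1.3248 : ℝ) ^ t := pow_le_pow_left₀ (by linarith) r2.le t
  have h4 : 900 * (1.3248 : ℝ) ^ t ≤ (bnd t : ℝ) := by
    interval_cases t <;> norm_num [bnd]
  linarith

/-- Growth of a sequence satisfying the window relations. -/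
theorem growth (hpos : ∀ k, 0 < M k) (hmono : ∀ k, M k < M (k + 1)) (hW : ∀ p, WF M p)
    (hρ : ρ ^ 3 = ρ + 1) : ∃ c : ℝ, 0 < c ∧ ∀ k, c * ρ ^ k ≤ (M k : ℝ) := by
  obtain ⟨r1, r2⟩ := rho_bounds hρ
  have hρ0 : 0 < ρ := by linarith
  set S : ℝ := (ρ ^ 7)⁻¹ with hS
  have hS0 : 0 < S := by positivity
  have g0 : Good M ρ S 0 := by
    intro t ht
    have h1 : (1 : ℝ) ≤ (M (0 + t) : ℝ) := by exact_mod_cast hpos (0 + t)
    have h2 : ρ ^ (0 + t) ≤ ρ ^ 7 := pow_le_pow_right₀ (by linarith) (by omega)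
    have h3 : S * ρ ^ (0 + t) ≤ 1 := by
      rw [hS, inv_mul_le_iff₀ (by positivity)]; linarith
    linarith
  have step : ∀ K, Good M ρ S K → ∃ K', K < K' ∧ Good M ρ S K' ∧
      ∀ j, K ≤ j → j < K' → 9 / 10 * S * ρ ^ j ≤ (M j : ℝ) := by
    intro K hG
    have hGj : ∀ j, K ≤ j → j < K + 8 → 9 / 10 * S * ρ ^ j ≤ (M j : ℝ) := by
      intro j h1 h2
      have h3 := hG (j - K) (by omega)
      rw [show K + (j - K) = j by omega] at h3
      have h4 : 0 < S * ρ ^ j := by positivity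
      linarith
    rcases (hW K).cases with hN | hD
    · refine ⟨K + 1, by omega, ?_, fun j h1 h2 => hGj j h1 (by omega)⟩
      intro t ht
      rcases Nat.lt_or_ge t 7 with h | h
      · have := hG (t + 1) (by omega)
        rwa [show K + (t + 1) = K + 1 + t by ring] at this
      · obtain rfl : t = 7 := by omega
        exact good_next hρ hS0 hG hN
    · have hb := bounds (S := S * ρ ^ K) hpos hmono (by positivity) hW hD (by
        intro s hs
        have h1 := hG s hs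
        have h2 := bnd_low hρ s hs
        have h3 : (bnd s : ℝ) * (S * ρ ^ K) ≤ 1000 * ρ ^ s * (S * ρ ^ K) :=
          mul_le_mul_of_nonneg_right h2 (by positivity)
        rw [pow_add] at h1
        linarith)
      refine ⟨K + 12, by omega, ?_, ?_⟩
      · intro t ht
        have h1 := hb (12 + t) (by omega)
        have h2 := bnd_high hρ (t := 12 + t) (by omega) (by omega)
        have h3 : 1000 * ρ ^ (12 + t) * (S * ρ ^ K) ≤ (bnd (12 + t) : ℝ) * (S * ρ ^ K) :=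
          mul_le_mul_of_nonneg_right h2 (by positivity)
        rw [show K + (12 + t) = K + 12 + t by ring] at h1
        rw [show K + 12 + t = K + (12 + t) by ring, pow_add]
        rw [show K + (12 + t) = K + 12 + t by ring]
        linarith
      · intro j h1 h2
        rcases Nat.lt_or_ge j (K + 8) with h | h
        · exact hGj j h1 h
        · obtain ⟨t, rfl⟩ : ∃ t, j = K + t := ⟨j - K, by omega⟩
          have h3 := hb t (by omega)
          have h4 := bnd_mid hρ (t := t) (by omega) (by omega)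
          have h5 : 900 * ρ ^ t * (S * ρ ^ K) ≤ (bnd t : ℝ) * (S * ρ ^ K) :=
            mul_le_mul_of_nonneg_right h4 (by positivity)
          rw [pow_add]
          linarith
  have all : ∀ n, ∃ K, n ≤ K ∧ Good M ρ S K ∧ ∀ j < K, 9 / 10 * S * ρ ^ j ≤ (M j : ℝ) := by
    intro n
    induction n with
    | zero => exact ⟨0, le_rfl, g0, fun j hj => absurd hj (by omega)⟩
    | succ n ih =>
      obtain ⟨K, h1, h2, h3⟩ := ih
      obtain ⟨K', h4, h5, h6⟩ := step K h2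
      refine ⟨K', by omega, h5, fun j hj => ?_⟩
      rcases Nat.lt_or_ge j K with h | h
      · exact h3 j h
      · exact h6 j h hj
  refine ⟨9 / 10 * S, by positivity, fun k => ?_⟩
  obtain ⟨K, h1, _, h3⟩ := all (k + 1)
  exact h3 k (by omega)

/-- For a parallelogram norm on the plane and every `Θ` satisfying (∗), `G(Θ) ≥ ρ`. -/
theorem le_G {N : Seminorm ℝ (Fin 2 → ℝ)} (hN : IsNorm N) {f g : (Fin 2 → ℝ) →ₗ[ℝ] ℝ}
    (hfg : ∀ x, N x = max |f x| |g x|) {Θ : Fin 2 → ℝ} (hΘ : Admissible Θ) {ρ : ℝ}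
    (hρ : ρ ^ 3 = ρ + 1) : ENNReal.ofReal ρ ≤ G N Θ := by
  obtain ⟨ν₀, z, h0, h1, hz⟩ := exists_frame hN hΘ
  obtain ⟨r1, r2⟩ := rho_bounds hρ
  have hρ0 : 0 < ρ := by linarith
  let X : Pt 2 →+ ℝ := f.toAddMonoidHom.comp (ev Θ)
  let Y : Pt 2 →+ ℝ := g.toAddMonoidHom.comp (ev Θ)
  have her : ∀ w : Pt 2, er N Θ w = max |X w| |Y w| := fun w => hfg (ev Θ w)
  have hmod : Mod sup X Y z (fun k => er N Θ (z k)) := by
    refine mod_sup hz.pos (fun k => hz.mono k (k + 1) (by omega)) ?_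
      (fun k => hz.anti k (k + 1) (by omega)) ?_ ?_ ?_
    · intro k
      have h2 := hz.anti k (k + 1) (by omega)
      have h3 : 0 ≤ er N Θ (z (k + 1)) := er_nonneg _
      exact lt_of_le_of_lt h3 h2
    · intro k
      simp only [her]
      exact ⟨le_max_left _ _, le_max_right _ _⟩
    · intro k
      simp only [her]
      exact le_max_iff.mp le_rfl
    · intro k w hw hw'
      have h2 := hz.excl k w hw hw'
      simp only [her w] at h2
      exact le_max_iff.mp h2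
  have hW : ∀ p, WF (fun t => (z t).1) p := hmod.window (fun i hi =>
    hz.exceptional (i := i) (j := i + 1) (l := i + 2) (m := i + 3) (by omega) (by omega)
      (by omega) hi)
  obtain ⟨c, hc, hc'⟩ := growth (M := fun t => (z t).1) hz.pos
    (fun k => hz.mono k (k + 1) (by omega)) hW hρ
  refine le_G_of_growth hρ0 (c := c * (ρ ^ ν₀)⁻¹) (by positivity) ?_
  filter_upwards [eventually_ge_atTop ν₀] with ν hν
  obtain ⟨k, rfl⟩ : ∃ k, ν = ν₀ + k := ⟨ν - ν₀, by omega⟩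
  have h2 := hc' k
  have h3 : ((z k).1 : ℝ) = (M N Θ (ν₀ + k) : ℝ) := by rw [h1 k]; simp
  simp only [h3] at h2
  refine le_trans (le_of_eq ?_) h2
  rw [pow_add]
  field_simp

end Pool.Agent.Work.MP_7453a1_nt_sup
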