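import Pool.Agent.Work.MP_7453a1_nt_sup.Facts

set_option autoImplicit false
set_option linter.unusedSimpArgs false

/-!
The points near an exceptional window for the sup norm.
-/

namespace Pool.Agent.Work.MP_7453a1_nt_sup

open Pool.Agent.Work.MP_7453a1_nt_norm

variable {X Y : Pt 2 →+ ℝ} {z : ℕ → Pt 2} {r : ℕ → ℝ} {p : ℕ} {u v w : Pt 2}

lemma z1_cases (h : Mod sup X Y z r) (H : Exc z p u v w) (S : Signs X Y u v w)
    (hc : Classes u v w) :
    z (p + 4) = w ∨ z (p + 4) = v + w ∨ z (p + 4) = w - v := by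
  by_contra hne
  simp only [not_or] at hne
  obtain ⟨n1, n2, n3⟩ := hne
  have z5 := H.z5
  have z6 := H.z6
  have z7 := H.z7
  have z8 := H.z8
  refine class_refute h Z1.D rfl p 4 u v w hc (fun s => known_get0 ?_)
    (fun s => std_ext H S s) _ ?_ _ Z1.chk
  · simp only [Z1.D, Known, lc, gen4, Nat.zero_add, Nat.reduceAdd, and_true, z5, z6, z7, z8]
    refine ⟨?_, ?_, ?_, ?_⟩ <;> module
  · intro s hs h0
    simp only [List.mem_cons, List.not_mem_nil, or_false] at hs
    rcases hs with rfl | rfl | rfl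
    · apply n1
      rw [h0]
      simp only [tl, lc, gen4]
      module
    · apply n2
      rw [h0]
      simp only [tl, lc, gen4]
      module
    · apply n3
      rw [h0]
      simp only [tl, lc, gen4]
      module

lemma z1_not (h : Mod sup X Y z r) (H : Exc z p u v w) (S : Signs X Y u v w)
    (hc : Classes u v w) (h1 : z (p + 4) = w - v) :
    False := by
  have z5 := H.z5
  have z6 := H.z6
  have z7 := H.z7
  have z8 := H.z8
  refine class_refute h Z1c.D rfl p 3 u v w hc (fun s => known_get0 ?_)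
    (fun s => std_ext H S s) _ ?_ _ Z1c.chk
  · simp only [Z1c.D, Known, lc, gen4, Nat.zero_add, Nat.reduceAdd, and_true, z5, z6, z7, z8, h1]
    refine ⟨?_, ?_, ?_, ?_, ?_⟩ <;> module
  · intro s hs
    simp at hs

lemma z0_cases (h : Mod sup X Y z r) (H : Exc z p u v w) (S : Signs X Y u v w)
    (hc : Classes u v w) (h1 : z (p + 4) = w) :
    z (p + 3) = w - v ∨ z (p + 3) = u + v - w ∨ z (p + 3) = u - w := by
  by_contra hne
  simp only [not_or] at hne
  obtain ⟨n1, n2, n3⟩ := hne
  have z5 := H.z5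
  have z6 := H.z6
  have z7 := H.z7
  have z8 := H.z8
  refine class_refute h Z0.D rfl p 3 u v w hc (fun s => known_get0 ?_)
    (fun s => std_ext H S s) _ ?_ _ Z0.chk
  · simp only [Z0.D, Known, lc, gen4, Nat.zero_add, Nat.reduceAdd, and_true, z5, z6, z7, z8, h1]
    refine ⟨?_, ?_, ?_, ?_, ?_⟩ <;> module
  · intro s hs h0
    simp only [List.mem_cons, List.not_mem_nil, or_false] at hs
    rcases hs with rfl | rfl | rfl
    · apply n1
      rw [h0]
      simp only [tl, lc, gen4]
      module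
    · apply n2
      rw [h0]
      simp only [tl, lc, gen4]
      module
    · apply n3
      rw [h0]
      simp only [tl, lc, gen4]
      module

lemma typeD_m1 (h : Mod sup X Y z r) (H : Exc z p u v w) (S : Signs X Y u v w)
    (hc : Classes u v w) (h1 : z (p + 4) = w) (h0 : z (p + 3) = u + v - w) :
    (z (p + 2)).1 ≤ v.1 := by
  by_contra hne
  have m0 := hne
  push Not at m0
  have m1 : (v.1 : ℝ) < ((z (p + 2)).1 : ℝ) := by exact_mod_cast m0
  have z5 := H.z5
  have z6 := H.z6
  have z7 := H.z7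
  have z8 := H.z8
  refine class_refute h DM.D rfl p 2 u v w hc (fun s => known_get0 ?_)
    (fun s => append_holds (std_ext H S s) (singleton_holds ?_)) _ ?_ _ DM.chk
  · simp only [DM.D, Known, lc, gen4, Nat.zero_add, Nat.reduceAdd, and_true, z5, z6, z7, z8, h1, h0]
    refine ⟨?_, ?_, ?_, ?_, ?_, ?_⟩ <;> module
  · simp only [Ext.holds, Ext.value, lc, gen4, List.foldr_nil, List.foldr_cons, map_zero,
        map_add, zsmul_eq_mul, den_apply]
    push_cast
    simp
    linarith
  · intro s hs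
    simp at hs

lemma typeA_m1 (h : Mod sup X Y z r) (H : Exc z p u v w) (S : Signs X Y u v w)
    (hc : Classes u v w) (h1 : z (p + 4) = w) (h0 : z (p + 3) = w - v) :
    z (p + 2) = u - w ∨ (z (p + 2)).1 ≤ v.1 := by
  by_contra hne
  simp only [not_or] at hne
  obtain ⟨n1, m0⟩ := hne
  push Not at m0
  have m1 : (v.1 : ℝ) < ((z (p + 2)).1 : ℝ) := by exact_mod_cast m0
  have z5 := H.z5
  have z6 := H.z6
  have z7 := H.z7
  have z8 := H.z8
  refine class_refute h AM.D rfl p 2 u v w hc (fun s => known_get0 ?_)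
    (fun s => append_holds (std_ext H S s) (singleton_holds ?_)) _ ?_ _ AM.chk
  · simp only [AM.D, Known, lc, gen4, Nat.zero_add, Nat.reduceAdd, and_true, z5, z6, z7, z8, h1, h0]
    refine ⟨?_, ?_, ?_, ?_, ?_, ?_⟩ <;> module
  · simp only [Ext.holds, Ext.value, lc, gen4, List.foldr_nil, List.foldr_cons, map_zero,
        map_add, zsmul_eq_mul, den_apply]
    push_cast
    simp
    linarith
  · intro s hs h0
    rw [List.mem_singleton] at hs
    subst hs
    apply n1
    rw [h0]
    simp only [tl, lc, gen4]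
    module

lemma typeA_m2 (h : Mod sup X Y z r) (H : Exc z p u v w) (S : Signs X Y u v w)
    (hc : Classes u v w) (h1 : z (p + 4) = w) (h0 : z (p + 3) = w - v) (hm : z (p + 2) = u - w) :
    (z (p + 1)).1 ≤ v.1 := by
  by_contra hne
  have m0 := hne
  push Not at m0
  have m1 : (v.1 : ℝ) < ((z (p + 1)).1 : ℝ) := by exact_mod_cast m0
  have z5 := H.z5
  have z6 := H.z6
  have z7 := H.z7
  have z8 := H.z8
  refine class_refute h AN.D rfl p 1 u v w hc (fun s => known_get0 ?_)
    (fun s => append_holds (std_ext H S s) (singleton_holds ?_)) _ ?_ _ AN.chk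
  · simp only [AN.D, Known, lc, gen4, Nat.zero_add, Nat.reduceAdd, and_true, z5, z6, z7, z8, h1, h0, hm]
    refine ⟨?_, ?_, ?_, ?_, ?_, ?_, ?_⟩ <;> module
  · simp only [Ext.holds, Ext.value, lc, gen4, List.foldr_nil, List.foldr_cons, map_zero,
        map_add, zsmul_eq_mul, den_apply]
    push_cast
    simp
    linarith
  · intro s hs
    simp at hs

lemma typeE_m1 (h : Mod sup X Y z r) (H : Exc z p u v w) (S : Signs X Y u v w)
    (hc : Classes u v w) (h1 : z (p + 4) = w) (h0 : z (p + 3) = u - w) :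
    z (p + 2) = w - v ∨ (z (p + 2)).1 ≤ v.1 := by
  by_contra hne
  simp only [not_or] at hne
  obtain ⟨n1, m0⟩ := hne
  push Not at m0
  have m1 : (v.1 : ℝ) < ((z (p + 2)).1 : ℝ) := by exact_mod_cast m0
  have z5 := H.z5
  have z6 := H.z6
  have z7 := H.z7
  have z8 := H.z8
  refine class_refute h EM.D rfl p 2 u v w hc (fun s => known_get0 ?_)
    (fun s => append_holds (std_ext H S s) (singleton_holds ?_)) _ ?_ _ EM.chk
  · simp only [EM.D, Known, lc, gen4, Nat.zero_add, Nat.reduceAdd, and_true, z5, z6, z7, z8, h1, h0]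
    refine ⟨?_, ?_, ?_, ?_, ?_, ?_⟩ <;> module
  · simp only [Ext.holds, Ext.value, lc, gen4, List.foldr_nil, List.foldr_cons, map_zero,
        map_add, zsmul_eq_mul, den_apply]
    push_cast
    simp
    linarith
  · intro s hs h0
    rw [List.mem_singleton] at hs
    subst hs
    apply n1
    rw [h0]
    simp only [tl, lc, gen4]
    module

lemma typeE_m2 (h : Mod sup X Y z r) (H : Exc z p u v w) (S : Signs X Y u v w)
    (hc : Classes u v w) (h1 : z (p + 4) = w) (h0 : z (p + 3) = u - w) (hm : z (p + 2) = w - v) :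
    (z (p + 1)).1 ≤ v.1 := by
  by_contra hne
  have m0 := hne
  push Not at m0
  have m1 : (v.1 : ℝ) < ((z (p + 1)).1 : ℝ) := by exact_mod_cast m0
  have z5 := H.z5
  have z6 := H.z6
  have z7 := H.z7
  have z8 := H.z8
  refine class_refute h EN.D rfl p 1 u v w hc (fun s => known_get0 ?_)
    (fun s => append_holds (std_ext H S s) (singleton_holds ?_)) _ ?_ _ EN.chk
  · simp only [EN.D, Known, lc, gen4, Nat.zero_add, Nat.reduceAdd, and_true, z5, z6, z7, z8, h1, h0, hm]
    refine ⟨?_, ?_, ?_, ?_, ?_, ?_, ?_⟩ <;> module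
  · simp only [Ext.holds, Ext.value, lc, gen4, List.foldr_nil, List.foldr_cons, map_zero,
        map_add, zsmul_eq_mul, den_apply]
    push_cast
    simp
    linarith
  · intro s hs
    simp at hs

lemma typeA_6 (h : Mod sup X Y z r) (H : Exc z p u v w) (S : Signs X Y u v w)
    (hc : Classes u v w) (h1 : z (p + 4) = w) (h0 : z (p + 3) = w - v) :
    (z (p + 8)).1 + (z (p + 5)).1 ≤ (z (p + 9)).1 := by
  by_contra hne
  have m0 := hne
  push Not at m0
  have m1 : ((z (p + 9)).1 : ℝ) < ((z (p + 8)).1 : ℝ) + ((z (p + 5)).1 : ℝ) := by exact_mod_cast m0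
  have z5 := H.z5
  have z6 := H.z6
  have z7 := H.z7
  have z8 := H.z8
  refine class_refute h A6.D rfl p 9 u v w hc (fun s => known_get0 ?_)
    (fun s => append_holds (std_ext H S s) (singleton_holds ?_)) _ ?_ _ A6.chk
  · simp only [A6.D, Known, lc, gen4, Nat.zero_add, Nat.reduceAdd, and_true, z5, z6, z7, z8, h1, h0]
    refine ⟨?_, ?_, ?_, ?_, ?_, ?_⟩ <;> module
  · simp only [Ext.holds, Ext.value, lc, gen4, List.foldr_nil, List.foldr_cons, map_zero,
        map_add, zsmul_eq_mul, den_apply]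
    push_cast
    simp
    linarith
  · intro s hs
    simp at hs

lemma typeE_6 (h : Mod sup X Y z r) (H : Exc z p u v w) (S : Signs X Y u v w)
    (hc : Classes u v w) (h1 : z (p + 4) = w) (h0 : z (p + 3) = u - w) :
    (z (p + 8)).1 + (z (p + 5)).1 ≤ (z (p + 9)).1 := by
  by_contra hne
  have m0 := hne
  push Not at m0
  have m1 : ((z (p + 9)).1 : ℝ) < ((z (p + 8)).1 : ℝ) + ((z (p + 5)).1 : ℝ) := by exact_mod_cast m0
  have z5 := H.z5
  have z6 := H.z6
  have z7 := H.z7
  have z8 := H.z8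
  refine class_refute h E6.D rfl p 9 u v w hc (fun s => known_get0 ?_)
    (fun s => append_holds (std_ext H S s) (singleton_holds ?_)) _ ?_ _ E6.chk
  · simp only [E6.D, Known, lc, gen4, Nat.zero_add, Nat.reduceAdd, and_true, z5, z6, z7, z8, h1, h0]
    refine ⟨?_, ?_, ?_, ?_, ?_, ?_⟩ <;> module
  · simp only [Ext.holds, Ext.value, lc, gen4, List.foldr_nil, List.foldr_cons, map_zero,
        map_add, zsmul_eq_mul, den_apply]
    push_cast
    simp
    linarith
  · intro s hs
    simp at hs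

lemma typeD_6 (h : Mod sup X Y z r) (H : Exc z p u v w) (S : Signs X Y u v w)
    (hc : Classes u v w) (h1 : z (p + 4) = w) (h0 : z (p + 3) = u + v - w) :
    z (p + 9) = u + u + v + w := by
  by_contra hne
  have n1 := hne
  have z5 := H.z5
  have z6 := H.z6
  have z7 := H.z7
  have z8 := H.z8
  refine class_refute h D6.D rfl p 9 u v w hc (fun s => known_get0 ?_)
    (fun s => std_ext H S s) _ ?_ _ D6.chk
  · simp only [D6.D, Known, lc, gen4, Nat.zero_add, Nat.reduceAdd, and_true, z5, z6, z7, z8, h1, h0]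
    refine ⟨?_, ?_, ?_, ?_, ?_, ?_⟩ <;> module
  · intro s hs h0
    rw [List.mem_singleton] at hs
    subst hs
    apply n1
    rw [h0]
    simp only [tl, lc, gen4]
    module

lemma typeD_7 (h : Mod sup X Y z r) (H : Exc z p u v w) (S : Signs X Y u v w)
    (hc : Classes u v w) (h1 : z (p + 4) = w) (h0 : z (p + 3) = u + v - w) (h6 : z (p + 9) = u + u + v + w) :
    z (p + 10) = u + u + v + w + w ∨ 2 * (z (p + 9)).1 + (z (p + 4)).1 ≤ (z (p + 10)).1 := by
  by_contra hne
  simp only [not_or] at hne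
  obtain ⟨n1, m0⟩ := hne
  push Not at m0
  have m1 : ((z (p + 10)).1 : ℝ) < 2 * ((z (p + 9)).1 : ℝ) + ((z (p + 4)).1 : ℝ) := by exact_mod_cast m0
  have z5 := H.z5
  have z6 := H.z6
  have z7 := H.z7
  have z8 := H.z8
  refine class_refute h D7.D rfl p 10 u v w hc (fun s => known_get0 ?_)
    (fun s => append_holds (std_ext H S s) (singleton_holds ?_)) _ ?_ _ D7.chk
  · simp only [D7.D, Known, lc, gen4, Nat.zero_add, Nat.reduceAdd, and_true, z5, z6, z7, z8, h1, h0, h6]
    refine ⟨?_, ?_, ?_, ?_, ?_, ?_, ?_⟩ <;> module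
  · simp only [Ext.holds, Ext.value, lc, gen4, List.foldr_nil, List.foldr_cons, map_zero,
        map_add, zsmul_eq_mul, den_apply]
    push_cast
    simp
    linarith
  · intro s hs h0
    rw [List.mem_singleton] at hs
    subst hs
    apply n1
    rw [h0]
    simp only [tl, lc, gen4]
    module

lemma typeD_8 (h : Mod sup X Y z r) (H : Exc z p u v w) (S : Signs X Y u v w)
    (hc : Classes u v w) (h1 : z (p + 4) = w) (h0 : z (p + 3) = u + v - w) (h6 : z (p + 9) = u + u + v + w) (h7 : z (p + 10) = u + u + v + w + w) :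
    z (p + 11) = u + u + u + u + v + v + w + w + w ∨ 2 * (z (p + 10)).1 + (z (p + 9)).1 ≤ (z (p + 11)).1 := by
  by_contra hne
  simp only [not_or] at hne
  obtain ⟨n1, m0⟩ := hne
  push Not at m0
  have m1 : ((z (p + 11)).1 : ℝ) < 2 * ((z (p + 10)).1 : ℝ) + ((z (p + 9)).1 : ℝ) := by exact_mod_cast m0
  have z5 := H.z5
  have z6 := H.z6
  have z7 := H.z7
  have z8 := H.z8
  refine class_refute h D8.D rfl p 11 u v w hc (fun s => known_get0 ?_)
    (fun s => append_holds (std_ext H S s) (singleton_holds ?_)) _ ?_ _ D8.chk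
  · simp only [D8.D, Known, lc, gen4, Nat.zero_add, Nat.reduceAdd, and_true, z5, z6, z7, z8, h1, h0, h6, h7]
    refine ⟨?_, ?_, ?_, ?_, ?_, ?_, ?_, ?_⟩ <;> module
  · simp only [Ext.holds, Ext.value, lc, gen4, List.foldr_nil, List.foldr_cons, map_zero,
        map_add, zsmul_eq_mul, den_apply]
    push_cast
    simp
    linarith
  · intro s hs h0
    rw [List.mem_singleton] at hs
    subst hs
    apply n1
    rw [h0]
    simp only [tl, lc, gen4]
    module

lemma typeD_9 (h : Mod sup X Y z r) (H : Exc z p u v w) (S : Signs X Y u v w)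
    (hc : Classes u v w) (h1 : z (p + 4) = w) (h0 : z (p + 3) = u + v - w) (h6 : z (p + 9) = u + u + v + w) (h7 : z (p + 10) = u + u + v + w + w) (h8 : z (p + 11) = u + u + u + u + v + v + w + w + w) :
    (z (p + 11)).1 + (z (p + 7)).1 ≤ (z (p + 12)).1 := by
  by_contra hne
  have m0 := hne
  push Not at m0
  have m1 : ((z (p + 12)).1 : ℝ) < ((z (p + 11)).1 : ℝ) + ((z (p + 7)).1 : ℝ) := by exact_mod_cast m0
  have z5 := H.z5
  have z6 := H.z6
  have z7 := H.z7
  have z8 := H.z8
  refine class_refute h D9.D rfl p 12 u v w hc (fun s => known_get0 ?_)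
    (fun s => append_holds (std_ext H S s) (singleton_holds ?_)) _ ?_ _ D9.chk
  · simp only [D9.D, Known, lc, gen4, Nat.zero_add, Nat.reduceAdd, and_true, z5, z6, z7, z8, h1, h0, h6, h7, h8]
    refine ⟨?_, ?_, ?_, ?_, ?_, ?_, ?_, ?_, ?_⟩ <;> module
  · simp only [Ext.holds, Ext.value, lc, gen4, List.foldr_nil, List.foldr_cons, map_zero,
        map_add, zsmul_eq_mul, den_apply]
    push_cast
    simp
    linarith
  · intro s hs
    simp at hs

lemma z1_not' (h : Mod sup X Y z r) (H : Exc z p u v w) (S : Signs X Y u v w)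
    (h1 : z (p + 4) = v + w) : False := by
  have z5 := H.z5
  have z6 := H.z6
  have z7 := H.z7
  have z8 := H.z8
  refine refute h Z1b.D rfl p (gen4 u v w 0) (known_get0 ?_) (std_ext H S 0) (by simp [Z1b.D]) _
    Z1b.chk
  simp only [Z1b.D, Known, lc, gen4, Nat.zero_add, Nat.reduceAdd, and_true, z5, z6, z7, z8, h1]
  refine ⟨?_, ?_, ?_, ?_, ?_⟩ <;> module

end Pool.Agent.Work.MP_7453a1_nt_sup
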