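import Pool.Agent.Work.MP_7453a1_nt_sup.Cls

set_option autoImplicit false

/-! Common data of the certificates: positions `0, 1, 2, …` stand for the points
`z_{-3}, z_{-2}, z_{-1}, …` of a window. -/

namespace Pool.Agent.Work.MP_7453a1_nt_sup

/-- The functionals of the sup norm. -/
def sup : List (ℤ × ℤ) := [(1, 0), (0, 1)]

/-- The exceptional window. -/
def excExt : List Ext :=
  [⟨true, [(1, 7), (1, 3), (-1, 8)], [], [], []⟩,
   ⟨true, [(1, 6), (1, 5), (-1, 8)], [], [], []⟩]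

/-- The signs of `z_2`. -/
def negExt : List Ext :=
  [⟨false, [], [], [-1], []⟩, ⟨false, [], [], [], [-1]⟩]

/-- The exceptional window with normalised signs. -/
def stdExt : List Ext :=
  [⟨true, [(1, 7), (1, 3), (-1, 8)], [], [], []⟩,
   ⟨true, [(1, 6), (1, 5), (-1, 8)], [], [], []⟩,
   ⟨false, [], [], [-1], []⟩,
   ⟨false, [], [], [], [-1]⟩,
   ⟨false, [], [], [1, 1], []⟩,
   ⟨false, [], [], [], [-1, -1]⟩,
   ⟨false, [], [], [-1, 0, -1], []⟩,
   ⟨false, [], [], [], [1, 0, 1]⟩,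
   ⟨false, [], [], [1, 1, 1], []⟩,
   ⟨false, [], [], [], [1, 1, 1]⟩]

end Pool.Agent.Work.MP_7453a1_nt_sup
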