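import Pool.Agent.Work.MP_7453a1_nt_sup.Points

set_option autoImplicit false

/-!
The relations between the denominators in a window, for the sup norm.
-/

namespace Pool.Agent.Work.MP_7453a1_nt_sup

open Pool.Agent.Work.MP_7453a1_nt_norm

/-- The relations between the denominators in the window starting at `p + 3`. -/
def WF (M : ℕ → ℤ) (p : ℕ) : Prop :=
  M (p + 6) + M (p + 5) ≤ M (p + 8) ∨ M (p + 7) + M (p + 3) ≤ M (p + 8) ∨
  (M (p + 7) = M (p + 5) + M (p + 4) ∧ M (p + 8) = M (p + 6) + M (p + 4) ∧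
    M (p + 8) + M (p + 5) ≤ M (p + 9) ∧
    ((M (p + 3) = M (p + 7) - M (p + 6) ∧ (M (p + 2) ≤ M (p + 6) - M (p + 5) ∨
        (M (p + 2) = M (p + 5) - M (p + 4) ∧ M (p + 1) ≤ M (p + 6) - M (p + 5)))) ∨
      (M (p + 3) = M (p + 5) - M (p + 4) ∧ (M (p + 2) ≤ M (p + 6) - M (p + 5) ∨
        (M (p + 2) = M (p + 7) - M (p + 6) ∧ M (p + 1) ≤ M (p + 6) - M (p + 5)))) ∨
      (M (p + 3) = M (p + 6) - M (p + 4) ∧ M (p + 2) ≤ M (p + 6) - M (p + 5) ∧
        M (p + 9) = M (p + 5) + M (p + 6) + M (p + 4) ∧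
        (2 * M (p + 9) + M (p + 4) ≤ M (p + 10) ∨ (M (p + 10) = M (p + 9) + M (p + 4) ∧
          (2 * M (p + 10) + M (p + 9) ≤ M (p + 11) ∨ (M (p + 11) = M (p + 10) + M (p + 9) ∧
            M (p + 11) + M (p + 7) ≤ M (p + 12))))))))

variable {X Y : Pt 2 →+ ℝ} {z : ℕ → Pt 2} {r : ℕ → ℝ}

theorem Mod.window (h : Mod sup X Y z r)
    (hF2 : ∀ i, (z (i + 3)).1 < (z i).1 + (z (i + 1)).1 → z i + z (i + 3) = z (i + 1) + z (i + 2))
    (p : ℕ) : WF (fun t => (z t).1) p := by
  by_cases hN1 : (z (p + 6)).1 + (z (p + 5)).1 ≤ (z (p + 8)).1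
  · exact Or.inl hN1
  by_cases hN2 : (z (p + 7)).1 + (z (p + 3)).1 ≤ (z (p + 8)).1
  · exact Or.inr (Or.inl hN2)
  right; right
  push Not at hN1 hN2
  have hf := hF2 (p + 5) (by
    show (z (p + 8)).1 < (z (p + 5)).1 + (z (p + 6)).1
    linarith)
  replace hf : z (p + 5) + z (p + 8) = z (p + 6) + z (p + 7) := hf
  obtain ⟨u, hu⟩ : ∃ u, z (p + 5) = u := ⟨_, rfl⟩
  obtain ⟨v, hv⟩ : ∃ v, z (p + 6) = u + v := ⟨z (p + 6) - u, by abel⟩
  obtain ⟨w, hw⟩ : ∃ w, z (p + 7) = u + w := ⟨z (p + 7) - u, by abel⟩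
  have h8 : z (p + 8) = u + v + w := by
    rw [hu, hv, hw] at hf
    have : z (p + 8) = (u + z (p + 8)) - u := by abel
    rw [this, hf]; abel
  have H : Exc z p u v w := ⟨hN2, hN1, hu, hv, hw, h8⟩
  have hc := H.classes h
  obtain ⟨X', Y', h', S⟩ := H.normalise h
  have h1 : z (p + 4) = w := by
    rcases z1_cases h' H S hc with h1 | h1 | h1
    · exact h1
    · exact (z1_not' h' H S h1).elim
    · exact (z1_not h' H S hc h1).elim
  have q5 : (z (p + 5)).1 = u.1 := by rw [hu]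
  have q6 : (z (p + 6)).1 = u.1 + v.1 := by rw [hv]; rfl
  have q7 : (z (p + 7)).1 = u.1 + w.1 := by rw [hw]; rfl
  have q8 : (z (p + 8)).1 = u.1 + v.1 + w.1 := by rw [h8]; rfl
  have q4 : (z (p + 4)).1 = w.1 := by rw [h1]
  rcases z0_cases h' H S hc h1 with h0 | h0 | h0
  · have q3 : (z (p + 3)).1 = w.1 - v.1 := by rw [h0]; rfl
    have e6 := typeA_6 h' H S hc h1 h0
    rcases typeA_m1 h' H S hc h1 h0 with hm | hm
    · have q2 : (z (p + 2)).1 = u.1 - w.1 := by rw [hm]; rfl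
      have := typeA_m2 h' H S hc h1 h0 hm
      refine ⟨by simp only []; omega, by simp only []; omega, by simp only []; omega, Or.inl ⟨by simp only []; omega, Or.inr ⟨by simp only []; omega, by simp only []; omega⟩⟩⟩
    · refine ⟨by simp only []; omega, by simp only []; omega, by simp only []; omega, Or.inl ⟨by simp only []; omega, Or.inl (by simp only []; omega)⟩⟩
  · have q3 : (z (p + 3)).1 = u.1 + v.1 - w.1 := by rw [h0]; rfl
    have hm := typeD_m1 h' H S hc h1 h0
    have h6 := typeD_6 h' H S hc h1 h0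
    have q9 : (z (p + 9)).1 = u.1 + u.1 + v.1 + w.1 := by rw [h6]; rfl
    refine ⟨by simp only []; omega, by simp only []; omega, by simp only []; omega, Or.inr (Or.inr ⟨by simp only []; omega, by simp only []; omega, by simp only []; omega, ?_⟩)⟩
    rcases typeD_7 h' H S hc h1 h0 h6 with h7 | h7
    · have q10 : (z (p + 10)).1 = u.1 + u.1 + v.1 + w.1 + w.1 := by rw [h7]; rfl
      refine Or.inr ⟨by simp only []; omega, ?_⟩
      rcases typeD_8 h' H S hc h1 h0 h6 h7 with h8' | h8'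
      · have q11 : (z (p + 11)).1 = u.1 + u.1 + u.1 + u.1 + v.1 + v.1 + w.1 + w.1 + w.1 := by
          rw [h8']; rfl
        have e9 := typeD_9 h' H S hc h1 h0 h6 h7 h8'
        refine Or.inr ⟨by simp only []; omega, by simp only []; omega⟩
      · exact Or.inl h8'
    · exact Or.inl h7
  · have q3 : (z (p + 3)).1 = u.1 - w.1 := by rw [h0]; rfl
    have e6 := typeE_6 h' H S hc h1 h0
    rcases typeE_m1 h' H S hc h1 h0 with hm | hm
    · have q2 : (z (p + 2)).1 = w.1 - v.1 := by rw [hm]; rfl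
      have := typeE_m2 h' H S hc h1 h0 hm
      refine ⟨by simp only []; omega, by simp only []; omega, by simp only []; omega, Or.inr (Or.inl ⟨by simp only []; omega, Or.inr ⟨by simp only []; omega, by simp only []; omega⟩⟩)⟩
    · refine ⟨by simp only []; omega, by simp only []; omega, by simp only []; omega, Or.inr (Or.inl ⟨by simp only []; omega, Or.inl (by simp only []; omega)⟩)⟩

end Pool.Agent.Work.MP_7453a1_nt_sup
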